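import Pool.Agent.T2h81.UC.B3

set_option autoImplicit false
set_option linter.unusedSectionVars false
set_option linter.unusedVariables false
set_option maxHeartbeats 4000000

/-! # Families of sets of integers with few overlaps: the main theorem -/

namespace Pool.Agent.T2h81.UC

open Finset Filter Pool.Agent.H256R2.SC Pool.Agent.Y831.RC

open scoped Classical

theorem CovS_mono {z z' : ℝ} (h : z ≤ z') {V : Finset ℤ} {n : ℤ} (hc : CovS z V n) : CovS z' V n := by
  intro v hv
  obtain ⟨p, h1, h2, h3⟩ := hc v hv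
  exact ⟨p, h1, h2.trans h, h3⟩

/-- the number of integers of an interval in a class -/
theorem count_class (M : ℤ) (N : ℕ) (P : ℕ) (hP : 0 < P) (b : ℤ) :
    (((Ioc M (M + N)).filter (fun n : ℤ => (P : ℤ) ∣ n - b)).card : ℝ) ≤ (N : ℝ) / P + 1 := by
  have h := LG.count_Ioc M (M + N) (by omega) P hP b
  have h2 := (abs_le.1 h).2
  push_cast at h2
  have h3 : ((M : ℝ) + N - M) / P = (N : ℝ) / P := by congr 1; ring
  rw [h3] at h2
  linarith

theorem J_bound {e : ℝ} (he : 6400 ≤ e) :
    16 * (⌈Real.exp (e ^ 2 * Real.exp e + e / 2)⌉₊ : ℝ) ≤ Real.exp (Real.exp (2 * e)) := by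
  have he0 : 0 ≤ e := by linarith
  have e0 := Nat.ceil_lt_add_one (Real.exp_pos (e ^ 2 * Real.exp e + e / 2)).le
  have e1 : 1 ≤ Real.exp (e ^ 2 * Real.exp e + e / 2) := Real.one_le_exp (by positivity)
  have e3 : (2:ℝ) ≤ Real.exp 1 := by
    have := Real.add_one_le_exp (1:ℝ)
    linarith
  have e4 : (32:ℝ) ≤ Real.exp 5 := by
    have : Real.exp 5 = Real.exp 1 ^ 5 := by rw [← Real.exp_nat_mul]; norm_num
    rw [this]
    calc (32:ℝ) = 2 ^ 5 := by norm_num
      _ ≤ _ := pow_le_pow_left₀ (by norm_num) e3 5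
  have e5 : 16 * (⌈Real.exp (e ^ 2 * Real.exp e + e / 2)⌉₊ : ℝ) ≤
      Real.exp (e ^ 2 * Real.exp e + e / 2 + 5) := by
    rw [Real.exp_add _ 5]
    nlinarith
  refine e5.trans (Real.exp_le_exp.2 ?_)
  have e6 : e ^ 3 / 6 ≤ Real.exp e := by
    have := Real.pow_div_factorial_le_exp e he0 3
    norm_num [Nat.factorial] at this
    exact this
  have e7 : e ^ 2 + 1 ≤ Real.exp e := by nlinarith [sq_nonneg e]
  have e8 : Real.exp (2 * e) = Real.exp e * Real.exp e := by rw [← Real.exp_add]; congr 1; ring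
  have e9 : e + 1 ≤ Real.exp e := Real.add_one_le_exp e
  rw [e8]
  have e10 : (e ^ 2 + 1) * Real.exp e ≤ Real.exp e * Real.exp e :=
    mul_le_mul_of_nonneg_right e7 (Real.exp_pos e).le
  nlinarith

theorem fam_main : ∃ C : ℝ, 1 ≤ C ∧ ∀ D lam ε : ℝ, 0 ≤ D → 1 ≤ lam → 0 < ε → ε ≤ 1 →
    ∃ X₀ : ℝ, 1 < X₀ ∧ ∀ X : ℝ, X₀ ≤ X → ∀ (M : ℤ) (N : ℕ), X ≤ N → ∀ (m : ℕ) (V : ℕ → Finset ℤ),
    (∀ i < m, ((V i).card : ℝ) ≤ lam * Real.log X) → (∀ i < m, ∀ v ∈ V i, |(v : ℝ)| ≤ X ^ D) →
    (∀ i < m, (((range m).filter (fun j => ¬ Disjoint (V i) (V j))).card : ℝ) ≤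
      Real.exp (-Real.exp (C * lam / ε)) * m) →
    (((Ioc M (M + N)).filter (fun n => (((range m).filter
      (fun i => CovS (X ^ (1 / lam)) (V i) n)).card : ℝ) <
        Real.exp (-Real.exp (C * lam / ε)) * m)).card : ℝ) ≤ ε * N := by
  obtain ⟨c₃, e₀, L₀, hc₃, he₀, hL₀, hcls⟩ := class_main
  obtain ⟨C₄, L₁, hC₄, hL₁, hW⟩ := prop_small
  obtain ⟨C', hC'⟩ : ∃ C' : ℝ, C' = 1088 + 64 * C₄ / c₃ + e₀ := ⟨_, rfl⟩
  have hq0 : 0 < 64 * C₄ / c₃ := by positivity
  have hC'1 : 1088 ≤ C' := by linarith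
  have hC'2 : 64 * C₄ / c₃ ≤ C' := by linarith
  have hC'3 : e₀ ≤ C' := by linarith
  have hC'0 : 0 < C' := by linarith
  refine ⟨2 * C', by linarith, ?_⟩
  intro D lam ε hD hlam hε hε1
  have hlam0 : 0 < lam := by linarith
  set e : ℝ := C' * lam / ε with he
  have hlε : lam ≤ lam / ε := by
    rw [le_div_iff₀ hε]
    nlinarith only [hlam0, hε1]
  have heC : C' ≤ e := by
    rw [he, mul_div_assoc]
    have : 1 ≤ lam / ε := hlam.trans hlε
    nlinarith only [this, hC'0]
  have hee₀ : e₀ ≤ e := hC'3.trans heC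
  have he6400 : 6400 ≤ e := he₀.trans hee₀
  have he0 : 0 < e := by linarith
  have hlame : lam ≤ e := by
    rw [he, mul_div_assoc]
    have h0 : 0 ≤ lam / ε := by positivity
    nlinarith only [hlε, hC'1, h0]
  set θ : ℝ := Real.exp (-Real.exp (2 * C' * lam / ε)) with hθ
  have hθ2 : 2 * C' * lam / ε = 2 * e := by rw [he]; ring
  rw [hθ2] at hθ
  have hθ0 : 0 < θ := Real.exp_pos _
  have hθ1 : θ ≤ 1 := by rw [hθ, Real.exp_le_one_iff]; linarith [Real.exp_pos (2 * e)]
  set J₀ : ℕ := ⌈Real.exp (e ^ 2 * Real.exp e + e / 2)⌉₊ with hJ₀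
  have hJ1 : Real.exp (e ^ 2 * Real.exp e + e / 2) ≤ (J₀ : ℝ) := Nat.le_ceil _
  have hJpos : 0 < J₀ := by
    have : (0:ℝ) < J₀ := (Real.exp_pos _).trans_le hJ1
    exact_mod_cast this
  have hJr : (0:ℝ) < J₀ := by exact_mod_cast hJpos
  have hθJ : θ * (16 * J₀) ≤ 1 := by
    have h1 := J_bound he6400
    rw [hθ, Real.exp_neg, ← hJ₀] at *
    rw [inv_mul_le_iff₀ (Real.exp_pos _), mul_one]
    exact h1
  set Ls : ℝ := L₀ + L₁ + Real.exp (4 * e) + J₀ + 64 * (J₀ * e) ^ 3 * (2 * D + 1) / ε with hLs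
  have hLs0 : 0 ≤ 64 * (J₀ * e) ^ 3 * (2 * D + 1) / ε := by positivity
  have hE4 := Real.exp_pos (4 * e)
  refine ⟨Real.exp (2 * Ls), Real.one_lt_exp_iff.2 (by linarith), ?_⟩
  intro X hX M N hN m V hcard hsize hconf
  have hX0 : 0 < X := (Real.exp_pos _).trans_le hX
  set L : ℝ := Real.log X / 2 with hL
  have hlX : Real.log X = 2 * L := by rw [hL]; ring
  have hXL : X = Real.exp (2 * L) := by rw [← hlX, Real.exp_log hX0]
  have hLL : Ls ≤ L := by
    have : 2 * Ls ≤ Real.log X := by
      rw [Real.le_log_iff_exp_le hX0]; exact hX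
    linarith
  have hLL₀ : L₀ ≤ L := by linarith
  have hLL₁ : L₁ ≤ L := by linarith
  have hL4 : Real.exp (4 * e) ≤ L := by linarith
  have hLJ : (J₀ : ℝ) ≤ L := by linarith
  have hLδ : 64 * (J₀ * e) ^ 3 * (2 * D + 1) / ε ≤ L := by linarith
  have hL1600 : 1600 ≤ L := hL₀.trans hLL₀
  have hLpos : 0 < L := by linarith
  obtain ⟨hWL, hl1⟩ := hW L hLL₁
  set l : ℝ := Real.log L with hl
  have hl0 : 0 < l := by linarith
  have hel : e ≤ 1 / 4 * l := by
    have : 4 * e ≤ l := by rw [hl, Real.le_log_iff_exp_le hLpos]; exact hL4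
    linarith
  by_cases hne : ∃ i < m, (V i).Nonempty
  swap
  · push Not at hne
    have h0 : ((Ioc M (M + N)).filter (fun n => (((range m).filter
      (fun i => CovS (X ^ (1 / lam)) (V i) n)).card : ℝ) < θ * m)) = ∅ := by
      apply Finset.filter_eq_empty_iff.2
      intro n _
      rw [not_lt]
      have h1 : (range m).filter (fun i => CovS (X ^ (1 / lam)) (V i) n) = range m := by
        apply Finset.filter_true_of_mem
        intro i hi v hv
        have h2 := hne i (Finset.mem_range.1 hi)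
        rw [h2] at hv
        simp at hv
      rw [h1, Finset.card_range]
      have : (0:ℝ) ≤ m := Nat.cast_nonneg _
      nlinarith only [this, hθ1]
    rw [h0]
    simp only [Finset.card_empty, Nat.cast_zero]
    positivity
  have hmθ : 1 ≤ θ * m := by
    obtain ⟨i, hi, v, hv⟩ := hne
    refine le_trans ?_ (hconf i hi)
    have : 0 < ((range m).filter (fun j => ¬ Disjoint (V i) (V j))).card := by
      apply Finset.card_pos.2
      refine ⟨i, ?_⟩
      rw [Finset.mem_filter, Finset.mem_range]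
      refine ⟨hi, fun h => ?_⟩
      exact (Finset.disjoint_left.1 h hv) hv
    exact_mod_cast this
  have hm0 : (0:ℝ) < m := by
    by_contra h
    push Not at h
    nlinarith only [h, hmθ, hθ0]
  have hmJ : 16 * (J₀ : ℝ) ≤ m := le_of_mul_le_mul_left (hθJ.trans hmθ) hθ0
  -- the numbers
  set d : ℕ := ⌊θ * m⌋₊ with hd
  have hdr : (d : ℝ) ≤ θ * m := Nat.floor_le (by positivity)
  have hJd : (J₀ : ℝ) * d ≤ m / 16 := by
    have h1 : (J₀ : ℝ) * d ≤ J₀ * (θ * m) := mul_le_mul_of_nonneg_left hdr hJr.le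
    have h2 : θ * (16 * J₀) * m ≤ 1 * m := mul_le_mul_of_nonneg_right hθJ hm0.le
    linarith
  set g : ℕ := m / (4 * J₀) with hg
  have hg1 : g * (4 * J₀) ≤ m := Nat.div_mul_le_self _ _
  have hg1r : (g : ℝ) * (4 * J₀) ≤ m := by exact_mod_cast hg1
  have hg2 : (m : ℝ) < (g + 1) * (4 * J₀) := by
    have : m < (g + 1) * (4 * J₀) := by
      have := Nat.lt_div_mul_add (a := m) (show 0 < 4 * J₀ by positivity)
      rw [← hg] at this
      linarith [this]
    exact_mod_cast this
  have hg3 : (m : ℝ) / (8 * J₀) ≤ g := by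
    rw [div_le_iff₀ (by positivity)]
    nlinarith only [hg2, hmJ, hJr]
  have hg0 : 0 < g := by
    have : (0:ℝ) < g := lt_of_lt_of_le (by positivity) hg3
    exact_mod_cast this
  have hθg : θ * m ≤ g / 2 := by
    have h1 : θ * m ≤ m / (16 * J₀) := by
      rw [le_div_iff₀ (by positivity)]
      have h2 : θ * (16 * J₀) * m ≤ 1 * m := mul_le_mul_of_nonneg_right hθJ hm0.le
      linarith
    have h2 : (m : ℝ) / (16 * J₀) = m / (8 * J₀) / 2 := by field_simp; norm_num
    linarith
  set x : ℝ := L / 32 with hx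
  have hx0 : 0 ≤ x := by positivity
  set P : ℕ := primorial ⌊x⌋₊ with hP
  have hPpos : 0 < P := primorial_pos _
  have hPr : (0:ℝ) < P := by exact_mod_cast hPpos
  have hPx : (P:ℝ) ≤ Real.exp (L / 16) := by
    refine (primorial_le_exp x hx0).trans (le_of_eq ?_)
    rw [hx]
    congr 1
    ring
  have hNr : Real.exp (2 * L) ≤ N := by rw [← hXL]; exact hN
  have hPN : (P : ℝ) ≤ N := hPx.trans ((Real.exp_le_exp.2 (by linarith)).trans hNr)
  set q : ℝ := c₃ * e * L / l with hq
  have hq0 : 0 < q := by positivity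
  set δ : ℝ := 17 * Real.exp (-(e / 2)) + (J₀ * e) ^ 3 * (2 * D * L + 1) / L ^ 3 with hδ
  have hδ0 : 0 ≤ δ := by positivity
  have hδε : δ ≤ 3 / 64 * ε := by
    have h1 : Real.exp (-(e / 2)) ≤ 2 / e := by
      rw [Real.exp_neg, inv_eq_one_div, div_le_div_iff₀ (Real.exp_pos _) he0]
      have := Real.add_one_le_exp (e / 2)
      linarith
    have h2 : 2 / e ≤ 2 * ε / 1088 := by
      rw [div_le_div_iff₀ he0 (by norm_num)]
      have h3 : ε * e = C' * lam := by rw [he]; field_simp
      have h4 : 1088 ≤ C' * lam := by nlinarith only [hC'1, hlam]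
      nlinarith only [h3, h4, hε]
    have h3 : (J₀ * e) ^ 3 * (2 * D * L + 1) / L ^ 3 ≤ ε / 64 := by
      rw [div_le_iff₀ (by positivity)]
      rw [div_le_iff₀ hε] at hLδ
      have h4 : 2 * D * L + 1 ≤ (2 * D + 1) * L := by nlinarith only [hL1600]
      have h5 : (0:ℝ) ≤ (J₀ * e) ^ 3 := by positivity
      calc (J₀ * e) ^ 3 * (2 * D * L + 1) ≤ (J₀ * e) ^ 3 * ((2 * D + 1) * L) :=
            mul_le_mul_of_nonneg_left h4 h5
        _ = (64 * (J₀ * e) ^ 3 * (2 * D + 1)) * L / 64 := by ring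
        _ ≤ (L * ε) * L / 64 := by
            apply div_le_div_of_nonneg_right _ (by norm_num)
            exact mul_le_mul_of_nonneg_right hLδ hLpos.le
        _ = ε / 64 * L ^ 2 := by ring
        _ ≤ ε / 64 * L ^ 3 := by
            apply mul_le_mul_of_nonneg_left _ (by positivity)
            exact pow_le_pow_right₀ (by linarith) (by norm_num)
    rw [hδ]
    linarith
  -- the classes
  set Gb : ℕ → Finset ℕ := fun b => (range m).filter (fun i => ((sv P (b : ℤ) (V i)).card : ℝ) ≤ q)
    with hGb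
  have hexpT : Real.exp (2 * D * L) = X ^ D := by
    rw [Real.rpow_def_of_pos hX0, hlX]
    congr 1
    ring
  have hzX : Real.exp (L / (6400 * e)) ≤ X ^ (1 / lam) := by
    rw [Real.rpow_def_of_pos hX0, hlX]
    apply Real.exp_le_exp.2
    rw [mul_one_div, div_le_div_iff₀ (by positivity) hlam0]
    have h1 : L * lam ≤ L * e := mul_le_mul_of_nonneg_left hlame hLpos.le
    have h2 : 0 ≤ L * e := by positivity
    linarith only [h1, h2]
  have hgood : ∀ b : ℕ, (m : ℝ) / 2 ≤ (Gb b).card →
      (((Ioc M (M + N)).filter (fun n : ℤ => (P : ℤ) ∣ n - b ∧ ¬ (θ * m ≤ (((range m).filter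
      (fun i => CovS (X ^ (1 / lam)) (V i) n)).card : ℝ)))).card : ℝ) ≤ 2 * (δ * ((N : ℝ) / P + 1)) := by
    intro b hb
    have hK : g * J₀ + J₀ * d ≤ (Gb b).card := by
      have h1 : ((g * J₀ + J₀ * d : ℕ) : ℝ) ≤ (Gb b).card := by
        push_cast
        refine le_trans ?_ hb
        linarith
      exact_mod_cast h1
    obtain ⟨a, ha⟩ := seq_groups (Gb b) (fun i j => ¬ Disjoint (V i) (V j)) J₀ d hJpos (by
      intro i hi
      have hi' := Finset.mem_range.1 (Finset.mem_filter.1 hi).1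
      apply Nat.le_floor
      refine le_trans ?_ (hconf i hi')
      rw [Nat.cast_le]
      apply Finset.card_le_card
      intro j hj
      replace hj := (mem_filt _ _ _ _).1 hj
      refine (mem_filt _ _ _ _).2 ⟨(Finset.mem_filter.1 hj.1).1, hj.2⟩) (g * J₀) hK
    set S : Finset ℤ := (Ioc M (M + N)).filter (fun n : ℤ => (P : ℤ) ∣ n - b) with hS
    have hgc := group_count S (X ^ (1 / lam)) V m J₀ g hg0 a (fun k hk =>
      ⟨Finset.mem_range.1 (Finset.mem_filter.1 (ha k hk).1).1, fun k' hk' => ((ha k hk).2 k' hk').1⟩)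
      (δ * ((N : ℝ) / P + 1)) (by
        intro r hr
        have hlt : ∀ s : Fin J₀, r * J₀ + s < g * J₀ := by
          intro s
          have h1 := s.2
          calc r * J₀ + (s : ℕ) < r * J₀ + J₀ := by omega
            _ = (r + 1) * J₀ := by ring
            _ ≤ g * J₀ := Nat.mul_le_mul_right _ hr
        have hdiv : ∀ s : Fin J₀, (r * J₀ + s) / J₀ = r := by
          intro s
          rw [mul_comm, Nat.mul_add_div hJpos, Nat.div_eq_of_lt s.2, add_zero]
        have h1 := hcls L e hLL₀ hee₀ hel J₀ hJ1 hLJ (2 * D * L) (by positivity)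
          (fun s : Fin J₀ => V (a (r * J₀ + s))) (b : ℤ) (by
            intro s s' hss
            have hss' : (s : ℕ) ≠ s' := fun h => hss (Fin.ext h)
            rcases Nat.lt_or_gt_of_ne hss' with h | h
            · have h2 := ((ha _ (hlt s')).2 (r * J₀ + s) (by omega)).2
              rw [hdiv, hdiv] at h2
              exact not_not.1 (h2 rfl)
            · have h2 := ((ha _ (hlt s)).2 (r * J₀ + s') (by omega)).2
              rw [hdiv, hdiv] at h2
              exact (not_not.1 (h2 rfl)).symm) (by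
            intro s v hv
            rw [hexpT]
            exact hsize _ (Finset.mem_range.1 (Finset.mem_filter.1 (ha _ (hlt s)).1).1) v hv) (by
            intro s
            exact (Finset.mem_filter.1 (ha _ (hlt s)).1).2) M N hNr
        refine le_trans ?_ h1
        rw [Nat.cast_le]
        apply Finset.card_le_card
        intro n hn
        rw [hS, Finset.filter_filter, Finset.mem_filter] at hn
        rw [Finset.mem_filter]
        refine ⟨hn.1, hn.2.1, fun hc => hn.2.2 ?_⟩
        obtain ⟨s, hs⟩ := hc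
        exact ⟨s, CovS_mono hzX hs⟩)
    refine le_trans ?_ hgc
    rw [Nat.cast_le]
    apply Finset.card_le_card
    intro n hn
    rw [Finset.mem_filter] at hn
    rw [Finset.mem_filter, hS, Finset.mem_filter]
    refine ⟨⟨hn.1, hn.2.1⟩, ?_⟩
    have h1 := not_le.1 hn.2.2
    linarith
  set Bb : Finset ℕ := (range P).filter (fun b => ((Gb b).card : ℝ) < m / 2) with hBb
  have hBbc : (Bb.card : ℝ) ≤ ε / 16 * P := by
    have h1 : (m : ℝ) / 2 * Bb.card ≤ ∑ b ∈ range P, ∑ i ∈ range m,
        ((sv P (b : ℤ) (V i)).card : ℝ) / q := by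
      calc (m : ℝ) / 2 * Bb.card = ∑ _b ∈ Bb, (m : ℝ) / 2 := by
            rw [Finset.sum_const, nsmul_eq_mul]; ring
        _ ≤ ∑ b ∈ Bb, ∑ i ∈ range m, ((sv P (b : ℤ) (V i)).card : ℝ) / q := by
            apply Finset.sum_le_sum
            intro b hb
            have h2 := (Finset.mem_filter.1 hb).2
            have h3 : ((Gb b).card : ℝ) +
                ((range m).filter (fun i => ¬ ((sv P (b : ℤ) (V i)).card : ℝ) ≤ q)).card = m := by
              have := Finset.card_filter_add_card_filter_not (s := range m)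
                (fun i => ((sv P (b : ℤ) (V i)).card : ℝ) ≤ q)
              rw [Finset.card_range] at this
              exact_mod_cast this
            have h4 : (m : ℝ) / 2 ≤
                ((range m).filter (fun i => ¬ ((sv P (b : ℤ) (V i)).card : ℝ) ≤ q)).card := by linarith
            refine h4.trans ?_
            calc (((range m).filter (fun i => ¬ ((sv P (b : ℤ) (V i)).card : ℝ) ≤ q)).card : ℝ)
                = ∑ i ∈ (range m).filter (fun i => ¬ ((sv P (b : ℤ) (V i)).card : ℝ) ≤ q), (1:ℝ) := by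
                  rw [Finset.sum_const, nsmul_eq_mul, mul_one]
              _ ≤ ∑ i ∈ (range m).filter (fun i => ¬ ((sv P (b : ℤ) (V i)).card : ℝ) ≤ q),
                  ((sv P (b : ℤ) (V i)).card : ℝ) / q := by
                  apply Finset.sum_le_sum
                  intro i hi
                  have h5 := not_le.1 (Finset.mem_filter.1 hi).2
                  rw [le_div_iff₀ hq0]
                  linarith
              _ ≤ _ := Finset.sum_le_sum_of_subset_of_nonneg (Finset.filter_subset _ _)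
                  fun _ _ _ => div_nonneg (Nat.cast_nonneg _) hq0.le
        _ ≤ _ := Finset.sum_le_sum_of_subset_of_nonneg (Finset.filter_subset _ _)
            fun _ _ _ => Finset.sum_nonneg fun _ _ => div_nonneg (Nat.cast_nonneg _) hq0.le
    have h2 : ∑ b ∈ range P, ∑ i ∈ range m, ((sv P (b : ℤ) (V i)).card : ℝ) / q ≤
        m * (lam * (2 * L) * (P * WW x) / q) := by
      rw [Finset.sum_comm]
      calc ∑ i ∈ range m, ∑ b ∈ range P, ((sv P (b : ℤ) (V i)).card : ℝ) / q
          ≤ ∑ _i ∈ range m, (lam * (2 * L) * (P * WW x) / q) := by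
            apply Finset.sum_le_sum
            intro i hi
            rw [← Finset.sum_div]
            apply div_le_div_of_nonneg_right _ hq0.le
            have h3 := sum_sv P hPpos (V i)
            have h4 : ∑ b ∈ range P, ((sv P (b : ℤ) (V i)).card : ℝ) = (V i).card * (P.totient : ℝ) := by
              exact_mod_cast h3
            rw [h4, hP, tot_primorial x hx0, ← hP]
            have h5 := hcard i (Finset.mem_range.1 hi)
            rw [hlX] at h5
            apply mul_le_mul_of_nonneg_right h5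
            have := WW_pos x
            positivity
        _ = _ := by rw [Finset.sum_const, Finset.card_range, nsmul_eq_mul]
    have h3 : lam * (2 * L) * (P * WW x) / q ≤ ε / 32 * P := by
      rw [div_le_iff₀ hq0]
      have h4 : P * WW x ≤ P * (C₄ / l) := mul_le_mul_of_nonneg_left hWL hPr.le
      have h5 : lam * (2 * L) * (P * WW x) ≤ lam * (2 * L) * (P * (C₄ / l)) :=
        mul_le_mul_of_nonneg_left h4 (by positivity)
      refine h5.trans ?_
      have h6 : ε / 32 * P * q = (ε * e) * c₃ * (L / l * P) / 32 := by rw [hq]; ring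
      have h7 : ε * e = C' * lam := by rw [he]; field_simp
      have h8 : 64 * C₄ ≤ C' * c₃ := by
        rw [div_le_iff₀ hc₃] at hC'2
        exact hC'2
      rw [h6, h7]
      have h9 : 0 ≤ lam * (L / l * P) := by positivity
      have h10 : lam * (2 * L) * (P * (C₄ / l)) = 2 * C₄ * (lam * (L / l * P)) := by ring
      have h11 : C' * lam * c₃ * (L / l * P) / 32 = (C' * c₃) / 32 * (lam * (L / l * P)) := by ring
      rw [h10, h11]
      apply mul_le_mul_of_nonneg_right _ h9
      linarith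
    have h4 : (m : ℝ) * (Bb.card / 2) ≤ m * (ε / 32 * P) := by
      calc (m : ℝ) * (Bb.card / 2) = m / 2 * Bb.card := by ring
        _ ≤ _ := h1.trans (h2.trans (mul_le_mul_of_nonneg_left h3 hm0.le))
    have h5 := le_of_mul_le_mul_left h4 hm0
    linarith
  -- the sum over the classes
  have hall := sum_classes (Ioc M (M + N)) P hPpos (fun n => θ * m ≤ (((range m).filter
      (fun i => CovS (X ^ (1 / lam)) (V i) n)).card : ℝ))
  have hlhs : ((Ioc M (M + N)).filter (fun n => (((range m).filter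
      (fun i => CovS (X ^ (1 / lam)) (V i) n)).card : ℝ) < θ * m)) =
      (Ioc M (M + N)).filter (fun n => ¬ (θ * m ≤ (((range m).filter
      (fun i => CovS (X ^ (1 / lam)) (V i) n)).card : ℝ))) := by
    apply Finset.filter_congr
    intro n _
    rw [not_le]
  rw [hlhs]
  refine hall.trans ?_
  have hterm : ∀ b ∈ range P, (((Ioc M (M + N)).filter (fun n : ℤ => (P : ℤ) ∣ n - b ∧
      ¬ (θ * m ≤ (((range m).filter (fun i => CovS (X ^ (1 / lam)) (V i) n)).card : ℝ)))).card : ℝ) ≤
      (if b ∈ Bb then ((N : ℝ) / P + 1) else 0) + 2 * (δ * ((N : ℝ) / P + 1)) := by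
    intro b hb
    by_cases hbB : b ∈ Bb
    · rw [if_pos hbB]
      have h1 : (((Ioc M (M + N)).filter (fun n : ℤ => (P : ℤ) ∣ n - b ∧
        ¬ (θ * m ≤ (((range m).filter (fun i => CovS (X ^ (1 / lam)) (V i) n)).card : ℝ)))).card : ℝ) ≤
        (N : ℝ) / P + 1 := by
        refine le_trans ?_ (count_class M N P hPpos b)
        rw [Nat.cast_le]
        apply Finset.card_le_card
        intro n hn
        rw [Finset.mem_filter] at hn ⊢
        exact ⟨hn.1, hn.2.1⟩
      have h2 : 0 ≤ 2 * (δ * ((N : ℝ) / P + 1)) := by positivity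
      linarith
    · rw [if_neg hbB, zero_add]
      apply hgood b
      by_contra hcon
      push Not at hcon
      exact hbB (Finset.mem_filter.2 ⟨hb, hcon⟩)
  refine (Finset.sum_le_sum hterm).trans ?_
  rw [Finset.sum_add_distrib, Finset.sum_const, Finset.card_range, nsmul_eq_mul]
  have h1 : ∑ b ∈ range P, (if b ∈ Bb then ((N : ℝ) / P + 1) else 0) = Bb.card * ((N : ℝ) / P + 1) := by
    rw [← Finset.sum_filter]
    have : (range P).filter (fun b => b ∈ Bb) = Bb := by
      ext b
      rw [Finset.mem_filter]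
      exact ⟨fun h => h.2, fun h => ⟨(Finset.mem_filter.1 h).1, h⟩⟩
    rw [this, Finset.sum_const, nsmul_eq_mul]
  rw [h1]
  have h2 : 0 ≤ (N : ℝ) / P + 1 := by positivity
  have h3 : (Bb.card : ℝ) * ((N : ℝ) / P + 1) ≤ ε / 16 * P * ((N : ℝ) / P + 1) :=
    mul_le_mul_of_nonneg_right hBbc h2
  have h4 : (P : ℝ) * ((N : ℝ) / P + 1) = N + P := by field_simp
  have h5 : (P : ℝ) * (2 * (δ * ((N : ℝ) / P + 1))) = 2 * δ * (N + P) := by
    rw [← h4]; ring
  have h6 : ε / 16 * P * ((N : ℝ) / P + 1) = ε / 16 * (N + P) := by rw [mul_assoc, h4]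
  rw [h5]
  rw [h6] at h3
  have h7 : (N : ℝ) + P ≤ 2 * N := by linarith
  have h8 : 0 ≤ (N : ℝ) + P := by positivity
  have h9 : 2 * δ * (N + P) ≤ 2 * (3 / 64 * ε) * (N + P) := by
    apply mul_le_mul_of_nonneg_right _ h8
    linarith
  have h10 : (ε / 16 + 2 * (3 / 64 * ε)) * (N + P) ≤ (ε / 16 + 2 * (3 / 64 * ε)) * (2 * N) :=
    mul_le_mul_of_nonneg_left h7 (by positivity)
  have h11 : (0:ℝ) ≤ ε * N := by positivity
  linarith only [h3, h9, h10, h11]

end Pool.Agent.T2h81.UC
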