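import Pool.Agent.T2h81.UC.A13

set_option autoImplicit false
set_option linter.unusedSectionVars false
set_option linter.unusedVariables false
set_option maxHeartbeats 4000000

/-! # Almost all integers are soon followed by a long run of integers with a small prime factor -/

namespace Pool.Agent.T2h81.UC

open Finset Filter Pool.Agent.H256R2.SC Pool.Agent.Y831.RC

open scoped Classical

/-- between `n` and `n + K log X` there is a run of `lam log X` consecutive integers which have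
a prime factor at most `X ^ (1 / lam)` -/
def RunIn (X lam K : ℝ) (n : ℤ) : Prop :=
  ∃ m : ℤ, n ≤ m ∧ (m : ℝ) + lam * Real.log X ≤ n + K * Real.log X ∧
    ∀ k : ℕ, 1 ≤ k → (k : ℝ) ≤ lam * Real.log X →
      ∃ p : ℕ, p.Prime ∧ (p : ℝ) ≤ X ^ (1 / lam) ∧ (p : ℤ) ∣ m + k

theorem main_int : ∃ C lam₀ X₀ : ℝ, 1 ≤ C ∧ 1 ≤ lam₀ ∧ 1 ≤ X₀ ∧ ∀ X lam : ℝ, X₀ ≤ X →
    lam₀ ≤ lam → Real.exp (Real.exp (C * lam)) ≤ X → ∀ (M : ℤ) (N : ℕ), X ≤ N →
    (((Ioc M (M + N)).filter
      (fun n : ℤ => ¬ RunIn X lam (Real.exp (Real.exp (C * lam))) n)).card : ℝ) ≤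
      Real.exp (-lam) * N := by
  obtain ⟨c₂, e₀, L₀, hc₂, hc₂1, he₀, hmain⟩ := few_bad
  obtain ⟨a, ha⟩ : ∃ a : ℝ, a = 4 / c₂ + 4 := ⟨_, rfl⟩
  have h0 : 0 < 4 / c₂ := by positivity
  have ha4 : 4 ≤ a := by rw [ha]; linarith
  have hac : 4 ≤ c₂ * a := by
    rw [ha, mul_add]
    have : c₂ * (4 / c₂) = 4 := by field_simp
    rw [this]
    linarith
  refine ⟨8 * a, e₀, max 1 (Real.exp (2 * max L₀ 2)), by linarith, by linarith, le_max_left _ _, ?_⟩
  intro X lam hX hlam hXK M N hN
  have hX0 : 0 < X := lt_of_lt_of_le one_pos ((le_max_left _ _).trans hX)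
  have hXe : 2 * max L₀ 2 ≤ Real.log X := by
    rw [Real.le_log_iff_exp_le hX0]
    exact (le_max_right _ _).trans hX
  obtain ⟨L, hL⟩ : ∃ L : ℝ, L = Real.log X / 2 := ⟨_, rfl⟩
  have hLX : Real.log X = 2 * L := by rw [hL]; ring
  have hLL₀ : L₀ ≤ L := by
    have := le_max_left L₀ 2
    linarith
  have hL2 : 2 ≤ L := by
    have := le_max_right L₀ 2
    linarith
  have hL0 : 0 < L := by linarith
  have hlam0 : 0 < lam := by linarith
  obtain ⟨e, he⟩ : ∃ e : ℝ, e = a * lam := ⟨_, rfl⟩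
  have hle : 4 * lam ≤ e := by rw [he]; exact mul_le_mul_of_nonneg_right ha4 hlam0.le
  have hee₀ : e₀ ≤ e := by linarith
  have he0 : 0 < e := by linarith
  have he1000 : 1000 ≤ e := by linarith
  have h8e : 8 * a * lam = 8 * e := by rw [he]; ring
  rw [h8e] at hXK ⊢
  have heL : e ≤ 1 / 4 * Real.log L := by
    have e1 : Real.exp (8 * e) ≤ 2 * L := by
      rw [← hLX, Real.le_log_iff_exp_le hX0]
      exact hXK
    have e2 : 8 * e ≤ Real.log (2 * L) := by
      rw [Real.le_log_iff_exp_le (by linarith)]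
      exact e1
    have e3 : Real.log (2 * L) ≤ 2 * Real.log L := by
      have e4 : 2 * Real.log L = Real.log (L ^ 2) := by rw [Real.log_pow]; norm_num
      rw [e4]
      apply Real.log_le_log (by linarith)
      nlinarith
    linarith
  have hXL : Real.exp (2 * L) = X := by rw [← hLX, Real.exp_log hX0]
  obtain ⟨g1, g2, g3⟩ := hmain L e hLL₀ hee₀ heL M N (by rw [hXL]; exact hN)
  set F : ℕ := ⌊c₂ * e * L⌋₊ with hF
  set J₀ : ℕ := ⌈Real.exp (e ^ 2 * Real.exp e + e / 2)⌉₊ with hJ₀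
  have hF1 : (F : ℝ) ≤ c₂ * e * L := Nat.floor_le (by positivity)
  have hF2 : c₂ * e * L < F + 1 := Nat.lt_floor_add_one _
  have hFlam : lam * Real.log X ≤ F := by
    rw [hLX]
    have e1 : 4 * (lam * L) ≤ c₂ * e * L := by
      calc 4 * (lam * L) ≤ (c₂ * a) * (lam * L) :=
            mul_le_mul_of_nonneg_right hac (by positivity)
        _ = c₂ * e * L := by rw [he]; ring
    have e2 : 1 ≤ lam * L := by nlinarith
    linarith
  have hFH : (F : ℝ) + 1 ≤ 2 * L * e := by
    have e1 : c₂ * e * L ≤ 1 * e * L := by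
      apply mul_le_mul_of_nonneg_right _ hL0.le
      apply mul_le_mul_of_nonneg_right _ he0.le
      linarith
    have e2 : 1 ≤ e * L := by nlinarith
    linarith
  have hJ2 : (J₀ : ℝ) + 1 ≤ Real.exp (e ^ 2 * Real.exp e + e / 2 + 2) := by
    have e1 := Nat.ceil_lt_add_one (Real.exp_pos (e ^ 2 * Real.exp e + e / 2)).le
    have e2 : 1 ≤ Real.exp (e ^ 2 * Real.exp e + e / 2) := Real.one_le_exp (by positivity)
    have e3 : (3:ℝ) ≤ Real.exp 2 := by
      have := Real.add_one_le_exp (2:ℝ)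
      linarith
    rw [Real.exp_add _ 2]
    nlinarith only [e1, e2, e3, hJ₀]
  have hsize : ((J₀ : ℝ) + 1) * (F + 1) ≤ Real.exp (Real.exp (8 * e)) * Real.log X := by
    have e1 : ((J₀ : ℝ) + 1) * (F + 1) ≤ Real.exp (e ^ 2 * Real.exp e + e / 2 + 2) * (2 * L * e) :=
      mul_le_mul hJ2 hFH (by positivity) (Real.exp_pos _).le
    refine e1.trans ?_
    have e2 : e ≤ Real.exp e := by linarith [Real.add_one_le_exp e]
    have e3 : Real.exp (e ^ 2 * Real.exp e + e / 2 + 2) * (2 * L * e) ≤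
        Real.exp (e ^ 2 * Real.exp e + e / 2 + 2) * (2 * L * Real.exp e) := by
      apply mul_le_mul_of_nonneg_left _ (Real.exp_pos _).le
      exact mul_le_mul_of_nonneg_left e2 (by positivity)
    refine e3.trans ?_
    have e4 : Real.exp (e ^ 2 * Real.exp e + e / 2 + 2) * (2 * L * Real.exp e) =
        Real.exp (e ^ 2 * Real.exp e + e / 2 + 2 + e) * (2 * L) := by
      rw [Real.exp_add _ e]; ring
    rw [e4, hLX]
    apply mul_le_mul_of_nonneg_right _ (by positivity)
    apply Real.exp_le_exp.2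
    have e5 : Real.exp (8 * e) = Real.exp e ^ 8 := by rw [← Real.exp_nat_mul]; norm_num
    rw [e5]
    have e6 : 1001 ≤ Real.exp e := by linarith [Real.add_one_le_exp e]
    set E := Real.exp e with hE
    have e7 : e ^ 2 * E ≤ E ^ 3 := by
      have : e ^ 2 ≤ E ^ 2 := pow_le_pow_left₀ he0.le e2 2
      calc e ^ 2 * E ≤ E ^ 2 * E := mul_le_mul_of_nonneg_right this (by linarith)
        _ = E ^ 3 := by ring
    have e8 : e / 2 + 2 + e ≤ E ^ 3 := by
      have f1 : E ≤ E ^ 3 := by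
        calc E = E ^ 1 := (pow_one E).symm
          _ ≤ E ^ 3 := pow_le_pow_right₀ (by linarith) (by norm_num)
      have f2 : 1001 * E ≤ E ^ 3 := by
        calc 1001 * E ≤ E ^ 2 * E := by
              apply mul_le_mul_of_nonneg_right _ (by linarith)
              nlinarith
          _ = E ^ 3 := by ring
      linarith
    have e9 : E ^ 3 + E ^ 3 ≤ E ^ 8 := by
      have f1 : E ^ 4 ≤ E ^ 8 := pow_le_pow_right₀ (by linarith) (by norm_num)
      have f2 : 2 * E ^ 3 ≤ E ^ 4 := by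
        calc 2 * E ^ 3 ≤ E * E ^ 3 := mul_le_mul_of_nonneg_right (by linarith) (by positivity)
          _ = E ^ 4 := by ring
      linarith
    linarith
  have hgood : ∀ n : ℤ, GoodW (Real.exp (L / (6400 * e))) F (F + 1) J₀ n →
      RunIn X lam (Real.exp (Real.exp (8 * e))) n := by
    rintro n ⟨i, hi, hi2⟩
    have hi' : (i : ℝ) + 1 ≤ J₀ := by exact_mod_cast hi
    refine ⟨n + i * ((F + 1 : ℕ) : ℤ), ?_, ?_, ?_⟩
    · have : (0 : ℤ) ≤ (i : ℤ) * ((F + 1 : ℕ) : ℤ) := by positivity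
      linarith
    · push_cast
      have e1 : (i : ℝ) * (F + 1) + F ≤ (J₀ + 1) * (F + 1) := by
        have : (0:ℝ) ≤ F := Nat.cast_nonneg _
        nlinarith
      linarith
    · intro k hk1 hk2
      have hk3 : k ≤ F := by
        have : (k : ℝ) ≤ F := hk2.trans hFlam
        exact_mod_cast this
      obtain ⟨p, hp1, hp2, hp3⟩ := hi2 k hk1 hk3
      refine ⟨p, hp1, hp2.trans ?_, hp3⟩
      rw [Real.rpow_def_of_pos hX0, hLX]
      apply Real.exp_le_exp.2
      have e1 : L / (6400 * e) ≤ L / lam := by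
        apply div_le_div_of_nonneg_left hL0.le hlam0
        linarith
      have e2 : 0 ≤ L / lam := by positivity
      have e3 : 2 * L * (1 / lam) = 2 * (L / lam) := by ring
      linarith
  have hsub : ((Ioc M (M + N)).filter
      (fun n : ℤ => ¬ RunIn X lam (Real.exp (Real.exp (8 * e))) n)).card ≤
      ((Ioc M (M + N)).filter (fun n : ℤ => ¬ GoodW (Real.exp (L / (6400 * e))) F (F + 1) J₀ n)).card := by
    apply Finset.card_le_card
    intro n hn
    rw [Finset.mem_filter] at hn ⊢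
    exact ⟨hn.1, fun h => hn.2 (hgood n h)⟩
  have hN0 : (0 : ℝ) ≤ N := Nat.cast_nonneg _
  calc (((Ioc M (M + N)).filter
      (fun n : ℤ => ¬ RunIn X lam (Real.exp (Real.exp (8 * e))) n)).card : ℝ) ≤
      18 * Real.exp (-(e / 2)) * N := by
        refine le_trans ?_ g3
        exact_mod_cast hsub
    _ ≤ Real.exp (-lam) * N := by
        apply mul_le_mul_of_nonneg_right _ hN0
        have e1 : Real.exp (-lam) = Real.exp lam * Real.exp (-(2 * lam)) := by
          rw [← Real.exp_add]; congr 1; ring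
        have e2 : Real.exp (-(e / 2)) ≤ Real.exp (-(2 * lam)) := Real.exp_le_exp.2 (by linarith)
        have e3 : 18 ≤ Real.exp lam := by linarith [Real.add_one_le_exp lam]
        rw [e1]
        have e4 := Real.exp_pos (-(2 * lam))
        nlinarith

end Pool.Agent.T2h81.UC
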