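import Pool.Agent.T2h81.UC.A16

set_option autoImplicit false
set_option linter.unusedVariables false
set_option maxHeartbeats 4000000

/-! # Many long gaps after almost all primes, uniformly -/

namespace Pool.Agent.T2h81.UC

open Finset Filter Pool.Agent.H361R2.PP Pool.Agent.T2h81.AS

open Classical in
theorem many_unif : ∃ C lam₀ : ℝ, ∃ X₀ : ℕ, 1 ≤ C ∧ 1 ≤ lam₀ ∧ ∀ X : ℕ, X₀ ≤ X →
    ∀ lam : ℝ, lam₀ ≤ lam → ∀ m : ℕ, Real.exp (Real.exp (C * lam)) ≤ m → m ^ 2 ≤ X →
      (((idx X).filter (fun k => ((lg lam m k).card : ℝ) <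
        m * Real.exp (-Real.exp (C * lam)))).card : ℝ) ≤ Real.exp (-lam) * (idx X).card := by
  obtain ⟨C₀, lam₁, X1, hC₀, hlam₁, h1⟩ := soon_unif
  obtain ⟨X2, h2⟩ := idx_double 0
  obtain ⟨X3, h3⟩ := ev_X
  obtain ⟨X4, h4⟩ := large_facts 0 1 1 one_pos one_pos
  refine ⟨C₀ + 1, max lam₁ 13, X1 + X2 + X3 + X4 + 2, by linarith,
    le_trans (by norm_num) (le_max_right _ _), ?_⟩
  intro X hX lam hlam m hm hmX
  have hlam13 : 13 ≤ lam := (le_max_right _ _).trans hlam
  have hlamr : lam₁ ≤ lam := (le_max_left _ _).trans hlam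
  have hlam0 : 0 < lam := by linarith
  obtain ⟨g1, -⟩ := h2 X (by omega)
  obtain ⟨hL3, hL64⟩ := h3 X (by omega)
  obtain ⟨-, hXL2, hPr2, -, -⟩ := h4 (2 * X) (by omega)
  have hX0 : (0 : ℝ) < X := by exact_mod_cast (by omega : 0 < X)
  have hX2 : (2 : ℝ) ≤ X := by exact_mod_cast (by omega : 2 ≤ X)
  set L := Real.log (X : ℝ) with hLd
  have hL : 0 < L := by linarith
  obtain ⟨E, hE⟩ : ∃ E : ℝ, E = Real.exp (C₀ * lam) := ⟨_, rfl⟩
  have hE1 : 1 ≤ E := by rw [hE]; exact Real.one_le_exp (by positivity)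
  obtain ⟨T, hT⟩ : ∃ T : ℝ, T = Real.exp E := ⟨_, rfl⟩
  have hT2 : 2 ≤ T := by
    rw [hT]
    have := Real.add_one_le_exp E
    linarith
  have hEC : E + 2 ≤ Real.exp ((C₀ + 1) * lam) := by
    have e1 : Real.exp ((C₀ + 1) * lam) = E * Real.exp lam := by
      rw [hE, ← Real.exp_add]; congr 1; ring
    rw [e1]
    have e2 := Real.add_one_le_exp lam
    nlinarith only [e2, hE1, hlam13]
  have hTC : 4 * T ≤ Real.exp (Real.exp ((C₀ + 1) * lam)) := by
    refine le_trans ?_ (Real.exp_le_exp.2 hEC)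
    rw [Real.exp_add, ← hT]
    have e1 : (4 : ℝ) ≤ Real.exp 2 := by
      have f1 := Real.add_one_le_exp (1:ℝ)
      have f2 : Real.exp 2 = Real.exp 1 * Real.exp 1 := by rw [← Real.exp_add]; norm_num
      rw [f2]
      nlinarith only [f1]
    nlinarith only [e1, hT2]
  obtain ⟨J, hJd⟩ : ∃ J : ℕ, J = ⌊T⌋₊ := ⟨_, rfl⟩
  have hJ2 : 2 ≤ J := by rw [hJd]; exact Nat.le_floor (by exact_mod_cast hT2)
  have hJT : (J : ℝ) ≤ T := by rw [hJd]; exact Nat.floor_le (by linarith)
  have hJ : 0 < J := by omega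
  have hJr : (0 : ℝ) < J := by exact_mod_cast hJ
  have hTm : 4 * T ≤ m := hTC.trans hm
  have hJm : J ≤ m := by
    have : (J : ℝ) ≤ m := by linarith
    exact_mod_cast this
  have hmX' : (m : ℝ) ^ 2 ≤ X := by exact_mod_cast hmX
  have hm0 : (0 : ℝ) ≤ m := Nat.cast_nonneg _
  have hTX : T ^ 2 ≤ X := by
    refine le_trans ?_ hmX'
    exact pow_le_pow_left₀ (by linarith) (by linarith) 2
  have k1 := h1 X (by omega) lam hlamr (by rw [← hE, ← hT]; exact hTX)
  have k2 := h1 (2 * X) (by omega) lam hlamr (by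
    rw [← hE, ← hT]
    push_cast
    linarith)
  rw [← hE, ← hT, ← hJd] at k1 k2
  have g2 : m ≤ (idx (2 * X)).card := by
    have e0 : Real.log ((2 * X : ℕ) : ℝ) ≤ 2 * L := by
      have : (2 * L) = Real.log ((X : ℝ) ^ 2) := by rw [Real.log_pow, hLd]; norm_num
      rw [this]
      apply Real.log_le_log
      · push_cast; positivity
      · push_cast
        nlinarith only [hX2]
    have e1 : 0 < Real.log ((2 * X : ℕ) : ℝ) := by
      apply Real.log_pos
      push_cast
      linarith
    rw [div_le_iff₀ e1] at hXL2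
    have e2 : (X : ℝ) ≤ Pr (2 * X) * (2 * L) := by
      have f1 : 2 * Pr (2 * X) * Real.log ((2 * X : ℕ) : ℝ) ≤ 2 * Pr (2 * X) * (2 * L) :=
        mul_le_mul_of_nonneg_left e0 (by positivity)
      push_cast at hXL2 f1
      linarith
    have e3 : (m : ℝ) * (2 * L) ≤ X := by
      have f1 : L ^ 2 ≤ L ^ 3 := pow_le_pow_right₀ (by linarith) (by norm_num)
      have f2 : 4 * L ^ 2 ≤ X := by linarith
      have f3 : ((m : ℝ) * (2 * L)) ^ 2 ≤ (X : ℝ) ^ 2 := by
        calc ((m : ℝ) * (2 * L)) ^ 2 = (m : ℝ) ^ 2 * (4 * L ^ 2) := by ring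
          _ ≤ (X : ℝ) * (X : ℝ) := mul_le_mul hmX' f2 (by positivity) hX0.le
          _ = (X : ℝ) ^ 2 := by ring
      exact (pow_le_pow_iff_left₀ (by positivity) hX0.le two_ne_zero).1 f3
    have e4 : (m : ℝ) ≤ ((idx (2 * X)).card : ℝ) := by
      rw [card_idx]
      exact le_of_mul_le_mul_right (e3.trans e2) (by positivity)
    exact_mod_cast e4
  obtain ⟨r, hr⟩ : ∃ r : ℕ, r = m / J := ⟨_, rfl⟩
  have hr1 : 1 ≤ r := by rw [hr]; exact (Nat.one_le_div_iff hJ).2 hJm
  have hrm : r * J ≤ m := by rw [hr]; exact Nat.div_mul_le_self m J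
  have hmr : m < (r + 1) * J := by
    rw [hr]
    exact Nat.lt_mul_of_div_lt (Nat.lt_succ_self _) hJ |>.trans_le le_rfl
  have hrr : (0 : ℝ) < r := by exact_mod_cast hr1
  set Bd := (idx X).filter (fun k => ((lg lam m k).card : ℝ) <
    m * Real.exp (-Real.exp ((C₀ + 1) * lam))) with hBd
  set bad : Finset ℕ := (idx X).filter (fun k => ¬ Soon lam J k) ∪
    (idx (2 * X)).filter (fun k => ¬ Soon lam J k) with hbad
  -- each bad index has many bad blocks
  have e1 : ∀ k ∈ Bd, (r : ℝ) / 2 ≤
      (((range r).filter (fun j => ¬ Soon lam J (k + j * J))).card : ℝ) := by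
    intro k hk
    have h3 := (mem_filter.1 hk).2
    have h4 : (((range r).filter (fun j => Soon lam J (k + j * J))).card : ℝ) ≤
        (lg lam m k).card := by exact_mod_cast blocks_le lam J r m k hJ hrm
    have h5 : (((range r).filter (fun j => Soon lam J (k + j * J))).card : ℝ) +
        ((range r).filter (fun j => ¬ Soon lam J (k + j * J))).card = r := by
      have := card_filter_add_card_filter_not (s := range r) (fun j => Soon lam J (k + j * J))
      rw [card_range] at this
      exact_mod_cast this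
    have h6 : m * Real.exp (-Real.exp ((C₀ + 1) * lam)) ≤ r / 2 := by
      have h7 : (m : ℝ) ≤ (r + 1) * J := by exact_mod_cast hmr.le
      have h8 : (r : ℝ) + 1 ≤ 2 * r := by
        have : (1 : ℝ) ≤ r := by exact_mod_cast hr1
        linarith
      have h9 : (m : ℝ) ≤ 2 * r * T := by
        calc (m : ℝ) ≤ (r + 1) * J := h7
          _ ≤ (2 * r) * T := mul_le_mul h8 hJT hJr.le (by positivity)
      rw [Real.exp_neg, ← div_eq_mul_inv, div_le_iff₀ (Real.exp_pos _)]
      calc (m : ℝ) ≤ 2 * r * T := h9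
        _ = r / 2 * (4 * T) := by ring
        _ ≤ _ := mul_le_mul_of_nonneg_left hTC (by positivity)
    linarith
  have e2 : (Bd.card : ℝ) * (r / 2) ≤ r * bad.card := by
    calc (Bd.card : ℝ) * (r / 2) = ∑ k ∈ Bd, (r : ℝ) / 2 := by rw [sum_const, nsmul_eq_mul]
      _ ≤ ∑ k ∈ Bd, (((range r).filter (fun j => ¬ Soon lam J (k + j * J))).card : ℝ) :=
          sum_le_sum e1
      _ = ∑ k ∈ Bd, ∑ j ∈ range r, (if ¬ Soon lam J (k + j * J) then (1 : ℝ) else 0) := by
          refine sum_congr rfl fun k _ => ?_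
          rw [← sum_filter, sum_const, nsmul_eq_mul, mul_one]
      _ = ∑ j ∈ range r, ((Bd.filter (fun k => ¬ Soon lam J (k + j * J))).card : ℝ) := by
          rw [sum_comm]
          refine sum_congr rfl fun j _ => ?_
          rw [← sum_filter, sum_const, nsmul_eq_mul, mul_one]
      _ ≤ ∑ j ∈ range r, (bad.card : ℝ) := by
          refine sum_le_sum fun j hj => ?_
          rw [mem_range] at hj
          have : (Bd.filter (fun k => ¬ Soon lam J (k + j * J))).card ≤ bad.card := by
            apply card_le_card_of_injOn (fun k => k + j * J)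
            · intro k hk
              rw [mem_coe, mem_filter] at hk
              have h6 : j * J < m := by
                have h7 : (j + 1) * J ≤ r * J := Nat.mul_le_mul_right _ hj
                have h8 : (j + 1) * J = j * J + J := by ring
                omega
              have h5 := idx_shift (mem_filter.1 hk.1).1 h6 g2
              rw [mem_coe, hbad, ← filter_union, mem_filter]
              exact ⟨h5, hk.2⟩
            · intro k _ k' _ h
              have h5 : k + j * J = k' + j * J := h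
              omega
          exact_mod_cast this
      _ = r * bad.card := by rw [sum_const, card_range, nsmul_eq_mul]
  have hx0 : (0 : ℝ) ≤ (idx X).card := Nat.cast_nonneg _
  have e3 : (bad.card : ℝ) ≤ Real.exp (-lam) / 2 * (idx X).card := by
    have h3 : (bad.card : ℝ) ≤ (((idx X).filter (fun k => ¬ Soon lam J k)).card : ℝ) +
        ((idx (2 * X)).filter (fun k => ¬ Soon lam J k)).card := by
      exact_mod_cast card_union_le _ _
    have h4 : Real.exp (-(2 * lam)) * (idx (2 * X)).card ≤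
        Real.exp (-(2 * lam)) * (6 * (idx X).card) :=
      mul_le_mul_of_nonneg_left g1 (Real.exp_pos _).le
    have h5 : 7 * Real.exp (-(2 * lam)) ≤ Real.exp (-lam) / 2 := by
      have f1 : Real.exp (-lam) = Real.exp (-(2 * lam)) * Real.exp lam := by
        rw [← Real.exp_add]; congr 1; ring
      rw [f1]
      have f2 := Real.add_one_le_exp lam
      have f3 := Real.exp_pos (-(2 * lam))
      nlinarith only [f2, f3, hlam13]
    have h6 := mul_le_mul_of_nonneg_right h5 hx0
    linarith
  have e4 : (Bd.card : ℝ) * (r / 2) ≤ (Real.exp (-lam) * (idx X).card) * (r / 2) := by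
    refine e2.trans ?_
    calc (r : ℝ) * bad.card ≤ r * (Real.exp (-lam) / 2 * (idx X).card) :=
          mul_le_mul_of_nonneg_left e3 hrr.le
      _ = _ := by ring
  exact le_of_mul_le_mul_right e4 (by positivity)

end Pool.Agent.T2h81.UC
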