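import Pool.Agent.T2h81.UC.C4

set_option autoImplicit false
set_option linter.unusedVariables false
set_option maxHeartbeats 4000000

/-! # Late classes near every integer -/

namespace Pool.Agent.T2h81.UC

open Finset Filter Pool.Agent.H256R2.SC Pool.Agent.Y831.RC

open scoped Classical

theorem late_main : ∃ C : ℝ, 1 ≤ C ∧ ∀ η lam : ℝ, 0 < η → η ≤ 1 → 1 ≤ lam →
    ∃ d₀ : ℕ, ∀ d : ℕ, d₀ ≤ d → ∀ M N : ℕ, M + N ≤ d → (d : ℝ) ^ η ≤ N → ∀ m : ℕ,
    Real.exp (Real.exp (C * lam / η)) ≤ m → (m : ℝ) ≤ (d : ℝ) ^ (η / 2) →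
    (((Ioc M (M + N)).filter (fun n => n.Coprime d ∧ (((range m).filter (fun j =>
      Late d (lam * d.totient * Real.log d) (rr d n j))).card : ℝ) <
        Real.exp (-Real.exp (C * lam / η)) * m)).card : ℝ) ≤
      Real.exp (-(lam / η)) * (((d.totient : ℝ) / d) * N) := by
  obtain ⟨C', hC', hmain⟩ := class_bound
  refine ⟨2 * C', by linarith, ?_⟩
  intro η lam hη hη1 hlam
  obtain ⟨d₀, hd₀⟩ := hmain η lam hη hη1 hlam
  refine ⟨max d₀ 1, ?_⟩
  intro d hd M N hMN hN m hm1 hm2
  have hexpo : 2 * C' * lam / η = 2 * (C' * (lam / η)) := by ring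
  rw [hexpo] at hm1 ⊢
  obtain ⟨x, z, F, hx1, hz0, hF, htg, htt, hmP, hexc, hcl⟩ := hd₀ d ((le_max_left _ _).trans hd) M N hN m hm1 hm2
  set θ : ℝ := Real.exp (-Real.exp (2 * (C' * (lam / η)))) with hθ
  set Z : ℝ := lam * d.totient * Real.log d with hZ
  have hdpos : 0 < d := lt_of_lt_of_le Nat.one_pos ((le_max_right _ _).trans hd)
  have hd0 : (0:ℝ) < d := by exact_mod_cast hdpos
  set g : ℕ := gs d x with hg
  set P : ℕ := primorial ⌊x⌋₊ with hP
  have hPpos : 0 < P := primorial_pos _
  have hPr : (0:ℝ) < P := by exact_mod_cast hPpos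
  have hgpos : 0 < g := gs_pos d x
  have hg0 : (0:ℝ) < g := by exact_mod_cast hgpos
  have hgP : g ∣ P := gs_dvd_primorial d (by linarith)
  have hgd : ∀ a : ℕ, a.Coprime d → a.Coprime g := fun a ha => coprime_gs hdpos ha
  set cls : ℕ → Finset ℤ := fun b => (Ioc (M : ℤ) (M + N)).filter (fun n : ℤ => (P : ℤ) ∣ n - b ∧
      ¬ (θ * m ≤ (((range m).filter (fun i =>
      CovS z (Vd d F (tt g b i)) n ∧ ¬ NC d x (tt g b i) n)).card : ℝ))) with hcls
  set BadI : Finset ℤ := ((range P).filter (fun b => b.Coprime g)).biUnion cls with hBadI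
  set A := (Ioc M (M + N)).filter (fun n => n.Coprime d ∧ (((range m).filter (fun j =>
      Late d Z (rr d n j))).card : ℝ) < θ * m) with hA
  -- transfer
  have hsub : A ⊆ Finset.Icc 1 ⌊z⌋₊ ∪ (Finset.Icc (d - m * P) d ∪ BadI.image Int.toNat) := by
    intro n hn
    rw [hA, Finset.mem_filter, Finset.mem_Ioc] at hn
    obtain ⟨⟨hn1, hn2⟩, hncop, hnbad⟩ := hn
    rw [Finset.mem_union, Finset.mem_union]
    by_cases hz : (n : ℝ) ≤ z
    · left
      rw [Finset.mem_Icc]
      exact ⟨by omega, Nat.le_floor hz⟩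
    push Not at hz
    right
    by_cases hd' : d - m * P ≤ n
    · left
      rw [Finset.mem_Icc]
      omega
    push Not at hd'
    right
    rw [Finset.mem_image]
    refine ⟨(n : ℤ), ?_, Int.toNat_natCast n⟩
    rw [hBadI, Finset.mem_biUnion]
    set b : ℕ := n % P with hb
    have hbP : b < P := Nat.mod_lt _ hPpos
    have hnb : ∀ t : ℕ, (n + t).Coprime g → (b + t).Coprime g := by
      intro t ht
      have h1 : (b + t) ≡ (n + t) [MOD g] := by
        apply Nat.ModEq.add_right
        have h2 : b ≡ n [MOD P] := Nat.mod_modEq n P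
        exact h2.of_dvd hgP
      have h2 : (b + t).gcd g = (n + t).gcd g := h1.gcd_eq
      unfold Nat.Coprime at ht ⊢
      rw [h2]
      exact ht
    have hnb' : ∀ t : ℕ, (b + t).Coprime g → (n + t).Coprime g := by
      intro t ht
      have h1 : (b + t) ≡ (n + t) [MOD g] := by
        apply Nat.ModEq.add_right
        have h2 : b ≡ n [MOD P] := Nat.mod_modEq n P
        exact h2.of_dvd hgP
      have h2 : (b + t).gcd g = (n + t).gcd g := h1.gcd_eq
      unfold Nat.Coprime at ht ⊢
      rw [← h2]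
      exact ht
    refine ⟨b, ?_, ?_⟩
    · rw [Finset.mem_filter, Finset.mem_range]
      refine ⟨hbP, ?_⟩
      have := hnb 0 (by simpa using hgd n hncop)
      simpa using this
    · rw [hcls, Finset.mem_filter, Finset.mem_Ioc]
      refine ⟨⟨by exact_mod_cast hn1, by exact_mod_cast hn2⟩, ?_, ?_⟩
      · have h1 := Nat.mod_add_div n P
        rw [← hb] at h1
        refine ⟨((n / P : ℕ) : ℤ), ?_⟩
        have h2 : (b : ℤ) + P * (n / P : ℕ) = n := by exact_mod_cast h1
        linarith
      · intro hge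
        have hlc := late_count d g b n m F Z z hdpos hgpos hgd hnb hz (by
          intro i hi
          have := htt i hi b
          omega) hF
        have hle : ((range m).filter (fun i =>
            CovS z (Vd d F (tt g b i)) n ∧ ¬ NC d x (tt g b i) n)).card ≤
            ((range m).filter (fun i => (∀ k < F, ∃ p : ℕ, p.Prime ∧ (p : ℝ) ≤ z ∧ p ∣ n + tt g b i + k * d) ∧
              (n + tt g b i).Coprime d)).card := by
          apply Finset.card_le_card
          intro i hi
          rw [Finset.mem_filter] at hi ⊢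
          obtain ⟨hi1, hi2, hi3⟩ := hi
          refine ⟨hi1, ?_, ?_⟩
          · intro k hk
            obtain ⟨p, hp, hpz, hpd⟩ := hi2 _ (mem_Vd.2 ⟨k, hk, rfl⟩)
            refine ⟨p, hp, hpz, ?_⟩
            have h3 : (n : ℤ) + ((tt g b i + k * d : ℕ) : ℤ) = ((n + tt g b i + k * d : ℕ) : ℤ) := by
              push_cast; ring
            rw [h3] at hpd
            exact_mod_cast hpd
          · by_contra hnc
            apply hi3
            have hgc : (n + tt g b i).Coprime g := hnb' _ (tt_mem g b i hgpos).2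
            obtain ⟨p, hp, hpd⟩ := exists_large hdpos hgc hnc
            refine ⟨p, hp, ?_⟩
            exact_mod_cast hpd
        have h4 : (((range m).filter (fun i =>
            CovS z (Vd d F (tt g b i)) n ∧ ¬ NC d x (tt g b i) n)).card : ℝ) ≤
            (((range m).filter (fun j => Late d Z (rr d n j))).card : ℝ) := by
          exact_mod_cast hle.trans hlc
        linarith
  have hcard1 : A.card ≤ ⌊z⌋₊ + ((m * P + 1) + BadI.card) := by
    refine (Finset.card_le_card hsub).trans ((Finset.card_union_le _ _).trans ?_)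
    apply add_le_add
    · rw [Nat.card_Icc]; omega
    · refine (Finset.card_union_le _ _).trans ?_
      apply add_le_add
      · rw [Nat.card_Icc]; omega
      · exact Finset.card_image_le
  have hcard2 : (BadI.card : ℝ) ≤ (P : ℝ) * (g.totient : ℝ) / g *
      (1 / 4 * Real.exp (-(lam / η)) * ((N : ℝ) / P)) := by
    have h1 : (BadI.card : ℝ) ≤ ∑ b ∈ (range P).filter (fun b => b.Coprime g), ((cls b).card : ℝ) := by
      exact_mod_cast Finset.card_biUnion_le
    refine h1.trans ?_
    rw [← class_number g P hgpos hgP, ← nsmul_eq_mul, ← Finset.sum_const]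
    apply Finset.sum_le_sum
    intro b _
    exact hcl b
  have hfin : (P : ℝ) * (g.totient : ℝ) / g * (1 / 4 * Real.exp (-(lam / η)) * ((N : ℝ) / P)) ≤
      1 / 2 * Real.exp (-(lam / η)) * (((d.totient : ℝ) / d) * N) := by
    have h1 : (g.totient : ℝ) / g ≤ 2 * (d.totient / d) := by
      rw [mul_div_assoc', div_le_div_iff₀ hg0 hd0]
      linarith
    have h2 : (P : ℝ) * (g.totient : ℝ) / g * (1 / 4 * Real.exp (-(lam / η)) * ((N : ℝ) / P)) =
        (g.totient : ℝ) / g * (1 / 4 * Real.exp (-(lam / η)) * N) := by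
      field_simp
    rw [h2]
    calc (g.totient : ℝ) / g * (1 / 4 * Real.exp (-(lam / η)) * N) ≤
        2 * (d.totient / d) * (1 / 4 * Real.exp (-(lam / η)) * N) :=
          mul_le_mul_of_nonneg_right h1 (by positivity)
      _ = _ := by ring
  have h5 : (A.card : ℝ) ≤ ⌊z⌋₊ + ((m * P + 1) + BadI.card) := by exact_mod_cast hcard1
  have h6 : (⌊z⌋₊ : ℝ) ≤ z := Nat.floor_le hz0.le
  have h7 : 0 ≤ Real.exp (-(lam / η)) * (((d.totient : ℝ) / d) * N) := by positivity
  calc (A.card : ℝ) ≤ (z + 1 + (m * P + 1)) + BadI.card := by linarith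
    _ ≤ 1 / 4 * Real.exp (-(lam / η)) * ((d.totient : ℝ) / d) * N +
        1 / 2 * Real.exp (-(lam / η)) * (((d.totient : ℝ) / d) * N) := by
        apply add_le_add hexc (hcard2.trans hfin)
    _ ≤ _ := by linarith

end Pool.Agent.T2h81.UC
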