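import Pool.Agent.Y831.RC5.Cnt5

set_option autoImplicit false
set_option linter.unusedSectionVars false

/-! # Pairs of windows: the local inequality with a weight on all hits -/

namespace Pool.Agent.T2h81.UC

open Finset Pool.Agent.H256R2.SC Pool.Agent.Y831.RC

variable {n n₁ n₂ : ℕ} {κ : Type} [Fintype κ] [DecidableEq κ]

/-- weight `1 + t` on the hits -/
noncomputable def hw1 (t : ℝ) (c : Option κ) : ℝ :=
  match c with
  | none => 1
  | some _ => 1 + t

/-- the diagonal form of the weighted expectation -/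
noncomputable def bal (g t : ℝ) (a : Option κ) : ℝ :=
  match a with
  | none => 1 + 3 * t * (Fintype.card κ : ℝ) * g
  | some _ => (1 + 3 * t) * g

theorem local_all (g t : ℝ) (hg : 0 ≤ g) (ht : 0 ≤ t)
    (htg : 3 * t * (Fintype.card κ : ℝ) * g ≤ 1) (Y : Option κ → ℝ) :
    ∑ c, wt g c * hw1 t c * (∑ a, psi1 g a c * Y a) ^ 2 ≤ ∑ a, bal (κ := κ) g t a * (Y a) ^ 2 := by
  set S := ∑ k, Y (some k) with hS
  have hsplit : ∑ c, wt g c * hw1 t c * (∑ a, psi1 g a c * Y a) ^ 2 =
      (∑ c, wt g c * (∑ a, psi1 g a c * Y a) ^ 2) +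
        g * t * ∑ k, ((Y none - g * S) + Y (some k)) ^ 2 := by
    have h1 : ∀ c : Option κ, wt g c * hw1 t c * (∑ a, psi1 g a c * Y a) ^ 2 =
        wt g c * (∑ a, psi1 g a c * Y a) ^ 2 +
          (match c with
            | none => 0
            | some k => g * t * ((Y none - g * S) + Y (some k)) ^ 2) := by
      intro c
      cases c with
      | none =>
        simp only [hw1]
        ring
      | some k =>
        rw [inner_some]
        simp only [hw1, wt]
        rw [← hS]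
        ring
    rw [Finset.sum_congr rfl fun c _ => h1 c, Finset.sum_add_distrib]
    congr 1
    rw [Fintype.sum_option, zero_add, ← Finset.mul_sum]
  have hbal : ∑ a, bal (κ := κ) g t a * (Y a) ^ 2 =
      (1 + 3 * t * (Fintype.card κ : ℝ) * g) * (Y none) ^ 2 +
      (1 + 3 * t) * g * ∑ k, (Y (some k)) ^ 2 := by
    rw [Fintype.sum_option]
    simp only [bal]
    rw [Finset.mul_sum]
  have h3 : ∑ k : κ, ((Y none - g * S) + Y (some k)) ^ 2 ≤
      ∑ k : κ, 3 * ((Y none) ^ 2 + (Y (some k)) ^ 2 + g ^ 2 * S ^ 2) := by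
    apply Finset.sum_le_sum
    intro k _
    nlinarith [sq_nonneg (Y none + g * S), sq_nonneg (Y none - Y (some k)),
      sq_nonneg (g * S + Y (some k))]
  have h4 : ∑ k : κ, 3 * ((Y none) ^ 2 + (Y (some k)) ^ 2 + g ^ 2 * S ^ 2) =
      3 * ((Fintype.card κ : ℝ) * (Y none) ^ 2 + ∑ k, (Y (some k)) ^ 2 +
        (Fintype.card κ : ℝ) * (g ^ 2 * S ^ 2)) := by
    rw [← Finset.mul_sum, Finset.sum_add_distrib, Finset.sum_add_distrib, Finset.sum_const,
      Finset.sum_const, Finset.card_univ, nsmul_eq_mul, nsmul_eq_mul]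
  rw [h4] at h3
  have h5 := mul_le_mul_of_nonneg_left h3 (show 0 ≤ g * t by positivity)
  have h6 : 3 * t * (Fintype.card κ : ℝ) * g * (g ^ 2 * S ^ 2) ≤ 1 * (g ^ 2 * S ^ 2) :=
    mul_le_mul_of_nonneg_right htg (by positivity)
  rw [hsplit, hbal, local_id, ← hS]
  nlinarith

theorem bal_nonneg (g t : ℝ) (hg : 0 ≤ g) (ht : 0 ≤ t) (a : Option κ) : 0 ≤ bal (κ := κ) g t a := by
  cases a with
  | none => simp only [bal]; positivity
  | some k => simp only [bal]; positivity

theorem hw1_nonneg (t : ℝ) (ht : 0 ≤ t) (a : Option κ) : 0 ≤ hw1 (κ := κ) t a := by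
  cases a with
  | none => simp [hw1]
  | some k => simp only [hw1]; positivity

/-- the product of the diagonal weights -/
theorem prod_bal (g : Fin n → ℝ) (hg : ∀ i, 0 ≤ g i) (t : Fin n → ℝ) (ht : ∀ i, 0 ≤ t i)
    (D : Col n κ) :
    ∏ i, bal (κ := κ) (g i) (t i) (D i) ≤
      Real.exp (3 * (Fintype.card κ : ℝ) * ∑ i, t i * g i + 3 * ∑ i with D i ≠ none, t i) *
        nu g D := by
  have h1 : Real.exp (3 * (Fintype.card κ : ℝ) * ∑ i, t i * g i + 3 * ∑ i with D i ≠ none, t i) *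
        nu g D = ∏ i, (Real.exp (3 * (Fintype.card κ : ℝ) * (t i * g i) +
          3 * (if D i ≠ none then t i else 0)) * nu1 (g i) (D i)) := by
    rw [Finset.prod_mul_distrib, ← Real.exp_sum, Finset.sum_add_distrib, ← Finset.mul_sum,
      ← Finset.mul_sum, ← Finset.sum_filter]
    rfl
  rw [h1]
  apply Finset.prod_le_prod
  · intro i _
    exact bal_nonneg _ _ (hg i) (ht i) _
  · intro i _
    have hgi := hg i
    have hti := ht i
    cases hD : D i with
    | none =>
      simp only [bal, nu1, ne_eq, not_true_eq_false, if_false, mul_zero, add_zero, mul_one]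
      have := Real.add_one_le_exp (3 * (Fintype.card κ : ℝ) * (t i * g i))
      linarith
    | some k =>
      simp only [bal, nu1, ne_eq, reduceCtorEq, not_false_eq_true, if_true]
      apply mul_le_mul_of_nonneg_right _ hgi
      have h2 := Real.add_one_le_exp (3 * t i)
      have h3 : Real.exp (3 * t i) ≤ Real.exp (3 * (Fintype.card κ : ℝ) * (t i * g i) + 3 * t i) := by
        apply Real.exp_le_exp.2
        have : 0 ≤ 3 * (Fintype.card κ : ℝ) * (t i * g i) := by positivity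
        linarith
      linarith

section
variable {p g₂ : Fin n₂ → ℝ} {h : Finset (Fin n₂) → ℝ} {z K v₀ : ℝ} {R : κ → Col n₁ κ → ℝ}

/-- the upper bound for the second block, one window, with a weight on the hits -/
theorem upW (g₂ : Fin n₂ → ℝ) (hg : ∀ i, 0 ≤ g₂ i) (hug : ∀ i, (Fintype.card κ : ℝ) * g₂ i ≤ 1)
    (t : Fin n₂ → ℝ) (ht : ∀ i, 0 ≤ t i)
    (htg : ∀ i, 3 * t i * (Fintype.card κ : ℝ) * g₂ i ≤ 1) (y : Col n₂ κ → ℝ)
    (R : κ → Col n₁ κ → ℝ) (x₁ : Col n₁ κ) :
    EE g₂ (fun x₂ : Col n₂ κ => (∏ i, hw1 (t i) (x₂ i)) * (V5 g₂ y R x₁ x₂) ^ 2) ≤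
      ∑ D : Col n₂ κ, (∏ i, bal (κ := κ) (g₂ i) (t i) (D i)) *
        ((y D) ^ 2 * ∏ k ∈ cols D, (R k x₁) ^ 2) := by
  have h2 := tensor_upper (κ := κ) g₂ (fun i c => hw1 (t i) c)
    (fun i c => bal (g₂ i) (t i) c) (fun i c => wt_nonneg (hg i) (hug i) c)
    (fun i c => hw1_nonneg (t i) (ht i) c) (fun i c => bal_nonneg _ _ (hg i) (ht i) c)
    (fun i Y => local_all (g₂ i) (t i) (hg i) (ht i) (htg i) Y)
    (fun D => y D * ∏ k ∈ cols D, R k x₁)
  refine le_trans h2 (le_of_eq ?_)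
  refine Finset.sum_congr rfl fun D _ => ?_
  rw [mul_pow, Finset.prod_pow]

end

end Pool.Agent.T2h81.UC
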