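import Pool.Agent.T2h81.UC.A9

set_option autoImplicit false
set_option linter.unusedSectionVars false
set_option maxHeartbeats 4000000

/-! # Almost all integers have a covered window, under numerical conditions -/

namespace Pool.Agent.T2h81.UC

open Finset Filter Pool.Agent.H256R2.SC Pool.Agent.Y831.RC

open scoped Classical

theorem mem_filt {α : Type} (p : α → Prop) (inst : DecidablePred p) (s : Finset α) (a : α) :
    a ∈ @Finset.filter α p inst s ↔ a ∈ s ∧ p a := Finset.mem_filter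

theorem coverA (w y z K Q δ η s CB G₂ v₀ m τ Λ R₂ ε θ Cc : ℝ) (J m₀ r : ℕ) (hJ : Even J)
    (hm₀ : m₀ ≤ J)
    (hw2 : 2 ≤ w) (hwy : w ≤ y) (hyz : y ≤ z)
    (hy9 : 9 ≤ y) (hz1 : 1 < z) (hQ : 1 ≤ Q) (hη0 : 0 < η) (hη1 : η ≤ 1) (hs : 1 ≤ s)
    (hG₂ : ∑ i, 1 / ((emb (PS y z ∅) i : ℕ) : ℝ) ≤ G₂)
    (hH : ∃ h, HypS (fun i => ((emb (PS y z ∅) i : ℕ) : ℝ))
      (fun i => 1 / ((emb (PS y z ∅) i : ℕ) : ℝ)) h z K v₀ ∧ ∀ s, h s ≠ 0 → s.card ≤ m₀)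
    (hδ : 2 * (Real.log Q / Real.log y) / y ≤ δ)
    (ι : Type) [Fintype ι] (hι : 0 < Fintype.card ι)
    (κ : ι → Type) [∀ i, Fintype (κ i)] [∀ i, DecidableEq (κ i)] (u : ℝ)
    (hu : ∀ i, (Fintype.card (κ i) : ℝ) ≤ u) (hu0 : 0 ≤ u)
    (hτ0 : 0 ≤ τ) (hτ1 : τ ≤ 1) (hΛ : 1 ≤ Λ) (hε0 : 0 < ε) (hε1 : ε ≤ 1 / 2) (hτε : τ ≤ ε)
    (bl : Fin (PS w y ∅).card → ℕ) (BB : ℕ) (M : ℕ → ℕ) (hbl : ∀ i, bl i < BB)
    (hM : ∀ j, Even (M j))
    (hΞ : ∀ j : ℕ, (j : ℝ) ≤ m → (∏ j ∈ range BB, (1 + (1 / 3 : ℝ) ^ (M j) *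
        Real.exp (256 * ∑ i with bl i = j, 1 / ((emb (PS w y ∅) i : ℕ) : ℝ)))) ^ j ≤ 1 + τ)
    (hR : ∀ i, BHyp (fun i => 1 / ((emb (PS w y ∅) i : ℕ) : ℝ)) (fun k : κ i => BHk bl BB M k) m τ ∧
      ∀ k : κ i, Lw Λ (BHk bl BB M k))
    (hr : Real.log Q / v₀ ≤ r) (hrm : (r:ℝ) + 1 ≤ m) (hR₂ : 1 ≤ R₂)
    (huw : 2 * u ≤ w) (huy : 4 * u ≤ y) (huδ : u * δ ≤ 2 * ε) (hv₀ : 0 < v₀) (hK0 : 0 ≤ K)
    (hCB : Q ^ s * Real.exp (2 * u * (y ^ (1 - s) * G₂)) ≤ CB)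
    (hE8 : Real.exp (η * ((1 + η) * u * (WW y / WW w * K) / Real.log z -
      Real.log (Q / z) / Real.log z)) ≤ ε)
    (htail : 4 * (u * (WW y / WW w)) * (τ + (δ ^ 2 +
      Real.exp (η * ((1 + η) * u * (WW y / WW w * K) / Real.log z -
      Real.log (Q / z) / Real.log z)))) ≤ ε)
    (hmom : 2 * (u * (WW y / WW w)) * ((1 / 3) ^ J * Real.exp (20 * G₂)) ≤ ε)
    (hpen : 2 * (u * (WW y / WW w)) * Real.exp (20 * G₂) ≤ R₂ * ε)
    (hθ : 6 * u ^ 2 * (G₂ / y) + 3 * u * δ ≤ θ)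
    (hpair : (Real.exp θ * (1 + τ)) ^ 2 * Real.exp (16384 * Cc) ≤ 1 + ε / 2)
    (res : ∀ i, ℕ → κ i → ℤ)
    (hres : ∀ i, ∀ p : ℕ, p.Prime → w < p → (p : ℝ) ≤ z → ∀ k l, k ≠ l →
      ¬ ((p : ℤ) ∣ res i p k - res i p l))
    (hres2 : ∀ i j, i ≠ j → ∀ p : ℕ, p.Prime → y < p → (p : ℝ) ≤ z → ∀ k l,
      ¬ ((p : ℤ) ∣ res i p k - res j p l))
    (hcoll : ∀ i j, i ≠ j → ∑ q, 1 / ((emb (PS w y ∅) q : ℕ) : ℝ) * ∑ k, ∑ l,
      (if coll (PS w y ∅) (res i) (res j) q k l then 1 else 0) ≤ Cc)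
    (A B : ℤ) (hAB : (Λ ^ r * CB) ^ 2 * (1 + u * (Λ * (z ^ J + 1))) ≤ ε * ((B : ℝ) - A))
    (hAB4 : (Λ ^ r * CB) ^ 4 ≤ ε / 2 * ((B : ℝ) - A)) (hAB0 : 0 < (B : ℝ) - A) :
    (((Ioc A B).filter (fun x : ℤ => ¬ ∃ i, ∀ k : κ i, ∃ p : ℕ, p.Prime ∧ w < p ∧
      (p : ℝ) ≤ z ∧ (p : ℤ) ∣ x - res i p k)).card : ℝ) ≤
      (15 * ε + 2 * (3 * (1 + 3 * Real.exp G₂ * ((J : ℝ) + 2) ^ (2 * J) * (R₂ + 1)) ^ r) ^ 2 /
        Fintype.card ι) * ((B : ℝ) - A) := by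
  obtain ⟨h, H, hcard⟩ := hH
  have hzpos : 0 < z := zero_lt_one.trans hz1
  have hy0 : 0 < y := by linarith
  have hw0 : 0 < w := by linarith
  have hlogy : 0 < Real.log y := Real.log_pos (by linarith)
  have hlz : 0 < Real.log z := Real.log_pos hz1
  have hm₁ : ∀ p ∈ (PS w y ∅), p.Prime ∧ w < (p:ℝ) ∧ (p:ℝ) ≤ y := fun p hp => PS_mem hy0.le hp
  have hm₂ : ∀ p ∈ (PS y z ∅), p.Prime ∧ y < (p:ℝ) ∧ (p:ℝ) ≤ z := fun p hp => PS_mem hzpos.le hp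
  have hd : Disjoint (PS w y ∅) (PS y z ∅) := by
    rw [Finset.disjoint_left]
    intro p hp hp'
    have h1 := (hm₁ p hp).2.2
    have h2 := (hm₂ p hp').2.1
    linarith
  have hinj₁ : ∀ i, ∀ p ∈ (PS w y ∅), ∀ k l : κ i, k ≠ l → ¬ ((p : ℤ) ∣ res i p k - res i p l) := by
    intro i p hp
    obtain ⟨h1, h2, h4⟩ := hm₁ p hp
    exact hres i p h1 h2 (h4.trans hyz)
  have hinj₂ : ∀ i, ∀ p ∈ (PS y z ∅), ∀ k l : κ i, k ≠ l → ¬ ((p : ℤ) ∣ res i p k - res i p l) := by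
    intro i p hp
    obtain ⟨h1, h2, h4⟩ := hm₂ p hp
    exact hres i p h1 (lt_of_le_of_lt hwy h2) h4
  have hPw : ∀ i, w < ((emb (PS w y ∅) i : ℕ) : ℝ) := fun i => (hm₁ _ (emb_mem (PS w y ∅) i)).2.1
  have hP₁0 : ∀ i, 0 < ((emb (PS w y ∅) i : ℕ) : ℝ) := fun i => hw0.trans (hPw i)
  have hPy : ∀ i, y < ((emb (PS y z ∅) i : ℕ) : ℝ) := fun i => (hm₂ _ (emb_mem (PS y z ∅) i)).2.1
  have hP0 : ∀ i, 0 < ((emb (PS y z ∅) i : ℕ) : ℝ) := fun i => hy0.trans (hPy i)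
  have hgy : ∀ i, 1 / ((emb (PS y z ∅) i : ℕ) : ℝ) ≤ 1 / y := fun i =>
    one_div_le_one_div_of_le hy0 (hPy i).le
  have h9 : (1:ℝ) / y ≤ 1 / 9 := one_div_le_one_div_of_le (by norm_num) hy9
  have hG0 : 0 ≤ ∑ i, 1 / ((emb (PS y z ∅) i : ℕ) : ℝ) := Finset.sum_nonneg fun i _ => by positivity
  have hG₂0 : 0 ≤ G₂ := hG0.trans hG₂
  -- sizes of supports
  have hsupp : ∀ i, ∀ D : Col (PS y z ∅).card (κ i), qq (fun i => ((emb (PS y z ∅) i : ℕ) : ℝ)) D ≤ Q →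
      2 * ∑ i with D i ≠ none, 1 / ((emb (PS y z ∅) i : ℕ) : ℝ) ≤ δ := by
    intro i₀ D hD
    have h1 : Real.exp (((Pool.Agent.H256R2.SC.supp D).card : ℝ) * Real.log y) ≤
        qq (fun i => ((emb (PS y z ∅) i : ℕ) : ℝ)) D := by
      unfold qq
      rw [prod_nu1]
      have : Real.exp (((Pool.Agent.H256R2.SC.supp D).card : ℝ) * Real.log y) =
          ∏ i ∈ Pool.Agent.H256R2.SC.supp D, Real.exp (Real.log y) := by
        rw [Finset.prod_const, ← Real.exp_nat_mul]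
      rw [this]
      apply Finset.prod_le_prod
      · intro i _; exact (Real.exp_pos _).le
      · intro i _
        rw [Real.exp_log hy0]
        exact (hPy i).le
    have h2 := h1.trans hD
    have h3 : ((Pool.Agent.H256R2.SC.supp D).card : ℝ) * Real.log y ≤ Real.log Q := by
      rw [Real.le_log_iff_exp_le (by linarith)]
      exact h2
    have h4 : ((Pool.Agent.H256R2.SC.supp D).card : ℝ) ≤ Real.log Q / Real.log y := by
      rw [le_div_iff₀ hlogy]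
      exact h3
    have h5 : ∑ i with D i ≠ none, 1 / ((emb (PS y z ∅) i : ℕ) : ℝ) ≤
        (Pool.Agent.H256R2.SC.supp D).card * (1 / y) := by
      have : ∑ i ∈ Pool.Agent.H256R2.SC.supp D, 1 / ((emb (PS y z ∅) i : ℕ) : ℝ) ≤
          ∑ i ∈ Pool.Agent.H256R2.SC.supp D, (1 / y) :=
        Finset.sum_le_sum (fun i _ => hgy i)
      rw [Finset.sum_const, nsmul_eq_mul] at this
      exact this
    refine le_trans ?_ hδ
    calc 2 * ∑ i with D i ≠ none, 1 / ((emb (PS y z ∅) i : ℕ) : ℝ) ≤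
          2 * ((Pool.Agent.H256R2.SC.supp D).card * (1 / y)) :=
          mul_le_mul_of_nonneg_left h5 (by norm_num)
      _ ≤ 2 * (Real.log Q / Real.log y * (1 / y)) := by
          apply mul_le_mul_of_nonneg_left _ (by norm_num)
          exact mul_le_mul_of_nonneg_right h4 (by positivity)
      _ = 2 * (Real.log Q / Real.log y) / y := by ring
  -- the count
  have hz0 : (1:ℝ) ≤ z ^ J := one_le_pow₀ hz1.le
  have hABle : A ≤ B := by
    have h2 : (A:ℝ) ≤ B := by linarith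
    exact_mod_cast h2
  have hevent : ∀ i₀, ∀ D : Col ((PS w y ∅).card + (PS y z ∅).card) (κ i₀),
      |((((Ioc A B).filter (fun a => ∀ i, D i ≠ none →
        colc (PS w y ∅) (PS y z ∅) (res i₀) a i = D i)).card : ℕ) : ℝ) -
        ((B:ℝ) - A) * nu (Fin.append (fun i => 1 / ((emb (PS w y ∅) i : ℕ) : ℝ))
          (fun i => 1 / ((emb (PS y z ∅) i : ℕ) : ℝ))) D| ≤ 1 := by
    intro i₀ D
    obtain ⟨r, hr⟩ := event_two (fun p hp => (hm₁ p hp).1) (fun p hp => (hm₂ p hp).1) hd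
      (hinj₁ i₀) (hinj₂ i₀) D
    have h1 : ((Ioc A B).filter (fun a => ∀ i, D i ≠ none →
        colc (PS w y ∅) (PS y z ∅) (res i₀) a i = D i)) =
        (Ioc A B).filter (fun a => ((qn (PS w y ∅) (fstc D) * qn (PS y z ∅) (sndc D) : ℕ) : ℤ) ∣ a - r) := by
      apply Finset.filter_congr
      intro a _
      exact hr a
    have hq : 0 < qn (PS w y ∅) (fstc D) * qn (PS y z ∅) (sndc D) :=
      Nat.mul_pos (Nat.pos_of_ne_zero (qn_squarefree (fun p hp => (hm₁ p hp).1) _).ne_zero)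
        (Nat.pos_of_ne_zero (qn_squarefree (fun p hp => (hm₂ p hp).1) _).ne_zero)
    rw [h1, nu_append, nu_eq (PS w y ∅) (fstc D), nu_eq (PS y z ∅) (sndc D)]
    have h2 := LG.count_Ioc A B hABle _ hq r
    have h3 : ((B:ℝ) - A) * (1 / ((qn (PS w y ∅) (fstc D) : ℕ) : ℝ) * (1 / ((qn (PS y z ∅) (sndc D) : ℕ) : ℝ))) =
        ((B:ℝ) - A) / ((qn (PS w y ∅) (fstc D) * qn (PS y z ∅) (sndc D) : ℕ) : ℝ) := by
      push_cast
      rw [one_div_mul_one_div, mul_one_div]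
    rw [h3]
    exact h2
  have hn2 : ((PS y z ∅).card:ℝ) + 1 ≤ z := card_PS y z hz1.le
  have c1 : ∀ i, 1 / ((emb (PS y z ∅) i : ℕ) : ℝ) ≤ 1 := fun i => (hgy i).trans (by linarith)
  have c2 : ∀ i, 3 * 3 * (1 / ((emb (PS y z ∅) i : ℕ) : ℝ)) ≤ 1 := fun i => by
    have := hgy i
    linarith
  have cU₂ : ∀ i, u * (1 / ((emb (PS y z ∅) i : ℕ) : ℝ)) ≤ 1 / 4 := fun i => by
    rw [mul_one_div, div_le_div_iff₀ (hP0 i) (by norm_num)]
    have := (hPy i).le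
    linarith
  have cU₁ : ∀ i, u * (1 / ((emb (PS w y ∅) i : ℕ) : ℝ)) ≤ 1 / 2 := fun i => by
    rw [mul_one_div, div_le_div_iff₀ (hP₁0 i) (by norm_num)]
    have := (hPw i).le
    linarith
  have c3 : ∀ i₀ i, (Fintype.card (κ i₀) : ℝ) * (1 / ((emb (PS y z ∅) i : ℕ) : ℝ)) ≤ 1 := fun i₀ i => by
    have e1 := mul_le_mul_of_nonneg_right (hu i₀) (show 0 ≤ 1 / ((emb (PS y z ∅) i : ℕ) : ℝ) by positivity)
    linarith [cU₂ i]
  have c3' : ∀ i₀ i, (Fintype.card (κ i₀) : ℝ) * (1 / ((emb (PS w y ∅) i : ℕ) : ℝ)) ≤ 1 / 2 :=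
    fun i₀ i => by
    have e1 := mul_le_mul_of_nonneg_right (hu i₀) (show 0 ≤ 1 / ((emb (PS w y ∅) i : ℕ) : ℝ) by positivity)
    linarith [cU₁ i]
  have c4 : ∀ i₀, Q ^ s * Real.exp (2 * (Fintype.card (κ i₀) : ℝ) *
      ∑ i, 1 / ((emb (PS y z ∅) i : ℕ) : ℝ) ^ s) ≤ CB := by
    intro i₀
    refine le_trans ?_ hCB
    apply mul_le_mul_of_nonneg_left _ (Real.rpow_nonneg (by linarith) _)
    apply Real.exp_le_exp.2
    have e0 : ∑ i, 1 / ((emb (PS y z ∅) i : ℕ) : ℝ) ^ s ≤ y ^ (1 - s) * G₂ := by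
      calc ∑ i, 1 / ((emb (PS y z ∅) i : ℕ) : ℝ) ^ s ≤ ∑ i, y ^ (1 - s) * (1 / ((emb (PS y z ∅) i : ℕ) : ℝ)) := by
            apply Finset.sum_le_sum
            intro i _
            have e1 : 1 / ((emb (PS y z ∅) i : ℕ) : ℝ) ^ s = ((emb (PS y z ∅) i : ℕ) : ℝ) ^ (1 - s) *
                (1 / ((emb (PS y z ∅) i : ℕ) : ℝ)) := by
              rw [Real.rpow_sub (hP0 i), Real.rpow_one]
              have := (hP0 i).ne'
              field_simp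
            rw [e1]
            apply mul_le_mul_of_nonneg_right _ (by positivity)
            exact Real.rpow_le_rpow_of_nonpos hy0 (hPy i).le (by linarith)
        _ = y ^ (1 - s) * ∑ i, 1 / ((emb (PS y z ∅) i : ℕ) : ℝ) := by rw [Finset.mul_sum]
        _ ≤ y ^ (1 - s) * G₂ := mul_le_mul_of_nonneg_left hG₂ (Real.rpow_nonneg hy0.le _)
    have e1 : 0 ≤ ∑ i, 1 / ((emb (PS y z ∅) i : ℕ) : ℝ) ^ s := by
      apply Finset.sum_nonneg
      intro i _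
      have := hP0 i
      positivity
    have e2 := hu i₀
    calc 2 * (Fintype.card (κ i₀) : ℝ) * ∑ i, 1 / ((emb (PS y z ∅) i : ℕ) : ℝ) ^ s
        ≤ 2 * u * ∑ i, 1 / ((emb (PS y z ∅) i : ℕ) : ℝ) ^ s :=
          mul_le_mul_of_nonneg_right (by linarith) e1
      _ ≤ 2 * u * (y ^ (1 - s) * G₂) := mul_le_mul_of_nonneg_left e0 (by positivity)
  have hrho := rho_PS w y hw2 hwy
  have hWpos := WW_pos w
  have hWpos' := WW_pos y
  have hWr : 0 < WW y / WW w := by positivity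
  have hρ0 : 0 ≤ u * (WW y / WW w) := by positivity
  have hG20 : Real.exp (20 * ∑ i, 1 / ((emb (PS y z ∅) i : ℕ) : ℝ)) ≤ Real.exp (20 * G₂) := by
    apply Real.exp_le_exp.2
    linarith
  have hcρ : ∀ i₀, (Fintype.card (κ i₀) : ℝ) * (WW y / WW w) ≤ u * (WW y / WW w) := fun i₀ =>
    mul_le_mul_of_nonneg_right (hu i₀) hWr.le
  have hcρ0 : ∀ i₀, 0 ≤ (Fintype.card (κ i₀) : ℝ) * (WW y / WW w) := fun i₀ => by positivity
  have c5 : ∀ i₀, 2 * ((Fintype.card (κ i₀) : ℝ) * rho (fun i => 1 / ((emb (PS w y ∅) i : ℕ) : ℝ)) 1) *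
      ((1 / 3) ^ J * Real.exp (20 * ∑ i, 1 / ((emb (PS y z ∅) i : ℕ) : ℝ))) ≤ ε := by
    intro i₀
    refine le_trans ?_ hmom
    rw [hrho]
    apply mul_le_mul (by linarith [hcρ i₀]) _ (by positivity) (by positivity)
    exact mul_le_mul_of_nonneg_left hG20 (by positivity)
  have c5' : ∀ i₀, 2 * ((Fintype.card (κ i₀) : ℝ) * rho (fun i => 1 / ((emb (PS w y ∅) i : ℕ) : ℝ)) 1) *
      Real.exp (20 * ∑ i, 1 / ((emb (PS y z ∅) i : ℕ) : ℝ)) ≤ R₂ * ε := by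
    intro i₀
    refine le_trans ?_ hpen
    rw [hrho]
    exact mul_le_mul (by linarith [hcρ i₀]) hG20 (by positivity) (by positivity)
  have hlogQ : 0 ≤ Real.log Q := Real.log_nonneg hQ
  have hn0 : (0:ℝ) ≤ ((PS y z ∅).card:ℝ) + 1 := by positivity
  have hCB0 : 0 ≤ CB := by
    have i₀ : ι := (Fintype.card_pos_iff.1 hι).some
    exact le_trans (by positivity) (c4 i₀)
  have c6 : ∀ i₀, (1:ℝ) * ((Λ ^ r * CB) ^ 2 *
      (1 + Fintype.card (κ i₀) * (Λ * ((((PS y z ∅).card:ℝ) + 1) ^ J + 1)))) ≤ ε * ((B:ℝ) - A) := by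
    intro i₀
    refine le_trans ?_ hAB
    rw [one_mul]
    have e3 := pow_le_pow_left₀ hn0 hn2 J
    have e4 : Λ * ((((PS y z ∅).card:ℝ) + 1) ^ J + 1) ≤ Λ * (z ^ J + 1) :=
      mul_le_mul_of_nonneg_left (by linarith) (by linarith)
    have e5 : (Fintype.card (κ i₀) : ℝ) * (Λ * ((((PS y z ∅).card:ℝ) + 1) ^ J + 1)) ≤
        u * (Λ * (z ^ J + 1)) := mul_le_mul (hu i₀) e4 (by positivity) hu0
    apply mul_le_mul_of_nonneg_left (by linarith) (by positivity)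
  have hexp : ∀ i₀, Real.exp (η * ((1 + η) * (Fintype.card (κ i₀) : ℝ) *
      (rho (fun i => 1 / ((emb (PS w y ∅) i : ℕ) : ℝ)) 1 * K) / Real.log z -
        Real.log (Q / z) / Real.log z)) ≤
      Real.exp (η * ((1 + η) * u * (WW y / WW w * K) / Real.log z -
      Real.log (Q / z) / Real.log z)) := by
    intro i₀
    rw [hrho]
    apply Real.exp_le_exp.2
    apply mul_le_mul_of_nonneg_left _ hη0.le
    apply sub_le_sub_right
    apply div_le_div_of_nonneg_right _ hlz.le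
    apply mul_le_mul_of_nonneg_right _ (by positivity)
    exact mul_le_mul_of_nonneg_left (hu i₀) (by linarith)
  have c7 : ∀ i₀, 4 * ((Fintype.card (κ i₀) : ℝ) * rho (fun i => 1 / ((emb (PS w y ∅) i : ℕ) : ℝ)) 1) *
      (τ + (δ ^ 2 + Real.exp (η * ((1 + η) * (Fintype.card (κ i₀) : ℝ) *
      (rho (fun i => 1 / ((emb (PS w y ∅) i : ℕ) : ℝ)) 1 * K) / Real.log z -
        Real.log (Q / z) / Real.log z)))) ≤ ε := by
    intro i₀
    refine le_trans ?_ htail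
    have e1 := hexp i₀
    rw [hrho] at e1 ⊢
    apply mul_le_mul (by linarith [hcρ i₀]) (by linarith) (by positivity) (by positivity)
  have c7' : ∀ i₀, Real.exp (η * ((1 + η) * (Fintype.card (κ i₀) : ℝ) *
      (rho (fun i => 1 / ((emb (PS w y ∅) i : ℕ) : ℝ)) 1 * K) / Real.log z -
        Real.log (Q / z) / Real.log z)) ≤ ε := fun i₀ => (hexp i₀).trans hE8
  have hδ0 : 0 ≤ δ := le_trans (by positivity) hδ
  have c8 : ∀ i₀, (Fintype.card (κ i₀) : ℝ) * δ ≤ 2 * ε := fun i₀ =>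
    (mul_le_mul_of_nonneg_right (hu i₀) hδ0).trans huδ
  have c9 : 0 ≤ rho (fun i => 1 / ((emb (PS w y ∅) i : ℕ) : ℝ)) 1 := by
    rw [hrho]
    positivity
  have hone := fun i₀ => one5 (κ := κ i₀) (Ioc A B) (fun a => colc (PS w y ∅) (PS y z ∅) (res i₀) a)
    H (fun i => 1 / ((emb (PS w y ∅) i : ℕ) : ℝ)) (fun k : κ i₀ => BHk bl BB M k) m τ (hR i₀).1 hτ0 hτ1 Λ
    hΛ (hR i₀).2 Q δ ((B:ℝ) - A) 1 η s CB R₂ ε
    J m₀ r hJ hm₀ hAB0 zero_le_one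
    hQ hη0 hη1 (by linarith) hε0 (by linarith) hτε
    (fun i => by have := hP₁0 i; positivity) (c3' i₀) c9 c1 c2 (c3 i₀) (hsupp i₀) (c8 i₀)
    hr hrm hR₂ hcard (c4 i₀) (c7' i₀) (c7 i₀) (c5 i₀) (c5' i₀) (hevent i₀) (c6 i₀)
  set Z : ι → ℝ := fun i₀ => Zw (om (fun i : Fin (PS w y ∅).card => 1 / ((emb (PS w y ∅) i : ℕ) : ℝ)) :
    Col (PS y z ∅).card (κ i₀) → ℝ) (fun i => 1 / ((emb (PS y z ∅) i : ℕ) : ℝ)) h with hZ
  have hZ1 : ∀ i₀, 1 ≤ Z i₀ := fun i₀ => Zw_ge_one H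
    (fun i => by have := hP₁0 i; positivity) (c3' i₀)
  set G : ι → ℤ → ℝ := fun i₀ a => VB (fun i => ((emb (PS y z ∅) i : ℕ) : ℝ))
    (fun i => 1 / ((emb (PS y z ∅) i : ℕ) : ℝ)) h Q bl BB M
    (fstc (colc (PS w y ∅) (PS y z ∅) (res i₀) a)) (sndc (colc (PS w y ∅) (PS y z ∅) (res i₀) a)) with hG
  set Bd : ℝ := (3 * (1 + 3 * Real.exp G₂ * ((J : ℝ) + 2) ^ (2 * J) * (R₂ + 1)) ^ r) ^ 2 with hBd
  have hBd0 : 0 ≤ Bd := sq_nonneg _
  have hBdle : (3 * (1 + 3 * Real.exp (∑ i, 1 / ((emb (PS y z ∅) i : ℕ) : ℝ)) *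
      ((J : ℝ) + 2) ^ (2 * J) * (R₂ + 1)) ^ r) ^ 2 ≤ Bd := by
    have hR20 : 0 ≤ R₂ + 1 := by linarith
    rw [hBd]
    apply pow_le_pow_left₀ (by positivity)
    apply mul_le_mul_of_nonneg_left _ (by norm_num)
    apply pow_le_pow_left₀ (by positivity)
    have h5 : Real.exp (∑ i, 1 / ((emb (PS y z ∅) i : ℕ) : ℝ)) ≤ Real.exp G₂ := Real.exp_le_exp.2 hG₂
    have h6 : 0 ≤ ((J : ℝ) + 2) ^ (2 * J) * (R₂ + 1) := by positivity
    have h7 := mul_le_mul_of_nonneg_right h5 h6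
    linarith
  have hcardA : ((Ioc A B).card : ℝ) = (B:ℝ) - A := by
    rw [Int.card_Ioc]
    have : ((B - A).toNat : ℤ) = B - A := Int.toNat_of_nonneg (by linarith)
    have h2 : (((B - A).toNat : ℤ) : ℝ) = ((B - A : ℤ) : ℝ) := by rw [this]
    push_cast at h2
    exact h2
  have hch := cheb (ι := ι) (Ioc A B) (fun i₀ a => (G i₀ a) ^ 2 / Z i₀)
    (fun i₀ a => pen (fun k : κ i₀ => BHk bl BB M k) J R₂ (colc (PS w y ∅) (PS y z ∅) (res i₀) a))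
    (fun i₀ a => ∀ k : κ i₀, ∃ i, colc (PS w y ∅) (PS y z ∅) (res i₀) a i = some k)
    ((B:ℝ) - A) Bd ε hcardA hι
    (fun i₀ a => by have := hZ1 i₀; positivity) (fun i₀ a => (hone i₀).2.2.2.1 a)
    (fun i₀ => by
      have e1 := (hone i₀).1
      have e2 := hZ1 i₀
      have e3 : 0 < Z i₀ := by linarith
      rw [← Finset.sum_div, le_div_iff₀ e3]
      refine le_trans (le_of_eq ?_) e1
      simp only [hZ]
      ring)
    (fun i₀ => by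
      have e1 := (hone i₀).2.1
      have e2 := hZ1 i₀
      have e3 : 0 < Z i₀ := by linarith
      rw [← Finset.sum_div, div_le_iff₀ e3]
      refine le_trans e1 ?_
      have e4 : 0 ≤ Z i₀ * ((B:ℝ) - A) := by positivity
      have e5 : Zw (om (fun i : Fin (PS w y ∅).card => 1 / ((emb (PS w y ∅) i : ℕ) : ℝ)) :
        Col (PS y z ∅).card (κ i₀) → ℝ) (fun i => 1 / ((emb (PS y z ∅) i : ℕ) : ℝ)) h = Z i₀ := rfl
      rw [e5]
      nlinarith)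
    (fun i₀ => by
      have e1 := (hone i₀).2.2.1
      have e2 := hZ1 i₀
      have e3 : 0 < Z i₀ := by linarith
      have e6 : ∀ a, (G i₀ a) ^ 2 / Z i₀ *
          pen (fun k : κ i₀ => BHk bl BB M k) J R₂ (colc (PS w y ∅) (PS y z ∅) (res i₀) a) =
          ((G i₀ a) ^ 2 *
          pen (fun k : κ i₀ => BHk bl BB M k) J R₂ (colc (PS w y ∅) (PS y z ∅) (res i₀) a)) / Z i₀ := by
        intro a; ring
      rw [Finset.sum_congr rfl fun a _ => e6 a, ← Finset.sum_div, div_le_iff₀ e3]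
      refine le_trans e1 (le_of_eq ?_)
      simp only [hZ]
      ring)
    (fun i₀ a ha => by
      obtain ⟨e1, e2⟩ := (hone i₀).2.2.2.2.1 a ha
      refine ⟨e1, ?_⟩
      have e3 := hZ1 i₀
      calc (G i₀ a) ^ 2 / Z i₀ ≤ (G i₀ a) ^ 2 := div_le_self (sq_nonneg _) e3
        _ ≤ Bd := le_trans e2 hBdle)
    hBd0
    (fun i₀ j₀ hij => by
      have hXi := (hone i₀).2.2.2.2.2
      have hXj := (hone j₀).2.2.2.2.2
      have e1 := pair_int (κ := κ i₀) (κ' := κ j₀) (fun p hp => (hm₁ p hp).1)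
        (fun p hp => (hm₂ p hp).1) hd H u δ Q θ (1 + τ) m (hu i₀) (hu j₀) cU₁ cU₂ (hsupp i₀)
        (hsupp j₀) (by
          refine le_trans ?_ hθ
          apply add_le_add _ le_rfl
          apply mul_le_mul_of_nonneg_left _ (by positivity)
          calc ∑ i, (1 / ((emb (PS y z ∅) i : ℕ) : ℝ)) ^ 2 ≤ ∑ i, (1 / y) * (1 / ((emb (PS y z ∅) i : ℕ) : ℝ)) := by
                apply Finset.sum_le_sum
                intro i _
                rw [sq]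
                exact mul_le_mul_of_nonneg_right (hgy i) (by positivity)
            _ = (1 / y) * ∑ i, 1 / ((emb (PS y z ∅) i : ℕ) : ℝ) := by rw [Finset.mul_sum]
            _ ≤ (1 / y) * G₂ := mul_le_mul_of_nonneg_left hG₂ (by positivity)
            _ = G₂ / y := by ring)
        bl BB hbl M hM hΞ (by linarith) (by linarith) (res i₀) (res j₀) (hinj₁ i₀) (hinj₂ i₀)
        (hinj₁ j₀) (hinj₂ j₀) (fun p hp => hres2 i₀ j₀ hij p (hm₂ p hp).1 (hm₂ p hp).2.1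
          (hm₂ p hp).2.2) _ _ hXi hXj A B hABle
      have z1 := hZ1 i₀
      have z2 := hZ1 j₀
      have z3 : 0 < Z i₀ := by linarith
      have z4 : 0 < Z j₀ := by linarith
      have e2 : ∀ a, (G i₀ a) ^ 2 / Z i₀ * ((G j₀ a) ^ 2 / Z j₀) =
          ((G i₀ a) ^ 2 * (G j₀ a) ^ 2) / (Z i₀ * Z j₀) := by
        intro a
        field_simp
      rw [Finset.sum_congr rfl fun a _ => e2 a, ← Finset.sum_div, div_le_iff₀ (by positivity)]
      refine le_trans e1 ?_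
      have z5 : Zw (om (fun i : Fin (PS w y ∅).card => 1 / ((emb (PS w y ∅) i : ℕ) : ℝ)) :
        Col (PS y z ∅).card (κ i₀) → ℝ) (fun i => 1 / ((emb (PS y z ∅) i : ℕ) : ℝ)) h = Z i₀ := rfl
      have z6 : Zw (om (fun i : Fin (PS w y ∅).card => 1 / ((emb (PS w y ∅) i : ℕ) : ℝ)) :
        Col (PS y z ∅).card (κ j₀) → ℝ) (fun i => 1 / ((emb (PS y z ∅) i : ℕ) : ℝ)) h = Z j₀ := rfl
      rw [z5, z6]
      have e3 : Real.exp (16384 * ∑ q, 1 / ((emb (PS w y ∅) q : ℕ) : ℝ) * ∑ k, ∑ l,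
          (if coll (PS w y ∅) (res i₀) (res j₀) q k l then 1 else 0)) ≤ Real.exp (16384 * Cc) := by
        apply Real.exp_le_exp.2
        exact mul_le_mul_of_nonneg_left (hcoll i₀ j₀ hij) (by norm_num)
      have e4 : (Real.exp θ * (1 + τ)) ^ 2 *
          Real.exp (16384 * ∑ q, 1 / ((emb (PS w y ∅) q : ℕ) : ℝ) * ∑ k, ∑ l,
          (if coll (PS w y ∅) (res i₀) (res j₀) q k l then 1 else 0)) ≤ 1 + ε / 2 :=
        le_trans (mul_le_mul_of_nonneg_left e3 (sq_nonneg _)) hpair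
      have e5 : 0 ≤ Z i₀ * Z j₀ := by positivity
      have e6 := mul_le_mul_of_nonneg_left (mul_le_mul_of_nonneg_right e4 e5) hAB0.le
      have e7 : (Λ ^ r * CB) ^ 2 * (Λ ^ r * CB) ^ 2 = (Λ ^ r * CB) ^ 4 := by ring
      rw [e7]
      have e8 : 1 ≤ Z i₀ * Z j₀ := by nlinarith
      have e9 : ε / 2 * ((B:ℝ) - A) ≤ ε / 2 * ((B:ℝ) - A) * (Z i₀ * Z j₀) := by
        have : 0 ≤ ε / 2 * ((B:ℝ) - A) := by positivity
        nlinarith
      linarith)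
    hε0.le
  refine le_trans ?_ hch
  rw [Nat.cast_le]
  apply Finset.card_le_card
  intro a ha
  replace ha := (mem_filt _ _ _ _).1 ha
  refine (mem_filt _ _ _ _).2 ⟨ha.1, fun hc => ha.2 ?_⟩
  obtain ⟨i₀, hi₀⟩ := hc
  refine ⟨i₀, fun k => ?_⟩
  obtain ⟨i, hi⟩ := hi₀ k
  rw [colc_iff (hinj₁ i₀) (hinj₂ i₀)] at hi
  revert hi
  unfold PQ
  refine Fin.addCases (fun j hj => ?_) (fun j hj => ?_) i
  · rw [Fin.append_left] at hj
    have h2 := hm₁ _ (emb_mem (PS w y ∅) j)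
    exact ⟨emb (PS w y ∅) j, h2.1, h2.2.1, h2.2.2.trans hyz, hj⟩
  · rw [Fin.append_right] at hj
    have h2 := hm₂ _ (emb_mem (PS y z ∅) j)
    exact ⟨emb (PS y z ∅) j, h2.1, lt_of_le_of_lt hwy h2.2.1, h2.2.2, hj⟩

end Pool.Agent.T2h81.UC
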