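import Pool.Agent.T2h81.UC.A10
import Pool.Agent.Y831.RC5.Cov5

set_option autoImplicit false
set_option linter.unusedSectionVars false
set_option linter.unusedVariables false
set_option maxHeartbeats 4000000

/-! # The covering theorem for families of windows: parameters -/

namespace Pool.Agent.T2h81.UC

open Finset Filter Pool.Agent.H256R2.SC Pool.Agent.Y831.RC

open scoped Classical

theorem s_exp {x : ℝ} (h0 : 0 ≤ x) (h1 : x ≤ 1 / 2) : Real.exp x ≤ 1 + 2 * x := by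
  have e1 : Real.exp x * Real.exp (-x) = 1 := by rw [← Real.exp_add]; simp
  have e2 := Real.add_one_le_exp (-x)
  have e3 := Real.exp_pos x
  nlinarith

theorem s_pair {e σ θ τ : ℝ} (hσ0 : 0 < σ) (hσ1 : σ ≤ 1 / 2) (hθ0 : 0 ≤ θ) (hτ0 : 0 ≤ τ)
    (hθ : θ ≤ σ / 40) (hτ : τ ≤ σ / 40) :
    (Real.exp θ * (1 + τ)) ^ 2 * Real.exp (16384 * (σ / 200000)) ≤ 1 + σ / 2 := by
  have e1 : 1 + τ ≤ Real.exp τ := by linarith [Real.add_one_le_exp τ]
  have e2 : Real.exp θ * (1 + τ) ≤ Real.exp (θ + τ) := by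
    rw [Real.exp_add]
    exact mul_le_mul_of_nonneg_left e1 (Real.exp_pos _).le
  have e3 : (Real.exp θ * (1 + τ)) ^ 2 ≤ Real.exp (2 * (θ + τ)) := by
    calc (Real.exp θ * (1 + τ)) ^ 2 ≤ (Real.exp (θ + τ)) ^ 2 :=
          pow_le_pow_left₀ (by positivity) e2 2
      _ = _ := by rw [← Real.exp_nat_mul]; norm_num
  calc (Real.exp θ * (1 + τ)) ^ 2 * Real.exp (16384 * (σ / 200000))
      ≤ Real.exp (2 * (θ + τ)) * Real.exp (16384 * (σ / 200000)) :=
        mul_le_mul_of_nonneg_right e3 (Real.exp_pos _).le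
    _ = Real.exp (2 * (θ + τ) + 16384 * (σ / 200000)) := by rw [← Real.exp_add]
    _ ≤ Real.exp (σ / 4) := Real.exp_le_exp.2 (by linarith)
    _ ≤ 1 + 2 * (σ / 4) := s_exp (by linarith) (by linarith)
    _ = 1 + σ / 2 := by ring

/-- the main parameter lemma: `t = 1/8` -/
theorem covA_at (c C CR C₁ K₀ M₀ : ℝ) (hc : 0 < c) (hC : 0 < C)
    (hC₁ : 0 < C₁) (hCR0 : 0 ≤ CR)
    (hWb : ∀ y : ℝ, 2 ≤ y → c ≤ WW y * Real.log y ∧ WW y * Real.log y ≤ C)
    (hSR : ∀ a b : ℝ, 2 ≤ a → a ≤ b →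
    ∑ p ∈ (Finset.Ioc ⌊a⌋₊ ⌊b⌋₊).filter Nat.Prime, (1 : ℝ) / p ≤
      Real.log (Real.log b / Real.log a) + CR / Real.log a)
    (hBH : ∀ (w y : ℝ) (b₀ : ℕ) (m τ : ℝ),
    2 ≤ w → C₁ ≤ Real.log w → w ≤ y → Even b₀ →
    0 ≤ m → τ ≤ 1 → m * (1 / 3) ^ b₀ ≤ Real.exp (-260) * τ →
    ∃ (bl : Fin (PS w y ∅).card → ℕ) (B : ℕ) (M : ℕ → ℕ), (∀ i, bl i < B) ∧ (∀ j, Even (M j)) ∧
      (∀ j : ℕ, (j : ℝ) ≤ m → (∏ j ∈ range B, (1 + (1 / 3 : ℝ) ^ (M j) *
        Real.exp (256 * ∑ i with bl i = j, 1 / ((emb (PS w y ∅) i : ℕ) : ℝ)))) ^ j ≤ 1 + τ) ∧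
      ∀ (κ : Type) [Fintype κ] [DecidableEq κ], 2 * (Fintype.card κ : ℝ) ≤ w →
      BHyp (fun i => 1 / ((emb (PS w y ∅) i : ℕ) : ℝ)) (fun k : κ => BHk bl B M k) m τ ∧
      ∀ k : κ, Lw (Real.exp (Real.log y * (2 * b₀ + 4))) (BHk bl B M k))
    (hK1 : 6400 ≤ K₀) (hK4 : 512 / c ≤ K₀)
    (hM1 : 1600 ≤ M₀)
    (hM4 : Real.exp C₁ ≤ M₀) (hM5 : 2 * CR ≤ M₀)
    (L e : ℝ) (he1 : K₀ ≤ e) (he3 : K₀ * e ^ 3 ≤ Real.exp e) (helog : Real.log (K₀ * e) ≤ e / K₀)
    (he4 : 72 * C * e ^ 3 ≤ Real.exp (e / 2))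
    (a1 : M₀ ≤ L) (a2 : 1 ≤ Real.log L) (a4 : Real.log L * M₀ ≤ L)
    (heu : e ≤ 1 / 4 * Real.log L)
    (b1 : M₀ * Real.log L ≤ L * Real.exp (-e) / e ^ 2)
    (ι : Type) [Fintype ι] (hι : Real.exp (e ^ 2 * Real.exp e + e / 2) ≤ (Fintype.card ι : ℝ))
    (κ : ι → Type) [∀ i, Fintype (κ i)] [∀ i, DecidableEq (κ i)]
    (hκ : ∀ i, (Fintype.card (κ i) : ℝ) ≤ 1 / 8 * (e * L * WW (L ^ 6)))
    (res : ∀ i, ℕ → κ i → ℤ)
    (hres : ∀ i, ∀ p : ℕ, p.Prime → L ^ 6 < p →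
      (p : ℝ) ≤ Real.exp (L / (6400 * e)) → ∀ k l, k ≠ l →
      ¬ ((p : ℤ) ∣ res i p k - res i p l))
    (hres2 : ∀ i j, i ≠ j → ∀ p : ℕ, p.Prime → Real.exp (L * Real.exp (-e) / e ^ 2) < p →
      (p : ℝ) ≤ Real.exp (L / (6400 * e)) → ∀ k l, ¬ ((p : ℤ) ∣ res i p k - res j p l))
    (hcoll : ∀ i j, i ≠ j → ∑ q, 1 / ((emb (PS (L ^ 6) (Real.exp (L * Real.exp (-e) / e ^ 2)) ∅) q : ℕ) : ℝ) *
      ∑ k, ∑ l, (if coll (PS (L ^ 6) (Real.exp (L * Real.exp (-e) / e ^ 2)) ∅) (res i) (res j) q k l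
        then 1 else 0) ≤ Real.exp (-(e / 2)) / 200000)
    (A B : ℤ) (hAB : Real.exp (15 / 8 * L) ≤ (B : ℝ) - A) :
    (((Ioc A B).filter (fun x : ℤ => ¬ ∃ i, ∀ k : κ i, ∃ p : ℕ, p.Prime ∧ L ^ 6 < (p : ℝ) ∧
      (p : ℝ) ≤ Real.exp (L / (6400 * e)) ∧ (p : ℤ) ∣ x - res i p k)).card : ℝ) ≤
      17 * Real.exp (-(e / 2)) * ((B : ℝ) - A) := by
  obtain ⟨t, ht⟩ : ∃ t : ℝ, t = 1 / 8 := ⟨_, rfl⟩
  have ht0 : 0 < t := by rw [ht]; norm_num
  have ht8 : t ≤ 1 / 8 := ht.le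
  have ht4 : t ≤ 1 / 4 := by linarith only [ht8]
  have he1000 : 1000 ≤ e := by linarith only [hK1, he1]
  have hK1' : 1000 ≤ K₀ := by linarith only [hK1]
  have he0 : 0 < e := by linarith only [he1000]
  have he1' : 1 ≤ e := by linarith only [he1000]
  have hK2 : 100 / t ^ 2 ≤ K₀ := by rw [ht]; norm_num; linarith only [hK1]
  have hK3 : 300 / t ≤ K₀ := by rw [ht]; norm_num; linarith only [hK1]
  have hK4' : 64 / (c * t) ≤ K₀ := by
    have : 64 / (c * t) = 512 / c := by rw [ht]; field_simp; norm_num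
    rw [this]; exact hK4
  have hM2 : 200 / t ≤ M₀ := by rw [ht]; norm_num; linarith only [hM1]
  set l : ℝ := Real.log L with hl
  have hL2 : 2 ≤ L := by linarith only [hM1, a1]
  have hL0 : 0 < L := by linarith only [hL2]
  have hL1 : 1 ≤ L := by linarith only [hL2]
  have hl0 : 0 ≤ l := by linarith only [a2]
  have hel : e ≤ l := by linarith only [hl0, heu]
  have hM8 : 8 ≤ M₀ := by linarith only [hM1]
  have hM0 : 0 < M₀ := by linarith only [hM8]
  have hlL : l ≤ L := by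
    have h1 : 8 * l ≤ M₀ * l := q_mul hM8 hl0
    linarith only [h1, a4, hl0]
  have hExpL4 : Real.exp (4 * e) ≤ L := by
    rw [← Real.exp_log hL0]
    exact Real.exp_le_exp.2 (by linarith only [heu])
  have hExpL : Real.exp e ≤ L := by
    refine le_trans (Real.exp_le_exp.2 ?_) hExpL4
    linarith only [he0]
  have he3' : e ^ 3 ≤ Real.exp e := q_cube hK1' he1' he3
  have he30 : 0 ≤ e ^ 3 := by positivity
  set σ : ℝ := Real.exp (-(e / 2)) with hσ
  have hσ0 : 0 < σ := Real.exp_pos _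
  have hσe : σ * Real.exp (e / 2) = 1 := by rw [hσ, ← Real.exp_add]; simp
  have hexp500 : 501 ≤ Real.exp (e / 2) := by
    have := Real.add_one_le_exp (e / 2)
    linarith only [this, he1000]
  have hσ1 : σ ≤ 1 / 2 := by
    have e1 : σ * 501 ≤ σ * Real.exp (e / 2) := mul_le_mul_of_nonneg_left hexp500 hσ0.le
    linarith only [e1, hσe]
  have hee : Real.exp e = Real.exp (e / 2) * Real.exp (e / 2) := by
    rw [← Real.exp_add]; congr 1; ring
  have h72 : 72 * (C / σ) * e ^ 3 ≤ Real.exp e := by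
    have e1 : C / σ = C * Real.exp (e / 2) := by
      rw [div_eq_iff hσ0.ne', mul_assoc, mul_comm (Real.exp (e / 2)) σ, hσe, mul_one]
    rw [e1, hee]
    have e2 := mul_le_mul_of_nonneg_right he4 (Real.exp_pos (e / 2)).le
    linarith only [e2]
  have hCσ0 : 0 < C / σ := by positivity
  have h12 : 12 * (C / σ) * e ^ 3 ≤ Real.exp e := by
    have e1 : 0 ≤ (C / σ) * e ^ 3 := by positivity
    linarith only [h72, e1]
  set Y : ℝ := L * Real.exp (-e) / e ^ 2 with hY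
  set Z : ℝ := t ^ 2 * L / (100 * e) with hZ
  have hZ' : L / (6400 * e) = Z := by
    rw [hZ, ht]
    field_simp
    norm_num
  rw [hZ'] at hres hres2 ⊢
  obtain ⟨hYZ, hvZ, hZ0, hY0, _, _⟩ := p_YZ ht0 ht4 hL0 (hK2.trans he1) he3' hY hZ
  have hYM : M₀ ≤ Y := by
    have : M₀ * 1 ≤ M₀ * l := mul_le_mul_of_nonneg_left a2 hM0.le
    linarith only [this, b1]
  have hlog1 : Real.log e ≤ e / 20 := q_log1 hK1' he1' helog
  have hlog2 : Real.log (100 * e / t ^ 2) ≤ t / 4 * e := q_log2 ht0 hK1' he1' helog hK2 hK3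
  have hCRY : CR / Y ≤ 1 / 2 := by
    rw [div_le_iff₀ hY0]
    linarith only [hM5, hYM]
  have h64 : 64 / t ≤ 200 / t := div_le_div_of_nonneg_right (by norm_num) ht0.le
  set m₀ : ℕ := ⌈20 * e⌉₊ with hm₀
  have hm₀1 : 20 * e ≤ m₀ := Nat.le_ceil _
  have hm₀2 : (m₀ : ℝ) < 20 * e + 1 := Nat.ceil_lt_add_one (by positivity)
  obtain ⟨hG₂, hprof⟩ := blk2_prof t c C CR ht0 ht4 hc hWb hSR L e Y Z hL1 he1' hY0 hY hZ hYZ hvZ
    hlog1 hlog2 hCRY he1000 (hK4'.trans he1) (hM8.trans hYM) (h64.trans (hM2.trans hYM)) m₀ hm₀1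
  set w : ℝ := L ^ 6 with hw
  have hw2 : 2 ≤ w := by
    calc (2:ℝ) ≤ L := hL2
      _ = L ^ 1 := (pow_one L).symm
      _ ≤ L ^ 6 := pow_le_pow_right₀ hL1 (by norm_num)
  have hlw : Real.log w = 6 * l := by rw [hw, Real.log_pow]; push_cast; ring
  have hpowY : ∀ k : ℕ, (k : ℝ) ≤ 1600 → L ^ k ≤ Real.exp Y := by
    intro k hk
    refine p_pow hL1 k (le_trans (q_mul (hk.trans hM1) hl0) b1)
  have hwy : w ≤ Real.exp Y := hpowY 6 (by norm_num)
  set y : ℝ := Real.exp Y with hy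
  set z : ℝ := Real.exp Z with hz
  have hly : Real.log y = Y := Real.log_exp Y
  have hlz : Real.log z = Z := Real.log_exp Z
  have hyY : Y + 1 ≤ y := Real.add_one_le_exp Y
  have hyz : y ≤ z := Real.exp_le_exp.2 hYZ
  have hy9 : 9 ≤ y := by linarith only [hyY, hYM, hM8]
  have hz1 : 1 < z := by linarith only [hy9, hyz]
  -- Mertens
  obtain ⟨hWw1, hWw2⟩ := hWb w hw2
  obtain ⟨hWy1, hWy2⟩ := hWb y (by linarith only [hy9])
  rw [hlw] at hWw1 hWw2
  rw [hly] at hWy1 hWy2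
  have hV0 := WW_pos y
  have hW0 := WW_pos w
  have hW1 := WW_le_one w
  set V : ℝ := WW y with hV
  set W : ℝ := WW w with hW
  set u : ℝ := 1 / 8 * (e * L * W) with hu
  have hu0 : 0 ≤ u := by positivity
  have hut : u ≤ (1 / 2 - 3 * t) * (e * L * W) := by rw [hu, ht]; norm_num
  have hu2 : u ≤ L ^ 2 / 2 := p_u2 hL2 hlL he0.le hel hW0 hW1 ht0 u hut
  obtain ⟨hlam0, hlam1, hlam2⟩ := p_lam ht0 ht4 hL1 he1' hV0 hW0 hWy2 hY u hu0 hut
  have hL26 : L ^ 2 ≤ w := by rw [hw]; exact pow_le_pow_right₀ hL1 (by norm_num)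
  have huw : 2 * u ≤ w := by linarith only [hu2, hL26]
  have hL3y : L ^ 3 ≤ y := hpowY 3 (by norm_num)
  have huy : 4 * u ≤ y := by
    have e1 : 2 * L ^ 2 ≤ L ^ 3 := by
      have : L ^ 3 = L * L ^ 2 := by ring
      rw [this]
      exact mul_le_mul_of_nonneg_right hL2 (by positivity)
    linarith only [e1, hu2, hL3y]
  set v₀ : ℝ := L * Real.exp (-e) with hv₀
  have hv₀0 : 0 < v₀ := by positivity
  -- the parameters
  set J : ℕ := 2 * ⌈15 * e⌉₊ with hJ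
  have hJe : Even J := even_two_mul _
  have hJ1 : 30 * e ≤ J := by
    have := Nat.le_ceil (15 * e)
    rw [hJ]; push_cast; linarith only [this]
  have hJ2 : (J:ℝ) ≤ 30 * e + 2 := by
    have := (Nat.ceil_lt_add_one (show 0 ≤ 15 * e by positivity)).le
    rw [hJ]; push_cast; linarith only [this]
  have hm₀J : m₀ ≤ J := by
    have : (m₀:ℝ) ≤ J := by linarith only [hm₀2, hJ1, he1000]
    exact_mod_cast this
  set b₀ : ℕ := 2 * ⌈2 * e⌉₊ with hb₀
  have hb₀e : Even b₀ := even_two_mul _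
  have hb₀1 : 4 * e ≤ b₀ := by
    have := Nat.le_ceil (2 * e)
    rw [hb₀]; push_cast; linarith only [this]
  have hb₀2 : (b₀:ℝ) ≤ 4 * e + 2 := by
    have := (Nat.ceil_lt_add_one (show 0 ≤ 2 * e by positivity)).le
    rw [hb₀]; push_cast; linarith only [this]
  set Q : ℝ := Real.exp ((1 / 2 - t) * L) with hQ
  have hlQ : Real.log Q = (1 / 2 - t) * L := Real.log_exp _
  have hhalf : 0 ≤ 1 / 2 - t := by linarith only [ht4]
  have hlQ0 : 0 ≤ (1 / 2 - t) * L := mul_nonneg hhalf hL0.le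
  have hQ1 : 1 ≤ Q := Real.one_le_exp hlQ0
  set r : ℕ := ⌈Real.log Q / v₀⌉₊ with hr
  have hr1 : Real.log Q / v₀ ≤ r := Nat.le_ceil _
  have hrv : Real.log Q / v₀ ≤ Real.exp e / 2 := by
    rw [hlQ, hv₀]
    exact q_rv ht0 hL0
  have hexp1000 : 1001 ≤ Real.exp e := by
    have := Real.add_one_le_exp e
    linarith only [this, he1000]
  have hr2 : (r:ℝ) ≤ Real.exp e / 2 + 1 := by
    have := (Nat.ceil_lt_add_one (show 0 ≤ Real.log Q / v₀ by
      apply div_nonneg _ hv₀0.le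
      rw [hlQ]
      exact hlQ0)).le
    linarith only [this, hrv]
  have hrm : (r:ℝ) + 1 ≤ Real.exp e := by linarith only [hr2, hexp1000]
  have hre : (r:ℝ) ≤ Real.exp e := by linarith only [hrm]
  have hC1l : C₁ ≤ l := by
    rw [hl, Real.le_log_iff_exp_le hL0]
    exact hM4.trans a1
  have hτ' : Real.exp e * (1 / 3) ^ b₀ ≤ Real.exp (-260) * Real.exp (-(2 * e)) := by
    have e1 := third_le_exp b₀ (4 * e) hb₀1
    calc Real.exp e * (1 / 3) ^ b₀ ≤ Real.exp e * Real.exp (-(4 * e)) :=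
          mul_le_mul_of_nonneg_left e1 (Real.exp_pos e).le
      _ = Real.exp (e + -(4 * e)) := by rw [← Real.exp_add]
      _ ≤ Real.exp (-260 + -(2 * e)) := Real.exp_le_exp.2 (by linarith only [he1000])
      _ = _ := by rw [← Real.exp_add]
  -- the first block
  obtain ⟨bl, BB, M, hbl, hM, hΞ, hR⟩ := hBH w y b₀ (Real.exp e) (Real.exp (-(2 * e))) hw2
    (by rw [hlw]; linarith only [hC1l, hl0]) hwy hb₀e (Real.exp_pos e).le
    (by rw [Real.exp_le_one_iff]; linarith only [he0]) hτ'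
  have hQz : Real.log (Q / z) = (1 / 2 - t) * L - Z := by
    rw [Real.log_div (Real.exp_pos _).ne' (Real.exp_pos _).ne', hlQ, hlz]
  have hEE : Real.exp (t * ((1 + t) * u * (V / W * (1 / ((1 - t) * V * e))) / Real.log z -
      Real.log (Q / z) / Real.log z)) ≤ Real.exp (-(20 * e)) := by
    apply Real.exp_le_exp.2
    rw [hlz, hQz]
    have h1 := p_exp ht0 ht4 hL1 he1' hV0 hZ (u * (V / W)) hlam1
    have h2 : (1 + t) * u * (V / W * (1 / ((1 - t) * V * e))) =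
        (1 + t) * (u * (V / W) * (1 / ((1 - t) * V * e))) := by ring
    rw [h2]
    exact h1
  have c1 : 2 * (Real.log Q / Real.log y) / y ≤ 1 / L ^ 4 := by
    rw [hlQ, hly]
    exact p_δ ht0 ht4 hL2 (by linarith only [hM8, hYM])
      ((q_mul (by linarith only [hM8]) hl0).trans b1)
  have c3 : (Real.exp ((1 / 2 - t) * L)) ^ (1 + t / 16) *
      Real.exp (2 * u * ((Real.exp Y) ^ (1 - (1 + t / 16)) * (11 / 10 * e))) ≤
      Real.exp ((1 / 2 - t) * (1 + t / 16) * L + 1) :=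
    p_CB ht0 hL2 a2 hlL he0.le hel u hu0 hu2
      ((q_mul ((div_le_div_of_nonneg_right (by norm_num) ht0.le).trans hM2) hl0).trans b1)
  have c4 : 200 / t * Real.log L ≤ L :=
    (q_mul hM2 hl0).trans (by rw [mul_comm]; exact a4)
  have c5 := p_AB ht0 ht4 hL2 a2 c4 (hK3.trans he1) (by linarith only [he1000]) hY hZ u hu0 hu2
    b₀ J r hb₀2 hJ2 hre _ le_rfl
  have hΛ : 1 ≤ Real.exp (Y * (2 * b₀ + 4)) := Real.one_le_exp (by positivity)
  have hR3 : ∀ i, BHyp (fun i => 1 / ((emb (PS w y ∅) i : ℕ) : ℝ))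
      (fun k : κ i => BHk bl BB M k) (Real.exp e) (Real.exp (-(2 * e))) ∧
      ∀ k : κ i, Lw (Real.exp (Y * (2 * b₀ + 4))) (BHk bl BB M k) := by
    intro i
    obtain ⟨f1, f2⟩ := hR (κ i) (by linarith only [hκ i, huw, hu])
    refine ⟨f1, fun k => ?_⟩
    have := f2 k
    rw [hly] at this
    exact this
  -- small quantities
  have hL4σ : 1 / L ≤ σ / 500 := by
    have e1 : Real.exp (e / 2) * Real.exp (e / 2) ≤ L := by rw [← hee]; exact hExpL
    rw [div_le_div_iff₀ hL0 (by norm_num), one_mul]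
    calc (500:ℝ) ≤ Real.exp (e / 2) := by linarith only [hexp500]
      _ = σ * Real.exp (e / 2) * Real.exp (e / 2) := by rw [hσe, one_mul]
      _ = σ * (Real.exp (e / 2) * Real.exp (e / 2)) := by ring
      _ ≤ σ * L := mul_le_mul_of_nonneg_left e1 hσ0.le
  have hL2σ : 1 / L ^ 2 ≤ 1 / L := by
    apply one_div_le_one_div_of_le hL0
    calc L = L ^ 1 := (pow_one L).symm
      _ ≤ L ^ 2 := pow_le_pow_right₀ hL1 (by norm_num)
  have hτσ : Real.exp (-(2 * e)) ≤ σ / 40 := by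
    have e1 : Real.exp (-(2 * e)) ≤ Real.exp (-(e / 2) + -(e / 2)) :=
      Real.exp_le_exp.2 (by linarith only [he0])
    have e2 : Real.exp (-(e / 2) + -(e / 2)) = σ * σ := by rw [Real.exp_add]
    have e3 : σ ≤ 1 / 40 := by
      have e1 : σ * 501 ≤ σ * Real.exp (e / 2) := mul_le_mul_of_nonneg_left hexp500 hσ0.le
      linarith only [e1, hσe]
    have e4 := mul_le_mul_of_nonneg_left e3 hσ0.le
    linarith only [e1, e2, e4]
  have huδ' : u * (1 / L ^ 4) ≤ 1 / (2 * L ^ 2) := by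
    calc u * (1 / L ^ 4) ≤ L ^ 2 / 2 * (1 / L ^ 4) :=
          mul_le_mul_of_nonneg_right hu2 (by positivity)
      _ = 1 / (2 * L ^ 2) := by field_simp
  have huδ'' : 1 / (2 * L ^ 2) = 1 / 2 * (1 / L ^ 2) := by field_simp
  have huδ : u * (1 / L ^ 4) ≤ 2 * σ := by
    rw [huδ''] at huδ'
    linarith only [huδ', hL4σ, hL2σ, hσ0]
  have hθ : 6 * u ^ 2 * (11 / 10 * e / y) + 3 * u * (1 / L ^ 4) ≤ 3 / L ^ 2 := by
    have e1 : u ^ 2 ≤ L ^ 4 / 4 := by
      have := pow_le_pow_left₀ hu0 hu2 2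
      calc u ^ 2 ≤ (L ^ 2 / 2) ^ 2 := this
        _ = L ^ 4 / 4 := by ring
    have e2 : 11 / 10 * e ≤ 2 * L := by linarith only [hel, hlL, he0]
    have e3 : 11 / 10 * e / y ≤ 2 * L / L ^ 8 :=
      div_le_div₀ (by positivity) e2 (by positivity) (hpowY 8 (by norm_num))
    have e4 : 6 * u ^ 2 * (11 / 10 * e / y) ≤ 6 * (L ^ 4 / 4) * (2 * L / L ^ 8) := by
      apply mul_le_mul (by linarith only [e1]) e3 (by positivity) (by positivity)
    have e5 : 6 * (L ^ 4 / 4) * (2 * L / L ^ 8) = 3 / L ^ 2 * (1 / L) := by field_simp; norm_num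
    have e6 : 1 / L ≤ 1 / 2 := one_div_le_one_div_of_le (by norm_num) hL2
    have e7 : 3 / L ^ 2 * (1 / L) ≤ 3 / L ^ 2 * (1 / 2) :=
      mul_le_mul_of_nonneg_left e6 (by positivity)
    have e8 : 3 * u * (1 / L ^ 4) ≤ 3 / L ^ 2 * (1 / 2) := by
      have : 3 / L ^ 2 * (1 / 2) = 3 * (1 / (2 * L ^ 2)) := by field_simp
      rw [this]
      linarith only [huδ']
    rw [e5] at e4
    linarith only [e4, e7, e8]
  have hθσ : 3 / L ^ 2 ≤ σ / 40 := by
    have : 3 / L ^ 2 = 3 * (1 / L ^ 2) := by ring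
    rw [this]
    linarith only [hL4σ, hL2σ, hσ0]
  have hpair := s_pair (e := e) hσ0 hσ1 (show 0 ≤ 3 / L ^ 2 by positivity) (Real.exp_pos _).le hθσ hτσ
  -- the sizes
  set ΛC : ℝ := ((Real.exp (Y * (2 * b₀ + 4))) ^ r *
    Real.exp ((1 / 2 - t) * (1 + t / 16) * L + 1)) with hΛC
  have hΛC0 : 0 < ΛC := by positivity
  have hbig : Real.exp ((1 - t) * L) * Real.exp L ≤ (B : ℝ) - A := by
    rw [← Real.exp_add]
    refine le_trans (Real.exp_le_exp.2 ?_) hAB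
    rw [ht]
    linarith only [hL0]
  have hσL : 1 ≤ σ * Real.exp (t * L) := by
    rw [hσ, ← Real.exp_add]
    apply Real.one_le_exp
    have e1 : M₀ * l ≤ L := by rw [mul_comm]; exact a4
    have e2 := q_mul hM1 hl0
    rw [ht]
    linarith only [e1, e2, heu, hl0]
  have hexpN := Real.exp_pos ((1 - t) * L)
  have hexptL := Real.exp_pos (t * L)
  have hL1t : Real.exp L = Real.exp (t * L) * Real.exp ((1 - t) * L) := by
    rw [← Real.exp_add]; congr 1; ring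
  have hone : 1 ≤ Real.exp ((1 - t) * L) := Real.one_le_exp (by
    have : 0 ≤ 1 - t := by linarith only [ht4]
    positivity)
  have hAB1 : ΛC ^ 2 * (1 + u * (Real.exp (Y * (2 * b₀ + 4)) * (z ^ J + 1))) ≤
      σ * ((B : ℝ) - A) := by
    have e1 : Real.exp ((1 - t) * L) ≤ σ * ((B : ℝ) - A) := by
      calc Real.exp ((1 - t) * L) = 1 * Real.exp ((1 - t) * L) * 1 := by ring
        _ ≤ (σ * Real.exp (t * L)) * Real.exp ((1 - t) * L) * Real.exp ((1 - t) * L) := by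
            apply mul_le_mul _ hone zero_le_one (by positivity)
            exact mul_le_mul_of_nonneg_right hσL hexpN.le
        _ = σ * (Real.exp ((1 - t) * L) * Real.exp L) := by rw [hL1t]; ring
        _ ≤ _ := mul_le_mul_of_nonneg_left hbig hσ0.le
    linarith only [e1, c5, hexpN]
  have hAB2 : ΛC ^ 4 ≤ σ / 2 * ((B : ℝ) - A) := by
    have e0 : 0 ≤ u * (Real.exp (Y * (2 * b₀ + 4)) * (z ^ J + 1)) := by positivity
    have e1 : ΛC ^ 2 ≤ Real.exp ((1 - t) * L) / 8 := by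
      have e2 : ΛC ^ 2 * 1 ≤ ΛC ^ 2 * (1 + u * (Real.exp (Y * (2 * b₀ + 4)) * (z ^ J + 1))) :=
        mul_le_mul_of_nonneg_left (by linarith only [e0]) (by positivity)
      linarith only [e2, c5]
    have e2 : ΛC ^ 4 ≤ (Real.exp ((1 - t) * L) / 8) ^ 2 := by
      have : ΛC ^ 4 = (ΛC ^ 2) ^ 2 := by ring
      rw [this]
      exact pow_le_pow_left₀ (by positivity) e1 2
    have e3 : Real.exp ((1 - t) * L) * Real.exp ((1 - t) * L) ≤ σ * ((B : ℝ) - A) := by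
      calc Real.exp ((1 - t) * L) * Real.exp ((1 - t) * L)
          = 1 * Real.exp ((1 - t) * L) * Real.exp ((1 - t) * L) := by ring
        _ ≤ (σ * Real.exp (t * L)) * Real.exp ((1 - t) * L) * Real.exp ((1 - t) * L) := by
            apply mul_le_mul_of_nonneg_right _ hexpN.le
            exact mul_le_mul_of_nonneg_right hσL hexpN.le
        _ = σ * (Real.exp ((1 - t) * L) * Real.exp L) := by rw [hL1t]; ring
        _ ≤ _ := mul_le_mul_of_nonneg_left hbig hσ0.le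
    have e4 : 0 ≤ Real.exp ((1 - t) * L) * Real.exp ((1 - t) * L) := by positivity
    nlinarith only [e2, e3, e4]
  have hAB0 : 0 < (B : ℝ) - A := lt_of_lt_of_le (Real.exp_pos _) hAB
  -- scaled moments
  have hlamσ0 : 0 ≤ u * (V / W) / σ := by positivity
  have hlamσ2 : 2 * (u * (V / W) / σ) ≤ (C / σ) * e ^ 3 * Real.exp e := by
    have e1 : 2 * (u * (V / W) / σ) = 2 * (u * (V / W)) / σ := by ring
    have e2 : (C / σ) * e ^ 3 * Real.exp e = (C * e ^ 3 * Real.exp e) / σ := by ring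
    rw [e1, e2]
    exact div_le_div_of_nonneg_right hlam2 hσ0.le
  have hscale : ∀ x y' : ℝ, x * (u * (V / W) / σ) * y' = x * (u * (V / W)) * y' / σ := by
    intro x y'; ring
  have d1 := p_tail he1' hCσ0.le h72 (u * (V / W) / σ) hlamσ0 hlamσ2 hExpL _ hEE
  have d2 := p_mom he1' hCσ0.le h12 (u * (V / W) / σ) hlamσ0 hlamσ2 J hJ1
  have d3 := p_pen he1' hCσ0.le h12 (u * (V / W) / σ) hlamσ0 hlamσ2
  rw [hscale, div_le_iff₀ hσ0] at d1 d2 d3
  have hι0 : 0 < (Fintype.card ι : ℝ) := lt_of_lt_of_le (Real.exp_pos _) hι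
  have hmain := coverA w y z (1 / ((1 - t) * V * e)) Q (1 / L ^ 4) t (1 + t / 16)
    (Real.exp ((1 / 2 - t) * (1 + t / 16) * L + 1)) (11 / 10 * e) v₀ (Real.exp e)
    (Real.exp (-(2 * e))) (Real.exp (Y * (2 * b₀ + 4))) (Real.exp (24 * e)) σ (3 / L ^ 2)
    (σ / 200000) J m₀ r hJe hm₀J
    hw2 hwy hyz hy9 hz1 hQ1 ht0 (by linarith only [ht4]) (by linarith only [ht0]) hG₂ hprof
    c1 ι (by exact_mod_cast hι0) κ u hκ hu0 (Real.exp_pos _).le
    (by rw [Real.exp_le_one_iff]; linarith only [he0]) hΛ hσ0 hσ1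
    (by linarith only [hτσ, hσ0]) bl BB M hbl hM hΞ hR3
    hr1 hrm (Real.one_le_exp (by positivity)) huw huy huδ hv₀0
    (by
      have : 0 < 1 - t := by linarith only [ht4]
      positivity) c3
    (hEE.trans (Real.exp_le_exp.2 (by linarith only [he0])))
    (by linarith only [d1, hσ0])
    (by linarith only [d2, hσ0])
    (by
      have : 0 ≤ Real.exp (24 * e) * σ := by positivity
      linarith only [d3, this])
    hθ hpair res hres hres2 hcoll A B hAB1 hAB2 hAB0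
  refine hmain.trans ?_
  apply mul_le_mul_of_nonneg_right _ hAB0.le
  have hloss := p_loss K₀ hK1' he1000 helog J r hJ2 hre
  have f1 : Real.exp (e ^ 2 * Real.exp e) / Fintype.card ι ≤ σ := by
    rw [div_le_iff₀ hι0]
    calc Real.exp (e ^ 2 * Real.exp e) = σ * Real.exp (e ^ 2 * Real.exp e + e / 2) := by
          rw [hσ, ← Real.exp_add]; congr 1; ring
      _ ≤ _ := mul_le_mul_of_nonneg_left hι hσ0.le
  have f2 : 2 * (3 * (1 + 3 * Real.exp (11 / 10 * e) * ((J : ℝ) + 2) ^ (2 * J) *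
      (Real.exp (24 * e) + 1)) ^ r) ^ 2 / Fintype.card ι ≤ 2 * σ := by
    calc 2 * (3 * (1 + 3 * Real.exp (11 / 10 * e) * ((J : ℝ) + 2) ^ (2 * J) *
        (Real.exp (24 * e) + 1)) ^ r) ^ 2 / Fintype.card ι
        ≤ 2 * Real.exp (e ^ 2 * Real.exp e) / Fintype.card ι := by
          apply div_le_div_of_nonneg_right _ hι0.le
          linarith only [hloss]
      _ = 2 * (Real.exp (e ^ 2 * Real.exp e) / Fintype.card ι) := by ring
      _ ≤ 2 * σ := by linarith only [f1]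
  linarith only [f2]

end Pool.Agent.T2h81.UC
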