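import Pool.Agent.T2h81.UC.A11
import Pool.Agent.Y831.RC5.Avg5

set_option autoImplicit false
set_option linter.unusedSectionVars false
set_option linter.unusedVariables false
set_option maxHeartbeats 4000000

/-! # One class modulo the small primes, many windows -/

namespace Pool.Agent.T2h81.UC

open Finset Filter Pool.Agent.H256R2.SC Pool.Agent.Y831.RC

open scoped Classical

/-- the number of primes in a set dividing a nonzero integer -/
theorem few_primes (S : Finset ℕ) (hS : ∀ p ∈ S, p.Prime) (D : ℤ) (hD : D ≠ 0) (Y : ℝ)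
    (hDY : |(D : ℝ)| ≤ Real.exp Y) (hdvd : ∀ p ∈ S, (p : ℤ) ∣ D) : (S.card : ℝ) ≤ 2 * Y := by
  have h1 : ∏ p ∈ S, p ∣ D.natAbs := by
    apply Finset.prod_primes_dvd
    · intro p hp
      exact (hS p hp).prime
    · intro p hp
      exact Int.natCast_dvd.1 (hdvd p hp)
  have h2 : ∏ p ∈ S, p ≤ D.natAbs := Nat.le_of_dvd (Int.natAbs_pos.2 hD) h1
  have h3 : 2 ^ S.card ≤ ∏ p ∈ S, p := by
    apply Finset.pow_card_le_prod
    intro p hp
    exact (hS p hp).two_le
  have h4 : (2:ℝ) ^ S.card ≤ Real.exp Y := by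
    have e1 : ((2 ^ S.card : ℕ) : ℝ) ≤ ((D.natAbs : ℕ) : ℝ) := by exact_mod_cast h3.trans h2
    rw [Nat.cast_natAbs] at e1
    push_cast at e1
    exact e1.trans hDY
  have h5 : (S.card : ℝ) * Real.log 2 ≤ Y := by
    rw [← Real.log_pow, Real.log_le_iff_le_exp (by positivity)]
    exact h4
  have h6 := Real.log_two_gt_d9
  have h7 : (0:ℝ) ≤ S.card := Nat.cast_nonneg _
  nlinarith

/-- some window among `J₀` is completely covered by primes at most `z` -/
def GoodW (z : ℝ) (F H J₀ : ℕ) (n : ℤ) : Prop :=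
  ∃ i : ℕ, i < J₀ ∧ ∀ k : ℕ, 1 ≤ k → k ≤ F → ∃ p : ℕ, p.Prime ∧ (p : ℝ) ≤ z ∧
    (p : ℤ) ∣ n + i * H + k

/-- one class -/
theorem class_few (w Y z x u η len Cc : ℝ) (F H J₀ : ℕ) (b : ℕ) (hx0 : 0 ≤ x) (hxw : x ≤ w)
    (hFH : F < H) (hHw : (H : ℝ) ≤ w) (hw1 : 1 ≤ w) (hxz : x ≤ z) (hu0 : 0 ≤ u)
    (hwY : w ≤ Real.exp Y)
    (hJH : (J₀ : ℝ) * H ≤ Real.exp Y) (hY0 : 0 ≤ Y) (hCc : u ^ 2 * (2 * Y / w) ≤ Cc)
    (hη : 0 ≤ η)
    (hcard : ∀ i : Fin J₀, (((Icc 1 F).filter (fun k =>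
      (primorial ⌊x⌋₊).Coprime (b + (i : ℕ) * H + k))).card : ℝ) ≤ u)
    (hcov : ∀ (κ : Fin J₀ → Type) [∀ i, Fintype (κ i)] [∀ i, DecidableEq (κ i)],
      (∀ i, (Fintype.card (κ i) : ℝ) ≤ u) → ∀ (res : ∀ i, ℕ → κ i → ℤ),
      (∀ i, ∀ p : ℕ, p.Prime → w < p → (p : ℝ) ≤ z → ∀ k l, k ≠ l →
        ¬ ((p : ℤ) ∣ res i p k - res i p l)) →
      (∀ i j, i ≠ j → ∀ p : ℕ, p.Prime → Real.exp Y < p →
        (p : ℝ) ≤ z → ∀ k l, ¬ ((p : ℤ) ∣ res i p k - res j p l)) →
      (∀ i j, i ≠ j → ∑ q, 1 / ((emb (PS w (Real.exp Y) ∅) q : ℕ) : ℝ) *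
        ∑ k, ∑ l, (if coll (PS w (Real.exp Y) ∅) (res i) (res j) q k l
          then 1 else 0) ≤ Cc) →
      ∀ A B : ℤ, len ≤ (B : ℝ) - A →
      (((Ioc A B).filter (fun x : ℤ => ¬ ∃ i, ∀ k : κ i, ∃ p : ℕ, p.Prime ∧ w < (p : ℝ) ∧
        (p : ℝ) ≤ z ∧ (p : ℤ) ∣ x - res i p k)).card : ℝ) ≤ η * ((B : ℝ) - A))
    (M : ℤ) (N : ℕ) (hlen : len ≤ (N : ℝ) / (primorial ⌊x⌋₊ : ℝ) - 1) :
    (((Ioc M (M + N)).filter (fun n : ℤ => ((primorial ⌊x⌋₊ : ℕ) : ℤ) ∣ n - b ∧
      ¬ GoodW z F H J₀ n)).card : ℝ) ≤ η * ((N : ℝ) / (primorial ⌊x⌋₊ : ℝ) + 1) := by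
  set P : ℕ := primorial ⌊x⌋₊ with hPdef
  have hPpos : 0 < P := primorial_pos _
  have hPr : (0 : ℝ) < P := by exact_mod_cast hPpos
  have hPz : (0 : ℤ) < P := by exact_mod_cast hPpos
  have hfloor : ∀ p : ℕ, p ≤ ⌊x⌋₊ ↔ (p : ℝ) ≤ x := fun p => Nat.le_floor_iff hx0
  have hndvdP : ∀ p : ℕ, p.Prime → w < p → ¬ p ∣ P := by
    intro p hp hpX h
    have := (hfloor p).1 ((hp.dvd_primorial_iff).1 h)
    linarith
  -- inverses
  have hinv : ∀ p : ℕ, ∃ i : ℤ, p.Prime → ¬ p ∣ P → (p : ℤ) ∣ P * i - 1 := by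
    intro p
    by_cases h : p.Prime ∧ ¬ p ∣ P
    · obtain ⟨i, hi⟩ := LG.inv_exists h.1 h.2
      exact ⟨i, fun _ _ => hi⟩
    · exact ⟨0, fun h1 h2 => absurd ⟨h1, h2⟩ h⟩
  choose ip hip using hinv
  set A' : ℤ := (M - b) / P with hA'
  set B' : ℤ := (M + N - b) / P with hB'
  have hA1 : (P : ℤ) * A' ≤ M - b := Int.mul_ediv_self_le hPz.ne'
  have hA2 : M - b < (P : ℤ) * A' + P := Int.lt_mul_ediv_self_add hPz
  have hB1 : (P : ℤ) * B' ≤ M + N - b := Int.mul_ediv_self_le hPz.ne'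
  have hB2 : M + N - b < (P : ℤ) * B' + P := Int.lt_mul_ediv_self_add hPz
  have rA1 : (P : ℝ) * A' ≤ M - b := by exact_mod_cast hA1
  have rA2 : (M : ℝ) - b < (P : ℝ) * A' + P := by exact_mod_cast hA2
  have rB1 : (P : ℝ) * B' ≤ M + N - b := by exact_mod_cast hB1
  have rB2 : (M : ℝ) + N - b < (P : ℝ) * B' + P := by exact_mod_cast hB2
  have hBA1 : (N : ℝ) / P - 1 ≤ (B' : ℝ) - A' := by
    rw [div_sub_one hPr.ne', div_le_iff₀ hPr]
    nlinarith
  have hBA2 : (B' : ℝ) - A' ≤ (N : ℝ) / P + 1 := by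
    rw [div_add_one hPr.ne', le_div_iff₀ hPr]
    nlinarith
  set κ : Fin J₀ → Type := fun i =>
    ((Icc 1 F).filter (fun k => P.Coprime (b + (i : ℕ) * H + k)) : Finset ℕ) with hκ
  set a : Fin J₀ → ℕ → ℤ := fun i k => (b : ℤ) + ((i : ℕ) : ℤ) * H + (k : ℤ) with ha
  have hdiff : ∀ (p : ℕ), p.Prime → w < p → ∀ α β : ℤ,
      (p : ℤ) ∣ -α * ip p - -β * ip p → (p : ℤ) ∣ β - α := by
    intro p hp hp1 α β hdvd
    have h1 := hip p hp (hndvdP p hp hp1)
    have h3 : (p : ℤ) ∣ (P : ℤ) * (-α * ip p - -β * ip p) := hdvd.mul_left _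
    have h4 : (p : ℤ) ∣ (β - α) * ((P : ℤ) * ip p - 1) := h1.mul_left _
    have h5 := dvd_sub h3 h4
    have h6 : (P : ℤ) * (-α * ip p - -β * ip p) - (β - α) * ((P : ℤ) * ip p - 1) = β - α := by ring
    rwa [h6] at h5
  have hne : ∀ i j : Fin J₀, i ≠ j → ∀ k l : ℕ, 1 ≤ k → k ≤ F → 1 ≤ l → l ≤ F →
      a j l - a i k ≠ 0 ∧ |((a j l - a i k : ℤ) : ℝ)| ≤ Real.exp Y := by
    intro i j hij k l hk1 hk2 hl1 hl2
    have hi := i.2
    have hj := j.2
    have hij' : (i : ℕ) ≠ j := fun h => hij (Fin.ext h)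
    have h1 : ((a j l - a i k : ℤ)) = ((j : ℕ) : ℤ) * H - ((i : ℕ) : ℤ) * H + (l - k) := by
      simp only [ha]; ring
    have hH0 : (0 : ℤ) < H := by
      have : 0 < H := by omega
      exact_mod_cast this
    have hlk1 : -(H : ℤ) < (l : ℤ) - k := by omega
    have hlk2 : (l : ℤ) - k < (H : ℤ) := by omega
    constructor
    · rw [h1]
      intro h0
      rcases Nat.lt_or_gt_of_ne hij' with h | h
      · have h2 : ((i : ℕ) : ℤ) + 1 ≤ ((j : ℕ) : ℤ) := by exact_mod_cast h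
        nlinarith
      · have h2 : ((j : ℕ) : ℤ) + 1 ≤ ((i : ℕ) : ℤ) := by exact_mod_cast h
        nlinarith
    · refine le_trans ?_ hJH
      have h2 : ((i : ℕ) : ℤ) + 1 ≤ (J₀ : ℤ) := by exact_mod_cast hi
      have h3 : ((j : ℕ) : ℤ) + 1 ≤ (J₀ : ℤ) := by exact_mod_cast hj
      have h4 : (0 : ℤ) ≤ ((i : ℕ) : ℤ) := by positivity
      have h5 : (0 : ℤ) ≤ ((j : ℕ) : ℤ) := by positivity
      have h6 : |(a j l - a i k : ℤ)| ≤ (J₀ : ℤ) * H := by
        rw [h1, abs_le]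
        constructor
        · nlinarith
        · nlinarith
      have h7 : ((|(a j l - a i k : ℤ)| : ℤ) : ℝ) ≤ (((J₀ : ℤ) * H : ℤ) : ℝ) := by
        exact_mod_cast h6
      push_cast at h7
      push_cast
      exact h7
  have hcount := hcov κ (by
      intro i
      have := hcard i
      simp only [hκ]
      rw [Fintype.card_coe]
      exact this)
    (fun i p k => -(a i (k : ℕ)) * ip p) (by
      intro i p hp hp1 _ k l hkl hdvd
      have h2 := hdiff p hp hp1 _ _ hdvd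
      have hk := mem_Icc.1 (mem_filter.1 k.2).1
      have hl := mem_Icc.1 (mem_filter.1 l.2).1
      have hpL : H < p := by
        have : (H : ℝ) < p := lt_of_le_of_lt hHw hp1
        exact_mod_cast this
      have h6 : a i (l : ℕ) - a i (k : ℕ) = ((l : ℕ) : ℤ) - ((k : ℕ) : ℤ) := by
        simp only [ha]; ring
      rw [h6] at h2
      have h7 : ((l : ℕ) : ℤ) - ((k : ℕ) : ℤ) = 0 := by
        apply Int.eq_zero_of_abs_lt_dvd h2
        rw [abs_lt]
        constructor <;> omega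
      apply hkl
      apply Subtype.ext
      omega) (by
      intro i j hij p hp hp1 _ k l hdvd
      have hk := mem_Icc.1 (mem_filter.1 k.2).1
      have hl := mem_Icc.1 (mem_filter.1 l.2).1
      obtain ⟨h1, h2⟩ := hne i j hij k l hk.1 hk.2 hl.1 hl.2
      have h3 := hdiff p hp (lt_of_le_of_lt hwY hp1) _ _ hdvd
      apply h1
      apply Int.eq_zero_of_abs_lt_dvd h3
      have h4 : ((|(a j (l : ℕ) - a i (k : ℕ) : ℤ)| : ℤ) : ℝ) < ((p : ℤ) : ℝ) := by
        push_cast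
        push_cast at h2
        exact lt_of_le_of_lt h2 hp1
      exact_mod_cast h4) (by
      intro i j hij
      refine le_trans ?_ hCc
      have hY1 : 0 ≤ Real.exp Y := (Real.exp_pos _).le
      have hw0 : 0 < w := by linarith
      set f : ℕ → ℝ := fun p => 1 / (p : ℝ) * ∑ k : κ i, ∑ l : κ j,
        (if ((p : ℤ) ∣ -(a i (k : ℕ)) * ip p - -(a j (l : ℕ)) * ip p) then (1:ℝ) else 0) with hf
      have e0 : ∑ q, 1 / ((emb (PS w (Real.exp Y) ∅) q : ℕ) : ℝ) *
          ∑ k, ∑ l, (if coll (PS w (Real.exp Y) ∅) (fun p (k : κ i) => -(a i (k : ℕ)) * ip p)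
            (fun p (k : κ j) => -(a j (k : ℕ)) * ip p) q k l then (1:ℝ) else 0) =
          ∑ q, f (emb (PS w (Real.exp Y) ∅) q) := by
        apply Finset.sum_congr rfl
        intro q _
        simp only [hf]
        congr 1
        apply Finset.sum_congr rfl
        intro k _
        apply Finset.sum_congr rfl
        intro l _
        exact if_congr Iff.rfl rfl rfl
      refine le_trans (le_of_eq e0) ?_
      rw [sum_emb]
      have e1 : ∀ p ∈ PS w (Real.exp Y) ∅, f p ≤ ∑ k : κ i, ∑ l : κ j, 1 / w *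
          (if ((p : ℤ) ∣ a j (l : ℕ) - a i (k : ℕ)) then (1:ℝ) else 0) := by
        intro p hp
        obtain ⟨g1, g2, g3⟩ := PS_mem hY1 hp
        simp only [hf]
        rw [Finset.mul_sum]
        apply Finset.sum_le_sum
        intro k _
        rw [Finset.mul_sum]
        apply Finset.sum_le_sum
        intro l _
        apply mul_le_mul
        · exact one_div_le_one_div_of_le hw0 g2.le
        · by_cases h : ((p : ℤ) ∣ -(a i (k : ℕ)) * ip p - -(a j (l : ℕ)) * ip p)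
          · rw [if_pos h, if_pos (hdiff p g1 g2 _ _ h)]
          · rw [if_neg h]
            positivity
        · positivity
        · positivity
      refine (Finset.sum_le_sum e1).trans ?_
      rw [Finset.sum_comm]
      have e2 : ∀ k : κ i, ∑ p ∈ PS w (Real.exp Y) ∅, ∑ l : κ j, 1 / w *
          (if ((p : ℤ) ∣ a j (l : ℕ) - a i (k : ℕ)) then (1:ℝ) else 0) ≤ u * (1 / w * (2 * Y)) := by
        intro k
        rw [Finset.sum_comm]
        have e3 : ∀ l : κ j, ∑ p ∈ PS w (Real.exp Y) ∅, 1 / w *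
          (if ((p : ℤ) ∣ a j (l : ℕ) - a i (k : ℕ)) then (1:ℝ) else 0) ≤ 1 / w * (2 * Y) := by
          intro l
          have hk := mem_Icc.1 (mem_filter.1 k.2).1
          have hl := mem_Icc.1 (mem_filter.1 l.2).1
          obtain ⟨h1, h2⟩ := hne i j hij k l hk.1 hk.2 hl.1 hl.2
          rw [← Finset.mul_sum]
          apply mul_le_mul_of_nonneg_left _ (by positivity)
          rw [Finset.sum_ite, Finset.sum_const_zero, add_zero, Finset.sum_const, nsmul_eq_mul,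
            mul_one]
          apply few_primes _ _ _ h1 Y h2
          · intro p hp
            exact (Finset.mem_filter.1 hp).2
          · intro p hp
            exact (PS_mem hY1 (Finset.mem_filter.1 hp).1).1
        refine (Finset.sum_le_sum fun l _ => e3 l).trans ?_
        rw [Finset.sum_const, nsmul_eq_mul, Finset.card_univ]
        apply mul_le_mul_of_nonneg_right _ (by positivity)
        have := hcard j
        simp only [hκ]
        rw [Fintype.card_coe]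
        exact this
      refine (Finset.sum_le_sum fun k _ => e2 k).trans ?_
      rw [Finset.sum_const, nsmul_eq_mul, Finset.card_univ]
      have e4 : (Fintype.card (κ i) : ℝ) ≤ u := by
        have := hcard i
        simp only [hκ]
        rw [Fintype.card_coe]
        exact this
      have e5 : 0 ≤ u * (1 / w * (2 * Y)) := by positivity
      refine (mul_le_mul_of_nonneg_right e4 e5).trans (le_of_eq ?_)
      ring)
    A' B' (hlen.trans hBA1)
  refine le_trans ?_ (hcount.trans (mul_le_mul_of_nonneg_left hBA2 hη))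
  rw [Nat.cast_le]
  apply Finset.card_le_card_of_injOn (fun n : ℤ => (n - (b : ℤ)) / (P : ℤ))
  · intro n hn
    rw [Finset.mem_coe, Finset.mem_filter, Finset.mem_Ioc] at hn
    obtain ⟨⟨hn1, hn2⟩, ⟨m, hm⟩, hn4⟩ := hn
    have hm' : (n - b) / P = m := by
      rw [hm]
      exact Int.mul_ediv_cancel_left _ hPz.ne'
    rw [Finset.mem_coe]
    refine (mem_filt _ _ _ _).2 ?_
    show (n - b) / P ∈ Ioc A' B' ∧ ¬ ∃ i : Fin J₀, ∀ k : κ i, ∃ p : ℕ, p.Prime ∧ w < (p : ℝ) ∧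
        (p : ℝ) ≤ z ∧ (p : ℤ) ∣ (n - b) / P - -(a i (k : ℕ)) * ip p
    rw [hm', Finset.mem_Ioc]
    refine ⟨⟨?_, ?_⟩, ?_⟩
    · by_contra h
      have h1 : m ≤ A' := by omega
      have h2 : (P : ℤ) * m ≤ P * A' := mul_le_mul_of_nonneg_left h1 hPz.le
      omega
    · by_contra h
      have h1 : B' + 1 ≤ m := by omega
      have h2 : (P : ℤ) * (B' + 1) ≤ P * m := mul_le_mul_of_nonneg_left h1 hPz.le
      have h3 : (P : ℤ) * (B' + 1) = P * B' + P := by ring
      omega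
    · rintro ⟨i, hi⟩
      apply hn4
      refine ⟨i, i.2, fun k hk1 hk2 => ?_⟩
      by_cases hkU : P.Coprime (b + (i : ℕ) * H + k)
      · obtain ⟨p, hp, hp1, hp2, hp3⟩ := hi ⟨k, mem_filter.2 ⟨mem_Icc.2 ⟨hk1, hk2⟩, hkU⟩⟩
        refine ⟨p, hp, hp2, ?_⟩
        have h1 := hip p hp (hndvdP p hp hp1)
        have h3 := hp3.mul_left (P : ℤ)
        have h4 := h1.mul_left (a i k)
        have h5 := dvd_sub h3 h4
        have h6 : (P : ℤ) * (m - -(a i k) * ip p) - a i k * ((P : ℤ) * ip p - 1) =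
            n + ((i : ℕ) : ℤ) * H + k := by
          simp only [ha]
          linear_combination -hm
        rwa [← h6]
      · rw [Nat.Prime.not_coprime_iff_dvd] at hkU
        obtain ⟨p, hp, hp1, hp2⟩ := hkU
        have hpx : (p : ℝ) ≤ x := (hfloor p).1 ((hp.dvd_primorial_iff).1 hp1)
        refine ⟨p, hp, hpx.trans hxz, ?_⟩
        have h3 : (p : ℤ) ∣ (P : ℤ) * m := Dvd.dvd.mul_right (by exact_mod_cast hp1) _
        have h4 : (p : ℤ) ∣ (b : ℤ) + ((i : ℕ) : ℤ) * H + k := by exact_mod_cast hp2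
        have h5 : n + ((i : ℕ) : ℤ) * H + k = ((b : ℤ) + ((i : ℕ) : ℤ) * H + k) + P * m := by
          linear_combination hm
        rw [h5]
        exact dvd_add h4 h3
  · intro n hn n' hn' h
    rw [Finset.mem_coe, Finset.mem_filter] at hn hn'
    obtain ⟨m, hm⟩ := hn.2.1
    obtain ⟨m', hm'⟩ := hn'.2.1
    have h1 : (n - b) / P = (n' - b) / P := h
    rw [hm, hm', Int.mul_ediv_cancel_left _ hPz.ne', Int.mul_ediv_cancel_left _ hPz.ne'] at h1
    rw [h1] at hm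
    linarith

end Pool.Agent.T2h81.UC
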