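import Pool.Agent.T2h81.UC.A12
import Pool.Agent.H95R2.Leh.ApSieve

set_option autoImplicit false
set_option linter.unusedSectionVars false
set_option linter.unusedVariables false
set_option maxHeartbeats 4000000

/-! # Almost all integers have a covered window -/

namespace Pool.Agent.T2h81.UC

open Finset Filter Pool.Agent.H256R2.SC Pool.Agent.Y831.RC

open scoped Classical

theorem ev_e2 (C : ℝ) (hC : 0 < C) : ∃ e₁ : ℝ, ∀ e : ℝ, e₁ ≤ e →
    72 * C * e ^ 3 ≤ Real.exp (e / 2) := by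
  have h := (Real.isLittleO_pow_exp_atTop (n := 3)).def
    (show (0:ℝ) < 1 / (72 * C * 8) by positivity)
  have h2 := (Filter.tendsto_id.atTop_div_const (show (0:ℝ) < 2 by norm_num)).eventually h
  obtain ⟨e₁, he₁⟩ := Filter.eventually_atTop.1 (h2.and (eventually_ge_atTop (0:ℝ)))
  refine ⟨e₁, fun e he => ?_⟩
  obtain ⟨g1, g2⟩ := he₁ e he
  simp only [id] at g1
  rw [Real.norm_of_nonneg (by positivity), Real.norm_of_nonneg (Real.exp_pos _).le] at g1
  have e1 : 72 * C * e ^ 3 = 72 * C * 8 * (e / 2) ^ 3 := by ring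
  rw [e1]
  calc 72 * C * 8 * (e / 2) ^ 3 ≤ 72 * C * 8 * (1 / (72 * C * 8) * Real.exp (e / 2)) :=
        mul_le_mul_of_nonneg_left g1 (by positivity)
    _ = Real.exp (e / 2) := by field_simp

/-- summing over the classes -/
theorem sum_classes (S : Finset ℤ) (P : ℕ) (hP : 0 < P) (pr : ℤ → Prop) :
    ((S.filter (fun n => ¬ pr n)).card : ℝ) ≤
      ∑ b ∈ range P, ((S.filter (fun n : ℤ => (P : ℤ) ∣ n - b ∧ ¬ pr n)).card : ℝ) := by
  have hPz : (0 : ℤ) < P := by exact_mod_cast hP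
  have h1 : (S.filter (fun n => ¬ pr n)) ⊆
      (range P).biUnion (fun b => S.filter (fun n : ℤ => (P : ℤ) ∣ n - b ∧ ¬ pr n)) := by
    intro n hn
    rw [Finset.mem_filter] at hn
    rw [Finset.mem_biUnion]
    refine ⟨(n % P).toNat, ?_, ?_⟩
    · rw [Finset.mem_range]
      have h2 := Int.emod_lt_of_pos n hPz
      have h3 := Int.emod_nonneg n hPz.ne'
      omega
    · rw [Finset.mem_filter]
      refine ⟨hn.1, ?_, hn.2⟩
      have h3 := Int.emod_nonneg n hPz.ne'
      rw [Int.toNat_of_nonneg h3]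
      exact Int.dvd_self_sub_emod
  have h2 := (Finset.card_le_card h1).trans Finset.card_biUnion_le
  exact_mod_cast h2

theorem few_bad : ∃ c₂ e₀ L₀ : ℝ, 0 < c₂ ∧ c₂ ≤ 1 / 48 ∧ 1000 ≤ e₀ ∧ ∀ L e : ℝ, L₀ ≤ L → e₀ ≤ e →
    e ≤ 1 / 4 * Real.log L → ∀ (M : ℤ) (N : ℕ), Real.exp (2 * L) ≤ N →
    L ≤ (⌊c₂ * e * L⌋₊ : ℝ) ∧ c₂ * e * L + 1 ≤ L ^ 2 ∧
    (((Ioc M (M + N)).filter (fun n : ℤ => ¬ GoodW (Real.exp (L / (6400 * e))) ⌊c₂ * e * L⌋₊
      (⌊c₂ * e * L⌋₊ + 1) ⌈Real.exp (e ^ 2 * Real.exp e + e / 2)⌉₊ n)).card : ℝ) ≤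
      18 * Real.exp (-(e / 2)) * N := by
  obtain ⟨c, C, hc, hcC, hWb⟩ := WW_bounds
  obtain ⟨CR, hCR0, hSR⟩ := sum_ratio
  obtain ⟨C₁, hC₁, hBH⟩ := BHyp_PS2
  obtain ⟨Cs, hCs1, hsv⟩ := Pool.Agent.H95R2.Leh.ap_sieve
  have hC : 0 < C := hc.trans_le hcC
  have hCs : 0 < Cs := by linarith only [hCs1]
  obtain ⟨c₂, hc₂⟩ : ∃ c₂ : ℝ, c₂ = c / (48 * Cs + 48 * c) := ⟨_, rfl⟩
  have hc₂0 : 0 < c₂ := by rw [hc₂]; positivity
  have hc₂1 : c₂ ≤ 1 / 48 := by
    rw [hc₂, div_le_div_iff₀ (by positivity) (by norm_num)]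
    nlinarith only [hCs, hc]
  have hc₂2 : c₂ * Cs ≤ c / 48 := by
    rw [hc₂, div_mul_eq_mul_div, div_le_div_iff₀ (by positivity) (by norm_num)]
    nlinarith only [hCs, hc]
  have h0a : 0 < 512 / c := by positivity
  have h0b : 0 < 2 / c₂ := by positivity
  have hE₁ := Real.exp_pos C₁
  obtain ⟨K₀, hK₀⟩ : ∃ K₀ : ℝ, K₀ = 6400 + 512 / c + 2 / c₂ := ⟨_, rfl⟩
  obtain ⟨M₀, hM₀⟩ : ∃ M₀ : ℝ, M₀ = 1600 + Real.exp C₁ + 2 * CR := ⟨_, rfl⟩
  have hK1 : 6400 ≤ K₀ := by rw [hK₀]; linarith only [h0a, h0b]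
  have hK4 : 512 / c ≤ K₀ := by rw [hK₀]; linarith only [h0a, h0b]
  have hK5 : 2 / c₂ ≤ K₀ := by rw [hK₀]; linarith only [h0a, h0b]
  have hM1 : 1600 ≤ M₀ := by rw [hM₀]; linarith only [hE₁, hCR0]
  have hM4 : Real.exp C₁ ≤ M₀ := by rw [hM₀]; linarith only [hE₁, hCR0]
  have hM5 : 2 * CR ≤ M₀ := by rw [hM₀]; linarith only [hE₁, hCR0]
  obtain ⟨e₀, he₀⟩ := ev_e K₀ (by linarith only [hK1])
  obtain ⟨e₁, he₁⟩ := ev_e2 C hC
  obtain ⟨L₀, hL₀⟩ := ev_L5 (3 / 4) M₀ (by norm_num) (by norm_num) (by linarith only [hM1])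
  refine ⟨c₂, max 1000 (max e₀ e₁), L₀, hc₂0, hc₂1, le_max_left _ _, ?_⟩
  intro L e hL he heu M N hN
  have hee0 : e₀ ≤ e := (le_max_left _ _).trans ((le_max_right _ _).trans he)
  have hee1 : e₁ ≤ e := (le_max_right _ _).trans ((le_max_right _ _).trans he)
  obtain ⟨he1, he3, helog⟩ := he₀ e hee0
  have he4 := he₁ e hee1
  obtain ⟨a1, a2, _, a4, a5⟩ := hL₀ L hL
  have he1000 : 1000 ≤ e := by linarith only [hK1, he1]
  have he6400 : 6400 ≤ e := by linarith only [hK1, he1]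
  have he0 : 0 < e := by linarith only [he1000]
  have he1' : 1 ≤ e := by linarith only [he1000]
  have b1 := a5 e he1' (by linarith only [heu])
  set l : ℝ := Real.log L with hl
  have hL1600 : 1600 ≤ L := by linarith only [hM1, a1]
  have hL0 : 0 < L := by linarith only [hL1600]
  have hL1 : 1 ≤ L := by linarith only [hL1600]
  have hl0 : 0 ≤ l := by linarith only [a2]
  have hel : e ≤ l := by linarith only [hl0, heu]
  have hlL : l ≤ L := by
    have h1 : 8 * l ≤ M₀ * l := q_mul (by linarith only [hM1]) hl0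
    linarith only [h1, a4, hl0]
  have hExpL4 : Real.exp (4 * e) ≤ L := by
    rw [← Real.exp_log hL0]
    exact Real.exp_le_exp.2 (by linarith only [heu])
  have hexp1 : 1001 ≤ Real.exp e := by
    have := Real.add_one_le_exp e
    linarith only [this, he1000]
  have hexp0 := Real.exp_pos e
  -- the window length
  set F : ℕ := ⌊c₂ * e * L⌋₊ with hF
  have hF1 : (F : ℝ) ≤ c₂ * e * L := Nat.floor_le (by positivity)
  have hF2 : c₂ * e * L < F + 1 := Nat.lt_floor_add_one _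
  have h2e : 2 ≤ c₂ * e := by
    have e1 : 2 / c₂ ≤ e := hK5.trans he1
    rw [div_le_iff₀ hc₂0] at e1
    linarith only [e1]
  have hF3 : L ≤ (F : ℝ) := by
    have e1 : 2 * L ≤ c₂ * e * L := mul_le_mul_of_nonneg_right h2e hL0.le
    linarith only [e1, hF2, hL1]
  have hF4 : c₂ * e * L + 1 ≤ L ^ 2 := by
    have e1 : c₂ * e ≤ 1 / 48 * L := mul_le_mul hc₂1 (hel.trans hlL) he0.le (by norm_num)
    have e2 : c₂ * e * L ≤ 1 / 48 * L * L := mul_le_mul_of_nonneg_right e1 hL0.le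
    nlinarith only [e2, hL1600]
  refine ⟨hF3, hF4, ?_⟩
  set H : ℕ := F + 1 with hH
  have hH1 : (H : ℝ) ≤ L ^ 2 := by
    rw [hH]
    push_cast
    linarith only [hF1, hF4]
  set J₀ : ℕ := ⌈Real.exp (e ^ 2 * Real.exp e + e / 2)⌉₊ with hJ₀
  have hJ1 : Real.exp (e ^ 2 * Real.exp e + e / 2) ≤ (J₀ : ℝ) := Nat.le_ceil _
  have hJ2 : (J₀ : ℝ) ≤ Real.exp (e ^ 2 * Real.exp e + e / 2 + 1) := by
    have e1 := Nat.ceil_lt_add_one (Real.exp_pos (e ^ 2 * Real.exp e + e / 2)).le
    have e2 : 1 ≤ Real.exp (e ^ 2 * Real.exp e + e / 2) := Real.one_le_exp (by positivity)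
    have e3 : (2:ℝ) ≤ Real.exp 1 := by
      have := Real.add_one_le_exp (1:ℝ)
      linarith only [this]
    rw [Real.exp_add _ 1]
    nlinarith only [e1, e2, e3, hJ₀]
  set Y : ℝ := L * Real.exp (-e) / e ^ 2 with hY
  have hY0 : 0 < Y := by positivity
  have hYL : Y ≤ L := by
    rw [hY, div_le_iff₀ (by positivity)]
    have e1 : Real.exp (-e) ≤ 1 := by rw [Real.exp_le_one_iff]; linarith only [he0]
    have e2 : 1 ≤ e ^ 2 := one_le_pow₀ he1'
    nlinarith only [e1, e2, hL0]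
  have hEn : Real.exp (-e) * Real.exp e = 1 := by rw [← Real.exp_add]; simp
  have hYbig : e ^ 2 * Real.exp e ≤ Y / 2 := by
    have e1 : e ≤ Real.exp e := by
      have := Real.add_one_le_exp e
      linarith only [this]
    have e2 : 2 * e ^ 3 ≤ Real.exp e := by
      have : 0 ≤ e ^ 3 := by positivity
      nlinarith only [this, he3, hK1]
    have e3 : 2 * e ^ 4 ≤ Real.exp e * Real.exp e := by
      calc 2 * e ^ 4 = (2 * e ^ 3) * e := by ring
        _ ≤ Real.exp e * Real.exp e := mul_le_mul e2 e1 he0.le hexp0.le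
    have e4 : 2 * e ^ 4 * (Real.exp e * Real.exp e) ≤ L := by
      refine le_trans ?_ hExpL4
      have : Real.exp (4 * e) = Real.exp e * Real.exp e * (Real.exp e * Real.exp e) := by
        rw [← Real.exp_add, ← Real.exp_add]; congr 1; ring
      rw [this]
      exact mul_le_mul_of_nonneg_right e3 (by positivity)
    rw [hY, div_div, le_div_iff₀ (by positivity)]
    have e5 : e ^ 2 * Real.exp e * (e ^ 2 * 2) = (2 * e ^ 4 * (Real.exp e * Real.exp e)) *
        Real.exp (-e) := by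
      linear_combination (-2 * e ^ 4 * Real.exp e) * hEn
    rw [e5]
    exact mul_le_mul_of_nonneg_right e4 (Real.exp_pos _).le
  have hYl : 1600 * l ≤ Y := (q_mul hM1 hl0).trans b1
  have hexpl : Real.exp l = L := Real.exp_log hL0
  have hJH : (J₀ : ℝ) * H ≤ Real.exp Y := by
    have e1 : (H : ℝ) ≤ Real.exp (2 * l) := by
      have : Real.exp (2 * l) = L ^ 2 := by
        rw [← hexpl, ← Real.exp_nat_mul]; push_cast; ring_nf
      rw [this]
      exact hH1
    calc (J₀ : ℝ) * H ≤ Real.exp (e ^ 2 * Real.exp e + e / 2 + 1) * Real.exp (2 * l) :=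
          mul_le_mul hJ2 e1 (Nat.cast_nonneg _) (Real.exp_pos _).le
      _ = Real.exp (e ^ 2 * Real.exp e + e / 2 + 1 + 2 * l) := by rw [← Real.exp_add]
      _ ≤ _ := Real.exp_le_exp.2 (by linarith only [hYbig, hYl, hel, a2])
  have hwY : L ^ 6 ≤ Real.exp Y := p_pow hL1 6 (by push_cast; linarith only [hYl, hl0])
  have hYZ : Y ≤ L / (6400 * e) := by
    rw [hY]
    rw [div_le_div_iff₀ (by positivity) (by positivity)]
    have e1 : 6400 * e ≤ e ^ 2 * Real.exp e := by nlinarith only [he6400, hexp1, he0]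
    calc L * Real.exp (-e) * (6400 * e) ≤ L * Real.exp (-e) * (e ^ 2 * Real.exp e) :=
          mul_le_mul_of_nonneg_left e1 (by positivity)
      _ = L * e ^ 2 * (Real.exp (-e) * Real.exp e) := by ring
      _ = L * e ^ 2 := by rw [hEn, mul_one]
  set z : ℝ := Real.exp (L / (6400 * e)) with hz
  have hwz : L ^ 6 ≤ z := hwY.trans (Real.exp_le_exp.2 hYZ)
  have hL16 : L ≤ L ^ 6 := by
    calc L = L ^ 1 := (pow_one L).symm
      _ ≤ L ^ 6 := pow_le_pow_right₀ hL1 (by norm_num)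
  have hL26 : L ^ 2 ≤ L ^ 6 := pow_le_pow_right₀ hL1 (by norm_num)
  set x : ℝ := L / 32 with hx
  have hx0 : 0 ≤ x := by positivity
  have hxL : x ≤ L := by rw [hx]; linarith only [hL0]
  set P : ℕ := primorial ⌊x⌋₊ with hP
  have hPpos : 0 < P := primorial_pos _
  have hPr : (0:ℝ) < P := by exact_mod_cast hPpos
  have hPx : (P:ℝ) ≤ Real.exp (L / 16) := by
    refine (primorial_le_exp x hx0).trans (le_of_eq ?_)
    rw [hx]
    congr 1
    ring
  -- the number of survivors in a window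
  set W : ℝ := WW (L ^ 6) with hW
  have hW0 : 0 < W := WW_pos _
  have hW1 : W ≤ 1 := WW_le_one _
  obtain ⟨hWl, _⟩ := hWb (L ^ 6) (by linarith only [hL16, hL1600])
  rw [Real.log_pow, ← hl, ← hW] at hWl
  push_cast at hWl
  set u : ℝ := 1 / 8 * (e * L * W) with hu
  have hu0 : 0 ≤ u := by positivity
  have hl1 : 0 < l := by linarith only [a2]
  have hcard : ∀ (b : ℕ) (i : Fin J₀), (((Icc 1 F).filter (fun k =>
      P.Coprime (b + (i : ℕ) * H + k))).card : ℝ) ≤ u := by
    intro b i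
    have hF2' : 2 ≤ F := by
      have : (2:ℝ) ≤ F := by linarith only [hF3, hL1600]
      exact_mod_cast this
    have h1 := hsv (b + (i : ℕ) * H + 1) 1 F le_rfl hF2'
    simp only [Nat.totient_one, Nat.cast_one, div_one, mul_one] at h1
    have h2 : ((Icc 1 F).filter (fun k => P.Coprime (b + (i : ℕ) * H + k))).card ≤
        ((Finset.range F).filter
      (fun j => ∀ p : ℕ, p.Prime → (p : ℝ) ^ 8 ≤ F → ¬ p ∣ (b + (i : ℕ) * H + 1) + j)).card := by
      apply Finset.card_le_card_of_injOn (fun k => k - 1)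
      · intro k hk
        rw [Finset.mem_coe, Finset.mem_filter, Finset.mem_Icc] at hk
        obtain ⟨⟨hk1, hk2⟩, hk3⟩ := hk
        rw [Finset.mem_coe, Finset.mem_filter, Finset.mem_range]
        refine ⟨by show k - 1 < F; omega, ?_⟩
        intro p hp hp8 hdvd
        have h3 : (b + (i : ℕ) * H + 1) + (k - 1) = b + (i : ℕ) * H + k := by omega
        rw [h3] at hdvd
        have hpx : (p : ℝ) ≤ x := by
          by_contra hcon
          push Not at hcon
          have g1 : (50:ℝ) ≤ x := by rw [hx]; linarith only [hL1600]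
          have g2 : x ^ 8 < (p : ℝ) ^ 8 := pow_lt_pow_left₀ hcon hx0 (by norm_num)
          have g3 : (p : ℝ) ^ 8 ≤ L ^ 2 := by linarith only [hp8, hF1, hF4]
          have g4 : L ^ 2 ≤ x ^ 8 := by
            have g5 : L = 32 * x := by rw [hx]; ring
            have g6 : (50:ℝ) ^ 6 ≤ x ^ 6 := pow_le_pow_left₀ (by norm_num) g1 6
            have g7 : x ^ 8 = x ^ 6 * x ^ 2 := by ring
            rw [g5, g7]
            have g8 : 0 ≤ x ^ 2 := by positivity
            nlinarith only [g6, g8]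
          linarith only [g2, g3, g4]
        have hpP : p ∣ P := (hp.dvd_primorial_iff).2 ((Nat.le_floor_iff hx0).2 hpx)
        exact (Nat.Prime.not_coprime_iff_dvd.2 ⟨p, hp, hpP, hdvd⟩) hk3
      · intro k hk k' hk' h
        rw [Finset.mem_coe, Finset.mem_filter, Finset.mem_Icc] at hk hk'
        have h4 : k - 1 = k' - 1 := h
        omega
    have h3 : (((Icc 1 F).filter (fun k => P.Coprime (b + (i : ℕ) * H + k))).card : ℝ) ≤
        Cs * F / Real.log F := by
      refine le_trans ?_ h1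
      exact_mod_cast h2
    refine h3.trans ?_
    have h4 : l ≤ Real.log F := Real.log_le_log hL0 hF3
    have h5 : Cs * F / Real.log F ≤ Cs * (c₂ * e * L) / l := by
      apply div_le_div₀ (by positivity) _ hl1 h4
      exact mul_le_mul_of_nonneg_left hF1 hCs.le
    refine h5.trans ?_
    rw [div_le_iff₀ hl1, hu]
    have h6 : Cs * (c₂ * e * L) = (c₂ * Cs) * (e * L) := by ring
    have h7 : (c₂ * Cs) * (e * L) ≤ c / 48 * (e * L) :=
      mul_le_mul_of_nonneg_right hc₂2 (by positivity)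
    have h8 : c * (e * L) ≤ W * (6 * l) * (e * L) :=
      mul_le_mul_of_nonneg_right hWl (by positivity)
    rw [h6]
    linarith only [h7, h8]
  -- sizes
  set σ : ℝ := Real.exp (-(e / 2)) with hσ
  have hσ0 : 0 < σ := Real.exp_pos _
  have hCc : u ^ 2 * (2 * Y / L ^ 6) ≤ σ / 200000 := by
    have e1 : u ≤ L ^ 2 / 8 := by
      rw [hu]
      have g1 : e * L * W ≤ L * L * 1 := by
        apply mul_le_mul _ hW1 hW0.le (by positivity)
        exact mul_le_mul_of_nonneg_right (hel.trans hlL) hL0.le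
      nlinarith only [g1]
    have e2 : u ^ 2 ≤ (L ^ 2 / 8) ^ 2 := pow_le_pow_left₀ hu0 e1 2
    have e3 : u ^ 2 * (2 * Y / L ^ 6) ≤ (L ^ 2 / 8) ^ 2 * (2 * L / L ^ 6) := by
      apply mul_le_mul e2 _ (by positivity) (by positivity)
      apply div_le_div_of_nonneg_right _ (by positivity)
      linarith only [hYL]
    refine e3.trans ?_
    have e4 : (L ^ 2 / 8) ^ 2 * (2 * L / L ^ 6) = 1 / (32 * L) := by
      field_simp
      norm_num
    rw [e4, div_le_div_iff₀ (by positivity) (by norm_num)]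
    have e5 : σ * Real.exp (4 * e) = Real.exp (3.5 * e) := by
      rw [hσ, ← Real.exp_add]; congr 1; ring
    have e6 : Real.exp e * Real.exp e ≤ Real.exp (3.5 * e) := by
      rw [← Real.exp_add]
      exact Real.exp_le_exp.2 (by linarith only [he0])
    have e7 : 1001 * 1001 ≤ Real.exp e * Real.exp e :=
      mul_le_mul hexp1 hexp1 (by norm_num) hexp0.le
    have e8 : σ * Real.exp (4 * e) ≤ σ * L := mul_le_mul_of_nonneg_left hExpL4 hσ0.le
    nlinarith only [e5, e6, e7, e8]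
  have hlen : Real.exp (15 / 8 * L) ≤ (N : ℝ) / (P : ℝ) - 1 := by
    have e1 : Real.exp (31 / 16 * L) ≤ (N : ℝ) / P := by
      rw [le_div_iff₀ hPr]
      calc Real.exp (31 / 16 * L) * P ≤ Real.exp (31 / 16 * L) * Real.exp (L / 16) :=
            mul_le_mul_of_nonneg_left hPx (Real.exp_pos _).le
        _ = Real.exp (2 * L) := by rw [← Real.exp_add]; congr 1; ring
        _ ≤ N := hN
    have e2 : Real.exp (31 / 16 * L) = Real.exp (15 / 8 * L) * Real.exp (L / 16) := by
      rw [← Real.exp_add]; congr 1; ring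
    have e3 : 2 ≤ Real.exp (L / 16) := by
      have := Real.add_one_le_exp (L / 16)
      linarith only [this, hL1600]
    have e4 : 1 ≤ Real.exp (15 / 8 * L) := Real.one_le_exp (by positivity)
    nlinarith only [e1, e2, e3, e4]
  -- each class
  have hcls : ∀ b ∈ range P, (((Ioc M (M + N)).filter (fun n : ℤ => (P : ℤ) ∣ n - b ∧
      ¬ GoodW z F H J₀ n)).card : ℝ) ≤ 17 * σ * ((N : ℝ) / (P : ℝ) + 1) := by
    intro b _
    apply class_few (L ^ 6) Y z x u (17 * σ) (Real.exp (15 / 8 * L)) (σ / 200000) F H J₀ b hx0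
      (hxL.trans hL16) (Nat.lt_succ_self F) (hH1.trans hL26) (by linarith only [hL16, hL1])
      ((hxL.trans hL16).trans hwz) hu0 hwY hJH hY0.le hCc (by positivity) (hcard b) ?_ M N hlen
    intro κ _ _ hκ res hres hres2 hcoll A B hAB
    have hfin := covA_at c C CR C₁ K₀ M₀ hc hC hC₁ hCR0 hWb hSR hBH hK1 hK4 hM1 hM4 hM5 L e he1 he3
      helog he4 a1 a2 a4 heu b1 (Fin J₀) (by rw [Fintype.card_fin]; exact hJ1) κ hκ res hres hres2
      hcoll A B hAB
    convert hfin
  refine (sum_classes _ P hPpos (GoodW z F H J₀)).trans ((Finset.sum_le_sum hcls).trans ?_)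
  rw [Finset.sum_const, Finset.card_range, nsmul_eq_mul]
  have e1 : (P : ℝ) * (17 * σ * ((N : ℝ) / (P : ℝ) + 1)) = 17 * σ * (N + P) := by
    field_simp
  rw [e1]
  have e2 : 17 * (P : ℝ) ≤ N := by
    have g1 : 17 * Real.exp (L / 16) ≤ Real.exp (2 * L) := by
      have g2 : Real.exp (2 * L) = Real.exp (L / 16) * Real.exp (31 / 16 * L) := by
        rw [← Real.exp_add]; congr 1; ring
      have g3 : 17 ≤ Real.exp (31 / 16 * L) := by
        have := Real.add_one_le_exp (31 / 16 * L)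
        linarith only [this, hL1600]
      rw [g2]
      have g4 := Real.exp_pos (L / 16)
      nlinarith only [g3, g4]
    linarith only [g1, hN, hPx]
  nlinarith only [e2, hσ0]

end Pool.Agent.T2h81.UC
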