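import Pool.Agent.T2h81.Idx4

set_option autoImplicit false
set_option linter.unusedVariables false
set_option maxHeartbeats 4000000

/-! # Primes followed by too many primes are rare, uniformly -/

namespace Pool.Agent.T2h81.UC

open Finset Filter Pool.Agent.H361R2.PP Pool.Agent.T2h81.AS

/-- the number of primes in a block -/
noncomputable def ab (X N i : ℕ) : ℕ :=
  ((Ico (X + 1 + i * N) (X + 1 + (i + 1) * N)).filter Nat.Prime).card

/-- the number of primes just after `p` -/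
noncomputable def nx (N p : ℕ) : ℕ := ((Ioc p (p + N)).filter Nat.Prime).card

theorem amgm (f : ℕ → ℕ) (I j : ℕ) :
    ∑ i ∈ range I, f i * ∑ d ∈ range j, f (i + d) ≤ j * ∑ i ∈ range (I + j), (f i) ^ 2 := by
  have h1 : ∀ d ∈ range j, ∑ i ∈ range I, (f (i + d)) ^ 2 ≤ ∑ i ∈ range (I + j), (f i) ^ 2 := by
    intro d hd
    rw [mem_range] at hd
    have e1 : ∑ i ∈ range I, (f (i + d)) ^ 2 = ∑ i ∈ (range I).image (fun i => i + d), (f i) ^ 2 := by
      rw [sum_image]
      intro a _ b _ h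
      have : a + d = b + d := h
      omega
    rw [e1]
    apply sum_le_sum_of_subset
    intro i hi
    rw [mem_image] at hi
    obtain ⟨a, ha, rfl⟩ := hi
    rw [mem_range] at ha ⊢
    omega
  have h2 : ∑ i ∈ range I, (f i) ^ 2 ≤ ∑ i ∈ range (I + j), (f i) ^ 2 := by
    apply sum_le_sum_of_subset
    intro i hi
    rw [mem_range] at hi ⊢
    omega
  have h3 : 2 * ∑ i ∈ range I, f i * ∑ d ∈ range j, f (i + d) ≤
      ∑ i ∈ range I, ∑ d ∈ range j, ((f i) ^ 2 + (f (i + d)) ^ 2) := by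
    rw [mul_sum]
    apply sum_le_sum
    intro i _
    rw [← mul_assoc, mul_sum]
    apply sum_le_sum
    intro d _
    have : 2 * ((f i : ℤ)) * f (i + d) ≤ (f i : ℤ) ^ 2 + (f (i + d) : ℤ) ^ 2 := by
      nlinarith [sq_nonneg ((f i : ℤ) - f (i + d))]
    exact_mod_cast this
  have h4 : ∑ i ∈ range I, ∑ d ∈ range j, ((f i) ^ 2 + (f (i + d)) ^ 2) =
      j * ∑ i ∈ range I, (f i) ^ 2 + ∑ d ∈ range j, ∑ i ∈ range I, (f (i + d)) ^ 2 := by
    rw [sum_comm, ← sum_comm (s := range I) (t := range j) (f := fun i d => (f (i + d)) ^ 2)]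
    simp only [sum_add_distrib, sum_const, card_range, smul_eq_mul]
    congr 1
    rw [sum_comm]
  have h5 : ∑ d ∈ range j, ∑ i ∈ range I, (f (i + d)) ^ 2 ≤ j * ∑ i ∈ range (I + j), (f i) ^ 2 := by
    calc ∑ d ∈ range j, ∑ i ∈ range I, (f (i + d)) ^ 2
        ≤ ∑ d ∈ range j, ∑ i ∈ range (I + j), (f i) ^ 2 := sum_le_sum h1
      _ = _ := by rw [sum_const, card_range, smul_eq_mul]
  have h6 : j * ∑ i ∈ range I, (f i) ^ 2 ≤ j * ∑ i ∈ range (I + j), (f i) ^ 2 :=
    Nat.mul_le_mul_left _ h2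
  omega

theorem ab_sq (X N i : ℕ) : (ab X N i) ^ 2 ≤
    ∑ p ∈ (Ico (X + 1 + i * N) (X + 1 + (i + 1) * N)).filter Nat.Prime, (1 + 2 * nx N p) := by
  unfold ab
  set B := (Ico (X + 1 + i * N) (X + 1 + (i + 1) * N)).filter Nat.Prime with hB
  have h1 : B.card ^ 2 = ∑ p ∈ B, ∑ q ∈ B, 1 := by
    simp [pow_two]
  have h2 : ∀ p ∈ B, ∀ q ∈ B, (1 : ℕ) = (if q = p then 1 else 0) + (if p < q then 1 else 0) +
      (if q < p then 1 else 0) := by
    intro p _ q _
    rcases lt_trichotomy p q with h | h | h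
    · simp [h, h.ne', h.not_gt]
    · simp [h]
    · simp [h, h.ne, h.not_gt]
  have h3 : ∑ p ∈ B, ∑ q ∈ B, 1 = ∑ p ∈ B, ∑ q ∈ B, (if q = p then 1 else 0) +
      ∑ p ∈ B, ∑ q ∈ B, (if p < q then 1 else 0) + ∑ p ∈ B, ∑ q ∈ B, (if q < p then 1 else 0) := by
    rw [← sum_add_distrib, ← sum_add_distrib]
    refine sum_congr rfl fun p hp => ?_
    rw [← sum_add_distrib, ← sum_add_distrib]
    exact sum_congr rfl fun q hq => h2 p hp q hq
  have h4 : ∑ p ∈ B, ∑ q ∈ B, (if q < p then 1 else 0) =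
      ∑ p ∈ B, ∑ q ∈ B, (if p < q then 1 else 0) := sum_comm
  have h5 : ∑ p ∈ B, ∑ q ∈ B, (if q = p then 1 else 0) = ∑ p ∈ B, 1 := by
    refine sum_congr rfl fun p hp => ?_
    rw [sum_ite_eq' B p (fun _ => 1), if_pos hp]
  have h6 : ∀ p ∈ B, ∑ q ∈ B, (if p < q then 1 else 0) ≤ nx N p := by
    intro p hp
    rw [← card_filter]
    unfold nx
    apply card_le_card
    intro q hq
    rw [mem_filter, hB, mem_filter, mem_Ico] at hq
    rw [hB, mem_filter, mem_Ico] at hp
    rw [mem_filter, mem_Ioc]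
    refine ⟨⟨hq.2, ?_⟩, hq.1.2⟩
    have e1 : (i + 1) * N = i * N + N := by ring
    omega
  have h7 : ∑ p ∈ B, ∑ q ∈ B, (if p < q then 1 else 0) ≤ ∑ p ∈ B, nx N p := sum_le_sum h6
  rw [h1, h3, h4, h5, sum_add_distrib, ← mul_sum]
  omega

theorem sum_blocks (X N I : ℕ) (g : ℕ → ℕ) :
    ∑ i ∈ range I, ∑ p ∈ (Ico (X + 1 + i * N) (X + 1 + (i + 1) * N)).filter Nat.Prime, g p =
      ∑ p ∈ (Ico (X + 1) (X + 1 + I * N)).filter Nat.Prime, g p := by
  simp only [sum_filter]
  induction I with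
  | zero => simp
  | succ I ih =>
    rw [sum_range_succ, ih]
    apply sum_Ico_consecutive
    · omega
    · have : (I + 1) * N = I * N + N := by ring
      omega

theorem nx_sum (X N : ℕ) :
    ∑ p ∈ (Ioc X (2 * X)).filter Nat.Prime, nx N p ≤ PS X (N + 1) := by
  unfold PS
  have h1 : ∀ p ∈ (Ioc X (2 * X)).filter Nat.Prime, nx N p ≤
      ((Icc 2 (N + 1)).filter (fun a => (p - 1 + a).Prime)).card := by
    intro p hp
    have hp0 := (mem_filter.1 hp).2.pos
    unfold nx
    apply card_le_card_of_injOn (fun q => q - p + 1)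
    · intro q hq
      rw [mem_coe, mem_filter, mem_Ioc] at hq
      rw [mem_coe, mem_filter, mem_Icc]
      refine ⟨⟨show 2 ≤ q - p + 1 by omega, show q - p + 1 ≤ N + 1 by omega⟩, ?_⟩
      have : p - 1 + (q - p + 1) = q := by omega
      rw [this]
      exact hq.2
    · intro q hq q' hq' h
      rw [mem_coe, mem_filter, mem_Ioc] at hq hq'
      have h5 : q - p + 1 = q' - p + 1 := h
      omega
  refine (sum_le_sum h1).trans ?_
  have h2 : ∑ p ∈ (Ioc X (2 * X)).filter Nat.Prime,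
      ((Icc 2 (N + 1)).filter (fun a => (p - 1 + a).Prime)).card =
      ∑ n ∈ ((Ioc X (2 * X)).filter Nat.Prime).image (fun p => p - 1),
        ((Icc 2 (N + 1)).filter (fun a => (n + a).Prime)).card := by
    rw [sum_image]
    intro p hp q hq h
    have h5 : p - 1 = q - 1 := h
    have := (mem_filter.1 hp).2.pos
    have := (mem_filter.1 hq).2.pos
    omega
  rw [h2]
  apply sum_le_sum_of_subset
  intro n hn
  rw [mem_image] at hn
  obtain ⟨p, hp, rfl⟩ := hn
  rw [mem_filter, mem_Ioc] at hp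
  have hp0 := hp.2.pos
  rw [mem_filter, mem_Ico]
  refine ⟨⟨by omega, by omega⟩, ?_⟩
  have : p - 1 + 1 = p := by omega
  rw [this]
  exact hp.2

theorem dense_card (X N j m : ℕ) (hN : 0 < N) (D : Finset ℕ)
    (hD : ∀ k ∈ D, X + 1 ≤ P k ∧ P k ≤ 2 * X) (hm : ∀ k ∈ D, P (k + m) < P k + j * N) :
    D.card * m ≤ ∑ i ∈ range (X / N + 1), ab X N i * ∑ d ∈ range (j + 1), ab X N (i + d) := by
  set f : ℕ → ℕ := fun i => ∑ d ∈ range (j + 1), ab X N (i + d) with hf
  set ik : ℕ → ℕ := fun k => (P k - (X + 1)) / N with hik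
  have hik1 : ∀ k ∈ D, X + 1 + ik k * N ≤ P k ∧ P k < X + 1 + (ik k + 1) * N := by
    intro k hk
    have h1 := (hD k hk).1
    have h2 : (P k - (X + 1)) / N * N ≤ P k - (X + 1) := Nat.div_mul_le_self _ _
    have h3 : P k - (X + 1) < ((P k - (X + 1)) / N + 1) * N :=
      Nat.lt_mul_of_div_lt (Nat.lt_succ_self _) hN
    simp only [hik]
    constructor
    · omega
    · omega
  have h1 : ∀ k ∈ D, m ≤ f (ik k) := by
    intro k hk
    obtain ⟨g1, g2⟩ := hik1 k hk
    have g3 := hm k hk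
    have e1 : f (ik k) = ((Ico (X + ik k * N + 1) (X + ik k * N + 1 + (j + 1) * N)).filter
        Nat.Prime).card := by
      have := sum_blocks (X + ik k * N) N (j + 1) (fun _ => 1)
      simp only [sum_const, smul_eq_mul, mul_one] at this
      rw [← this]
      simp only [hf, ab]
      refine sum_congr rfl fun d _ => ?_
      congr 3
      · ring
      · ring
    rw [e1]
    calc m = (Ioc k (k + m)).card := by rw [Nat.card_Ioc]; omega
      _ ≤ _ := by
        apply card_le_card_of_injOn P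
        · intro k' hk'
          rw [mem_coe, mem_Ioc] at hk'
          rw [mem_coe, mem_filter, mem_Ico]
          have h2 : P k < P k' := P_mono hk'.1
          have h3 : P k' ≤ P (k + m) := P_mono.monotone hk'.2
          refine ⟨⟨by omega, ?_⟩, P_prime k'⟩
          have e2 : (ik k + 1) * N = ik k * N + N := by ring
          have e3 : (j + 1) * N = j * N + N := by ring
          omega
        · intro k' _ k'' _ h
          exact P_mono.injective h
  have h2 : ∀ k ∈ D, ik k ∈ range (X / N + 1) := by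
    intro k hk
    rw [mem_range]
    apply Nat.lt_succ_of_le
    simp only [hik]
    apply Nat.div_le_div_right
    have := (hD k hk).2
    omega
  calc D.card * m = ∑ k ∈ D, m := by rw [sum_const, smul_eq_mul]
    _ ≤ ∑ k ∈ D, f (ik k) := sum_le_sum h1
    _ = ∑ i ∈ range (X / N + 1), ∑ k ∈ D with ik k = i, f (ik k) :=
        (sum_fiberwise_of_maps_to h2 _).symm
    _ ≤ ∑ i ∈ range (X / N + 1), ab X N i * f i := by
        apply sum_le_sum
        intro i _
        have e1 : ∑ k ∈ D with ik k = i, f (ik k) = ∑ k ∈ D with ik k = i, f i := by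
          refine sum_congr rfl fun k hk => ?_
          rw [(mem_filter.1 hk).2]
        rw [e1, sum_const, smul_eq_mul]
        apply Nat.mul_le_mul_right
        unfold ab
        apply card_le_card_of_injOn P
        · intro k hk
          rw [mem_coe, mem_filter] at hk
          obtain ⟨g1, g2⟩ := hik1 k hk.1
          rw [hk.2] at g1 g2
          rw [mem_coe, mem_filter, mem_Ico]
          exact ⟨⟨g1, g2⟩, P_prime k⟩
        · intro k _ k' _ h
          exact P_mono.injective h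

theorem dense_le : ∃ X₀ : ℕ, ∀ X : ℕ, X₀ ≤ X → ∀ j m : ℕ, (j + 3) * ⌊Real.log X⌋₊ ≤ X →
    ∀ D : Finset ℕ, (∀ k ∈ D, X + 1 ≤ P k ∧ P k ≤ 2 * X) →
    (∀ k ∈ D, P (k + m) < P k + j * ⌊Real.log X⌋₊) →
    (D.card : ℝ) * m ≤ 800 * (j + 1) * Pr X := by
  obtain ⟨X1, h1⟩ := pairs_le 2 (by norm_num)
  obtain ⟨X2, h2⟩ := large_facts 0 1 1 one_pos one_pos
  obtain ⟨X3, h3⟩ := idx_double 0
  refine ⟨X1 + X2 + X3 + 2, fun X hX j m hj D hD hm => ?_⟩
  have p1 := h1 X (by omega)
  have p2 := h1 (2 * X) (by omega)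
  obtain ⟨g1, -, g3, -, -⟩ := h2 X (by omega)
  obtain ⟨g4, -⟩ := h3 X (by omega)
  rw [card_idx, card_idx] at g4
  set N : ℕ := ⌊Real.log X⌋₊ with hN
  have hX0 : (0 : ℝ) < X := by exact_mod_cast (by omega : 0 < X)
  have hN3 : 3 ≤ N := Nat.le_floor (by exact_mod_cast g1)
  have hN0 : 0 < N := by omega
  have hNlog : (N : ℝ) ≤ Real.log X := Nat.floor_le (by linarith)
  have k1 := dense_card X N j m hN0 D hD hm
  have k2 := amgm (ab X N) (X / N + 1) (j + 1)
  have k3 : ∑ i ∈ range (X / N + 1 + (j + 1)), (ab X N i) ^ 2 ≤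
      ∑ p ∈ (Ico (X + 1) (X + 1 + (X / N + 1 + (j + 1)) * N)).filter Nat.Prime,
        (1 + 2 * nx N p) := by
    rw [← sum_blocks]
    exact sum_le_sum fun i _ => ab_sq X N i
  have k4 : (Ico (X + 1) (X + 1 + (X / N + 1 + (j + 1)) * N)).filter Nat.Prime ⊆
      (Ioc X (2 * X)).filter Nat.Prime ∪ (Ioc (2 * X) (2 * (2 * X))).filter Nat.Prime := by
    intro p hp
    rw [mem_filter, mem_Ico] at hp
    rw [mem_union, mem_filter, mem_filter, mem_Ioc, mem_Ioc]
    have e1 : X / N * N ≤ X := Nat.div_mul_le_self _ _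
    have e2 : (X / N + 1 + (j + 1)) * N = X / N * N + (j + 2) * N := by ring
    have e3 : (j + 2) * N ≤ (j + 3) * N := Nat.mul_le_mul_right _ (by omega)
    by_cases h : p ≤ 2 * X
    · left
      exact ⟨⟨by omega, h⟩, hp.2⟩
    · right
      exact ⟨⟨by omega, by omega⟩, hp.2⟩
  have k5 : ∑ p ∈ (Ico (X + 1) (X + 1 + (X / N + 1 + (j + 1)) * N)).filter Nat.Prime,
        (1 + 2 * nx N p) ≤ ∑ p ∈ (Ioc X (2 * X)).filter Nat.Prime, (1 + 2 * nx N p) +
        ∑ p ∈ (Ioc (2 * X) (2 * (2 * X))).filter Nat.Prime, (1 + 2 * nx N p) := by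
    refine (sum_le_sum_of_subset k4).trans ?_
    rw [sum_union]
    rw [disjoint_left]
    intro p hp hp'
    rw [mem_filter, mem_Ioc] at hp hp'
    omega
  have k6 : ∀ Y : ℕ, 2 ≤ Y → ((((Ioc Y (2 * Y)).filter Nat.Prime).card : ℕ) : ℝ) ≤ Pr Y := by
    intro Y hY
    rw [← card_idx]
    have : ((Ioc Y (2 * Y)).filter Nat.Prime).card ≤ (idx Y).card := by
      apply card_le_card_of_injOn (Nat.count Nat.Prime)
      · intro p hp
        rw [mem_coe, mem_filter, mem_Ioc] at hp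
        rw [mem_coe, mem_idx]
        have : P (Nat.count Nat.Prime p) = p := Nat.nth_count hp.2
        rw [this]
        refine ⟨by omega, ?_⟩
        rcases Nat.lt_or_ge p (2 * Y) with h | h
        · exact h
        · exfalso
          have h6 : p = 2 * Y := by omega
          have h7 := hp.2
          rw [h6] at h7
          exact Nat.not_prime_mul (by norm_num) (by omega) h7
      · intro p hp q hq h
        rw [mem_coe, mem_filter] at hp hq
        have h8 : P (Nat.count Nat.Prime p) = P (Nat.count Nat.Prime q) := congrArg P h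
        have h9 : P (Nat.count Nat.Prime p) = p := Nat.nth_count hp.2
        have h10 : P (Nat.count Nat.Prime q) = q := Nat.nth_count hq.2
        rw [h9, h10] at h8
        exact h8
    exact_mod_cast this
  have k7 : ∀ Y : ℕ, ∑ p ∈ (Ioc Y (2 * Y)).filter Nat.Prime, (1 + 2 * nx N p) ≤
      ((Ioc Y (2 * Y)).filter Nat.Prime).card + 2 * PS Y (N + 1) := by
    intro Y
    rw [sum_add_distrib, sum_const, smul_eq_mul, mul_one, ← mul_sum]
    have := nx_sum Y N
    omega
  have k8 : (PS X (N + 1) : ℝ) ≤ 52 * Pr X := by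
    have e1 : N + 1 ≤ ⌊2 * Real.log X⌋₊ := by
      apply Nat.le_floor
      push_cast
      linarith
    have e2 : (PS X (N + 1) : ℝ) ≤ PS X ⌊2 * Real.log X⌋₊ := by exact_mod_cast PS_mono e1
    linarith
  have k9 : (PS (2 * X) (N + 1) : ℝ) ≤ 52 * Pr (2 * X) := by
    have e0 : Real.log (X : ℝ) ≤ Real.log ((2 * X : ℕ) : ℝ) := by
      apply Real.log_le_log hX0
      push_cast
      linarith
    have e1 : N + 1 ≤ ⌊2 * Real.log ((2 * X : ℕ) : ℝ)⌋₊ := by
      apply Nat.le_floor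
      push_cast at e0 ⊢
      linarith
    have e2 : (PS (2 * X) (N + 1) : ℝ) ≤ PS (2 * X) ⌊2 * Real.log ((2 * X : ℕ) : ℝ)⌋₊ := by
      exact_mod_cast PS_mono e1
    linarith
  have q1 := k6 X (by omega)
  have q2 := k6 (2 * X) (by omega)
  have t1 : D.card * m ≤ (j + 1) * ((((Ioc X (2 * X)).filter Nat.Prime).card + 2 * PS X (N + 1)) +
      (((Ioc (2 * X) (2 * (2 * X))).filter Nat.Prime).card + 2 * PS (2 * X) (N + 1))) := by
    refine k1.trans (k2.trans ?_)
    apply Nat.mul_le_mul_left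
    exact k3.trans (k5.trans (add_le_add (k7 X) (k7 (2 * X))))
  have t2 : ((D.card * m : ℕ) : ℝ) ≤ (((j + 1) * ((((Ioc X (2 * X)).filter Nat.Prime).card +
      2 * PS X (N + 1)) + (((Ioc (2 * X) (2 * (2 * X))).filter Nat.Prime).card +
      2 * PS (2 * X) (N + 1))) : ℕ) : ℝ) := by exact_mod_cast t1
  push_cast at t2
  push_cast at q1 q2
  refine t2.trans ?_
  have hj0 : (0 : ℝ) ≤ (j : ℝ) + 1 := by positivity
  have t3 : ((((Ioc X (2 * X)).filter Nat.Prime).card : ℝ) + 2 * (PS X (N + 1) : ℝ)) +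
      ((((Ioc (2 * X) (2 * (2 * X))).filter Nat.Prime).card : ℝ) + 2 * (PS (2 * X) (N + 1) : ℝ)) ≤
      800 * Pr X := by linarith
  calc ((j : ℝ) + 1) * (((((Ioc X (2 * X)).filter Nat.Prime).card : ℝ) + 2 * (PS X (N + 1) : ℝ)) +
      ((((Ioc (2 * X) (2 * (2 * X))).filter Nat.Prime).card : ℝ) + 2 * (PS (2 * X) (N + 1) : ℝ)))
      ≤ ((j : ℝ) + 1) * (800 * Pr X) := mul_le_mul_of_nonneg_left t3 hj0
    _ = _ := by ring

end Pool.Agent.T2h81.UC
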