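import Pool.Agent.T2h81.UC.A14
import Pool.Agent.T2h81.UC.A15

set_option autoImplicit false
set_option linter.unusedVariables false
set_option maxHeartbeats 4000000

/-! # Almost all primes are soon followed by a long gap, uniformly -/

namespace Pool.Agent.T2h81.UC

open Finset Filter Pool.Agent.H361R2.PP Pool.Agent.T2h81.AS

theorem ev_X : ∃ X₀ : ℕ, ∀ X : ℕ, X₀ ≤ X → 3 ≤ Real.log X ∧
    64 * (Real.log X) ^ 3 ≤ X := by
  have h1 : ∀ᶠ x : ℝ in atTop, 64 * Real.log x ^ 3 ≤ x := by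
    have e1 : (fun L : ℝ => (Real.log L) ^ (3:ℝ)) =o[atTop] (fun L : ℝ => L ^ (1:ℝ)) :=
      isLittleO_log_rpow_rpow_atTop 3 one_pos
    have e2 := e1.def (show (0:ℝ) < 1 / 64 by norm_num)
    filter_upwards [e2, eventually_ge_atTop (1:ℝ)] with L hL hL1
    have hl0 := Real.log_nonneg hL1
    have e0 : (Real.log L) ^ (3:ℝ) = (Real.log L) ^ (3:ℕ) := by
      have := Real.rpow_natCast (Real.log L) 3
      push_cast at this
      exact this
    rw [Real.norm_eq_abs, Real.norm_eq_abs, abs_of_nonneg (Real.rpow_nonneg hl0 _),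
      abs_of_nonneg (Real.rpow_nonneg (by linarith) _), e0, Real.rpow_one] at hL
    linarith
  have hlog : Tendsto (fun X : ℕ => Real.log (X : ℝ)) atTop atTop :=
    Real.tendsto_log_atTop.comp tendsto_natCast_atTop_atTop
  have h3 : ∀ᶠ X : ℕ in atTop, 3 ≤ Real.log (X : ℝ) := hlog.eventually_ge_atTop 3
  have h6 := (tendsto_natCast_atTop_atTop (R := ℝ)).eventually h1
  exact Filter.eventually_atTop.1 (h3.and h6)

open Classical in
theorem soon_unif : ∃ C lam₀ : ℝ, ∃ X₀ : ℕ, 1 ≤ C ∧ 1 ≤ lam₀ ∧ ∀ X : ℕ, X₀ ≤ X →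
    ∀ lam : ℝ, lam₀ ≤ lam → Real.exp (Real.exp (C * lam)) ^ 2 ≤ X →
      (((idx X).filter (fun k => ¬ Soon lam ⌊Real.exp (Real.exp (C * lam))⌋₊ k)).card : ℝ) ≤
        Real.exp (-(2 * lam)) * (idx X).card := by
  obtain ⟨C₁, lam₁, Xr, hC₁, hlam₁, hXr, hmain⟩ := main_int
  obtain ⟨X1, h1⟩ := dense_le
  obtain ⟨X2, h2⟩ := pairs_le 2 (by norm_num)
  obtain ⟨X3, h3⟩ := ev_X
  obtain ⟨X4, h4⟩ := large_facts 0 1 1 one_pos one_pos
  obtain ⟨X5, h5⟩ := exists_nat_ge Xr
  refine ⟨8 * C₁ + 1, max lam₁ 8, X1 + X2 + X3 + X4 + X5 + 2, by linarith,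
    le_trans (by norm_num) (le_max_right _ _), ?_⟩
  intro X hX lam hlam hXK
  have hlam8 : 8 ≤ lam := (le_max_right _ _).trans hlam
  have hlamr : lam₁ ≤ lam := (le_max_left _ _).trans hlam
  have hlam0 : 0 < lam := by linarith
  have hden := h1 X (by omega)
  have hp1 := h2 X (by omega)
  obtain ⟨hL3, hL64⟩ := h3 X (by omega)
  obtain ⟨-, hXL, hPr, -, -⟩ := h4 X (by omega)
  have hX0 : (0 : ℝ) < X := by exact_mod_cast (by omega : 0 < X)
  have hX1 : (1 : ℝ) ≤ X := by exact_mod_cast (by omega : 1 ≤ X)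
  have hXXr : Xr ≤ X := h5.trans (by exact_mod_cast (by omega : X5 ≤ X))
  set L := Real.log (X : ℝ) with hLd
  have hL : 0 < L := by linarith
  -- the parameters
  obtain ⟨lam', hlam'⟩ : ∃ l : ℝ, l = 8 * lam := ⟨_, rfl⟩
  have hlam'0 : 0 < lam' := by rw [hlam']; linarith
  obtain ⟨E₁, hE₁⟩ : ∃ E₁ : ℝ, E₁ = Real.exp (C₁ * lam') := ⟨_, rfl⟩
  obtain ⟨G₁, hG₁⟩ : ∃ G₁ : ℝ, G₁ = Real.exp lam := ⟨_, rfl⟩
  have hE₁1 : 8 * lam + 1 ≤ E₁ := by
    rw [hE₁]
    have e1 := Real.add_one_le_exp (C₁ * lam')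
    have e2 : 1 * lam' ≤ C₁ * lam' := mul_le_mul_of_nonneg_right hC₁ hlam'0.le
    linarith
  have hG₁1 : lam + 1 ≤ G₁ := by rw [hG₁]; exact Real.add_one_le_exp lam
  have hEG : Real.exp ((8 * C₁ + 1) * lam) = E₁ * G₁ := by
    rw [hE₁, hG₁, ← Real.exp_add, hlam']
    congr 1
    ring
  rw [hEG] at hXK ⊢
  obtain ⟨K', hK'⟩ : ∃ K' : ℝ, K' = Real.exp E₁ := ⟨_, rfl⟩
  have hK'1 : 1 ≤ K' := by rw [hK']; exact Real.one_le_exp (by linarith)
  have hEGE : E₁ + (2 * lam + 11) ≤ E₁ * G₁ := by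
    have f1 : E₁ * (lam + 1) ≤ E₁ * G₁ := mul_le_mul_of_nonneg_left hG₁1 (by linarith only [hE₁1, hlam0])
    have f2 : (8 * lam + 1) * lam ≤ E₁ * lam := mul_le_mul_of_nonneg_right hE₁1 hlam0.le
    have f3 : 8 * lam ≤ lam * lam := mul_le_mul_of_nonneg_right hlam8 hlam0.le
    linarith only [f1, f2, f3, hlam8]
  have hK'K : K' * Real.exp (2 * lam + 11) ≤ Real.exp (E₁ * G₁) := by
    rw [hK', ← Real.exp_add]
    exact Real.exp_le_exp.2 hEGE
  have hKX : Real.exp (E₁ * G₁) ≤ X := by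
    have e1 : 1 ≤ Real.exp (E₁ * G₁) := Real.one_le_exp (by linarith only [hEGE, hE₁1, hlam8])
    nlinarith only [e1, hXK]
  have hK'le : K' ≤ Real.exp (E₁ * G₁) := by
    rw [hK']
    apply Real.exp_le_exp.2
    linarith
  set m : ℕ := ⌊Real.exp (E₁ * G₁)⌋₊ with hm
  have hm1 : Real.exp (E₁ * G₁) / 2 ≤ m := by
    have e1 := Nat.lt_floor_add_one (Real.exp (E₁ * G₁))
    have e2 : 2 ≤ Real.exp (E₁ * G₁) := by
      have := Real.add_one_le_exp (E₁ * G₁)
      linarith only [this, hEGE, hE₁1, hlam8]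
    linarith only [e1, e2]
  have hmr : (0 : ℝ) < m := lt_of_lt_of_le (by positivity) hm1
  -- the exceptional integers
  have hbad := hmain (X : ℝ) lam' hXXr (by rw [hlam']; linarith)
    (by rw [← hE₁, ← hK']; exact hK'le.trans hKX) ((X : ℤ) - 1) X le_rfl
  rw [← hE₁, ← hK'] at hbad
  set E := (Ico X (2 * X)).filter (fun n : ℕ => ¬ RunIn (X : ℝ) lam' K' (n : ℤ)) with hE
  have hEc : (E.card : ℝ) ≤ Real.exp (-lam') * X := by
    refine le_trans ?_ hbad
    have : E.card ≤ ((Ioc ((X : ℤ) - 1) ((X : ℤ) - 1 + X)).filter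
        (fun n : ℤ => ¬ RunIn (X : ℝ) lam' K' n)).card := by
      apply card_le_card_of_injOn (fun n : ℕ => (n : ℤ))
      · intro n hn
        rw [mem_coe, hE, mem_filter, mem_Ico] at hn
        rw [mem_coe, mem_filter, mem_Ioc]
        refine ⟨⟨?_, ?_⟩, hn.2⟩
        · show (X : ℤ) - 1 < (n : ℤ)
          omega
        · show (n : ℤ) ≤ (X : ℤ) - 1 + X
          omega
      · intro n _ n' _ h
        exact Int.ofNat_injective h
    exact_mod_cast this
  rw [card_idx]
  obtain ⟨N, hN⟩ : ∃ N : ℕ, N = ⌊L⌋₊ := ⟨_, rfl⟩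
  have hN1 : (N : ℝ) ≤ L := by rw [hN]; exact Nat.floor_le hL.le
  have hN2 : L < N + 1 := by rw [hN]; exact Nat.lt_floor_add_one _
  have hNr : (0 : ℝ) < N := by linarith
  have hN0 : 0 < N := by exact_mod_cast hNr
  rw [← hN] at hden
  obtain ⟨j, hj⟩ : ∃ j : ℕ, j = ⌈2 * K'⌉₊ + 2 := ⟨_, rfl⟩
  have hj1 : 2 * K' + 2 ≤ j := by
    have := Nat.le_ceil (2 * K')
    rw [hj]
    push_cast
    linarith
  have hj2 : (j : ℝ) ≤ 2 * K' + 3 := by
    have := (Nat.ceil_lt_add_one (show 0 ≤ 2 * K' by positivity)).le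
    rw [hj]
    push_cast
    linarith
  have h8K : 8 * K' * L ≤ X := by
    have e1 : K' ^ 2 ≤ X := by
      refine le_trans ?_ hXK
      exact pow_le_pow_left₀ (by positivity) hK'le 2
    have e2 : 64 * L ^ 2 ≤ X := by
      have : L ^ 2 ≤ L ^ 3 := pow_le_pow_right₀ (by linarith) (by norm_num)
      linarith
    have e3 : (8 * K' * L) ^ 2 ≤ (X : ℝ) ^ 2 := by
      calc (8 * K' * L) ^ 2 = K' ^ 2 * (64 * L ^ 2) := by ring
        _ ≤ (X : ℝ) * (X : ℝ) := mul_le_mul e1 e2 (by positivity) hX0.le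
        _ = (X : ℝ) ^ 2 := by ring
    exact (pow_le_pow_iff_left₀ (by positivity) hX0.le two_ne_zero).1 e3
  have hjN : ((j : ℝ) + 3) * N ≤ X := by
    have e1 : (j : ℝ) + 3 ≤ 8 * K' := by linarith
    calc ((j : ℝ) + 3) * N ≤ 8 * K' * L := mul_le_mul e1 hN1 hNr.le (by positivity)
      _ ≤ X := h8K
  have hjN2 : K' * L + N ≤ j * N := by
    have e1 : L ≤ 2 * N := by linarith
    have e2 : K' * L ≤ K' * (2 * N) := mul_le_mul_of_nonneg_left e1 (by linarith)
    have e3 : (2 * K' + 2) * N ≤ j * N := mul_le_mul_of_nonneg_right hj1 hNr.le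
    linarith
  have hPS1 : (PS X (N + 1) : ℝ) ≤ 52 * Pr X := by
    have e1 : N + 1 ≤ ⌊2 * L⌋₊ := by
      apply Nat.le_floor
      push_cast
      linarith
    have e2 : (PS X (N + 1) : ℝ) ≤ PS X ⌊2 * L⌋₊ := by exact_mod_cast PS_mono e1
    linarith
  set K := (idx X).filter (fun k => ¬ Soon lam m k) with hK
  set K0 := K.filter (fun k => ¬ (X + 1 ≤ P k ∧ P k + N ≤ 2 * X)) with hK0
  set Kr := K.filter (fun k => X + 1 ≤ P k ∧ P k + N ≤ 2 * X) with hKr
  set K2 := Kr.filter (fun k => P (k + m) < P k + j * N) with hK2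
  set K1 := Kr.filter (fun k => ¬ P (k + m) < P k + j * N) with hK1
  have hcard : (K.card : ℝ) = K0.card + (K2.card + K1.card) := by
    have e1 : Kr.card + K0.card = K.card := card_filter_add_card_filter_not _
    have e2 : K2.card + K1.card = Kr.card := card_filter_add_card_filter_not _
    rw [← e1, ← e2]
    push_cast
    ring
  have hexp0 := Real.exp_pos (-(2 * lam))
  -- the edge
  have hK0c : (K0.card : ℝ) ≤ Real.exp (-(2 * lam)) / 4 * Pr X := by
    have h5 : K0.card ≤ (insert X (Ico (2 * X + 1 - N) (2 * X))).card := by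
      apply card_le_card_of_injOn P
      · intro k hk
        rw [mem_coe, hK0, mem_filter, hK, mem_filter, mem_idx] at hk
        rw [mem_coe, mem_insert, mem_Ico]
        obtain ⟨⟨⟨g1, g2⟩, -⟩, g3⟩ := hk
        by_cases hc : P k = X
        · exact Or.inl hc
        · right
          constructor
          · by_contra hcon
            exact g3 ⟨by omega, by omega⟩
          · exact g2
      · intro k _ k' _ h
        exact P_mono.injective h
    have h6 : K0.card ≤ N + 1 := by
      refine h5.trans ((card_insert_le _ _).trans ?_)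
      rw [Nat.card_Ico]
      omega
    have h7 : (K0.card : ℝ) ≤ N + 1 := by exact_mod_cast h6
    refine h7.trans ?_
    have e1 : Real.exp (2 * lam) ≤ L := by
      have f1 : Real.exp (E₁ * G₁) ≤ X := hKX
      have f2 : E₁ * G₁ ≤ L := by
        rw [hLd, Real.le_log_iff_exp_le hX0]
        exact f1
      have f3 : Real.exp (2 * lam) ≤ E₁ := by
        rw [hE₁]
        apply Real.exp_le_exp.2
        have : 1 * lam' ≤ C₁ * lam' := mul_le_mul_of_nonneg_right hC₁ hlam'0.le
        linarith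
      have f4 : E₁ * 1 ≤ E₁ * G₁ := mul_le_mul_of_nonneg_left (by linarith) (by linarith)
      linarith
    have e2 : 1 ≤ Real.exp (-(2 * lam)) * L := by
      have : Real.exp (-(2 * lam)) * Real.exp (2 * lam) = 1 := by rw [← Real.exp_add]; simp
      rw [← this]
      exact mul_le_mul_of_nonneg_left e1 hexp0.le
    have e3 : 64 * L ^ 2 ≤ 2 * Pr X := by
      refine le_trans ?_ hXL
      rw [le_div_iff₀ hL]
      calc 64 * L ^ 2 * L = 64 * L ^ 3 := by ring
        _ ≤ (X : ℝ) := hL64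
    have e4 : (N : ℝ) + 1 ≤ 2 * L := by linarith
    calc (N : ℝ) + 1 ≤ 2 * L * 1 := by linarith
      _ ≤ 2 * L * (Real.exp (-(2 * lam)) * L) := mul_le_mul_of_nonneg_left e2 (by positivity)
      _ = Real.exp (-(2 * lam)) / 4 * (8 * L ^ 2) := by ring
      _ ≤ Real.exp (-(2 * lam)) / 4 * Pr X := by
          apply mul_le_mul_of_nonneg_left _ (by positivity)
          have : 0 ≤ L ^ 2 := by positivity
          linarith
  -- many primes
  have hK2c : (K2.card : ℝ) ≤ Real.exp (-(2 * lam)) / 4 * Pr X := by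
    have h5 := hden j m (by exact_mod_cast hjN) K2 (by
      intro k hk
      rw [hK2, mem_filter, hKr, mem_filter] at hk
      obtain ⟨⟨-, g1, g2⟩, -⟩ := hk
      exact ⟨g1, by omega⟩) (by
      intro k hk
      rw [hK2, mem_filter] at hk
      exact hk.2)
    have h6 : (800 : ℝ) * (j + 1) ≤ 4800 * K' := by linarith
    have h7 : 4800 * K' ≤ Real.exp (-(2 * lam)) / 4 * m := by
      have e1 : 4800 * K' * Real.exp (2 * lam) * 8 ≤ Real.exp (E₁ * G₁) := by
        refine le_trans ?_ hK'K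
        rw [Real.exp_add]
        have e2 : (38400 : ℝ) ≤ Real.exp 11 := by
          have f1 := Real.exp_one_gt_d9
          have f2 : Real.exp 11 = Real.exp 1 ^ 11 := by rw [← Real.exp_nat_mul]; norm_num
          rw [f2]
          calc (38400 : ℝ) ≤ (2.7 : ℝ) ^ 11 := by norm_num
            _ ≤ Real.exp 1 ^ 11 := pow_le_pow_left₀ (by norm_num) (by linarith) 11
        have e3 : 0 ≤ K' * Real.exp (2 * lam) := by positivity
        calc 4800 * K' * Real.exp (2 * lam) * 8 = (K' * Real.exp (2 * lam)) * 38400 := by ring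
          _ ≤ (K' * Real.exp (2 * lam)) * Real.exp 11 := mul_le_mul_of_nonneg_left e2 e3
          _ = _ := by ring
      have e4 : Real.exp (-(2 * lam)) * Real.exp (2 * lam) = 1 := by rw [← Real.exp_add]; simp
      have e5 : 4800 * K' * Real.exp (2 * lam) * 4 ≤ m := by linarith
      have e6 := mul_le_mul_of_nonneg_left e5 (show 0 ≤ Real.exp (-(2 * lam)) / 4 by positivity)
      calc 4800 * K' = (Real.exp (-(2 * lam)) * Real.exp (2 * lam)) * (4800 * K') := by
            rw [e4, one_mul]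
        _ = Real.exp (-(2 * lam)) / 4 * (4800 * K' * Real.exp (2 * lam) * 4) := by ring
        _ ≤ _ := e6
    have h8 : (K2.card : ℝ) * m ≤ (Real.exp (-(2 * lam)) / 4 * Pr X) * m := by
      refine h5.trans ?_
      calc 800 * ((j : ℝ) + 1) * Pr X ≤ 4800 * K' * Pr X := mul_le_mul_of_nonneg_right h6 hPr.le
        _ ≤ Real.exp (-(2 * lam)) / 4 * m * Pr X := mul_le_mul_of_nonneg_right h7 hPr.le
        _ = _ := by ring
    exact le_of_mul_le_mul_right h8 hmr
  -- exceptional integers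
  have hK1c : (K1.card : ℝ) ≤ Real.exp (-(2 * lam)) / 4 * Pr X := by
    have hK1r : ∀ k ∈ K1, (k ∈ idx X ∧ ¬ Soon lam m k) ∧ (X + 1 ≤ P k ∧ P k + N ≤ 2 * X) ∧
        P k + j * N ≤ P (k + m) := by
      intro k hk
      rw [hK1, mem_filter, hKr, mem_filter, hK, mem_filter] at hk
      exact ⟨hk.1.1, hk.1.2, not_lt.1 hk.2⟩
    have h5 := case1 X N hN0 K1 E (fun k hk => (hK1r k hk).2.1) (by
      intro k hk n hn1 hn2
      obtain ⟨⟨-, g1⟩, ⟨g2, g3⟩, g4⟩ := hK1r k hk
      rw [hE, mem_filter, mem_Ico]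
      refine ⟨⟨by omega, by omega⟩, ?_⟩
      rintro ⟨m₁, hm1', hm2, hm3⟩
      unfold Soon at g1
      push Not at g1
      have hn1r : (P k : ℝ) ≤ n := by exact_mod_cast hn1
      have hn2r : (n : ℝ) + 1 ≤ P k + N := by exact_mod_cast hn2
      have hPkr : (P k : ℝ) + N ≤ 2 * X := by exact_mod_cast g3
      have hPmr : (P k : ℝ) + j * N ≤ P (k + m) := by exact_mod_cast g4
      have hm1r : (n : ℝ) ≤ m₁ := by exact_mod_cast hm1'
      have hm2r : (m₁ : ℝ) + lam' * L ≤ n + K' * L := by exact_mod_cast hm2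
      have hlL : 0 < lam' * L := by positivity
      obtain ⟨q, hq, hq1, hq2⟩ := prime_between (m := m) (G := lam' * L) (hn1r.trans hm1r)
        (by linarith) (by
        intro i' hi' hle
        refine lt_of_lt_of_le (g1 i' hi') ?_
        have g5 : (0 : ℝ) < P (k + i') := by exact_mod_cast (P_prime _).pos
        have g6 : (P (k + i') : ℝ) ≤ (X : ℝ) ^ 2 := by
          have g7 : (P (k + i') : ℝ) ≤ 3 * X := by
            have f1 : (j : ℝ) * N ≤ (j + 3) * N :=
              mul_le_mul_of_nonneg_right (by linarith only) hNr.le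
            linarith only [hle, hm2r, hn2r, hPkr, hlL, hjN2, f1, hjN]
          have g8 : (3 : ℝ) ≤ X := by
            have f1 : (1:ℝ) ≤ L ^ 3 := one_le_pow₀ (by linarith only [hL3])
            linarith only [f1, hL64]
          nlinarith only [g7, g8]
        have g7 : Real.log (P (k + i')) ≤ 2 * L := by
          calc Real.log (P (k + i')) ≤ Real.log ((X : ℝ) ^ 2) := Real.log_le_log g5 g6
            _ = 2 * L := by rw [Real.log_pow, hLd]; norm_num
        calc lam * Real.log (P (k + i')) ≤ lam * (2 * L) :=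
              mul_le_mul_of_nonneg_left g7 hlam0.le
          _ ≤ lam' * L := by
            rw [hlam']
            have : 0 ≤ lam * L := by positivity
            linarith only [this])
      have hqz : m₁ < (q : ℤ) := by exact_mod_cast hq1
      have hm0 : (0 : ℤ) < m₁ := by
        have : (0:ℝ) < m₁ := by
          have : (0:ℝ) < P k := by exact_mod_cast (P_prime _).pos
          linarith
        exact_mod_cast this
      obtain ⟨p, hp, hpz, hpd⟩ := hm3 (((q : ℤ) - m₁).toNat) (by omega) (by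
        have e1 : ((((q : ℤ) - m₁).toNat : ℕ) : ℝ) = (((((q : ℤ) - m₁).toNat : ℕ) : ℤ) : ℝ) := by
          push_cast; rfl
        rw [e1, Int.toNat_of_nonneg (by omega)]
        push_cast
        linarith)
      rw [Int.toNat_of_nonneg (by omega)] at hpd
      have e2 : m₁ + ((q : ℤ) - m₁) = (q : ℤ) := by ring
      rw [e2] at hpd
      have e3 : p ∣ q := by exact_mod_cast hpd
      have e4 : p = q := (Nat.prime_dvd_prime_iff_eq hp hq).1 e3
      rw [e4] at hpz
      have e5 : (X : ℝ) ^ (1 / lam') ≤ X := by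
        calc (X : ℝ) ^ (1 / lam') ≤ (X : ℝ) ^ (1 : ℝ) := by
              apply Real.rpow_le_rpow_of_exponent_le hX1
              rw [div_le_one hlam'0]
              rw [hlam']; linarith
          _ = X := Real.rpow_one _
      have e6 : (X : ℝ) + 1 ≤ P k := by exact_mod_cast g2
      linarith)
    have hK1le : (K1.card : ℝ) ≤ Pr X := by
      rw [← card_idx]
      have : K1 ⊆ idx X := fun k hk => (hK1r k hk).1.1
      exact_mod_cast card_le_card this
    have h6 : ((K1.card : ℝ) * N) ^ 2 ≤ (Real.exp (-lam') * X) * ((105 * Pr X) * N) := by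
      refine h5.trans ?_
      apply mul_le_mul hEc _ (by positivity) (by positivity)
      apply mul_le_mul_of_nonneg_right _ hNr.le
      linarith
    have h7 : (Real.exp (-lam') * X) * ((105 * Pr X) * N) ≤
        ((Real.exp (-(2 * lam)) / 4 * Pr X) * N) ^ 2 := by
      have h8 : (X : ℝ) ≤ 2 * Pr X * L := by
        rwa [div_le_iff₀ hL] at hXL
      have h9 : (X : ℝ) ≤ 4 * Pr X * N := by
        have e1 : L ≤ 2 * N := by linarith
        have e2 : 2 * Pr X * L ≤ 2 * Pr X * (2 * N) := mul_le_mul_of_nonneg_left e1 (by positivity)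
        linarith
      have h10 : Real.exp (-lam') * 420 ≤ (Real.exp (-(2 * lam)) / 4) ^ 2 := by
        have e1 : (Real.exp (-(2 * lam)) / 4) ^ 2 = Real.exp (-lam') * Real.exp (4 * lam) / 16 := by
          rw [div_pow, ← Real.exp_nat_mul, ← Real.exp_add, hlam']
          norm_num
          ring
        rw [e1]
        have e2 : (6720 : ℝ) ≤ Real.exp (4 * lam) := by
          have f1 : Real.exp 32 ≤ Real.exp (4 * lam) := Real.exp_le_exp.2 (by linarith)
          have f2 : Real.exp 32 = Real.exp 1 ^ 32 := by rw [← Real.exp_nat_mul]; norm_num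
          have f3 : (2:ℝ) ^ 32 ≤ Real.exp 1 ^ 32 := by
            apply pow_le_pow_left₀ (by norm_num)
            have := Real.add_one_le_exp (1:ℝ)
            linarith
          have f4 : (6720 : ℝ) ≤ 2 ^ 32 := by norm_num
          linarith
        have e3 := Real.exp_pos (-lam')
        nlinarith
      have h11 : 0 ≤ Pr X * N := by positivity
      calc (Real.exp (-lam') * X) * ((105 * Pr X) * N)
          ≤ (Real.exp (-lam') * (4 * Pr X * N)) * ((105 * Pr X) * N) := by
            apply mul_le_mul_of_nonneg_right _ (by positivity)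
            exact mul_le_mul_of_nonneg_left h9 (Real.exp_pos _).le
        _ = (Real.exp (-lam') * 420) * (Pr X * N) ^ 2 := by ring
        _ ≤ (Real.exp (-(2 * lam)) / 4) ^ 2 * (Pr X * N) ^ 2 :=
            mul_le_mul_of_nonneg_right h10 (by positivity)
        _ = _ := by ring
    have h8 : (K1.card : ℝ) * N ≤ (Real.exp (-(2 * lam)) / 4 * Pr X) * N :=
      (pow_le_pow_iff_left₀ (by positivity) (by positivity) two_ne_zero).1 (h6.trans h7)
    exact le_of_mul_le_mul_right h8 hNr
  rw [hcard]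
  have : 0 ≤ Real.exp (-(2 * lam)) * Pr X := by positivity
  linarith

end Pool.Agent.T2h81.UC
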