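import Pool.Agent.T2h81.UC.A1

set_option autoImplicit false
set_option linter.unusedSectionVars false

/-! # Pairs of windows: the joint model -/

namespace Pool.Agent.T2h81.UC

open Finset Pool.Agent.H256R2.SC Pool.Agent.Y831.RC

open scoped Classical

variable {n n₁ n₂ : ℕ} {κ κ' : Type} [Fintype κ] [DecidableEq κ] [Fintype κ'] [DecidableEq κ']

/-- expectation with local joint weights -/
noncomputable def EE2 (w : Fin n → Option κ → Option κ' → ℝ) (F : Col n κ → Col n κ' → ℝ) : ℝ :=
  ∑ x : Col n κ, ∑ x' : Col n κ', (∏ i, w i (x i) (x' i)) * F x x'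

theorem EE2_mono {w : Fin n → Option κ → Option κ' → ℝ} (hw : ∀ i a b, 0 ≤ w i a b)
    {F G : Col n κ → Col n κ' → ℝ} (h : ∀ x x', F x x' ≤ G x x') : EE2 w F ≤ EE2 w G := by
  unfold EE2
  apply Finset.sum_le_sum
  intro x _
  apply Finset.sum_le_sum
  intro x' _
  exact mul_le_mul_of_nonneg_left (h x x') (Finset.prod_nonneg fun i _ => hw i _ _)

theorem EE2_smul (w : Fin n → Option κ → Option κ' → ℝ) (c : ℝ) (F : Col n κ → Col n κ' → ℝ) :
    EE2 w (fun x x' => c * F x x') = c * EE2 w F := by
  unfold EE2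
  rw [Finset.mul_sum]
  refine Finset.sum_congr rfl fun x _ => ?_
  rw [Finset.mul_sum]
  refine Finset.sum_congr rfl fun x' _ => ?_
  ring

theorem EE2_sum (w : Fin n → Option κ → Option κ' → ℝ) {ι : Type} (S : Finset ι)
    (F : ι → Col n κ → Col n κ' → ℝ) :
    EE2 w (fun x x' => ∑ j ∈ S, F j x x') = ∑ j ∈ S, EE2 w (F j) := by
  unfold EE2
  simp only [Finset.mul_sum]
  have h1 : ∀ x : Col n κ, ∑ x' : Col n κ', ∑ j ∈ S, (∏ i, w i (x i) (x' i)) * F j x x' =
      ∑ j ∈ S, ∑ x' : Col n κ', (∏ i, w i (x i) (x' i)) * F j x x' := fun x => Finset.sum_comm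
  rw [Finset.sum_congr rfl fun x _ => h1 x, Finset.sum_comm]

theorem EE2_append (w₁ : Fin n₁ → Option κ → Option κ' → ℝ) (w₂ : Fin n₂ → Option κ → Option κ' → ℝ)
    (F : Col (n₁ + n₂) κ → Col (n₁ + n₂) κ' → ℝ) :
    EE2 (Fin.append w₁ w₂) F = EE2 w₁ (fun x₁ x₁' => EE2 w₂ (fun x₂ x₂' =>
      F (Fin.append x₁ x₂) (Fin.append x₁' x₂'))) := by
  unfold EE2
  rw [← (Fin.appendEquiv (α := Option κ) n₁ n₂).sum_comp, Fintype.sum_prod_type]
  refine Finset.sum_congr rfl fun x₁ _ => ?_
  rw [Finset.sum_comm]
  rw [← (Fin.appendEquiv (α := Option κ') n₁ n₂).sum_comp, Fintype.sum_prod_type]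
  refine Finset.sum_congr rfl fun x₁' _ => ?_
  rw [Finset.mul_sum, Finset.sum_comm]
  refine Finset.sum_congr rfl fun x₂ _ => ?_
  rw [Finset.mul_sum]
  refine Finset.sum_congr rfl fun x₂' _ => ?_
  rw [Fin.prod_univ_add]
  simp only [Fin.appendEquiv, Equiv.coe_fn_mk, Fin.append_left, Fin.append_right]
  ring

theorem EE2_prod (w f : Fin n → Option κ → Option κ' → ℝ) :
    EE2 w (fun x x' => ∏ i, f i (x i) (x' i)) = ∏ i, ∑ a, ∑ b, w i a b * f i a b := by
  unfold EE2
  have h1 : ∏ i : Fin n, ∑ a, ∑ b, w i a b * f i a b =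
      ∏ i : Fin n, ∑ c : Option κ × Option κ', w i c.1 c.2 * f i c.1 c.2 := by
    refine Finset.prod_congr rfl fun i _ => ?_
    rw [Fintype.sum_prod_type]
  rw [h1, Finset.prod_univ_sum, Fintype.piFinset_univ]
  rw [← (Equiv.arrowProdEquivProdArrow (Fin n) (fun _ => Option κ) (fun _ => Option κ')).symm.sum_comp,
    Fintype.sum_prod_type]
  refine Finset.sum_congr rfl fun x _ => ?_
  refine Finset.sum_congr rfl fun x' _ => ?_
  rw [← Finset.prod_mul_distrib]
  rfl

/-- the joint law of the two colours at one prime; `c k l` means that `k` and `l` are killed by the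
same residue class -/
noncomputable def wt2 (g : ℝ) (c : κ → κ' → Prop) (a : Option κ) (b : Option κ') : ℝ :=
  match a, b with
  | none, none => 1 - (Fintype.card κ : ℝ) * g - (Fintype.card κ' : ℝ) * g +
      g * ∑ k : κ, ∑ l : κ', (if c k l then 1 else 0)
  | some k, none => g - g * ∑ l : κ', (if c k l then 1 else 0)
  | none, some l => g - g * ∑ k : κ, (if c k l then 1 else 0)
  | some k, some l => if c k l then g else 0

/-- the basic identity -/
theorem sum_wt2 (g : ℝ) (c : κ → κ' → Prop) (f : Option κ → ℝ) (f' : Option κ' → ℝ)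
    (h : f none = 1) (h' : f' none = 1) :
    ∑ a, ∑ b, wt2 g c a b * (f a * f' b) =
      1 + g * ∑ k, (f (some k) - 1) + g * ∑ l, (f' (some l) - 1) +
        g * ∑ k, ∑ l, (if c k l then (f (some k) - 1) * (f' (some l) - 1) else 0) := by
  rw [Fintype.sum_option, Fintype.sum_option]
  have e1 : ∀ k : κ, ∑ b : Option κ', wt2 g c (some k) b * (f (some k) * f' b) =
      (g - g * ∑ l : κ', (if c k l then (1:ℝ) else 0)) * f (some k) +
        ∑ l : κ', g * (if c k l then f (some k) * f' (some l) else 0) := by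
    intro k
    rw [Fintype.sum_option]
    simp only [wt2, h', mul_one]
    congr 1
    refine Finset.sum_congr rfl fun l _ => ?_
    split_ifs <;> ring
  rw [Finset.sum_congr rfl fun k _ => e1 k]
  simp only [wt2, h, h', mul_one, one_mul]
  have e2 : ∀ k : κ, ∑ l : κ', (if c k l then (f (some k) - 1) * (f' (some l) - 1) else 0) =
      ∑ l : κ', (if c k l then f (some k) * f' (some l) else 0) -
      f (some k) * ∑ l : κ', (if c k l then (1:ℝ) else 0) -
      ∑ l : κ', (if c k l then f' (some l) else 0) + ∑ l : κ', (if c k l then (1:ℝ) else 0) := by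
    intro k
    rw [Finset.mul_sum, ← Finset.sum_sub_distrib, ← Finset.sum_sub_distrib,
      ← Finset.sum_add_distrib]
    refine Finset.sum_congr rfl fun l _ => ?_
    split_ifs <;> ring
  rw [Finset.sum_congr rfl fun k _ => e2 k]
  simp only [Finset.sum_add_distrib, Finset.sum_sub_distrib, Finset.sum_const, Finset.card_univ,
    nsmul_eq_mul, mul_one]
  have e3 : ∑ l : κ', (g - g * ∑ k : κ, (if c k l then (1:ℝ) else 0)) * f' (some l) =
      g * ∑ l : κ', f' (some l) - g * ∑ k : κ, ∑ l : κ', (if c k l then f' (some l) else 0) := by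
    rw [Finset.sum_comm, Finset.mul_sum, Finset.mul_sum, ← Finset.sum_sub_distrib]
    refine Finset.sum_congr rfl fun l _ => ?_
    have : ∑ k : κ, (if c k l then f' (some l) else 0) =
        (∑ k : κ, (if c k l then (1:ℝ) else 0)) * f' (some l) := by
      rw [Finset.sum_mul]
      refine Finset.sum_congr rfl fun k _ => ?_
      split_ifs <;> ring
    rw [this]
    ring
  have e4 : ∑ k : κ, (g - g * ∑ l : κ', (if c k l then (1:ℝ) else 0)) * f (some k) =
      g * ∑ k : κ, f (some k) - g * ∑ k : κ, f (some k) * ∑ l : κ', (if c k l then (1:ℝ) else 0) := by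
    rw [Finset.mul_sum, Finset.mul_sum, ← Finset.sum_sub_distrib]
    refine Finset.sum_congr rfl fun k _ => ?_
    ring
  have e5 : ∑ k : κ, ∑ l : κ', g * (if c k l then f (some k) * f' (some l) else 0) =
      g * ∑ k : κ, ∑ l : κ', (if c k l then f (some k) * f' (some l) else 0) := by
    rw [Finset.mul_sum]
    refine Finset.sum_congr rfl fun k _ => ?_
    rw [Finset.mul_sum]
  rw [e3, e4, e5]
  ring

/-- nonnegativity -/
theorem wt2_nonneg (g : ℝ) (hg : 0 ≤ g)
    (hug : ((Fintype.card κ : ℝ) + (Fintype.card κ' : ℝ)) * g ≤ 1) (c : κ → κ' → Prop)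
    (hc : ∀ k l l', c k l → c k l' → l = l') (hc' : ∀ k k' l, c k l → c k' l → k = k')
    (a : Option κ) (b : Option κ') : 0 ≤ wt2 g c a b := by
  cases a with
  | none =>
    cases b with
    | none =>
      simp only [wt2]
      have : 0 ≤ g * ∑ k : κ, ∑ l : κ', (if c k l then (1:ℝ) else 0) := by
        apply mul_nonneg hg
        apply Finset.sum_nonneg
        intro k _
        apply Finset.sum_nonneg
        intro l _
        split_ifs <;> norm_num
      linarith
    | some l =>
      simp only [wt2]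
      have h1 : ∑ k : κ, (if c k l then (1:ℝ) else 0) ≤ 1 := by
        by_cases h : ∃ k, c k l
        · obtain ⟨k, hk⟩ := h
          rw [Finset.sum_eq_single k]
          · split_ifs; norm_num
          · intro k' _ hk'
            rw [if_neg]
            intro h2
            exact hk' (hc' k' k l h2 hk)
          · intro h2
            exact absurd (Finset.mem_univ _) h2
        · rw [Finset.sum_eq_zero]
          · norm_num
          · intro k _
            rw [if_neg]
            intro h2
            exact h ⟨k, h2⟩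
      nlinarith
  | some k =>
    cases b with
    | none =>
      simp only [wt2]
      have h1 : ∑ l : κ', (if c k l then (1:ℝ) else 0) ≤ 1 := by
        by_cases h : ∃ l, c k l
        · obtain ⟨l, hl⟩ := h
          rw [Finset.sum_eq_single l]
          · split_ifs; norm_num
          · intro l' _ hl'
            rw [if_neg]
            intro h2
            exact hl' (hc k l' l h2 hl)
          · intro h2
            exact absurd (Finset.mem_univ _) h2
        · rw [Finset.sum_eq_zero]
          · norm_num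
          · intro l _
            rw [if_neg]
            intro h2
            exact h ⟨l, h2⟩
      nlinarith
    | some l =>
      simp only [wt2]
      split_ifs
      · exact hg
      · exact le_rfl

/-- without collisions the joint law is dominated by a product with small weights on the hits -/
theorem wt2_dom (g : ℝ) (hg : 0 ≤ g) (U : ℝ) (hU : (Fintype.card κ : ℝ) ≤ U)
    (hU' : (Fintype.card κ' : ℝ) ≤ U) (hUg : U * g ≤ 1 / 2) (a : Option κ) (b : Option κ') :
    wt2 g (fun (_ : κ) (_ : κ') => False) a b ≤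
      (wt g a * hw1 (2 * U * g) a) * (wt g b * hw1 (2 * U * g) b) := by
  have hu0 : (0:ℝ) ≤ Fintype.card κ := Nat.cast_nonneg _
  have hu0' : (0:ℝ) ≤ Fintype.card κ' := Nat.cast_nonneg _
  have hU0 : 0 ≤ U := hu0.trans hU
  have h1 : (Fintype.card κ : ℝ) * g ≤ U * g := mul_le_mul_of_nonneg_right hU hg
  have h2 : (Fintype.card κ' : ℝ) * g ≤ U * g := mul_le_mul_of_nonneg_right hU' hg
  have h3 : 0 ≤ (Fintype.card κ : ℝ) * g := by positivity
  have h4 : 0 ≤ (Fintype.card κ' : ℝ) * g := by positivity
  have h5 : 0 ≤ U * g := by positivity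
  cases a with
  | none =>
    cases b with
    | none =>
      simp only [wt2, wt, hw1, if_false, Finset.sum_const_zero, mul_zero, add_zero, mul_one]
      nlinarith
    | some l =>
      simp only [wt2, wt, hw1, if_false, Finset.sum_const_zero, mul_zero, sub_zero, mul_one]
      have h6 : 1 ≤ (1 - (Fintype.card κ : ℝ) * g) * (1 + 2 * U * g) := by nlinarith
      nlinarith
  | some k =>
    cases b with
    | none =>
      simp only [wt2, wt, hw1, if_false, Finset.sum_const_zero, mul_zero, sub_zero, mul_one]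
      have h6 : 1 ≤ (1 - (Fintype.card κ' : ℝ) * g) * (1 + 2 * U * g) := by nlinarith
      nlinarith
    | some l =>
      simp only [wt2, wt, hw1, if_false]
      positivity

/-- the joint expectation of a product is at most the product of the weighted expectations -/
theorem EE2_dom (g : Fin n → ℝ) (hg : ∀ i, 0 ≤ g i) (U : ℝ) (hU : (Fintype.card κ : ℝ) ≤ U)
    (hU' : (Fintype.card κ' : ℝ) ≤ U) (hUg : ∀ i, U * g i ≤ 1 / 2) (F : Col n κ → ℝ)
    (F' : Col n κ' → ℝ) (hF : ∀ x, 0 ≤ F x) (hF' : ∀ x, 0 ≤ F' x) :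
    EE2 (fun i => wt2 (g i) (fun (_ : κ) (_ : κ') => False)) (fun x x' => F x * F' x') ≤
      EE g (fun x => (∏ i, hw1 (2 * U * g i) (x i)) * F x) *
        EE g (fun x => (∏ i, hw1 (2 * U * g i) (x i)) * F' x) := by
  have hu0 : (0:ℝ) ≤ Fintype.card κ := Nat.cast_nonneg _
  have hu0' : (0:ℝ) ≤ Fintype.card κ' := Nat.cast_nonneg _
  have hU0 : 0 ≤ U := hu0.trans hU
  unfold EE2 EE
  rw [Finset.sum_mul_sum]
  apply Finset.sum_le_sum
  intro x _
  apply Finset.sum_le_sum
  intro x' _
  have h1 : ∏ i, wt2 (g i) (fun (_ : κ) (_ : κ') => False) (x i) (x' i) ≤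
      (∏ i, wt (g i) (x i) * hw1 (2 * U * g i) (x i)) *
        ∏ i, wt (g i) (x' i) * hw1 (2 * U * g i) (x' i) := by
    rw [← Finset.prod_mul_distrib]
    apply Finset.prod_le_prod
    · intro i _
      apply wt2_nonneg (g i) (hg i)
      · have := hUg i
        have h2 : (Fintype.card κ : ℝ) * g i ≤ U * g i := mul_le_mul_of_nonneg_right hU (hg i)
        have h3 : (Fintype.card κ' : ℝ) * g i ≤ U * g i := mul_le_mul_of_nonneg_right hU' (hg i)
        nlinarith
      · intro k l l' h
        exact absurd h id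
      · intro k k' l h
        exact absurd h id
    · intro i _
      exact wt2_dom (g i) (hg i) U hU hU' (hUg i) _ _
  have h2 : 0 ≤ F x * F' x' := mul_nonneg (hF x) (hF' x')
  refine (mul_le_mul_of_nonneg_right h1 h2).trans (le_of_eq ?_)
  rw [Finset.prod_mul_distrib, Finset.prod_mul_distrib]
  ring

end Pool.Agent.T2h81.UC
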