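import Pool.Agent.T2h81.UC.A2

set_option autoImplicit false
set_option linter.unusedSectionVars false

/-! # Pairs of windows: the first block (Brun-Hooley majorants), with collisions -/

namespace Pool.Agent.T2h81.UC

open Finset Pool.Agent.H256R2.SC Pool.Agent.Y831.RC

open scoped Classical

variable {n : ℕ} {κ κ' : Type} [Fintype κ] [DecidableEq κ] [Fintype κ'] [DecidableEq κ']

/-- the pointwise bound by product functions -/
theorem BH_pt (bl : Fin n → ℕ) (B : ℕ) (M : ℕ → ℕ) (hM : ∀ j, Even (M j)) (K : Finset κ)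
    (a : κ → ℕ) (ha : ∀ k, 1 ≤ a k ∧ a k ≤ 3) (x : Col n κ) :
    ∏ k ∈ K, (BHk bl B M k x) ^ (a k) ≤
      ∑ S ∈ (K ×ˢ range B).powerset, (∏ q ∈ (K ×ˢ range B) \ S, ((1:ℝ) / 3) ^ (M q.2)) *
        ∏ i, fS bl S ((K ×ˢ range B) \ S) i (x i) := by
  set I : Finset (κ × ℕ) := K ×ˢ range B with hI
  have e1 : ∏ k ∈ K, (BHk bl B M k x) ^ (a k) =
      ∏ q ∈ I, (SS (M q.2) q.1 (mask bl q.2 x)) ^ (a q.1) := by
    rw [hI, Finset.prod_product]
    refine Finset.prod_congr rfl fun k _ => ?_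
    unfold BHk
    rw [← Finset.prod_pow]
  have e2 : ∏ q ∈ I, (SS (M q.2) q.1 (mask bl q.2 x)) ^ (a q.1) ≤
      ∏ q ∈ I, ((∏ i, if bl i = q.2 ∧ x i = some q.1 then (0:ℝ) else 1) +
        (1 / 3) ^ (M q.2) * ∏ i, (if bl i = q.2 ∧ x i = some q.1 then (64:ℝ) else 1)) := by
    apply Finset.prod_le_prod
    · intro q _
      exact pow_nonneg (SS_nonneg _ (hM _) _ _) _
    · intro q _
      have := SS_pow_le (M q.2) (hM q.2) q.1 (mask bl q.2 x) (a q.1) (ha q.1).1 (ha q.1).2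
      simpa only [mask_iff] using this
  rw [e1]
  refine e2.trans (le_of_eq ?_)
  rw [Finset.prod_add]
  refine Finset.sum_congr rfl fun S _ => ?_
  rw [Finset.prod_mul_distrib]
  have e3 : ∏ i, fS bl S (I \ S) i (x i) =
      (∏ q ∈ S, ∏ i, if bl i = q.2 ∧ x i = some q.1 then (0:ℝ) else 1) *
      ∏ q ∈ I \ S, ∏ i, if bl i = q.2 ∧ x i = some q.1 then (64:ℝ) else 1 := by
    unfold fS
    rw [Finset.prod_mul_distrib]
    congr 1
    · rw [Finset.prod_comm]
    · rw [Finset.prod_comm]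
  rw [e3]
  ring

/-- the local function of a colour takes values in `[0, 64]` -/
theorem fS_bd (bl : Fin n → ℕ) (K : Finset κ) (B : ℕ) (S : Finset (κ × ℕ))
    (i : Fin n) (l : κ) :
    0 ≤ fS bl S ((K ×ˢ range B) \ S) i (some l) ∧
      fS bl S ((K ×ˢ range B) \ S) i (some l) ≤ 64 := by
  set T := (K ×ˢ range B) \ S with hT
  have hS1 : (∏ q ∈ S, if bl i = q.2 ∧ some l = some q.1 then (0:ℝ) else 1) ≤ 1 := by
    apply Finset.prod_le_one
    · intro q _
      split_ifs <;> norm_num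
    · intro q _
      split_ifs <;> norm_num
  have hS0 : 0 ≤ (∏ q ∈ S, if bl i = q.2 ∧ some l = some q.1 then (0:ℝ) else 1) := by
    apply Finset.prod_nonneg
    intro q _
    split_ifs <;> norm_num
  have hT0 : 0 ≤ ∏ q ∈ T, if bl i = q.2 ∧ some l = some q.1 then (64:ℝ) else 1 := by
    apply Finset.prod_nonneg
    intro q _
    split_ifs <;> norm_num
  have hT1 : ∏ q ∈ T, (if bl i = q.2 ∧ some l = some q.1 then (64:ℝ) else 1) ≤ 64 := by
    by_cases hlT : (l, bl i) ∈ T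
    · rw [Finset.prod_eq_single (l, bl i)]
      · simp
      · intro q _ hq
        rw [if_neg]
        rintro ⟨h1, h2⟩
        apply hq
        ext
        · exact (Option.some.inj h2).symm
        · exact h1.symm
      · intro h
        exact absurd hlT h
    · have : ∏ q ∈ T, (if bl i = q.2 ∧ some l = some q.1 then (64:ℝ) else 1) = 1 := by
        apply Finset.prod_eq_one
        intro q hq
        rw [if_neg]
        rintro ⟨h1, h2⟩
        apply hlT
        have h3 : (l, bl i) = q := by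
          ext
          · exact Option.some.inj h2
          · exact h1
        rw [h3]
        exact hq
      rw [this]
      norm_num
  unfold fS
  constructor
  · exact mul_nonneg hS0 hT0
  · calc _ ≤ 1 * (64:ℝ) := mul_le_mul hS1 hT1 hT0 zero_le_one
      _ = 64 := by norm_num

/-- local sum of one window -/
theorem fS_sum (bl : Fin n → ℕ) (B : ℕ) (hbl : ∀ i, bl i < B) (K : Finset κ)
    (S : Finset (κ × ℕ)) (i : Fin n) :
    ∑ k : κ, (fS bl S ((K ×ˢ range B) \ S) i (some k) - 1) ≤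
      -(K.card : ℝ) + 64 * ∑ q ∈ (K ×ˢ range B) \ S, if bl i = q.2 then (1:ℝ) else 0 := by
  set T := (K ×ˢ range B) \ S with hT
  have e1 : ∑ k : κ, (if (k, bl i) ∈ T then (1:ℝ) else 0) =
      ∑ q ∈ T, if bl i = q.2 then (1:ℝ) else 0 := by
    have : ∀ k : κ, (if (k, bl i) ∈ T then (1:ℝ) else 0) =
        ∑ q ∈ T, if q = (k, bl i) then (1:ℝ) else 0 := by
      intro k
      rw [Finset.sum_ite_eq']
    rw [Finset.sum_congr rfl fun k _ => this k, Finset.sum_comm]
    refine Finset.sum_congr rfl fun q _ => ?_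
    by_cases hq : bl i = q.2
    · rw [if_pos hq, Finset.sum_eq_single q.1]
      · rw [if_pos]
        rw [hq]
      · intro k _ hk
        rw [if_neg]
        intro h
        apply hk
        rw [h]
      · intro h
        exact absurd (Finset.mem_univ _) h
    · rw [if_neg hq]
      apply Finset.sum_eq_zero
      intro k _
      rw [if_neg]
      intro h
      apply hq
      rw [h]
  refine (Finset.sum_le_sum fun k _ => fS_some bl B hbl K S i k).trans (le_of_eq ?_)
  rw [Finset.sum_add_distrib, ← Finset.mul_sum, e1, Finset.sum_ite,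
    Finset.sum_const_zero, add_zero, Finset.sum_const, Finset.filter_mem_eq_inter,
    Finset.univ_inter, nsmul_eq_mul]
  ring

theorem loc_arith (g A A' E a a' : ℝ) (hg : 0 ≤ g) (hA0 : 0 ≤ A) (hA0' : 0 ≤ A')
    (hA : A * g ≤ 1 / 2) (hA' : A' * g ≤ 1 / 2) (hE : 0 ≤ E) (ha : 0 ≤ a) (ha' : 0 ≤ a') :
    1 + g * (-A + 64 * a) + g * (-A' + 64 * a') + g * (4096 * E) ≤
      ((1 - A * g) * Real.exp (256 * (g * a))) * ((1 - A' * g) * Real.exp (256 * (g * a'))) *
        Real.exp (16384 * (g * E)) := by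
  have h1 : Real.exp (256 * (g * a)) * Real.exp (256 * (g * a')) * Real.exp (16384 * (g * E)) =
      Real.exp (256 * (g * a) + 256 * (g * a') + 16384 * (g * E)) := by
    rw [← Real.exp_add, ← Real.exp_add]
  have h2 : ((1 - A * g) * Real.exp (256 * (g * a))) * ((1 - A' * g) * Real.exp (256 * (g * a'))) *
        Real.exp (16384 * (g * E)) = ((1 - A * g) * (1 - A' * g)) *
        Real.exp (256 * (g * a) + 256 * (g * a') + 16384 * (g * E)) := by
    rw [← h1]
    ring
  rw [h2]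
  have h3 := Real.add_one_le_exp (256 * (g * a) + 256 * (g * a') + 16384 * (g * E))
  set X := g * a with hX
  set X' := g * a' with hX'
  set Y := g * E with hY
  have hX0 : 0 ≤ X := by positivity
  have hX0' : 0 ≤ X' := by positivity
  have hY0 : 0 ≤ Y := by positivity
  have hq : 1 / 4 ≤ (1 - A * g) * (1 - A' * g) := by nlinarith
  have hAg : 0 ≤ A * g := by positivity
  have hAg' : 0 ≤ A' * g := by positivity
  have h4 : 1 - A * g - A' * g ≤ (1 - A * g) * (1 - A' * g) := by nlinarith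
  have h5 : ((1 - A * g) * (1 - A' * g)) * (256 * X + 256 * X' + 16384 * Y + 1) ≤
      ((1 - A * g) * (1 - A' * g)) * Real.exp (256 * X + 256 * X' + 16384 * Y) :=
    mul_le_mul_of_nonneg_left h3 (by linarith)
  have h6 : 64 * X + 64 * X' + 4096 * Y ≤ ((1 - A * g) * (1 - A' * g)) *
      (256 * X + 256 * X' + 16384 * Y) := by
    have h7 : 0 ≤ 256 * X + 256 * X' + 16384 * Y := by positivity
    have := mul_le_mul_of_nonneg_right hq h7
    linarith
  have h8 : 1 + g * (-A + 64 * a) + g * (-A' + 64 * a') + g * (4096 * E) =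
      (1 - A * g - A' * g) + (64 * X + 64 * X' + 4096 * Y) := by
    rw [hX, hX', hY]; ring
  rw [h8]
  linarith

/-- the local expectation of the pair -/
theorem loc_pair (g : ℝ) (hg : 0 ≤ g) (c : κ → κ' → Prop) (bl : Fin n → ℕ) (B : ℕ)
    (hbl : ∀ i, bl i < B) (K : Finset κ) (K' : Finset κ') (hK : (K.card : ℝ) * g ≤ 1 / 2)
    (hK' : (K'.card : ℝ) * g ≤ 1 / 2) (S : Finset (κ × ℕ)) (S' : Finset (κ' × ℕ)) (i : Fin n) :
    ∑ a, ∑ b, wt2 g c a b * (fS bl S ((K ×ˢ range B) \ S) i a *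
        fS bl S' ((K' ×ˢ range B) \ S') i b) ≤
      ((1 - (K.card : ℝ) * g) * Real.exp (256 * (g * ∑ q ∈ (K ×ˢ range B) \ S,
        if bl i = q.2 then (1:ℝ) else 0))) *
      ((1 - (K'.card : ℝ) * g) * Real.exp (256 * (g * ∑ q ∈ (K' ×ˢ range B) \ S',
        if bl i = q.2 then (1:ℝ) else 0))) *
      Real.exp (16384 * (g * ∑ k, ∑ l, (if c k l then 1 else 0))) := by
  rw [sum_wt2 g c (fun a => fS bl S ((K ×ˢ range B) \ S) i a)
    (fun b => fS bl S' ((K' ×ˢ range B) \ S') i b) (fS_none bl S _ i) (fS_none bl S' _ i)]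
  have h1 := mul_le_mul_of_nonneg_left (fS_sum bl B hbl K S i) hg
  have h2 := mul_le_mul_of_nonneg_left (fS_sum bl B hbl K' S' i) hg
  have h3 : ∑ k, ∑ l, (if c k l then (fS bl S ((K ×ˢ range B) \ S) i (some k) - 1) *
      (fS bl S' ((K' ×ˢ range B) \ S') i (some l) - 1) else 0) ≤
      4096 * ∑ k, ∑ l, (if c k l then (1:ℝ) else 0) := by
    rw [Finset.mul_sum]
    apply Finset.sum_le_sum
    intro k _
    rw [Finset.mul_sum]
    apply Finset.sum_le_sum
    intro l _
    split_ifs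
    · obtain ⟨a1, a2⟩ := fS_bd bl K B S i k
      obtain ⟨b1, b2⟩ := fS_bd bl K' B S' i l
      rw [mul_one]
      have h4 : |fS bl S ((K ×ˢ range B) \ S) i (some k) - 1| ≤ 64 := by
        rw [abs_le]; constructor <;> linarith
      have h5 : |fS bl S' ((K' ×ˢ range B) \ S') i (some l) - 1| ≤ 64 := by
        rw [abs_le]; constructor <;> linarith
      calc _ ≤ |(fS bl S ((K ×ˢ range B) \ S) i (some k) - 1) *
            (fS bl S' ((K' ×ˢ range B) \ S') i (some l) - 1)| := le_abs_self _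
        _ = _ := abs_mul _ _
        _ ≤ 64 * 64 := mul_le_mul h4 h5 (abs_nonneg _) (by norm_num)
        _ = 4096 := by norm_num
    · simp
  have h4 := mul_le_mul_of_nonneg_left h3 hg
  have hE : 0 ≤ ∑ k, ∑ l, (if c k l then (1:ℝ) else 0) := by
    apply Finset.sum_nonneg
    intro k _
    apply Finset.sum_nonneg
    intro l _
    split_ifs <;> norm_num
  have hT : ∀ {ι : Type} (T : Finset (ι × ℕ)), 0 ≤ ∑ q ∈ T, if bl i = q.2 then (1:ℝ) else 0 := by
    intro ι T
    apply Finset.sum_nonneg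
    intro q _
    split_ifs <;> norm_num
  refine le_trans ?_ (loc_arith g K.card K'.card (∑ k, ∑ l, (if c k l then (1:ℝ) else 0))
    (∑ q ∈ (K ×ˢ range B) \ S, if bl i = q.2 then (1:ℝ) else 0)
    (∑ q ∈ (K' ×ˢ range B) \ S', if bl i = q.2 then (1:ℝ) else 0) hg (Nat.cast_nonneg _)
    (Nat.cast_nonneg _) hK hK' hE (hT _) (hT _))
  linarith

/-- the factor of one window -/
theorem fac_one (g : Fin n → ℝ) (bl : Fin n → ℕ) (T : Finset (κ × ℕ)) (m : ℕ) :
    ∏ i, ((1 - (m : ℝ) * g i) * Real.exp (256 * (g i * ∑ q ∈ T,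
        if bl i = q.2 then (1:ℝ) else 0))) =
      rho g m * ∏ q ∈ T, Real.exp (256 * ∑ i with bl i = q.2, g i) := by
  rw [Finset.prod_mul_distrib]
  unfold rho
  congr 1
  rw [← Real.exp_sum, ← Real.exp_sum, ← Finset.mul_sum, ← Finset.mul_sum]
  congr 2
  simp only [Finset.mul_sum]
  rw [Finset.sum_comm]
  refine Finset.sum_congr rfl fun q _ => ?_
  rw [Finset.sum_filter]
  refine Finset.sum_congr rfl fun i _ => ?_
  split_ifs <;> simp

theorem sum_pow (K : Finset κ) (B : ℕ) (M : ℕ → ℕ) (X : ℕ → ℝ) :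
    ∑ S ∈ (K ×ˢ range B).powerset, (∏ q ∈ (K ×ˢ range B) \ S, ((1:ℝ) / 3) ^ (M q.2)) *
        ∏ q ∈ (K ×ˢ range B) \ S, X q.2 =
      (∏ j ∈ range B, (1 + (1 / 3) ^ (M j) * X j)) ^ K.card := by
  have h3 := Finset.prod_add (fun _ : κ × ℕ => (1:ℝ)) (fun q : κ × ℕ => (1 / 3) ^ (M q.2) *
        X q.2) (K ×ˢ range B)
  simp only [Finset.prod_const_one, one_mul] at h3
  have h4 : ∏ q ∈ K ×ˢ range B, (1 + (1 / 3 : ℝ) ^ (M q.2) * X q.2) =
      (∏ j ∈ range B, (1 + (1 / 3) ^ (M j) * X j)) ^ K.card := by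
    rw [Finset.prod_product]
    simp only [Finset.prod_const]
  rw [← h4, h3]
  refine Finset.sum_congr rfl fun S _ => ?_
  rw [Finset.prod_mul_distrib]

theorem fac_coll (g X : Fin n → ℝ) :
    ∏ i, Real.exp (16384 * (g i * X i)) = Real.exp (16384 * ∑ i, g i * X i) := by
  rw [← Real.exp_sum, ← Finset.mul_sum]

/-- the second moment of the majorants of a pair of windows -/
theorem BH_pair {g : Fin n → ℝ} (hg : ∀ i, 0 ≤ g i) (U : ℝ) (hU : (Fintype.card κ : ℝ) ≤ U)
    (hU' : (Fintype.card κ' : ℝ) ≤ U) (hUg : ∀ i, U * g i ≤ 1 / 2)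
    (c : Fin n → κ → κ' → Prop) (hc : ∀ i k l l', c i k l → c i k l' → l = l')
    (hc' : ∀ i k k' l, c i k l → c i k' l → k = k') (bl : Fin n → ℕ) (B : ℕ)
    (hbl : ∀ i, bl i < B) (M : ℕ → ℕ) (hM : ∀ j, Even (M j)) (K : Finset κ) (K' : Finset κ')
    (a : κ → ℕ) (ha : ∀ k, 1 ≤ a k ∧ a k ≤ 3) (a' : κ' → ℕ) (ha' : ∀ k, 1 ≤ a' k ∧ a' k ≤ 3) :
    EE2 (fun i => wt2 (g i) (c i)) (fun (x : Col n κ) (x' : Col n κ') =>
      (∏ k ∈ K, (BHk bl B M k x) ^ (a k)) * ∏ k ∈ K', (BHk bl B M k x') ^ (a' k)) ≤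
      (rho g K.card * (∏ j ∈ range B, (1 + (1 / 3) ^ (M j) *
        Real.exp (256 * ∑ i with bl i = j, g i))) ^ K.card) *
      (rho g K'.card * (∏ j ∈ range B, (1 + (1 / 3) ^ (M j) *
        Real.exp (256 * ∑ i with bl i = j, g i))) ^ K'.card) *
      Real.exp (16384 * ∑ i, g i * ∑ k, ∑ l, (if c i k l then 1 else 0)) := by
  have hKu : ∀ i, (K.card : ℝ) * g i ≤ 1 / 2 := fun i =>
    (mul_le_mul_of_nonneg_right ((by exact_mod_cast Finset.card_le_univ K :
      (K.card : ℝ) ≤ Fintype.card κ).trans hU) (hg i)).trans (hUg i)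
  have hKu' : ∀ i, (K'.card : ℝ) * g i ≤ 1 / 2 := fun i =>
    (mul_le_mul_of_nonneg_right ((by exact_mod_cast Finset.card_le_univ K' :
      (K'.card : ℝ) ≤ Fintype.card κ').trans hU') (hg i)).trans (hUg i)
  have hw : ∀ i (a : Option κ) (b : Option κ'), 0 ≤ wt2 (g i) (c i) a b := by
    intro i a b
    apply wt2_nonneg (g i) (hg i) _ (c i) (hc i) (hc' i)
    have h1 := mul_le_mul_of_nonneg_right hU (hg i)
    have h2 := mul_le_mul_of_nonneg_right hU' (hg i)
    have := hUg i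
    linarith
  set I : Finset (κ × ℕ) := K ×ˢ range B with hI
  set I' : Finset (κ' × ℕ) := K' ×ˢ range B with hI'
  have h1 : EE2 (fun i => wt2 (g i) (c i)) (fun (x : Col n κ) (x' : Col n κ') =>
      (∏ k ∈ K, (BHk bl B M k x) ^ (a k)) * ∏ k ∈ K', (BHk bl B M k x') ^ (a' k)) ≤
      EE2 (fun i => wt2 (g i) (c i)) (fun (x : Col n κ) (x' : Col n κ') =>
        ∑ S ∈ I.powerset, ∑ S' ∈ I'.powerset,
          ((∏ q ∈ I \ S, ((1:ℝ) / 3) ^ (M q.2)) * (∏ q ∈ I' \ S', ((1:ℝ) / 3) ^ (M q.2))) *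
            ∏ i, (fS bl S (I \ S) i (x i) * fS bl S' (I' \ S') i (x' i))) := by
    apply EE2_mono hw
    intro x x'
    have e1 := BH_pt bl B M hM K a ha x
    have e2 := BH_pt bl B M hM K' a' ha' x'
    have e3 : 0 ≤ ∏ k ∈ K', (BHk bl B M k x') ^ (a' k) :=
      Finset.prod_nonneg fun k _ => pow_nonneg (BHk_nonneg bl B M hM k x') _
    have e4 : 0 ≤ ∑ S ∈ I.powerset, (∏ q ∈ I \ S, ((1:ℝ) / 3) ^ (M q.2)) *
        ∏ i, fS bl S (I \ S) i (x i) := by
      refine le_trans ?_ e1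
      exact Finset.prod_nonneg fun k _ => pow_nonneg (BHk_nonneg bl B M hM k x) _
    refine (mul_le_mul e1 e2 e3 e4).trans (le_of_eq ?_)
    rw [Finset.sum_mul_sum]
    refine Finset.sum_congr rfl fun S _ => ?_
    refine Finset.sum_congr rfl fun S' _ => ?_
    rw [Finset.prod_mul_distrib]
    ring
  refine h1.trans ?_
  rw [EE2_sum]
  have h2 : ∀ S ∈ I.powerset, EE2 (fun i => wt2 (g i) (c i)) (fun (x : Col n κ) (x' : Col n κ') =>
        ∑ S' ∈ I'.powerset,
          ((∏ q ∈ I \ S, ((1:ℝ) / 3) ^ (M q.2)) * (∏ q ∈ I' \ S', ((1:ℝ) / 3) ^ (M q.2))) *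
            ∏ i, (fS bl S (I \ S) i (x i) * fS bl S' (I' \ S') i (x' i))) ≤
      ∑ S' ∈ I'.powerset, ((rho g K.card * ((∏ q ∈ I \ S, ((1:ℝ) / 3) ^ (M q.2)) *
          ∏ q ∈ I \ S, Real.exp (256 * ∑ i with bl i = q.2, g i))) *
        (rho g K'.card * ((∏ q ∈ I' \ S', ((1:ℝ) / 3) ^ (M q.2)) *
          ∏ q ∈ I' \ S', Real.exp (256 * ∑ i with bl i = q.2, g i)))) *
        Real.exp (16384 * ∑ i, g i * ∑ k, ∑ l, (if c i k l then 1 else 0)) := by
    intro S _
    rw [EE2_sum]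
    apply Finset.sum_le_sum
    intro S' _
    rw [EE2_smul, EE2_prod _ (fun i a b => fS bl S (I \ S) i a * fS bl S' (I' \ S') i b)]
    have e1 : ∏ i, ∑ a, ∑ b, wt2 (g i) (c i) a b *
        (fS bl S (I \ S) i a * fS bl S' (I' \ S') i b) ≤
        ∏ i, (((1 - (K.card : ℝ) * g i) * Real.exp (256 * (g i * ∑ q ∈ I \ S,
          if bl i = q.2 then (1:ℝ) else 0))) *
        ((1 - (K'.card : ℝ) * g i) * Real.exp (256 * (g i * ∑ q ∈ I' \ S',
          if bl i = q.2 then (1:ℝ) else 0))) *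
        Real.exp (16384 * (g i * ∑ k, ∑ l, (if c i k l then 1 else 0)))) := by
      apply Finset.prod_le_prod
      · intro i _
        apply Finset.sum_nonneg
        intro u _
        apply Finset.sum_nonneg
        intro v _
        apply mul_nonneg (hw i u v)
        apply mul_nonneg
        · unfold fS
          apply mul_nonneg
          · apply Finset.prod_nonneg
            intro q _
            split_ifs <;> norm_num
          · apply Finset.prod_nonneg
            intro q _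
            split_ifs <;> norm_num
        · unfold fS
          apply mul_nonneg
          · apply Finset.prod_nonneg
            intro q _
            split_ifs <;> norm_num
          · apply Finset.prod_nonneg
            intro q _
            split_ifs <;> norm_num
      · intro i _
        exact loc_pair (g i) (hg i) (c i) bl B hbl K K' (hKu i) (hKu' i) S S' i
    have e2 : 0 ≤ (∏ q ∈ I \ S, ((1:ℝ) / 3) ^ (M q.2)) * (∏ q ∈ I' \ S', ((1:ℝ) / 3) ^ (M q.2)) := by
      positivity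
    refine (mul_le_mul_of_nonneg_left e1 e2).trans (le_of_eq ?_)
    rw [Finset.prod_mul_distrib, Finset.prod_mul_distrib, fac_one g bl (I \ S) K.card,
      fac_one g bl (I' \ S') K'.card,
      fac_coll g (fun i => ∑ k, ∑ l, (if c i k l then (1:ℝ) else 0))]
    ring
  refine (Finset.sum_le_sum h2).trans (le_of_eq ?_)
  generalize Real.exp (16384 * ∑ i, g i * ∑ k, ∑ l, (if c i k l then (1:ℝ) else 0)) = EC
  have h3 : ∀ S ∈ I.powerset, ∑ S' ∈ I'.powerset,
      ((rho g K.card * ((∏ q ∈ I \ S, ((1:ℝ) / 3) ^ (M q.2)) *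
          ∏ q ∈ I \ S, Real.exp (256 * ∑ i with bl i = q.2, g i))) *
        (rho g K'.card * ((∏ q ∈ I' \ S', ((1:ℝ) / 3) ^ (M q.2)) *
          ∏ q ∈ I' \ S', Real.exp (256 * ∑ i with bl i = q.2, g i)))) *
        EC =
      (rho g K.card * ((∏ q ∈ I \ S, ((1:ℝ) / 3) ^ (M q.2)) *
          ∏ q ∈ I \ S, Real.exp (256 * ∑ i with bl i = q.2, g i))) *
        ((rho g K'.card * ∑ S' ∈ I'.powerset, ((∏ q ∈ I' \ S', ((1:ℝ) / 3) ^ (M q.2)) *
          ∏ q ∈ I' \ S', Real.exp (256 * ∑ i with bl i = q.2, g i))) *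
        EC) := by
    intro S _
    rw [Finset.mul_sum, Finset.sum_mul, Finset.mul_sum]
    refine Finset.sum_congr rfl fun S' _ => ?_
    ring
  rw [Finset.sum_congr rfl h3, ← Finset.sum_mul, ← Finset.mul_sum]
  rw [sum_pow K B M (fun j => Real.exp (256 * ∑ i with bl i = j, g i)),
    sum_pow K' B M (fun j => Real.exp (256 * ∑ i with bl i = j, g i))]
  ring

end Pool.Agent.T2h81.UC
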