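import Pool.Agent.T2h81.UC.A3

set_option autoImplicit false
set_option linter.unusedSectionVars false

/-! # Pairs of windows: the joint second moment in the model -/

namespace Pool.Agent.T2h81.UC

open Finset Pool.Agent.H256R2.SC Pool.Agent.Y831.RC

open scoped Classical

variable {n₁ n₂ : ℕ} {κ κ' : Type} [Fintype κ] [DecidableEq κ] [Fintype κ'] [DecidableEq κ']

/-- the weight of a window, with the Brun-Hooley majorants in the first block -/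
noncomputable def VB (p g₂ : Fin n₂ → ℝ) (h : Finset (Fin n₂) → ℝ) (Q : ℝ) (bl : Fin n₁ → ℕ)
    (B : ℕ) (M : ℕ → ℕ) (x₁ : Col n₁ κ) (x₂ : Col n₂ κ) : ℝ :=
  V5 g₂ (yT p h Q) (fun k => BHk bl B M k) x₁ x₂

section
variable {p g₂ : Fin n₂ → ℝ} {h : Finset (Fin n₂) → ℝ} {z K v₀ : ℝ} {g₁ : Fin n₁ → ℝ}

/-- the diagonal weights of the second block on the support of the coefficients -/
theorem bal_le (hg₂ : ∀ i, 0 ≤ g₂ i) (U δ Q θ : ℝ) (hU : (Fintype.card κ : ℝ) ≤ U)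
    (hδ : ∀ D : Col n₂ κ, qq p D ≤ Q → 2 * ∑ i with D i ≠ none, g₂ i ≤ δ)
    (hθ : 6 * U ^ 2 * ∑ i, (g₂ i) ^ 2 + 3 * U * δ ≤ θ) (D : Col n₂ κ) (hD : qq p D ≤ Q) :
    ∏ i, bal (κ := κ) (g₂ i) (2 * U * g₂ i) (D i) ≤ Real.exp θ * nu g₂ D := by
  have hu0 : (0:ℝ) ≤ Fintype.card κ := Nat.cast_nonneg _
  have hU0 : 0 ≤ U := hu0.trans hU
  have h1 := prod_bal g₂ hg₂ (fun i => 2 * U * g₂ i)
    (fun i => by have := hg₂ i; positivity) D
  refine h1.trans ?_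
  have hnu : 0 ≤ nu g₂ D := E_nu_nonneg hg₂ D
  apply mul_le_mul_of_nonneg_right _ hnu
  apply Real.exp_le_exp.2
  refine le_trans ?_ hθ
  have h2 : ∑ i, 2 * U * g₂ i * g₂ i = 2 * U * ∑ i, (g₂ i) ^ 2 := by
    rw [Finset.mul_sum]
    refine Finset.sum_congr rfl fun i _ => ?_
    ring
  have h3 : 3 * ∑ i with D i ≠ none, 2 * U * g₂ i = 3 * U * (2 * ∑ i with D i ≠ none, g₂ i) := by
    rw [← Finset.mul_sum]
    ring
  rw [h2, h3]
  have h4 := mul_le_mul_of_nonneg_left (hδ D hD) (show 0 ≤ 3 * U by positivity)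
  have h5 : 0 ≤ ∑ i, (g₂ i) ^ 2 := Finset.sum_nonneg fun i _ => sq_nonneg _
  have h6 : 3 * (Fintype.card κ : ℝ) * (2 * U * ∑ i, (g₂ i) ^ 2) ≤ 3 * U * (2 * U * ∑ i, (g₂ i) ^ 2) := by
    apply mul_le_mul_of_nonneg_right _ (by positivity)
    linarith
  nlinarith

/-- the second block, one window -/
theorem blk2_one (hg₂ : ∀ i, 0 ≤ g₂ i) (U δ Q θ : ℝ) (hU : (Fintype.card κ : ℝ) ≤ U)
    (hUg : ∀ i, U * g₂ i ≤ 1 / 4) (hQ1 : ∀ D : Col n₂ κ, yT p h Q D ≠ 0 → qq p D ≤ Q)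
    (hδ : ∀ D : Col n₂ κ, qq p D ≤ Q → 2 * ∑ i with D i ≠ none, g₂ i ≤ δ)
    (hθ : 6 * U ^ 2 * ∑ i, (g₂ i) ^ 2 + 3 * U * δ ≤ θ) (bl : Fin n₁ → ℕ) (B : ℕ)
    (M : ℕ → ℕ) (x₁ : Col n₁ κ) :
    EE g₂ (fun x₂ : Col n₂ κ => (∏ i, hw1 (2 * U * g₂ i) (x₂ i)) *
      (VB p g₂ h Q bl B M x₁ x₂) ^ 2) ≤
      ∑ D : Col n₂ κ, (Real.exp θ * (nu g₂ D * (yT p h Q D) ^ 2)) *
        ∏ k ∈ cols D, (BHk bl B M k x₁) ^ 2 := by
  have hu0 : (0:ℝ) ≤ Fintype.card κ := Nat.cast_nonneg _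
  have hU0 : 0 ≤ U := hu0.trans hU
  have hug : ∀ i, (Fintype.card κ : ℝ) * g₂ i ≤ U * g₂ i := fun i =>
    mul_le_mul_of_nonneg_right hU (hg₂ i)
  have h1 := upW (κ := κ) g₂ hg₂ (fun i => by linarith [hug i, hUg i]) (fun i => 2 * U * g₂ i)
    (fun i => by have := hg₂ i; positivity) (fun i => by
      have e1 := hug i
      have e2 := hUg i
      have e3 : 0 ≤ U * g₂ i := mul_nonneg hU0 (hg₂ i)
      have e4 : 0 ≤ (Fintype.card κ : ℝ) * g₂ i := mul_nonneg hu0 (hg₂ i)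
      nlinarith) (yT p h Q) (fun k => BHk bl B M k) x₁
  refine h1.trans ?_
  apply Finset.sum_le_sum
  intro D _
  have hP : 0 ≤ ∏ k ∈ cols D, (BHk bl B M k x₁) ^ 2 := Finset.prod_nonneg fun k _ => sq_nonneg _
  by_cases hD : yT p h Q D = 0
  · rw [hD]
    simp
  · have h2 := bal_le (κ := κ) hg₂ U δ Q θ hU hδ hθ D (hQ1 D hD)
    have h3 : 0 ≤ (yT p h Q D) ^ 2 * ∏ k ∈ cols D, (BHk bl B M k x₁) ^ 2 :=
      mul_nonneg (sq_nonneg _) hP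
    refine (mul_le_mul_of_nonneg_right h2 h3).trans (le_of_eq ?_)
    ring

theorem blk2_nn (hg₂ : ∀ i, 0 ≤ g₂ i) (U Q : ℝ) (hU : (Fintype.card κ : ℝ) ≤ U)
    (hUg : ∀ i, U * g₂ i ≤ 1 / 4) (bl : Fin n₁ → ℕ) (B : ℕ)
    (M : ℕ → ℕ) (x₁ : Col n₁ κ) :
    0 ≤ EE g₂ (fun x₂ : Col n₂ κ => (∏ i, hw1 (2 * U * g₂ i) (x₂ i)) *
      (VB p g₂ h Q bl B M x₁ x₂) ^ 2) := by
  have hu0 : (0:ℝ) ≤ Fintype.card κ := Nat.cast_nonneg _
  have hU0 : 0 ≤ U := hu0.trans hU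
  have hug : ∀ i, (Fintype.card κ : ℝ) * g₂ i ≤ U * g₂ i := fun i =>
    mul_le_mul_of_nonneg_right hU (hg₂ i)
  apply EE_nonneg (fun i c => wt_nonneg (hg₂ i) (by linarith [hug i, hUg i]) c)
  intro x
  apply mul_nonneg _ (sq_nonneg _)
  apply Finset.prod_nonneg
  intro i _
  exact hw1_nonneg _ (by have := hg₂ i; positivity) _

theorem yT_supp (Q : ℝ) (D : Col n₂ κ) (hD : yT p h Q D ≠ 0) : qq p D ≤ Q := by
  by_contra hc
  exact hD (by unfold yT; rw [if_neg hc])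

/-- the joint second moment in the model -/
theorem pair_model (H : HypS p g₂ h z K v₀) (hg₁ : ∀ i, 0 ≤ g₁ i) (U δ Q θ Ξ m : ℝ)
    (hU : (Fintype.card κ : ℝ) ≤ U) (hU' : (Fintype.card κ' : ℝ) ≤ U)
    (hUg₁ : ∀ i, U * g₁ i ≤ 1 / 2) (hUg : ∀ i, U * g₂ i ≤ 1 / 4)
    (hδ : ∀ D : Col n₂ κ, qq p D ≤ Q → 2 * ∑ i with D i ≠ none, g₂ i ≤ δ)
    (hδ' : ∀ D : Col n₂ κ', qq p D ≤ Q → 2 * ∑ i with D i ≠ none, g₂ i ≤ δ)
    (hθ : 6 * U ^ 2 * ∑ i, (g₂ i) ^ 2 + 3 * U * δ ≤ θ) (bl : Fin n₁ → ℕ) (B : ℕ)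
    (hbl : ∀ i, bl i < B) (M : ℕ → ℕ) (hM : ∀ j, Even (M j))
    (hΞ : ∀ j : ℕ, (j : ℝ) ≤ m → (∏ j ∈ range B, (1 + (1 / 3 : ℝ) ^ (M j) *
        Real.exp (256 * ∑ i with bl i = j, g₁ i))) ^ j ≤ Ξ) (hm : Real.log Q / v₀ ≤ m)
    (hΞ0 : 0 ≤ Ξ)
    (c : Fin n₁ → κ → κ' → Prop) (hc : ∀ i k l l', c i k l → c i k l' → l = l')
    (hc' : ∀ i k k' l, c i k l → c i k' l → k = k') :
    EE2 (Fin.append (fun i => wt2 (g₁ i) (c i))
        (fun i => wt2 (g₂ i) (fun (_ : κ) (_ : κ') => False)))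
      (fun (x : Col (n₁ + n₂) κ) (x' : Col (n₁ + n₂) κ') =>
        (VB p g₂ h Q bl B M (fstc x) (sndc x)) ^ 2 *
        (VB p g₂ h Q bl B M (fstc x') (sndc x')) ^ 2) ≤
      (Real.exp θ * Ξ) ^ 2 * Real.exp (16384 * ∑ i, g₁ i * ∑ k, ∑ l, (if c i k l then 1 else 0)) *
        (Zw (om g₁ : Col n₂ κ → ℝ) g₂ h * Zw (om g₁ : Col n₂ κ' → ℝ) g₂ h) := by
  have hg₂ : ∀ i, 0 ≤ g₂ i := fun i => (H.g0 i).le
  have hu0 : (0:ℝ) ≤ Fintype.card κ := Nat.cast_nonneg _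
  have hU0 : 0 ≤ U := hu0.trans hU
  have hUn : ∀ i, U * g₂ i ≤ 1 / 2 := fun i => by linarith [hUg i]
  have hu₁ : ∀ i, (Fintype.card κ : ℝ) * g₁ i ≤ 1 / 2 := fun i =>
    (mul_le_mul_of_nonneg_right hU (hg₁ i)).trans (hUg₁ i)
  have hu₁' : ∀ i, (Fintype.card κ' : ℝ) * g₁ i ≤ 1 / 2 := fun i =>
    (mul_le_mul_of_nonneg_right hU' (hg₁ i)).trans (hUg₁ i)
  have hw : ∀ i (a : Option κ) (b : Option κ'), 0 ≤ wt2 (g₁ i) (c i) a b := by
    intro i a b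
    apply wt2_nonneg (g₁ i) (hg₁ i) _ (c i) (hc i) (hc' i)
    linarith [hu₁ i, hu₁' i]
  set X : ℝ := ∏ j ∈ range B, (1 + (1 / 3 : ℝ) ^ (M j) *
        Real.exp (256 * ∑ i with bl i = j, g₁ i)) with hX
  set EC : ℝ := Real.exp (16384 * ∑ i, g₁ i * ∑ k, ∑ l, (if c i k l then 1 else 0)) with hEC
  have hEC0 : 0 < EC := Real.exp_pos _
  rw [EE2_append]
  set aD : Col n₂ κ → ℝ := fun D => Real.exp θ * (nu g₂ D * (yT p h Q D) ^ 2) with haD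
  set aD' : Col n₂ κ' → ℝ := fun D => Real.exp θ * (nu g₂ D * (yT p h Q D) ^ 2) with haD'
  have haD0 : ∀ D, 0 ≤ aD D := fun D => by
    have := E_nu_nonneg hg₂ D
    simp only [haD]
    positivity
  have haD0' : ∀ D, 0 ≤ aD' D := fun D => by
    have := E_nu_nonneg hg₂ D
    simp only [haD']
    positivity
  have h1 : EE2 (fun i => wt2 (g₁ i) (c i)) (fun x₁ x₁' =>
      EE2 (fun i => wt2 (g₂ i) (fun (_ : κ) (_ : κ') => False)) (fun x₂ x₂' =>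
        (VB p g₂ h Q bl B M (fstc (Fin.append x₁ x₂)) (sndc (Fin.append x₁ x₂))) ^ 2 *
        (VB p g₂ h Q bl B M (fstc (Fin.append x₁' x₂')) (sndc (Fin.append x₁' x₂'))) ^ 2)) ≤
      EE2 (fun i => wt2 (g₁ i) (c i)) (fun x₁ x₁' => ∑ D : Col n₂ κ, ∑ D' : Col n₂ κ',
        (aD D * aD' D') * ((∏ k ∈ cols D, (BHk bl B M k x₁) ^ 2) *
          ∏ k ∈ cols D', (BHk bl B M k x₁') ^ 2)) := by
    apply EE2_mono hw
    intro x₁ x₁'
    simp only [fstc_append, sndc_append]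
    have e1 := EE2_dom (κ := κ) (κ' := κ') g₂ hg₂ U hU hU' hUn
      (fun x₂ => (VB p g₂ h Q bl B M x₁ x₂) ^ 2) (fun x₂ => (VB p g₂ h Q bl B M x₁' x₂) ^ 2)
      (fun x => sq_nonneg _) (fun x => sq_nonneg _)
    refine e1.trans ?_
    have e2 := blk2_one (κ := κ) (h := h) hg₂ U δ Q θ hU hUg (fun D hD => yT_supp Q D hD) hδ hθ bl B M x₁
    have e3 := blk2_one (κ := κ') (h := h) hg₂ U δ Q θ hU' hUg (fun D hD => yT_supp Q D hD) hδ' hθ bl B M x₁'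
    have e4 := blk2_nn (κ := κ') (p := p) (h := h) hg₂ U Q hU' hUg bl B M x₁'
    have e5 : 0 ≤ ∑ D : Col n₂ κ, aD D * ∏ k ∈ cols D, (BHk bl B M k x₁) ^ 2 :=
      Finset.sum_nonneg fun D _ => mul_nonneg (haD0 D) (Finset.prod_nonneg fun k _ => sq_nonneg _)
    refine (mul_le_mul e2 e3 e4 e5).trans (le_of_eq ?_)
    rw [Finset.sum_mul_sum]
    refine Finset.sum_congr rfl fun D _ => ?_
    refine Finset.sum_congr rfl fun D' _ => ?_
    simp only [haD, haD']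
    ring
  refine h1.trans ?_
  rw [EE2_sum]
  have h2 : ∀ D : Col n₂ κ, EE2 (fun i => wt2 (g₁ i) (c i)) (fun x₁ x₁' => ∑ D' : Col n₂ κ',
        (aD D * aD' D') * ((∏ k ∈ cols D, (BHk bl B M k x₁) ^ 2) *
          ∏ k ∈ cols D', (BHk bl B M k x₁') ^ 2)) ≤
      ∑ D' : Col n₂ κ', ((Real.exp θ * Ξ) ^ 2 * EC) *
        ((om g₁ D * ((yy h D) ^ 2 * nu g₂ D)) * (om g₁ D' * ((yy h D') ^ 2 * nu g₂ D'))) := by
    intro D
    rw [EE2_sum]
    apply Finset.sum_le_sum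
    intro D' _
    rw [EE2_smul]
    have hom := om_nonneg hg₁ hu₁ D
    have hom' := om_nonneg hg₁ hu₁' D'
    have hnu := E_nu_nonneg hg₂ D
    have hnu' := E_nu_nonneg hg₂ D'
    by_cases hD : yT p h Q D = 0
    · have : aD D = 0 := by simp only [haD]; rw [hD]; ring
      rw [this, zero_mul, zero_mul]
      positivity
    by_cases hD' : yT p h Q D' = 0
    · have : aD' D' = 0 := by simp only [haD']; rw [hD']; ring
      rw [this, mul_zero, zero_mul]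
      positivity
    have e1 := BH_pair (κ := κ) (κ' := κ') hg₁ U hU hU' hUg₁ c hc hc' bl B hbl M hM (cols D)
      (cols D') (fun _ => 2) (fun _ => by norm_num) (fun _ => 2) (fun _ => by norm_num)
    have e2 := hΞ (cols D).card ((card_cols H Q D hD).trans hm)
    have e3 := hΞ (cols D').card ((card_cols H Q D' hD').trans hm)
    have e4 : EE2 (fun i => wt2 (g₁ i) (c i)) (fun x₁ x₁' =>
        (∏ k ∈ cols D, (BHk bl B M k x₁) ^ 2) * ∏ k ∈ cols D', (BHk bl B M k x₁') ^ 2) ≤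
        (om g₁ D * Ξ) * (om g₁ D' * Ξ) * EC := by
      refine e1.trans ?_
      apply mul_le_mul_of_nonneg_right _ hEC0.le
      have f1 : rho g₁ (cols D).card = om g₁ D := rfl
      have f2 : rho g₁ (cols D').card = om g₁ D' := rfl
      rw [f1, f2]
      have hX0 : 0 ≤ X := by
        rw [hX]
        apply Finset.prod_nonneg
        intro j _
        positivity
      apply mul_le_mul (mul_le_mul_of_nonneg_left e2 hom) (mul_le_mul_of_nonneg_left e3 hom')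
      · positivity
      · positivity
    have e5 := mul_le_mul_of_nonneg_left e4 (mul_nonneg (haD0 D) (haD0' D'))
    refine e5.trans ?_
    simp only [haD, haD']
    have e6 := yT_sq_le (p := p) (h := h) Q D
    have e7 := yT_sq_le (p := p) (h := h) Q D'
    have e8 : (yT p h Q D) ^ 2 * (yT p h Q D') ^ 2 ≤ (yy h D) ^ 2 * (yy h D') ^ 2 :=
      mul_le_mul e6 e7 (sq_nonneg _) (sq_nonneg _)
    have e9 : 0 ≤ (Real.exp θ * Ξ) ^ 2 * EC * (om g₁ D * om g₁ D' * (nu g₂ D * nu g₂ D')) := by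
      positivity
    have e10 := mul_le_mul_of_nonneg_left e8 e9
    linarith
  refine (Finset.sum_le_sum fun D _ => h2 D).trans (le_of_eq ?_)
  unfold Zw
  rw [Finset.sum_mul_sum, Finset.mul_sum]
  refine Finset.sum_congr rfl fun D _ => ?_
  rw [Finset.mul_sum]

end

end Pool.Agent.T2h81.UC
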