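import Pool.Agent.T2h81.UC.A4
import Pool.Agent.Y831.RC5.Par6

set_option autoImplicit false
set_option linter.unusedSectionVars false

/-! # Pairs of windows: transfer to the integers -/

namespace Pool.Agent.T2h81.UC

open Finset Pool.Agent.H256R2.SC Pool.Agent.Y831.RC

open scoped Classical

variable {n n₁ n₂ : ℕ} {κ κ' : Type} [Fintype κ] [DecidableEq κ] [Fintype κ'] [DecidableEq κ']

/-- joint density of two elementary events at one prime -/
noncomputable def lam2 (g : ℝ) (c : κ → κ' → Prop) (a : Option κ) (b : Option κ') : ℝ :=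
  match a, b with
  | none, none => 1
  | some _, none => g
  | none, some _ => g
  | some k, some l => if c k l then g else 0

theorem sum_wt2_ind (g : ℝ) (c : κ → κ' → Prop) (A : Option κ) (B : Option κ') :
    ∑ a, ∑ b, wt2 g c a b * ((if A ≠ none → a = A then (1:ℝ) else 0) *
      (if B ≠ none → b = B then (1:ℝ) else 0)) = lam2 g c A B := by
  cases A with
  | none =>
    cases B with
    | none =>
      have h := sum_wt2 g c (fun _ => 1) (fun _ => 1) rfl rfl
      simp only [ne_eq, not_true_eq_false, false_imp_iff, if_true]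
      rw [h]
      simp [lam2]
    | some l =>
      simp only [ne_eq, not_true_eq_false, false_imp_iff, if_true, reduceCtorEq,
        not_false_eq_true, true_imp_iff, one_mul, mul_ite, mul_one, mul_zero,
        Finset.sum_ite_eq', Finset.mem_univ, lam2]
      rw [Fintype.sum_option]
      simp only [wt2]
      rw [Finset.mul_sum, ← sub_eq_zero]
      have : ∀ k : κ, g * (if c k l then (1:ℝ) else 0) = if c k l then g else 0 := by
        intro k
        split_ifs <;> simp
      rw [Finset.sum_congr rfl fun k _ => this k]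
      ring
  | some k =>
    cases B with
    | none =>
      simp only [ne_eq, not_true_eq_false, false_imp_iff, if_true, reduceCtorEq,
        not_false_eq_true, true_imp_iff, mul_one, mul_ite, mul_zero, lam2]
      rw [Finset.sum_comm]
      simp only [Finset.sum_ite_eq', Finset.mem_univ, if_true]
      rw [Fintype.sum_option]
      simp only [wt2]
      rw [Finset.mul_sum]
      have : ∀ l : κ', g * (if c k l then (1:ℝ) else 0) = if c k l then g else 0 := by
        intro l
        split_ifs <;> simp
      rw [Finset.sum_congr rfl fun l _ => this l]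
      ring
    | some l =>
      simp only [ne_eq, reduceCtorEq, not_false_eq_true, true_imp_iff, mul_ite, mul_one, mul_zero,
        Finset.sum_ite_eq', Finset.mem_univ, if_true, lam2]
      rfl

theorem EE2_ind (g : Fin n → ℝ) (c : Fin n → κ → κ' → Prop) (D : Col n κ) (D' : Col n κ') :
    EE2 (fun i => wt2 (g i) (c i)) (fun x x' => ind D x * ind D' x') =
      ∏ i, lam2 (g i) (c i) (D i) (D' i) := by
  have h1 : (fun (x : Col n κ) (x' : Col n κ') => ind D x * ind D' x') =
      fun x x' => ∏ i, ((if D i ≠ none → x i = D i then (1:ℝ) else 0) *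
        (if D' i ≠ none → x' i = D' i then (1:ℝ) else 0)) := by
    funext x x'
    rw [ind_eq_prod, ind_eq_prod, ← Finset.prod_mul_distrib]
  rw [h1, EE2_prod _ (fun i a b => (if D i ≠ none → a = D i then (1:ℝ) else 0) *
        (if D' i ≠ none → b = D' i then (1:ℝ) else 0))]
  exact Finset.prod_congr rfl fun i _ => sum_wt2_ind (g i) (c i) (D i) (D' i)

theorem transfer2 {α : Type} (𝒜 : Finset α) (col : α → Col n κ) (col' : α → Col n κ')
    (w : Fin n → Option κ → Option κ' → ℝ) (Lam : Col n κ → Col n κ' → ℝ)
    (hLam : ∀ D D', EE2 w (fun x x' => ind D x * ind D' x') = Lam D D')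
    (N Err B B' : ℝ) (hErr : 0 ≤ Err)
    (hcnt : ∀ (D : Col n κ) (D' : Col n κ'),
      |((𝒜.filter (fun a => (∀ i, D i ≠ none → col a i = D i) ∧
        (∀ i, D' i ≠ none → col' a i = D' i))).card : ℝ) - N * Lam D D'| ≤ Err)
    (F : Col n κ → ℝ) (F' : Col n κ' → ℝ) (hF : Lw B F) (hF' : Lw B' F') :
    |∑ a ∈ 𝒜, F (col a) * F' (col' a) - N * EE2 w (fun x x' => F x * F' x')| ≤
      Err * (B * B') := by
  obtain ⟨f, hf1, hf2, _⟩ := hF
  obtain ⟨f', hf1', hf2', _⟩ := hF'
  have hB : 0 ≤ B := le_trans (Finset.sum_nonneg fun D _ => abs_nonneg _) hf2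
  have h1 : ∑ a ∈ 𝒜, F (col a) * F' (col' a) =
      ∑ D, ∑ D', (f D * f' D') * ((𝒜.filter (fun a => (∀ i, D i ≠ none → col a i = D i) ∧
        (∀ i, D' i ≠ none → col' a i = D' i))).card : ℝ) := by
    have e1 : ∀ a, F (col a) * F' (col' a) =
        ∑ D, ∑ D', (f D * f' D') * (ind D (col a) * ind D' (col' a)) := by
      intro a
      rw [hf1, hf1', Finset.sum_mul_sum]
      refine Finset.sum_congr rfl fun D _ => ?_
      refine Finset.sum_congr rfl fun D' _ => ?_
      ring
    rw [Finset.sum_congr rfl fun a _ => e1 a, Finset.sum_comm]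
    refine Finset.sum_congr rfl fun D _ => ?_
    rw [Finset.sum_comm]
    refine Finset.sum_congr rfl fun D' _ => ?_
    rw [← Finset.mul_sum]
    congr 1
    have e2 : ∀ a, ind D (col a) * ind D' (col' a) =
        if (∀ i, D i ≠ none → col a i = D i) ∧ (∀ i, D' i ≠ none → col' a i = D' i)
          then (1:ℝ) else 0 := by
      intro a
      unfold ind
      by_cases h1 : ∀ i, D i ≠ none → col a i = D i
      · by_cases h2 : ∀ i, D' i ≠ none → col' a i = D' i
        · rw [if_pos h1, if_pos h2, if_pos ⟨h1, h2⟩, one_mul]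
        · rw [if_pos h1, if_neg h2, mul_zero, if_neg (fun h => h2 h.2)]
      · rw [if_neg h1, zero_mul, if_neg (fun h => h1 h.1)]
    rw [Finset.sum_congr rfl fun a _ => e2 a, Finset.sum_ite, Finset.sum_const_zero, add_zero,
      Finset.sum_const, nsmul_eq_mul, mul_one]
  have h2 : EE2 w (fun x x' => F x * F' x') = ∑ D, ∑ D', (f D * f' D') * Lam D D' := by
    have e1 : (fun x x' => F x * F' x') =
        fun x x' => ∑ D, ∑ D', (f D * f' D') * (ind D x * ind D' x') := by
      funext x x'
      rw [hf1, hf1', Finset.sum_mul_sum]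
      refine Finset.sum_congr rfl fun D _ => ?_
      refine Finset.sum_congr rfl fun D' _ => ?_
      ring
    rw [e1, EE2_sum]
    refine Finset.sum_congr rfl fun D _ => ?_
    rw [EE2_sum]
    refine Finset.sum_congr rfl fun D' _ => ?_
    rw [EE2_smul, hLam]
  rw [h1, h2, Finset.mul_sum, ← Finset.sum_sub_distrib]
  have h3 : ∀ D : Col n κ, |∑ D' : Col n κ', (f D * f' D') *
      ((𝒜.filter (fun a => (∀ i, D i ≠ none → col a i = D i) ∧
        (∀ i, D' i ≠ none → col' a i = D' i))).card : ℝ) -
        N * ∑ D' : Col n κ', (f D * f' D') * Lam D D'| ≤ |f D| * (Err * B') := by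
    intro D
    rw [Finset.mul_sum, ← Finset.sum_sub_distrib]
    calc _ ≤ ∑ D' : Col n κ', |(f D * f' D') *
        ((𝒜.filter (fun a => (∀ i, D i ≠ none → col a i = D i) ∧
        (∀ i, D' i ≠ none → col' a i = D' i))).card : ℝ) - N * ((f D * f' D') * Lam D D')| :=
          Finset.abs_sum_le_sum_abs _ _
      _ ≤ ∑ D' : Col n κ', |f D| * (|f' D'| * Err) := by
        apply Finset.sum_le_sum
        intro D' _
        have h4 : (f D * f' D') * ((𝒜.filter (fun a => (∀ i, D i ≠ none → col a i = D i) ∧
            (∀ i, D' i ≠ none → col' a i = D' i))).card : ℝ) - N * ((f D * f' D') * Lam D D') =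
            f D * (f' D' * (((𝒜.filter (fun a => (∀ i, D i ≠ none → col a i = D i) ∧
            (∀ i, D' i ≠ none → col' a i = D' i))).card : ℝ) - N * Lam D D')) := by ring
        rw [h4, abs_mul, abs_mul]
        exact mul_le_mul_of_nonneg_left
          (mul_le_mul_of_nonneg_left (hcnt D D') (abs_nonneg _)) (abs_nonneg _)
      _ = |f D| * ((∑ D' : Col n κ', |f' D'|) * Err) := by
        rw [← Finset.mul_sum, Finset.sum_mul]
      _ ≤ |f D| * (B' * Err) := mul_le_mul_of_nonneg_left
          (mul_le_mul_of_nonneg_right hf2' hErr) (abs_nonneg _)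
      _ = _ := by ring
  have hB' : 0 ≤ B' := le_trans (Finset.sum_nonneg fun D _ => abs_nonneg _) hf2'
  calc _ ≤ ∑ D : Col n κ, |f D| * (Err * B') :=
        (Finset.abs_sum_le_sum_abs _ _).trans (Finset.sum_le_sum fun D _ => h3 D)
    _ = (∑ D : Col n κ, |f D|) * (Err * B') := by rw [Finset.sum_mul]
    _ ≤ B * (Err * B') := mul_le_mul_of_nonneg_right hf2 (by positivity)
    _ = _ := by ring

/-- counting the joint elementary events -/
theorem count2 (P : Fin n → ℕ) (hP : ∀ i, 0 < P i)
    (hcop : ∀ i j, i ≠ j → Nat.Coprime (P i) (P j)) (col : ℤ → Col n κ) (col' : ℤ → Col n κ')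
    (r : Fin n → κ → ℤ) (r' : Fin n → κ' → ℤ)
    (hcol : ∀ a i k, col a i = some k ↔ (P i : ℤ) ∣ a - r i k)
    (hcol' : ∀ a i k, col' a i = some k ↔ (P i : ℤ) ∣ a - r' i k)
    (c : Fin n → κ → κ' → Prop) (hc : ∀ i k l, c i k l ↔ (P i : ℤ) ∣ r i k - r' i l)
    (A B : ℤ) (hAB : A ≤ B) (D : Col n κ) (D' : Col n κ') :
    |(((Ioc A B).filter (fun a => (∀ i, D i ≠ none → col a i = D i) ∧
        (∀ i, D' i ≠ none → col' a i = D' i))).card : ℝ) -
      ((B : ℝ) - A) * ∏ i, lam2 (1 / (P i : ℝ)) (c i) (D i) (D' i)| ≤ 1 := by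
  by_cases hbad : ∃ i k l, D i = some k ∧ D' i = some l ∧ ¬ c i k l
  · obtain ⟨i, k, l, h1, h2, h3⟩ := hbad
    have e1 : (Ioc A B).filter (fun a => (∀ i, D i ≠ none → col a i = D i) ∧
        (∀ i, D' i ≠ none → col' a i = D' i)) = ∅ := by
      rw [Finset.filter_eq_empty_iff]
      rintro a _ ⟨h4, h5⟩
      have h6 := (hcol a i k).1 (by rw [h4 i (by rw [h1]; simp), h1])
      have h7 := (hcol' a i l).1 (by rw [h5 i (by rw [h2]; simp), h2])
      apply h3
      rw [hc]
      have := dvd_sub h7 h6
      have e : a - r' i l - (a - r i k) = r i k - r' i l := by ring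
      rwa [e] at this
    have e2 : ∏ i, lam2 (1 / (P i : ℝ)) (c i) (D i) (D' i) = 0 := by
      apply Finset.prod_eq_zero (Finset.mem_univ i)
      rw [h1, h2]
      simp only [lam2]
      rw [if_neg h3]
    rw [e1, e2]
    simp
  · push Not at hbad
    set S : Finset (Fin n) := univ.filter (fun i => D i ≠ none ∨ D' i ≠ none) with hS
    set ρ : Fin n → ℤ := fun i => match D i, D' i with
      | some k, _ => r i k
      | none, some l => r' i l
      | none, none => 0 with hρ
    have hcopZ : ∀ i ∈ S, ∀ j ∈ S, i ≠ j → IsCoprime (P i : ℤ) (P j : ℤ) := fun i _ j _ hij =>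
      Nat.isCoprime_iff_coprime.2 (hcop i j hij)
    obtain ⟨s, hs⟩ := crt_int S (fun i => (P i : ℤ)) hcopZ ρ
    have key : ∀ a : ℤ, ((∀ i, D i ≠ none → col a i = D i) ∧
        (∀ i, D' i ≠ none → col' a i = D' i)) ↔ ∀ i ∈ S, (P i : ℤ) ∣ a - ρ i := by
      intro a
      constructor
      · rintro ⟨h1, h2⟩ i hi
        simp only [hρ]
        cases hD : D i with
        | some k =>
          simp only
          exact (hcol a i k).1 (by rw [h1 i (by rw [hD]; simp), hD])
        | none =>
          cases hD' : D' i with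
          | some l =>
            simp only
            exact (hcol' a i l).1 (by rw [h2 i (by rw [hD']; simp), hD'])
          | none =>
            rw [hS, Finset.mem_filter] at hi
            rcases hi.2 with h3 | h3
            · exact absurd hD h3
            · exact absurd hD' h3
      · intro h
        constructor
        · intro i hi
          obtain ⟨k, hk⟩ := Option.ne_none_iff_exists'.mp hi
          have h1 := h i (by rw [hS, Finset.mem_filter]; exact ⟨Finset.mem_univ _, Or.inl hi⟩)
          simp only [hρ, hk] at h1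
          rw [hk]
          exact (hcol a i k).2 h1
        · intro i hi
          obtain ⟨l, hl⟩ := Option.ne_none_iff_exists'.mp hi
          have h1 := h i (by rw [hS, Finset.mem_filter]; exact ⟨Finset.mem_univ _, Or.inr hi⟩)
          rw [hl]
          apply (hcol' a i l).2
          cases hD : D i with
          | some k =>
            simp only [hρ, hD] at h1
            have h2 := (hc i k l).1 (hbad i k l hD hl)
            have := dvd_add h1 h2
            have e : a - r i k + (r i k - r' i l) = a - r' i l := by ring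
            rwa [e] at this
          | none =>
            simp only [hρ, hD, hl] at h1
            exact h1
    have key2 : ∀ a : ℤ, (∀ i ∈ S, (P i : ℤ) ∣ a - ρ i) ↔ ((∏ i ∈ S, P i : ℕ) : ℤ) ∣ a - s := by
      intro a
      constructor
      · intro h
        have e0 : ((∏ i ∈ S, P i : ℕ) : ℤ) = ∏ i ∈ S, (P i : ℤ) := by push_cast; rfl
        rw [e0]
        apply Finset.prod_dvd_of_coprime
        · intro i hi j hj hij
          exact hcopZ i hi j hj hij
        · intro i hi
          have := dvd_sub (h i hi) (hs i hi)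
          have e : a - ρ i - (s - ρ i) = a - s := by ring
          rwa [e] at this
      · intro h i hi
        have h1 : ((P i : ℕ) : ℤ) ∣ ((∏ i ∈ S, P i : ℕ) : ℤ) := by
          exact_mod_cast Finset.dvd_prod_of_mem P hi
        have := dvd_add (h1.trans h) (hs i hi)
        have e : a - s + (s - ρ i) = a - ρ i := by ring
        rwa [e] at this
    have e1 : (Ioc A B).filter (fun a => (∀ i, D i ≠ none → col a i = D i) ∧
        (∀ i, D' i ≠ none → col' a i = D' i)) =
        (Ioc A B).filter (fun a => ((∏ i ∈ S, P i : ℕ) : ℤ) ∣ a - s) := by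
      apply Finset.filter_congr
      intro a _
      rw [key a, key2 a]
    have e2 : ∏ i, lam2 (1 / (P i : ℝ)) (c i) (D i) (D' i) = 1 / ((∏ i ∈ S, P i : ℕ) : ℝ) := by
      have f1 : ∏ i, lam2 (1 / (P i : ℝ)) (c i) (D i) (D' i) =
          ∏ i, (if D i ≠ none ∨ D' i ≠ none then 1 / (P i : ℝ) else 1) := by
        refine Finset.prod_congr rfl fun i _ => ?_
        cases hD : D i with
        | none =>
          cases hD' : D' i with
          | none => simp [lam2]
          | some l => simp [lam2]
        | some k =>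
          cases hD' : D' i with
          | none => simp [lam2]
          | some l =>
            simp only [lam2]
            rw [if_pos (hbad i k l hD hD')]
            simp
      rw [f1, ← Finset.prod_filter]
      push_cast
      rw [Finset.prod_div_distrib, Finset.prod_const_one]
    rw [e1, e2]
    have hq : 0 < ∏ i ∈ S, P i := Finset.prod_pos fun i _ => hP i
    have h2 := LG.count_Ioc A B hAB _ hq s
    rw [mul_one_div]
    exact h2

end Pool.Agent.T2h81.UC
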