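import Pool.Agent.T2h81.UC.A5

set_option autoImplicit false
set_option linter.unusedSectionVars false
set_option maxHeartbeats 4000000

/-! # One window: first moment, penalties and pointwise bound with small errors -/

namespace Pool.Agent.T2h81.UC

open Finset Pool.Agent.H256R2.SC Pool.Agent.Y831.RC

variable {n₁ n₂ : ℕ} {κ : Type} [Fintype κ] [DecidableEq κ]

section
variable {p g₂ : Fin n₂ → ℝ} {h : Finset (Fin n₂) → ℝ} {z K v₀ : ℝ} {g₁ : Fin n₁ → ℝ}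
  {R : κ → Col n₁ κ → ℝ} {m τ : ℝ}

theorem lower5e (H : HypS p g₂ h z K v₀) (HR : BHyp g₁ R m τ) (hg₁ : ∀ i, 0 ≤ g₁ i)
    (hg₁u : ∀ i, (Fintype.card κ : ℝ) * g₁ i ≤ 1 / 2) (Q δ T ε : ℝ)
    (hug : ∀ i, (Fintype.card κ : ℝ) * g₂ i ≤ 1)
    (hδ : ∀ D : Col n₂ κ, qq p D ≤ Q → 2 * ∑ i with D i ≠ none, g₂ i ≤ δ)
    (hug4 : (Fintype.card κ : ℝ) * δ ≤ 2 * ε) (hQ0 : 0 < Q)
    (hT : ∑ D : Col n₂ κ with Q / z < qq p D, om g₁ D * ((yy h D) ^ 2 * nu g₂ D) ≤ T)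
    (hT8 : T ≤ ε * Zw (om g₁ : Col n₂ κ → ℝ) g₂ h) (hε1 : ε ≤ 1) :
    (1 - 2 * ε) * Zw (om g₁ : Col n₂ κ → ℝ) g₂ h ≤
      EE g₁ (fun x₁ : Col n₁ κ => EE g₂ (fun x₂ : Col n₂ κ => (V5 g₂ (yT p h Q) R x₁ x₂) ^ 2)) := by
  have hw : ∀ i (c : Option κ), 0 ≤ wt (g₂ i) c := fun i c => wt_nonneg (H.g0 i).le (hug i) c
  have hw₁ : ∀ i (c : Option κ), 0 ≤ wt (g₁ i) c := fun i c =>
    wt_nonneg (hg₁ i) (by linarith [hg₁u i]) c
  set B : Col n₂ κ → ℝ := fun D =>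
    ∏ i, (nu1 (g₂ i) (D i) * nu1 (1 - (Fintype.card κ : ℝ) * g₂ i) (D i)) with hB
  have hB0 : ∀ D, 0 ≤ B D := by
    intro D
    apply Finset.prod_nonneg
    intro i _
    cases D i with
    | none => simp [nu1]
    | some k =>
      simp only [nu1]
      exact mul_nonneg (H.g0 i).le (by linarith [hug i])
  have h1 : EE g₁ (fun x₁ : Col n₁ κ => ∑ D : Col n₂ κ, B D * (yT p h Q D) ^ 2 *
      ∏ k ∈ cols D, (R k x₁) ^ 2) ≤
      EE g₁ (fun x₁ : Col n₁ κ => EE g₂ (fun x₂ : Col n₂ κ => (V5 g₂ (yT p h Q) R x₁ x₂) ^ 2)) := by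
    apply EE_mono hw₁
    intro x₁
    refine le_trans (le_of_eq ?_) (tensor_lower (κ := κ) g₂
      (fun i c => nu1 (g₂ i) c * nu1 (1 - (Fintype.card κ : ℝ) * g₂ i) c) hw
      (by
        intro i c
        cases c with
        | none => simp [nu1]
        | some k =>
          simp only [nu1]
          exact mul_nonneg (H.g0 i).le (by linarith [hug i]))
      (fun i Y => local_lower (g₂ i) (H.g0 i).le Y) (fun D => yT p h Q D * ∏ k ∈ cols D, R k x₁))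
    refine Finset.sum_congr rfl fun D _ => ?_
    simp only [hB]
    rw [Finset.prod_pow]
    ring
  refine le_trans ?_ h1
  rw [EE_sum]
  have h2 : ∀ D : Col n₂ κ, (if qq p D ≤ Q then (1 - ε) * (om g₁ D * ((yy h D) ^ 2 * nu g₂ D)) else 0) ≤
      EE g₁ (fun x₁ : Col n₁ κ => B D * (yT p h Q D) ^ 2 * ∏ k ∈ cols D, (R k x₁) ^ 2) := by
    intro D
    rw [EE_smul]
    have e0 := HR.lower hw₁ (cols D) (fun _ => 2)
    have e00 : 0 ≤ om g₁ D := om_nonneg hg₁ hg₁u D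
    unfold yT
    split_ifs with hD
    · have e1 : (1 - ε) * nu g₂ D ≤ B D := by
        simp only [hB]
        rw [Finset.prod_mul_distrib]
        have e1 : ∏ i, nu1 (1 - (Fintype.card κ : ℝ) * g₂ i) (D i) =
            ∏ i ∈ Pool.Agent.H256R2.SC.supp D, (1 - (Fintype.card κ : ℝ) * g₂ i) := prod_nu1 _ D
        rw [e1]
        have e2 : 1 - ε ≤ ∏ i ∈ Pool.Agent.H256R2.SC.supp D, (1 - (Fintype.card κ : ℝ) * g₂ i) := by
          refine le_trans ?_ (prod_ge_one_sub_sum (Pool.Agent.H256R2.SC.supp D)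
            (fun i => (Fintype.card κ : ℝ) * g₂ i)
            (fun i => mul_nonneg (Nat.cast_nonneg _) (H.g0 i).le) hug)
          rw [← Finset.mul_sum]
          have e3 := hδ D hD
          have e4 : ∑ i ∈ Pool.Agent.H256R2.SC.supp D, g₂ i ≤ δ / 2 := by
            unfold Pool.Agent.H256R2.SC.supp
            linarith
          have e5 : (Fintype.card κ : ℝ) * ∑ i ∈ Pool.Agent.H256R2.SC.supp D, g₂ i ≤
              (Fintype.card κ : ℝ) * (δ / 2) :=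
            mul_le_mul_of_nonneg_left e4 (Nat.cast_nonneg _)
          nlinarith
        have e6 : 0 ≤ nu g₂ D := nu_nonneg H.g0 D
        have e7 : ∏ i, nu1 (g₂ i) (D i) = nu g₂ D := rfl
        rw [e7]
        nlinarith
      have e2 : (1 - ε) * nu g₂ D * (yy h D) ^ 2 ≤ B D * (yy h D) ^ 2 :=
        mul_le_mul_of_nonneg_right e1 (sq_nonneg _)
      have e3 : 0 ≤ B D * (yy h D) ^ 2 := mul_nonneg (hB0 D) (sq_nonneg _)
      calc (1 - ε) * (om g₁ D * ((yy h D) ^ 2 * nu g₂ D)) =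
            ((1 - ε) * nu g₂ D * (yy h D) ^ 2) * om g₁ D := by ring
        _ ≤ (B D * (yy h D) ^ 2) * om g₁ D := mul_le_mul_of_nonneg_right e2 e00
        _ ≤ _ := mul_le_mul_of_nonneg_left e0 e3
    · simp
  refine le_trans ?_ (Finset.sum_le_sum (fun D _ => h2 D))
  rw [← Finset.sum_filter, ← Finset.mul_sum]
  have h3 : Zw (om g₁ : Col n₂ κ → ℝ) g₂ h =
      ∑ D : Col n₂ κ with qq p D ≤ Q, om g₁ D * ((yy h D) ^ 2 * nu g₂ D) +
      ∑ D : Col n₂ κ with ¬ qq p D ≤ Q, om g₁ D * ((yy h D) ^ 2 * nu g₂ D) := by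
    unfold Zw
    rw [Finset.sum_filter_add_sum_filter_not]
  have hnn : ∀ D : Col n₂ κ, 0 ≤ om g₁ D * ((yy h D) ^ 2 * nu g₂ D) := fun D =>
    mul_nonneg (om_nonneg hg₁ hg₁u D) (mul_nonneg (sq_nonneg _) (nu_nonneg H.g0 D))
  have h4 : ∑ D : Col n₂ κ with ¬ qq p D ≤ Q, om g₁ D * ((yy h D) ^ 2 * nu g₂ D) ≤
      ∑ D : Col n₂ κ with Q / z < qq p D, om g₁ D * ((yy h D) ^ 2 * nu g₂ D) := by
    apply Finset.sum_le_sum_of_subset_of_nonneg
    · intro D hD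
      rw [Finset.mem_filter] at hD ⊢
      refine ⟨hD.1, lt_of_le_of_lt ?_ (not_le.mp hD.2)⟩
      exact div_le_self hQ0.le H.z1.le
    · intro D _ _
      exact hnn D
  have h5 : 0 ≤ ∑ D : Col n₂ κ with ¬ qq p D ≤ Q, om g₁ D * ((yy h D) ^ 2 * nu g₂ D) :=
    Finset.sum_nonneg fun D _ => hnn D
  have h6 : 0 ≤ ∑ D : Col n₂ κ with qq p D ≤ Q, om g₁ D * ((yy h D) ^ 2 * nu g₂ D) :=
    Finset.sum_nonneg fun D _ => hnn D
  set Z := Zw (om g₁ : Col n₂ κ → ℝ) g₂ h with hZ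
  set S := ∑ D : Col n₂ κ with qq p D ≤ Q, om g₁ D * ((yy h D) ^ 2 * nu g₂ D) with hS
  have h7 : (1 - ε) * Z ≤ S := by linarith
  have h8 := mul_le_mul_of_nonneg_left h7 (show 0 ≤ 1 - ε by linarith)
  have h9 : 0 ≤ ε ^ 2 * Z := mul_nonneg (sq_nonneg _) (by linarith)
  nlinarith

/-- the upper bound for the first moment -/
theorem upper5e (H : HypS p g₂ h z K v₀) (HR : BHyp g₁ R m τ) (hg₁ : ∀ i, 0 ≤ g₁ i)
    (hg₁u : ∀ i, (Fintype.card κ : ℝ) * g₁ i ≤ 1 / 2) (Q : ℝ)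
    (hug : ∀ i, (Fintype.card κ : ℝ) * g₂ i ≤ 1) (hτ0 : 0 ≤ τ) (hm : Real.log Q / v₀ ≤ m) :
    EE g₁ (fun x₁ : Col n₁ κ => EE g₂ (fun x₂ : Col n₂ κ => (V5 g₂ (yT p h Q) R x₁ x₂) ^ 2)) ≤
      (1 + τ) * Zw (om g₁ : Col n₂ κ → ℝ) g₂ h := by
  have hw : ∀ i (c : Option κ), 0 ≤ wt (g₂ i) c := fun i c => wt_nonneg (H.g0 i).le (hug i) c
  have hw₁ : ∀ i (c : Option κ), 0 ≤ wt (g₁ i) c := fun i c =>
    wt_nonneg (hg₁ i) (by linarith [hg₁u i]) c
  have h1 : EE g₁ (fun x₁ : Col n₁ κ => EE g₂ (fun x₂ : Col n₂ κ =>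
      (V5 g₂ (yT p h Q) R x₁ x₂) ^ 2)) ≤
      EE g₁ (fun x₁ : Col n₁ κ => ∑ D : Col n₂ κ, (nu g₂ D * (yT p h Q D) ^ 2) *
        ∏ k ∈ cols D, (R k x₁) ^ 2) := by
    apply EE_mono hw₁
    intro x₁
    have h2 := tensor_upper (κ := κ) g₂ (fun _ _ => 1) (fun i c => nu1 (g₂ i) c) hw
      (fun _ _ => zero_le_one) (fun i c => by
        have := (H.g0 i).le
        cases c with
        | none => simp [nu1]
        | some k => simpa [nu1] using this)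
      (fun i Y => by simpa using local_upper (g₂ i) (H.g0 i).le Y)
      (fun D => yT p h Q D * ∏ k ∈ cols D, R k x₁)
    simp only [Finset.prod_const_one, one_mul] at h2
    refine le_trans h2 (le_of_eq ?_)
    refine Finset.sum_congr rfl fun D _ => ?_
    rw [mul_pow, Finset.prod_pow]
    unfold nu
    ring
  refine h1.trans ?_
  rw [EE_sum]
  unfold Zw
  rw [Finset.mul_sum]
  apply Finset.sum_le_sum
  intro D _
  rw [EE_smul]
  have hom := om_nonneg (κ := κ) hg₁ hg₁u D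
  have hnu := nu_nonneg H.g0 D
  by_cases hD : yT p h Q D = 0
  · rw [hD]
    have : 0 ≤ (1 + τ) * (om g₁ D * ((yy h D) ^ 2 * nu g₂ D)) := by positivity
    simpa using this
  · have e1 := HR.up (cols D) ((card_cols H Q D hD).trans hm) (fun _ => 2) (fun _ => by norm_num)
    have e2 := yT_sq_le (p := p) (h := h) Q D
    have e3 : 0 ≤ nu g₂ D * (yT p h Q D) ^ 2 := by positivity
    refine (mul_le_mul_of_nonneg_left e1 e3).trans ?_
    have e4 : rho g₁ (cols D).card = om g₁ D := rfl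
    rw [e4]
    have e5 := mul_le_mul_of_nonneg_left e2 (show 0 ≤ nu g₂ D * ((1 + τ) * om g₁ D) by positivity)
    linarith

end

/-- the penalty -/
noncomputable def pen (R : κ → Col n₁ κ → ℝ) (J : ℕ) (R₂ : ℝ) (x : Col (n₁ + n₂) κ) : ℝ :=
  ∑ k, R k (fstc x) * (SS J k (sndc x) + 1 / R₂)

theorem one5 {α : Type} [DecidableEq α] (𝒜 : Finset α) (col : α → Col (n₁ + n₂) κ)
    {p g₂ : Fin n₂ → ℝ} {h : Finset (Fin n₂) → ℝ} {z K v₀ : ℝ} (H : HypS p g₂ h z K v₀)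
    (g₁ : Fin n₁ → ℝ) (R : κ → Col n₁ κ → ℝ) (m τ : ℝ) (HR : BHyp g₁ R m τ)
    (hτ0 : 0 ≤ τ) (hτ1 : τ ≤ 1) (Λ : ℝ) (hΛ : 1 ≤ Λ) (hRL : ∀ k, Lw Λ (R k))
    (Q δ N Err η s CB R₂ ε : ℝ) (J m₀ r : ℕ) (hJ : Even J) (hm₀ : m₀ ≤ J)
    (hN : 0 < N) (hErr : 0 ≤ Err) (hQz : 1 ≤ Q) (hη0 : 0 < η) (hη1 : η ≤ 1) (hs : 0 < s)
    (hε0 : 0 < ε) (hε1 : ε ≤ 1) (hτε : τ ≤ ε)
    (hg₁ : ∀ i, 0 ≤ g₁ i) (hg₁u : ∀ i, (Fintype.card κ : ℝ) * g₁ i ≤ 1 / 2)
    (hρ1 : 0 ≤ rho g₁ 1)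
    (hg1 : ∀ i, g₂ i ≤ 1) (htg : ∀ i, 3 * 3 * g₂ i ≤ 1)
    (hug : ∀ i, (Fintype.card κ : ℝ) * g₂ i ≤ 1)
    (hδ : ∀ D : Col n₂ κ, qq p D ≤ Q → 2 * ∑ i with D i ≠ none, g₂ i ≤ δ)
    (hug4 : (Fintype.card κ : ℝ) * δ ≤ 2 * ε)
    (hr : Real.log Q / v₀ ≤ r) (hrm : (r:ℝ) + 1 ≤ m) (hR₂ : 1 ≤ R₂)
    (hcard : ∀ s, h s ≠ 0 → s.card ≤ m₀)
    (hCB : Q ^ s * Real.exp (2 * (Fintype.card κ : ℝ) * ∑ i, 1 / (p i) ^ s) ≤ CB)
    (hE8 : Real.exp (η * ((1 + η) * (Fintype.card κ : ℝ) *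
      (rho g₁ 1 * K) / Real.log z - Real.log (Q / z) / Real.log z)) ≤ ε)
    (htail : 4 * ((Fintype.card κ : ℝ) * rho g₁ 1) * (τ + (δ ^ 2 +
      Real.exp (η * ((1 + η) * (Fintype.card κ : ℝ) *
      (rho g₁ 1 * K) / Real.log z - Real.log (Q / z) / Real.log z)))) ≤ ε)
    (hmom : 2 * ((Fintype.card κ : ℝ) * rho g₁ 1) * ((1 / 3) ^ J *
      Real.exp (20 * ∑ i, g₂ i)) ≤ ε)
    (hpen : 2 * ((Fintype.card κ : ℝ) * rho g₁ 1) * Real.exp (20 * ∑ i, g₂ i) ≤ R₂ * ε)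
    (hcnt : ∀ D : Col (n₁ + n₂) κ,
      |((𝒜.filter (fun a => ∀ i, D i ≠ none → col a i = D i)).card : ℝ) -
        N * nu (Fin.append g₁ g₂) D| ≤ Err)
    (hfin : Err * ((Λ ^ r * CB) ^ 2 *
      (1 + Fintype.card κ * (Λ * (((n₂:ℝ) + 1) ^ J + 1)))) ≤ ε * N) :
    (1 - 3 * ε) * (Zw (om g₁ : Col n₂ κ → ℝ) g₂ h * N) ≤
      ∑ a ∈ 𝒜, (V5 g₂ (yT p h Q) R (fstc (col a)) (sndc (col a))) ^ 2 ∧
    ∑ a ∈ 𝒜, (V5 g₂ (yT p h Q) R (fstc (col a)) (sndc (col a))) ^ 2 ≤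
      (1 + 2 * ε) * (Zw (om g₁ : Col n₂ κ → ℝ) g₂ h * N) ∧
    ∑ a ∈ 𝒜, (V5 g₂ (yT p h Q) R (fstc (col a)) (sndc (col a))) ^ 2 * pen R J R₂ (col a) ≤
      4 * ε * (Zw (om g₁ : Col n₂ κ → ℝ) g₂ h * N) ∧
    (∀ a, 0 ≤ pen R J R₂ (col a)) ∧
    (∀ a, pen R J R₂ (col a) < 1 → (∀ k, ∃ i, col a i = some k) ∧
      (V5 g₂ (yT p h Q) R (fstc (col a)) (sndc (col a))) ^ 2 ≤
      (3 * (1 + 3 * Real.exp (∑ i, g₂ i) * ((J : ℝ) + 2) ^ (2 * J) * (R₂ + 1)) ^ r) ^ 2) ∧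
    Lw (Λ ^ r * CB) (fun x : Col (n₁ + n₂) κ => V5 g₂ (yT p h Q) R (fstc x) (sndc x)) := by
  set u : ℝ := (Fintype.card κ : ℝ) with hu
  have hu0 : 0 ≤ u := Nat.cast_nonneg _
  have hQ0 : 0 < Q := by linarith
  have hz0 : 0 < z := by linarith [H.z1]
  have hw : ∀ i (c : Option κ), 0 ≤ wt (g₂ i) c := fun i c => wt_nonneg (H.g0 i).le (hug i) c
  have hw₁ : ∀ i (c : Option κ), 0 ≤ wt (g₁ i) c := fun i c =>
    wt_nonneg (hg₁ i) (by linarith [hg₁u i]) c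
  set E : ℝ := Real.exp (η * ((1 + η) * u * (rho g₁ 1 * K) / Real.log z -
    Real.log (Q / z) / Real.log z)) with hE
  set Z : ℝ := Zw (om g₁ : Col n₂ κ → ℝ) g₂ h with hZ
  have hZ1 : 1 ≤ Z := Zw_ge_one H hg₁ hg₁u
  have hE0 : 0 < E := Real.exp_pos _
  have hp1 : ∀ i, 1 ≤ p i := fun i => (H.p1 i).le
  have hT : ∑ D : Col n₂ κ with Q / z < qq p D, om g₁ D * ((yy h D) ^ 2 * nu g₂ D) ≤ E * Z :=
    tail_rho H (om g₁) (om_nonneg hg₁ hg₁u) (rho g₁ 1) hρ1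
      (fun D k hD => om_step hg₁ hg₁u D k hD) η hη0 hη1 (Q / z) (by positivity)
  have hT8 : E * Z ≤ ε * Z := mul_le_mul_of_nonneg_right hE8 (by linarith)
  have hm1 : Real.log Q / v₀ + 1 ≤ m := by linarith
  set V : Col n₁ κ → Col n₂ κ → ℝ := V5 g₂ (yT p h Q) R with hV
  have hlow : (1 - 2 * ε) * Z ≤ EE g₁ (fun x₁ => EE g₂ (fun x₂ => (V x₁ x₂) ^ 2)) :=
    lower5e H HR hg₁ hg₁u Q δ (E * Z) ε hug hδ hug4 hQ0 hT hT8 hε1
  have hupp : EE g₁ (fun x₁ => EE g₂ (fun x₂ => (V x₁ x₂) ^ 2)) ≤ (1 + τ) * Z :=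
    upper5e H HR hg₁ hg₁u Q hug hτ0 (by linarith)
  set G : Col (n₁ + n₂) κ → ℝ := fun x => V (fstc x) (sndc x) with hG
  set B : κ → Col (n₁ + n₂) κ → ℝ := fun k x => R k (fstc x) * (SS J k (sndc x) + 1 / R₂) with hB
  set e20 : ℝ := Real.exp (20 * ∑ i, g₂ i) with he20
  have he0 : 0 < e20 := Real.exp_pos _
  -- the majorants
  have hup : ∀ k, EE (Fin.append g₁ g₂) (fun x => (G x) ^ 2 * B k x) ≤
      4 * rho g₁ 1 * (τ * Z + (δ ^ 2 * Z + E * Z)) + ((1 / 3) ^ J + 1 / R₂) *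
        (2 * rho g₁ 1 * e20 * Z) := by
    intro k
    rw [EE_append]
    have h1 := avoid5 H HR hτ0 hτ1 hg₁ hg₁u hρ1 Q δ (E * Z) hug hδ hQ0 hm1 hT k
    have h2 := moment5 H HR hτ1 hg₁ hg₁u hρ1 Q hug htg hm1 k
    have h3 : EE g₁ (fun x₁ => EE g₂ (fun x₂ =>
        (G (Fin.append x₁ x₂)) ^ 2 * B k (Fin.append x₁ x₂))) ≤
        EE g₁ (fun x₁ : Col n₁ κ => EE g₂ (fun x₂ : Col n₂ κ =>
          R k x₁ * ((if (∀ i, x₂ i ≠ some k) then 1 else 0) * (V x₁ x₂) ^ 2)) +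
          ((1 / 3) ^ J + 1 / R₂) * EE g₂ (fun x₂ : Col n₂ κ => R k x₁ *
            ((∏ i, if x₂ i = some k then (1:ℝ) + 3 else 1) * (V x₁ x₂) ^ 2))) := by
      apply EE_mono hw₁
      intro x₁
      rw [← EE_smul, ← EE_add]
      apply EE_mono hw
      intro x₂
      have h4 := SS_upper J hJ 3 (by norm_num) k x₂
      have h6 : G (Fin.append x₁ x₂) = V x₁ x₂ := by
        simp only [hG]
        rw [fstc_append, sndc_append]
      have h6' : B k (Fin.append x₁ x₂) = R k x₁ * (SS J k x₂ + 1 / R₂) := by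
        simp only [hB]
        rw [fstc_append, sndc_append]
      rw [h6, h6']
      have h8 : (1:ℝ) ≤ ∏ i, if x₂ i = some k then (1:ℝ) + 3 else 1 := by
        have e0 : (1:ℝ) = ∏ _i : Fin n₂, (1:ℝ) := by simp
        refine le_trans (le_of_eq e0) ?_
        apply Finset.prod_le_prod (fun _ _ => zero_le_one)
        intro i _
        split_ifs <;> norm_num
      have h9 : 0 ≤ 1 / R₂ := by positivity
      have h10 : SS J k x₂ + 1 / R₂ ≤ (if ∀ i, x₂ i ≠ some k then (1 : ℝ) else 0) +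
          ((1 / 3) ^ J + 1 / R₂) * ∏ i, (if x₂ i = some k then 1 + 3 else 1) := by
        have := mul_le_mul_of_nonneg_left h8 h9
        nlinarith
      have h11 : 0 ≤ R k x₁ * (V x₁ x₂) ^ 2 := mul_nonneg (HR.nn k x₁) (sq_nonneg _)
      have h7 := mul_le_mul_of_nonneg_left h10 h11
      refine le_trans (le_of_eq ?_) (h7.trans (le_of_eq ?_))
      · ring
      · ring
    refine h3.trans ?_
    rw [EE_add, EE_smul]
    have h9 := mul_le_mul_of_nonneg_left h2 (show (0:ℝ) ≤ (1 / 3) ^ J + 1 / R₂ by positivity)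
    exact add_le_add h1 h9
  have hEP : EE (Fin.append g₁ g₂) (fun x => (G x) ^ 2 * ∑ k, B k x) ≤ 3 * ε * Z := by
    have e1 : EE (Fin.append g₁ g₂) (fun x => (G x) ^ 2 * ∑ k, B k x) =
        ∑ k, EE (Fin.append g₁ g₂) (fun x => (G x) ^ 2 * B k x) := by
      rw [← EE_sum]
      congr 1
      funext x
      rw [← Finset.mul_sum]
    rw [e1]
    have e2 : ∑ k : κ, EE (Fin.append g₁ g₂) (fun x => (G x) ^ 2 * B k x) ≤
        u * (4 * rho g₁ 1 * (τ * Z + (δ ^ 2 * Z + E * Z)) + ((1 / 3) ^ J + 1 / R₂) *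
        (2 * rho g₁ 1 * e20 * Z)) := by
      refine (Finset.sum_le_sum (fun k _ => hup k)).trans ?_
      rw [Finset.sum_const, Finset.card_univ, nsmul_eq_mul]
    have hZ0 : 0 ≤ Z := by linarith
    have e3 : u * (4 * rho g₁ 1 * (τ * Z + (δ ^ 2 * Z + E * Z))) ≤ ε * Z := by
      have := mul_le_mul_of_nonneg_right htail hZ0
      linarith
    have e4 : u * ((1 / 3) ^ J * (2 * rho g₁ 1 * e20 * Z)) ≤ ε * Z := by
      have := mul_le_mul_of_nonneg_right hmom hZ0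
      linarith
    have e5 : u * (1 / R₂ * (2 * rho g₁ 1 * e20 * Z)) ≤ ε * Z := by
      have h0 : 2 * (u * rho g₁ 1) * e20 * (1 / R₂) ≤ R₂ * ε * (1 / R₂) :=
        mul_le_mul_of_nonneg_right hpen (by positivity)
      have h1 : R₂ * ε * (1 / R₂) = ε := by
        have : R₂ ≠ 0 := by positivity
        field_simp
      rw [h1] at h0
      have := mul_le_mul_of_nonneg_right h0 hZ0
      linarith
    nlinarith
  -- coefficient sums
  have hCB0 : 0 ≤ CB := le_trans (by positivity) hCB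
  have hyy1 : ∀ D : Col n₂ κ, |yT p h Q D| ≤ 1 := by
    intro D
    unfold yT
    split_ifs
    · exact yy_abs_le H.h0 H.h1 D
    · simp
  have hcolr : ∀ D : Col n₂ κ, yT p h Q D ≠ 0 → (cols D).card ≤ r := by
    intro D hD
    have := (card_cols H Q D hD).trans hr
    exact_mod_cast this
  have hGL : Lw (Λ ^ r * CB) G := by
    have e1 := Lw_V5 (n₁ := n₁) (κ := κ) g₂ (fun i => (H.g0 i).le) hg1 p (yT p h Q) hyy1 Q (by
      intro D hD
      by_contra hc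
      exact hD (by unfold yT; rw [if_neg hc])) R Λ hΛ hRL r hcolr
    refine Lw_mono ?_ e1
    apply mul_le_mul_of_nonneg_left _ (by positivity)
    exact (count_sharp (κ := κ) p hp1 s hs Q hQ0).trans hCB
  have hPL : Lw (u * (Λ * (((n₂:ℝ) + 1) ^ J + 1)))
      (fun x : Col (n₁ + n₂) κ => ∑ k, B k x) := by
    have eB : ∀ k, Lw (Λ * (((n₂:ℝ) + 1) ^ J + 1)) (B k) := by
      intro k
      have e3 : Lw (((n₂:ℝ) + 1) ^ J + 1) (fun x : Col (n₁ + n₂) κ => SS J k (sndc x) + 1 / R₂) := by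
        have e4 : Lw (((n₂:ℝ) + 1) ^ J) (fun x : Col (n₁ + n₂) κ => SS J k (sndc x)) :=
          Lw_snd (Lw_SS J k)
        have e5 : Lw 1 (fun _ : Col (n₁ + n₂) κ => -(1 / R₂)) := by
          have := Lw_const (n := n₁ + n₂) (κ := κ) (-(1 / R₂))
          refine Lw_mono ?_ this
          rw [abs_neg, abs_of_nonneg (by positivity)]
          rw [div_le_one (by linarith)]
          exact hR₂
        have e6 := Lw_sub e4 e5
        have e7 : (fun x : Col (n₁ + n₂) κ => SS J k (sndc x) + 1 / R₂) =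
            fun x => SS J k (sndc x) - (-(1 / R₂)) := by
          funext x
          ring
        rw [e7]
        exact e6
      exact Lw_mul (Lw_fst (hRL k)) e3
    have e2 := Lw_sum (n := n₁ + n₂) (univ : Finset κ) (fun _ => Λ * (((n₂:ℝ) + 1) ^ J + 1))
      (fun k => B k) (fun k _ => eB k)
    refine Lw_mono ?_ e2
    rw [Finset.sum_const, Finset.card_univ, nsmul_eq_mul]
  have hG2L : Lw ((Λ ^ r * CB) ^ 2) (fun x => (G x) ^ 2) := by
    have e1 := Lw_mul hGL hGL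
    have e2 : (fun x => (G x) ^ 2) = fun x => G x * G x := by
      funext x; ring
    rw [e2]
    refine Lw_mono (le_of_eq (by ring)) e1
  have htr1 := transfer_w 𝒜 col (Fin.append g₁ g₂) N Err _ hErr hcnt (fun x => (G x) ^ 2) hG2L
  have htr2 := transfer_w 𝒜 col (Fin.append g₁ g₂) N Err _ hErr hcnt
    (fun x => (G x) ^ 2 * ∑ k, B k x) (Lw_mul hG2L hPL)
  have e0 : EE (Fin.append g₁ g₂) (fun x => (G x) ^ 2) =
      EE g₁ (fun x₁ => EE g₂ (fun x₂ => (V x₁ x₂) ^ 2)) := by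
    rw [EE_append]
    simp only [hG, fstc_append, sndc_append]
  rw [e0] at htr1
  have hX0 : 0 ≤ (Λ ^ r * CB) ^ 2 := sq_nonneg _
  have hY0 : 0 ≤ u * (Λ * (((n₂:ℝ) + 1) ^ J + 1)) := by positivity
  have hfin1 : Err * (Λ ^ r * CB) ^ 2 ≤ ε * N := by
    refine le_trans ?_ hfin
    apply mul_le_mul_of_nonneg_left _ hErr
    nlinarith
  have hfin2 : Err * ((Λ ^ r * CB) ^ 2 * (u * (Λ * (((n₂:ℝ) + 1) ^ J + 1)))) ≤ ε * N := by
    refine le_trans ?_ hfin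
    apply mul_le_mul_of_nonneg_left _ hErr
    nlinarith
  have hZN : N ≤ Z * N := by nlinarith
  have hεN : ε * N ≤ ε * (Z * N) := mul_le_mul_of_nonneg_left hZN hε0.le
  obtain ⟨t1, t2⟩ := abs_le.mp htr1
  obtain ⟨t3, t4⟩ := abs_le.mp htr2
  have hSS0 : ∀ a l, 0 ≤ SS J l (sndc (col a)) := by
    intro a l
    refine le_trans ?_ (SS_lower J hJ l (sndc (col a)))
    split_ifs <;> norm_num
  have hR0 : ∀ a l, 0 ≤ R l (fstc (col a)) := fun a l => HR.nn l _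
  have hiR : 0 < 1 / R₂ := by positivity
  have hB0 : ∀ a l, 0 ≤ B l (col a) := by
    intro a l
    simp only [hB]
    have := hSS0 a l
    exact mul_nonneg (hR0 a l) (by linarith)
  refine ⟨?_, ?_, ?_, ?_, ?_, hGL⟩
  · have e1 := mul_le_mul_of_nonneg_left hlow hN.le
    have e2 : (1 - 3 * ε) * (Z * N) ≤ ∑ a ∈ 𝒜, (G (col a)) ^ 2 := by
      linarith
    exact e2
  · have e1 := mul_le_mul_of_nonneg_left hupp hN.le
    have e3 : τ * (Z * N) ≤ ε * (Z * N) := mul_le_mul_of_nonneg_right hτε (by positivity)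
    have e2 : ∑ a ∈ 𝒜, (G (col a)) ^ 2 ≤ (1 + 2 * ε) * (Z * N) := by
      linarith
    exact e2
  · have e1 := mul_le_mul_of_nonneg_left hEP hN.le
    have e2 : ∑ a ∈ 𝒜, (G (col a)) ^ 2 * ∑ k, B k (col a) ≤ 4 * ε * (Z * N) := by
      linarith
    exact e2
  · intro a
    exact Finset.sum_nonneg fun k _ => hB0 a k
  · intro a h1
    have h1' : ∑ k, B k (col a) < 1 := h1
    have hk1 : ∀ k, B k (col a) < 1 := fun k =>
      lt_of_le_of_lt (Finset.single_le_sum (fun l _ => hB0 a l) (Finset.mem_univ k)) h1'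
    have hall : ∀ k, ∃ i, col a i = some k := by
      intro k
      by_contra hk
      push Not at hk
      have h3 := SS_lower J hJ k (sndc (col a))
      have hk2 : ∀ i, sndc (col a) i ≠ some k := fun i => hk (Fin.natAdd n₁ i)
      rw [if_pos hk2] at h3
      have h4 : R k (fstc (col a)) = 1 := HR.one k _ (fun i => hk (Fin.castAdd n₂ i))
      have h5 := hk1 k
      simp only [hB] at h5
      rw [h4] at h5
      linarith
    refine ⟨hall, ?_⟩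
    have hs1 : ∑ k, R k (fstc (col a)) * SS J k (sndc (col a)) ≤ 1 := by
      refine le_trans (Finset.sum_le_sum fun k _ => ?_) h1'.le
      simp only [hB]
      exact mul_le_mul_of_nonneg_left (by linarith) (hR0 a k)
    have hs2 : ∑ k, R k (fstc (col a)) ≤ R₂ := by
      have e1 : (1 / R₂) * ∑ k, R k (fstc (col a)) ≤ 1 := by
        rw [Finset.mul_sum]
        refine le_trans (Finset.sum_le_sum fun k _ => ?_) h1'.le
        simp only [hB]
        rw [mul_comm]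
        exact mul_le_mul_of_nonneg_left (by linarith [hSS0 a k]) (hR0 a k)
      have e2 := mul_le_mul_of_nonneg_left e1 (show (0:ℝ) ≤ R₂ by linarith)
      have e3 : R₂ * (1 / R₂ * ∑ k, R k (fstc (col a))) = ∑ k, R k (fstc (col a)) := by
        have : R₂ ≠ 0 := by positivity
        field_simp
      rw [e3, mul_one] at e2
      exact e2
    have hVb : |V (fstc (col a)) (sndc (col a))| ≤
        3 * (1 + 3 * Real.exp (∑ i, g₂ i) * ((J : ℝ) + 2) ^ (2 * J) * (R₂ + 1)) ^ r := by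
      refine V5_le g₂ (fun i => (H.g0 i).le) (yT p h Q) hyy1 R J m₀ r hJ hm₀ ?_
        (fstc (col a)) (sndc (col a)) (hR0 a) R₂ hs2 hs1
      intro D hD
      refine ⟨hcolr D hD, fun k => ?_⟩
      by_cases hf : (fib D k).Nonempty
      · apply hcard
        intro h0
        apply hD
        unfold yT
        split_ifs
        · unfold yy
          apply Finset.prod_eq_zero (Finset.mem_univ k)
          unfold al
          rw [if_neg hf.ne_empty, h0]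
          simp
        · rfl
      · rw [Finset.not_nonempty_iff_eq_empty] at hf
        rw [hf, Finset.card_empty]
        exact Nat.zero_le _
    rw [← sq_abs]
    exact pow_le_pow_left₀ (abs_nonneg _) hVb 2

end Pool.Agent.T2h81.UC
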