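import Mathlib

set_option autoImplicit false

/-! # Chebyshev's inequality for the covered windows -/

namespace Pool.Agent.T2h81.UC

open Finset

open scoped Classical

theorem cheb {α ι : Type} [Fintype ι] (𝒜 : Finset α) (S P : ι → α → ℝ) (cov : ι → α → Prop)
    (N Bd ε : ℝ) (hA : (𝒜.card : ℝ) = N) (hJ : 0 < Fintype.card ι)
    (hS0 : ∀ i a, 0 ≤ S i a) (hP0 : ∀ i a, 0 ≤ P i a)
    (h1 : ∀ i, (1 - 3 * ε) * N ≤ ∑ a ∈ 𝒜, S i a) (h1' : ∀ i, ∑ a ∈ 𝒜, S i a ≤ 2 * N)
    (h2 : ∀ i, ∑ a ∈ 𝒜, S i a * P i a ≤ 4 * ε * N)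
    (h3 : ∀ i a, P i a < 1 → cov i a ∧ S i a ≤ Bd) (hBd : 0 ≤ Bd)
    (h4 : ∀ i j, i ≠ j → ∑ a ∈ 𝒜, S i a * S j a ≤ (1 + ε) * N) (hε : 0 ≤ ε) :
    ((𝒜.filter (fun a => ¬ ∃ i, cov i a)).card : ℝ) ≤
      (15 * ε + 2 * Bd / Fintype.card ι) * N := by
  set J : ℝ := (Fintype.card ι : ℝ) with hJd
  have hJ0 : 0 < J := by rw [hJd]; exact_mod_cast hJ
  have hN0 : 0 ≤ N := by rw [← hA]; exact Nat.cast_nonneg _
  set g : ι → α → ℝ := fun i a => if P i a < 1 then S i a else 0 with hg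
  have hg0 : ∀ i a, 0 ≤ g i a := by
    intro i a
    simp only [hg]
    split_ifs
    · exact hS0 i a
    · exact le_rfl
  have hgS : ∀ i a, g i a ≤ S i a := by
    intro i a
    simp only [hg]
    split_ifs
    · exact le_rfl
    · exact hS0 i a
  have hgB : ∀ i a, g i a ≤ Bd := by
    intro i a
    simp only [hg]
    split_ifs with h
    · exact (h3 i a h).2
    · exact hBd
  have hgl : ∀ i a, S i a - S i a * P i a ≤ g i a := by
    intro i a
    simp only [hg]
    split_ifs with h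
    · have := mul_nonneg (hS0 i a) (hP0 i a)
      linarith
    · push Not at h
      have := mul_le_mul_of_nonneg_left h (hS0 i a)
      linarith
  set f : α → ℝ := fun a => ∑ i, g i a with hf
  have hF1 : J * ((1 - 7 * ε) * N) ≤ ∑ a ∈ 𝒜, f a := by
    simp only [hf]
    rw [Finset.sum_comm]
    have e1 : ∀ i : ι, (1 - 7 * ε) * N ≤ ∑ a ∈ 𝒜, g i a := by
      intro i
      have e2 : ∑ a ∈ 𝒜, (S i a - S i a * P i a) ≤ ∑ a ∈ 𝒜, g i a :=
        Finset.sum_le_sum fun a _ => hgl i a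
      rw [Finset.sum_sub_distrib] at e2
      have e3 := h1 i
      have e4 := h2 i
      linarith
    have e5 : ∑ _i : ι, (1 - 7 * ε) * N ≤ ∑ i, ∑ a ∈ 𝒜, g i a :=
      Finset.sum_le_sum fun i _ => e1 i
    rw [Finset.sum_const, Finset.card_univ, nsmul_eq_mul] at e5
    exact e5
  have hF2 : ∑ a ∈ 𝒜, (f a) ^ 2 ≤ J ^ 2 * ((1 + ε) * N) + J * (Bd * (2 * N)) := by
    have e1 : ∀ a, (f a) ^ 2 = ∑ i, ∑ j, g i a * g j a := by
      intro a
      simp only [hf]
      rw [sq, Finset.sum_mul_sum]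
    rw [Finset.sum_congr rfl fun a _ => e1 a, Finset.sum_comm]
    have e2 : ∀ i : ι, ∑ a ∈ 𝒜, ∑ j, g i a * g j a ≤ J * ((1 + ε) * N) + Bd * (2 * N) := by
      intro i
      rw [Finset.sum_comm]
      have e3 : ∀ j : ι, ∑ a ∈ 𝒜, g i a * g j a ≤
          (1 + ε) * N + (if j = i then Bd * (2 * N) else 0) := by
        intro j
        by_cases hij : j = i
        · rw [if_pos hij, hij]
          have e4 : ∑ a ∈ 𝒜, g i a * g i a ≤ ∑ a ∈ 𝒜, Bd * S i a := by
            apply Finset.sum_le_sum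
            intro a _
            exact mul_le_mul (hgB i a) (hgS i a) (hg0 i a) hBd
          rw [← Finset.mul_sum] at e4
          have e5 := mul_le_mul_of_nonneg_left (h1' i) hBd
          have e6 : 0 ≤ (1 + ε) * N := by positivity
          linarith
        · rw [if_neg hij, add_zero]
          refine le_trans ?_ (h4 i j (fun h => hij h.symm))
          apply Finset.sum_le_sum
          intro a _
          exact mul_le_mul (hgS i a) (hgS j a) (hg0 j a) (hS0 i a)
      refine (Finset.sum_le_sum fun j _ => e3 j).trans (le_of_eq ?_)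
      rw [Finset.sum_add_distrib, Finset.sum_const, Finset.card_univ, nsmul_eq_mul,
        Finset.sum_ite_eq', if_pos (Finset.mem_univ _)]
    refine (Finset.sum_le_sum fun i _ => e2 i).trans (le_of_eq ?_)
    rw [Finset.sum_const, Finset.card_univ, nsmul_eq_mul]
    ring
  have hV : ∑ a ∈ 𝒜, (f a - J) ^ 2 ≤ J ^ 2 * ((15 * ε + 2 * Bd / J) * N) := by
    have e1 : ∑ a ∈ 𝒜, (f a - J) ^ 2 = ∑ a ∈ 𝒜, (f a) ^ 2 - 2 * J * ∑ a ∈ 𝒜, f a + J ^ 2 * N := by
      rw [← hA, Finset.mul_sum, ← Finset.sum_sub_distrib, mul_comm (J ^ 2), ← nsmul_eq_mul,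
        ← Finset.sum_const, ← Finset.sum_add_distrib]
      refine Finset.sum_congr rfl fun a _ => ?_
      ring
    rw [e1]
    have e2 : J ^ 2 * ((15 * ε + 2 * Bd / J) * N) = J ^ 2 * (15 * ε * N) + J * (Bd * (2 * N)) := by
      field_simp
    rw [e2]
    have e3 := mul_le_mul_of_nonneg_left hF1 (show 0 ≤ 2 * J by positivity)
    nlinarith
  have hsub : J ^ 2 * ((𝒜.filter (fun a => ¬ ∃ i, cov i a)).card : ℝ) ≤
      ∑ a ∈ 𝒜, (f a - J) ^ 2 := by
    have e1 : ∑ a ∈ 𝒜.filter (fun a => ¬ ∃ i, cov i a), (f a - J) ^ 2 ≤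
        ∑ a ∈ 𝒜, (f a - J) ^ 2 :=
      Finset.sum_le_sum_of_subset_of_nonneg (Finset.filter_subset _ _) fun a _ _ => sq_nonneg _
    refine le_trans (le_of_eq ?_) e1
    have e2 : ∀ a ∈ 𝒜.filter (fun a => ¬ ∃ i, cov i a), (f a - J) ^ 2 = J ^ 2 := by
      intro a ha
      have h5 := (Finset.mem_filter.1 ha).2
      have h6 : f a = 0 := by
        simp only [hf]
        apply Finset.sum_eq_zero
        intro i _
        simp only [hg]
        rw [if_neg]
        intro h7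
        exact h5 ⟨i, (h3 i a h7).1⟩
      rw [h6]
      ring
    rw [Finset.sum_congr rfl e2, Finset.sum_const, nsmul_eq_mul, mul_comm]
  have hfin := hsub.trans hV
  exact le_of_mul_le_mul_left hfin (by positivity)

end Pool.Agent.T2h81.UC
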