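import Pool.Agent.T2h81.UC.A8

set_option autoImplicit false
set_option linter.unusedSectionVars false
set_option maxHeartbeats 4000000

/-! # The second moment of a pair of windows over the integers of an interval -/

namespace Pool.Agent.T2h81.UC

open Finset Filter Pool.Agent.H256R2.SC Pool.Agent.Y831.RC

open scoped Classical

variable {n₁ n₂ : ℕ} {κ κ' : Type} [Fintype κ] [DecidableEq κ] [Fintype κ'] [DecidableEq κ']

/-- the colouring of the two blocks -/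
noncomputable def colc (PP₁ PP₂ : Finset ℕ) (res : ℕ → κ → ℤ) (a : ℤ) :
    Col (PP₁.card + PP₂.card) κ := Fin.append (colr PP₁ res a) (colr PP₂ res a)

/-- the moduli of the two blocks -/
noncomputable def PQ (PP₁ PP₂ : Finset ℕ) : Fin (PP₁.card + PP₂.card) → ℕ :=
  Fin.append (fun i => emb PP₁ i) (fun i => emb PP₂ i)

theorem colc_iff {PP₁ PP₂ : Finset ℕ} {res : ℕ → κ → ℤ}
    (h₁ : ∀ p ∈ PP₁, ∀ k l, k ≠ l → ¬ ((p : ℤ) ∣ res p k - res p l))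
    (h₂ : ∀ p ∈ PP₂, ∀ k l, k ≠ l → ¬ ((p : ℤ) ∣ res p k - res p l)) (a : ℤ)
    (i : Fin (PP₁.card + PP₂.card)) (k : κ) :
    colc PP₁ PP₂ res a i = some k ↔ ((PQ PP₁ PP₂ i : ℕ) : ℤ) ∣ a - res (PQ PP₁ PP₂ i) k := by
  refine Fin.addCases (fun j => ?_) (fun j => ?_) i
  · unfold colc PQ
    rw [Fin.append_left, Fin.append_left]
    exact colr_eq h₁ a j k
  · unfold colc PQ
    rw [Fin.append_right, Fin.append_right]
    exact colr_eq h₂ a j k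

theorem PQ_cop {PP₁ PP₂ : Finset ℕ} (h₁ : ∀ p ∈ PP₁, p.Prime) (h₂ : ∀ p ∈ PP₂, p.Prime)
    (hd : Disjoint PP₁ PP₂) (i j : Fin (PP₁.card + PP₂.card)) (hij : i ≠ j) :
    Nat.Coprime (PQ PP₁ PP₂ i) (PQ PP₁ PP₂ j) := by
  unfold PQ
  revert hij
  refine Fin.addCases (fun i' => ?_) (fun i' => ?_) i
  · refine Fin.addCases (fun j' => ?_) (fun j' => ?_) j
    · intro hij
      rw [Fin.append_left, Fin.append_left]
      exact emb_coprime h₁ (fun h => hij (by rw [h]))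
    · intro _
      rw [Fin.append_left, Fin.append_right,
        Nat.coprime_primes (h₁ _ (emb_mem PP₁ i')) (h₂ _ (emb_mem PP₂ j'))]
      intro he
      exact Finset.disjoint_left.1 hd (emb_mem PP₁ i') (he ▸ emb_mem PP₂ j')
  · refine Fin.addCases (fun j' => ?_) (fun j' => ?_) j
    · intro _
      rw [Fin.append_left, Fin.append_right, Nat.coprime_comm,
        Nat.coprime_primes (h₁ _ (emb_mem PP₁ j')) (h₂ _ (emb_mem PP₂ i'))]
      intro he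
      exact Finset.disjoint_left.1 hd (emb_mem PP₁ j') (he ▸ emb_mem PP₂ i')
    · intro hij
      rw [Fin.append_right, Fin.append_right]
      exact emb_coprime h₂ (fun h => hij (by rw [h]))

theorem PQ_pos {PP₁ PP₂ : Finset ℕ} (h₁ : ∀ p ∈ PP₁, p.Prime) (h₂ : ∀ p ∈ PP₂, p.Prime)
    (i : Fin (PP₁.card + PP₂.card)) : 0 < PQ PP₁ PP₂ i := by
  unfold PQ
  refine Fin.addCases (fun j => ?_) (fun j => ?_) i
  · rw [Fin.append_left]
    exact (h₁ _ (emb_mem PP₁ j)).pos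
  · rw [Fin.append_right]
    exact (h₂ _ (emb_mem PP₂ j)).pos

theorem append_wt2 (g₁ : Fin n₁ → ℝ) (g₂ : Fin n₂ → ℝ) (c₁ : Fin n₁ → κ → κ' → Prop)
    (c₂ : Fin n₂ → κ → κ' → Prop) :
    (Fin.append (fun i => wt2 (g₁ i) (c₁ i)) (fun i => wt2 (g₂ i) (c₂ i)) :
      Fin (n₁ + n₂) → Option κ → Option κ' → ℝ) =
      fun i => wt2 (Fin.append g₁ g₂ i) (Fin.append c₁ c₂ i) := by
  funext i
  refine Fin.addCases (fun j => ?_) (fun j => ?_) i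
  · rw [Fin.append_left, Fin.append_left, Fin.append_left]
  · rw [Fin.append_right, Fin.append_right, Fin.append_right]

theorem Lw_sq {n : ℕ} {X : ℝ} {F : Col n κ → ℝ} (hF : Lw X F) :
    Lw (X ^ 2) (fun x => (F x) ^ 2) := by
  have e1 := Lw_mul hF hF
  have e2 : (fun x => (F x) ^ 2) = fun x => F x * F x := by
    funext x; ring
  rw [e2, sq]
  exact e1

/-- collisions at the primes of the first block -/
def coll (PP : Finset ℕ) (res : ℕ → κ → ℤ) (res' : ℕ → κ' → ℤ) (i : Fin PP.card) (k : κ)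
    (l : κ') : Prop := ((emb PP i : ℕ) : ℤ) ∣ res (emb PP i) k - res' (emb PP i) l

/-- the second moment of a pair of windows -/
theorem pair_int {PP₁ PP₂ : Finset ℕ} (h₁ : ∀ p ∈ PP₁, p.Prime) (h₂ : ∀ p ∈ PP₂, p.Prime)
    (hd : Disjoint PP₁ PP₂)
    {h : Finset (Fin PP₂.card) → ℝ} {z K v₀ : ℝ}
    (H : HypS (fun i => ((emb PP₂ i : ℕ) : ℝ)) (fun i => 1 / ((emb PP₂ i : ℕ) : ℝ)) h z K v₀)
    (U δ Q θ Ξ m : ℝ)
    (hU : (Fintype.card κ : ℝ) ≤ U) (hU' : (Fintype.card κ' : ℝ) ≤ U)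
    (hUg₁ : ∀ i, U * (1 / ((emb PP₁ i : ℕ) : ℝ)) ≤ 1 / 2)
    (hUg : ∀ i, U * (1 / ((emb PP₂ i : ℕ) : ℝ)) ≤ 1 / 4)
    (hδ : ∀ D : Col PP₂.card κ, qq (fun i => ((emb PP₂ i : ℕ) : ℝ)) D ≤ Q →
      2 * ∑ i with D i ≠ none, 1 / ((emb PP₂ i : ℕ) : ℝ) ≤ δ)
    (hδ' : ∀ D : Col PP₂.card κ', qq (fun i => ((emb PP₂ i : ℕ) : ℝ)) D ≤ Q →
      2 * ∑ i with D i ≠ none, 1 / ((emb PP₂ i : ℕ) : ℝ) ≤ δ)
    (hθ : 6 * U ^ 2 * ∑ i, (1 / ((emb PP₂ i : ℕ) : ℝ)) ^ 2 + 3 * U * δ ≤ θ)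
    (bl : Fin PP₁.card → ℕ) (B : ℕ)
    (hbl : ∀ i, bl i < B) (M : ℕ → ℕ) (hM : ∀ j, Even (M j))
    (hΞ : ∀ j : ℕ, (j : ℝ) ≤ m → (∏ j ∈ range B, (1 + (1 / 3 : ℝ) ^ (M j) *
        Real.exp (256 * ∑ i with bl i = j, 1 / ((emb PP₁ i : ℕ) : ℝ)))) ^ j ≤ Ξ)
    (hm : Real.log Q / v₀ ≤ m) (hΞ0 : 0 ≤ Ξ)
    (res : ℕ → κ → ℤ) (res' : ℕ → κ' → ℤ)
    (hi₁ : ∀ p ∈ PP₁, ∀ k l, k ≠ l → ¬ ((p : ℤ) ∣ res p k - res p l))
    (hi₂ : ∀ p ∈ PP₂, ∀ k l, k ≠ l → ¬ ((p : ℤ) ∣ res p k - res p l))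
    (hi₁' : ∀ p ∈ PP₁, ∀ k l, k ≠ l → ¬ ((p : ℤ) ∣ res' p k - res' p l))
    (hi₂' : ∀ p ∈ PP₂, ∀ k l, k ≠ l → ¬ ((p : ℤ) ∣ res' p k - res' p l))
    (hno : ∀ p ∈ PP₂, ∀ k l, ¬ ((p : ℤ) ∣ res p k - res' p l))
    (X X' : ℝ)
    (hL : Lw X (fun x : Col (PP₁.card + PP₂.card) κ =>
      VB (fun i => ((emb PP₂ i : ℕ) : ℝ)) (fun i => 1 / ((emb PP₂ i : ℕ) : ℝ)) h Q bl B M
        (fstc x) (sndc x)))
    (hL' : Lw X' (fun x : Col (PP₁.card + PP₂.card) κ' =>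
      VB (fun i => ((emb PP₂ i : ℕ) : ℝ)) (fun i => 1 / ((emb PP₂ i : ℕ) : ℝ)) h Q bl B M
        (fstc x) (sndc x)))
    (A E : ℤ) (hAE : A ≤ E) :
    ∑ a ∈ Ioc A E,
      (VB (fun i => ((emb PP₂ i : ℕ) : ℝ)) (fun i => 1 / ((emb PP₂ i : ℕ) : ℝ)) h Q bl B M
        (fstc (colc PP₁ PP₂ res a)) (sndc (colc PP₁ PP₂ res a))) ^ 2 *
      (VB (fun i => ((emb PP₂ i : ℕ) : ℝ)) (fun i => 1 / ((emb PP₂ i : ℕ) : ℝ)) h Q bl B M
        (fstc (colc PP₁ PP₂ res' a)) (sndc (colc PP₁ PP₂ res' a))) ^ 2 ≤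
      ((E : ℝ) - A) * ((Real.exp θ * Ξ) ^ 2 *
        Real.exp (16384 * ∑ i, 1 / ((emb PP₁ i : ℕ) : ℝ) * ∑ k, ∑ l,
          (if coll PP₁ res res' i k l then 1 else 0)) *
        (Zw (om (fun i : Fin PP₁.card => 1 / ((emb PP₁ i : ℕ) : ℝ)) : Col PP₂.card κ → ℝ)
            (fun i => 1 / ((emb PP₂ i : ℕ) : ℝ)) h *
          Zw (om (fun i : Fin PP₁.card => 1 / ((emb PP₁ i : ℕ) : ℝ)) : Col PP₂.card κ' → ℝ)
            (fun i => 1 / ((emb PP₂ i : ℕ) : ℝ)) h)) + X ^ 2 * X' ^ 2 := by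
  set g₁ : Fin PP₁.card → ℝ := fun i => 1 / ((emb PP₁ i : ℕ) : ℝ) with hg₁
  set g₂ : Fin PP₂.card → ℝ := fun i => 1 / ((emb PP₂ i : ℕ) : ℝ) with hg₂
  set p : Fin PP₂.card → ℝ := fun i => ((emb PP₂ i : ℕ) : ℝ) with hp
  set c₁ : Fin PP₁.card → κ → κ' → Prop := coll PP₁ res res' with hc₁
  set c₂ : Fin PP₂.card → κ → κ' → Prop := fun _ _ _ => False with hc₂
  have hg₁0 : ∀ i, 0 ≤ g₁ i := fun i => by simp only [hg₁]; positivity
  have hcm : ∀ i k l l', c₁ i k l → c₁ i k l' → l = l' := by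
    intro i k l l' h1 h2
    by_contra hne
    apply hi₁' (emb PP₁ i) (emb_mem PP₁ i) l l' hne
    simp only [hc₁, coll] at h1 h2
    have := dvd_sub h2 h1
    have e : res (emb PP₁ i) k - res' (emb PP₁ i) l' - (res (emb PP₁ i) k - res' (emb PP₁ i) l) =
        res' (emb PP₁ i) l - res' (emb PP₁ i) l' := by ring
    rwa [e] at this
  have hcm' : ∀ i k k' l, c₁ i k l → c₁ i k' l → k = k' := by
    intro i k k' l h1 h2
    by_contra hne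
    apply hi₁ (emb PP₁ i) (emb_mem PP₁ i) k k' hne
    simp only [hc₁, coll] at h1 h2
    have := dvd_sub h1 h2
    have e : res (emb PP₁ i) k - res' (emb PP₁ i) l - (res (emb PP₁ i) k' - res' (emb PP₁ i) l) =
        res (emb PP₁ i) k - res (emb PP₁ i) k' := by ring
    rwa [e] at this
  have hmod := pair_model (κ := κ) (κ' := κ') H hg₁0 U δ Q θ Ξ m hU hU' hUg₁ hUg hδ hδ' hθ bl B
    hbl M hM hΞ hm hΞ0 c₁ hcm hcm'
  have hLam : ∀ (D : Col (PP₁.card + PP₂.card) κ) (D' : Col (PP₁.card + PP₂.card) κ'),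
      EE2 (Fin.append (fun i => wt2 (g₁ i) (c₁ i))
        (fun i => wt2 (g₂ i) (fun (_ : κ) (_ : κ') => False)))
        (fun x x' => ind D x * ind D' x') =
      ∏ i, lam2 (1 / ((PQ PP₁ PP₂ i : ℕ) : ℝ)) (Fin.append c₁ c₂ i) (D i) (D' i) := by
    intro D D'
    have e1 := append_wt2 (κ := κ) (κ' := κ') g₁ g₂ c₁ c₂
    have e2 : (Fin.append (fun i => wt2 (g₁ i) (c₁ i))
        (fun i => wt2 (g₂ i) (fun (_ : κ) (_ : κ') => False)) :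
        Fin (PP₁.card + PP₂.card) → Option κ → Option κ' → ℝ) =
        Fin.append (fun i => wt2 (g₁ i) (c₁ i)) (fun i => wt2 (g₂ i) (c₂ i)) := rfl
    rw [e2, e1, EE2_ind]
    refine Finset.prod_congr rfl fun i _ => ?_
    congr 1
    unfold PQ
    refine Fin.addCases (fun j => ?_) (fun j => ?_) i
    · rw [Fin.append_left, Fin.append_left]
    · rw [Fin.append_right, Fin.append_right]
  have hcnt : ∀ (D : Col (PP₁.card + PP₂.card) κ) (D' : Col (PP₁.card + PP₂.card) κ'),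
      |(((Ioc A E).filter (fun a => (∀ i, D i ≠ none → colc PP₁ PP₂ res a i = D i) ∧
        (∀ i, D' i ≠ none → colc PP₁ PP₂ res' a i = D' i))).card : ℝ) -
      ((E : ℝ) - A) * ∏ i, lam2 (1 / ((PQ PP₁ PP₂ i : ℕ) : ℝ)) (Fin.append c₁ c₂ i) (D i)
        (D' i)| ≤ 1 := by
    intro D D'
    refine count2 (PQ PP₁ PP₂) (PQ_pos h₁ h₂) (PQ_cop h₁ h₂ hd) (colc PP₁ PP₂ res)
      (colc PP₁ PP₂ res') (fun i k => res (PQ PP₁ PP₂ i) k) (fun i k => res' (PQ PP₁ PP₂ i) k)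
      (colc_iff hi₁ hi₂) (colc_iff hi₁' hi₂') (Fin.append c₁ c₂) ?_ A E hAE D D'
    intro i k l
    unfold PQ
    refine Fin.addCases (fun j => ?_) (fun j => ?_) i
    · rw [Fin.append_left, Fin.append_left]
      simp only [hc₁, coll]
    · rw [Fin.append_right, Fin.append_right]
      simp only [hc₂, false_iff]
      exact hno (emb PP₂ j) (emb_mem PP₂ j) k l
  have hL2 := Lw_sq hL
  have hL2' := Lw_sq hL'
  have htr := transfer2 (Ioc A E) (colc PP₁ PP₂ res) (colc PP₁ PP₂ res') _ _ hLam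
    ((E : ℝ) - A) 1 _ _ zero_le_one hcnt _ _ hL2 hL2'
  have hN : 0 ≤ (E : ℝ) - A := by
    have : (A : ℝ) ≤ E := by exact_mod_cast hAE
    linarith
  have e1 := (abs_le.1 htr).2
  have e2 := mul_le_mul_of_nonneg_left hmod hN
  linarith

end Pool.Agent.T2h81.UC
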