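import Pool.Agent.T2h81.UC.B2

set_option autoImplicit false
set_option linter.unusedSectionVars false
set_option linter.unusedVariables false
set_option maxHeartbeats 4000000

/-! # Grouping, and the average over the classes -/

namespace Pool.Agent.T2h81.UC

open Finset Filter Pool.Agent.H256R2.SC Pool.Agent.Y831.RC

open scoped Classical

/-- sequential choice of groups without conflicts -/
theorem seq_groups (G : Finset ℕ) (cf : ℕ → ℕ → Prop) (J₀ d : ℕ) (hJ : 0 < J₀)
    (hd : ∀ i ∈ G, (G.filter (fun j => cf i j)).card ≤ d) (K : ℕ) (hK : K + J₀ * d ≤ G.card) :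
    ∃ a : ℕ → ℕ, ∀ k < K, a k ∈ G ∧ ∀ k' < k, a k' ≠ a k ∧ (k' / J₀ = k / J₀ → ¬ cf (a k') (a k)) := by
  induction K with
  | zero => exact ⟨fun _ => 0, fun k hk => absurd hk (Nat.not_lt_zero _)⟩
  | succ K ih =>
    obtain ⟨a, ha⟩ := ih (by omega)
    set Q : Finset ℕ := (range K).filter (fun k' => k' / J₀ = K / J₀) with hQ
    set E : Finset ℕ := (range K).image a ∪ Q.biUnion (fun k' => G.filter (fun j => cf (a k') j)) with hE
    have hQc : Q.card ≤ J₀ := by
      have h1 : Q ⊆ Finset.Ico (J₀ * (K / J₀)) (J₀ * (K / J₀) + J₀) := by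
        intro k' hk'
        have h2 := (Finset.mem_filter.1 hk').2
        rw [Finset.mem_Ico, ← h2]
        have h3 := Nat.div_add_mod k' J₀
        have h4 := Nat.mod_lt k' hJ
        constructor <;> omega
      have h2 := Finset.card_le_card h1
      rw [Nat.card_Ico] at h2
      omega
    have hEc : E.card ≤ K + J₀ * d := by
      refine (Finset.card_union_le _ _).trans ?_
      apply add_le_add
      · exact Finset.card_image_le.trans (by rw [Finset.card_range])
      · refine Finset.card_biUnion_le.trans ?_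
        calc ∑ k' ∈ Q, (G.filter (fun j => cf (a k') j)).card ≤ ∑ _k' ∈ Q, d := by
              apply Finset.sum_le_sum
              intro k' hk'
              have h1 := Finset.mem_range.1 (Finset.mem_filter.1 hk').1
              exact hd _ (ha k' h1).1
          _ = Q.card * d := by rw [Finset.sum_const, smul_eq_mul]
          _ ≤ _ := Nat.mul_le_mul_right _ hQc
    obtain ⟨x, hxG, hxE⟩ : ∃ x ∈ G, x ∉ E := by
      by_contra hcon
      push Not at hcon
      have h1 : G ⊆ E := fun x hx => hcon x hx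
      have h2 := Finset.card_le_card h1
      omega
    refine ⟨Function.update a K x, ?_⟩
    intro k hk
    rcases Nat.lt_succ_iff_lt_or_eq.1 hk with h | h
    · rw [Function.update_of_ne (by omega)]
      refine ⟨(ha k h).1, fun k' hk' => ?_⟩
      rw [Function.update_of_ne (by omega)]
      exact (ha k h).2 k' hk'
    · subst h
      rw [Function.update_self]
      refine ⟨hxG, fun k' hk' => ?_⟩
      rw [Function.update_of_ne (by omega)]
      constructor
      · intro h
        apply hxE
        rw [hE, Finset.mem_union]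
        left
        rw [Finset.mem_image]
        exact ⟨k', Finset.mem_range.2 hk', h⟩
      · intro h hc
        apply hxE
        rw [hE, Finset.mem_union]
        right
        rw [Finset.mem_biUnion]
        refine ⟨k', ?_, ?_⟩
        · rw [hQ, Finset.mem_filter, Finset.mem_range]
          exact ⟨hk', h⟩
        · rw [Finset.mem_filter]
          exact ⟨hxG, hc⟩

/-- from groups to the number of covered sets -/
theorem group_count (S : Finset ℤ) (z : ℝ) (V : ℕ → Finset ℤ) (m J₀ g : ℕ) (hg : 0 < g) (a : ℕ → ℕ)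
    (ha : ∀ k < g * J₀, a k < m ∧ ∀ k' < k, a k' ≠ a k) (Bd : ℝ)
    (hb : ∀ r < g, ((S.filter (fun n => ¬ ∃ s : Fin J₀, CovS z (V (a (r * J₀ + s))) n)).card : ℝ) ≤ Bd) :
    ((S.filter (fun n => (((range m).filter (fun i => CovS z (V i) n)).card : ℝ) < g / 2)).card : ℝ) ≤
      2 * Bd := by
  have hg0 : (0:ℝ) < g := by exact_mod_cast hg
  set bad : ℤ → Finset ℕ := fun n => (range g).filter (fun r => ¬ ∃ s : Fin J₀, CovS z (V (a (r * J₀ + s))) n)
    with hbad
  set good : ℤ → Finset ℕ := fun n => (range g).filter (fun r => ∃ s : Fin J₀, CovS z (V (a (r * J₀ + s))) n)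
    with hgood
  have hsum : ∀ n, (good n).card + (bad n).card = g := by
    intro n
    have := Finset.card_filter_add_card_filter_not (s := range g)
      (fun r => ∃ s : Fin J₀, CovS z (V (a (r * J₀ + s))) n)
    rw [Finset.card_range] at this
    exact this
  have hinj : ∀ k < g * J₀, ∀ k' < g * J₀, a k = a k' → k = k' := by
    intro k hk k' hk' h
    rcases lt_trichotomy k k' with h1 | h1 | h1
    · exact absurd h ((ha k' hk').2 k h1)
    · exact h1
    · exact absurd h.symm ((ha k hk).2 k' h1)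
  have hlt : ∀ r < g, ∀ s : Fin J₀, r * J₀ + s < g * J₀ := by
    intro r hr s
    have h1 := s.2
    calc r * J₀ + (s : ℕ) < r * J₀ + J₀ := by omega
      _ = (r + 1) * J₀ := by ring
      _ ≤ g * J₀ := Nat.mul_le_mul_right _ hr
  have hcov : ∀ n, (good n).card ≤ ((range m).filter (fun i => CovS z (V i) n)).card := by
    intro n
    have hex : ∀ r, ∃ s : ℕ, r ∈ good n → s < J₀ ∧ CovS z (V (a (r * J₀ + s))) n := by
      intro r
      by_cases h : r ∈ good n
      · obtain ⟨s, hs⟩ := (Finset.mem_filter.1 h).2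
        exact ⟨s, fun _ => ⟨s.2, hs⟩⟩
      · exact ⟨0, fun h' => absurd h' h⟩
    choose f hf using hex
    apply Finset.card_le_card_of_injOn (fun r => a (r * J₀ + f r))
    · intro r hr
      rw [Finset.mem_coe] at hr
      obtain ⟨h1, h2⟩ := hf r hr
      have hr' := Finset.mem_range.1 (Finset.mem_filter.1 hr).1
      rw [Finset.mem_coe, Finset.mem_filter, Finset.mem_range]
      exact ⟨(ha _ (hlt r hr' ⟨f r, h1⟩)).1, h2⟩
    · intro r hr r' hr' h
      rw [Finset.mem_coe] at hr hr'
      obtain ⟨h1, h2⟩ := hf r hr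
      obtain ⟨h1', h2'⟩ := hf r' hr'
      have hr1 := Finset.mem_range.1 (Finset.mem_filter.1 hr).1
      have hr1' := Finset.mem_range.1 (Finset.mem_filter.1 hr').1
      have h3 := hinj _ (hlt r hr1 ⟨f r, h1⟩) _ (hlt r' hr1' ⟨f r', h1'⟩) h
      have h4 : (r * J₀ + f r) / J₀ = (r' * J₀ + f r') / J₀ := by
        have : r * J₀ + f r = r' * J₀ + f r' := h3
        rw [this]
      have hJ : 0 < J₀ := by omega
      rwa [mul_comm r, mul_comm r', Nat.mul_add_div hJ, Nat.mul_add_div hJ, Nat.div_eq_of_lt h1,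
        Nat.div_eq_of_lt h1', add_zero, add_zero] at h4
  set T : Finset ℤ := S.filter (fun n => (((range m).filter (fun i => CovS z (V i) n)).card : ℝ) < g / 2)
    with hT
  have h1 : (g : ℝ) / 2 * T.card ≤ ∑ n ∈ T, ((bad n).card : ℝ) := by
    rw [mul_comm, ← nsmul_eq_mul, ← Finset.sum_const]
    apply Finset.sum_le_sum
    intro n hn
    have h2 := (Finset.mem_filter.1 hn).2
    have h3 : ((good n).card : ℝ) < g / 2 := lt_of_le_of_lt (by exact_mod_cast hcov n) h2
    have h4 : ((good n).card : ℝ) + (bad n).card = g := by exact_mod_cast hsum n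
    linarith
  have h2 : ∑ n ∈ T, ((bad n).card : ℝ) ≤ ∑ n ∈ S, ((bad n).card : ℝ) :=
    Finset.sum_le_sum_of_subset_of_nonneg (Finset.filter_subset _ _) fun _ _ _ => Nat.cast_nonneg _
  have h3 : ∑ n ∈ S, ((bad n).card : ℝ) = ∑ r ∈ range g,
      ((S.filter (fun n => ¬ ∃ s : Fin J₀, CovS z (V (a (r * J₀ + s))) n)).card : ℝ) := by
    have : ∑ n ∈ S, (bad n).card = ∑ r ∈ range g,
      (S.filter (fun n => ¬ ∃ s : Fin J₀, CovS z (V (a (r * J₀ + s))) n)).card := by
      simp only [hbad]
      exact Finset.sum_card_bipartiteAbove_eq_sum_card_bipartiteBelow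
        (fun n r => ¬ ∃ s : Fin J₀, CovS z (V (a (r * J₀ + s))) n)
    exact_mod_cast this
  have h4 : ∑ r ∈ range g,
      ((S.filter (fun n => ¬ ∃ s : Fin J₀, CovS z (V (a (r * J₀ + s))) n)).card : ℝ) ≤ g * Bd := by
    calc _ ≤ ∑ _r ∈ range g, Bd := Finset.sum_le_sum fun r hr => hb r (Finset.mem_range.1 hr)
      _ = g * Bd := by rw [Finset.sum_const, Finset.card_range, nsmul_eq_mul]
  have h5 : (g : ℝ) / 2 * T.card ≤ g * Bd := h1.trans (h2.trans (h3.le.trans h4))
  have h6 : (g : ℝ) * T.card ≤ g * (2 * Bd) := by linarith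
  exact le_of_mul_le_mul_left h6 hg0

/-- every integer is prime to `P` in the expected number of classes -/
theorem sum_sv (P : ℕ) (hP : 0 < P) (V : Finset ℤ) :
    ∑ b ∈ range P, (sv P (b : ℤ) V).card = V.card * P.totient := by
  unfold sv
  simp_rw [Finset.card_filter]
  rw [Finset.sum_comm]
  rw [← smul_eq_mul, ← Finset.sum_const]
  apply Finset.sum_congr rfl
  intro v _
  rw [← Finset.card_filter]
  have hPz : (0 : ℤ) < P := by exact_mod_cast hP
  obtain ⟨v', hv'⟩ : ∃ v' : ℕ, (v' : ℤ) = v % P := ⟨(v % P).toNat, Int.toNat_of_nonneg (Int.emod_nonneg _ hPz.ne')⟩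
  rw [← Nat.filter_coprime_Ico_eq_totient P v']
  apply Finset.card_bij (fun b _ => b + v')
  · intro b hb
    rw [Finset.mem_filter, Finset.mem_range] at hb
    rw [Finset.mem_filter, Finset.mem_Ico]
    refine ⟨⟨by omega, by omega⟩, ?_⟩
    have h1 : Int.gcd ((b : ℤ) + v) P = Int.gcd ((b : ℤ) + v') P := by
      rw [hv']
      rw [Int.gcd_comm, Int.gcd_comm _ (P : ℤ)]
      have h2 : (b : ℤ) + v = ((b : ℤ) + v % P) + P * (v / P) := by
        have := Int.emod_add_mul_ediv v P
        linarith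
      rw [h2]
      exact Int.gcd_add_mul_left_right ..
    have h3 := hb.2
    rw [h1] at h3
    have h4 : ((b : ℤ) + v') = ((b + v' : ℕ) : ℤ) := by push_cast; ring
    rw [h4, Int.gcd_natCast_natCast] at h3
    rw [Nat.coprime_comm]
    exact h3
  · intro b _ b' _ h
    omega
  · intro c hc
    rw [Finset.mem_filter, Finset.mem_Ico] at hc
    refine ⟨c - v', ?_, by omega⟩
    rw [Finset.mem_filter, Finset.mem_range]
    refine ⟨by omega, ?_⟩
    have h4 : (((c - v' : ℕ) : ℤ) + v') = ((c : ℕ) : ℤ) := by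
      have : v' ≤ c := hc.1.1
      push_cast [Nat.cast_sub this]
      ring
    have h1 : Int.gcd (((c - v' : ℕ) : ℤ) + v) P = Int.gcd (((c - v' : ℕ) : ℤ) + v') P := by
      rw [hv']
      rw [Int.gcd_comm, Int.gcd_comm _ (P : ℤ)]
      have h2 : ((c - v' : ℕ) : ℤ) + v = (((c - v' : ℕ) : ℤ) + v % P) + P * (v / P) := by
        have := Int.emod_add_mul_ediv v P
        linarith
      rw [h2]
      exact Int.gcd_add_mul_left_right ..
    rw [h1, h4, Int.gcd_natCast_natCast]
    exact hc.2.symm

/-- the totient of the primorial -/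
theorem tot_primorial (x : ℝ) (hx : 0 ≤ x) :
    ((primorial ⌊x⌋₊).totient : ℝ) = primorial ⌊x⌋₊ * WW x := by
  have h1 := Nat.totient_eq_mul_prod_factors (primorial ⌊x⌋₊)
  have h2 : ((primorial ⌊x⌋₊).totient : ℝ) =
      primorial ⌊x⌋₊ * ∏ p ∈ (primorial ⌊x⌋₊).primeFactors, (1 - (p : ℝ)⁻¹) := by
    have := congrArg (fun q : ℚ => (q : ℝ)) h1
    push_cast at this
    exact this
  rw [h2]
  congr 1
  unfold WW
  have h3 : (primorial ⌊x⌋₊).primeFactors = (Finset.Icc 1 ⌊x⌋₊).filter Nat.Prime := by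
    ext p
    rw [Nat.mem_primeFactors, Finset.mem_filter, Finset.mem_Icc]
    constructor
    · rintro ⟨h1, h2, _⟩
      exact ⟨⟨h1.one_lt.le, (h1.dvd_primorial_iff).1 h2⟩, h1⟩
    · rintro ⟨⟨_, h2⟩, h3⟩
      exact ⟨h3, (h3.dvd_primorial_iff).2 h2, (primorial_pos _).ne'⟩
  rw [h3]
  apply Finset.prod_congr rfl
  intro p _
  rw [one_div]

end Pool.Agent.T2h81.UC
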