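import Mathlib
import Pool.Agent.N837.LP.SumA
import Pool.Agent.N837.LP.Tot
import Pool.Agent.H95R2.Leh.ApSieve

set_option autoImplicit false
set_option linter.unusedVariables false

/-! # The small and the large prime factors of a modulus -/

namespace Pool.Agent.T2h81.UC

open Finset

open scoped Classical

/-- the product of the prime factors of `d` up to `x` -/
noncomputable def gs (d : ℕ) (x : ℝ) : ℕ := ∏ p ∈ d.primeFactors.filter (fun p : ℕ => (p : ℝ) ≤ x), p

theorem gs_pos (d : ℕ) (x : ℝ) : 0 < gs d x := by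
  unfold gs
  exact Finset.prod_pos fun p hp => (Nat.prime_of_mem_primeFactors (Finset.mem_filter.1 hp).1).pos

theorem gs_primeFactors (d : ℕ) (x : ℝ) : (gs d x).primeFactors =
    d.primeFactors.filter (fun p : ℕ => (p : ℝ) ≤ x) := by
  unfold gs
  exact Nat.primeFactors_prod fun p hp => Nat.prime_of_mem_primeFactors (Finset.mem_filter.1 hp).1

theorem prime_dvd_gs {d : ℕ} (hd : 0 < d) {x : ℝ} {p : ℕ} (hp : p.Prime) :
    p ∣ gs d x ↔ p ∣ d ∧ (p : ℝ) ≤ x := by
  have h1 : p ∈ (gs d x).primeFactors ↔ p ∈ d.primeFactors.filter (fun p : ℕ => (p : ℝ) ≤ x) := by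
    rw [gs_primeFactors]
  rw [Nat.mem_primeFactors, Finset.mem_filter, Nat.mem_primeFactors] at h1
  constructor
  · intro h
    have := h1.1 ⟨hp, h, (gs_pos d x).ne'⟩
    exact ⟨this.1.2.1, this.2⟩
  · intro h
    exact (h1.2 ⟨⟨hp, h.1, hd.ne'⟩, h.2⟩).2.1

theorem gs_dvd_primorial (d : ℕ) {x : ℝ} (hx : 0 ≤ x) : gs d x ∣ primorial ⌊x⌋₊ := by
  unfold gs
  apply Finset.prod_primes_dvd
  · intro p hp
    exact (Nat.prime_of_mem_primeFactors (Finset.mem_filter.1 hp).1).prime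
  · intro p hp
    have hp' := Nat.prime_of_mem_primeFactors (Finset.mem_filter.1 hp).1
    rw [hp'.dvd_primorial_iff]
    exact Nat.le_floor (Finset.mem_filter.1 hp).2

theorem coprime_gs {d : ℕ} (hd : 0 < d) {x : ℝ} {n : ℕ} (h : n.Coprime d) : n.Coprime (gs d x) := by
  by_contra hc
  rw [Nat.Prime.not_coprime_iff_dvd] at hc
  obtain ⟨p, hp, h1, h2⟩ := hc
  exact (Nat.Prime.not_coprime_iff_dvd.2 ⟨p, hp, h1, ((prime_dvd_gs hd hp).1 h2).1⟩) h

/-- an integer prime to the small part but not prime to `d` is divisible by a large prime factor -/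
theorem exists_large {d : ℕ} (hd : 0 < d) {x : ℝ} {n : ℕ} (h : n.Coprime (gs d x)) (h' : ¬ n.Coprime d) :
    ∃ p ∈ d.primeFactors.filter (fun p : ℕ => x < p), p ∣ n := by
  rw [Nat.Prime.not_coprime_iff_dvd] at h'
  obtain ⟨p, hp, h1, h2⟩ := h'
  refine ⟨p, ?_, h1⟩
  rw [Finset.mem_filter, Nat.mem_primeFactors]
  refine ⟨⟨hp, h2, hd.ne'⟩, ?_⟩
  by_contra hc
  push Not at hc
  exact (Nat.Prime.not_coprime_iff_dvd.2 ⟨p, hp, h1, (prime_dvd_gs hd hp).2 ⟨h2, hc⟩⟩) h

theorem sum_large (d : ℕ) (hd : 0 < d) (x : ℝ) (hx : 1 < x) :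
    ∑ p ∈ d.primeFactors.filter (fun p : ℕ => x < p), (1:ℝ) / p ≤ Real.log d / (x * Real.log x) := by
  have h1 := Pool.Agent.N837.LP.card_large_primes d hd x hx
  have hlx : 0 < Real.log x := Real.log_pos hx
  have hx0 : 0 < x := by linarith
  calc ∑ p ∈ d.primeFactors.filter (fun p : ℕ => x < p), (1:ℝ) / p
      ≤ ∑ _p ∈ d.primeFactors.filter (fun p : ℕ => x < p), 1 / x := by
        apply Finset.sum_le_sum
        intro p hp
        exact one_div_le_one_div_of_le hx0 (Finset.mem_filter.1 hp).2.le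
    _ = ((d.primeFactors.filter (fun p : ℕ => x < p)).card : ℝ) * (1 / x) := by
        rw [Finset.sum_const, nsmul_eq_mul]
    _ ≤ Real.log d / Real.log x * (1 / x) := by
        apply mul_le_mul_of_nonneg_right _ (by positivity)
        convert h1
    _ = _ := by field_simp

theorem prod_ge (S : Finset ℕ) (f : ℕ → ℝ) (hf : ∀ p ∈ S, 0 ≤ f p ∧ f p ≤ 1) :
    1 - ∑ p ∈ S, f p ≤ ∏ p ∈ S, (1 - f p) := by
  induction S using Finset.induction_on with
  | empty => simp
  | insert a S ha ih =>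
    rw [Finset.sum_insert ha, Finset.prod_insert ha]
    have h1 := ih fun p hp => hf p (Finset.mem_insert_of_mem hp)
    obtain ⟨h2, h3⟩ := hf a (Finset.mem_insert_self _ _)
    have h4 : ∏ p ∈ S, (1 - f p) ≤ 1 := by
      apply Finset.prod_le_one
      · intro p hp
        have := (hf p (Finset.mem_insert_of_mem hp)).2
        linarith
      · intro p hp
        have := (hf p (Finset.mem_insert_of_mem hp)).1
        linarith
    nlinarith

theorem tot_prod (n : ℕ) : (n.totient : ℝ) = n * ∏ p ∈ n.primeFactors, (1 - 1 / (p : ℝ)) := by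
  have h1 := Nat.totient_eq_mul_prod_factors n
  have := congrArg (fun q : ℚ => (q : ℝ)) h1
  push_cast at this
  simp only [one_div]
  exact this

/-- the density of the integers prime to `d` is comparable to the one for the small part -/
theorem tot_gs (d : ℕ) (hd : 0 < d) (x : ℝ)
    (h : ∑ p ∈ d.primeFactors.filter (fun p : ℕ => x < p), (1:ℝ) / p ≤ 1 / 2) :
    ((gs d x).totient : ℝ) * d ≤ 2 * (d.totient * (gs d x : ℝ)) := by
  have hA := tot_prod d
  have hB := tot_prod (gs d x)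
  rw [gs_primeFactors] at hB
  have hsplit := Finset.prod_filter_mul_prod_filter_not d.primeFactors (fun p : ℕ => (p : ℝ) ≤ x)
    (fun p : ℕ => 1 - 1 / (p : ℝ))
  have hnot : d.primeFactors.filter (fun p : ℕ => ¬ (p : ℝ) ≤ x) =
      d.primeFactors.filter (fun p : ℕ => x < p) := by
    apply Finset.filter_congr
    intro p _
    rw [not_le]
  rw [hnot] at hsplit
  have h1 := prod_ge (d.primeFactors.filter (fun p : ℕ => x < p)) (fun p => 1 / (p : ℝ)) (by
    intro p hp
    have h2 := (Nat.prime_of_mem_primeFactors (Finset.mem_filter.1 hp).1).one_lt.le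
    have h3 : (1:ℝ) ≤ p := by exact_mod_cast h2
    refine ⟨by positivity, ?_⟩
    rw [div_le_one (by linarith)]
    exact h3)
  have h2 : (1:ℝ) / 2 ≤ ∏ p ∈ d.primeFactors.filter (fun p : ℕ => x < p), (1 - 1 / (p : ℝ)) := by
    have h3 : ∑ p ∈ d.primeFactors.filter (fun p : ℕ => x < p), (1:ℝ) / p ≤ 1 / 2 := by convert h
    linarith
  set A := ∏ p ∈ d.primeFactors.filter (fun p : ℕ => (p : ℝ) ≤ x), (1 - 1 / (p : ℝ)) with hAd
  set B := ∏ p ∈ d.primeFactors.filter (fun p : ℕ => x < p), (1 - 1 / (p : ℝ)) with hBd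
  have hA0 : 0 ≤ A := by
    apply Finset.prod_nonneg
    intro p hp
    have h2 := (Nat.prime_of_mem_primeFactors (Finset.mem_filter.1 hp).1).one_lt.le
    have h3 : (1:ℝ) ≤ p := by exact_mod_cast h2
    rw [sub_nonneg, div_le_one (by linarith)]
    exact h3
  have hd0 : (0:ℝ) ≤ d := Nat.cast_nonneg _
  have hg0 : (0:ℝ) ≤ gs d x := Nat.cast_nonneg _
  rw [hA, ← hsplit]
  have hB' : ((gs d x).totient : ℝ) = gs d x * A := by
    rw [hB]
  rw [hB']
  have h4 : 0 ≤ (gs d x : ℝ) * A * d := by positivity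
  nlinarith

/-- the number of survivors in a progression -/
theorem surv_ap : ∃ Cs : ℝ, 1 ≤ Cs ∧ ∀ (a d F : ℕ) (x : ℝ), 1 ≤ d → 2 ≤ F → 0 ≤ x → (F : ℝ) < x ^ 8 →
    (((range F).filter (fun k => (primorial ⌊x⌋₊).Coprime (a + k * d))).card : ℝ) ≤
      Cs * ((d : ℝ) / d.totient) * F / Real.log F := by
  obtain ⟨Cs, hCs, h⟩ := Pool.Agent.H95R2.Leh.ap_sieve
  refine ⟨Cs, hCs, ?_⟩
  intro a d F x hd hF hx hFx
  refine le_trans ?_ (h a d F hd hF)
  rw [Nat.cast_le]
  apply Finset.card_le_card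
  intro k hk
  rw [Finset.mem_filter] at hk ⊢
  refine ⟨hk.1, ?_⟩
  intro p hp hp8 hdvd
  have hpx : (p : ℝ) ≤ x := by
    by_contra hcon
    push Not at hcon
    have g2 : x ^ 8 < (p : ℝ) ^ 8 := pow_lt_pow_left₀ hcon hx (by norm_num)
    linarith
  have hpP : p ∣ primorial ⌊x⌋₊ := (hp.dvd_primorial_iff).2 ((Nat.le_floor_iff hx).2 hpx)
  exact (Nat.Prime.not_coprime_iff_dvd.2 ⟨p, hp, hpP, hdvd⟩) hk.2

end Pool.Agent.T2h81.UC
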