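import Pool.Agent.T2h81.UC.C1

set_option autoImplicit false
set_option linter.unusedVariables false

/-! # The integers prime to a modulus which follow an integer -/

namespace Pool.Agent.T2h81.UC

open Finset

open scoped Classical

/-- the shifts of `b` prime to `g` -/
def tp (g b t : ℕ) : Prop := 0 < t ∧ (b + t).Coprime g

/-- the shift number `i` -/
noncomputable def tt (g b i : ℕ) : ℕ := Nat.nth (tp g b) i

/-- the integer number `i` after `n` prime to `d` -/
noncomputable def rr (d n i : ℕ) : ℕ := Nat.nth (fun a => n < a ∧ a.Coprime d) i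

theorem tp_ap (g b : ℕ) (hg : 0 < g) : ∃ t₀ : ℕ, 1 ≤ t₀ ∧ t₀ ≤ g ∧ ∀ j : ℕ, tp g b (t₀ + j * g) := by
  set r : ℕ := (b + (g - 1)) % g with hr
  have hrg : r < g := Nat.mod_lt _ hg
  refine ⟨g - r, by omega, by omega, fun j => ⟨by omega, ?_⟩⟩
  have h1 := Nat.div_add_mod (b + (g - 1)) g
  rw [← hr] at h1
  set q := (b + (g - 1)) / g with hq
  have h2 : b + (g - r + j * g) = g * (q + j) + 1 := by
    have : g * (q + j) = g * q + j * g := by ring
    rw [this]
    omega
  rw [h2]
  simp

theorem tp_infinite (g b : ℕ) (hg : 0 < g) : (Set.ofPred (tp g b)).Infinite := by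
  obtain ⟨t₀, h1, h2, h3⟩ := tp_ap g b hg
  apply Set.infinite_of_forall_exists_gt
  intro a
  refine ⟨t₀ + a * g, h3 a, ?_⟩
  have : a * 1 ≤ a * g := Nat.mul_le_mul_left _ hg
  omega

theorem tt_mem (g b i : ℕ) (hg : 0 < g) : tp g b (tt g b i) :=
  Nat.nth_mem_of_infinite (tp_infinite g b hg) i

theorem tt_strict (g b : ℕ) (hg : 0 < g) : StrictMono (tt g b) :=
  Nat.nth_strictMono (tp_infinite g b hg)

theorem tt_le (g b i : ℕ) (hg : 0 < g) : tt g b i ≤ (i + 1) * g := by
  obtain ⟨t₀, h1, h2, h3⟩ := tp_ap g b hg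
  have h4 : tt g b i ≤ t₀ + i * g := by
    unfold tt
    apply Nat.nth_le_of_strictMonoOn_of_mapsTo (fun j => t₀ + j * g)
    · intro j _
      exact h3 j
    · intro j _ j' _ h
      have : j * g < j' * g := Nat.mul_lt_mul_of_pos_right h hg
      show t₀ + j * g < t₀ + j' * g
      omega
  have : (i + 1) * g = i * g + g := by ring
  omega

theorem rr_of (d g b n i : ℕ) (hg : 0 < g) (hgd : ∀ a : ℕ, a.Coprime d → a.Coprime g)
    (hnb : ∀ t : ℕ, (n + t).Coprime g → (b + t).Coprime g)
    (h : (n + tt g b i).Coprime d) : ∃ j ≤ i, rr d n j = n + tt g b i := by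
  set q : ℕ → Prop := fun a => n < a ∧ a.Coprime d with hq
  have hmem := tt_mem g b i hg
  have hqa : q (n + tt g b i) := ⟨by have := hmem.1; omega, h⟩
  refine ⟨Nat.count q (n + tt g b i), ?_, Nat.nth_count hqa⟩
  rw [Nat.count_eq_card_filter_range]
  have h1 : ∀ a, q a → tp g b (a - n) := by
    intro a ha
    refine ⟨by have := ha.1; omega, hnb _ ?_⟩
    have : n + (a - n) = a := by have := ha.1; omega
    rw [this]
    exact hgd a ha.2
  have h2 : ((range (n + tt g b i)).filter q).card ≤ (range i).card := by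
    apply Finset.card_le_card_of_injOn (fun a => Nat.count (tp g b) (a - n))
    · intro a ha
      rw [Finset.mem_coe, Finset.mem_filter, Finset.mem_range] at ha
      rw [Finset.mem_coe, Finset.mem_range]
      have h3 := h1 a ha.2
      have h4 : tt g b (Nat.count (tp g b) (a - n)) = a - n := Nat.nth_count h3
      have h5 : tt g b (Nat.count (tp g b) (a - n)) < tt g b i := by
        rw [h4]
        have := ha.1
        have := ha.2.1
        omega
      exact (tt_strict g b hg).lt_iff_lt.1 h5
    · intro a ha a' ha' hh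
      rw [Finset.mem_coe, Finset.mem_filter, Finset.mem_range] at ha ha'
      have h4 : tt g b (Nat.count (tp g b) (a - n)) = a - n := Nat.nth_count (h1 a ha.2)
      have h4' : tt g b (Nat.count (tp g b) (a' - n)) = a' - n := Nat.nth_count (h1 a' ha'.2)
      have h5 : Nat.count (tp g b) (a - n) = Nat.count (tp g b) (a' - n) := hh
      rw [h5, h4'] at h4
      have := ha.2.1
      have := ha'.2.1
      omega
  rwa [Finset.card_range] at h2

/-- the least prime of the class of `a` modulo `d` is larger than `Z` -/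
def Late (d : ℕ) (Z : ℝ) (a : ℕ) : Prop := ∀ p : ℕ, p.Prime → p ≡ a [MOD d] → Z < p

/-- a covered progression has no small prime -/
theorem late_of (d F a : ℕ) (Z z : ℝ) (hd : 0 < d) (had : a < d) (haz : z < a) (hF : Z < F * d)
    (hcov : ∀ k < F, ∃ p : ℕ, p.Prime ∧ (p : ℝ) ≤ z ∧ p ∣ a + k * d) : Late d Z a := by
  intro p hp hpa
  by_contra hc
  push Not at hc
  have h1 : p % d = a := by
    have := hpa
    unfold Nat.ModEq at this
    rw [this, Nat.mod_eq_of_lt had]
  have h2 := Nat.mod_add_div p d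
  rw [h1] at h2
  have h3 : p / d < F := by
    by_contra hcon
    push Not at hcon
    have h4 : F * d ≤ (p / d) * d := Nat.mul_le_mul_right _ hcon
    have h5 : F * d ≤ p := by
      have : d * (p / d) = (p / d) * d := mul_comm _ _
      omega
    have h6 : (F : ℝ) * d ≤ p := by exact_mod_cast h5
    linarith
  obtain ⟨q, hq, hqz, hqd⟩ := hcov (p / d) h3
  have h4 : a + p / d * d = p := by rw [mul_comm (p / d)]; exact h2
  rw [h4] at hqd
  have h5 : q = p := (Nat.prime_dvd_prime_iff_eq hq hp).1 hqd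
  rw [h5] at hqz
  have h6 : (a : ℝ) ≤ p := by
    have : a ≤ p := by omega
    exact_mod_cast this
  linarith

/-- the number of the next residues which are late, from the number of covered shifts -/
theorem late_count (d g b n m F : ℕ) (Z z : ℝ) (hd : 0 < d) (hg : 0 < g)
    (hgd : ∀ a : ℕ, a.Coprime d → a.Coprime g)
    (hnb : ∀ t : ℕ, (n + t).Coprime g → (b + t).Coprime g) (hnz : z < n)
    (hnd : ∀ i < m, n + tt g b i < d) (hF : Z < F * d) :
    ((range m).filter (fun i => (∀ k < F, ∃ p : ℕ, p.Prime ∧ (p : ℝ) ≤ z ∧ p ∣ n + tt g b i + k * d) ∧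
      (n + tt g b i).Coprime d)).card ≤ ((range m).filter (fun j => Late d Z (rr d n j))).card := by
  set A := (range m).filter (fun i => (∀ k < F, ∃ p : ℕ, p.Prime ∧ (p : ℝ) ≤ z ∧
    p ∣ n + tt g b i + k * d) ∧ (n + tt g b i).Coprime d) with hA
  have hex : ∀ i, ∃ j, i ∈ A → j ≤ i ∧ rr d n j = n + tt g b i := by
    intro i
    by_cases h : i ∈ A
    · obtain ⟨j, hj1, hj2⟩ := rr_of d g b n i hg hgd hnb (Finset.mem_filter.1 h).2.2
      exact ⟨j, fun _ => ⟨hj1, hj2⟩⟩
    · exact ⟨0, fun h' => absurd h' h⟩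
  choose f hf using hex
  apply Finset.card_le_card_of_injOn f
  · intro i hi
    rw [Finset.mem_coe] at hi
    obtain ⟨h1, h2⟩ := hf i hi
    rw [hA, Finset.mem_filter, Finset.mem_range] at hi
    rw [Finset.mem_coe, Finset.mem_filter, Finset.mem_range]
    refine ⟨by omega, ?_⟩
    rw [h2]
    apply late_of d F (n + tt g b i) Z z hd (hnd i hi.1) _ hF hi.2.1
    push_cast
    have : (0:ℝ) ≤ tt g b i := Nat.cast_nonneg _
    linarith
  · intro i hi i' hi' h
    rw [Finset.mem_coe] at hi hi'
    have h1 := (hf i hi).2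
    have h2 := (hf i' hi').2
    rw [h] at h1
    have h3 : tt g b i = tt g b i' := by omega
    exact (tt_strict g b hg).injective h3

end Pool.Agent.T2h81.UC
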