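import Pool.Agent.T2h81.UC.B4
import Pool.Agent.T2h81.UC.C2

set_option autoImplicit false
set_option linter.unusedVariables false
set_option maxHeartbeats 4000000

/-! # Covered progressions in one class, and shifts prime to the modulus -/

namespace Pool.Agent.T2h81.UC

open Finset

open scoped Classical

/-- the first `F` terms of the progression of `t` modulo `d` -/
noncomputable def Vd (d F t : ℕ) : Finset ℤ := (range F).image (fun k => ((t + k * d : ℕ) : ℤ))

theorem mem_Vd {d F t : ℕ} {v : ℤ} : v ∈ Vd d F t ↔ ∃ k < F, ((t + k * d : ℕ) : ℤ) = v := by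
  unfold Vd
  rw [Finset.mem_image]
  simp only [Finset.mem_range]

theorem sv_Vd (P b d F t : ℕ) : (sv P (b : ℤ) (Vd d F t)).card ≤
    ((range F).filter (fun k => P.Coprime (b + t + k * d))).card := by
  have h : sv P (b : ℤ) (Vd d F t) ⊆ ((range F).filter (fun k => P.Coprime (b + t + k * d))).image
      (fun k => ((t + k * d : ℕ) : ℤ)) := by
    intro v hv
    unfold sv at hv
    rw [Finset.mem_filter, mem_Vd] at hv
    obtain ⟨⟨k, hk, hkv⟩, h1⟩ := hv
    rw [Finset.mem_image]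
    refine ⟨k, ?_, hkv⟩
    rw [Finset.mem_filter, Finset.mem_range]
    refine ⟨hk, ?_⟩
    rw [← hkv] at h1
    have h2 : Int.gcd ((b : ℤ) + ((t + k * d : ℕ) : ℤ)) P = Nat.gcd (b + t + k * d) P := by
      rw [← Nat.cast_add, Int.gcd_natCast_natCast, ← add_assoc]
    rw [h2] at h1
    exact (Nat.coprime_comm.1 h1)
  exact (Finset.card_le_card h).trans Finset.card_image_le

theorem Vd_disj (d F t t' : ℕ) (ht : t < d) (ht' : t' < d) (hne : t ≠ t') :
    Disjoint (Vd d F t) (Vd d F t') := by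
  rw [Finset.disjoint_left]
  intro v hv hv'
  rw [mem_Vd] at hv hv'
  obtain ⟨k, hk, h1⟩ := hv
  obtain ⟨k', hk', h2⟩ := hv'
  rw [← h2] at h1
  have h3 : t + k * d = t' + k' * d := by exact_mod_cast h1
  have h4 : (t + k * d) % d = t := by rw [Nat.add_mul_mod_self_right, Nat.mod_eq_of_lt ht]
  have h5 : (t' + k' * d) % d = t' := by rw [Nat.add_mul_mod_self_right, Nat.mod_eq_of_lt ht']
  rw [h3, h5] at h4
  exact hne h4.symm

theorem Vd_size (d F t : ℕ) (ht : t < d) (hF : F < d) : ∀ v ∈ Vd d F t, |(v : ℝ)| ≤ (d : ℝ) ^ 2 := by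
  intro v hv
  rw [mem_Vd] at hv
  obtain ⟨k, hk, h1⟩ := hv
  rw [← h1]
  have h2 : t + k * d ≤ d ^ 2 := by
    have : (k + 1) * d ≤ d * d := Nat.mul_le_mul_right _ (by omega)
    nlinarith
  have h3 : (0:ℝ) ≤ ((t + k * d : ℕ) : ℝ) := Nat.cast_nonneg _
  have h4 : ((((t + k * d : ℕ) : ℤ)) : ℝ) = ((t + k * d : ℕ) : ℝ) := by push_cast; ring
  rw [h4, abs_of_nonneg h3]
  exact_mod_cast h2

/-- two classes at once -/
theorem count_two (M : ℤ) (N P p : ℕ) (hP : 0 < P) (hp : p.Prime) (hpP : ¬ p ∣ P) (b t : ℤ) :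
    (((Ioc M (M + N)).filter (fun n : ℤ => (P : ℤ) ∣ n - b ∧ (p : ℤ) ∣ n + t)).card : ℝ) ≤
      (N : ℝ) / ((P : ℝ) * p) + 1 := by
  rcases Finset.eq_empty_or_nonempty
    ((Ioc M (M + N)).filter (fun n : ℤ => (P : ℤ) ∣ n - b ∧ (p : ℤ) ∣ n + t)) with h0 | h0
  · rw [h0]
    simp only [Finset.card_empty, Nat.cast_zero]
    positivity
  · obtain ⟨n₀, hn₀⟩ := h0
    have hn₀' := (Finset.mem_filter.1 hn₀).2
    have h1 := count_class M N (P * p) (Nat.mul_pos hP hp.pos) n₀
    push_cast at h1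
    refine le_trans ?_ h1
    rw [Nat.cast_le]
    apply Finset.card_le_card
    intro n hn
    rw [Finset.mem_filter] at hn ⊢
    refine ⟨hn.1, ?_⟩
    have e1 : (P : ℤ) ∣ n - n₀ := by
      have := dvd_sub hn.2.1 hn₀'.1
      have e : n - b - (n₀ - b) = n - n₀ := by ring
      rwa [e] at this
    have e2 : (p : ℤ) ∣ n - n₀ := by
      have := dvd_sub hn.2.2 hn₀'.2
      have e : n + t - (n₀ + t) = n - n₀ := by ring
      rwa [e] at this
    have hcop : IsCoprime (P : ℤ) (p : ℤ) := by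
      rw [Nat.isCoprime_iff_coprime]
      exact ((Nat.Prime.coprime_iff_not_dvd hp).2 hpP).symm
    exact hcop.mul_dvd e1 e2

/-- a shift of `n` divisible by a large prime factor of `d` -/
def NC (d : ℕ) (x : ℝ) (t : ℕ) (n : ℤ) : Prop :=
  ∃ p ∈ d.primeFactors.filter (fun p : ℕ => x < p), (p : ℤ) ∣ n + t

theorem noncop_count (M : ℤ) (N d : ℕ) (hd : 0 < d) (x : ℝ) (hx : 1 < x) (b : ℤ) (t : ℕ) :
    (((Ioc M (M + N)).filter (fun n : ℤ => ((primorial ⌊x⌋₊ : ℕ) : ℤ) ∣ n - b ∧ NC d x t n)).card : ℝ) ≤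
      (N : ℝ) / (primorial ⌊x⌋₊ : ℝ) * (Real.log d / (x * Real.log x)) + Real.log d / Real.log x := by
  set P : ℕ := primorial ⌊x⌋₊ with hP
  have hPpos : 0 < P := primorial_pos _
  have hPr : (0:ℝ) < P := by exact_mod_cast hPpos
  set Q := d.primeFactors.filter (fun p : ℕ => x < p) with hQ
  have h1 : (Ioc M (M + N)).filter (fun n : ℤ => (P : ℤ) ∣ n - b ∧ NC d x t n) ⊆
      Q.biUnion (fun p => (Ioc M (M + N)).filter (fun n : ℤ => (P : ℤ) ∣ n - b ∧ (p : ℤ) ∣ n + t)) := by
    intro n hn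
    rw [Finset.mem_filter] at hn
    obtain ⟨hn1, hn2, p, hp, hpn⟩ := hn
    rw [Finset.mem_biUnion]
    exact ⟨p, hp, Finset.mem_filter.2 ⟨hn1, hn2, hpn⟩⟩
  have h2 := (Finset.card_le_card h1).trans Finset.card_biUnion_le
  have h3 : (((Ioc M (M + N)).filter (fun n : ℤ => (P : ℤ) ∣ n - b ∧ NC d x t n)).card : ℝ) ≤
      ∑ p ∈ Q, (((Ioc M (M + N)).filter (fun n : ℤ => (P : ℤ) ∣ n - b ∧ (p : ℤ) ∣ n + t)).card : ℝ) := by
    exact_mod_cast h2
  refine h3.trans ?_
  calc ∑ p ∈ Q, (((Ioc M (M + N)).filter (fun n : ℤ => (P : ℤ) ∣ n - b ∧ (p : ℤ) ∣ n + t)).card : ℝ)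
      ≤ ∑ p ∈ Q, ((N : ℝ) / P * (1 / p) + 1) := by
        apply Finset.sum_le_sum
        intro p hp
        rw [hQ, Finset.mem_filter] at hp
        have hpp := Nat.prime_of_mem_primeFactors hp.1
        have hpP : ¬ p ∣ P := by
          rw [hP, hpp.dvd_primorial_iff]
          intro h
          have h4 := (Nat.le_floor_iff (by linarith : (0:ℝ) ≤ x)).1 h
          linarith [hp.2]
        refine (count_two M N P p hPpos hpp hpP b t).trans (le_of_eq ?_)
        have hp0 : (0:ℝ) < p := by exact_mod_cast hpp.pos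
        field_simp
    _ = (N : ℝ) / P * ∑ p ∈ Q, (1:ℝ) / p + Q.card := by
        rw [Finset.sum_add_distrib, Finset.mul_sum, Finset.sum_const, nsmul_eq_mul, mul_one]
    _ ≤ _ := by
        apply add_le_add
        · exact mul_le_mul_of_nonneg_left (sum_large d hd x hx) (by positivity)
        · have := Pool.Agent.N837.LP.card_large_primes d hd x hx
          convert this

/-- one class: shifts which are covered and prime to the modulus -/
theorem class_late (M : ℤ) (N d : ℕ) (hd : 0 < d) (x : ℝ) (hx : 1 < x) (b : ℤ) (m : ℕ) (tt : ℕ → ℕ)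
    (z : ℝ) (V : ℕ → Finset ℤ) (θ B1 : ℝ) (G : ℝ) (hm : 0 < m) (hθ : 0 < θ) (hG : 2 * (θ * m) ≤ G)
    (hB1 : (((Ioc M (M + N)).filter (fun n : ℤ => ((primorial ⌊x⌋₊ : ℕ) : ℤ) ∣ n - b ∧
      (((range m).filter (fun i => CovS z (V i) n)).card : ℝ) < G)).card : ℝ) ≤ B1) :
    (((Ioc M (M + N)).filter (fun n : ℤ => ((primorial ⌊x⌋₊ : ℕ) : ℤ) ∣ n - b ∧
      ¬ (θ * m ≤ (((range m).filter (fun i => CovS z (V i) n ∧ ¬ NC d x (tt i) n)).card : ℝ)))).card : ℝ) ≤
      B1 + ((N : ℝ) / (primorial ⌊x⌋₊ : ℝ) * (Real.log d / (x * Real.log x)) + Real.log d / Real.log x) / θ := by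
  set P : ℕ := primorial ⌊x⌋₊ with hP
  have hmr : (0:ℝ) < m := by exact_mod_cast hm
  set S := (Ioc M (M + N)).filter (fun n : ℤ => (P : ℤ) ∣ n - b) with hS
  set A1 := (Ioc M (M + N)).filter (fun n : ℤ => (P : ℤ) ∣ n - b ∧
      (((range m).filter (fun i => CovS z (V i) n)).card : ℝ) < G) with hA1
  set A2 := S.filter (fun n : ℤ => θ * m ≤ (((range m).filter (fun i => NC d x (tt i) n)).card : ℝ)) with hA2
  set Bt := (N : ℝ) / (P : ℝ) * (Real.log d / (x * Real.log x)) + Real.log d / Real.log x with hBt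
  have hA2c : (A2.card : ℝ) ≤ Bt / θ := by
    have h1 : (A2.card : ℝ) * (θ * m) ≤ m * Bt := by
      calc (A2.card : ℝ) * (θ * m) = ∑ _n ∈ A2, θ * m := by rw [Finset.sum_const, nsmul_eq_mul]
        _ ≤ ∑ n ∈ A2, (((range m).filter (fun i => NC d x (tt i) n)).card : ℝ) := by
            apply Finset.sum_le_sum
            intro n hn
            exact (Finset.mem_filter.1 hn).2
        _ ≤ ∑ n ∈ S, (((range m).filter (fun i => NC d x (tt i) n)).card : ℝ) :=
            Finset.sum_le_sum_of_subset_of_nonneg (Finset.filter_subset _ _) fun _ _ _ => Nat.cast_nonneg _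
        _ = ∑ n ∈ S, ∑ i ∈ range m, (if NC d x (tt i) n then (1:ℝ) else 0) := by
            apply Finset.sum_congr rfl
            intro n _
            rw [Finset.sum_boole]
        _ = ∑ i ∈ range m, ∑ n ∈ S, (if NC d x (tt i) n then (1:ℝ) else 0) := Finset.sum_comm
        _ ≤ ∑ _i ∈ range m, Bt := by
            apply Finset.sum_le_sum
            intro i _
            rw [Finset.sum_boole]
            have h2 := noncop_count M N d hd x hx b (tt i)
            rw [← hP, ← hBt] at h2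
            refine le_trans ?_ h2
            rw [hS, Finset.filter_filter]
        _ = m * Bt := by rw [Finset.sum_const, Finset.card_range, nsmul_eq_mul]
    rw [le_div_iff₀ hθ]
    have h2 : (A2.card : ℝ) * θ * m ≤ Bt * m := by linarith
    exact le_of_mul_le_mul_right h2 hmr
  have hsub : (Ioc M (M + N)).filter (fun n : ℤ => (P : ℤ) ∣ n - b ∧
      ¬ (θ * m ≤ (((range m).filter (fun i => CovS z (V i) n ∧ ¬ NC d x (tt i) n)).card : ℝ))) ⊆ A1 ∪ A2 := by
    intro n hn
    rw [Finset.mem_filter] at hn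
    obtain ⟨hn1, hn2, hn3⟩ := hn
    push Not at hn3
    rw [Finset.mem_union]
    by_contra hcon
    push Not at hcon
    obtain ⟨hc1, hc2⟩ := hcon
    have h1 : G ≤ (((range m).filter (fun i => CovS z (V i) n)).card : ℝ) := by
      by_contra h
      push Not at h
      exact hc1 (Finset.mem_filter.2 ⟨hn1, hn2, h⟩)
    have h2 : (((range m).filter (fun i => NC d x (tt i) n)).card : ℝ) < θ * m := by
      by_contra h
      push Not at h
      exact hc2 (Finset.mem_filter.2 ⟨Finset.mem_filter.2 ⟨hn1, hn2⟩, h⟩)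
    have h3 : ((range m).filter (fun i => CovS z (V i) n)).card ≤
        ((range m).filter (fun i => CovS z (V i) n ∧ ¬ NC d x (tt i) n)).card +
        ((range m).filter (fun i => NC d x (tt i) n)).card := by
      refine le_trans ?_ (Finset.card_union_le _ _)
      apply Finset.card_le_card
      intro i hi
      rw [Finset.mem_filter] at hi
      rw [Finset.mem_union, Finset.mem_filter, Finset.mem_filter]
      by_cases h : NC d x (tt i) n
      · exact Or.inr ⟨hi.1, h⟩
      · exact Or.inl ⟨hi.1, hi.2, h⟩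
    have h4 : (((range m).filter (fun i => CovS z (V i) n)).card : ℝ) ≤
        ((range m).filter (fun i => CovS z (V i) n ∧ ¬ NC d x (tt i) n)).card +
        ((range m).filter (fun i => NC d x (tt i) n)).card := by exact_mod_cast h3
    linarith
  have h5 := (Finset.card_le_card hsub).trans (Finset.card_union_le _ _)
  have h6 : (((Ioc M (M + N)).filter (fun n : ℤ => (P : ℤ) ∣ n - b ∧
      ¬ (θ * m ≤ (((range m).filter (fun i => CovS z (V i) n ∧ ¬ NC d x (tt i) n)).card : ℝ)))).card : ℝ) ≤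
      A1.card + A2.card := by exact_mod_cast h5
  linarith

end Pool.Agent.T2h81.UC
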