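import Pool.Agent.T2h81.UC.C3

set_option autoImplicit false
set_option linter.unusedVariables false
set_option maxHeartbeats 4000000

/-! # The least primes of consecutive reduced residues -/

namespace Pool.Agent.T2h81.UC

open Finset Filter Pool.Agent.H256R2.SC Pool.Agent.Y831.RC

open scoped Classical

theorem ev_late (c K : ℝ) (hc : 0 < c) : ∃ L₂ : ℝ, ∀ L : ℝ, L₂ ≤ L →
    Real.sqrt L * Real.log L ≤ c * L ∧ K * L < (L / 32) ^ 8 ∧ K ≤ Real.log (L / 32) ∧
    K * Real.log L ≤ Real.exp (15 / 16 * L) ∧ K * L + 1 < Real.exp L ∧ K ≤ L := by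
  have t1 : ∀ᶠ L : ℝ in atTop, Real.log L ≤ c * Real.sqrt L := by
    have h1 := (isLittleO_log_rpow_atTop (show (0:ℝ) < 1 / 2 by norm_num)).def hc
    filter_upwards [h1, eventually_ge_atTop 1] with L hL hL1
    have h2 : 0 ≤ Real.log L := Real.log_nonneg hL1
    rw [Real.norm_of_nonneg h2, Real.norm_of_nonneg (by positivity), ← Real.sqrt_eq_rpow] at hL
    exact hL
  have t2 : ∀ᶠ L : ℝ in atTop, 32 ^ 8 * (K + 1) ≤ L := eventually_ge_atTop _
  have t3 : ∀ᶠ L : ℝ in atTop, 32 * Real.exp K ≤ L := eventually_ge_atTop _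
  have t4 : ∀ᶠ L : ℝ in atTop, (|K| + 1) * (L + 1) ≤ Real.exp (1 / 2 * L) := by
    have h1 := (isLittleO_pow_exp_pos_mul_atTop 1 (show (0:ℝ) < 1 / 2 by norm_num)).def
      (show (0:ℝ) < 1 / (2 * (|K| + 1)) by positivity)
    filter_upwards [h1, eventually_ge_atTop 1] with L hL hL1
    rw [pow_one, Real.norm_of_nonneg (by linarith), Real.norm_of_nonneg (Real.exp_pos _).le] at hL
    have h2 : (0:ℝ) < 2 * (|K| + 1) := by positivity
    rw [one_div, inv_mul_eq_div, le_div_iff₀ h2] at hL
    have h3 : 0 ≤ |K| + 1 := by positivity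
    nlinarith
  obtain ⟨L₂, hL₂⟩ := eventually_atTop.1 ((t1.and (t2.and (t3.and t4))).and (eventually_ge_atTop (1:ℝ)))
  refine ⟨max L₂ 1, fun L hL => ?_⟩
  obtain ⟨⟨h1, h2, h3, h4⟩, h5⟩ := hL₂ L ((le_max_left _ _).trans hL)
  have hK : K ≤ |K| := le_abs_self K
  have hlog : Real.log L ≤ L := (Real.log_le_sub_one_of_pos (by linarith)).trans (by linarith)
  have hlog0 : 0 ≤ Real.log L := Real.log_nonneg h5
  have hKa : 0 ≤ |K| := abs_nonneg K
  have e1 : Real.exp (1 / 2 * L) ≤ Real.exp (15 / 16 * L) := Real.exp_le_exp.2 (by linarith)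
  refine ⟨?_, ?_, ?_, ?_, ?_, ?_⟩
  · have hs : Real.sqrt L * Real.sqrt L = L := Real.mul_self_sqrt (by linarith)
    have hs0 := Real.sqrt_nonneg L
    calc Real.sqrt L * Real.log L ≤ Real.sqrt L * (c * Real.sqrt L) := mul_le_mul_of_nonneg_left h1 hs0
      _ = c * (Real.sqrt L * Real.sqrt L) := by ring
      _ = c * L := by rw [hs]
  · have hL8 : (L / 32) ^ 8 = L ^ 8 / 32 ^ 8 := by ring
    rw [hL8, lt_div_iff₀ (by positivity)]
    have e2 : L ^ 2 ≤ L ^ 8 := pow_le_pow_right₀ h5 (by norm_num)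
    have e3 : 32 ^ 8 * (K + 1) * L ≤ L * L := mul_le_mul_of_nonneg_right h2 (by linarith)
    nlinarith
  · rw [Real.le_log_iff_exp_le (by positivity), le_div_iff₀ (by norm_num)]
    linarith
  · nlinarith
  · have e4 : Real.exp (1 / 2 * L) < Real.exp L := Real.exp_lt_exp.2 (by linarith)
    nlinarith
  · have h6 : 0 ≤ 32 * Real.exp K := by positivity
    have h7 := Real.add_one_le_exp K
    have h8 := Real.exp_pos K
    nlinarith

/-- the number of classes prime to the small part -/
theorem class_number (g P : ℕ) (hg : 0 < g) (hgP : g ∣ P) :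
    (((range P).filter (fun b => b.Coprime g)).card : ℝ) = (P : ℝ) * (g.totient : ℝ) / g := by
  obtain ⟨k, rfl⟩ := hgP
  have h1 := Pool.Agent.N837.LP.cop_count g k
  have h2 : (range (g * k)).filter (fun b => b.Coprime g) = (range (g * k)).filter (fun b => g.Coprime b) := by
    apply Finset.filter_congr
    intro b _
    exact Nat.coprime_comm
  rw [h2, h1]
  have hg0 : (0:ℝ) < g := by exact_mod_cast hg
  push_cast
  field_simp

theorem class_bound : ∃ C' : ℝ, 6400 ≤ C' ∧ ∀ η lam : ℝ, 0 < η → η ≤ 1 → 1 ≤ lam →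
    ∃ d₀ : ℕ, ∀ d : ℕ, d₀ ≤ d → ∀ M N : ℕ, (d : ℝ) ^ η ≤ N → ∀ m : ℕ,
    Real.exp (Real.exp (2 * (C' * (lam / η)))) ≤ m → (m : ℝ) ≤ (d : ℝ) ^ (η / 2) →
    ∃ (x z : ℝ) (F : ℕ), 1 < x ∧ 0 < z ∧ lam * d.totient * Real.log d < F * d ∧
    ((gs d x).totient : ℝ) * d ≤ 2 * (d.totient * (gs d x : ℝ)) ∧
    (∀ i < m, ∀ b : ℕ, tt (gs d x) b i ≤ m * primorial ⌊x⌋₊) ∧ m * primorial ⌊x⌋₊ < d ∧
    z + 1 + (m * primorial ⌊x⌋₊ + 1) ≤ 1 / 4 * Real.exp (-(lam / η)) * ((d.totient : ℝ) / d) * N ∧
    ∀ b : ℕ, (((Ioc (M : ℤ) (M + N)).filter (fun n : ℤ => ((primorial ⌊x⌋₊ : ℕ) : ℤ) ∣ n - b ∧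
      ¬ (Real.exp (-Real.exp (2 * (C' * (lam / η)))) * m ≤ (((range m).filter (fun i =>
      CovS z (Vd d F (tt (gs d x) b i)) n ∧ ¬ NC d x (tt (gs d x) b i) n)).card : ℝ)))).card : ℝ) ≤
      1 / 4 * Real.exp (-(lam / η)) * ((N : ℝ) / (primorial ⌊x⌋₊ : ℝ)) := by
  obtain ⟨c₃, e₀, L₀, hc₃, he₀, hL₀, hcls⟩ := class_main
  obtain ⟨c, Cw, hc, hcC, hWb⟩ := WW_bounds
  obtain ⟨Cs, hCs, hsurv⟩ := surv_ap
  obtain ⟨C', hC'⟩ : ∃ C' : ℝ, C' = 8 * Cs / c₃ + e₀ := ⟨_, rfl⟩
  have hq0 : 0 < 8 * Cs / c₃ := by positivity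
  have hC'1 : 6400 ≤ C' := by linarith
  have hC'2 : 8 * Cs / c₃ ≤ C' := by linarith
  have hC'3 : e₀ ≤ C' := by linarith
  have hC'0 : 0 < C' := by linarith
  refine ⟨C', hC'1, ?_⟩
  intro η lam hη hη1 hlam
  set μ : ℝ := lam / η with hμ
  have hlam0 : 0 < lam := by linarith
  have hμlam : lam ≤ μ := by
    rw [hμ, le_div_iff₀ hη]
    nlinarith only [hlam0, hη1]
  have hμ1 : 1 ≤ μ := hlam.trans hμlam
  have hημ : η * μ = lam := by rw [hμ]; field_simp
  set e : ℝ := C' * μ with he
  have heC : C' ≤ e := by rw [he]; nlinarith only [hμ1, hC'0]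
  have hee₀ : e₀ ≤ e := hC'3.trans heC
  have he6400 : 6400 ≤ e := hC'1.trans heC
  have he0 : 0 < e := by linarith
  set θ : ℝ := Real.exp (-Real.exp (2 * e)) with hθ
  have hθ0 : 0 < θ := Real.exp_pos _
  set J₀ : ℕ := ⌈Real.exp (e ^ 2 * Real.exp e + e / 2)⌉₊ with hJ₀
  have hJ1 : Real.exp (e ^ 2 * Real.exp e + e / 2) ≤ (J₀ : ℝ) := Nat.le_ceil _
  have hJpos : 0 < J₀ := by
    have : (0:ℝ) < J₀ := (Real.exp_pos _).trans_le hJ1
    exact_mod_cast this
  have hJr : (0:ℝ) < J₀ := by exact_mod_cast hJpos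
  have hJb := J_bound he6400
  rw [← hJ₀] at hJb
  have hθJ : θ * (16 * J₀) ≤ 1 := by
    rw [hθ, Real.exp_neg]
    rw [inv_mul_le_iff₀ (Real.exp_pos _), mul_one]
    exact hJb
  have hEμ : 0 < Real.exp μ := Real.exp_pos _
  have hEμ' : 0 < Real.exp (-μ) := Real.exp_pos _
  have hEE : Real.exp (-μ) * Real.exp μ = 1 := by rw [← Real.exp_add]; simp
  set K : ℝ := 3 * μ + 1024 * Real.exp μ / (η * θ) + 128 / η + 64 * Real.exp μ / c +
    320 * μ * (J₀ * e) ^ 3 * Real.exp μ + L₀ + Real.exp (4 * e) + J₀ with hK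
  have k1 : 0 < 1024 * Real.exp μ / (η * θ) := by positivity
  have k2 : 0 < 128 / η := by positivity
  have k3 : 0 < 64 * Real.exp μ / c := by positivity
  have k4 : 0 < 320 * μ * (J₀ * e) ^ 3 * Real.exp μ := by positivity
  have k5 := Real.exp_pos (4 * e)
  obtain ⟨L₂, hL₂⟩ := ev_late c K hc
  refine ⟨⌈Real.exp (2 * (max L₂ 1) / η)⌉₊, ?_⟩
  intro d hd M N hN m hm1 hm2
  have hdE : Real.exp (2 * (max L₂ 1) / η) ≤ d := (Nat.le_ceil _).trans (by exact_mod_cast hd)
  have hd0 : (0:ℝ) < d := (Real.exp_pos _).trans_le hdE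
  have hdpos : 0 < d := by exact_mod_cast hd0
  set L : ℝ := η / 2 * Real.log d with hL
  have hLL₂' : max L₂ 1 ≤ L := by
    have h1 : 2 * (max L₂ 1) / η ≤ Real.log d := by
      rw [Real.le_log_iff_exp_le hd0]; exact hdE
    rw [div_le_iff₀ hη] at h1
    rw [hL]
    linarith
  have hLL₂ : L₂ ≤ L := (le_max_left _ _).trans hLL₂'
  obtain ⟨v1, v2, v3, v4, v5, v6⟩ := hL₂ L hLL₂
  have hlogd : Real.log d = 2 * L / η := by rw [hL]; field_simp
  have hLL₀ : L₀ ≤ L := by linarith
  have hL4 : Real.exp (4 * e) ≤ L := by linarith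
  have hLJ : (J₀ : ℝ) ≤ L := by linarith
  have hL1600 : 1600 ≤ L := hL₀.trans hLL₀
  have hLpos : 0 < L := by linarith
  set l : ℝ := Real.log L with hl
  have hl1 : 1 ≤ l := by
    rw [hl, Real.le_log_iff_exp_le hLpos]
    have := Real.exp_one_lt_d9
    linarith
  have hl0 : 0 < l := by linarith
  have hel : e ≤ 1 / 4 * l := by
    have : 4 * e ≤ l := by rw [hl, Real.le_log_iff_exp_le hLpos]; exact hL4
    linarith
  set x : ℝ := L / 32 with hx
  have hx1 : 1 < x := by rw [hx]; linarith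
  have hx0 : 0 ≤ x := by linarith
  set P : ℕ := primorial ⌊x⌋₊ with hP
  have hPpos : 0 < P := primorial_pos _
  have hPr : (0:ℝ) < P := by exact_mod_cast hPpos
  have hPx : (P:ℝ) ≤ Real.exp (L / 16) := by
    refine (primorial_le_exp x hx0).trans (le_of_eq ?_)
    rw [hx]
    congr 1
    ring
  set g : ℕ := gs d x with hg
  have hgpos : 0 < g := gs_pos d x
  have hgP : g ∣ P := gs_dvd_primorial d hx0
  have hgPle : g ≤ P := Nat.le_of_dvd hPpos hgP
  set z : ℝ := Real.exp (L / (6400 * e)) with hz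
  set ρ : ℝ := (d.totient : ℝ) / d with hρ
  have htotpos : 0 < d.totient := Nat.totient_pos.2 hdpos
  have htot0 : (0:ℝ) < d.totient := by exact_mod_cast htotpos
  have hρ0 : 0 < ρ := by positivity
  have hρ1 : ρ ≤ 1 := by
    rw [hρ, div_le_one hd0]
    exact_mod_cast Nat.totient_le d
  -- the large prime factors
  have hlx0 : 0 < Real.log x := Real.log_pos hx1
  have hlxL : Real.log x ≤ l := Real.log_le_log (by linarith) (by rw [hx]; linarith)
  have hsumeq : Real.log d / (x * Real.log x) = 64 / (η * Real.log x) := by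
    rw [hlogd, hx]
    field_simp
    ring
  have hlK : K ≤ Real.log x := v3
  have hsum1 : Real.log d / (x * Real.log x) ≤ 1 / 2 := by
    rw [hsumeq, div_le_iff₀ (by positivity)]
    have h1 : 128 / η ≤ Real.log x := by linarith
    rw [div_le_iff₀ hη] at h1
    linarith
  have hsum2 : 128 / (η * Real.log x) / θ ≤ 1 / 8 * Real.exp (-μ) := by
    have h1 : 1024 * Real.exp μ / (η * θ) ≤ Real.log x := by linarith
    rw [div_le_iff₀ (by positivity)] at h1
    rw [div_div, div_le_iff₀ (by positivity)]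
    have h2 : 1024 * (Real.exp (-μ) * Real.exp μ) ≤ Real.exp (-μ) * (Real.log x * (η * θ)) := by
      calc 1024 * (Real.exp (-μ) * Real.exp μ) = Real.exp (-μ) * (1024 * Real.exp μ) := by ring
        _ ≤ _ := mul_le_mul_of_nonneg_left h1 hEμ'.le
    rw [hEE] at h2
    linarith
  have htg : (g.totient : ℝ) * d ≤ 2 * (d.totient * (g : ℝ)) :=
    tot_gs d hdpos x ((sum_large d hdpos x hx1).trans hsum1)
  -- lower bound for the density
  have hρl : c / (2 * l) ≤ ρ := by
    have h1 := Pool.Agent.N837.LP.totient_le_of_dvd hgP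
    have h2 : (P.totient : ℝ) = P * WW x := by rw [hP, tot_primorial x hx0]
    rw [h2] at h1
    have hg0 : (0:ℝ) < g := by exact_mod_cast hgpos
    have h3 : WW x * g ≤ g.totient := by
      have h4 : (P : ℝ) * (WW x * g) ≤ P * g.totient := by linarith
      exact le_of_mul_le_mul_left h4 hPr
    have h5 : c ≤ WW x * Real.log x := (hWb x (by rw [hx]; linarith)).1
    have h6 : c ≤ WW x * l := h5.trans (mul_le_mul_of_nonneg_left hlxL (WW_pos x).le)
    rw [hρ, div_le_div_iff₀ (by positivity) hd0]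
    have h7 : WW x * g * d ≤ 2 * (d.totient * (g : ℝ)) :=
      (mul_le_mul_of_nonneg_right h3 hd0.le).trans htg
    have h8 : WW x * d ≤ 2 * d.totient := by
      have h9 : (g : ℝ) * (WW x * d) ≤ g * (2 * d.totient) := by linarith
      exact le_of_mul_le_mul_left h9 hg0
    calc c * d ≤ WW x * l * d := mul_le_mul_of_nonneg_right h6 hd0.le
      _ = WW x * d * l := by ring
      _ ≤ 2 * d.totient * l := mul_le_mul_of_nonneg_right h8 hl0.le
      _ = _ := by ring
  -- the number of terms
  set Zd : ℝ := lam * ρ * Real.log d with hZd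
  have hZd1 : Real.sqrt L ≤ Zd := by
    have h1 : Zd = 2 * μ * ρ * L := by rw [hZd, hlogd, hμ]; field_simp
    have h2 : c * L ≤ Zd * l := by
      rw [div_le_iff₀ (by positivity)] at hρl
      rw [h1]
      have h3 : c * L ≤ ρ * (2 * l) * L := mul_le_mul_of_nonneg_right hρl hLpos.le
      have h4 : 0 ≤ ρ * l * L := by positivity
      nlinarith only [h3, h4, hμ1]
    have h5 : Real.sqrt L * l ≤ Zd * l := v1.trans h2
    exact le_of_mul_le_mul_right h5 hl0
  have hsL : 40 ≤ Real.sqrt L := by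
    rw [show (40:ℝ) = Real.sqrt (40 ^ 2) by rw [Real.sqrt_sq (by norm_num)]]
    apply Real.sqrt_le_sqrt
    norm_num
    linarith
  have hZd40 : 40 ≤ Zd := hsL.trans hZd1
  have hZd2 : Zd ≤ 2 * μ * L := by
    have h1 : Zd = 2 * μ * L * ρ := by rw [hZd, hlogd, hμ]; field_simp
    rw [h1]
    have h2 : 0 ≤ 2 * μ * L := by positivity
    nlinarith only [h2, hρ1]
  set F : ℕ := ⌊Zd⌋₊ + 1 with hF
  have hF1 : Zd < F := by rw [hF]; push_cast; exact Nat.lt_floor_add_one _
  have hF2 : (F : ℝ) ≤ Zd + 1 := by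
    rw [hF]; push_cast
    have := Nat.floor_le (show 0 ≤ Zd by linarith)
    linarith
  have hF2' : 2 ≤ F := by
    have : (1:ℝ) < F := by linarith
    have : 1 < F := by exact_mod_cast this
    omega
  have hF3 : (F : ℝ) ≤ 2 * Zd := by linarith
  have hKμ : 3 * μ * L ≤ K * L := by
    apply mul_le_mul_of_nonneg_right _ hLpos.le
    linarith
  have hF4 : (F : ℝ) ≤ 3 * μ * L := by nlinarith only [hF2, hZd2, hμ1, hL1600]
  have hF8 : (F : ℝ) < x ^ 8 := lt_of_le_of_lt (hF4.trans hKμ) v2
  have hdL : Real.exp (2 * L) ≤ d := by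
    have h1 : 2 * L ≤ Real.log d := by
      rw [hlogd, le_div_iff₀ hη]
      nlinarith only [hLpos, hη1]
    rwa [Real.le_log_iff_exp_le hd0] at h1
  have hLd : Real.exp L ≤ d := (Real.exp_le_exp.2 (by linarith)).trans hdL
  have hFd : F < d := by
    have h1 : (F : ℝ) < d := by
      have h2 : (F : ℝ) ≤ K * L := hF4.trans hKμ
      linarith
    exact_mod_cast h1
  have hlogF : l / 2 ≤ Real.log F := by
    have h1 : Real.sqrt L ≤ F := hZd1.trans hF1.le
    have h2 : Real.log (Real.sqrt L) = l / 2 := Real.log_sqrt hLpos.le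
    rw [← h2]
    exact Real.log_le_log (by linarith) h1
  -- sizes
  have hNr : Real.exp (2 * L) ≤ N := by
    refine le_trans (le_of_eq ?_) hN
    rw [Real.rpow_def_of_pos hd0, hL]
    congr 1
    ring
  have hmL : (m : ℝ) ≤ Real.exp L := by
    refine hm2.trans (le_of_eq ?_)
    rw [Real.rpow_def_of_pos hd0, hL]
    congr 1
    ring
  have hmJ : 16 * (J₀ : ℝ) ≤ m := hJb.trans hm1
  have hm0 : (0:ℝ) < m := by linarith
  have hmpos : 0 < m := by exact_mod_cast hm0
  have hmP : (m : ℝ) * P ≤ Real.exp (17 / 16 * L) := by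
    calc (m : ℝ) * P ≤ Real.exp L * Real.exp (L / 16) := mul_le_mul hmL hPx hPr.le (Real.exp_pos _).le
      _ = _ := by rw [← Real.exp_add]; congr 1; ring
  have hmPd : m * P < d := by
    have h1 : (m : ℝ) * P < d :=
      lt_of_le_of_lt hmP (lt_of_lt_of_le (Real.exp_lt_exp.2 (by linarith)) hdL)
    exact_mod_cast h1
  have htt : ∀ i < m, ∀ b : ℕ, tt g b i ≤ m * P := by
    intro i hi b
    exact (tt_le g b i hgpos).trans (Nat.mul_le_mul hi hgPle)
  have hNP : (1:ℝ) ≤ N / P := by
    rw [le_div_iff₀ hPr, one_mul]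
    exact hPx.trans ((Real.exp_le_exp.2 (by linarith)).trans hNr)
  have hxNP : x ≤ N / P := by
    rw [le_div_iff₀ hPr]
    have h1 : x ≤ Real.exp L := by
      have := Real.add_one_le_exp L
      rw [hx]
      linarith
    calc x * P ≤ Real.exp L * Real.exp (L / 16) := mul_le_mul h1 hPx hPr.le (Real.exp_pos _).le
      _ = Real.exp (L + L / 16) := (Real.exp_add _ _).symm
      _ ≤ Real.exp (2 * L) := Real.exp_le_exp.2 (by linarith)
      _ ≤ N := hNr
  refine ⟨x, z, F, hx1, Real.exp_pos _, ?_, htg, htt, hmPd, ?_, ?_⟩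
  · have h1 : Zd * d < F * d := mul_lt_mul_of_pos_right hF1 hd0
    have h2 : Zd * d = lam * d.totient * Real.log d := by rw [hZd, hρ]; field_simp
    rw [← h2]
    exact h1
  · -- excluded integers
    have h1 : z ≤ Real.exp (17 / 16 * L) := by
      apply Real.exp_le_exp.2
      rw [div_le_iff₀ (by positivity)]
      nlinarith only [hLpos, he6400]
    have h2 : 1 ≤ Real.exp (17 / 16 * L) := Real.one_le_exp (by positivity)
    have h3 : z + 1 + (m * P + 1) ≤ 4 * Real.exp (17 / 16 * L) := by linarith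
    refine h3.trans ?_
    have h4 : 64 * Real.exp μ / c * l ≤ Real.exp (15 / 16 * L) := by
      refine le_trans ?_ v4
      apply mul_le_mul_of_nonneg_right _ hl0.le
      linarith
    have h5 : 16 * Real.exp μ * (2 * l) ≤ c * Real.exp (15 / 16 * L) := by
      rw [div_mul_eq_mul_div, div_le_iff₀ hc] at h4
      have h6 : 0 ≤ Real.exp μ * l := by positivity
      nlinarith only [h4, h6]
    have h6 : 16 * Real.exp μ ≤ ρ * Real.exp (15 / 16 * L) := by
      have h7 : c / (2 * l) * Real.exp (15 / 16 * L) ≤ ρ * Real.exp (15 / 16 * L) :=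
        mul_le_mul_of_nonneg_right hρl (Real.exp_pos _).le
      refine le_trans ?_ h7
      rw [div_mul_eq_mul_div, le_div_iff₀ (by positivity)]
      exact h5
    have h8 : 16 ≤ Real.exp (-μ) * (ρ * Real.exp (15 / 16 * L)) := by
      have h9 := mul_le_mul_of_nonneg_left h6 hEμ'.le
      have h10 : Real.exp (-μ) * (16 * Real.exp μ) = 16 * (Real.exp (-μ) * Real.exp μ) := by ring
      rw [h10, hEE] at h9
      linarith
    have h11 : Real.exp (2 * L) = Real.exp (15 / 16 * L) * Real.exp (17 / 16 * L) := by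
      rw [← Real.exp_add]; congr 1; ring
    have h12 : 1 / 4 * Real.exp (-μ) * ρ * Real.exp (2 * L) ≤ 1 / 4 * Real.exp (-μ) * ρ * N :=
      mul_le_mul_of_nonneg_left hNr (by positivity)
    refine le_trans ?_ h12
    rw [h11]
    have h13 := mul_le_mul_of_nonneg_right h8 (Real.exp_pos (17 / 16 * L)).le
    linarith only [h13]
  · -- one class
    intro b
    set V : ℕ → Finset ℤ := fun i => Vd d F (tt g b i) with hV
    have httd : ∀ i < m, tt g b i < d := fun i hi => lt_of_le_of_lt (htt i hi b) hmPd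
    have hsv : ∀ i, ((sv P (b : ℤ) (V i)).card : ℝ) ≤ c₃ * e * L / Real.log L := by
      intro i
      have h1 : ((sv P (b : ℤ) (V i)).card : ℝ) ≤
          (((range F).filter (fun k => P.Coprime (b + tt g b i + k * d))).card : ℝ) := by
        exact_mod_cast sv_Vd P b d F (tt g b i)
      have h2 := hsurv (b + tt g b i) d F x hdpos hF2' hx0 hF8
      refine h1.trans (le_trans ?_ (h2.trans ?_))
      · rw [Nat.cast_le]
      · have hlF : 0 < Real.log F := by linarith
        rw [div_le_div_iff₀ hlF hl0]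
        have h3 : (d : ℝ) / d.totient * ρ = 1 := by rw [hρ]; field_simp
        have h4 : (d : ℝ) / d.totient * F ≤ 4 * μ * L := by
          have h5 : (F : ℝ) ≤ 2 * (ρ * (2 * μ * L)) := by
            refine hF3.trans (le_of_eq ?_)
            rw [hZd, hlogd, hμ]
            field_simp
          have h6 : (d : ℝ) / d.totient * F ≤ (d : ℝ) / d.totient * (2 * (ρ * (2 * μ * L))) :=
            mul_le_mul_of_nonneg_left h5 (by positivity)
          refine h6.trans (le_of_eq ?_)
          calc (d : ℝ) / d.totient * (2 * (ρ * (2 * μ * L))) =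
              ((d : ℝ) / d.totient * ρ) * (4 * μ * L) := by ring
            _ = _ := by rw [h3, one_mul]
        have h7 : Cs * ((d : ℝ) / d.totient) * F ≤ Cs * (4 * μ * L) := by
          calc Cs * ((d : ℝ) / d.totient) * F = Cs * ((d : ℝ) / d.totient * F) := by ring
            _ ≤ _ := mul_le_mul_of_nonneg_left h4 (by linarith)
        have h8 : 8 * Cs ≤ C' * c₃ := by
          rw [div_le_iff₀ hc₃] at hC'2
          exact hC'2
        calc Cs * ((d : ℝ) / d.totient) * F * l ≤ Cs * (4 * μ * L) * l :=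
              mul_le_mul_of_nonneg_right h7 hl0.le
          _ = 8 * Cs * (μ * L * (l / 2)) := by ring
          _ ≤ C' * c₃ * (μ * L * (l / 2)) := mul_le_mul_of_nonneg_right h8 (by positivity)
          _ = c₃ * e * L * (l / 2) := by rw [he]; ring
          _ ≤ c₃ * e * L * Real.log F := mul_le_mul_of_nonneg_left hlogF (by positivity)
    set G₀ : ℕ := m / J₀ with hG₀
    have hG1 : G₀ * J₀ ≤ m := Nat.div_mul_le_self _ _
    have hG2 : (m : ℝ) < (G₀ + 1) * J₀ := by
      have : m < (G₀ + 1) * J₀ := by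
        have := Nat.lt_div_mul_add (a := m) hJpos
        rw [← hG₀] at this
        linarith [this]
      exact_mod_cast this
    have hG3 : (m : ℝ) / (2 * J₀) ≤ G₀ := by
      rw [div_le_iff₀ (by positivity)]
      nlinarith only [hG2, hmJ, hJr]
    have hG0 : 0 < G₀ := by
      have : (0:ℝ) < G₀ := lt_of_lt_of_le (by positivity) hG3
      exact_mod_cast this
    have hθG : 2 * (θ * m) ≤ (G₀ : ℝ) / 2 := by
      have h1 : θ * m ≤ m / (16 * J₀) := by
        rw [le_div_iff₀ (by positivity)]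
        have h2 : θ * (16 * J₀) * m ≤ 1 * m := mul_le_mul_of_nonneg_right hθJ hm0.le
        linarith
      have h2 : (m : ℝ) / (16 * J₀) = m / (2 * J₀) / 8 := by field_simp; norm_num
      linarith
    set δ : ℝ := 17 * Real.exp (-(e / 2)) + (J₀ * e) ^ 3 * (2 * Real.log d + 1) / L ^ 3 with hδ
    have hlogd0 : 0 ≤ Real.log d := by rw [hlogd]; positivity
    have hδ0 : 0 ≤ δ := by positivity
    have hδμ : δ ≤ 1 / 32 * Real.exp (-μ) := by
      have h1 : Real.exp (-(e / 2)) ≤ 1 / 3200 * Real.exp (-μ) := by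
        have h2 : Real.exp (-(e / 2)) ≤ Real.exp (-μ - 3199) := by
          apply Real.exp_le_exp.2
          have : 6400 * μ ≤ e := by rw [he]; nlinarith only [hC'1, hμ1]
          linarith
        have h3 : Real.exp (-μ - 3199) = Real.exp (-μ) * Real.exp (-3199) := by
          rw [← Real.exp_add]; congr 1
        have h4 : Real.exp (-3199) ≤ 1 / 3200 := by
          rw [Real.exp_neg, inv_eq_one_div]
          apply one_div_le_one_div_of_le (by norm_num)
          have := Real.add_one_le_exp (3199:ℝ)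
          linarith
        rw [h3] at h2
        nlinarith only [h2, h4, hEμ']
      have h3 : (J₀ * e) ^ 3 * (2 * Real.log d + 1) / L ^ 3 ≤ 1 / 64 * Real.exp (-μ) := by
        rw [div_le_iff₀ (by positivity)]
        have h4 : 2 * Real.log d + 1 ≤ 5 * μ * L := by
          have h5 : Real.log d ≤ 2 * μ * L := by
            rw [hlogd, div_le_iff₀ hη]
            have : 2 * μ * L * η = 2 * lam * L := by rw [← hημ]; ring
            rw [this]
            nlinarith only [hlam, hLpos]
          nlinarith only [h5, hμ1, hL1600]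
        have h5 : (0:ℝ) ≤ (J₀ * e) ^ 3 := by positivity
        have h6 : 320 * μ * (J₀ * e) ^ 3 * Real.exp μ ≤ L := by linarith
        calc (J₀ * e) ^ 3 * (2 * Real.log d + 1) ≤ (J₀ * e) ^ 3 * (5 * μ * L) :=
              mul_le_mul_of_nonneg_left h4 h5
          _ = (320 * μ * (J₀ * e) ^ 3 * Real.exp μ) * Real.exp (-μ) * L / 64 := by
              have : (320 * μ * (J₀ * e) ^ 3 * Real.exp μ) * Real.exp (-μ) * L / 64 =
                5 * μ * L * (J₀ * e) ^ 3 * (Real.exp (-μ) * Real.exp μ) := by ring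
              rw [this, hEE]
              ring
          _ ≤ L * Real.exp (-μ) * L / 64 := by
              apply div_le_div_of_nonneg_right _ (by norm_num)
              exact mul_le_mul_of_nonneg_right (mul_le_mul_of_nonneg_right h6 hEμ'.le) hLpos.le
          _ = 1 / 64 * Real.exp (-μ) * L ^ 2 := by ring
          _ ≤ 1 / 64 * Real.exp (-μ) * L ^ 3 := by
              apply mul_le_mul_of_nonneg_left _ (by positivity)
              exact pow_le_pow_right₀ (by linarith) (by norm_num)
      rw [hδ]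
      linarith
    set S : Finset ℤ := (Ioc (M : ℤ) (M + N)).filter (fun n : ℤ => (P : ℤ) ∣ n - b) with hS
    have hgc := group_count S z V m J₀ G₀ hG0 (fun k => k) (fun k hk =>
      ⟨lt_of_lt_of_le hk hG1, fun k' hk' => hk'.ne⟩)
      (δ * ((N : ℝ) / P + 1)) (by
        intro r hr
        have hlt : ∀ s : Fin J₀, r * J₀ + s < m := by
          intro s
          have h1 := s.2
          calc r * J₀ + (s : ℕ) < r * J₀ + J₀ := by omega
            _ = (r + 1) * J₀ := by ring
            _ ≤ G₀ * J₀ := Nat.mul_le_mul_right _ hr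
            _ ≤ m := hG1
        have h1 := hcls L e hLL₀ hee₀ hel J₀ hJ1 hLJ (2 * Real.log d) (by positivity)
          (fun s : Fin J₀ => V (r * J₀ + s)) (b : ℤ) (by
            intro s s' hss
            apply Vd_disj d F _ _ (httd _ (hlt s)) (httd _ (hlt s'))
            intro h
            have h2 := (tt_strict g b hgpos).injective h
            exact hss (Fin.ext (by omega))) (by
            intro s v hv
            refine (Vd_size d F _ (httd _ (hlt s)) hFd v hv).trans (le_of_eq ?_)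
            rw [two_mul, Real.exp_add, Real.exp_log hd0, sq]) (by
            intro s
            exact hsv _) M N hNr
        refine le_trans ?_ h1
        rw [Nat.cast_le]
        apply Finset.card_le_card
        intro n hn
        rw [hS, Finset.filter_filter, Finset.mem_filter] at hn
        rw [Finset.mem_filter]
        exact ⟨hn.1, hn.2.1, hn.2.2⟩)
    have hcl := class_late (M : ℤ) N d hdpos x hx1 (b : ℤ) m (fun i => tt g b i) z V θ
      (2 * (δ * ((N : ℝ) / P + 1))) ((G₀ : ℝ) / 2) hmpos hθ0 hθG (by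
        refine le_trans ?_ hgc
        rw [Nat.cast_le]
        apply Finset.card_le_card
        intro n hn
        rw [Finset.mem_filter] at hn
        rw [Finset.mem_filter, hS, Finset.mem_filter]
        exact ⟨⟨hn.1, hn.2.1⟩, hn.2.2⟩)
    refine hcl.trans ?_
    have h1 : 2 * (δ * ((N : ℝ) / P + 1)) ≤ 1 / 8 * Real.exp (-μ) * (N / P) := by
      calc 2 * (δ * ((N : ℝ) / P + 1)) ≤ 2 * (δ * ((N : ℝ) / P + N / P)) := by
            apply mul_le_mul_of_nonneg_left _ (by norm_num)
            apply mul_le_mul_of_nonneg_left _ hδ0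
            linarith
        _ = 4 * δ * (N / P) := by ring
        _ ≤ 4 * (1 / 32 * Real.exp (-μ)) * (N / P) := by
            apply mul_le_mul_of_nonneg_right _ (by linarith)
            linarith
        _ = _ := by ring
    have h2 : ((N : ℝ) / P * (Real.log d / (x * Real.log x)) + Real.log d / Real.log x) / θ ≤
        1 / 8 * Real.exp (-μ) * (N / P) := by
      have h3 : Real.log d / Real.log x ≤ (N : ℝ) / P * (Real.log d / (x * Real.log x)) := by
        have h4 : Real.log d / Real.log x = x * (Real.log d / (x * Real.log x)) := by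
          field_simp
        rw [h4]
        exact mul_le_mul_of_nonneg_right hxNP (by positivity)
      calc ((N : ℝ) / P * (Real.log d / (x * Real.log x)) + Real.log d / Real.log x) / θ
          ≤ (2 * ((N : ℝ) / P * (Real.log d / (x * Real.log x)))) / θ := by
            apply div_le_div_of_nonneg_right _ hθ0.le
            linarith
        _ = (128 / (η * Real.log x) / θ) * (N / P) := by rw [hsumeq]; ring
        _ ≤ _ := mul_le_mul_of_nonneg_right hsum2 (by linarith)
    linarith

end Pool.Agent.T2h81.UC
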