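import Pool.Agent.T2h81.UC.D1

set_option autoImplicit false
set_option linter.unusedVariables false
set_option maxHeartbeats 4000000

/-! # Grouping for linear forms -/

namespace Pool.Agent.T2h81.UC

open Finset Filter Pool.Agent.H256R2.SC Pool.Agent.Y831.RC

open scoped Classical

/-- from groups to the number of covered sets -/
theorem group_countL (S : Finset ℤ) (z : ℝ) (V : ℕ → Finset (ℤ × ℤ)) (m J₀ g : ℕ) (hg : 0 < g) (a : ℕ → ℕ)
    (ha : ∀ k < g * J₀, a k < m ∧ ∀ k' < k, a k' ≠ a k) (Bd : ℝ)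
    (hb : ∀ r < g, ((S.filter (fun n => ¬ ∃ s : Fin J₀, CovL z (V (a (r * J₀ + s))) n)).card : ℝ) ≤ Bd) :
    ((S.filter (fun n => (((range m).filter (fun i => CovL z (V i) n)).card : ℝ) < g / 2)).card : ℝ) ≤
      2 * Bd := by
  have hg0 : (0:ℝ) < g := by exact_mod_cast hg
  set bad : ℤ → Finset ℕ := fun n => (range g).filter (fun r => ¬ ∃ s : Fin J₀, CovL z (V (a (r * J₀ + s))) n)
    with hbad
  set good : ℤ → Finset ℕ := fun n => (range g).filter (fun r => ∃ s : Fin J₀, CovL z (V (a (r * J₀ + s))) n)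
    with hgood
  have hsum : ∀ n, (good n).card + (bad n).card = g := by
    intro n
    have := Finset.card_filter_add_card_filter_not (s := range g)
      (fun r => ∃ s : Fin J₀, CovL z (V (a (r * J₀ + s))) n)
    rw [Finset.card_range] at this
    exact this
  have hinj : ∀ k < g * J₀, ∀ k' < g * J₀, a k = a k' → k = k' := by
    intro k hk k' hk' h
    rcases lt_trichotomy k k' with h1 | h1 | h1
    · exact absurd h ((ha k' hk').2 k h1)
    · exact h1
    · exact absurd h.symm ((ha k hk).2 k' h1)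
  have hlt : ∀ r < g, ∀ s : Fin J₀, r * J₀ + s < g * J₀ := by
    intro r hr s
    have h1 := s.2
    calc r * J₀ + (s : ℕ) < r * J₀ + J₀ := by omega
      _ = (r + 1) * J₀ := by ring
      _ ≤ g * J₀ := Nat.mul_le_mul_right _ hr
  have hcov : ∀ n, (good n).card ≤ ((range m).filter (fun i => CovL z (V i) n)).card := by
    intro n
    have hex : ∀ r, ∃ s : ℕ, r ∈ good n → s < J₀ ∧ CovL z (V (a (r * J₀ + s))) n := by
      intro r
      by_cases h : r ∈ good n
      · obtain ⟨s, hs⟩ := (Finset.mem_filter.1 h).2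
        exact ⟨s, fun _ => ⟨s.2, hs⟩⟩
      · exact ⟨0, fun h' => absurd h' h⟩
    choose f hf using hex
    apply Finset.card_le_card_of_injOn (fun r => a (r * J₀ + f r))
    · intro r hr
      rw [Finset.mem_coe] at hr
      obtain ⟨h1, h2⟩ := hf r hr
      have hr' := Finset.mem_range.1 (Finset.mem_filter.1 hr).1
      rw [Finset.mem_coe, Finset.mem_filter, Finset.mem_range]
      exact ⟨(ha _ (hlt r hr' ⟨f r, h1⟩)).1, h2⟩
    · intro r hr r' hr' h
      rw [Finset.mem_coe] at hr hr'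
      obtain ⟨h1, h2⟩ := hf r hr
      obtain ⟨h1', h2'⟩ := hf r' hr'
      have hr1 := Finset.mem_range.1 (Finset.mem_filter.1 hr).1
      have hr1' := Finset.mem_range.1 (Finset.mem_filter.1 hr').1
      have h3 := hinj _ (hlt r hr1 ⟨f r, h1⟩) _ (hlt r' hr1' ⟨f r', h1'⟩) h
      have h4 : (r * J₀ + f r) / J₀ = (r' * J₀ + f r') / J₀ := by
        have : r * J₀ + f r = r' * J₀ + f r' := h3
        rw [this]
      have hJ : 0 < J₀ := by omega
      rwa [mul_comm r, mul_comm r', Nat.mul_add_div hJ, Nat.mul_add_div hJ, Nat.div_eq_of_lt h1,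
        Nat.div_eq_of_lt h1', add_zero, add_zero] at h4
  set T : Finset ℤ := S.filter (fun n => (((range m).filter (fun i => CovL z (V i) n)).card : ℝ) < g / 2)
    with hT
  have h1 : (g : ℝ) / 2 * T.card ≤ ∑ n ∈ T, ((bad n).card : ℝ) := by
    rw [mul_comm, ← nsmul_eq_mul, ← Finset.sum_const]
    apply Finset.sum_le_sum
    intro n hn
    have h2 := (Finset.mem_filter.1 hn).2
    have h3 : ((good n).card : ℝ) < g / 2 := lt_of_le_of_lt (by exact_mod_cast hcov n) h2
    have h4 : ((good n).card : ℝ) + (bad n).card = g := by exact_mod_cast hsum n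
    linarith
  have h2 : ∑ n ∈ T, ((bad n).card : ℝ) ≤ ∑ n ∈ S, ((bad n).card : ℝ) :=
    Finset.sum_le_sum_of_subset_of_nonneg (Finset.filter_subset _ _) fun _ _ _ => Nat.cast_nonneg _
  have h3 : ∑ n ∈ S, ((bad n).card : ℝ) = ∑ r ∈ range g,
      ((S.filter (fun n => ¬ ∃ s : Fin J₀, CovL z (V (a (r * J₀ + s))) n)).card : ℝ) := by
    have : ∑ n ∈ S, (bad n).card = ∑ r ∈ range g,
      (S.filter (fun n => ¬ ∃ s : Fin J₀, CovL z (V (a (r * J₀ + s))) n)).card := by
      simp only [hbad]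
      exact Finset.sum_card_bipartiteAbove_eq_sum_card_bipartiteBelow
        (fun n r => ¬ ∃ s : Fin J₀, CovL z (V (a (r * J₀ + s))) n)
    exact_mod_cast this
  have h4 : ∑ r ∈ range g,
      ((S.filter (fun n => ¬ ∃ s : Fin J₀, CovL z (V (a (r * J₀ + s))) n)).card : ℝ) ≤ g * Bd := by
    calc _ ≤ ∑ _r ∈ range g, Bd := Finset.sum_le_sum fun r hr => hb r (Finset.mem_range.1 hr)
      _ = g * Bd := by rw [Finset.sum_const, Finset.card_range, nsmul_eq_mul]
  have h5 : (g : ℝ) / 2 * T.card ≤ g * Bd := h1.trans (h2.trans (h3.le.trans h4))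
  have h6 : (g : ℝ) * T.card ≤ g * (2 * Bd) := by linarith
  exact le_of_mul_le_mul_left h6 hg0

end Pool.Agent.T2h81.UC
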