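import Pool.Agent.T2h81.UC.B4

set_option autoImplicit false
set_option linter.unusedSectionVars false
set_option linter.unusedVariables false
set_option maxHeartbeats 4000000

/-! # One class modulo the small primes, sets of linear forms -/

namespace Pool.Agent.T2h81.UC

open Finset Filter Pool.Agent.H256R2.SC Pool.Agent.Y831.RC

open scoped Classical

/-- all the values at `n` of the linear forms of `V` have a prime factor at most `z` -/
def CovL (z : ℝ) (V : Finset (ℤ × ℤ)) (n : ℤ) : Prop :=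
  ∀ v ∈ V, ∃ p : ℕ, p.Prime ∧ (p : ℝ) ≤ z ∧ (p : ℤ) ∣ v.1 * n + v.2

/-- the forms of `V` whose values are prime to `P`, in the class of `b` -/
noncomputable def svL (P : ℕ) (b : ℤ) (V : Finset (ℤ × ℤ)) : Finset (ℤ × ℤ) :=
  V.filter (fun v => Int.gcd (v.1 * b + v.2) P = 1)

/-- an inverse modulo a prime -/
theorem inv_int {p : ℕ} (hp : p.Prime) (a : ℤ) (h : ¬ (p : ℤ) ∣ a) : ∃ i : ℤ, (p : ℤ) ∣ a * i - 1 := by
  have hc : IsCoprime (p : ℤ) a := (Nat.prime_iff_prime_int.1 hp).coprime_iff_not_dvd.2 h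
  obtain ⟨u, v, huv⟩ := hc
  exact ⟨v, -u, by linear_combination huv⟩

/-- one class -/
theorem class_famL (w Y z x u η len Cc T : ℝ) (J₀ : ℕ) (V : Fin J₀ → Finset (ℤ × ℤ)) (b : ℤ) (hx0 : 0 ≤ x)
    (hxw : x ≤ w) (hw1 : 1 ≤ w) (hxz : x ≤ z) (hu0 : 0 ≤ u)
    (hwY : w ≤ Real.exp Y) (hCc : 0 ≤ Cc) (hη : 0 ≤ η) (hT : 0 ≤ T)
    (hdisj : ∀ i j, i ≠ j → Disjoint (V i) (V j))
    (hpos : ∀ i, ∀ v ∈ V i, v.1 ≠ 0)
    (hdet : ∀ i j, ∀ v ∈ V i, ∀ v' ∈ V j, v ≠ v' → v.1 * v'.2 - v'.1 * v.2 ≠ 0)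
    (hsize : ∀ i, ∀ v ∈ V i, |(v.1 : ℝ)| ≤ Real.exp T ∧ |(v.2 : ℝ)| ≤ Real.exp T)
    (hcard : ∀ i, ((svL (primorial ⌊x⌋₊) b (V i)).card : ℝ) ≤ u)
    (hJw : (J₀ : ℝ) * u ≤ w) (hwl : w ≤ len)
    (hcov : ∀ (κ : Fin J₀ → Type) [∀ i, Fintype (κ i)] [∀ i, DecidableEq (κ i)],
      (∀ i, (Fintype.card (κ i) : ℝ) ≤ u) → ∀ (res : ∀ i, ℕ → κ i → ℤ),
      (∀ i, ∀ p : ℕ, p.Prime → w < p → (p : ℝ) ≤ z → ∀ k l, k ≠ l →
        ¬ ((p : ℤ) ∣ res i p k - res i p l)) →
      (∀ i j, i ≠ j → ∀ p : ℕ, p.Prime → Real.exp Y < p →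
        (p : ℝ) ≤ z → ∀ k l, ¬ ((p : ℤ) ∣ res i p k - res j p l)) →
      (∀ i j, i ≠ j → ∑ q, 1 / ((emb (PS w (Real.exp Y) ∅) q : ℕ) : ℝ) *
        ∑ k, ∑ l, (if coll (PS w (Real.exp Y) ∅) (res i) (res j) q k l
          then 1 else 0) ≤ Cc) →
      ∀ A B : ℤ, len ≤ (B : ℝ) - A →
      (((Ioc A B).filter (fun x : ℤ => ¬ ∃ i, ∀ k : κ i, ∃ p : ℕ, p.Prime ∧ w < (p : ℝ) ∧
        (p : ℝ) ≤ z ∧ (p : ℤ) ∣ x - res i p k)).card : ℝ) ≤ η * ((B : ℝ) - A))
    (hYz : Real.exp Y ≤ z)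
    (M : ℤ) (N : ℕ) (hlen : len ≤ (N : ℝ) / (primorial ⌊x⌋₊ : ℝ) - 1) :
    (((Ioc M (M + N)).filter (fun n : ℤ => ((primorial ⌊x⌋₊ : ℕ) : ℤ) ∣ n - b ∧
      ¬ ∃ i, CovL z (V i) n)).card : ℝ) ≤
      (η + (J₀ * u) ^ 3 * (8 * (T + 1)) / w) * ((N : ℝ) / (primorial ⌊x⌋₊ : ℝ) + 1) := by
  set P : ℕ := primorial ⌊x⌋₊ with hPdef
  have hPpos : 0 < P := primorial_pos _
  have hPr : (0 : ℝ) < P := by exact_mod_cast hPpos
  have hPz : (0 : ℤ) < P := by exact_mod_cast hPpos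
  have hw0 : 0 < w := by linarith
  have hfloor : ∀ p : ℕ, p ≤ ⌊x⌋₊ ↔ (p : ℝ) ≤ x := fun p => Nat.le_floor_iff hx0
  have hndvdP : ∀ p : ℕ, p.Prime → w < p → ¬ p ∣ P := by
    intro p hp hpX h
    have := (hfloor p).1 ((hp.dvd_primorial_iff).1 h)
    linarith
  set A' : ℤ := (M - b) / P with hA'
  set B' : ℤ := (M + N - b) / P with hB'
  have hA1 : (P : ℤ) * A' ≤ M - b := Int.mul_ediv_self_le hPz.ne'
  have hA2 : M - b < (P : ℤ) * A' + P := Int.lt_mul_ediv_self_add hPz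
  have hB1 : (P : ℤ) * B' ≤ M + N - b := Int.mul_ediv_self_le hPz.ne'
  have hB2 : M + N - b < (P : ℤ) * B' + P := Int.lt_mul_ediv_self_add hPz
  have rA1 : (P : ℝ) * A' ≤ M - b := by exact_mod_cast hA1
  have rA2 : (M : ℝ) - b < (P : ℝ) * A' + P := by exact_mod_cast hA2
  have rB1 : (P : ℝ) * B' ≤ M + N - b := by exact_mod_cast hB1
  have rB2 : (M : ℝ) + N - b < (P : ℝ) * B' + P := by exact_mod_cast hB2
  have hBA1 : (N : ℝ) / P - 1 ≤ (B' : ℝ) - A' := by
    rw [div_sub_one hPr.ne', div_le_iff₀ hPr]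
    nlinarith
  have hBA2 : (B' : ℝ) - A' ≤ (N : ℝ) / P + 1 := by
    rw [div_add_one hPr.ne', le_div_iff₀ hPr]
    nlinarith
  have hBAw : w ≤ (B' : ℝ) - A' := hwl.trans (hlen.trans hBA1)
  have hBA0 : 0 < (B' : ℝ) - A' := by linarith
  have hABle : A' ≤ B' := by
    have h2 : (A' : ℝ) ≤ B' := by linarith
    exact_mod_cast h2
  -- the points
  set κ : Fin J₀ → Type := fun i => (svL P b (V i) : Finset (ℤ × ℤ)) with hκ
  have hκu : ∀ i, (Fintype.card (κ i) : ℝ) ≤ u := by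
    intro i
    have := hcard i
    simp only [hκ]
    rw [Fintype.card_coe]
    exact this
  set KK : Type := (i : Fin J₀) × κ i with hKK
  let vl : KK → ℤ × ℤ := fun α => ((α.2 : (svL P b (V α.1) : Finset (ℤ × ℤ))) : ℤ × ℤ)
  have hvlV : ∀ α : KK, vl α ∈ V α.1 := fun α => (Finset.mem_filter.1 α.2.2).1
  have hvl : ∀ α β : KK, α ≠ β → vl α ≠ vl β := by
    rintro ⟨i, k⟩ ⟨j, l⟩ hne h
    by_cases hij : i = j
    · subst hij
      apply hne
      have : k = l := Subtype.ext h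
      rw [this]
    · have h1 := hvlV ⟨i, k⟩
      have h2 := hvlV ⟨j, l⟩
      rw [h] at h1
      exact Finset.disjoint_left.1 (hdisj i j hij) h1 h2
  have hKcard : (Fintype.card KK : ℝ) ≤ J₀ * u := by
    rw [Fintype.card_sigma]
    push_cast
    calc ∑ i : Fin J₀, (Fintype.card (κ i) : ℝ) ≤ ∑ _i : Fin J₀, u := Finset.sum_le_sum fun i _ => hκu i
      _ = J₀ * u := by rw [Finset.sum_const, Finset.card_univ, Fintype.card_fin, nsmul_eq_mul]
  have hK0 : (0:ℝ) ≤ Fintype.card KK := Nat.cast_nonneg _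
  let fk : KK → ℤ := fun α => ((Fintype.equivFin KK α : ℕ) : ℤ)
  have hfk0 : ∀ α, 0 ≤ fk α := fun α => Int.natCast_nonneg _
  have hfk1 : ∀ α, ((fk α : ℤ) : ℝ) < w := by
    intro α
    have h1 := (Fintype.equivFin KK α).2
    have h2 : ((Fintype.equivFin KK α : ℕ) : ℝ) < Fintype.card KK := by exact_mod_cast h1
    have h3 : ((fk α : ℤ) : ℝ) = ((Fintype.equivFin KK α : ℕ) : ℝ) := by simp only [fk]; push_cast; rfl
    rw [h3]
    linarith
  have hfkinj : ∀ α β, fk α = fk β → α = β := by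
    intro α β h
    have h1 : (Fintype.equivFin KK α : ℕ) = (Fintype.equivFin KK β : ℕ) := Nat.cast_injective (R := ℤ) h
    exact (Fintype.equivFin KK).injective (Fin.ext h1)
  -- the bad primes
  let dt : KK → KK → ℤ := fun α β => if α = β then (vl α).1 else (vl α).1 * (vl β).2 - (vl β).1 * (vl α).2
  have hdt0 : ∀ α β, dt α β ≠ 0 := by
    intro α β
    by_cases h : α = β
    · simp only [dt, if_pos h]
      exact hpos _ _ (hvlV α)
    · simp only [dt, if_neg h]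
      exact hdet _ _ _ (hvlV α) _ (hvlV β) (hvl α β h)
  set S : Finset ℕ := (Finset.Icc 1 ⌊z⌋₊).filter (fun p => p.Prime ∧ w < (p : ℝ) ∧
    ∃ α β : KK, (p : ℤ) ∣ dt α β) with hS
  have hScard : (S.card : ℝ) ≤ (J₀ * u) ^ 2 * (4 * (T + 1)) := by
    have h1 : S ⊆ (univ : Finset (KK × KK)).biUnion (fun q => S.filter (fun p : ℕ => (p : ℤ) ∣ dt q.1 q.2)) := by
      intro p hp
      have hp' := (Finset.mem_filter.1 hp).2
      obtain ⟨_, _, α, β, hd⟩ := hp'
      rw [Finset.mem_biUnion]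
      exact ⟨(α, β), Finset.mem_univ _, Finset.mem_filter.2 ⟨hp, hd⟩⟩
    have h2 : ∀ q : KK × KK, (((S.filter (fun p : ℕ => (p : ℤ) ∣ dt q.1 q.2) : Finset ℕ)).card : ℝ) ≤
        4 * (T + 1) := by
      intro q
      have hE0 := Real.exp_pos T
      have hE1 : 1 ≤ Real.exp T := Real.one_le_exp hT
      have g4 : (2:ℝ) ≤ Real.exp 1 := by
        have := Real.add_one_le_exp (1:ℝ)
        linarith
      have hE2 : Real.exp (2 * T + 1) = Real.exp T * Real.exp T * Real.exp 1 := by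
        rw [← Real.exp_add, ← Real.exp_add]; congr 1; ring
      have h3 : ((S.filter (fun p : ℕ => (p : ℤ) ∣ dt q.1 q.2)).card : ℝ) ≤ 2 * (2 * T + 1) := by
        apply few_primes _ _ (dt q.1 q.2) (hdt0 _ _) (2 * T + 1)
        · obtain ⟨a1, a2⟩ := hsize _ _ (hvlV q.1)
          obtain ⟨b1, b2⟩ := hsize _ _ (hvlV q.2)
          rw [hE2]
          by_cases h : q.1 = q.2
          · simp only [dt, if_pos h]
            refine a1.trans ?_
            nlinarith [mul_pos hE0 hE0]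
          · simp only [dt, if_neg h]
            push_cast
            have c1 : |((vl q.1).1 : ℝ) * (vl q.2).2| ≤ Real.exp T * Real.exp T := by
              rw [abs_mul]
              exact mul_le_mul a1 b2 (abs_nonneg _) hE0.le
            have c2 : |((vl q.2).1 : ℝ) * (vl q.1).2| ≤ Real.exp T * Real.exp T := by
              rw [abs_mul]
              exact mul_le_mul b1 a2 (abs_nonneg _) hE0.le
            have c3 : |((vl q.1).1 : ℝ) * (vl q.2).2 - (vl q.2).1 * (vl q.1).2| ≤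
                |((vl q.1).1 : ℝ) * (vl q.2).2| + |((vl q.2).1 : ℝ) * (vl q.1).2| := abs_sub _ _
            nlinarith [mul_pos hE0 hE0]
        · intro p hp
          exact (Finset.mem_filter.1 hp).2
        · intro p hp
          exact (Finset.mem_filter.1 (Finset.mem_filter.1 hp).1).2.1
      linarith
    calc (S.card : ℝ) ≤ ((∑ q : KK × KK, ((S.filter (fun p : ℕ => (p : ℤ) ∣ dt q.1 q.2) : Finset ℕ)).card : ℕ) : ℝ) := by
          exact_mod_cast (Finset.card_le_card h1).trans Finset.card_biUnion_le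
      _ ≤ ∑ _q : KK × KK, 4 * (T + 1) := by
          push_cast
          exact Finset.sum_le_sum fun q _ => h2 q
      _ = (Fintype.card KK : ℝ) ^ 2 * (4 * (T + 1)) := by
          rw [Finset.sum_const, Finset.card_univ, Fintype.card_prod, nsmul_eq_mul]
          push_cast
          ring
      _ ≤ _ := by
          apply mul_le_mul_of_nonneg_right _ (by positivity)
          exact pow_le_pow_left₀ hK0 hKcard 2
  have hnotS : ∀ p : ℕ, p.Prime → w < p → (p : ℝ) ≤ z → p ∉ S → ∀ α β : KK, ¬ (p : ℤ) ∣ dt α β := by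
    intro p hp hpw hpz hpS α β hd
    apply hpS
    rw [hS, Finset.mem_filter, Finset.mem_Icc]
    exact ⟨⟨hp.one_lt.le, Nat.le_floor hpz⟩, hp, hpw, α, β, hd⟩
  -- inverses
  have hinv : ∀ (p : ℕ) (α : KK), ∃ i : ℤ, p.Prime → w < p → (p : ℝ) ≤ z → p ∉ S →
      (p : ℤ) ∣ ((vl α).1 * P) * i - 1 := by
    intro p α
    by_cases h : p.Prime ∧ w < p ∧ (p : ℝ) ≤ z ∧ p ∉ S
    · obtain ⟨h1, h2, h3, h4⟩ := h
      have h5 : ¬ (p : ℤ) ∣ (vl α).1 * P := by
        intro h6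
        rcases (Nat.prime_iff_prime_int.1 h1).dvd_or_dvd h6 with h7 | h7
        · have := hnotS p h1 h2 h3 h4 α α
          simp only [dt, if_pos] at this
          exact this h7
        · exact hndvdP p h1 h2 (Int.natCast_dvd_natCast.1 h7)
      obtain ⟨i, hi⟩ := inv_int h1 _ h5
      exact ⟨i, fun _ _ _ _ => hi⟩
    · exact ⟨0, fun h1 h2 h3 h4 => absurd ⟨h1, h2, h3, h4⟩ h⟩
  choose ip hip using hinv
  -- the residues
  let res : ∀ i, ℕ → κ i → ℤ := fun i p k =>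
    if p ∈ S then fk ⟨i, k⟩ else -(((vl ⟨i, k⟩).1 * b + (vl ⟨i, k⟩).2) * ip p ⟨i, k⟩)
  have hres : ∀ i j, ∀ p : ℕ, p.Prime → w < p → (p : ℝ) ≤ z → ∀ (k : κ i) (l : κ j),
      (⟨i, k⟩ : KK) ≠ ⟨j, l⟩ → ¬ (p : ℤ) ∣ res i p k - res j p l := by
    intro i j p hp hpw hpz k l hkl hd
    by_cases hpS : p ∈ S
    · simp only [res, if_pos hpS] at hd
      have h1 : fk ⟨i, k⟩ - fk ⟨j, l⟩ = 0 := by
        apply Int.eq_zero_of_abs_lt_dvd hd
        have h2 := hfk1 ⟨i, k⟩
        have h3 := hfk1 ⟨j, l⟩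
        have h4 := hfk0 ⟨i, k⟩
        have h5 := hfk0 ⟨j, l⟩
        have h6 : fk ⟨i, k⟩ < (p : ℤ) := by
          have : ((fk ⟨i, k⟩ : ℤ) : ℝ) < ((p : ℤ) : ℝ) := by push_cast; linarith
          exact_mod_cast this
        have h7 : fk ⟨j, l⟩ < (p : ℤ) := by
          have : ((fk ⟨j, l⟩ : ℤ) : ℝ) < ((p : ℤ) : ℝ) := by push_cast; linarith
          exact_mod_cast this
        rw [abs_lt]
        constructor <;> omega
      exact hkl (hfkinj _ _ (by omega))
    · simp only [res, if_neg hpS] at hd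
      have h1 := hip p ⟨i, k⟩ hp hpw hpz hpS
      have h2 := hip p ⟨j, l⟩ hp hpw hpz hpS
      have h3 := hnotS p hp hpw hpz hpS ⟨i, k⟩ ⟨j, l⟩
      simp only [dt, if_neg hkl] at h3
      set α := vl ⟨i, k⟩ with hα
      set β := vl ⟨j, l⟩ with hβ
      set ia := ip p ⟨i, k⟩ with hia
      set ib := ip p ⟨j, l⟩ with hib
      have h4 : (p : ℤ) ∣ (P : ℤ) * (α.1 * β.2 - β.1 * α.2) := by
        have e1 := hd.mul_left ((α.1 * P) * (β.1 * P))
        have e2 := h1.mul_left ((α.1 * b + α.2) * (β.1 * P))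
        have e3 := h2.mul_left ((β.1 * b + β.2) * (α.1 * P))
        have e4 := dvd_sub (dvd_add e1 e2) e3
        have e5 : (α.1 * P) * (β.1 * P) * (-((α.1 * b + α.2) * ia) - -((β.1 * b + β.2) * ib)) +
            (α.1 * b + α.2) * (β.1 * P) * (α.1 * P * ia - 1) -
            (β.1 * b + β.2) * (α.1 * P) * (β.1 * P * ib - 1) = P * (α.1 * β.2 - β.1 * α.2) := by ring
        rwa [e5] at e4
      rcases (Nat.prime_iff_prime_int.1 hp).dvd_or_dvd h4 with h5 | h5
      · exact hndvdP p hp hpw (Int.natCast_dvd_natCast.1 h5)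
      · exact h3 h5
  have hcount := hcov κ hκu res (by
      intro i p hp hp1 hp2 k l hkl
      apply hres i i p hp hp1 hp2 k l
      intro h
      apply hkl
      exact eq_of_heq (Sigma.mk.inj h).2) (by
      intro i j hij p hp hp1 hp2 k l
      apply hres i j p hp (lt_of_le_of_lt hwY hp1) hp2 k l
      intro h
      exact hij (Sigma.mk.inj h).1) (by
      intro i j hij
      refine le_trans (le_of_eq ?_) hCc
      apply Finset.sum_eq_zero
      intro q _
      obtain ⟨g1, g2, g3⟩ := PS_mem (Real.exp_pos Y).le (emb_mem (PS w (Real.exp Y) ∅) q)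
      have h1 : ∑ k, ∑ l, (if coll (PS w (Real.exp Y) ∅) (res i) (res j) q k l
          then (1:ℝ) else 0) = 0 := by
        apply Finset.sum_eq_zero
        intro k _
        apply Finset.sum_eq_zero
        intro l _
        rw [if_neg]
        intro hc
        exact hres i j _ g1 g2 (g3.trans hYz) k l (fun h => hij (Sigma.mk.inj h).1) hc
      rw [h1, mul_zero]) A' B' (hlen.trans hBA1)
  -- the hits by bad primes
  set FH : Finset ℤ := S.biUnion (fun p => (univ : Finset KK).biUnion (fun α =>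
    (Ioc A' B').filter (fun y : ℤ => (p : ℤ) ∣ y - fk α))) with hFH
  have hFHcard : (FH.card : ℝ) ≤ (J₀ * u) ^ 3 * (8 * (T + 1)) / w * ((B' : ℝ) - A') := by
    have h1 : ∀ p ∈ S, ∀ α : KK, ((((Ioc A' B').filter (fun y : ℤ => (p : ℤ) ∣ y - fk α)).card : ℕ) : ℝ) ≤
        2 / w * ((B' : ℝ) - A') := by
      intro p hp α
      have hp' := (Finset.mem_filter.1 hp).2
      have h2 := LG.count_Ioc A' B' hABle p hp'.1.pos (fk α)
      have h3 := (abs_le.1 h2).2
      have h4 : ((B' : ℝ) - A') / p ≤ ((B' : ℝ) - A') / w :=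
        div_le_div_of_nonneg_left hBA0.le hw0 hp'.2.1.le
      have h5 : 1 ≤ ((B' : ℝ) - A') / w := by rw [le_div_iff₀ hw0]; linarith
      have h6 : 2 / w * ((B' : ℝ) - A') = ((B' : ℝ) - A') / w + ((B' : ℝ) - A') / w := by ring
      rw [h6]
      linarith
    have h2 : (FH.card : ℝ) ≤ ∑ p ∈ S, ∑ α : KK,
        ((((Ioc A' B').filter (fun y : ℤ => (p : ℤ) ∣ y - fk α)).card : ℕ) : ℝ) := by
      have g1 : FH.card ≤ ∑ p ∈ S, ∑ α : KK,
        ((Ioc A' B').filter (fun y : ℤ => (p : ℤ) ∣ y - fk α)).card := by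
        refine Finset.card_biUnion_le.trans ?_
        exact Finset.sum_le_sum fun p _ => Finset.card_biUnion_le
      exact_mod_cast g1
    refine h2.trans ?_
    calc ∑ p ∈ S, ∑ α : KK, ((((Ioc A' B').filter (fun y : ℤ => (p : ℤ) ∣ y - fk α)).card : ℕ) : ℝ)
        ≤ ∑ p ∈ S, ∑ _α : KK, 2 / w * ((B' : ℝ) - A') :=
          Finset.sum_le_sum fun p hp => Finset.sum_le_sum fun α _ => h1 p hp α
      _ = (S.card : ℝ) * (Fintype.card KK : ℝ) * (2 / w * ((B' : ℝ) - A')) := by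
          rw [Finset.sum_const, Finset.sum_const, Finset.card_univ, nsmul_eq_mul, nsmul_eq_mul]
          ring
      _ ≤ ((J₀ * u) ^ 2 * (4 * (T + 1))) * (J₀ * u) * (2 / w * ((B' : ℝ) - A')) := by
          apply mul_le_mul_of_nonneg_right _ (by positivity)
          exact mul_le_mul hScard hKcard hK0 (by positivity)
      _ = _ := by ring
  set G1 : Finset ℤ := (Ioc A' B').filter (fun x : ℤ => ¬ ∃ i, ∀ k : κ i, ∃ p : ℕ, p.Prime ∧ w < (p : ℝ) ∧
        (p : ℝ) ≤ z ∧ (p : ℤ) ∣ x - res i p k) with hG1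
  have hfin : (((Ioc M (M + N)).filter (fun n : ℤ => ((P : ℕ) : ℤ) ∣ n - b ∧
      ¬ ∃ i, CovL z (V i) n)).card : ℝ) ≤ (G1.card : ℝ) + FH.card := by
    have h0 : ((Ioc M (M + N)).filter (fun n : ℤ => ((P : ℕ) : ℤ) ∣ n - b ∧
      ¬ ∃ i, CovL z (V i) n)).card ≤ (G1 ∪ FH).card := by
      apply Finset.card_le_card_of_injOn (fun n : ℤ => (n - b) / (P : ℤ))
      · intro n hn
        rw [Finset.mem_coe, Finset.mem_filter, Finset.mem_Ioc] at hn
        obtain ⟨⟨hn1, hn2⟩, ⟨m, hm⟩, hn4⟩ := hn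
        have hm' : (n - b) / P = m := by
          rw [hm]
          exact Int.mul_ediv_cancel_left _ hPz.ne'
        rw [Finset.mem_coe, Finset.mem_union]
        show (n - b) / P ∈ G1 ∨ (n - b) / P ∈ FH
        rw [hm']
        have hmA : m ∈ Ioc A' B' := by
          rw [Finset.mem_Ioc]
          constructor
          · by_contra h
            have h1 : m ≤ A' := by omega
            have h2 : (P : ℤ) * m ≤ P * A' := mul_le_mul_of_nonneg_left h1 hPz.le
            omega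
          · by_contra h
            have h1 : B' + 1 ≤ m := by omega
            have h2 : (P : ℤ) * (B' + 1) ≤ P * m := mul_le_mul_of_nonneg_left h1 hPz.le
            have h3 : (P : ℤ) * (B' + 1) = P * B' + P := by ring
            omega
        by_contra hcon
        push Not at hcon
        obtain ⟨hc1, hc2⟩ := hcon
        have hc3 : ∃ i, ∀ k : κ i, ∃ p : ℕ, p.Prime ∧ w < (p : ℝ) ∧
            (p : ℝ) ≤ z ∧ (p : ℤ) ∣ m - res i p k := by
          by_contra hc4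
          exact hc1 (Finset.mem_filter.2 ⟨hmA, hc4⟩)
        obtain ⟨i, hi⟩ := hc3
        apply hn4
        refine ⟨i, fun v hv => ?_⟩
        by_cases hvS : v ∈ svL P b (V i)
        · obtain ⟨p, hp, hp1, hp2, hp3⟩ := hi ⟨v, hvS⟩
          refine ⟨p, hp, hp2, ?_⟩
          have hpS : p ∉ S := by
            intro hpS
            apply hc2
            rw [hFH, Finset.mem_biUnion]
            refine ⟨p, hpS, ?_⟩
            rw [Finset.mem_biUnion]
            refine ⟨⟨i, ⟨v, hvS⟩⟩, Finset.mem_univ _, ?_⟩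
            rw [Finset.mem_filter]
            refine ⟨hmA, ?_⟩
            simp only [res, if_pos hpS] at hp3
            exact hp3
          simp only [res, if_neg hpS] at hp3
          have h1 := hip p ⟨i, ⟨v, hvS⟩⟩ hp hp1 hp2 hpS
          have hvv : vl ⟨i, ⟨v, hvS⟩⟩ = v := rfl
          rw [hvv] at hp3 h1
          set ia := ip p ⟨i, ⟨v, hvS⟩⟩ with hia
          have h3 := hp3.mul_left (v.1 * (P : ℤ))
          have h4 := h1.mul_left (v.1 * b + v.2)
          have h5 := dvd_sub h3 h4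
          have h6 : v.1 * (P : ℤ) * (m - -((v.1 * b + v.2) * ia)) - (v.1 * b + v.2) * (v.1 * P * ia - 1) =
              v.1 * n + v.2 := by
            linear_combination -v.1 * hm
          rw [← h6]
          exact h5
        · have hg : Int.gcd (v.1 * b + v.2) P ≠ 1 := by
            intro hg
            exact hvS (Finset.mem_filter.2 ⟨hv, hg⟩)
          obtain ⟨p, hp, hpd⟩ := Nat.exists_prime_and_dvd hg
          have hp1 : (p : ℤ) ∣ v.1 * b + v.2 := (Int.natCast_dvd_natCast.2 hpd).trans (Int.gcd_dvd_left _ _)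
          have hp2 : (p : ℤ) ∣ (P : ℤ) := (Int.natCast_dvd_natCast.2 hpd).trans (Int.gcd_dvd_right _ _)
          have hp2' : p ∣ P := Int.natCast_dvd_natCast.1 hp2
          have hpx : (p : ℝ) ≤ x := (hfloor p).1 ((hp.dvd_primorial_iff).1 hp2')
          refine ⟨p, hp, hpx.trans hxz, ?_⟩
          have h3 : (p : ℤ) ∣ (P : ℤ) * (v.1 * m) := Dvd.dvd.mul_right hp2 _
          have h5 : v.1 * n + v.2 = (v.1 * b + v.2) + P * (v.1 * m) := by
            linear_combination v.1 * hm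
          rw [h5]
          exact dvd_add hp1 h3
      · intro n hn n' hn' h
        rw [Finset.mem_coe, Finset.mem_filter] at hn hn'
        obtain ⟨m, hm⟩ := hn.2.1
        obtain ⟨m', hm'⟩ := hn'.2.1
        have h1 : (n - b) / P = (n' - b) / P := h
        rw [hm, hm', Int.mul_ediv_cancel_left _ hPz.ne', Int.mul_ediv_cancel_left _ hPz.ne'] at h1
        rw [h1] at hm
        linarith
    have h1 := h0.trans (Finset.card_union_le _ _)
    exact_mod_cast h1
  have hG1c : (G1.card : ℝ) ≤ η * ((B' : ℝ) - A') := by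
    refine le_trans (le_of_eq ?_) hcount
    rw [hG1]
  have hk0 : 0 ≤ η + (J₀ * u) ^ 3 * (8 * (T + 1)) / w := by positivity
  calc (((Ioc M (M + N)).filter (fun n : ℤ => ((P : ℕ) : ℤ) ∣ n - b ∧
      ¬ ∃ i, CovL z (V i) n)).card : ℝ) ≤ (G1.card : ℝ) + FH.card := hfin
    _ ≤ η * ((B' : ℝ) - A') + (J₀ * u) ^ 3 * (8 * (T + 1)) / w * ((B' : ℝ) - A') :=
        add_le_add hG1c hFHcard
    _ = (η + (J₀ * u) ^ 3 * (8 * (T + 1)) / w) * ((B' : ℝ) - A') := by ring
    _ ≤ _ := mul_le_mul_of_nonneg_left hBA2 hk0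

end Pool.Agent.T2h81.UC
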