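import Pool.Agent.T2h81.UC.D1

set_option autoImplicit false
set_option linter.unusedSectionVars false
set_option linter.unusedVariables false
set_option maxHeartbeats 4000000

/-! # One class modulo the small primes, sets of linear forms: parameters -/

namespace Pool.Agent.T2h81.UC

open Finset Filter Pool.Agent.H256R2.SC Pool.Agent.Y831.RC

open scoped Classical

theorem class_mainL : ∃ c₃ e₀ L₀ : ℝ, 0 < c₃ ∧ 6400 ≤ e₀ ∧ 1600 ≤ L₀ ∧ ∀ L e : ℝ, L₀ ≤ L → e₀ ≤ e →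
    e ≤ 1 / 4 * Real.log L → ∀ J₀ : ℕ, Real.exp (e ^ 2 * Real.exp e + e / 2) ≤ J₀ →
    (J₀ : ℝ) ≤ L → ∀ T : ℝ, 0 ≤ T → ∀ (V : Fin J₀ → Finset (ℤ × ℤ)) (b : ℤ),
    (∀ i j, i ≠ j → Disjoint (V i) (V j)) →
    (∀ i, ∀ v ∈ V i, v.1 ≠ 0) →
    (∀ i j, ∀ v ∈ V i, ∀ v' ∈ V j, v ≠ v' → v.1 * v'.2 - v'.1 * v.2 ≠ 0) →
    (∀ i, ∀ v ∈ V i, |(v.1 : ℝ)| ≤ Real.exp T ∧ |(v.2 : ℝ)| ≤ Real.exp T) →
    (∀ i, ((svL (primorial ⌊L / 32⌋₊) b (V i)).card : ℝ) ≤ c₃ * e * L / Real.log L) →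
    ∀ (M : ℤ) (N : ℕ), Real.exp (2 * L) ≤ N →
    (((Ioc M (M + N)).filter (fun n : ℤ => ((primorial ⌊L / 32⌋₊ : ℕ) : ℤ) ∣ n - b ∧
      ¬ ∃ i, CovL (Real.exp (L / (6400 * e))) (V i) n)).card : ℝ) ≤
      (17 * Real.exp (-(e / 2)) + (J₀ * e) ^ 3 * (T + 1) / L ^ 3) *
        ((N : ℝ) / (primorial ⌊L / 32⌋₊ : ℝ) + 1) := by
  obtain ⟨c, C, hc, hcC, hWb⟩ := WW_bounds
  obtain ⟨CR, hCR0, hSR⟩ := sum_ratio
  obtain ⟨C₁, hC₁, hBH⟩ := BHyp_PS2
  have hC : 0 < C := hc.trans_le hcC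
  have h0a : 0 < 512 / c := by positivity
  have hE₁ := Real.exp_pos C₁
  obtain ⟨K₀, hK₀⟩ : ∃ K₀ : ℝ, K₀ = 6400 + 512 / c := ⟨_, rfl⟩
  obtain ⟨M₀, hM₀⟩ : ∃ M₀ : ℝ, M₀ = 1600 + Real.exp C₁ + 2 * CR := ⟨_, rfl⟩
  have hK1 : 6400 ≤ K₀ := by rw [hK₀]; linarith only [h0a]
  have hK4 : 512 / c ≤ K₀ := by rw [hK₀]; linarith only [h0a]
  have hM1 : 1600 ≤ M₀ := by rw [hM₀]; linarith only [hE₁, hCR0]
  have hM4 : Real.exp C₁ ≤ M₀ := by rw [hM₀]; linarith only [hE₁, hCR0]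
  have hM5 : 2 * CR ≤ M₀ := by rw [hM₀]; linarith only [hE₁, hCR0]
  obtain ⟨e₀, he₀⟩ := ev_e K₀ (by linarith only [hK1])
  obtain ⟨e₁, he₁⟩ := ev_e2 C hC
  obtain ⟨L₀, hL₀⟩ := ev_L5 (3 / 4) M₀ (by norm_num) (by norm_num) (by linarith only [hM1])
  refine ⟨c / 48, max 6400 (max e₀ e₁), max 1600 L₀, by positivity, le_max_left _ _, le_max_left _ _, ?_⟩
  intro L e hL he heu J₀ hJ1 hJL T hT V b hdisj hpos hdet hsize hcard M N hN
  have hee0 : e₀ ≤ e := (le_max_left _ _).trans ((le_max_right _ _).trans he)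
  have hee1 : e₁ ≤ e := (le_max_right _ _).trans ((le_max_right _ _).trans he)
  obtain ⟨he1, he3, helog⟩ := he₀ e hee0
  have he4 := he₁ e hee1
  obtain ⟨a1, a2, _, a4, a5⟩ := hL₀ L ((le_max_right _ _).trans hL)
  have he6400 : 6400 ≤ e := (le_max_left _ _).trans he
  have he1000 : 1000 ≤ e := by linarith only [he6400]
  have he0 : 0 < e := by linarith only [he1000]
  have he1' : 1 ≤ e := by linarith only [he1000]
  have b1 := a5 e he1' (by linarith only [heu])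
  set l : ℝ := Real.log L with hl
  have hL1600 : 1600 ≤ L := by linarith only [hM1, a1]
  have hL0 : 0 < L := by linarith only [hL1600]
  have hL1 : 1 ≤ L := by linarith only [hL1600]
  have hl0 : 0 ≤ l := by linarith only [a2]
  have hl1 : 0 < l := by linarith only [a2]
  have hel : e ≤ l := by linarith only [hl0, heu]
  have hlL : l ≤ L := by
    have h1 : 8 * l ≤ M₀ * l := q_mul (by linarith only [hM1]) hl0
    linarith only [h1, a4, hl0]
  have hexp1 : 1001 ≤ Real.exp e := by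
    have := Real.add_one_le_exp e
    linarith only [this, he1000]
  have hEn : Real.exp (-e) * Real.exp e = 1 := by rw [← Real.exp_add]; simp
  set Y : ℝ := L * Real.exp (-e) / e ^ 2 with hY
  have hYl : 1600 * l ≤ Y := (q_mul hM1 hl0).trans b1
  have hwY : L ^ 6 ≤ Real.exp Y := p_pow hL1 6 (by push_cast; linarith only [hYl, hl0])
  have hYZ : Y ≤ L / (6400 * e) := by
    rw [hY]
    rw [div_le_div_iff₀ (by positivity) (by positivity)]
    have e1 : 6400 * e ≤ e ^ 2 * Real.exp e := by nlinarith only [he6400, hexp1, he0]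
    calc L * Real.exp (-e) * (6400 * e) ≤ L * Real.exp (-e) * (e ^ 2 * Real.exp e) :=
          mul_le_mul_of_nonneg_left e1 (by positivity)
      _ = L * e ^ 2 * (Real.exp (-e) * Real.exp e) := by ring
      _ = L * e ^ 2 := by rw [hEn, mul_one]
  set z : ℝ := Real.exp (L / (6400 * e)) with hz
  have hYz : Real.exp Y ≤ z := Real.exp_le_exp.2 hYZ
  have hwz : L ^ 6 ≤ z := hwY.trans hYz
  have hL16 : L ≤ L ^ 6 := by
    calc L = L ^ 1 := (pow_one L).symm
      _ ≤ L ^ 6 := pow_le_pow_right₀ hL1 (by norm_num)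
  have hL36 : L ^ 3 ≤ L ^ 6 := pow_le_pow_right₀ hL1 (by norm_num)
  set x : ℝ := L / 32 with hx
  have hx0 : 0 ≤ x := by positivity
  have hxL : x ≤ L := by rw [hx]; linarith only [hL0]
  set P : ℕ := primorial ⌊x⌋₊ with hP
  have hPpos : 0 < P := primorial_pos _
  have hPr : (0:ℝ) < P := by exact_mod_cast hPpos
  have hPx : (P:ℝ) ≤ Real.exp (L / 16) := by
    refine (primorial_le_exp x hx0).trans (le_of_eq ?_)
    rw [hx]
    congr 1
    ring
  set W : ℝ := WW (L ^ 6) with hW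
  have hW0 : 0 < W := WW_pos _
  have hW1 : W ≤ 1 := WW_le_one _
  obtain ⟨hWl, _⟩ := hWb (L ^ 6) (by linarith only [hL16, hL1600])
  rw [Real.log_pow, ← hl, ← hW] at hWl
  push_cast at hWl
  set u : ℝ := 1 / 8 * (e * L * W) with hu
  have hu0 : 0 ≤ u := by positivity
  have huL : u ≤ e * L / 8 := by
    rw [hu]
    have : e * L * W ≤ e * L * 1 := mul_le_mul_of_nonneg_left hW1 (by positivity)
    linarith only [this]
  have hcard' : ∀ i, ((svL P b (V i)).card : ℝ) ≤ u := by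
    intro i
    refine (hcard i).trans ?_
    rw [div_le_iff₀ hl1, hu]
    have h8 : c * (e * L) ≤ W * (6 * l) * (e * L) :=
      mul_le_mul_of_nonneg_right hWl (by positivity)
    linarith only [h8]
  set σ : ℝ := Real.exp (-(e / 2)) with hσ
  have hσ0 : 0 < σ := Real.exp_pos _
  have hJ0 : (0:ℝ) ≤ J₀ := Nat.cast_nonneg _
  have hJw : (J₀ : ℝ) * u ≤ L ^ 6 := by
    calc (J₀ : ℝ) * u ≤ L * (L * L) := by
          apply mul_le_mul hJL _ hu0 hL0.le
          refine huL.trans ?_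
          have : e * L ≤ L * L := mul_le_mul_of_nonneg_right (hel.trans hlL) hL0.le
          nlinarith only [this, hL0, he0]
      _ = L ^ 3 := by ring
      _ ≤ _ := hL36
  have hwl : L ^ 6 ≤ Real.exp (15 / 8 * L) := by
    refine hwY.trans (Real.exp_le_exp.2 ?_)
    have : L / (6400 * e) ≤ L := by
      rw [div_le_iff₀ (by positivity)]
      nlinarith only [hL0, he1']
    linarith only [hYZ, this, hL0]
  have hlen : Real.exp (15 / 8 * L) ≤ (N : ℝ) / (P : ℝ) - 1 := by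
    have e1 : Real.exp (31 / 16 * L) ≤ (N : ℝ) / P := by
      rw [le_div_iff₀ hPr]
      calc Real.exp (31 / 16 * L) * P ≤ Real.exp (31 / 16 * L) * Real.exp (L / 16) :=
            mul_le_mul_of_nonneg_left hPx (Real.exp_pos _).le
        _ = Real.exp (2 * L) := by rw [← Real.exp_add]; congr 1; ring
        _ ≤ N := hN
    have e2 : Real.exp (31 / 16 * L) = Real.exp (15 / 8 * L) * Real.exp (L / 16) := by
      rw [← Real.exp_add]; congr 1; ring
    have e3 : 2 ≤ Real.exp (L / 16) := by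
      have := Real.add_one_le_exp (L / 16)
      linarith only [this, hL1600]
    have e4 : 1 ≤ Real.exp (15 / 8 * L) := Real.one_le_exp (by positivity)
    nlinarith only [e1, e2, e3, e4]
  have hmain := class_famL (L ^ 6) Y z x u (17 * σ) (Real.exp (15 / 8 * L)) (σ / 200000) T J₀ V b hx0
    (hxL.trans hL16) (by linarith only [hL16, hL1]) ((hxL.trans hL16).trans hwz) hu0 hwY
    (by positivity) (by positivity) hT hdisj hpos hdet hsize hcard' hJw hwl (by
      intro κ _ _ hκ res hres hres2 hcoll A B hAB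
      have hfin := covA_at c C CR C₁ K₀ M₀ hc hC hC₁ hCR0 hWb hSR hBH hK1 hK4 hM1 hM4 hM5 L e he1 he3
        helog he4 a1 a2 a4 heu b1 (Fin J₀) (by rw [Fintype.card_fin]; exact hJ1) κ hκ res hres hres2
        hcoll A B hAB
      convert hfin) hYz M N hlen
  refine hmain.trans ?_
  apply mul_le_mul_of_nonneg_right _ (by positivity)
  have hT1 : 0 ≤ T + 1 := by linarith only [hT]
  have h1 : ((J₀ : ℝ) * u) ^ 3 ≤ (J₀ * (e * L / 8)) ^ 3 :=
    pow_le_pow_left₀ (by positivity) (mul_le_mul_of_nonneg_left huL hJ0) 3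
  have h2 : ((J₀ : ℝ) * u) ^ 3 * (8 * (T + 1)) / L ^ 6 ≤ (J₀ * e) ^ 3 * (T + 1) / L ^ 3 := by
    calc ((J₀ : ℝ) * u) ^ 3 * (8 * (T + 1)) / L ^ 6
        ≤ (J₀ * (e * L / 8)) ^ 3 * (8 * (T + 1)) / L ^ 6 := by
          apply div_le_div_of_nonneg_right _ (by positivity)
          exact mul_le_mul_of_nonneg_right h1 (by positivity)
      _ = ((J₀ * e) ^ 3 * (T + 1) / L ^ 3) / 64 := by
          have hL6 : L ^ 6 = L ^ 3 * L ^ 3 := by ring
          rw [hL6]
          field_simp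
          ring
      _ ≤ _ := by
          have : 0 ≤ (J₀ * e) ^ 3 * (T + 1) / L ^ 3 := by positivity
          linarith only [this]
  linarith only [h2]

end Pool.Agent.T2h81.UC
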