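import Pool.Agent.T2h81.UC.D2
import Pool.Agent.T2h81.UC.C4

set_option autoImplicit false
set_option linter.unusedVariables false
set_option maxHeartbeats 4000000

/-! # The forms `a + k (n + t + h)` in the variable `n` -/

namespace Pool.Agent.T2h81.UC

open Finset

open scoped Classical

/-- the proportion of the integers prime to the greatest common divisor of `d` and `P` -/
noncomputable def rP (P d : ℕ) : ℝ := ((Nat.gcd d P).totient : ℝ) / (Nat.gcd d P : ℕ)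

/-- the forms `k n + (a + k (t + h))`, `h ≤ H`, `0 < |a| ≤ A`, `k ≤ B rP(b + t + h)`, `(k, a) = 1` -/
noncomputable def VL (P : ℕ) (B : ℝ) (A H b t : ℕ) : Finset (ℤ × ℤ) :=
  (range (H + 1) ×ˢ Icc (-(A : ℤ)) (A : ℤ)).biUnion (fun ha =>
    ((Icc 1 ⌊B * rP P (b + t + ha.1)⌋₊).filter (fun k : ℕ => ha.2 ≠ 0 ∧ IsCoprime (k : ℤ) ha.2)).image
      (fun k : ℕ => ((k : ℤ), ha.2 + k * ((t : ℤ) + ha.1))))

theorem mem_VL {P A H b t : ℕ} {B : ℝ} {v : ℤ × ℤ} : v ∈ VL P B A H b t ↔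
    ∃ (h : ℕ) (a : ℤ) (k : ℕ), h ≤ H ∧ -(A : ℤ) ≤ a ∧ a ≤ A ∧ a ≠ 0 ∧ IsCoprime (k : ℤ) a ∧ 1 ≤ k ∧
      k ≤ ⌊B * rP P (b + t + h)⌋₊ ∧ v = ((k : ℤ), a + k * ((t : ℤ) + h)) := by
  unfold VL
  rw [Finset.mem_biUnion]
  constructor
  · rintro ⟨⟨h, a⟩, h1, h2⟩
    rw [Finset.mem_product, Finset.mem_range, Finset.mem_Icc] at h1
    rw [Finset.mem_image] at h2
    obtain ⟨k, hk, hkv⟩ := h2
    rw [Finset.mem_filter, Finset.mem_Icc] at hk
    simp only at h1 hk hkv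
    exact ⟨h, a, k, by omega, h1.2.1, h1.2.2, hk.2.1, hk.2.2, hk.1.1, hk.1.2, hkv.symm⟩
  · rintro ⟨h, a, k, h1, h2, h3, h4, h5, h6, h7, h8⟩
    refine ⟨(h, a), ?_, ?_⟩
    · rw [Finset.mem_product, Finset.mem_range, Finset.mem_Icc]
      exact ⟨by simp only; omega, h2, h3⟩
    · rw [Finset.mem_image]
      exact ⟨k, Finset.mem_filter.2 ⟨Finset.mem_Icc.2 ⟨h6, h7⟩, h4, h5⟩, h8.symm⟩

theorem sv_VL (P A H b t : ℕ) (B Bd : ℝ) (hP : 0 < P) (hBd : 0 ≤ Bd)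
    (hb : ∀ h ≤ H, ∀ a' : ℕ, (((range ⌊B * rP P (b + t + h)⌋₊).filter
      (fun j => P.Coprime (a' + j * (b + t + h + A * P)))).card : ℝ) ≤ Bd) :
    ((svL P (b : ℤ) (VL P B A H b t)).card : ℝ) ≤ (H + 1) * (2 * A + 1) * Bd := by
  set I : Finset (ℕ × ℤ) := range (H + 1) ×ˢ Icc (-(A : ℤ)) (A : ℤ) with hI
  have hIc : (I.card : ℝ) = (H + 1) * (2 * A + 1) := by
    rw [hI, Finset.card_product, Finset.card_range, Int.card_Icc]
    have : ((A : ℤ) + 1 - -(A : ℤ)).toNat = 2 * A + 1 := by omega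
    rw [this]
    push_cast
    ring
  set W : ℕ × ℤ → Finset (ℤ × ℤ) := fun ha => ((Icc 1 ⌊B * rP P (b + t + ha.1)⌋₊).filter
    (fun k : ℕ => Int.gcd ((k : ℤ) * b + (ha.2 + k * ((t : ℤ) + ha.1))) P = 1)).image
      (fun k : ℕ => ((k : ℤ), ha.2 + k * ((t : ℤ) + ha.1))) with hW
  have hsub : svL P (b : ℤ) (VL P B A H b t) ⊆ I.biUnion W := by
    intro v hv
    unfold svL at hv
    rw [Finset.mem_filter, mem_VL] at hv
    obtain ⟨⟨h, a, k, h1, h2, h3, h4, h5, h6, h7, h8⟩, h9⟩ := hv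
    rw [Finset.mem_biUnion]
    refine ⟨(h, a), ?_, ?_⟩
    · rw [hI, Finset.mem_product, Finset.mem_range, Finset.mem_Icc]
      exact ⟨by simp only; omega, h2, h3⟩
    · rw [hW, Finset.mem_image]
      refine ⟨k, Finset.mem_filter.2 ⟨Finset.mem_Icc.2 ⟨h6, h7⟩, ?_⟩, h8.symm⟩
      rw [h8] at h9
      exact h9
  have hWc : ∀ ha ∈ I, ((W ha).card : ℝ) ≤ Bd := by
    intro ha hha
    rw [hI, Finset.mem_product, Finset.mem_range, Finset.mem_Icc] at hha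
    set d'' : ℕ := b + t + ha.1 + A * P with hd''
    have hAd : (A : ℤ) ≤ d'' := by
      have : A * 1 ≤ A * P := Nat.mul_le_mul_left _ hP
      have h1 : A ≤ d'' := by omega
      exact_mod_cast h1
    have h0 : 0 ≤ (d'' : ℤ) + ha.2 := by omega
    obtain ⟨a', ha'⟩ := Int.eq_ofNat_of_zero_le h0
    refine le_trans ?_ (hb ha.1 (by omega) a')
    rw [Nat.cast_le]
    refine Finset.card_image_le.trans ?_
    apply Finset.card_le_card_of_injOn (fun k => k - 1)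
    · intro k hk
      rw [Finset.mem_coe, Finset.mem_filter, Finset.mem_Icc] at hk
      rw [Finset.mem_coe, Finset.mem_filter, Finset.mem_range]
      obtain ⟨⟨hk1, hk2⟩, hk3⟩ := hk
      refine ⟨show k - 1 < ⌊B * rP P (b + t + ha.1)⌋₊ by omega, ?_⟩
      obtain ⟨j, rfl⟩ : ∃ j, k = j + 1 := ⟨k - 1, by omega⟩
      simp only [Nat.add_sub_cancel]
      rw [← hd'']
      have h2 : (((a' + j * d'' : ℕ) : ℤ)) = ((j + 1 : ℕ) : ℤ) * b + (ha.2 + ((j + 1 : ℕ) : ℤ) * ((t : ℤ) + ha.1)) +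
          P * (((j + 1 : ℕ) : ℤ) * A) := by
        push_cast
        have h3 : (a' : ℤ) = (d'' : ℤ) + ha.2 := ha'.symm
        rw [h3, hd'']
        push_cast
        ring
      have h4 : Int.gcd ((a' + j * d'' : ℕ) : ℤ) P = 1 := by
        rw [h2, Int.gcd_comm, Int.gcd_add_mul_left_right, Int.gcd_comm]
        exact hk3
      rw [Int.gcd_natCast_natCast] at h4
      exact Nat.coprime_comm.1 h4
    · intro k hk k' hk' h
      rw [Finset.mem_coe, Finset.mem_filter, Finset.mem_Icc] at hk hk'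
      have : k - 1 = k' - 1 := h
      omega
  calc ((svL P (b : ℤ) (VL P B A H b t)).card : ℝ) ≤ ∑ ha ∈ I, ((W ha).card : ℝ) := by
        exact_mod_cast (Finset.card_le_card hsub).trans Finset.card_biUnion_le
    _ ≤ ∑ _ha ∈ I, Bd := Finset.sum_le_sum hWc
    _ = (H + 1) * (2 * A + 1) * Bd := by rw [Finset.sum_const, nsmul_eq_mul, hIc]

theorem VL_pos {P A H b t : ℕ} {B : ℝ} {v : ℤ × ℤ} (hv : v ∈ VL P B A H b t) : v.1 ≠ 0 := by
  rw [mem_VL] at hv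
  obtain ⟨h, a, k, h1, h2, h3, h4, h5, h6, h7, h8⟩ := hv
  rw [h8]
  simp only
  omega

theorem VL_det {P A H b t t' : ℕ} {B : ℝ} {v v' : ℤ × ℤ} (hv : v ∈ VL P B A H b t)
    (hv' : v' ∈ VL P B A H b t') (hne : v ≠ v') : v.1 * v'.2 - v'.1 * v.2 ≠ 0 := by
  rw [mem_VL] at hv hv'
  obtain ⟨h, a, k, h1, h2, h3, h4, h5, h6, h7, h8⟩ := hv
  obtain ⟨h', a', k', h1', h2', h3', h4', h5', h6', h7', h8'⟩ := hv'
  intro hz
  apply hne
  rw [h8, h8'] at hz
  simp only at hz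
  have e1 : (k : ℤ) ∣ k' * a := by
    have : (k' : ℤ) * a = k * (a' + k' * ((t' : ℤ) + h') - k' * ((t : ℤ) + h)) := by linarith
    exact ⟨_, this⟩
  have e2 : (k' : ℤ) ∣ k * a' := by
    have : (k : ℤ) * a' = k' * (a + k * ((t : ℤ) + h) - k * ((t' : ℤ) + h')) := by linarith
    exact ⟨_, this⟩
  have e3 : (k : ℤ) ∣ k' := h5.dvd_of_dvd_mul_right e1
  have e4 : (k' : ℤ) ∣ k := h5'.dvd_of_dvd_mul_right e2
  have e5 : k = k' := Nat.dvd_antisymm (Int.natCast_dvd_natCast.1 e3) (Int.natCast_dvd_natCast.1 e4)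
  subst e5
  have e6 : (k : ℤ) * ((a' + k * ((t' : ℤ) + h')) - (a + k * ((t : ℤ) + h))) = 0 := by linarith
  have hk0 : (k : ℤ) ≠ 0 := by omega
  have e7 := (mul_eq_zero.1 e6).resolve_left hk0
  rw [h8, h8']
  ext
  · rfl
  · simp only
    linarith

theorem VL_disj {P A H b t t' : ℕ} {B : ℝ} (htt : t + (H + 2 * A + 1) ≤ t' ∨ t' + (H + 2 * A + 1) ≤ t) :
    Disjoint (VL P B A H b t) (VL P B A H b t') := by
  rw [Finset.disjoint_left]
  intro v hv hv'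
  rw [mem_VL] at hv hv'
  obtain ⟨h, a, k, h1, h2, h3, h4, h5, h6, h7, h8⟩ := hv
  obtain ⟨h', a', k', h1', h2', h3', h4', h5', h6', h7', h8'⟩ := hv'
  rw [h8] at h8'
  have e1 : (k : ℤ) = k' := congrArg Prod.fst h8'
  have e2 : a + k * ((t : ℤ) + h) = a' + k' * ((t' : ℤ) + h') := congrArg Prod.snd h8'
  rw [← e1] at e2
  have hk : (1 : ℤ) ≤ k := by exact_mod_cast h6
  have e3 : (k : ℤ) * (((t : ℤ) + h) - ((t' : ℤ) + h')) = a' - a := by linarith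
  have e4 : |(k : ℤ) * (((t : ℤ) + h) - ((t' : ℤ) + h'))| ≤ 2 * A := by
    rw [e3, abs_le]
    constructor <;> linarith
  have e5 : |((t : ℤ) + h) - ((t' : ℤ) + h')| ≤ 2 * A := by
    rw [abs_mul] at e4
    have : |(k : ℤ)| = k := abs_of_nonneg (by omega)
    rw [this] at e4
    have h9 := abs_nonneg (((t : ℤ) + h) - ((t' : ℤ) + h'))
    nlinarith
  rw [abs_le] at e5
  omega

theorem VL_size {P A H b t : ℕ} {B T : ℝ} (hB : 0 ≤ B) (hA : 1 ≤ A)
    (hT : (A : ℝ) + B * (t + H) + B ≤ Real.exp T) {v : ℤ × ℤ} (hv : v ∈ VL P B A H b t) :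
    |(v.1 : ℝ)| ≤ Real.exp T ∧ |(v.2 : ℝ)| ≤ Real.exp T := by
  rw [mem_VL] at hv
  obtain ⟨h, a, k, h1, h2, h3, h4, h5, h6, h7, h8⟩ := hv
  have hr : rP P (b + t + h) ≤ 1 := by
    unfold rP
    apply div_le_one_of_le₀ _ (Nat.cast_nonneg _)
    exact_mod_cast Nat.totient_le _
  have hr0 : 0 ≤ rP P (b + t + h) := by unfold rP; positivity
  have hk : (k : ℝ) ≤ B := by
    have h9 : (k : ℝ) ≤ (⌊B * rP P (b + t + h)⌋₊ : ℝ) := by exact_mod_cast h7
    have h10 := Nat.floor_le (show 0 ≤ B * rP P (b + t + h) by positivity)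
    nlinarith
  have hk0 : (0:ℝ) ≤ k := Nat.cast_nonneg _
  have hA0 : (0:ℝ) ≤ A := Nat.cast_nonneg _
  have ht0 : (0:ℝ) ≤ t := Nat.cast_nonneg _
  have hH0 : (0:ℝ) ≤ H := Nat.cast_nonneg _
  have hhr : (h : ℝ) ≤ H := by exact_mod_cast h1
  have hh0 : (0:ℝ) ≤ h := Nat.cast_nonneg _
  have har : |(a : ℝ)| ≤ A := by
    rw [abs_le]
    constructor
    · have : (((-(A : ℤ)) : ℤ) : ℝ) ≤ (a : ℝ) := by exact_mod_cast h2
      push_cast at this
      exact this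
    · exact_mod_cast h3
  rw [h8]
  simp only
  push_cast
  constructor
  · rw [abs_of_nonneg hk0]
    have : 0 ≤ B * (t + H) := by positivity
    linarith
  · calc |(a : ℝ) + k * ((t : ℝ) + h)| ≤ |(a : ℝ)| + |(k : ℝ) * ((t : ℝ) + h)| := abs_add_le _ _
      _ = |(a : ℝ)| + (k : ℝ) * ((t : ℝ) + h) := by rw [abs_of_nonneg (a := (k : ℝ) * ((t : ℝ) + h)) (by positivity)]
      _ ≤ A + B * (t + H) := by
          apply add_le_add har
          exact mul_le_mul hk (by linarith) (by positivity) hB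
      _ ≤ _ := by linarith

end Pool.Agent.T2h81.UC
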