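import Pool.Agent.T2h81.UC.D3
import Pool.Agent.T2h81.UC.D0

set_option autoImplicit false
set_option linter.unusedVariables false
set_option maxHeartbeats 4000000

/-! # Fixed residues: one class of the variable modulo the small primes -/

namespace Pool.Agent.T2h81.UC

open Finset Filter Pool.Agent.H256R2.SC Pool.Agent.Y831.RC

open scoped Classical

theorem gs_dvd_self {d : ℕ} (hd : 0 < d) (x : ℝ) : gs d x ∣ d := by
  unfold gs
  apply Finset.prod_primes_dvd
  · intro p hp
    exact (Nat.prime_of_mem_primeFactors (Finset.mem_filter.1 hp).1).prime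
  · intro p hp
    exact Nat.dvd_of_mem_primeFactors (Finset.mem_filter.1 hp).1

theorem rP_le_one (P d : ℕ) : rP P d ≤ 1 := by
  unfold rP
  apply div_le_one_of_le₀ _ (Nat.cast_nonneg _)
  exact_mod_cast Nat.totient_le _

theorem rP_congr {P d d' : ℕ} (h : d ≡ d' [MOD P]) : rP P d = rP P d' := by
  unfold rP
  have : Nat.gcd d P = Nat.gcd d' P := h.gcd_eq
  rw [this]

theorem tot_le_rP {P d : ℕ} (hP : 0 < P) (hd : 0 < d) : (d.totient : ℝ) / d ≤ rP P d := by
  unfold rP
  have hg : 0 < Nat.gcd d P := Nat.gcd_pos_of_pos_right _ hP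
  have hg0 : (0:ℝ) < (Nat.gcd d P : ℕ) := by exact_mod_cast hg
  have hd0 : (0:ℝ) < d := by exact_mod_cast hd
  have h1 := Pool.Agent.N837.LP.totient_le_of_dvd (Nat.gcd_dvd_left d P)
  rw [div_le_div_iff₀ hd0 hg0]
  exact h1

theorem rP_ge {x : ℝ} (hx : 0 ≤ x) (d : ℕ) : WW x ≤ rP (primorial ⌊x⌋₊) d := by
  set P := primorial ⌊x⌋₊ with hP
  have hPpos : 0 < P := primorial_pos _
  have hPr : (0:ℝ) < P := by exact_mod_cast hPpos
  unfold rP
  have hg : 0 < Nat.gcd d P := Nat.gcd_pos_of_pos_right _ hPpos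
  have hg0 : (0:ℝ) < (Nat.gcd d P : ℕ) := by exact_mod_cast hg
  have h1 := Pool.Agent.N837.LP.totient_le_of_dvd (Nat.gcd_dvd_right d P)
  have h2 : (P.totient : ℝ) = P * WW x := by rw [hP, tot_primorial x hx]
  rw [h2] at h1
  rw [le_div_iff₀ hg0]
  have h4 : (P : ℝ) * (WW x * (Nat.gcd d P : ℕ)) ≤ P * (Nat.gcd d P).totient := by linarith
  exact le_of_mul_le_mul_left h4 hPr

theorem rP_tot {x : ℝ} (hx : 1 < x) {d : ℕ} (hd : 0 < d)
    (h : Real.log d / (x * Real.log x) ≤ 1 / 2) :
    (d : ℝ) / d.totient * rP (primorial ⌊x⌋₊) d ≤ 2 := by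
  set P := primorial ⌊x⌋₊ with hP
  have hPpos : 0 < P := primorial_pos _
  have hd0 : (0:ℝ) < d := by exact_mod_cast hd
  have ht0 : (0:ℝ) < d.totient := by exact_mod_cast Nat.totient_pos.2 hd
  have hg : 0 < Nat.gcd d P := Nat.gcd_pos_of_pos_right _ hPpos
  have hg0 : (0:ℝ) < (Nat.gcd d P : ℕ) := by exact_mod_cast hg
  have hs : 0 < gs d x := gs_pos d x
  have hs0 : (0:ℝ) < gs d x := by exact_mod_cast hs
  have h1 := tot_gs d hd x ((sum_large d hd x hx).trans h)
  have h2 := Pool.Agent.N837.LP.totient_le_of_dvd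
    (Nat.dvd_gcd (gs_dvd_self hd x) (gs_dvd_primorial d (by linarith : (0:ℝ) ≤ x)))
  rw [← hP] at h2
  have h3 : rP P d ≤ ((gs d x).totient : ℝ) / gs d x := by
    unfold rP
    rw [div_le_div_iff₀ hg0 hs0]
    exact h2
  have h4 : ((gs d x).totient : ℝ) / gs d x ≤ 2 * (d.totient / d) := by
    rw [mul_div_assoc', div_le_div_iff₀ hs0 hd0]
    linarith
  calc (d : ℝ) / d.totient * rP P d ≤ (d : ℝ) / d.totient * (2 * (d.totient / d)) :=
        mul_le_mul_of_nonneg_left (h3.trans h4) (by positivity)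
    _ = 2 := by field_simp

theorem mod_class_bound : ∃ C' : ℝ, 6400 ≤ C' ∧ ∀ η lam : ℝ, 0 < η → η ≤ 1 → 1 ≤ lam →
    ∀ A H : ℕ, 1 ≤ A → ∃ X₀ : ℝ, 1 ≤ X₀ ∧ ∀ X : ℝ, X₀ ≤ X → ∀ M N : ℕ, X ^ η ≤ N → ∀ m : ℕ,
    Real.exp (Real.exp (3 * (C' * (A * (H + 1) * (lam / η))))) ≤ m → (m : ℝ) ≤ X ^ (η / 2) →
    ∃ (x z L : ℝ) (m₁ : ℕ), 1 < x ∧ 2 * (A : ℝ) + 1 ≤ z ∧ 1 ≤ L ∧ Real.log X = 2 * L / η ∧
    (H + 2 * A + 1) * m₁ ≤ m ∧ (m : ℝ) + H + 1 ≤ X ∧
    (∀ d : ℕ, 1 ≤ lam / η * L * rP (primorial ⌊x⌋₊) d) ∧
    z + A + 2 ≤ 1 / 4 * Real.exp (-(lam / η)) * N ∧ (primorial ⌊x⌋₊ : ℝ) ≤ N ∧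
    ∀ b : ℕ, b < primorial ⌊x⌋₊ →
      (((Ioc (M : ℤ) (M + N)).filter (fun n : ℤ => ((primorial ⌊x⌋₊ : ℕ) : ℤ) ∣ n - b ∧
      (((range m₁).filter (fun i => CovL z (VL (primorial ⌊x⌋₊) (4 * (lam / η) * L) A H b
        ((H + 2 * A + 1) * (i + 1))) n)).card : ℝ) <
        Real.exp (-Real.exp (3 * (C' * (A * (H + 1) * (lam / η))))) * m)).card : ℝ) ≤
      1 / 4 * Real.exp (-(lam / η)) * ((N : ℝ) / (primorial ⌊x⌋₊ : ℝ)) := by
  obtain ⟨c₃, e₀, L₀, hc₃, he₀, hL₀, hcls⟩ := class_mainL
  obtain ⟨c, Cw, hc, hcC, hWb⟩ := WW_bounds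
  obtain ⟨Cs, hCs, hsurv⟩ := surv_ap
  obtain ⟨C', hC'⟩ : ∃ C' : ℝ, C' = 48 * Cs / c₃ + e₀ := ⟨_, rfl⟩
  have hq0 : 0 < 48 * Cs / c₃ := by positivity
  have hC'1 : 6400 ≤ C' := by linarith
  have hC'2 : 48 * Cs / c₃ ≤ C' := by linarith
  have hC'3 : e₀ ≤ C' := by linarith
  have hC'0 : 0 < C' := by linarith
  refine ⟨C', hC'1, ?_⟩
  intro η lam hη hη1 hlam A H hA
  set μ : ℝ := lam / η with hμ
  have hlam0 : 0 < lam := by linarith
  have hμlam : lam ≤ μ := by
    rw [hμ, le_div_iff₀ hη]
    nlinarith only [hlam0, hη1]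
  have hμ1 : 1 ≤ μ := hlam.trans hμlam
  have hμ0 : 0 < μ := by linarith
  have hAr : (1:ℝ) ≤ A := by exact_mod_cast hA
  have hHr : (0:ℝ) ≤ H := Nat.cast_nonneg _
  set Q : ℝ := A * (H + 1) with hQ
  have hQ1 : 1 ≤ Q := by rw [hQ]; nlinarith only [hAr, hHr]
  have hQμ : μ ≤ Q * μ := by nlinarith only [hQ1, hμ0]
  set e : ℝ := C' * (Q * μ) with he
  have hQμ1 : 1 ≤ Q * μ := hμ1.trans hQμ
  have heC : C' ≤ e := by rw [he]; nlinarith only [hQμ1, hC'0]
  have hee₀ : e₀ ≤ e := hC'3.trans heC
  have he6400 : 6400 ≤ e := hC'1.trans heC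
  have he0 : 0 < e := by linarith
  have heQ : 6400 * Q ≤ e := by
    rw [he]
    have h1 : Q ≤ Q * μ := by nlinarith only [hQ1, hμ1]
    have h2 : 0 ≤ Q * μ := by linarith
    nlinarith only [h1, h2, hC'1]
  set θ : ℝ := Real.exp (-Real.exp (3 * e)) with hθ
  have hθ0 : 0 < θ := Real.exp_pos _
  set s : ℕ := H + 2 * A + 1 with hs
  have hs0 : 0 < s := by omega
  have hsr : (s : ℝ) ≤ e := by
    have h1 : (s : ℝ) = H + 2 * A + 1 := by rw [hs]; push_cast; ring
    rw [h1]
    have h2 : (H : ℝ) + 2 * A + 1 ≤ 4 * Q := by rw [hQ]; nlinarith only [hAr, hHr]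
    linarith
  have hsr1 : (1:ℝ) ≤ s := by exact_mod_cast hs0
  set J₀ : ℕ := ⌈Real.exp (e ^ 2 * Real.exp e + e / 2)⌉₊ with hJ₀
  have hJ1 : Real.exp (e ^ 2 * Real.exp e + e / 2) ≤ (J₀ : ℝ) := Nat.le_ceil _
  have hJpos : 0 < J₀ := by
    have : (0:ℝ) < J₀ := (Real.exp_pos _).trans_le hJ1
    exact_mod_cast this
  have hJr : (0:ℝ) < J₀ := by exact_mod_cast hJpos
  have hJr1 : (1:ℝ) ≤ J₀ := by exact_mod_cast hJpos
  have hJb := J_bound he6400
  rw [← hJ₀] at hJb
  -- the doubled exponent absorbs the spacing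
  have hE3 : 16 * (J₀ : ℝ) * s ≤ Real.exp (Real.exp (3 * e)) := by
    have h1 : 2 * Real.exp (2 * e) ≤ Real.exp (3 * e) := by
      have h2 : Real.exp (3 * e) = Real.exp e * Real.exp (2 * e) := by rw [← Real.exp_add]; congr 1; ring
      have h3 := Real.add_one_le_exp e
      rw [h2]
      apply mul_le_mul_of_nonneg_right _ (Real.exp_pos _).le
      linarith
    have h2 : (s : ℝ) ≤ Real.exp (Real.exp (2 * e)) := by
      have h3 := Real.add_one_le_exp (2 * e)
      have h4 := Real.add_one_le_exp (Real.exp (2 * e))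
      linarith
    calc 16 * (J₀ : ℝ) * s ≤ Real.exp (Real.exp (2 * e)) * Real.exp (Real.exp (2 * e)) :=
          mul_le_mul hJb h2 (by linarith) (Real.exp_pos _).le
      _ = Real.exp (2 * Real.exp (2 * e)) := by rw [← Real.exp_add]; congr 1; ring
      _ ≤ _ := Real.exp_le_exp.2 h1
  have hθJ : θ * (16 * J₀ * s) ≤ 1 := by
    rw [hθ, Real.exp_neg]
    rw [inv_mul_le_iff₀ (Real.exp_pos _), mul_one]
    exact hE3
  have hEμ : 0 < Real.exp μ := Real.exp_pos _
  have hEμ' : 0 < Real.exp (-μ) := Real.exp_pos _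
  have hEE : Real.exp (-μ) * Real.exp μ = 1 := by rw [← Real.exp_add]; simp
  set K : ℝ := 4 * μ * (H + 2) + 2 * A + H + 200 + 12800 * e * A + 8 * (A + 3) * Real.exp μ +
    320 * (J₀ * e) ^ 3 * Real.exp μ + L₀ + Real.exp (4 * e) + J₀ with hK
  have k1 : 0 ≤ 4 * μ * (H + 2) := by positivity
  have k2 : 0 < 12800 * e * A := by positivity
  have k3 : 0 < 8 * ((A : ℝ) + 3) * Real.exp μ := by positivity
  have k4 : 0 < 320 * (J₀ * e) ^ 3 * Real.exp μ := by positivity
  have k5 := Real.exp_pos (4 * e)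
  obtain ⟨L₂, hL₂⟩ := ev_late c K hc
  refine ⟨Real.exp (2 * (max L₂ 1) / η), Real.one_le_exp (by positivity), ?_⟩
  intro X hX M N hN m hm1 hm2
  have hX0 : 0 < X := (Real.exp_pos _).trans_le hX
  set L : ℝ := η / 2 * Real.log X with hL
  have hLL₂' : max L₂ 1 ≤ L := by
    have h1 : 2 * (max L₂ 1) / η ≤ Real.log X := by
      rw [Real.le_log_iff_exp_le hX0]; exact hX
    rw [div_le_iff₀ hη] at h1
    rw [hL]
    linarith
  have hLL₂ : L₂ ≤ L := (le_max_left _ _).trans hLL₂'
  obtain ⟨v1, v2, v3, v4, v5, v6⟩ := hL₂ L hLL₂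
  have hlogX : Real.log X = 2 * L / η := by rw [hL]; field_simp
  have hLL₀ : L₀ ≤ L := by linarith
  have hL4 : Real.exp (4 * e) ≤ L := by linarith
  have hLJ : (J₀ : ℝ) ≤ L := by linarith
  have hL1600 : 1600 ≤ L := hL₀.trans hLL₀
  have hLpos : 0 < L := by linarith
  set l : ℝ := Real.log L with hl
  have hl1 : 1 ≤ l := by
    rw [hl, Real.le_log_iff_exp_le hLpos]
    have := Real.exp_one_lt_d9
    linarith
  have hl0 : 0 < l := by linarith
  have hel : e ≤ 1 / 4 * l := by
    have : 4 * e ≤ l := by rw [hl, Real.le_log_iff_exp_le hLpos]; exact hL4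
    linarith
  set x : ℝ := L / 32 with hx
  have hx1 : 1 < x := by rw [hx]; linarith
  have hx0 : 0 ≤ x := by linarith
  set P : ℕ := primorial ⌊x⌋₊ with hP
  have hPpos : 0 < P := primorial_pos _
  have hPr : (0:ℝ) < P := by exact_mod_cast hPpos
  have hPx : (P:ℝ) ≤ Real.exp (L / 16) := by
    refine (primorial_le_exp x hx0).trans (le_of_eq ?_)
    rw [hx]
    congr 1
    ring
  set z : ℝ := Real.exp (L / (6400 * e)) with hz
  have hlx0 : 0 < Real.log x := Real.log_pos hx1
  have hlxL : Real.log x ≤ l := Real.log_le_log (by linarith) (by rw [hx]; linarith)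
  have hlK : K ≤ Real.log x := v3
  have hlx200 : 200 ≤ Real.log x := by linarith
  -- lower bound for the densities
  have hWl : c ≤ WW x * l := by
    have h5 : c ≤ WW x * Real.log x := (hWb x (by rw [hx]; linarith)).1
    exact h5.trans (mul_le_mul_of_nonneg_left hlxL (WW_pos x).le)
  have hrL : ∀ d : ℕ, Real.sqrt L ≤ L * rP P d := by
    intro d
    have h1 : WW x ≤ rP P d := rP_ge hx0 d
    have h2 : c * L ≤ (L * rP P d) * l := by
      have h3 : c ≤ rP P d * l := hWl.trans (mul_le_mul_of_nonneg_right h1 hl0.le)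
      nlinarith only [h3, hLpos]
    have h5 : Real.sqrt L * l ≤ (L * rP P d) * l := v1.trans h2
    exact le_of_mul_le_mul_right h5 hl0
  have hsL : 40 ≤ Real.sqrt L := by
    rw [show (40:ℝ) = Real.sqrt (40 ^ 2) by rw [Real.sqrt_sq (by norm_num)]]
    apply Real.sqrt_le_sqrt
    norm_num
    linarith
  have hexpL : K * L + 1 < Real.exp L := v5
  have hKL : K ≤ K * L := by
    have hK0 : 0 ≤ K := by linarith
    nlinarith only [hK0, hL1600]
  -- sizes
  have hNr : Real.exp (2 * L) ≤ N := by
    refine le_trans (le_of_eq ?_) hN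
    rw [Real.rpow_def_of_pos hX0, hL]
    congr 1
    ring
  have hmL : (m : ℝ) ≤ Real.exp L := by
    refine hm2.trans (le_of_eq ?_)
    rw [Real.rpow_def_of_pos hX0, hL]
    congr 1
    ring
  have hXL : Real.exp (2 * L) ≤ X := by
    have h1 : 2 * L ≤ Real.log X := by
      rw [hlogX, le_div_iff₀ hη]
      nlinarith only [hLpos, hη1]
    rwa [Real.le_log_iff_exp_le hX0] at h1
  have hEL0 := Real.exp_pos L
  have hE2L : Real.exp (2 * L) = Real.exp L * Real.exp L := by rw [← Real.exp_add]; congr 1; ring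
  have hbig : K * L * Real.exp L ≤ Real.exp (2 * L) := by
    rw [hE2L]
    exact mul_le_mul_of_nonneg_right (by linarith) hEL0.le
  have hEL1 : 1 ≤ Real.exp L := Real.one_le_exp hLpos.le
  set m₁ : ℕ := m / s with hm₁
  have hm₁1 : s * m₁ ≤ m := Nat.mul_div_le _ _
  have hm₁2 : (m : ℝ) < s * (m₁ + 1) := by
    have : m < s * (m₁ + 1) := by
      have := Nat.lt_mul_div_succ m hs0
      rw [← hm₁] at this
      exact this
    exact_mod_cast this
  have hmJ : 16 * (J₀ : ℝ) * s ≤ m := hE3.trans hm1
  have hm0 : (0:ℝ) < m := lt_of_lt_of_le (by positivity) hmJ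
  have hPN : (P : ℝ) ≤ N := hPx.trans ((Real.exp_le_exp.2 (by linarith)).trans hNr)
  have hNP : (1:ℝ) ≤ N / P := by
    rw [le_div_iff₀ hPr, one_mul]
    exact hPN
  refine ⟨x, z, L, m₁, hx1, ?_, by linarith, hlogX, hm₁1, ?_, ?_, ?_, hPN, ?_⟩
  · -- z large
    have h1 := Real.add_one_le_exp (L / (6400 * e))
    have h2 : 2 * (A : ℝ) ≤ L / (6400 * e) := by
      rw [le_div_iff₀ (by positivity)]
      linarith
    linarith
  · -- m + H + 1 ≤ X
    have h1 : (m : ℝ) + H + 1 ≤ (H + 2) * Real.exp L := by nlinarith only [hmL, hEL1, hHr]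
    have h2 : ((H : ℝ) + 2) * Real.exp L ≤ K * L * Real.exp L := by
      apply mul_le_mul_of_nonneg_right _ hEL0.le
      linarith
    linarith
  · intro d
    have h1 := hrL d
    have h2 : μ * L * rP P d = μ * (L * rP P d) := by ring
    rw [h2]
    have h3 : 1 ≤ L * rP P d := by linarith
    nlinarith only [h3, hμ1]
  · -- few excluded integers
    have h1 : z ≤ Real.exp L := by
      apply Real.exp_le_exp.2
      rw [div_le_iff₀ (by positivity)]
      nlinarith only [hLpos, he6400]
    have h2 : z + A + 2 ≤ (A + 3) * Real.exp L := by nlinarith only [h1, hEL1, hAr]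
    have h3 : 8 * ((A : ℝ) + 3) * Real.exp μ ≤ Real.exp L := by linarith
    have h4 : 8 * ((A : ℝ) + 3) ≤ Real.exp (-μ) * Real.exp L := by
      have h5 := mul_le_mul_of_nonneg_left h3 hEμ'.le
      have h6 : Real.exp (-μ) * (8 * ((A : ℝ) + 3) * Real.exp μ) =
          8 * ((A : ℝ) + 3) * (Real.exp (-μ) * Real.exp μ) := by ring
      rw [h6, hEE] at h5
      linarith
    have h5 : 8 * (((A : ℝ) + 3) * Real.exp L) ≤ Real.exp (-μ) * Real.exp (2 * L) := by
      rw [hE2L]
      nlinarith only [h4, hEL0]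
    have h6 : Real.exp (-μ) * Real.exp (2 * L) ≤ Real.exp (-μ) * N :=
      mul_le_mul_of_nonneg_left hNr hEμ'.le
    have h7 : 0 ≤ Real.exp (-μ) * N := by positivity
    linarith
  · -- one class
    intro b hb
    have hbr : (b : ℝ) ≤ P := by exact_mod_cast hb.le
    set tti : ℕ → ℕ := fun i => s * (i + 1) with htti
    have httm : ∀ i < m₁, tti i ≤ m := by
      intro i hi
      exact (Nat.mul_le_mul_left _ hi).trans hm₁1
    set V : ℕ → Finset (ℤ × ℤ) := fun i => VL P (4 * μ * L) A H b (tti i) with hV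
    have hsv : ∀ i < m₁, ((svL P (b : ℤ) (V i)).card : ℝ) ≤ c₃ * e * L / Real.log L := by
      intro i hi
      have hti : ((tti i : ℕ) : ℝ) ≤ Real.exp L := by
        have : ((tti i : ℕ) : ℝ) ≤ m := by exact_mod_cast httm i hi
        linarith
      set Bd : ℝ := 16 * Cs * μ * L / l with hBd
      have hBd0 : 0 ≤ Bd := by positivity
      have h1 := sv_VL P A H b (tti i) (4 * μ * L) Bd hPpos hBd0 (by
        intro h hh a'
        set d'' : ℕ := b + tti i + h + A * P with hd''
        have hd''pos : 0 < d'' := by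
          have : 1 * 1 ≤ A * P := Nat.mul_le_mul hA hPpos
          omega
        have hrc : rP P (b + tti i + h) = rP P d'' := by
          apply rP_congr
          rw [hd'']
          have : b + tti i + h ≡ b + tti i + h + A * P [MOD P] := by
            have h0 : (0 : ℕ) ≡ A * P [MOD P] := (Nat.modEq_zero_iff_dvd.2 (Dvd.intro_left _ rfl)).symm
            exact (Nat.ModEq.add_left (b + tti i + h) h0)
          exact this
        set r : ℝ := rP P (b + tti i + h) with hr
        have hLr : Real.sqrt L ≤ L * r := hrL _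
        set F : ℕ := ⌊4 * μ * L * r⌋₊ with hF
        have hr1 : r ≤ 1 := rP_le_one _ _
        have hLr0 : 0 ≤ L * r := by linarith
        have hB0 : 0 ≤ 4 * μ * L * r := by
          have : 4 * μ * L * r = 4 * μ * (L * r) := by ring
          rw [this]
          positivity
        have hF1 : (F : ℝ) ≤ 4 * μ * L * r := Nat.floor_le hB0
        have hF2 : Real.sqrt L ≤ F := by
          have h2 : 4 * μ * L * r < F + 1 := Nat.lt_floor_add_one _
          have h3 : 4 * (L * r) ≤ 4 * μ * L * r := by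
            have : 4 * μ * L * r = 4 * μ * (L * r) := by ring
            rw [this]
            nlinarith only [hLr0, hμ1]
          linarith
        have hF2' : 2 ≤ F := by
          have : (1:ℝ) < F := by linarith
          have : 1 < F := by exact_mod_cast this
          omega
        have hF8 : (F : ℝ) < x ^ 8 := by
          refine lt_of_le_of_lt ?_ v2
          have h2 : 4 * μ * L * r ≤ 4 * μ * L := by
            have : 0 ≤ 4 * μ * L := by positivity
            nlinarith only [this, hr1]
          have h3 : 4 * μ * L ≤ K * L := by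
            apply mul_le_mul_of_nonneg_right _ hLpos.le
            have : 4 * μ ≤ 4 * μ * (H + 2) := by nlinarith only [hμ0, hHr]
            linarith
          linarith
        have hlF : l / 2 ≤ Real.log F := by
          have h2 : Real.log (Real.sqrt L) = l / 2 := Real.log_sqrt hLpos.le
          rw [← h2]
          exact Real.log_le_log (by linarith) hF2
        have hlF0 : 0 < Real.log F := by linarith
        have hdL : Real.log d'' ≤ 2 * L := by
          have hd0 : (0:ℝ) < d'' := by exact_mod_cast hd''pos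
          rw [Real.log_le_iff_le_exp hd0]
          have h2 : (d'' : ℝ) = b + tti i + h + A * P := by rw [hd'']; push_cast; ring
          rw [h2]
          have hPL : (P : ℝ) ≤ Real.exp L := hPx.trans (Real.exp_le_exp.2 (by linarith))
          have hhr : (h : ℝ) ≤ H := by exact_mod_cast hh
          have h3 : (b : ℝ) + tti i + h + A * P ≤ (A + H + 2) * Real.exp L := by
            have h4 : (A : ℝ) * P ≤ A * Real.exp L := mul_le_mul_of_nonneg_left hPL (by linarith)
            have h5 : (h : ℝ) ≤ H * Real.exp L := by nlinarith only [hhr, hHr, hEL1]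
            linarith
          have h4 : ((A : ℝ) + H + 2) * Real.exp L ≤ K * L * Real.exp L := by
            apply mul_le_mul_of_nonneg_right _ hEL0.le
            linarith
          linarith
        have hsm : Real.log d'' / (x * Real.log x) ≤ 1 / 2 := by
          rw [div_le_iff₀ (by positivity)]
          have h2 : 2 * L = 64 * x := by rw [hx]; ring
          have h3 : 200 * x ≤ x * Real.log x := by nlinarith only [hlx200, hx0]
          linarith
        have h2 := hsurv a' d'' F x hd''pos hF2' hx0 hF8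
        refine le_trans (le_of_eq ?_) (h2.trans ?_)
        · rw [hd'']
        · rw [hBd, div_le_div_iff₀ hlF0 hl0]
          have h3 : (d'' : ℝ) / d''.totient * F ≤ 8 * μ * L := by
            have h4 : (d'' : ℝ) / d''.totient * r ≤ 2 := by
              rw [hrc]
              exact rP_tot hx1 hd''pos hsm
            have h5 : (d'' : ℝ) / d''.totient * F ≤ (d'' : ℝ) / d''.totient * (4 * μ * L * r) :=
              mul_le_mul_of_nonneg_left hF1 (by positivity)
            refine h5.trans ?_
            calc (d'' : ℝ) / d''.totient * (4 * μ * L * r) = 4 * μ * L * ((d'' : ℝ) / d''.totient * r) := by ring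
              _ ≤ 4 * μ * L * 2 := mul_le_mul_of_nonneg_left h4 (by positivity)
              _ = _ := by ring
          calc Cs * ((d'' : ℝ) / d''.totient) * F * l = Cs * ((d'' : ℝ) / d''.totient * F) * l := by ring
            _ ≤ Cs * (8 * μ * L) * l := by
                apply mul_le_mul_of_nonneg_right _ hl0.le
                exact mul_le_mul_of_nonneg_left h3 (by linarith)
            _ = 16 * Cs * μ * L * (l / 2) := by ring
            _ ≤ 16 * Cs * μ * L * Real.log F := mul_le_mul_of_nonneg_left hlF (by positivity))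
      refine h1.trans ?_
      have h8 : 48 * Cs ≤ C' * c₃ := by
        rw [div_le_iff₀ hc₃] at hC'2
        exact hC'2
      rw [hBd]
      have h9 : ((H : ℝ) + 1) * (2 * A + 1) * (16 * Cs * μ * L / l) ≤
          ((H : ℝ) + 1) * (3 * A) * (16 * Cs * μ * L / l) := by
        apply mul_le_mul_of_nonneg_right _ hBd0
        apply mul_le_mul_of_nonneg_left _ (by positivity)
        linarith
      refine h9.trans ?_
      have h10 : ((H : ℝ) + 1) * (3 * A) * (16 * Cs * μ * L / l) = 48 * Cs * (Q * μ * L / l) := by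
        rw [hQ]; ring
      have h11 : c₃ * e * L / l = C' * c₃ * (Q * μ * L / l) := by rw [he]; ring
      rw [h10, h11]
      exact mul_le_mul_of_nonneg_right h8 (by positivity)
    set G₀ : ℕ := m₁ / J₀ with hG₀
    have hG1 : G₀ * J₀ ≤ m₁ := Nat.div_mul_le_self _ _
    have hG2 : (m₁ : ℝ) < (G₀ + 1) * J₀ := by
      have : m₁ < (G₀ + 1) * J₀ := by
        have := Nat.lt_div_mul_add (a := m₁) hJpos
        rw [← hG₀] at this
        linarith [this]
      exact_mod_cast this
    have hm₁J : 15 * (J₀ : ℝ) ≤ m₁ := by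
      have h1 : s * (16 * (J₀ : ℝ)) ≤ s * (m₁ + 1) := by linarith
      have h2 := le_of_mul_le_mul_left h1 (by linarith : (0:ℝ) < s)
      linarith
    have hm₁s : (m : ℝ) ≤ 2 * s * m₁ := by
      have h1 : (1:ℝ) ≤ m₁ := by linarith
      nlinarith only [hm₁2, h1, hsr1]
    have hG3 : (m₁ : ℝ) / (2 * J₀) ≤ G₀ := by
      rw [div_le_iff₀ (by positivity)]
      nlinarith only [hG2, hm₁J, hJr]
    have hm₁0 : (0:ℝ) < m₁ := by linarith
    have hG0 : 0 < G₀ := by
      have : (0:ℝ) < G₀ := lt_of_lt_of_le (by positivity) hG3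
      exact_mod_cast this
    have hθG : θ * m ≤ (G₀ : ℝ) / 2 := by
      have h1 : θ * m ≤ m / (16 * J₀ * s) := by
        rw [le_div_iff₀ (by positivity)]
        have h2 : θ * (16 * J₀ * s) * m ≤ 1 * m := mul_le_mul_of_nonneg_right hθJ hm0.le
        linarith
      have h2 : (m : ℝ) / (16 * J₀ * s) ≤ m₁ / (8 * J₀) := by
        rw [div_le_div_iff₀ (by positivity) (by positivity)]
        have h3 : (m : ℝ) * (8 * J₀) ≤ (2 * s * m₁) * (8 * J₀) :=
          mul_le_mul_of_nonneg_right hm₁s (by positivity)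
        linarith
      have h3 : (m₁ : ℝ) / (8 * J₀) = m₁ / (2 * J₀) / 4 := by field_simp; norm_num
      have h4 : (0:ℝ) ≤ G₀ := Nat.cast_nonneg _
      linarith
    set δ : ℝ := 17 * Real.exp (-(e / 2)) + (J₀ * e) ^ 3 * (2 * L + 1) / L ^ 3 with hδ
    have hδ0 : 0 ≤ δ := by positivity
    have hδμ : δ ≤ 1 / 32 * Real.exp (-μ) := by
      have h1 : Real.exp (-(e / 2)) ≤ 1 / 3200 * Real.exp (-μ) := by
        have h2 : Real.exp (-(e / 2)) ≤ Real.exp (-μ - 3199) := by
          apply Real.exp_le_exp.2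
          have : 6400 * μ ≤ e := by rw [he]; nlinarith only [hC'1, hμ1, hQμ]
          linarith
        have h3 : Real.exp (-μ - 3199) = Real.exp (-μ) * Real.exp (-3199) := by
          rw [← Real.exp_add]; congr 1
        have h4 : Real.exp (-3199) ≤ 1 / 3200 := by
          rw [Real.exp_neg, inv_eq_one_div]
          apply one_div_le_one_div_of_le (by norm_num)
          have := Real.add_one_le_exp (3199:ℝ)
          linarith
        rw [h3] at h2
        nlinarith only [h2, h4, hEμ']
      have h3 : (J₀ * e) ^ 3 * (2 * L + 1) / L ^ 3 ≤ 1 / 64 * Real.exp (-μ) := by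
        rw [div_le_iff₀ (by positivity)]
        have h4 : 2 * L + 1 ≤ 5 * L := by linarith
        have h5 : (0:ℝ) ≤ (J₀ * e) ^ 3 := by positivity
        have h6 : 320 * (J₀ * e) ^ 3 * Real.exp μ ≤ L := by linarith
        calc (J₀ * e) ^ 3 * (2 * L + 1) ≤ (J₀ * e) ^ 3 * (5 * L) :=
              mul_le_mul_of_nonneg_left h4 h5
          _ = (320 * (J₀ * e) ^ 3 * Real.exp μ) * Real.exp (-μ) * L / 64 := by
              have : (320 * (J₀ * e) ^ 3 * Real.exp μ) * Real.exp (-μ) * L / 64 =
                5 * L * (J₀ * e) ^ 3 * (Real.exp (-μ) * Real.exp μ) := by ring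
              rw [this, hEE]
              ring
          _ ≤ L * Real.exp (-μ) * L / 64 := by
              apply div_le_div_of_nonneg_right _ (by norm_num)
              exact mul_le_mul_of_nonneg_right (mul_le_mul_of_nonneg_right h6 hEμ'.le) hLpos.le
          _ = 1 / 64 * Real.exp (-μ) * L ^ 2 := by ring
          _ ≤ 1 / 64 * Real.exp (-μ) * L ^ 3 := by
              apply mul_le_mul_of_nonneg_left _ (by positivity)
              exact pow_le_pow_right₀ (by linarith) (by norm_num)
      rw [hδ]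
      linarith
    set S : Finset ℤ := (Ioc (M : ℤ) (M + N)).filter (fun n : ℤ => (P : ℤ) ∣ n - b) with hS
    have hgc : ((S.filter (fun n => (((range m₁).filter (fun i => CovL z (V i) n)).card : ℝ) <
        G₀ / 2)).card : ℝ) ≤ 2 * (δ * ((N : ℝ) / P + 1)) := by
      have hgL := group_countL S z V m₁ J₀ G₀ hG0 (fun k => k) (fun k hk =>
        ⟨lt_of_lt_of_le hk hG1, fun k' hk' => hk'.ne⟩) (δ * ((N : ℝ) / P + 1)) (by
        intro r hr
        have hlt : ∀ q : Fin J₀, r * J₀ + q < m₁ := by
          intro q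
          have h1 := q.2
          calc r * J₀ + (q : ℕ) < r * J₀ + J₀ := by omega
            _ = (r + 1) * J₀ := by ring
            _ ≤ G₀ * J₀ := Nat.mul_le_mul_right _ hr
            _ ≤ m₁ := hG1
        have h1 := hcls L e hLL₀ hee₀ hel J₀ hJ1 hLJ (2 * L) (by positivity)
          (fun q : Fin J₀ => V (r * J₀ + q)) (b : ℤ) (by
            intro q q' hqq
            have hne : (q : ℕ) ≠ q' := fun h => hqq (Fin.ext h)
            apply VL_disj
            rcases Nat.lt_or_gt_of_ne hne with h | h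
            · left
              have : s * (r * J₀ + q + 1) + s ≤ s * (r * J₀ + q' + 1) := by
                have : s * (r * J₀ + q + 1) + s = s * (r * J₀ + q + 1 + 1) := by ring
                rw [this]
                exact Nat.mul_le_mul_left _ (by omega)
              exact this
            · right
              have : s * (r * J₀ + q' + 1) + s ≤ s * (r * J₀ + q + 1) := by
                have : s * (r * J₀ + q' + 1) + s = s * (r * J₀ + q' + 1 + 1) := by ring
                rw [this]
                exact Nat.mul_le_mul_left _ (by omega)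
              exact this) (by
            intro q v hv
            exact VL_pos hv) (by
            intro q q' v hv v' hv' hne
            exact VL_det hv hv' hne) (by
            intro q v hv
            apply VL_size (by positivity) hA _ hv
            have hti : ((tti (r * J₀ + q) : ℕ) : ℝ) ≤ Real.exp L := by
              have : ((tti (r * J₀ + q) : ℕ) : ℝ) ≤ m := by exact_mod_cast httm _ (hlt q)
              linarith
            have h2 : (A : ℝ) + 4 * μ * L * (tti (r * J₀ + q) + H) + 4 * μ * L ≤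
                (A + 4 * μ * (H + 2)) * L * Real.exp L := by
              have g1 : 4 * μ * L * (tti (r * J₀ + q) + H) ≤ 4 * μ * L * (Real.exp L * (1 + H)) := by
                apply mul_le_mul_of_nonneg_left _ (by positivity)
                nlinarith only [hti, hHr, hEL1]
              have g2 : 4 * μ * L ≤ 4 * μ * L * Real.exp L := by
                have : 0 ≤ 4 * μ * L := by positivity
                nlinarith only [this, hEL1]
              have g3 : (A : ℝ) ≤ A * L * Real.exp L := by
                have g4 : (A : ℝ) ≤ A * L := by nlinarith only [hAr, hL1600]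
                have g5 : (0:ℝ) ≤ A * L := by positivity
                nlinarith only [g4, g5, hEL1]
              have g4 : (A + 4 * μ * (H + 2)) * L * Real.exp L = A * L * Real.exp L +
                  4 * μ * L * (Real.exp L * (1 + H)) + 4 * μ * L * Real.exp L := by ring
              rw [g4]
              linarith
            refine h2.trans (le_trans ?_ hbig)
            apply mul_le_mul_of_nonneg_right _ hEL0.le
            apply mul_le_mul_of_nonneg_right _ hLpos.le
            linarith) (by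
            intro q
            exact hsv _ (hlt q)) M N hNr
        refine le_trans ?_ h1
        rw [Nat.cast_le]
        apply Finset.card_le_card
        intro n hn
        rw [hS, Finset.filter_filter, Finset.mem_filter] at hn
        rw [Finset.mem_filter]
        exact ⟨hn.1, hn.2.1, hn.2.2⟩)
      exact hgL
    have h1 : 2 * (δ * ((N : ℝ) / P + 1)) ≤ 1 / 4 * Real.exp (-μ) * (N / P) := by
      calc 2 * (δ * ((N : ℝ) / P + 1)) ≤ 2 * (δ * ((N : ℝ) / P + N / P)) := by
            apply mul_le_mul_of_nonneg_left _ (by norm_num)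
            apply mul_le_mul_of_nonneg_left _ hδ0
            linarith
        _ = 4 * δ * (N / P) := by ring
        _ ≤ 4 * (1 / 32 * Real.exp (-μ)) * (N / P) := by
            apply mul_le_mul_of_nonneg_right _ (by linarith)
            linarith
        _ ≤ _ := by
            have : 0 ≤ Real.exp (-μ) * (N / P) := by positivity
            linarith
    refine le_trans ?_ (hgc.trans h1)
    rw [Nat.cast_le]
    apply Finset.card_le_card
    intro n hn
    rw [Finset.mem_filter] at hn
    rw [Finset.mem_filter, hS, Finset.mem_filter]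
    exact ⟨⟨hn.1, hn.2.1⟩, lt_of_lt_of_le hn.2.2 hθG⟩

end Pool.Agent.T2h81.UC
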