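import Pool.Agent.T2h81.UC.D4

set_option autoImplicit false
set_option linter.unusedVariables false
set_option maxHeartbeats 4000000

/-! # Fixed residues, varying moduli -/

namespace Pool.Agent.T2h81.UC

open Finset Filter Pool.Agent.H256R2.SC Pool.Agent.Y831.RC

open scoped Classical

/-- all the classes of the `a` with `0 < |a| ≤ A` modulo `D` contain no prime up to
`lam φ(D) log D`, except possibly `a` -/
def LateA (A : ℕ) (lam : ℝ) (D : ℕ) : Prop :=
  ∀ a : ℤ, a ≠ 0 → |a| ≤ A → ∀ p : ℕ, p.Prime → (p : ℤ) ≠ a → (p : ℤ) ≡ a [ZMOD D] →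
    lam * D.totient * Real.log D < p

theorem late_of_cov (P A H b t n : ℕ) (z L lam η : ℝ) (hP : 0 < P) (hη : 0 < η) (hlam : 0 < lam)
    (hA : 1 ≤ A) (hz : 2 * (A : ℝ) + 1 ≤ z) (hn : z + A < n) (hb : n ≡ b [MOD P])
    (hrL : ∀ d : ℕ, 1 ≤ lam / η * L * rP P d)
    (hcov : CovL z (VL P (4 * (lam / η) * L) A H b t) (n : ℤ)) (h : ℕ) (hh : h ≤ H)
    (hlog : Real.log ((n + t + h : ℕ) : ℝ) ≤ 3 * L / η) : LateA A lam (n + t + h) := by
  intro a ha0 haA p hp hpa hmod
  by_contra hcon
  push Not at hcon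
  set D : ℕ := n + t + h with hD
  have hDr : z + A < (D : ℝ) := by
    have : (n : ℝ) ≤ D := by
      have : n ≤ D := by omega
      exact_mod_cast this
    linarith
  have hA0 : (1:ℝ) ≤ A := by exact_mod_cast hA
  have hD0 : (0:ℝ) < D := by linarith
  have hDpos : 0 < D := by exact_mod_cast hD0
  have habs : -(A : ℤ) ≤ a ∧ a ≤ A := abs_le.1 haA
  have haR1 : (a : ℝ) ≤ A := by exact_mod_cast habs.2
  have haR2 : -(A : ℝ) ≤ a := by
    have : (((-(A : ℤ)) : ℤ) : ℝ) ≤ (a : ℝ) := by exact_mod_cast habs.1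
    push_cast at this
    exact this
  obtain ⟨k, hk⟩ := (Int.modEq_iff_dvd.1 hmod.symm)
  -- `p - a = D k`
  have hpR : (p : ℝ) = a + D * k := by
    have : (p : ℤ) = a + D * k := by linarith
    exact_mod_cast this
  have hp0 : (0:ℝ) ≤ p := Nat.cast_nonneg _
  have hk1 : 1 ≤ k := by
    by_contra hk1
    have hk2 : k ≤ 0 := by omega
    rcases lt_or_eq_of_le hk2 with h1 | h1
    · have h2 : k ≤ -1 := by omega
      have h3 : (k : ℝ) ≤ -1 := by exact_mod_cast h2
      nlinarith
    · rw [h1] at hk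
      apply hpa
      linarith
  obtain ⟨kn, hkn⟩ := Int.eq_ofNat_of_zero_le (by omega : 0 ≤ k)
  have hkn' : k = (kn : ℤ) := hkn
  subst hkn'
  have hkr1 : (1:ℝ) ≤ kn := by
    have : 1 ≤ kn := by exact_mod_cast hk1
    exact_mod_cast this
  have hpR' : (p : ℝ) = a + D * kn := by rw [hpR]; push_cast; ring
  have hpD : z < (p : ℝ) := by nlinarith
  have hpA : (A : ℝ) < p := by linarith
  have hcop : IsCoprime (kn : ℤ) a := by
    rw [Int.isCoprime_iff_gcd_eq_one]
    by_contra hg
    obtain ⟨q, hq, hqd⟩ := Nat.exists_prime_and_dvd hg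
    have hq1 : (q : ℤ) ∣ kn := (Int.natCast_dvd_natCast.2 hqd).trans (Int.gcd_dvd_left _ _)
    have hq2 : (q : ℤ) ∣ a := (Int.natCast_dvd_natCast.2 hqd).trans (Int.gcd_dvd_right _ _)
    have hq3 : (q : ℤ) ∣ (p : ℤ) := by
      have : (p : ℤ) = a + D * kn := by linarith
      rw [this]
      exact dvd_add hq2 (Dvd.dvd.mul_left hq1 _)
    have hq4 : q ∣ p := Int.natCast_dvd_natCast.1 hq3
    have hq5 : q = p := (Nat.prime_dvd_prime_iff_eq hq hp).1 hq4
    rw [hq5] at hq2
    have hq6 := Int.le_of_dvd (abs_pos.2 ha0) ((dvd_abs _ _).2 hq2)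
    have hq7 : (p : ℤ) ≤ A := hq6.trans haA
    have hq8 : (p : ℝ) ≤ A := by exact_mod_cast hq7
    linarith
  -- the bound for `k`
  have hr := tot_le_rP hP hDpos
  have hrc : rP P D = rP P (b + t + h) := by
    apply rP_congr
    rw [hD]
    exact (hb.add_right t).add_right h
  have hr0 : 0 ≤ rP P D := by unfold rP; positivity
  have hkB : (kn : ℝ) ≤ 4 * (lam / η) * L * rP P D := by
    have h1 : D * (kn : ℝ) ≤ lam * D.totient * Real.log D + A := by linarith
    have h2 : lam * D.totient * Real.log D ≤ lam * (rP P D * D) * (3 * L / η) := by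
      have h3 : (D.totient : ℝ) ≤ rP P D * D := by rwa [div_le_iff₀ hD0] at hr
      have h4 : 0 ≤ Real.log D := Real.log_natCast_nonneg _
      have h5 : lam * D.totient ≤ lam * (rP P D * D) := mul_le_mul_of_nonneg_left h3 hlam.le
      have h6 : 0 ≤ lam * (rP P D * D) := by positivity
      calc lam * D.totient * Real.log D ≤ lam * (rP P D * D) * Real.log D :=
            mul_le_mul_of_nonneg_right h5 h4
        _ ≤ _ := mul_le_mul_of_nonneg_left hlog h6
    have h3 : lam * (rP P D * D) * (3 * L / η) = D * (3 * (lam / η * L * rP P D)) := by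
      field_simp
    have h4 := hrL D
    have h5 : (A : ℝ) ≤ D * 1 := by linarith
    have h6 : D * (kn : ℝ) ≤ D * (4 * (lam / η) * L * rP P D) := by
      calc D * (kn : ℝ) ≤ D * (3 * (lam / η * L * rP P D)) + D * 1 := by linarith
        _ ≤ D * (3 * (lam / η * L * rP P D)) + D * (lam / η * L * rP P D) := by
            have := mul_le_mul_of_nonneg_left h4 hD0.le
            linarith
        _ = _ := by ring
    exact le_of_mul_le_mul_left h6 hD0
  have hkfl : kn ≤ ⌊4 * (lam / η) * L * rP P (b + t + h)⌋₊ := by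
    rw [← hrc]
    exact Nat.le_floor hkB
  have hv : ((kn : ℤ), a + kn * ((t : ℤ) + h)) ∈ VL P (4 * (lam / η) * L) A H b t := by
    rw [mem_VL]
    exact ⟨h, a, kn, hh, habs.1, habs.2, ha0, hcop, by exact_mod_cast hk1, hkfl, rfl⟩
  obtain ⟨q, hq, hqz, hqd⟩ := hcov _ hv
  simp only at hqd
  have h1 : (kn : ℤ) * n + (a + kn * ((t : ℤ) + h)) = (p : ℤ) := by
    have : (p : ℤ) = a + D * kn := by linarith
    rw [this, hD]
    push_cast
    ring
  rw [h1] at hqd
  have h2 : q ∣ p := Int.natCast_dvd_natCast.1 hqd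
  have h3 : q = p := (Nat.prime_dvd_prime_iff_eq hq hp).1 h2
  rw [h3] at hqz
  linarith

theorem moduli_main : ∃ C : ℝ, 1 ≤ C ∧ ∀ η lam : ℝ, 0 < η → η ≤ 1 → 1 ≤ lam →
    ∀ A H : ℕ, 1 ≤ A → ∃ X₀ : ℝ, ∀ X : ℝ, X₀ ≤ X → ∀ M N : ℕ, (M : ℝ) + N ≤ X → X ^ η ≤ N →
    ∀ m : ℕ, Real.exp (Real.exp (C * A * (H + 1) * lam / η)) ≤ m → (m : ℝ) ≤ X ^ (η / 2) →
    (((Ioc M (M + N)).filter (fun n => (((Ioc n (n + m)).filter (fun d =>
      ∀ h ≤ H, LateA A lam (d + h))).card : ℝ) <
        Real.exp (-Real.exp (C * A * (H + 1) * lam / η)) * m)).card : ℝ) ≤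
      Real.exp (-(lam / η)) * N := by
  obtain ⟨C', hC', hmain⟩ := mod_class_bound
  refine ⟨3 * C', by linarith, ?_⟩
  intro η lam hη hη1 hlam A H hA
  obtain ⟨X₀, hX₀1, hX₀⟩ := hmain η lam hη hη1 hlam A H hA
  refine ⟨max X₀ 1, ?_⟩
  intro X hX M N hMN hN m hm1 hm2
  have hXX : X₀ ≤ X := (le_max_left _ _).trans hX
  have hX1 : 1 ≤ X := (le_max_right _ _).trans hX
  have hexpo : 3 * C' * A * (H + 1) * lam / η = 3 * (C' * (A * (H + 1) * (lam / η))) := by ring
  rw [hexpo] at hm1 ⊢
  obtain ⟨x, z, L, m₁, hx1, hz, hL1, hlogX, hm₁, hmX, hrL, hexc, hPN, hcl⟩ := hX₀ X hXX M N hN m hm1 hm2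
  set θ : ℝ := Real.exp (-Real.exp (3 * (C' * (A * (H + 1) * (lam / η))))) with hθ
  set P : ℕ := primorial ⌊x⌋₊ with hP
  have hPpos : 0 < P := primorial_pos _
  have hPr : (0:ℝ) < P := by exact_mod_cast hPpos
  have hlam0 : 0 < lam := by linarith
  have hA0 : (1:ℝ) ≤ A := by exact_mod_cast hA
  set s : ℕ := H + 2 * A + 1 with hs
  have hs0 : 0 < s := by omega
  set cls : ℕ → Finset ℤ := fun b => (Ioc (M : ℤ) (M + N)).filter (fun n : ℤ => (P : ℤ) ∣ n - b ∧
      (((range m₁).filter (fun i => CovL z (VL P (4 * (lam / η) * L) A H b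
        (s * (i + 1))) n)).card : ℝ) < θ * m) with hcls
  set BadI : Finset ℤ := (range P).biUnion cls with hBadI
  set Bad := (Ioc M (M + N)).filter (fun n => (((Ioc n (n + m)).filter (fun d =>
      ∀ h ≤ H, LateA A lam (d + h))).card : ℝ) < θ * m) with hBad
  have hzA : 0 ≤ z + A := by linarith
  have hsub : Bad ⊆ Finset.Icc 0 ⌊z + A⌋₊ ∪ BadI.image Int.toNat := by
    intro n hn
    rw [hBad, Finset.mem_filter, Finset.mem_Ioc] at hn
    obtain ⟨⟨hn1, hn2⟩, hnbad⟩ := hn
    rw [Finset.mem_union]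
    by_cases hnz : (n : ℝ) ≤ z + A
    · left
      rw [Finset.mem_Icc]
      exact ⟨Nat.zero_le _, Nat.le_floor hnz⟩
    push Not at hnz
    right
    rw [Finset.mem_image]
    refine ⟨(n : ℤ), ?_, Int.toNat_natCast n⟩
    rw [hBadI, Finset.mem_biUnion]
    set b : ℕ := n % P with hb
    have hbP : b < P := Nat.mod_lt _ hPpos
    refine ⟨b, Finset.mem_range.2 hbP, ?_⟩
    rw [hcls, Finset.mem_filter, Finset.mem_Ioc]
    refine ⟨⟨by exact_mod_cast hn1, by exact_mod_cast hn2⟩, ?_, ?_⟩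
    · have h1 := Nat.mod_add_div n P
      rw [← hb] at h1
      refine ⟨((n / P : ℕ) : ℤ), ?_⟩
      have h2 : (b : ℤ) + P * (n / P : ℕ) = n := by exact_mod_cast h1
      linarith
    · refine lt_of_le_of_lt ?_ hnbad
      rw [Nat.cast_le]
      apply Finset.card_le_card_of_injOn (fun i => n + s * (i + 1))
      · intro i hi
        rw [Finset.mem_coe, Finset.mem_filter, Finset.mem_range] at hi
        rw [Finset.mem_coe, Finset.mem_filter, Finset.mem_Ioc]
        obtain ⟨hi1, hi2⟩ := hi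
        have hsi : s * (i + 1) ≤ m := (Nat.mul_le_mul_left _ hi1).trans hm₁
        have hsi0 : 0 < s * (i + 1) := Nat.mul_pos hs0 (Nat.succ_pos _)
        refine ⟨⟨show n < n + s * (i + 1) by omega, show n + s * (i + 1) ≤ n + m by omega⟩, ?_⟩
        intro h hh
        apply late_of_cov P A H b (s * (i + 1)) n z L lam η hPpos hη hlam0 hA hz hnz
          (Nat.mod_modEq n P).symm hrL hi2 h hh
        have hnX : (n : ℝ) ≤ X := by
          have : (n : ℝ) ≤ (M : ℝ) + N := by exact_mod_cast hn2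
          linarith
        have h1 : ((n + s * (i + 1) + h : ℕ) : ℝ) ≤ 2 * X := by
          push_cast
          have h2 : ((s * (i + 1) : ℕ) : ℝ) ≤ m := by exact_mod_cast hsi
          have h3 : (h : ℝ) ≤ H := by exact_mod_cast hh
          push_cast at h2
          linarith
        have hD0 : (0:ℝ) < ((n + s * (i + 1) + h : ℕ) : ℝ) := by
          have : 0 < n + s * (i + 1) + h := by omega
          exact_mod_cast this
        have hX0 : 0 < X := by linarith
        calc Real.log ((n + s * (i + 1) + h : ℕ) : ℝ) ≤ Real.log (2 * X) := Real.log_le_log hD0 h1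
          _ = Real.log 2 + Real.log X := Real.log_mul (by norm_num) hX0.ne'
          _ ≤ 1 + 2 * L / η := by
              rw [hlogX]
              have := Real.log_two_lt_d9
              linarith
          _ ≤ 3 * L / η := by
              have h4 : 1 ≤ L / η := by
                rw [le_div_iff₀ hη]
                linarith
              have h5 : 3 * L / η = 2 * L / η + L / η := by ring
              linarith
      · intro i _ i' _ h
        have h1 : n + s * (i + 1) = n + s * (i' + 1) := h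
        have h2 : s * (i + 1) = s * (i' + 1) := by omega
        have h3 := Nat.eq_of_mul_eq_mul_left hs0 h2
        omega
  have hcard1 : Bad.card ≤ (⌊z + A⌋₊ + 1) + BadI.card := by
    refine (Finset.card_le_card hsub).trans ((Finset.card_union_le _ _).trans ?_)
    apply add_le_add
    · rw [Nat.card_Icc]; omega
    · exact Finset.card_image_le
  have hcard2 : (BadI.card : ℝ) ≤ P * (1 / 4 * Real.exp (-(lam / η)) * ((N : ℝ) / P)) := by
    have h1 : (BadI.card : ℝ) ≤ ∑ b ∈ range P, ((cls b).card : ℝ) := by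
      exact_mod_cast Finset.card_biUnion_le
    refine h1.trans ?_
    calc ∑ b ∈ range P, ((cls b).card : ℝ) ≤
        ∑ _b ∈ range P, (1 / 4 * Real.exp (-(lam / η)) * ((N : ℝ) / P)) := by
          apply Finset.sum_le_sum
          intro b hb
          exact hcl b (Finset.mem_range.1 hb)
      _ = _ := by rw [Finset.sum_const, Finset.card_range, nsmul_eq_mul]
  have hfin : (P : ℝ) * (1 / 4 * Real.exp (-(lam / η)) * ((N : ℝ) / P)) =
      1 / 4 * Real.exp (-(lam / η)) * N := by field_simp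
  have h5 : (Bad.card : ℝ) ≤ (⌊z + A⌋₊ + 1) + BadI.card := by exact_mod_cast hcard1
  have h6 : (⌊z + A⌋₊ : ℝ) ≤ z + A := Nat.floor_le hzA
  have h7 : 0 ≤ Real.exp (-(lam / η)) * N := by positivity
  rw [hfin] at hcard2
  linarith

end Pool.Agent.T2h81.UC
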