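import Pool.Agent.T2h81.UC.D1

set_option autoImplicit false
set_option linter.unusedSectionVars false
set_option linter.unusedVariables false
set_option maxHeartbeats 4000000

/-! # One class modulo the small primes, very many families of linear forms -/

namespace Pool.Agent.T2h81.UC

open Finset Filter Pool.Agent.H256R2.SC Pool.Agent.Y831.RC

open scoped Classical

/-- all the values at `n` of the forms of `V` have a prime factor `p ≤ z` with `p ∣ P₁` or `p > w` -/
def CovP (P₁ : ℕ) (w z : ℝ) (V : Finset (ℤ × ℤ)) (n : ℤ) : Prop :=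
  ∀ v ∈ V, ∃ p : ℕ, p.Prime ∧ (p : ℝ) ≤ z ∧ (p ∣ P₁ ∨ w < (p : ℝ)) ∧ (p : ℤ) ∣ v.1 * n + v.2

/-- the determinant of two forms -/
def dtm (v v' : ℤ × ℤ) : ℤ := v.1 * v'.2 - v'.1 * v.2

/-- one class -/
theorem class_uni (w Y z x u η len Cc T B₀ : ℝ) (J₀ : ℕ) (V : Fin J₀ → Finset (ℤ × ℤ)) (D₀ : Finset ℕ)
    (P₁ : ℕ) (b : ℤ) (hx0 : 0 ≤ x)
    (hxw : x ≤ w) (hw1 : 1 ≤ w) (hxz : x ≤ z) (hu0 : 0 ≤ u)
    (hwY : w ≤ Real.exp Y) (hη : 0 ≤ η) (hT : 0 ≤ T) (hB₀ : 0 ≤ B₀)
    (hP₁ : P₁ ∣ primorial ⌊x⌋₊)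
    (hDp : ∀ p ∈ D₀, p.Prime ∧ w < (p : ℝ)) (hDc : (D₀.card : ℝ) ≤ B₀)
    (hpos : ∀ i, ∀ v ∈ V i, ∀ p : ℕ, p.Prime → w < p → p ∉ D₀ → ¬ (p : ℤ) ∣ v.1)
    (hin : ∀ i, ∀ v ∈ V i, ∀ v' ∈ V i, v ≠ v' → ∀ p : ℕ, p.Prime → w < p → p ∉ D₀ → ¬ (p : ℤ) ∣ dtm v v')
    (hcross : ∀ i j, i ≠ j → ∀ v ∈ V i, ∀ v' ∈ V j, dtm v v' ≠ 0 ∧ |(dtm v v' : ℝ)| ≤ Real.exp T)
    (hcard : ∀ i, ((svL P₁ b (V i)).card : ℝ) ≤ u)
    (huw : u ≤ w) (hJY : (J₀ : ℝ) * u ≤ Real.exp Y) (hCc : (B₀ * u + u ^ 2 * (2 * T)) / w ≤ Cc)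
    (hYl : Real.exp Y ≤ len)
    (hcov : ∀ (κ : Fin J₀ → Type) [∀ i, Fintype (κ i)] [∀ i, DecidableEq (κ i)],
      (∀ i, (Fintype.card (κ i) : ℝ) ≤ u) → ∀ (res : ∀ i, ℕ → κ i → ℤ),
      (∀ i, ∀ p : ℕ, p.Prime → w < p → (p : ℝ) ≤ z → ∀ k l, k ≠ l →
        ¬ ((p : ℤ) ∣ res i p k - res i p l)) →
      (∀ i j, i ≠ j → ∀ p : ℕ, p.Prime → Real.exp Y < p →
        (p : ℝ) ≤ z → ∀ k l, ¬ ((p : ℤ) ∣ res i p k - res j p l)) →
      (∀ i j, i ≠ j → ∑ q, 1 / ((emb (PS w (Real.exp Y) ∅) q : ℕ) : ℝ) *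
        ∑ k, ∑ l, (if coll (PS w (Real.exp Y) ∅) (res i) (res j) q k l
          then 1 else 0) ≤ Cc) →
      ∀ A B : ℤ, len ≤ (B : ℝ) - A →
      (((Ioc A B).filter (fun x : ℤ => ¬ ∃ i, ∀ k : κ i, ∃ p : ℕ, p.Prime ∧ w < (p : ℝ) ∧
        (p : ℝ) ≤ z ∧ (p : ℤ) ∣ x - res i p k)).card : ℝ) ≤ η * ((B : ℝ) - A))
    (hYz : Real.exp Y ≤ z)
    (M : ℤ) (N : ℕ) (hlen : len ≤ (N : ℝ) / (primorial ⌊x⌋₊ : ℝ) - 1) :
    (((Ioc M (M + N)).filter (fun n : ℤ => ((primorial ⌊x⌋₊ : ℕ) : ℤ) ∣ n - b ∧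
      ¬ ∃ i, CovP P₁ w z (V i) n)).card : ℝ) ≤
      (η + (B₀ * u * (2 / w) + (B₀ + (J₀ * u) ^ 2 * (2 * T)) * (J₀ * u) * (2 / Real.exp Y))) *
        ((N : ℝ) / (primorial ⌊x⌋₊ : ℝ) + 1) := by
  set P : ℕ := primorial ⌊x⌋₊ with hPdef
  have hPpos : 0 < P := primorial_pos _
  have hPr : (0 : ℝ) < P := by exact_mod_cast hPpos
  have hPz : (0 : ℤ) < P := by exact_mod_cast hPpos
  have hw0 : 0 < w := by linarith
  have hEY0 : 0 < Real.exp Y := Real.exp_pos Y
  have hfloor : ∀ p : ℕ, p ≤ ⌊x⌋₊ ↔ (p : ℝ) ≤ x := fun p => Nat.le_floor_iff hx0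
  have hndvdP : ∀ p : ℕ, p.Prime → w < p → ¬ p ∣ P := by
    intro p hp hpX h
    have := (hfloor p).1 ((hp.dvd_primorial_iff).1 h)
    linarith
  set A' : ℤ := (M - b) / P with hA'
  set B' : ℤ := (M + N - b) / P with hB'
  have hA1 : (P : ℤ) * A' ≤ M - b := Int.mul_ediv_self_le hPz.ne'
  have hA2 : M - b < (P : ℤ) * A' + P := Int.lt_mul_ediv_self_add hPz
  have hB1 : (P : ℤ) * B' ≤ M + N - b := Int.mul_ediv_self_le hPz.ne'
  have hB2 : M + N - b < (P : ℤ) * B' + P := Int.lt_mul_ediv_self_add hPz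
  have rA1 : (P : ℝ) * A' ≤ M - b := by exact_mod_cast hA1
  have rA2 : (M : ℝ) - b < (P : ℝ) * A' + P := by exact_mod_cast hA2
  have rB1 : (P : ℝ) * B' ≤ M + N - b := by exact_mod_cast hB1
  have rB2 : (M : ℝ) + N - b < (P : ℝ) * B' + P := by exact_mod_cast hB2
  have hBA1 : (N : ℝ) / P - 1 ≤ (B' : ℝ) - A' := by
    rw [div_sub_one hPr.ne', div_le_iff₀ hPr]
    nlinarith
  have hBA2 : (B' : ℝ) - A' ≤ (N : ℝ) / P + 1 := by
    rw [div_add_one hPr.ne', le_div_iff₀ hPr]
    nlinarith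
  have hBAY : Real.exp Y ≤ (B' : ℝ) - A' := hYl.trans (hlen.trans hBA1)
  have hBA0 : 0 < (B' : ℝ) - A' := by linarith
  have hABle : A' ≤ B' := by
    have h2 : (A' : ℝ) ≤ B' := by linarith
    exact_mod_cast h2
  -- the points
  set κ : Fin J₀ → Type := fun i => (svL P₁ b (V i) : Finset (ℤ × ℤ)) with hκ
  have hκu : ∀ i, (Fintype.card (κ i) : ℝ) ≤ u := by
    intro i
    have := hcard i
    simp only [hκ]
    rw [Fintype.card_coe]
    exact this
  set KK : Type := (i : Fin J₀) × κ i with hKK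
  let vl : KK → ℤ × ℤ := fun α => ((α.2 : (svL P₁ b (V α.1) : Finset (ℤ × ℤ))) : ℤ × ℤ)
  have hvlV : ∀ α : KK, vl α ∈ V α.1 := fun α => (Finset.mem_filter.1 α.2.2).1
  have hKcard : (Fintype.card KK : ℝ) ≤ J₀ * u := by
    rw [Fintype.card_sigma]
    push_cast
    calc ∑ i : Fin J₀, (Fintype.card (κ i) : ℝ) ≤ ∑ _i : Fin J₀, u := Finset.sum_le_sum fun i _ => hκu i
      _ = J₀ * u := by rw [Finset.sum_const, Finset.card_univ, Fintype.card_fin, nsmul_eq_mul]
  have hK0 : (0:ℝ) ≤ Fintype.card KK := Nat.cast_nonneg _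
  let fk : KK → ℤ := fun α => ((Fintype.equivFin KK α : ℕ) : ℤ)
  have hfk0 : ∀ α, 0 ≤ fk α := fun α => Int.natCast_nonneg _
  have hfk1 : ∀ α, ((fk α : ℤ) : ℝ) < Real.exp Y := by
    intro α
    have h1 := (Fintype.equivFin KK α).2
    have h2 : ((Fintype.equivFin KK α : ℕ) : ℝ) < Fintype.card KK := by exact_mod_cast h1
    have h3 : ((fk α : ℤ) : ℝ) = ((Fintype.equivFin KK α : ℕ) : ℝ) := by simp only [fk]; push_cast; rfl
    rw [h3]
    linarith
  have hfkinj : ∀ α β, fk α = fk β → α = β := by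
    intro α β h
    have h1 : (Fintype.equivFin KK α : ℕ) = (Fintype.equivFin KK β : ℕ) := Nat.cast_injective (R := ℤ) h
    exact (Fintype.equivFin KK).injective (Fin.ext h1)
  let gk : ∀ i, κ i → ℕ := fun i k => (Fintype.equivFin (κ i) k : ℕ)
  have hgk1 : ∀ i (k : κ i), gk i k < ⌊u⌋₊ := by
    intro i k
    have h1 : gk i k < Fintype.card (κ i) := (Fintype.equivFin (κ i) k).2
    exact lt_of_lt_of_le h1 (Nat.le_floor (hκu i))
  have hgku : ∀ i (k : κ i), ((gk i k : ℕ) : ℝ) < w := by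
    intro i k
    have h1 : ((gk i k : ℕ) : ℝ) < (⌊u⌋₊ : ℝ) := by exact_mod_cast hgk1 i k
    have h2 := Nat.floor_le hu0
    linarith
  have hgkinj : ∀ i (k l : κ i), gk i k = gk i l → k = l := by
    intro i k l h
    exact (Fintype.equivFin (κ i)).injective (Fin.ext h)
  -- the bad large primes
  set S : Finset ℕ := (Finset.Icc 1 ⌊z⌋₊).filter (fun p => p.Prime ∧ Real.exp Y < (p : ℝ) ∧
    (p ∈ D₀ ∨ ∃ α β : KK, α.1 ≠ β.1 ∧ (p : ℤ) ∣ dtm (vl α) (vl β))) with hS
  have hScard : (S.card : ℝ) ≤ B₀ + (J₀ * u) ^ 2 * (2 * T) := by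
    have h1 : S ⊆ D₀ ∪ (univ : Finset (KK × KK)).biUnion (fun q => if q.1.1 ≠ q.2.1 then
        S.filter (fun p : ℕ => (p : ℤ) ∣ dtm (vl q.1) (vl q.2)) else ∅) := by
      intro p hp
      have hp' := (Finset.mem_filter.1 hp).2
      rw [Finset.mem_union]
      rcases hp'.2.2 with h | ⟨α, β, hαβ, hd⟩
      · exact Or.inl h
      · right
        rw [Finset.mem_biUnion]
        refine ⟨(α, β), Finset.mem_univ _, ?_⟩
        rw [if_pos hαβ, Finset.mem_filter]
        exact ⟨hp, hd⟩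
    have h2 : ∀ q : KK × KK, (((if q.1.1 ≠ q.2.1 then
        S.filter (fun p : ℕ => (p : ℤ) ∣ dtm (vl q.1) (vl q.2)) else ∅ : Finset ℕ)).card : ℝ) ≤ 2 * T := by
      intro q
      split_ifs with hq
      · obtain ⟨c1, c2⟩ := hcross _ _ hq _ (hvlV q.1) _ (hvlV q.2)
        apply few_primes _ _ (dtm (vl q.1) (vl q.2)) c1 T c2
        · intro p hp
          exact (Finset.mem_filter.1 hp).2
        · intro p hp
          exact (Finset.mem_filter.1 (Finset.mem_filter.1 hp).1).2.1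
      · simp only [Finset.card_empty, Nat.cast_zero]
        positivity
    have h3 : (S.card : ℝ) ≤ D₀.card + ((∑ q : KK × KK, ((if q.1.1 ≠ q.2.1 then
        S.filter (fun p : ℕ => (p : ℤ) ∣ dtm (vl q.1) (vl q.2)) else ∅ : Finset ℕ)).card : ℕ) : ℝ) := by
      have := (Finset.card_le_card h1).trans (Finset.card_union_le _ _)
      have h4 := this.trans (Nat.add_le_add_left Finset.card_biUnion_le _)
      exact_mod_cast h4
    refine h3.trans (add_le_add hDc ?_)
    calc ((∑ q : KK × KK, ((if q.1.1 ≠ q.2.1 then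
        S.filter (fun p : ℕ => (p : ℤ) ∣ dtm (vl q.1) (vl q.2)) else ∅ : Finset ℕ)).card : ℕ) : ℝ)
        ≤ ∑ _q : KK × KK, 2 * T := by
          push_cast
          exact Finset.sum_le_sum fun q _ => h2 q
      _ = (Fintype.card KK : ℝ) ^ 2 * (2 * T) := by
          rw [Finset.sum_const, Finset.card_univ, Fintype.card_prod, nsmul_eq_mul]
          push_cast
          ring
      _ ≤ _ := by
          apply mul_le_mul_of_nonneg_right _ (by positivity)
          exact pow_le_pow_left₀ hK0 hKcard 2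
  have hnotS : ∀ p : ℕ, p.Prime → Real.exp Y < p → (p : ℝ) ≤ z → p ∉ S → p ∉ D₀ ∧ ∀ α β : KK,
      α.1 ≠ β.1 → ¬ (p : ℤ) ∣ dtm (vl α) (vl β) := by
    intro p hp hpw hpz hpS
    constructor
    · intro h
      apply hpS
      rw [hS, Finset.mem_filter, Finset.mem_Icc]
      exact ⟨⟨hp.one_lt.le, Nat.le_floor hpz⟩, hp, hpw, Or.inl h⟩
    · intro α β hαβ hd
      apply hpS
      rw [hS, Finset.mem_filter, Finset.mem_Icc]
      exact ⟨⟨hp.one_lt.le, Nat.le_floor hpz⟩, hp, hpw, Or.inr ⟨α, β, hαβ, hd⟩⟩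
  -- inverses
  have hinv : ∀ (p : ℕ) (α : KK), ∃ i : ℤ, p.Prime → w < p → p ∉ D₀ →
      (p : ℤ) ∣ ((vl α).1 * P) * i - 1 := by
    intro p α
    by_cases h : p.Prime ∧ w < p ∧ p ∉ D₀
    · obtain ⟨h1, h2, h4⟩ := h
      have h5 : ¬ (p : ℤ) ∣ (vl α).1 * P := by
        intro h6
        rcases (Nat.prime_iff_prime_int.1 h1).dvd_or_dvd h6 with h7 | h7
        · exact hpos _ _ (hvlV α) p h1 h2 h4 h7
        · exact hndvdP p h1 h2 (Int.natCast_dvd_natCast.1 h7)
      obtain ⟨i, hi⟩ := inv_int h1 _ h5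
      exact ⟨i, fun _ _ _ => hi⟩
    · exact ⟨0, fun h1 h2 h4 => absurd ⟨h1, h2, h4⟩ h⟩
  choose ip hip using hinv
  -- the residues
  let res : ∀ i, ℕ → κ i → ℤ := fun i p k =>
    if p ∈ S then fk ⟨i, k⟩ else if p ∈ D₀ then (gk i k : ℤ) else
      -(((vl ⟨i, k⟩).1 * b + (vl ⟨i, k⟩).2) * ip p ⟨i, k⟩)
  have hreal : ∀ (p : ℕ), p.Prime → w < p → p ∉ S → p ∉ D₀ → ∀ i j (k : κ i) (l : κ j),
      (p : ℤ) ∣ res i p k - res j p l → (p : ℤ) ∣ dtm (vl ⟨i, k⟩) (vl ⟨j, l⟩) := by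
    intro p hp hpw hpS hpD i j k l hd
    simp only [res, if_neg hpS, if_neg hpD] at hd
    have h1 := hip p ⟨i, k⟩ hp hpw hpD
    have h2 := hip p ⟨j, l⟩ hp hpw hpD
    set α := vl ⟨i, k⟩ with hα
    set β := vl ⟨j, l⟩ with hβ
    set ia := ip p ⟨i, k⟩ with hia
    set ib := ip p ⟨j, l⟩ with hib
    have h4 : (p : ℤ) ∣ (P : ℤ) * dtm α β := by
      have e1 := hd.mul_left ((α.1 * P) * (β.1 * P))
      have e2 := h1.mul_left ((α.1 * b + α.2) * (β.1 * P))
      have e3 := h2.mul_left ((β.1 * b + β.2) * (α.1 * P))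
      have e4 := dvd_sub (dvd_add e1 e2) e3
      have e5 : (α.1 * P) * (β.1 * P) * (-((α.1 * b + α.2) * ia) - -((β.1 * b + β.2) * ib)) +
          (α.1 * b + α.2) * (β.1 * P) * (α.1 * P * ia - 1) -
          (β.1 * b + β.2) * (α.1 * P) * (β.1 * P * ib - 1) = P * dtm α β := by
        unfold dtm
        ring
      rwa [e5] at e4
    rcases (Nat.prime_iff_prime_int.1 hp).dvd_or_dvd h4 with h5 | h5
    · exact absurd (Int.natCast_dvd_natCast.1 h5) (hndvdP p hp hpw)
    · exact h5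
  have hSfk : ∀ p ∈ S, ∀ α β : KK, (p : ℤ) ∣ fk α - fk β → α = β := by
    intro p hp α β hd
    have hpY := (Finset.mem_filter.1 hp).2.2.1
    have h1 : fk α - fk β = 0 := by
      apply Int.eq_zero_of_abs_lt_dvd hd
      have h2 := hfk1 α
      have h3 := hfk1 β
      have h4 := hfk0 α
      have h5 := hfk0 β
      have h6 : fk α < (p : ℤ) := by
        have : ((fk α : ℤ) : ℝ) < ((p : ℤ) : ℝ) := by push_cast; linarith
        exact_mod_cast this
      have h7 : fk β < (p : ℤ) := by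
        have : ((fk β : ℤ) : ℝ) < ((p : ℤ) : ℝ) := by push_cast; linarith
        exact_mod_cast this
      rw [abs_lt]
      constructor <;> omega
    exact hfkinj _ _ (by omega)
  have hDgk : ∀ p : ℕ, w < p → ∀ i j (k : κ i) (l : κ j), (p : ℤ) ∣ (gk i k : ℤ) - (gk j l : ℤ) →
      gk i k = gk j l := by
    intro p hpw i j k l hd
    have h1 : (gk i k : ℤ) - (gk j l : ℤ) = 0 := by
      apply Int.eq_zero_of_abs_lt_dvd hd
      have h2 := hgku i k
      have h3 := hgku j l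
      have h6 : gk i k < p := by
        have : ((gk i k : ℕ) : ℝ) < (p : ℝ) := by linarith
        exact_mod_cast this
      have h7 : gk j l < p := by
        have : ((gk j l : ℕ) : ℝ) < (p : ℝ) := by linarith
        exact_mod_cast this
      rw [abs_lt]
      constructor <;> omega
    omega
  have hcount := hcov κ hκu res (by
      intro i p hp hp1 hp2 k l hkl hd
      by_cases hpS : p ∈ S
      · simp only [res, if_pos hpS] at hd
        have := hSfk p hpS _ _ hd
        exact hkl (eq_of_heq (Sigma.mk.inj this).2)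
      · by_cases hpD : p ∈ D₀
        · simp only [res, if_neg hpS, if_pos hpD] at hd
          exact hkl (hgkinj _ _ _ (hDgk p hp1 i i k l hd))
        · have h1 := hreal p hp hp1 hpS hpD i i k l hd
          have hne : vl ⟨i, k⟩ ≠ vl ⟨i, l⟩ := by
            intro h
            exact hkl (Subtype.ext h)
          exact hin i _ (hvlV ⟨i, k⟩) _ (hvlV ⟨i, l⟩) hne p hp hp1 hpD h1) (by
      intro i j hij p hp hp1 hp2 k l hd
      by_cases hpS : p ∈ S
      · simp only [res, if_pos hpS] at hd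
        have := hSfk p hpS _ _ hd
        exact hij (Sigma.mk.inj this).1
      · obtain ⟨hpD, hn⟩ := hnotS p hp hp1 hp2 hpS
        exact hn ⟨i, k⟩ ⟨j, l⟩ hij (hreal p hp (lt_of_le_of_lt hwY hp1) hpS hpD i j k l hd)) (by
      intro i j hij
      refine le_trans ?_ hCc
      have hY1 : 0 ≤ Real.exp Y := hEY0.le
      set f : ℕ → ℝ := fun p => 1 / (p : ℝ) * ∑ k : κ i, ∑ l : κ j,
        (if ((p : ℤ) ∣ res i p k - res j p l) then (1:ℝ) else 0) with hf
      have e0 : ∑ q, 1 / ((emb (PS w (Real.exp Y) ∅) q : ℕ) : ℝ) *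
          ∑ k, ∑ l, (if coll (PS w (Real.exp Y) ∅) (res i) (res j) q k l then (1:ℝ) else 0) =
          ∑ q, f (emb (PS w (Real.exp Y) ∅) q) := by
        apply Finset.sum_congr rfl
        intro q _
        simp only [hf]
        congr 1
        apply Finset.sum_congr rfl
        intro k _
        apply Finset.sum_congr rfl
        intro l _
        exact if_congr Iff.rfl rfl rfl
      refine le_trans (le_of_eq e0) ?_
      rw [sum_emb]
      have hnS : ∀ p ∈ PS w (Real.exp Y) ∅, p ∉ S := by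
        intro p hp hpS
        have h1 := (PS_mem hY1 hp).2.2
        have h2 := (Finset.mem_filter.1 hpS).2.2.1
        linarith
      have e1 : ∀ p ∈ PS w (Real.exp Y) ∅, f p ≤ (if p ∈ D₀ then 1 / w * u else 0) +
          ∑ k : κ i, ∑ l : κ j, 1 / w *
          (if ((p : ℤ) ∣ dtm (vl ⟨i, k⟩) (vl ⟨j, l⟩)) then (1:ℝ) else 0) := by
        intro p hp
        obtain ⟨g1, g2, g3⟩ := PS_mem hY1 hp
        have g4 : 0 ≤ ∑ k : κ i, ∑ l : κ j, 1 / w *
          (if ((p : ℤ) ∣ dtm (vl ⟨i, k⟩) (vl ⟨j, l⟩)) then (1:ℝ) else 0) := by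
          apply Finset.sum_nonneg
          intro k _
          apply Finset.sum_nonneg
          intro l _
          positivity
        have g5 : 1 / (p : ℝ) ≤ 1 / w := one_div_le_one_div_of_le hw0 g2.le
        simp only [hf]
        by_cases hpD : p ∈ D₀
        · rw [if_pos hpD]
          have g6 : ∑ k : κ i, ∑ l : κ j, (if ((p : ℤ) ∣ res i p k - res j p l) then (1:ℝ) else 0) ≤ u := by
            calc ∑ k : κ i, ∑ l : κ j, (if ((p : ℤ) ∣ res i p k - res j p l) then (1:ℝ) else 0)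
                ≤ ∑ _k : κ i, (1:ℝ) := by
                  apply Finset.sum_le_sum
                  intro k _
                  rw [Finset.sum_boole]
                  have : ((univ : Finset (κ j)).filter (fun l => (p : ℤ) ∣ res i p k - res j p l)).card ≤ 1 := by
                    rw [Finset.card_le_one]
                    intro l hl l' hl'
                    replace hl := (Finset.mem_filter.1 hl).2
                    replace hl' := (Finset.mem_filter.1 hl').2
                    simp only [res, if_neg (hnS p hp), if_pos hpD] at hl hl'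
                    have h1 := hDgk p g2 i j k l hl
                    have h2 := hDgk p g2 i j k l' hl'
                    exact hgkinj j l l' (by omega)
                  exact_mod_cast this
              _ = (Fintype.card (κ i) : ℝ) := by
                  rw [Finset.sum_const, Finset.card_univ, nsmul_eq_mul, mul_one]
              _ ≤ u := hκu i
          have g7 : 0 ≤ ∑ k : κ i, ∑ l : κ j, (if ((p : ℤ) ∣ res i p k - res j p l) then (1:ℝ) else 0) := by
            apply Finset.sum_nonneg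
            intro k _
            apply Finset.sum_nonneg
            intro l _
            positivity
          have g8 : 1 / (p : ℝ) * ∑ k : κ i, ∑ l : κ j,
            (if ((p : ℤ) ∣ res i p k - res j p l) then (1:ℝ) else 0) ≤ 1 / w * u :=
            mul_le_mul g5 g6 g7 (by positivity)
          linarith
        · rw [if_neg hpD, zero_add, Finset.mul_sum]
          apply Finset.sum_le_sum
          intro k _
          rw [Finset.mul_sum]
          apply Finset.sum_le_sum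
          intro l _
          apply mul_le_mul g5 _ (by positivity) (by positivity)
          by_cases h : ((p : ℤ) ∣ res i p k - res j p l)
          · rw [if_pos h, if_pos (hreal p g1 g2 (hnS p hp) hpD i j k l h)]
          · rw [if_neg h]
            positivity
      refine (Finset.sum_le_sum e1).trans ?_
      rw [Finset.sum_add_distrib]
      have e2 : ∑ p ∈ PS w (Real.exp Y) ∅, (if p ∈ D₀ then 1 / w * u else 0) ≤ B₀ * u / w := by
        rw [← Finset.sum_filter, Finset.sum_const, nsmul_eq_mul]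
        have h1 : ((PS w (Real.exp Y) ∅).filter (fun p => p ∈ D₀)).card ≤ D₀.card := by
          apply Finset.card_le_card
          intro p hp
          exact (Finset.mem_filter.1 hp).2
        have h2 : (((PS w (Real.exp Y) ∅).filter (fun p => p ∈ D₀)).card : ℝ) ≤ B₀ :=
          le_trans (by exact_mod_cast h1) hDc
        calc (((PS w (Real.exp Y) ∅).filter (fun p => p ∈ D₀)).card : ℝ) * (1 / w * u)
            ≤ B₀ * (1 / w * u) := mul_le_mul_of_nonneg_right h2 (by positivity)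
          _ = B₀ * u / w := by ring
      have e3 : ∑ p ∈ PS w (Real.exp Y) ∅, ∑ k : κ i, ∑ l : κ j, 1 / w *
          (if ((p : ℤ) ∣ dtm (vl ⟨i, k⟩) (vl ⟨j, l⟩)) then (1:ℝ) else 0) ≤ u ^ 2 * (2 * T) / w := by
        rw [Finset.sum_comm]
        have e4 : ∀ k : κ i, ∑ p ∈ PS w (Real.exp Y) ∅, ∑ l : κ j, 1 / w *
            (if ((p : ℤ) ∣ dtm (vl ⟨i, k⟩) (vl ⟨j, l⟩)) then (1:ℝ) else 0) ≤ u * (1 / w * (2 * T)) := by
          intro k
          rw [Finset.sum_comm]
          have e5 : ∀ l : κ j, ∑ p ∈ PS w (Real.exp Y) ∅, 1 / w *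
            (if ((p : ℤ) ∣ dtm (vl ⟨i, k⟩) (vl ⟨j, l⟩)) then (1:ℝ) else 0) ≤ 1 / w * (2 * T) := by
            intro l
            obtain ⟨h1, h2⟩ := hcross i j hij _ (hvlV ⟨i, k⟩) _ (hvlV ⟨j, l⟩)
            rw [← Finset.mul_sum]
            apply mul_le_mul_of_nonneg_left _ (by positivity)
            rw [Finset.sum_ite, Finset.sum_const_zero, add_zero, Finset.sum_const, nsmul_eq_mul,
              mul_one]
            apply few_primes _ _ _ h1 T h2
            · intro p hp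
              exact (Finset.mem_filter.1 hp).2
            · intro p hp
              exact (PS_mem hY1 (Finset.mem_filter.1 hp).1).1
          refine (Finset.sum_le_sum fun l _ => e5 l).trans ?_
          rw [Finset.sum_const, nsmul_eq_mul, Finset.card_univ]
          exact mul_le_mul_of_nonneg_right (hκu j) (by positivity)
        refine (Finset.sum_le_sum fun k _ => e4 k).trans ?_
        rw [Finset.sum_const, nsmul_eq_mul, Finset.card_univ]
        have e5 : 0 ≤ u * (1 / w * (2 * T)) := by positivity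
        refine (mul_le_mul_of_nonneg_right (hκu i) e5).trans (le_of_eq ?_)
        ring
      calc _ ≤ B₀ * u / w + u ^ 2 * (2 * T) / w := add_le_add e2 e3
        _ = _ := by ring) A' B' (hlen.trans hBA1)
  -- the hits by bad primes
  set FH1 : Finset ℤ := S.biUnion (fun p => (univ : Finset KK).biUnion (fun α =>
    (Ioc A' B').filter (fun y : ℤ => (p : ℤ) ∣ y - fk α))) with hFH1
  set FH2 : Finset ℤ := D₀.biUnion (fun p => (range ⌊u⌋₊).biUnion (fun g =>
    (Ioc A' B').filter (fun y : ℤ => (p : ℤ) ∣ y - (g : ℤ)))) with hFH2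
  have hcnt : ∀ (p : ℕ) (v : ℝ), p.Prime → 0 < v → v < p → v ≤ (B' : ℝ) - A' → ∀ r : ℤ,
      ((((Ioc A' B').filter (fun y : ℤ => (p : ℤ) ∣ y - r)).card : ℕ) : ℝ) ≤
        2 / v * ((B' : ℝ) - A') := by
    intro p v hp hv hvp hvB r
    have h2 := LG.count_Ioc A' B' hABle p hp.pos r
    have h3 := (abs_le.1 h2).2
    have h4 : ((B' : ℝ) - A') / p ≤ ((B' : ℝ) - A') / v :=
      div_le_div_of_nonneg_left hBA0.le hv hvp.le
    have h5 : 1 ≤ ((B' : ℝ) - A') / v := by rw [le_div_iff₀ hv]; linarith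
    have h6 : 2 / v * ((B' : ℝ) - A') = ((B' : ℝ) - A') / v + ((B' : ℝ) - A') / v := by ring
    rw [h6]
    linarith
  have hFH1card : (FH1.card : ℝ) ≤
      (B₀ + (J₀ * u) ^ 2 * (2 * T)) * (J₀ * u) * (2 / Real.exp Y) * ((B' : ℝ) - A') := by
    have h1 : ∀ p ∈ S, ∀ α : KK, ((((Ioc A' B').filter (fun y : ℤ => (p : ℤ) ∣ y - fk α)).card : ℕ) : ℝ) ≤
        2 / Real.exp Y * ((B' : ℝ) - A') := by
      intro p hp α
      have hp' := (Finset.mem_filter.1 hp).2
      exact hcnt p (Real.exp Y) hp'.1 hEY0 hp'.2.1 hBAY _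
    have h2 : (FH1.card : ℝ) ≤ ∑ p ∈ S, ∑ α : KK,
        ((((Ioc A' B').filter (fun y : ℤ => (p : ℤ) ∣ y - fk α)).card : ℕ) : ℝ) := by
      have g1 : FH1.card ≤ ∑ p ∈ S, ∑ α : KK,
        ((Ioc A' B').filter (fun y : ℤ => (p : ℤ) ∣ y - fk α)).card := by
        refine Finset.card_biUnion_le.trans ?_
        exact Finset.sum_le_sum fun p _ => Finset.card_biUnion_le
      exact_mod_cast g1
    refine h2.trans ?_
    calc ∑ p ∈ S, ∑ α : KK, ((((Ioc A' B').filter (fun y : ℤ => (p : ℤ) ∣ y - fk α)).card : ℕ) : ℝ)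
        ≤ ∑ p ∈ S, ∑ _α : KK, 2 / Real.exp Y * ((B' : ℝ) - A') :=
          Finset.sum_le_sum fun p hp => Finset.sum_le_sum fun α _ => h1 p hp α
      _ = (S.card : ℝ) * (Fintype.card KK : ℝ) * (2 / Real.exp Y * ((B' : ℝ) - A')) := by
          rw [Finset.sum_const, Finset.sum_const, Finset.card_univ, nsmul_eq_mul, nsmul_eq_mul]
          ring
      _ ≤ (B₀ + (J₀ * u) ^ 2 * (2 * T)) * (J₀ * u) * (2 / Real.exp Y * ((B' : ℝ) - A')) := by
          apply mul_le_mul_of_nonneg_right _ (by positivity)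
          exact mul_le_mul hScard hKcard hK0 (by positivity)
      _ = _ := by ring
  have hFH2card : (FH2.card : ℝ) ≤ B₀ * u * (2 / w) * ((B' : ℝ) - A') := by
    have h1 : ∀ p ∈ D₀, ∀ g ∈ range ⌊u⌋₊, ((((Ioc A' B').filter (fun y : ℤ => (p : ℤ) ∣ y - (g : ℤ))).card : ℕ) : ℝ) ≤
        2 / w * ((B' : ℝ) - A') := by
      intro p hp g _
      obtain ⟨hp1, hp2⟩ := hDp p hp
      exact hcnt p w hp1 hw0 hp2 (by linarith) _
    have h2 : (FH2.card : ℝ) ≤ ∑ p ∈ D₀, ∑ g ∈ range ⌊u⌋₊,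
        ((((Ioc A' B').filter (fun y : ℤ => (p : ℤ) ∣ y - (g : ℤ))).card : ℕ) : ℝ) := by
      have g1 : FH2.card ≤ ∑ p ∈ D₀, ∑ g ∈ range ⌊u⌋₊,
        ((Ioc A' B').filter (fun y : ℤ => (p : ℤ) ∣ y - (g : ℤ))).card := by
        refine Finset.card_biUnion_le.trans ?_
        exact Finset.sum_le_sum fun p _ => Finset.card_biUnion_le
      exact_mod_cast g1
    refine h2.trans ?_
    calc ∑ p ∈ D₀, ∑ g ∈ range ⌊u⌋₊, ((((Ioc A' B').filter (fun y : ℤ => (p : ℤ) ∣ y - (g : ℤ))).card : ℕ) : ℝ)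
        ≤ ∑ p ∈ D₀, ∑ _g ∈ range ⌊u⌋₊, 2 / w * ((B' : ℝ) - A') :=
          Finset.sum_le_sum fun p hp => Finset.sum_le_sum fun g hg => h1 p hp g hg
      _ = (D₀.card : ℝ) * (⌊u⌋₊ : ℝ) * (2 / w * ((B' : ℝ) - A')) := by
          rw [Finset.sum_const, Finset.sum_const, Finset.card_range, nsmul_eq_mul, nsmul_eq_mul]
          ring
      _ ≤ B₀ * u * (2 / w * ((B' : ℝ) - A')) := by
          apply mul_le_mul_of_nonneg_right _ (by positivity)
          exact mul_le_mul hDc (Nat.floor_le hu0) (Nat.cast_nonneg _) hB₀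
      _ = _ := by ring
  set G1 : Finset ℤ := (Ioc A' B').filter (fun x : ℤ => ¬ ∃ i, ∀ k : κ i, ∃ p : ℕ, p.Prime ∧ w < (p : ℝ) ∧
        (p : ℝ) ≤ z ∧ (p : ℤ) ∣ x - res i p k) with hG1
  have hfin : (((Ioc M (M + N)).filter (fun n : ℤ => ((P : ℕ) : ℤ) ∣ n - b ∧
      ¬ ∃ i, CovP P₁ w z (V i) n)).card : ℝ) ≤ (G1.card : ℝ) + (FH1.card + FH2.card) := by
    have h0 : ((Ioc M (M + N)).filter (fun n : ℤ => ((P : ℕ) : ℤ) ∣ n - b ∧
      ¬ ∃ i, CovP P₁ w z (V i) n)).card ≤ (G1 ∪ (FH1 ∪ FH2)).card := by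
      apply Finset.card_le_card_of_injOn (fun n : ℤ => (n - b) / (P : ℤ))
      · intro n hn
        rw [Finset.mem_coe, Finset.mem_filter, Finset.mem_Ioc] at hn
        obtain ⟨⟨hn1, hn2⟩, ⟨m, hm⟩, hn4⟩ := hn
        have hm' : (n - b) / P = m := by
          rw [hm]
          exact Int.mul_ediv_cancel_left _ hPz.ne'
        rw [Finset.mem_coe, Finset.mem_union, Finset.mem_union]
        show (n - b) / P ∈ G1 ∨ (n - b) / P ∈ FH1 ∨ (n - b) / P ∈ FH2
        rw [hm']
        have hmA : m ∈ Ioc A' B' := by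
          rw [Finset.mem_Ioc]
          constructor
          · by_contra h
            have h1 : m ≤ A' := by omega
            have h2 : (P : ℤ) * m ≤ P * A' := mul_le_mul_of_nonneg_left h1 hPz.le
            omega
          · by_contra h
            have h1 : B' + 1 ≤ m := by omega
            have h2 : (P : ℤ) * (B' + 1) ≤ P * m := mul_le_mul_of_nonneg_left h1 hPz.le
            have h3 : (P : ℤ) * (B' + 1) = P * B' + P := by ring
            omega
        by_contra hcon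
        push Not at hcon
        obtain ⟨hc1, hc2, hc2'⟩ := hcon
        have hc3 : ∃ i, ∀ k : κ i, ∃ p : ℕ, p.Prime ∧ w < (p : ℝ) ∧
            (p : ℝ) ≤ z ∧ (p : ℤ) ∣ m - res i p k := by
          by_contra hc4
          exact hc1 (Finset.mem_filter.2 ⟨hmA, hc4⟩)
        obtain ⟨i, hi⟩ := hc3
        apply hn4
        refine ⟨i, fun v hv => ?_⟩
        by_cases hvS : v ∈ svL P₁ b (V i)
        · obtain ⟨p, hp, hp1, hp2, hp3⟩ := hi ⟨v, hvS⟩
          refine ⟨p, hp, hp2, Or.inr hp1, ?_⟩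
          have hpS : p ∉ S := by
            intro hpS
            apply hc2
            rw [hFH1, Finset.mem_biUnion]
            refine ⟨p, hpS, ?_⟩
            rw [Finset.mem_biUnion]
            refine ⟨⟨i, ⟨v, hvS⟩⟩, Finset.mem_univ _, ?_⟩
            rw [Finset.mem_filter]
            refine ⟨hmA, ?_⟩
            simp only [res, if_pos hpS] at hp3
            exact hp3
          have hpD : p ∉ D₀ := by
            intro hpD
            apply hc2'
            rw [hFH2, Finset.mem_biUnion]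
            refine ⟨p, hpD, ?_⟩
            rw [Finset.mem_biUnion]
            refine ⟨gk i ⟨v, hvS⟩, Finset.mem_range.2 (hgk1 i ⟨v, hvS⟩), ?_⟩
            rw [Finset.mem_filter]
            refine ⟨hmA, ?_⟩
            simp only [res, if_neg hpS, if_pos hpD] at hp3
            exact hp3
          simp only [res, if_neg hpS, if_neg hpD] at hp3
          have h1 := hip p ⟨i, ⟨v, hvS⟩⟩ hp hp1 hpD
          have hvv : vl ⟨i, ⟨v, hvS⟩⟩ = v := rfl
          rw [hvv] at hp3 h1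
          set ia := ip p ⟨i, ⟨v, hvS⟩⟩ with hia
          have h3 := hp3.mul_left (v.1 * (P : ℤ))
          have h4 := h1.mul_left (v.1 * b + v.2)
          have h5 := dvd_sub h3 h4
          have h6 : v.1 * (P : ℤ) * (m - -((v.1 * b + v.2) * ia)) - (v.1 * b + v.2) * (v.1 * P * ia - 1) =
              v.1 * n + v.2 := by
            linear_combination -v.1 * hm
          rw [← h6]
          exact h5
        · have hg : Int.gcd (v.1 * b + v.2) P₁ ≠ 1 := by
            intro hg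
            exact hvS (Finset.mem_filter.2 ⟨hv, hg⟩)
          obtain ⟨p, hp, hpd⟩ := Nat.exists_prime_and_dvd hg
          have hp1 : (p : ℤ) ∣ v.1 * b + v.2 := (Int.natCast_dvd_natCast.2 hpd).trans (Int.gcd_dvd_left _ _)
          have hp2 : (p : ℤ) ∣ (P₁ : ℤ) := (Int.natCast_dvd_natCast.2 hpd).trans (Int.gcd_dvd_right _ _)
          have hp2'' : p ∣ P₁ := Int.natCast_dvd_natCast.1 hp2
          have hp2' : p ∣ P := hp2''.trans hP₁
          have hpx : (p : ℝ) ≤ x := (hfloor p).1 ((hp.dvd_primorial_iff).1 hp2')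
          refine ⟨p, hp, hpx.trans hxz, Or.inl hp2'', ?_⟩
          have h3 : (p : ℤ) ∣ (P : ℤ) * (v.1 * m) :=
            Dvd.dvd.mul_right (Int.natCast_dvd_natCast.2 hp2') _
          have h5 : v.1 * n + v.2 = (v.1 * b + v.2) + P * (v.1 * m) := by
            linear_combination v.1 * hm
          rw [h5]
          exact dvd_add hp1 h3
      · intro n hn n' hn' h
        rw [Finset.mem_coe, Finset.mem_filter] at hn hn'
        obtain ⟨m, hm⟩ := hn.2.1
        obtain ⟨m', hm'⟩ := hn'.2.1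
        have h1 : (n - b) / P = (n' - b) / P := h
        rw [hm, hm', Int.mul_ediv_cancel_left _ hPz.ne', Int.mul_ediv_cancel_left _ hPz.ne'] at h1
        rw [h1] at hm
        linarith
    have h1 := (h0.trans (Finset.card_union_le _ _)).trans
      (Nat.add_le_add_left (Finset.card_union_le _ _) _)
    exact_mod_cast h1
  have hG1c : (G1.card : ℝ) ≤ η * ((B' : ℝ) - A') := by
    refine le_trans (le_of_eq ?_) hcount
    rw [hG1]
  have hk0 : 0 ≤ η + (B₀ * u * (2 / w) + (B₀ + (J₀ * u) ^ 2 * (2 * T)) * (J₀ * u) * (2 / Real.exp Y)) := by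
    positivity
  calc (((Ioc M (M + N)).filter (fun n : ℤ => ((P : ℕ) : ℤ) ∣ n - b ∧
      ¬ ∃ i, CovP P₁ w z (V i) n)).card : ℝ) ≤ (G1.card : ℝ) + (FH1.card + FH2.card) := hfin
    _ ≤ η * ((B' : ℝ) - A') + ((B₀ + (J₀ * u) ^ 2 * (2 * T)) * (J₀ * u) * (2 / Real.exp Y) * ((B' : ℝ) - A') +
        B₀ * u * (2 / w) * ((B' : ℝ) - A')) :=
        add_le_add hG1c (add_le_add hFH1card hFH2card)
    _ = (η + (B₀ * u * (2 / w) + (B₀ + (J₀ * u) ^ 2 * (2 * T)) * (J₀ * u) * (2 / Real.exp Y))) *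
        ((B' : ℝ) - A') := by ring
    _ ≤ _ := mul_le_mul_of_nonneg_left hBA2 hk0

end Pool.Agent.T2h81.UC
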