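import Pool.Agent.T2h81.UC.D2
import Pool.Agent.T2h81.UC.E1

set_option autoImplicit false
set_option linter.unusedSectionVars false
set_option linter.unusedVariables false
set_option maxHeartbeats 4000000

/-! # One class modulo the small primes, very many families of linear forms: parameters -/

namespace Pool.Agent.T2h81.UC

open Finset Filter Pool.Agent.H256R2.SC Pool.Agent.Y831.RC

open scoped Classical

theorem uni_num {L : ℝ} (hL : Real.exp 480 ≤ L) : 10 ^ 8 ≤ L ∧ 2 * Real.log L ≤ Real.sqrt L ∧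
    ∀ e : ℝ, 1 ≤ e → e ≤ 1 / 4 * Real.log L → 20 * Real.sqrt L ≤ L * Real.exp (-e) / e ^ 2 := by
  have h480 : (10:ℝ) ^ 8 ≤ Real.exp 480 := by
    have := Real.pow_div_factorial_le_exp 480 (by norm_num) 4
    norm_num [Nat.factorial] at this
    linarith
  have hL0 : 0 < L := (Real.exp_pos _).trans_le hL
  have ht : 480 ≤ Real.log L := by rw [Real.le_log_iff_exp_le hL0]; exact hL
  set t := Real.log L with htd
  have hs : Real.sqrt L = Real.exp (t / 2) := by
    rw [htd, ← Real.log_sqrt hL0.le, Real.exp_log (Real.sqrt_pos.2 hL0)]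
  have h1 : 2 * t ≤ Real.exp (t / 2) := by
    have := Real.pow_div_factorial_le_exp (t / 2) (by linarith) 2
    norm_num [Nat.factorial] at this
    nlinarith
  refine ⟨h480.trans hL, by rw [hs]; exact h1, ?_⟩
  intro e he1 he2
  have he0 : 0 < e := by linarith
  rw [le_div_iff₀ (by positivity)]
  have h2 : Real.exp (-(t / 4)) ≤ Real.exp (-e) := Real.exp_le_exp.2 (by linarith)
  have h3 : L = Real.exp (t / 2) * Real.exp (t / 2) := by
    rw [← Real.exp_add, htd]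
    have : Real.log L / 2 + Real.log L / 2 = Real.log L := by ring
    rw [this, Real.exp_log hL0]
  have h4 : e ^ 2 ≤ t ^ 2 / 16 := by nlinarith
  have h5 : 20 * (t ^ 2 / 16) ≤ Real.exp (t / 4) := by
    have := Real.pow_div_factorial_le_exp (t / 4) (by linarith) 3
    norm_num [Nat.factorial] at this
    have h6 : 480 * t ^ 2 ≤ t ^ 3 := by nlinarith [sq_nonneg t]
    nlinarith
  have hE := Real.exp_pos (t / 2)
  have h6 : Real.exp (t / 2) * Real.exp (-(t / 4)) = Real.exp (t / 4) := by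
    rw [← Real.exp_add]; congr 1; ring
  calc 20 * Real.sqrt L * e ^ 2 ≤ 20 * Real.exp (t / 2) * (t ^ 2 / 16) := by
        rw [hs]
        exact mul_le_mul_of_nonneg_left h4 (by positivity)
    _ = Real.exp (t / 2) * (20 * (t ^ 2 / 16)) := by ring
    _ ≤ Real.exp (t / 2) * Real.exp (t / 4) := mul_le_mul_of_nonneg_left h5 hE.le
    _ = Real.exp (t / 2) * (Real.exp (t / 2) * Real.exp (-(t / 4))) := by rw [h6]
    _ = L * Real.exp (-(t / 4)) := by rw [← mul_assoc, ← h3]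
    _ ≤ L * Real.exp (-e) := mul_le_mul_of_nonneg_left h2 hL0.le

theorem class_mainU : ∃ c₃ e₀ L₀ : ℝ, 0 < c₃ ∧ 6400 ≤ e₀ ∧ 10 ^ 8 ≤ L₀ ∧ ∀ L e : ℝ, L₀ ≤ L → e₀ ≤ e →
    e ≤ 1 / 4 * Real.log L → ∀ J₀ : ℕ, Real.exp (e ^ 2 * Real.exp e + e / 2) ≤ J₀ →
    (J₀ : ℝ) ≤ Real.exp (Real.sqrt L) → ∀ T B₀ : ℝ, 0 ≤ T → T ≤ L ^ 2 → 0 ≤ B₀ → B₀ ≤ L ^ 2 →
    ∀ (V : Fin J₀ → Finset (ℤ × ℤ)) (D₀ : Finset ℕ) (P₁ : ℕ) (b : ℤ), P₁ ∣ primorial ⌊L / 32⌋₊ →
    (∀ p ∈ D₀, p.Prime ∧ L ^ 6 < (p : ℝ)) → (D₀.card : ℝ) ≤ B₀ →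
    (∀ i, ∀ v ∈ V i, ∀ p : ℕ, p.Prime → L ^ 6 < p → p ∉ D₀ → ¬ (p : ℤ) ∣ v.1) →
    (∀ i, ∀ v ∈ V i, ∀ v' ∈ V i, v ≠ v' → ∀ p : ℕ, p.Prime → L ^ 6 < p → p ∉ D₀ → ¬ (p : ℤ) ∣ dtm v v') →
    (∀ i j, i ≠ j → ∀ v ∈ V i, ∀ v' ∈ V j, dtm v v' ≠ 0 ∧ |(dtm v v' : ℝ)| ≤ Real.exp T) →
    (∀ i, ((svL P₁ b (V i)).card : ℝ) ≤ c₃ * e * L / Real.log L) →
    ∀ (M : ℤ) (N : ℕ), Real.exp (2 * L) ≤ N →
    (((Ioc M (M + N)).filter (fun n : ℤ => ((primorial ⌊L / 32⌋₊ : ℕ) : ℤ) ∣ n - b ∧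
      ¬ ∃ i, CovP P₁ (L ^ 6) (Real.exp (L / (6400 * e))) (V i) n)).card : ℝ) ≤
      (17 * Real.exp (-(e / 2)) + (T + B₀ + 1) / L ^ 3) *
        ((N : ℝ) / (primorial ⌊L / 32⌋₊ : ℝ) + 1) := by
  obtain ⟨c, C, hc, hcC, hWb⟩ := WW_bounds
  obtain ⟨CR, hCR0, hSR⟩ := sum_ratio
  obtain ⟨C₁, hC₁, hBH⟩ := BHyp_PS2
  have hC : 0 < C := hc.trans_le hcC
  have h0a : 0 < 512 / c := by positivity
  have hE₁ := Real.exp_pos C₁
  obtain ⟨K₀, hK₀⟩ : ∃ K₀ : ℝ, K₀ = 6400 + 512 / c := ⟨_, rfl⟩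
  obtain ⟨M₀, hM₀⟩ : ∃ M₀ : ℝ, M₀ = 1600 + Real.exp C₁ + 2 * CR := ⟨_, rfl⟩
  have hK1 : 6400 ≤ K₀ := by rw [hK₀]; linarith only [h0a]
  have hK4 : 512 / c ≤ K₀ := by rw [hK₀]; linarith only [h0a]
  have hM1 : 1600 ≤ M₀ := by rw [hM₀]; linarith only [hE₁, hCR0]
  have hM4 : Real.exp C₁ ≤ M₀ := by rw [hM₀]; linarith only [hE₁, hCR0]
  have hM5 : 2 * CR ≤ M₀ := by rw [hM₀]; linarith only [hE₁, hCR0]
  obtain ⟨e₀, he₀⟩ := ev_e K₀ (by linarith only [hK1])
  obtain ⟨e₁, he₁⟩ := ev_e2 C hC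
  obtain ⟨L₀, hL₀⟩ := ev_L5 (3 / 4) M₀ (by norm_num) (by norm_num) (by linarith only [hM1])
  refine ⟨c / 48, max 6400 (max e₀ e₁), max (Real.exp 480) L₀, by positivity, le_max_left _ _,
    (uni_num le_rfl).1.trans (le_max_left _ _), ?_⟩
  intro L e hL he heu J₀ hJ1 hJL T B₀ hT hTL hB₀ hBL V D₀ P₁ b hP₁ hDp hDc hpos hin hcross hcard M N hN
  obtain ⟨n1, n2, n3⟩ := uni_num ((le_max_left _ _).trans hL)
  have hee0 : e₀ ≤ e := (le_max_left _ _).trans ((le_max_right _ _).trans he)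
  have hee1 : e₁ ≤ e := (le_max_right _ _).trans ((le_max_right _ _).trans he)
  obtain ⟨he1, he3, helog⟩ := he₀ e hee0
  have he4 := he₁ e hee1
  obtain ⟨a1, a2, _, a4, a5⟩ := hL₀ L ((le_max_right _ _).trans hL)
  have he6400 : 6400 ≤ e := (le_max_left _ _).trans he
  have he1000 : 1000 ≤ e := by linarith only [he6400]
  have he0 : 0 < e := by linarith only [he1000]
  have he1' : 1 ≤ e := by linarith only [he1000]
  have b1 := a5 e he1' (by linarith only [heu])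
  set l : ℝ := Real.log L with hl
  have hL1600 : 1600 ≤ L := by linarith only [hM1, a1]
  have hL0 : 0 < L := by linarith only [hL1600]
  have hL1 : 1 ≤ L := by linarith only [hL1600]
  have hl0 : 0 ≤ l := by linarith only [a2]
  have hl1 : 0 < l := by linarith only [a2]
  have hel : e ≤ l := by linarith only [hl0, heu]
  have hlL : l ≤ L := by
    have h1 : 8 * l ≤ M₀ * l := q_mul (by linarith only [hM1]) hl0
    linarith only [h1, a4, hl0]
  have hexp1 : 1001 ≤ Real.exp e := by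
    have := Real.add_one_le_exp e
    linarith only [this, he1000]
  have hEn : Real.exp (-e) * Real.exp e = 1 := by rw [← Real.exp_add]; simp
  set Y : ℝ := L * Real.exp (-e) / e ^ 2 with hY
  have hYl : 1600 * l ≤ Y := (q_mul hM1 hl0).trans b1
  have hwY : L ^ 6 ≤ Real.exp Y := p_pow hL1 6 (by push_cast; linarith only [hYl, hl0])
  have hYZ : Y ≤ L / (6400 * e) := by
    rw [hY]
    rw [div_le_div_iff₀ (by positivity) (by positivity)]
    have e1 : 6400 * e ≤ e ^ 2 * Real.exp e := by nlinarith only [he6400, hexp1, he0]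
    calc L * Real.exp (-e) * (6400 * e) ≤ L * Real.exp (-e) * (e ^ 2 * Real.exp e) :=
          mul_le_mul_of_nonneg_left e1 (by positivity)
      _ = L * e ^ 2 * (Real.exp (-e) * Real.exp e) := by ring
      _ = L * e ^ 2 := by rw [hEn, mul_one]
  set z : ℝ := Real.exp (L / (6400 * e)) with hz
  have hYz : Real.exp Y ≤ z := Real.exp_le_exp.2 hYZ
  have hwz : L ^ 6 ≤ z := hwY.trans hYz
  have hL16 : L ≤ L ^ 6 := by
    calc L = L ^ 1 := (pow_one L).symm
      _ ≤ L ^ 6 := pow_le_pow_right₀ hL1 (by norm_num)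
  have hL36 : L ^ 3 ≤ L ^ 6 := pow_le_pow_right₀ hL1 (by norm_num)
  set x : ℝ := L / 32 with hx
  have hx0 : 0 ≤ x := by positivity
  have hxL : x ≤ L := by rw [hx]; linarith only [hL0]
  set P : ℕ := primorial ⌊x⌋₊ with hP
  have hPpos : 0 < P := primorial_pos _
  have hPr : (0:ℝ) < P := by exact_mod_cast hPpos
  have hPx : (P:ℝ) ≤ Real.exp (L / 16) := by
    refine (primorial_le_exp x hx0).trans (le_of_eq ?_)
    rw [hx]
    congr 1
    ring
  set W : ℝ := WW (L ^ 6) with hW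
  have hW0 : 0 < W := WW_pos _
  have hW1 : W ≤ 1 := WW_le_one _
  obtain ⟨hWl, _⟩ := hWb (L ^ 6) (by linarith only [hL16, hL1600])
  rw [Real.log_pow, ← hl, ← hW] at hWl
  push_cast at hWl
  set u : ℝ := 1 / 8 * (e * L * W) with hu
  have hu0 : 0 ≤ u := by positivity
  have huL : u ≤ e * L / 8 := by
    rw [hu]
    have : e * L * W ≤ e * L * 1 := mul_le_mul_of_nonneg_left hW1 (by positivity)
    linarith only [this]
  have hcard' : ∀ i, ((svL P₁ b (V i)).card : ℝ) ≤ u := by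
    intro i
    refine (hcard i).trans ?_
    rw [div_le_iff₀ hl1, hu]
    have h8 : c * (e * L) ≤ W * (6 * l) * (e * L) :=
      mul_le_mul_of_nonneg_right hWl (by positivity)
    linarith only [h8]
  set σ : ℝ := Real.exp (-(e / 2)) with hσ
  have hσ0 : 0 < σ := Real.exp_pos _
  have hJ0 : (0:ℝ) ≤ J₀ := Nat.cast_nonneg _
  have hY20 : 20 * Real.sqrt L ≤ Y := n3 e he1' heu
  have hsL0 : 0 ≤ Real.sqrt L := Real.sqrt_nonneg L
  have hsL4 : 10 ^ 4 ≤ Real.sqrt L := by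
    rw [show (10:ℝ) ^ 4 = Real.sqrt ((10 ^ 4) ^ 2) by rw [Real.sqrt_sq (by norm_num)]]
    apply Real.sqrt_le_sqrt
    norm_num
    linarith only [n1]
  have hss : Real.sqrt L * Real.sqrt L = L := Real.mul_self_sqrt hL0.le
  have hes : e ≤ Real.sqrt L / 8 := by linarith only [heu, n2]
  have huL2 : u ≤ L ^ 2 / 64 := by
    have h1 : e ≤ L / 8 := by
      have : Real.sqrt L ≤ L := by nlinarith only [hss, hsL4, hsL0]
      linarith only [hes, this]
    have h2 : e * L / 8 ≤ L / 8 * L / 8 := by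
      apply div_le_div_of_nonneg_right _ (by norm_num)
      exact mul_le_mul_of_nonneg_right h1 hL0.le
    have h3 : L / 8 * L / 8 = L ^ 2 / 64 := by ring
    linarith only [huL, h2, h3]
  have hL26 : L ^ 2 ≤ L ^ 6 := pow_le_pow_right₀ hL1 (by norm_num)
  have huw : u ≤ L ^ 6 := by
    have : 0 ≤ L ^ 2 := by positivity
    linarith only [huL2, hL26, this]
  have hlogL : L ^ 2 ≤ Real.exp (Real.sqrt L) := by
    have h1 : L ^ 2 = Real.exp (2 * Real.log L) := by
      rw [two_mul, Real.exp_add, Real.exp_log hL0]; ring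
    rw [h1]
    exact Real.exp_le_exp.2 n2
  have huE : u ≤ Real.exp (Real.sqrt L) := by
    have : 0 ≤ L ^ 2 := by positivity
    linarith only [huL2, hlogL, this]
  have hJu : (J₀ : ℝ) * u ≤ Real.exp (2 * Real.sqrt L) := by
    calc (J₀ : ℝ) * u ≤ Real.exp (Real.sqrt L) * Real.exp (Real.sqrt L) :=
          mul_le_mul hJL huE hu0 (Real.exp_pos _).le
      _ = _ := by rw [← Real.exp_add]; congr 1; ring
  have hJY : (J₀ : ℝ) * u ≤ Real.exp Y := hJu.trans (Real.exp_le_exp.2 (by linarith only [hY20, hsL0]))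
  have hCcc : (B₀ * u + u ^ 2 * (2 * T)) / L ^ 6 ≤ σ / 200000 := by
    have hσL : 1 ≤ σ * Real.sqrt L := by
      have h1 : Real.exp (-(1 / 8 * l)) ≤ σ := Real.exp_le_exp.2 (by linarith only [heu])
      have h2 : Real.sqrt L = Real.exp (l / 2) := by
        rw [hl, ← Real.log_sqrt hL0.le, Real.exp_log (Real.sqrt_pos.2 hL0)]
      have h3 : Real.exp (-(1 / 8 * l)) * Real.exp (l / 2) = Real.exp (3 / 8 * l) := by
        rw [← Real.exp_add]; congr 1; ring
      have h4 : 1 ≤ Real.exp (3 / 8 * l) := Real.one_le_exp (by positivity)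
      rw [h2]
      have h5 := mul_le_mul_of_nonneg_right h1 (Real.exp_pos (l / 2)).le
      linarith only [h3, h4, h5]
    have hu2 : u ^ 2 ≤ L ^ 3 / 64 ^ 2 := by
      have h1 : u ≤ Real.sqrt L * L / 64 := by
        have h2 : e * L / 8 ≤ Real.sqrt L / 8 * L / 8 := by
          apply div_le_div_of_nonneg_right _ (by norm_num)
          exact mul_le_mul_of_nonneg_right hes hL0.le
        linarith only [huL, h2]
      calc u ^ 2 ≤ (Real.sqrt L * L / 64) ^ 2 := pow_le_pow_left₀ hu0 h1 2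
        _ = (Real.sqrt L * Real.sqrt L) * L ^ 2 / 64 ^ 2 := by ring
        _ = L ^ 3 / 64 ^ 2 := by rw [hss]; ring
    have h1 : B₀ * u ≤ L ^ 5 / 64 := by
      have h2 : B₀ * u ≤ L ^ 2 * (L ^ 2 / 64) := mul_le_mul hBL huL2 hu0 (by positivity)
      have h3 : L ^ 4 ≤ L ^ 5 := pow_le_pow_right₀ hL1 (by norm_num)
      have h4 : L ^ 2 * (L ^ 2 / 64) = L ^ 4 / 64 := by ring
      linarith only [h2, h3, h4]
    have h2 : u ^ 2 * (2 * T) ≤ L ^ 5 / 64 := by
      have h3 : u ^ 2 * (2 * T) ≤ L ^ 3 / 64 ^ 2 * (2 * L ^ 2) :=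
        mul_le_mul hu2 (by linarith only [hTL]) (by linarith only [hT]) (by positivity)
      have h4 : L ^ 3 / 64 ^ 2 * (2 * L ^ 2) = L ^ 5 / 2048 := by ring
      have h5 : 0 ≤ L ^ 5 := by positivity
      linarith only [h3, h4, h5]
    rw [div_le_iff₀ (by positivity)]
    have h3 : B₀ * u + u ^ 2 * (2 * T) ≤ L ^ 5 / 32 := by linarith only [h1, h2]
    have h4 : L ^ 5 ≤ σ * Real.sqrt L * L ^ 5 := by
      have : 0 ≤ L ^ 5 := by positivity
      nlinarith only [hσL, this]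
    have h5 : σ / 200000 * L ^ 6 = σ * Real.sqrt L * L ^ 5 * (Real.sqrt L / 200000) := by
      have : L ^ 6 = (Real.sqrt L * Real.sqrt L) * L ^ 5 := by rw [hss]; ring
      rw [this]; ring
    rw [h5]
    have h6 : 1 / 32 ≤ Real.sqrt L / 200000 := by linarith only [hsL4]
    have h7 : 0 ≤ σ * Real.sqrt L * L ^ 5 := by positivity
    nlinarith only [h3, h4, h6, h7]
  have hYl : Real.exp Y ≤ Real.exp (15 / 8 * L) := by
    refine Real.exp_le_exp.2 ?_
    have : L / (6400 * e) ≤ L := by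
      rw [div_le_iff₀ (by positivity)]
      nlinarith only [hL0, he1']
    linarith only [hYZ, this, hL0]
  have hlen : Real.exp (15 / 8 * L) ≤ (N : ℝ) / (P : ℝ) - 1 := by
    have e1 : Real.exp (31 / 16 * L) ≤ (N : ℝ) / P := by
      rw [le_div_iff₀ hPr]
      calc Real.exp (31 / 16 * L) * P ≤ Real.exp (31 / 16 * L) * Real.exp (L / 16) :=
            mul_le_mul_of_nonneg_left hPx (Real.exp_pos _).le
        _ = Real.exp (2 * L) := by rw [← Real.exp_add]; congr 1; ring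
        _ ≤ N := hN
    have e2 : Real.exp (31 / 16 * L) = Real.exp (15 / 8 * L) * Real.exp (L / 16) := by
      rw [← Real.exp_add]; congr 1; ring
    have e3 : 2 ≤ Real.exp (L / 16) := by
      have := Real.add_one_le_exp (L / 16)
      linarith only [this, hL1600]
    have e4 : 1 ≤ Real.exp (15 / 8 * L) := Real.one_le_exp (by positivity)
    nlinarith only [e1, e2, e3, e4]
  have hmain := class_uni (L ^ 6) Y z x u (17 * σ) (Real.exp (15 / 8 * L)) (σ / 200000) T B₀ J₀ V D₀ P₁ b hx0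
    (hxL.trans hL16) (by linarith only [hL16, hL1]) ((hxL.trans hL16).trans hwz) hu0 hwY
    (by positivity) hT hB₀ hP₁ hDp hDc hpos hin hcross hcard' huw hJY hCcc hYl (by
      intro κ _ _ hκ res hres hres2 hcoll A B hAB
      have hfin := covA_at c C CR C₁ K₀ M₀ hc hC hC₁ hCR0 hWb hSR hBH hK1 hK4 hM1 hM4 hM5 L e he1 he3
        helog he4 a1 a2 a4 heu b1 (Fin J₀) (by rw [Fintype.card_fin]; exact hJ1) κ hκ res hres hres2
        hcoll A B hAB
      convert hfin) hYz M N hlen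
  refine hmain.trans ?_
  apply mul_le_mul_of_nonneg_right _ (by positivity)
  have h1 : B₀ * u * (2 / L ^ 6) ≤ B₀ / L ^ 3 := by
    rw [mul_div_assoc', div_le_div_iff₀ (by positivity) (by positivity)]
    have h2 : u * 2 ≤ L ^ 3 := by
      have h3 : L ^ 2 ≤ L ^ 3 := pow_le_pow_right₀ hL1 (by norm_num)
      have : 0 ≤ L ^ 2 := by positivity
      linarith only [huL2, h3, this]
    have h3 : (0:ℝ) ≤ L ^ 3 := by positivity
    have h4 : B₀ * u * 2 * L ^ 3 = B₀ * L ^ 3 * (u * 2) := by ring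
    have h5 : B₀ * L ^ 6 = B₀ * L ^ 3 * L ^ 3 := by ring
    rw [h4, h5]
    exact mul_le_mul_of_nonneg_left h2 (by positivity)
  have h2 : (B₀ + (J₀ * u) ^ 2 * (2 * T)) * (J₀ * u) * (2 / Real.exp Y) ≤ 1 / L ^ 3 := by
    set s := Real.sqrt L with hs
    have hEs := Real.exp_pos s
    have e1 : B₀ ≤ Real.exp s := hBL.trans hlogL
    have e2 : (J₀ * u : ℝ) ^ 2 ≤ Real.exp (4 * s) := by
      calc (J₀ * u : ℝ) ^ 2 ≤ (Real.exp (2 * s)) ^ 2 := pow_le_pow_left₀ (by positivity) hJu 2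
        _ = _ := by rw [sq, ← Real.exp_add]; congr 1; ring
    have e3 : 2 * T ≤ 2 * Real.exp s := by linarith only [hTL, hlogL]
    have e4 : (J₀ * u : ℝ) ^ 2 * (2 * T) ≤ Real.exp (4 * s) * (2 * Real.exp s) :=
      mul_le_mul e2 e3 (by linarith only [hT]) (Real.exp_pos _).le
    have e5 : Real.exp (4 * s) * (2 * Real.exp s) = 2 * Real.exp (5 * s) := by
      have : Real.exp (5 * s) = Real.exp (4 * s) * Real.exp s := by rw [← Real.exp_add]; congr 1; ring
      rw [this]; ring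
    have e6 : Real.exp s ≤ Real.exp (5 * s) := Real.exp_le_exp.2 (by linarith only [hsL0])
    have e7 : B₀ + (J₀ * u) ^ 2 * (2 * T) ≤ 3 * Real.exp (5 * s) := by linarith only [e1, e4, e5, e6]
    have e8 : (B₀ + (J₀ * u) ^ 2 * (2 * T)) * (J₀ * u) ≤ 3 * Real.exp (5 * s) * Real.exp (2 * s) :=
      mul_le_mul e7 hJu (by positivity) (by positivity)
    have e9 : 2 / Real.exp Y ≤ 2 * Real.exp (-(20 * s)) := by
      rw [Real.exp_neg, ← div_eq_mul_inv]
      exact div_le_div_of_nonneg_left (by norm_num) (Real.exp_pos _) (Real.exp_le_exp.2 hY20)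
    have e10 : (B₀ + (J₀ * u) ^ 2 * (2 * T)) * (J₀ * u) * (2 / Real.exp Y) ≤
        3 * Real.exp (5 * s) * Real.exp (2 * s) * (2 * Real.exp (-(20 * s))) :=
      mul_le_mul e8 e9 (by positivity) (by positivity)
    refine e10.trans ?_
    have e11 : 3 * Real.exp (5 * s) * Real.exp (2 * s) * (2 * Real.exp (-(20 * s))) =
        6 * Real.exp (-(13 * s)) := by
      have : Real.exp (-(13 * s)) = Real.exp (5 * s) * Real.exp (2 * s) * Real.exp (-(20 * s)) := by
        rw [← Real.exp_add, ← Real.exp_add]; congr 1; ring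
      rw [this]; ring
    rw [e11, le_div_iff₀ (by positivity)]
    have e12 : L ^ 3 ≤ Real.exp (2 * s) := by
      have h3 : L ^ 3 ≤ L ^ 4 := pow_le_pow_right₀ hL1 (by norm_num)
      have h4 : L ^ 4 = L ^ 2 * L ^ 2 := by ring
      have h5 : L ^ 2 * L ^ 2 ≤ Real.exp s * Real.exp s :=
        mul_le_mul hlogL hlogL (by positivity) hEs.le
      have h6 : Real.exp s * Real.exp s = Real.exp (2 * s) := by rw [← Real.exp_add]; congr 1; ring
      linarith only [h3, h4, h5, h6]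
    have e13 : 6 ≤ Real.exp (11 * s) := by
      have := Real.add_one_le_exp (11 * s)
      linarith only [this, hsL4]
    have e14 : Real.exp (-(13 * s)) * (Real.exp (2 * s) * Real.exp (11 * s)) = 1 := by
      rw [← Real.exp_add, ← Real.exp_add]
      have : -(13 * s) + (2 * s + 11 * s) = 0 := by ring
      rw [this, Real.exp_zero]
    have e15 : 6 * L ^ 3 ≤ Real.exp (11 * s) * Real.exp (2 * s) :=
      mul_le_mul e13 e12 (by positivity) (Real.exp_pos _).le
    have e16 := mul_le_mul_of_nonneg_left e15 (Real.exp_pos (-(13 * s))).le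
    have e17 : Real.exp (-(13 * s)) * (Real.exp (11 * s) * Real.exp (2 * s)) = 1 := by
      rw [mul_comm (Real.exp (11 * s))]; exact e14
    linarith only [e16, e17]
  have h3 : (T + B₀ + 1) / L ^ 3 = T / L ^ 3 + B₀ / L ^ 3 + 1 / L ^ 3 := by ring
  have h4 : 0 ≤ T / L ^ 3 := by positivity
  linarith only [h1, h2, h3, h4]

end Pool.Agent.T2h81.UC
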