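import Pool.Agent.T2h81.UC.D4
import Pool.Agent.T2h81.UC.E2

set_option autoImplicit false
set_option linter.unusedVariables false
set_option maxHeartbeats 4000000

/-! # Fixed residues: one class of the variable modulo the small primes, uniform version -/

namespace Pool.Agent.T2h81.UC

open Finset Filter Pool.Agent.H256R2.SC Pool.Agent.Y831.RC

open scoped Classical

theorem ev_uni (c L₀ : ℝ) (hc : 0 < c) : ∃ L₂ : ℝ, ∀ L : ℝ, L₂ ≤ L →
    Real.sqrt L * Real.log L ≤ c * L ∧ L * L < (L / 32) ^ 8 ∧ 200 ≤ Real.log (L / 32) ∧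
    L * L + 1 < Real.exp L ∧ L₀ ≤ L := by
  obtain ⟨L₂, h⟩ := ev_late c 1 hc
  refine ⟨max L₂ (max (32 * Real.exp 200) (max L₀ (32 ^ 8 + 100))), fun L hL => ?_⟩
  obtain ⟨h1, -, -, -, -, -⟩ := h L ((le_max_left _ _).trans hL)
  have hr := (le_max_right _ _).trans hL
  have h2 : 32 * Real.exp 200 ≤ L := (le_max_left _ _).trans hr
  have hr2 := (le_max_right _ _).trans hr
  have h3 : L₀ ≤ L := (le_max_left _ _).trans hr2
  have h4 : (32:ℝ) ^ 8 + 100 ≤ L := (le_max_right _ _).trans hr2
  have hL1 : (1:ℝ) ≤ L := by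
    have : (0:ℝ) ≤ 32 ^ 8 := by positivity
    linarith
  have hL0 : 0 < L := by linarith
  refine ⟨h1, ?_, ?_, ?_, h3⟩
  · have e1 : (L / 32) ^ 8 = L ^ 8 / 32 ^ 8 := by ring
    rw [e1, lt_div_iff₀ (by positivity)]
    have e2 : L ^ 4 ≤ L ^ 8 := pow_le_pow_right₀ hL1 (by norm_num)
    have e3 : (32:ℝ) ^ 8 < L := by linarith
    have e4 : L * L * 32 ^ 8 < L * L * L := mul_lt_mul_of_pos_left e3 (by positivity)
    have e5 : L ^ 3 ≤ L ^ 4 := pow_le_pow_right₀ hL1 (by norm_num)
    have e6 : L * L * L = L ^ 3 := by ring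
    linarith
  · rw [Real.le_log_iff_exp_le (by positivity), le_div_iff₀ (by norm_num)]
    linarith
  · have e1 := Real.pow_div_factorial_le_exp L hL0.le 3
    norm_num [Nat.factorial] at e1
    have e2 : 100 ≤ L := by
      have : (0:ℝ) ≤ 32 ^ 8 := by positivity
      linarith
    have e3 : 100 * L ^ 2 ≤ L ^ 3 := by
      have e4 : L ^ 3 = L * L ^ 2 := by ring
      rw [e4]
      exact mul_le_mul_of_nonneg_right e2 (by positivity)
    nlinarith

theorem mod_class_uni : ∃ C' L₂ : ℝ, 6400 ≤ C' ∧ 1 ≤ L₂ ∧ ∀ η : ℝ, 0 < η → η ≤ 1 →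
    ∀ X : ℝ, Real.exp (2 * L₂ / η) ≤ X → ∀ lam : ℝ, 1 ≤ lam → ∀ A H : ℕ, 1 ≤ A → ∀ M N : ℕ, X ^ η ≤ N → ∀ m : ℕ,
    Real.exp (Real.exp (4 * (C' * (A * (H + 1) * (lam / η))))) ≤ m → (m : ℝ) ≤ X ^ (η / 2) →
    ∃ (x z L : ℝ) (m₁ : ℕ), 1 < x ∧ 2 * (A : ℝ) + 1 ≤ z ∧ 1 ≤ L ∧ Real.log X = 2 * L / η ∧
    (H + 2 * A + 1) * m₁ ≤ m ∧ (m : ℝ) + H + 1 ≤ X ∧
    (∀ d : ℕ, 1 ≤ lam / η * L * rP (primorial ⌊x⌋₊) d) ∧
    z + A + 2 ≤ 1 / 4 * Real.exp (-(lam / η)) * N ∧ (primorial ⌊x⌋₊ : ℝ) ≤ N ∧
    ∀ b : ℕ, b < primorial ⌊x⌋₊ →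
      (((Ioc (M : ℤ) (M + N)).filter (fun n : ℤ => ((primorial ⌊x⌋₊ : ℕ) : ℤ) ∣ n - b ∧
      (((range m₁).filter (fun i => CovL z (VL (primorial ⌊x⌋₊) (4 * (lam / η) * L) A H b
        ((H + 2 * A + 1) * (i + 1))) n)).card : ℝ) <
        Real.exp (-Real.exp (4 * (C' * (A * (H + 1) * (lam / η))))) * m)).card : ℝ) ≤
      1 / 4 * Real.exp (-(lam / η)) * ((N : ℝ) / (primorial ⌊x⌋₊ : ℝ)) := by
  obtain ⟨c₃, e₀, L₀, hc₃, he₀, hL₀, hcls⟩ := class_mainU
  obtain ⟨c, Cw, hc, hcC, hWb⟩ := WW_bounds
  obtain ⟨Cs, hCs, hsurv⟩ := surv_ap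
  obtain ⟨C', hC'⟩ : ∃ C' : ℝ, C' = 48 * Cs / c₃ + e₀ := ⟨_, rfl⟩
  have hq0 : 0 < 48 * Cs / c₃ := by positivity
  have hC'1 : 6400 ≤ C' := by linarith
  have hC'2 : 48 * Cs / c₃ ≤ C' := by linarith
  have hC'3 : e₀ ≤ C' := by linarith
  have hC'0 : 0 < C' := by linarith
  obtain ⟨L₂, hL₂⟩ := ev_uni c L₀ hc
  refine ⟨C', max L₂ 1, hC'1, le_max_right _ _, ?_⟩
  intro η hη hη1 X hX lam hlam A H hA M N hN m hm1 hm2
  set μ : ℝ := lam / η with hμ
  have hlam0 : 0 < lam := by linarith
  have hμlam : lam ≤ μ := by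
    rw [hμ, le_div_iff₀ hη]
    nlinarith only [hlam0, hη1]
  have hμ1 : 1 ≤ μ := hlam.trans hμlam
  have hμ0 : 0 < μ := by linarith
  have hAr : (1:ℝ) ≤ A := by exact_mod_cast hA
  have hHr : (0:ℝ) ≤ H := Nat.cast_nonneg _
  set Q : ℝ := A * (H + 1) with hQ
  have hQ1 : 1 ≤ Q := by rw [hQ]; nlinarith only [hAr, hHr]
  have hQμ : μ ≤ Q * μ := by nlinarith only [hQ1, hμ0]
  set e : ℝ := C' * (Q * μ) with he
  have hQμ1 : 1 ≤ Q * μ := hμ1.trans hQμ
  have heC : C' ≤ e := by rw [he]; nlinarith only [hQμ1, hC'0]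
  have hee₀ : e₀ ≤ e := hC'3.trans heC
  have he6400 : 6400 ≤ e := hC'1.trans heC
  have he0 : 0 < e := by linarith
  have heQ : 6400 * Q ≤ e := by
    rw [he]
    have h1 : Q ≤ Q * μ := by nlinarith only [hQ1, hμ1]
    have h2 : 0 ≤ Q * μ := by linarith
    nlinarith only [h1, h2, hC'1]
  set θ : ℝ := Real.exp (-Real.exp (4 * e)) with hθ
  have hθ0 : 0 < θ := Real.exp_pos _
  set s : ℕ := H + 2 * A + 1 with hs
  have hs0 : 0 < s := by omega
  have hsr : (s : ℝ) ≤ e := by
    have h1 : (s : ℝ) = H + 2 * A + 1 := by rw [hs]; push_cast; ring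
    rw [h1]
    have h2 : (H : ℝ) + 2 * A + 1 ≤ 4 * Q := by rw [hQ]; nlinarith only [hAr, hHr]
    linarith
  have hsr1 : (1:ℝ) ≤ s := by exact_mod_cast hs0
  set J₀ : ℕ := ⌈Real.exp (e ^ 2 * Real.exp e + e / 2)⌉₊ with hJ₀
  have hJ1 : Real.exp (e ^ 2 * Real.exp e + e / 2) ≤ (J₀ : ℝ) := Nat.le_ceil _
  have hJpos : 0 < J₀ := by
    have : (0:ℝ) < J₀ := (Real.exp_pos _).trans_le hJ1
    exact_mod_cast this
  have hJr : (0:ℝ) < J₀ := by exact_mod_cast hJpos
  have hJr1 : (1:ℝ) ≤ J₀ := by exact_mod_cast hJpos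
  have hJb := J_bound he6400
  rw [← hJ₀] at hJb
  -- the doubled exponent absorbs the spacing
  have hE3 : 16 * (J₀ : ℝ) * s ≤ Real.exp (Real.exp (3 * e)) := by
    have h1 : 2 * Real.exp (2 * e) ≤ Real.exp (3 * e) := by
      have h2 : Real.exp (3 * e) = Real.exp e * Real.exp (2 * e) := by rw [← Real.exp_add]; congr 1; ring
      have h3 := Real.add_one_le_exp e
      rw [h2]
      apply mul_le_mul_of_nonneg_right _ (Real.exp_pos _).le
      linarith
    have h2 : (s : ℝ) ≤ Real.exp (Real.exp (2 * e)) := by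
      have h3 := Real.add_one_le_exp (2 * e)
      have h4 := Real.add_one_le_exp (Real.exp (2 * e))
      linarith
    calc 16 * (J₀ : ℝ) * s ≤ Real.exp (Real.exp (2 * e)) * Real.exp (Real.exp (2 * e)) :=
          mul_le_mul hJb h2 (by linarith) (Real.exp_pos _).le
      _ = Real.exp (2 * Real.exp (2 * e)) := by rw [← Real.exp_add]; congr 1; ring
      _ ≤ _ := Real.exp_le_exp.2 h1
  have hE4 : 16 * (J₀ : ℝ) * s ≤ Real.exp (Real.exp (4 * e)) :=
    hE3.trans (Real.exp_le_exp.2 (Real.exp_le_exp.2 (by linarith)))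
  have hθJ : θ * (16 * J₀ * s) ≤ 1 := by
    rw [hθ, Real.exp_neg]
    rw [inv_mul_le_iff₀ (Real.exp_pos _), mul_one]
    exact hE4
  have hEμ : 0 < Real.exp μ := Real.exp_pos _
  have hEμ' : 0 < Real.exp (-μ) := Real.exp_pos _
  have hEE : Real.exp (-μ) * Real.exp μ = 1 := by rw [← Real.exp_add]; simp
  have hX0 : 0 < X := (Real.exp_pos _).trans_le hX
  set L : ℝ := η / 2 * Real.log X with hL
  have hLL₂' : max L₂ 1 ≤ L := by
    have h1 : 2 * (max L₂ 1) / η ≤ Real.log X := by
      rw [Real.le_log_iff_exp_le hX0]; exact hX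
    rw [div_le_iff₀ hη] at h1
    rw [hL]
    linarith
  have hLL₂ : L₂ ≤ L := (le_max_left _ _).trans hLL₂'
  obtain ⟨v1, v2, v3, v5, v6⟩ := hL₂ L hLL₂
  have hlogX : Real.log X = 2 * L / η := by rw [hL]; field_simp
  have hLL₀ : L₀ ≤ L := v6
  have hL8 : (10 : ℝ) ^ 8 ≤ L := hL₀.trans hLL₀
  have hL1600 : 1600 ≤ L := by linarith
  have hmL : (m : ℝ) ≤ Real.exp L := by
    refine hm2.trans (le_of_eq ?_)
    rw [Real.rpow_def_of_pos hX0, hL]
    congr 1
    ring
  have hL4 : Real.exp (4 * e) ≤ L := Real.exp_le_exp.1 (hm1.trans hmL)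
  have hLpos : 0 < L := by linarith
  set l : ℝ := Real.log L with hl
  have hl1 : 1 ≤ l := by
    rw [hl, Real.le_log_iff_exp_le hLpos]
    have := Real.exp_one_lt_d9
    linarith
  have hl0 : 0 < l := by linarith
  have hel4 : 4 * e ≤ l := by rw [hl, Real.le_log_iff_exp_le hLpos]; exact hL4
  have hel : e ≤ 1 / 4 * l := by linarith
  have hLJ : (J₀ : ℝ) ≤ Real.exp (Real.sqrt L) := by
    have h1 : Real.exp (2 * e) ≤ Real.sqrt L := by
      have h2 : Real.sqrt L = Real.exp (l / 2) := by
        rw [hl, ← Real.log_sqrt hLpos.le, Real.exp_log (Real.sqrt_pos.2 hLpos)]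
      rw [h2]
      apply Real.exp_le_exp.2
      linarith
    have h3 := Real.exp_le_exp.2 h1
    linarith
  -- everything is small against `L`
  have hμe : 6400 * μ ≤ e := by rw [he]; nlinarith only [hC'1, hμ1, hQμ]
  have hAe : 6400 * (A : ℝ) ≤ e := by
    have h1 : (A : ℝ) ≤ Q := by rw [hQ]; nlinarith only [hAr, hHr]
    linarith
  have hHe : 6400 * ((H : ℝ) + 1) ≤ e := by
    have h1 : (H : ℝ) + 1 ≤ Q := by rw [hQ]; nlinarith only [hAr, hHr]
    linarith
  have hexp4 : e ^ 4 ≤ L := by
    have h1 := Real.pow_div_factorial_le_exp (4 * e) (by linarith) 4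
    norm_num [Nat.factorial] at h1
    have h2 : 0 ≤ e ^ 4 := by positivity
    nlinarith only [h1, h2, hL4]
  have he3L : 6400 ^ 3 * e ≤ L := by
    have h1 : (6400:ℝ) ^ 3 ≤ e ^ 3 := pow_le_pow_left₀ (by norm_num) he6400 3
    have h2 : 6400 ^ 3 * e ≤ e ^ 3 * e := mul_le_mul_of_nonneg_right h1 he0.le
    linarith [h2, hexp4, (by ring : e ^ 3 * e = e ^ 4)]
  have he2L : 6400 ^ 2 * e ^ 2 ≤ L := by
    have h1 : (6400:ℝ) ^ 2 ≤ e ^ 2 := pow_le_pow_left₀ (by norm_num) he6400 2
    have h2 : 6400 ^ 2 * e ^ 2 ≤ e ^ 2 * e ^ 2 := mul_le_mul_of_nonneg_right h1 (by positivity)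
    linarith [h2, hexp4, (by ring : e ^ 2 * e ^ 2 = e ^ 4)]
  have hμL : 8 * ((A : ℝ) + 3) * Real.exp μ ≤ L := by
    have h1 : 8 * ((A : ℝ) + 3) ≤ e := by linarith
    have h2 : e ≤ Real.exp e := by linarith [Real.add_one_le_exp e]
    have h3 : Real.exp μ ≤ Real.exp e := Real.exp_le_exp.2 (by linarith)
    calc 8 * ((A : ℝ) + 3) * Real.exp μ ≤ Real.exp e * Real.exp e :=
          mul_le_mul (h1.trans h2) h3 (Real.exp_pos _).le (Real.exp_pos _).le
      _ = Real.exp (2 * e) := by rw [← Real.exp_add]; congr 1; ring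
      _ ≤ Real.exp (4 * e) := Real.exp_le_exp.2 (by linarith)
      _ ≤ L := hL4
  set x : ℝ := L / 32 with hx
  have hx1 : 1 < x := by rw [hx]; linarith
  have hx0 : 0 ≤ x := by linarith
  set P : ℕ := primorial ⌊x⌋₊ with hP
  have hPpos : 0 < P := primorial_pos _
  have hPr : (0:ℝ) < P := by exact_mod_cast hPpos
  have hPx : (P:ℝ) ≤ Real.exp (L / 16) := by
    refine (primorial_le_exp x hx0).trans (le_of_eq ?_)
    rw [hx]
    congr 1
    ring
  set z : ℝ := Real.exp (L / (6400 * e)) with hz
  have hlx0 : 0 < Real.log x := Real.log_pos hx1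
  have hlxL : Real.log x ≤ l := Real.log_le_log (by linarith) (by rw [hx]; linarith)
  have hlx200 : 200 ≤ Real.log x := v3
  -- lower bound for the densities
  have hWl : c ≤ WW x * l := by
    have h5 : c ≤ WW x * Real.log x := (hWb x (by rw [hx]; linarith)).1
    exact h5.trans (mul_le_mul_of_nonneg_left hlxL (WW_pos x).le)
  have hrL : ∀ d : ℕ, Real.sqrt L ≤ L * rP P d := by
    intro d
    have h1 : WW x ≤ rP P d := rP_ge hx0 d
    have h2 : c * L ≤ (L * rP P d) * l := by
      have h3 : c ≤ rP P d * l := hWl.trans (mul_le_mul_of_nonneg_right h1 hl0.le)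
      nlinarith only [h3, hLpos]
    have h5 : Real.sqrt L * l ≤ (L * rP P d) * l := v1.trans h2
    exact le_of_mul_le_mul_right h5 hl0
  have hsL : 40 ≤ Real.sqrt L := by
    rw [show (40:ℝ) = Real.sqrt (40 ^ 2) by rw [Real.sqrt_sq (by norm_num)]]
    apply Real.sqrt_le_sqrt
    norm_num
    linarith
  have hexpL : L * L + 1 < Real.exp L := v5
  have hLL : L ≤ L * L := by nlinarith only [hL1600]
  -- sizes
  have hNr : Real.exp (2 * L) ≤ N := by
    refine le_trans (le_of_eq ?_) hN
    rw [Real.rpow_def_of_pos hX0, hL]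
    congr 1
    ring
  have hXL : Real.exp (2 * L) ≤ X := by
    have h1 : 2 * L ≤ Real.log X := by
      rw [hlogX, le_div_iff₀ hη]
      nlinarith only [hLpos, hη1]
    rwa [Real.le_log_iff_exp_le hX0] at h1
  have hEL0 := Real.exp_pos L
  have hE2L : Real.exp (2 * L) = Real.exp L * Real.exp L := by rw [← Real.exp_add]; congr 1; ring
  have hbig : L * L * Real.exp L ≤ Real.exp (2 * L) := by
    rw [hE2L]
    exact mul_le_mul_of_nonneg_right (by linarith) hEL0.le
  have hEL1 : 1 ≤ Real.exp L := Real.one_le_exp hLpos.le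
  set m₁ : ℕ := m / s with hm₁
  have hm₁1 : s * m₁ ≤ m := Nat.mul_div_le _ _
  have hm₁2 : (m : ℝ) < s * (m₁ + 1) := by
    have : m < s * (m₁ + 1) := by
      have := Nat.lt_mul_div_succ m hs0
      rw [← hm₁] at this
      exact this
    exact_mod_cast this
  have hmJ : 16 * (J₀ : ℝ) * s ≤ m := hE4.trans hm1
  have hm0 : (0:ℝ) < m := lt_of_lt_of_le (by positivity) hmJ
  have hPN : (P : ℝ) ≤ N := hPx.trans ((Real.exp_le_exp.2 (by linarith)).trans hNr)
  have hNP : (1:ℝ) ≤ N / P := by
    rw [le_div_iff₀ hPr, one_mul]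
    exact hPN
  refine ⟨x, z, L, m₁, hx1, ?_, by linarith, hlogX, hm₁1, ?_, ?_, ?_, hPN, ?_⟩
  · -- z large
    have h1 := Real.add_one_le_exp (L / (6400 * e))
    have h2 : 2 * (A : ℝ) ≤ L / (6400 * e) := by
      rw [le_div_iff₀ (by positivity)]
      have h3 : 2 * (A : ℝ) * (6400 * e) ≤ 2 * e * e := by
        have := mul_le_mul_of_nonneg_right hAe (show 0 ≤ 2 * e by linarith)
        linarith [this, (by ring : 2 * (A : ℝ) * (6400 * e) = 6400 * (A : ℝ) * (2 * e)), (by ring : 2 * e * e = e * (2 * e))]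
      nlinarith only [h3, he2L, he6400]
    linarith
  · -- m + H + 1 ≤ X
    have h1 : (m : ℝ) + H + 1 ≤ (H + 2) * Real.exp L := by nlinarith only [hmL, hEL1, hHr]
    have h2 : ((H : ℝ) + 2) * Real.exp L ≤ L * L * Real.exp L := by
      apply mul_le_mul_of_nonneg_right _ hEL0.le
      linarith
    linarith
  · intro d
    have h1 := hrL d
    have h2 : μ * L * rP P d = μ * (L * rP P d) := by ring
    rw [h2]
    have h3 : 1 ≤ L * rP P d := by linarith
    nlinarith only [h3, hμ1]
  · -- few excluded integers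
    have h1 : z ≤ Real.exp L := by
      apply Real.exp_le_exp.2
      rw [div_le_iff₀ (by positivity)]
      nlinarith only [hLpos, he6400]
    have h2 : z + A + 2 ≤ (A + 3) * Real.exp L := by nlinarith only [h1, hEL1, hAr]
    have h3 : 8 * ((A : ℝ) + 3) * Real.exp μ ≤ Real.exp L := by linarith
    have h4 : 8 * ((A : ℝ) + 3) ≤ Real.exp (-μ) * Real.exp L := by
      have h5 := mul_le_mul_of_nonneg_left h3 hEμ'.le
      have h6 : Real.exp (-μ) * (8 * ((A : ℝ) + 3) * Real.exp μ) =
          8 * ((A : ℝ) + 3) * (Real.exp (-μ) * Real.exp μ) := by ring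
      rw [h6, hEE] at h5
      linarith
    have h5 : 8 * (((A : ℝ) + 3) * Real.exp L) ≤ Real.exp (-μ) * Real.exp (2 * L) := by
      rw [hE2L]
      nlinarith only [h4, hEL0]
    have h6 : Real.exp (-μ) * Real.exp (2 * L) ≤ Real.exp (-μ) * N :=
      mul_le_mul_of_nonneg_left hNr hEμ'.le
    have h7 : 0 ≤ Real.exp (-μ) * N := by positivity
    linarith
  · -- one class
    intro b hb
    have hbr : (b : ℝ) ≤ P := by exact_mod_cast hb.le
    set tti : ℕ → ℕ := fun i => s * (i + 1) with htti
    have httm : ∀ i < m₁, tti i ≤ m := by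
      intro i hi
      exact (Nat.mul_le_mul_left _ hi).trans hm₁1
    set V : ℕ → Finset (ℤ × ℤ) := fun i => VL P (4 * μ * L) A H b (tti i) with hV
    have hsv : ∀ i < m₁, ((svL P (b : ℤ) (V i)).card : ℝ) ≤ c₃ * e * L / Real.log L := by
      intro i hi
      have hti : ((tti i : ℕ) : ℝ) ≤ Real.exp L := by
        have : ((tti i : ℕ) : ℝ) ≤ m := by exact_mod_cast httm i hi
        linarith
      set Bd : ℝ := 16 * Cs * μ * L / l with hBd
      have hBd0 : 0 ≤ Bd := by positivity
      have h1 := sv_VL P A H b (tti i) (4 * μ * L) Bd hPpos hBd0 (by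
        intro h hh a'
        set d'' : ℕ := b + tti i + h + A * P with hd''
        have hd''pos : 0 < d'' := by
          have : 1 * 1 ≤ A * P := Nat.mul_le_mul hA hPpos
          omega
        have hrc : rP P (b + tti i + h) = rP P d'' := by
          apply rP_congr
          rw [hd'']
          have : b + tti i + h ≡ b + tti i + h + A * P [MOD P] := by
            have h0 : (0 : ℕ) ≡ A * P [MOD P] := (Nat.modEq_zero_iff_dvd.2 (Dvd.intro_left _ rfl)).symm
            exact (Nat.ModEq.add_left (b + tti i + h) h0)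
          exact this
        set r : ℝ := rP P (b + tti i + h) with hr
        have hLr : Real.sqrt L ≤ L * r := hrL _
        set F : ℕ := ⌊4 * μ * L * r⌋₊ with hF
        have hr1 : r ≤ 1 := rP_le_one _ _
        have hLr0 : 0 ≤ L * r := by linarith
        have hB0 : 0 ≤ 4 * μ * L * r := by
          have : 4 * μ * L * r = 4 * μ * (L * r) := by ring
          rw [this]
          positivity
        have hF1 : (F : ℝ) ≤ 4 * μ * L * r := Nat.floor_le hB0
        have hF2 : Real.sqrt L ≤ F := by
          have h2 : 4 * μ * L * r < F + 1 := Nat.lt_floor_add_one _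
          have h3 : 4 * (L * r) ≤ 4 * μ * L * r := by
            have : 4 * μ * L * r = 4 * μ * (L * r) := by ring
            rw [this]
            nlinarith only [hLr0, hμ1]
          linarith
        have hF2' : 2 ≤ F := by
          have : (1:ℝ) < F := by linarith
          have : 1 < F := by exact_mod_cast this
          omega
        have hF8 : (F : ℝ) < x ^ 8 := by
          refine lt_of_le_of_lt ?_ v2
          have h2 : 4 * μ * L * r ≤ 4 * μ * L := by
            have : 0 ≤ 4 * μ * L := by positivity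
            nlinarith only [this, hr1]
          have h3 : 4 * μ * L ≤ L * L := by
            apply mul_le_mul_of_nonneg_right _ hLpos.le
            linarith
          linarith
        have hlF : l / 2 ≤ Real.log F := by
          have h2 : Real.log (Real.sqrt L) = l / 2 := Real.log_sqrt hLpos.le
          rw [← h2]
          exact Real.log_le_log (by linarith) hF2
        have hlF0 : 0 < Real.log F := by linarith
        have hdL : Real.log d'' ≤ 2 * L := by
          have hd0 : (0:ℝ) < d'' := by exact_mod_cast hd''pos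
          rw [Real.log_le_iff_le_exp hd0]
          have h2 : (d'' : ℝ) = b + tti i + h + A * P := by rw [hd'']; push_cast; ring
          rw [h2]
          have hPL : (P : ℝ) ≤ Real.exp L := hPx.trans (Real.exp_le_exp.2 (by linarith))
          have hhr : (h : ℝ) ≤ H := by exact_mod_cast hh
          have h3 : (b : ℝ) + tti i + h + A * P ≤ (A + H + 2) * Real.exp L := by
            have h4 : (A : ℝ) * P ≤ A * Real.exp L := mul_le_mul_of_nonneg_left hPL (by linarith)
            have h5 : (h : ℝ) ≤ H * Real.exp L := by nlinarith only [hhr, hHr, hEL1]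
            linarith
          have h4 : ((A : ℝ) + H + 2) * Real.exp L ≤ L * L * Real.exp L := by
            apply mul_le_mul_of_nonneg_right _ hEL0.le
            linarith
          linarith
        have hsm : Real.log d'' / (x * Real.log x) ≤ 1 / 2 := by
          rw [div_le_iff₀ (by positivity)]
          have h2 : 2 * L = 64 * x := by rw [hx]; ring
          have h3 : 200 * x ≤ x * Real.log x := by nlinarith only [hlx200, hx0]
          linarith
        have h2 := hsurv a' d'' F x hd''pos hF2' hx0 hF8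
        refine le_trans (le_of_eq ?_) (h2.trans ?_)
        · rw [hd'']
        · rw [hBd, div_le_div_iff₀ hlF0 hl0]
          have h3 : (d'' : ℝ) / d''.totient * F ≤ 8 * μ * L := by
            have h4 : (d'' : ℝ) / d''.totient * r ≤ 2 := by
              rw [hrc]
              exact rP_tot hx1 hd''pos hsm
            have h5 : (d'' : ℝ) / d''.totient * F ≤ (d'' : ℝ) / d''.totient * (4 * μ * L * r) :=
              mul_le_mul_of_nonneg_left hF1 (by positivity)
            refine h5.trans ?_
            calc (d'' : ℝ) / d''.totient * (4 * μ * L * r) = 4 * μ * L * ((d'' : ℝ) / d''.totient * r) := by ring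
              _ ≤ 4 * μ * L * 2 := mul_le_mul_of_nonneg_left h4 (by positivity)
              _ = _ := by ring
          calc Cs * ((d'' : ℝ) / d''.totient) * F * l = Cs * ((d'' : ℝ) / d''.totient * F) * l := by ring
            _ ≤ Cs * (8 * μ * L) * l := by
                apply mul_le_mul_of_nonneg_right _ hl0.le
                exact mul_le_mul_of_nonneg_left h3 (by linarith)
            _ = 16 * Cs * μ * L * (l / 2) := by ring
            _ ≤ 16 * Cs * μ * L * Real.log F := mul_le_mul_of_nonneg_left hlF (by positivity))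
      refine h1.trans ?_
      have h8 : 48 * Cs ≤ C' * c₃ := by
        rw [div_le_iff₀ hc₃] at hC'2
        exact hC'2
      rw [hBd]
      have h9 : ((H : ℝ) + 1) * (2 * A + 1) * (16 * Cs * μ * L / l) ≤
          ((H : ℝ) + 1) * (3 * A) * (16 * Cs * μ * L / l) := by
        apply mul_le_mul_of_nonneg_right _ hBd0
        apply mul_le_mul_of_nonneg_left _ (by positivity)
        linarith
      refine h9.trans ?_
      have h10 : ((H : ℝ) + 1) * (3 * A) * (16 * Cs * μ * L / l) = 48 * Cs * (Q * μ * L / l) := by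
        rw [hQ]; ring
      have h11 : c₃ * e * L / l = C' * c₃ * (Q * μ * L / l) := by rw [he]; ring
      rw [h10, h11]
      exact mul_le_mul_of_nonneg_right h8 (by positivity)
    set G₀ : ℕ := m₁ / J₀ with hG₀
    have hG1 : G₀ * J₀ ≤ m₁ := Nat.div_mul_le_self _ _
    have hG2 : (m₁ : ℝ) < (G₀ + 1) * J₀ := by
      have : m₁ < (G₀ + 1) * J₀ := by
        have := Nat.lt_div_mul_add (a := m₁) hJpos
        rw [← hG₀] at this
        linarith [this]
      exact_mod_cast this
    have hm₁J : 15 * (J₀ : ℝ) ≤ m₁ := by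
      have h1 : s * (16 * (J₀ : ℝ)) ≤ s * (m₁ + 1) := by linarith
      have h2 := le_of_mul_le_mul_left h1 (by linarith : (0:ℝ) < s)
      linarith
    have hm₁s : (m : ℝ) ≤ 2 * s * m₁ := by
      have h1 : (1:ℝ) ≤ m₁ := by linarith
      nlinarith only [hm₁2, h1, hsr1]
    have hG3 : (m₁ : ℝ) / (2 * J₀) ≤ G₀ := by
      rw [div_le_iff₀ (by positivity)]
      nlinarith only [hG2, hm₁J, hJr]
    have hm₁0 : (0:ℝ) < m₁ := by linarith
    have hG0 : 0 < G₀ := by
      have : (0:ℝ) < G₀ := lt_of_lt_of_le (by positivity) hG3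
      exact_mod_cast this
    have hθG : θ * m ≤ (G₀ : ℝ) / 2 := by
      have h1 : θ * m ≤ m / (16 * J₀ * s) := by
        rw [le_div_iff₀ (by positivity)]
        have h2 : θ * (16 * J₀ * s) * m ≤ 1 * m := mul_le_mul_of_nonneg_right hθJ hm0.le
        linarith
      have h2 : (m : ℝ) / (16 * J₀ * s) ≤ m₁ / (8 * J₀) := by
        rw [div_le_div_iff₀ (by positivity) (by positivity)]
        have h3 : (m : ℝ) * (8 * J₀) ≤ (2 * s * m₁) * (8 * J₀) :=
          mul_le_mul_of_nonneg_right hm₁s (by positivity)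
        linarith
      have h3 : (m₁ : ℝ) / (8 * J₀) = m₁ / (2 * J₀) / 4 := by field_simp; norm_num
      have h4 : (0:ℝ) ≤ G₀ := Nat.cast_nonneg _
      linarith
    set δ : ℝ := 17 * Real.exp (-(e / 2)) + (5 * L + 0 + 1) / L ^ 3 with hδ
    have hδ0 : 0 ≤ δ := by positivity
    have hδμ : δ ≤ 1 / 32 * Real.exp (-μ) := by
      have h1 : Real.exp (-(e / 2)) ≤ 1 / 3200 * Real.exp (-μ) := by
        have h2 : Real.exp (-(e / 2)) ≤ Real.exp (-μ - 3199) := by
          apply Real.exp_le_exp.2
          linarith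
        have h3 : Real.exp (-μ - 3199) = Real.exp (-μ) * Real.exp (-3199) := by
          rw [← Real.exp_add]; congr 1
        have h4 : Real.exp (-3199) ≤ 1 / 3200 := by
          rw [Real.exp_neg, inv_eq_one_div]
          apply one_div_le_one_div_of_le (by norm_num)
          have := Real.add_one_le_exp (3199:ℝ)
          linarith
        rw [h3] at h2
        nlinarith only [h2, h4, hEμ']
      have h3 : (5 * L + 0 + 1) / L ^ 3 ≤ 1 / 64 * Real.exp (-μ) := by
        rw [div_le_iff₀ (by positivity)]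
        have h4 : 5 * L + 0 + 1 ≤ 6 * L := by linarith
        have h5 : Real.exp μ ≤ L := by
          have : 0 < Real.exp μ := Real.exp_pos _
          nlinarith only [hμL, this, hAr]
        have h6 : 1 ≤ Real.exp (-μ) * L := by
          have := mul_le_mul_of_nonneg_left h5 hEμ'.le
          rwa [hEE] at this
        calc 5 * L + 0 + 1 ≤ 6 * L := h4
          _ = 6 * L * 1 := by ring
          _ ≤ 6 * L * (Real.exp (-μ) * L) := mul_le_mul_of_nonneg_left h6 (by positivity)
          _ = Real.exp (-μ) * (6 * L ^ 2) := by ring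
          _ ≤ Real.exp (-μ) * (1 / 64 * L * L ^ 2) := by
              apply mul_le_mul_of_nonneg_left _ hEμ'.le
              apply mul_le_mul_of_nonneg_right _ (by positivity)
              linarith
          _ = 1 / 64 * Real.exp (-μ) * L ^ 3 := by ring
      rw [hδ]
      linarith
    set S : Finset ℤ := (Ioc (M : ℤ) (M + N)).filter (fun n : ℤ => (P : ℤ) ∣ n - b) with hS
    have hgc : ((S.filter (fun n => (((range m₁).filter (fun i => CovL z (V i) n)).card : ℝ) <
        G₀ / 2)).card : ℝ) ≤ 2 * (δ * ((N : ℝ) / P + 1)) := by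
      have hgL := group_countL S z V m₁ J₀ G₀ hG0 (fun k => k) (fun k hk =>
        ⟨lt_of_lt_of_le hk hG1, fun k' hk' => hk'.ne⟩) (δ * ((N : ℝ) / P + 1)) (by
        intro r hr
        have hlt : ∀ q : Fin J₀, r * J₀ + q < m₁ := by
          intro q
          have h1 := q.2
          calc r * J₀ + (q : ℕ) < r * J₀ + J₀ := by omega
            _ = (r + 1) * J₀ := by ring
            _ ≤ G₀ * J₀ := Nat.mul_le_mul_right _ hr
            _ ≤ m₁ := hG1
        set Vr : Fin J₀ → Finset (ℤ × ℤ) := fun q => V (r * J₀ + q) with hVr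
        have hti : ∀ q : Fin J₀, ((tti (r * J₀ + q) : ℕ) : ℝ) ≤ Real.exp L := by
          intro q
          have : ((tti (r * J₀ + q) : ℕ) : ℝ) ≤ m := by exact_mod_cast httm _ (hlt q)
          linarith
        have hdisj : ∀ q q' : Fin J₀, q ≠ q' → Disjoint (Vr q) (Vr q') := by
          intro q q' hqq
          have hne : (q : ℕ) ≠ q' := fun h => hqq (Fin.ext h)
          apply VL_disj
          rcases Nat.lt_or_gt_of_ne hne with h | h
          · left
            have : s * (r * J₀ + q + 1) + s ≤ s * (r * J₀ + q' + 1) := by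
              have : s * (r * J₀ + q + 1) + s = s * (r * J₀ + q + 1 + 1) := by ring
              rw [this]
              exact Nat.mul_le_mul_left _ (by omega)
            exact this
          · right
            have : s * (r * J₀ + q' + 1) + s ≤ s * (r * J₀ + q + 1) := by
              have : s * (r * J₀ + q' + 1) + s = s * (r * J₀ + q' + 1 + 1) := by ring
              rw [this]
              exact Nat.mul_le_mul_left _ (by omega)
            exact this
        have hsize : ∀ q : Fin J₀, ∀ v ∈ Vr q, |(v.1 : ℝ)| ≤ Real.exp (2 * L) ∧ |(v.2 : ℝ)| ≤ Real.exp (2 * L) := by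
          intro q v hv
          apply VL_size (by positivity) hA _ hv
          have hq := hti q
          have h2 : (A : ℝ) + 4 * μ * L * (tti (r * J₀ + q) + H) + 4 * μ * L ≤
              (A + 4 * μ * (H + 2)) * L * Real.exp L := by
            have g1 : 4 * μ * L * (tti (r * J₀ + q) + H) ≤ 4 * μ * L * (Real.exp L * (1 + H)) := by
              apply mul_le_mul_of_nonneg_left _ (by positivity)
              nlinarith only [hq, hHr, hEL1]
            have g2 : 4 * μ * L ≤ 4 * μ * L * Real.exp L := by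
              have : 0 ≤ 4 * μ * L := by positivity
              nlinarith only [this, hEL1]
            have g3 : (A : ℝ) ≤ A * L * Real.exp L := by
              have g4 : (A : ℝ) ≤ A * L := by nlinarith only [hAr, hL1600]
              have g5 : (0:ℝ) ≤ A * L := by positivity
              nlinarith only [g4, g5, hEL1]
            have g4 : (A + 4 * μ * (H + 2)) * L * Real.exp L = A * L * Real.exp L +
                4 * μ * L * (Real.exp L * (1 + H)) + 4 * μ * L * Real.exp L := by ring
            rw [g4]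
            linarith
          refine h2.trans (le_trans ?_ hbig)
          apply mul_le_mul_of_nonneg_right _ hEL0.le
          apply mul_le_mul_of_nonneg_right _ hLpos.le
          have g5 : 4 * μ * (H + 2) ≤ e * e := by
            have g6 : 4 * μ ≤ e := by linarith
            have g7 : (H : ℝ) + 2 ≤ e := by linarith
            exact mul_le_mul g6 g7 (by linarith) he0.le
          nlinarith only [g5, he2L, hAe, he6400]
        have hk4 : ∀ q : Fin J₀, ∀ v ∈ Vr q, 1 ≤ v.1 ∧ (v.1 : ℝ) ≤ 4 * μ * L := by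
          intro q v hv
          obtain ⟨h, a, k, h1, h2, h3, h4, h5, h6, h7, h8⟩ := mem_VL.1 hv
          rw [h8]
          simp only
          refine ⟨by exact_mod_cast h6, ?_⟩
          have h9 : (k : ℝ) ≤ 4 * μ * L * rP P (b + tti (r * J₀ + q) + h) :=
            (Nat.le_floor_iff' (by omega)).1 h7
          have h10 : rP P (b + tti (r * J₀ + q) + h) ≤ 1 := rP_le_one _ _
          have h11 : 0 ≤ 4 * μ * L := by positivity
          push_cast
          nlinarith only [h9, h10, h11]
        have hB2 : 4 * μ * L ≤ L * L := mul_le_mul_of_nonneg_right (by linarith) hLpos.le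
        have h1 := hcls L e hLL₀ hee₀ hel J₀ hJ1 hLJ (5 * L) 0 (by positivity) (by nlinarith only [hL1600])
          le_rfl (by positivity) Vr ∅ P (b : ℤ) (dvd_refl _) (by intro p hp; simp at hp) (by simp) (by
            intro q v hv p hp hpL _ hdvd
            obtain ⟨g1, g2⟩ := hk4 q v hv
            have g3 := Int.le_of_dvd (by omega) hdvd
            have g4 : (p : ℝ) ≤ v.1 := by exact_mod_cast g3
            have g5 : L * L ≤ L ^ 6 := by
              rw [← pow_two]
              exact pow_le_pow_right₀ (by linarith) (by norm_num)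
            linarith) (by
            intro q v hv v' hv' hne p hp hpL _ hdvd
            have g0 : dtm v v' ≠ 0 := VL_det hv hv' hne
            have g1 := Int.le_of_dvd (abs_pos.2 g0) ((dvd_abs _ _).2 hdvd)
            obtain ⟨h, a, k, h1, h2, h3, h4, h5, h6, h7, h8⟩ := mem_VL.1 hv
            obtain ⟨h', a', k', h1', h2', h3', h4', h5', h6', h7', h8'⟩ := mem_VL.1 hv'
            have gk := (hk4 q v hv).2
            have gk' := (hk4 q v' hv').2
            rw [h8] at gk
            rw [h8'] at gk'
            simp only [Int.cast_natCast] at gk gk'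
            have g2 : dtm v v' = k * a' - k' * a + k * k' * ((h' : ℤ) - h) := by
              unfold dtm
              rw [h8, h8']
              simp only
              ring
            have har : |(a : ℝ)| ≤ A := by
              rw [abs_le]
              exact ⟨by exact_mod_cast h2, by exact_mod_cast h3⟩
            have har' : |(a' : ℝ)| ≤ A := by
              rw [abs_le]
              exact ⟨by exact_mod_cast h2', by exact_mod_cast h3'⟩
            have hhr : |((h' : ℝ) - h)| ≤ H := by
              rw [abs_le]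
              have e1 : (h : ℝ) ≤ H := by exact_mod_cast h1
              have e2 : (h' : ℝ) ≤ H := by exact_mod_cast h1'
              have e3 : (0:ℝ) ≤ h := Nat.cast_nonneg _
              have e4 : (0:ℝ) ≤ h' := Nat.cast_nonneg _
              constructor <;> linarith
            have hk0 : (0:ℝ) ≤ k := Nat.cast_nonneg _
            have hk0' : (0:ℝ) ≤ k' := Nat.cast_nonneg _
            have hB0 : 0 ≤ 4 * μ * L := by positivity
            have g3 : |((dtm v v' : ℤ) : ℝ)| ≤ 4 * μ * L * A + 4 * μ * L * A + (4 * μ * L) * (4 * μ * L) * H := by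
              rw [g2]
              push_cast
              have e1 : |(k : ℝ) * a'| ≤ 4 * μ * L * A := by
                rw [abs_mul, abs_of_nonneg hk0]
                exact mul_le_mul gk har' (abs_nonneg _) hB0
              have e2 : |(k' : ℝ) * a| ≤ 4 * μ * L * A := by
                rw [abs_mul, abs_of_nonneg hk0']
                exact mul_le_mul gk' har (abs_nonneg _) hB0
              have e3 : |(k : ℝ) * k' * ((h' : ℝ) - h)| ≤ (4 * μ * L) * (4 * μ * L) * H := by
                rw [abs_mul, abs_of_nonneg (mul_nonneg hk0 hk0')]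
                exact mul_le_mul (mul_le_mul gk gk' hk0' hB0) hhr (abs_nonneg _) (by positivity)
              calc |(k : ℝ) * a' - k' * a + k * k' * ((h' : ℝ) - h)| ≤
                  |(k : ℝ) * a' - k' * a| + |(k : ℝ) * k' * ((h' : ℝ) - h)| := abs_add_le _ _
                _ ≤ (|(k : ℝ) * a'| + |(k' : ℝ) * a|) + |(k : ℝ) * k' * ((h' : ℝ) - h)| := by
                    have := abs_sub (k * a' : ℝ) (k' * a)
                    linarith
                _ ≤ _ := by linarith
            have g4 : (p : ℝ) ≤ |((dtm v v' : ℤ) : ℝ)| := by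
              have : ((p : ℤ) : ℝ) ≤ ((|dtm v v'| : ℤ) : ℝ) := by exact_mod_cast g1
              rwa [Int.cast_abs, Int.cast_natCast] at this
            have g5 : 4 * μ * L * A + 4 * μ * L * A + (4 * μ * L) * (4 * μ * L) * H ≤ L ^ 6 := by
              have e1 : 4 * μ * L ≤ L * L := hB2
              have e2 : (A : ℝ) ≤ L := by linarith
              have e3 : (H : ℝ) ≤ L := by linarith
              have e4 : 4 * μ * L * A ≤ L * L * L := mul_le_mul e1 e2 (by linarith) (by positivity)
              have e5 : (4 * μ * L) * (4 * μ * L) * H ≤ (L * L) * (L * L) * L :=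
                mul_le_mul (mul_le_mul e1 e1 hB0 (by positivity)) e3 hHr (by positivity)
              have e6 : 2 * (L * L * L) + (L * L) * (L * L) * L ≤ L ^ 6 := by
                have e7 : L ^ 3 ≤ L ^ 5 := pow_le_pow_right₀ (by linarith) (by norm_num)
                have e8 : L ^ 6 = L * L ^ 5 := by ring
                have e9 : 0 ≤ L ^ 5 := by positivity
                nlinarith only [e7, e8, e9, hL1600]
              linarith
            linarith) (by
            intro q q' hqq v hv v' hv'
            have hne : v ≠ v' := by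
              intro h
              rw [h] at hv
              exact Finset.disjoint_left.1 (hdisj q q' hqq) hv hv'
            refine ⟨VL_det hv hv' hne, ?_⟩
            obtain ⟨g1, g2⟩ := hsize q v hv
            obtain ⟨g1', g2'⟩ := hsize q' v' hv'
            have hE0 := Real.exp_pos (2 * L)
            unfold dtm
            push_cast
            calc |(v.1 : ℝ) * v'.2 - v'.1 * v.2| ≤ |(v.1 : ℝ) * v'.2| + |(v'.1 : ℝ) * v.2| := abs_sub _ _
              _ ≤ Real.exp (2 * L) * Real.exp (2 * L) + Real.exp (2 * L) * Real.exp (2 * L) := by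
                  rw [abs_mul, abs_mul]
                  exact add_le_add (mul_le_mul g1 g2' (abs_nonneg _) hE0.le) (mul_le_mul g1' g2 (abs_nonneg _) hE0.le)
              _ = 2 * Real.exp (4 * L) := by
                  rw [← Real.exp_add]
                  have : 2 * L + 2 * L = 4 * L := by ring
                  rw [this]
                  ring
              _ ≤ Real.exp L * Real.exp (4 * L) := by
                  apply mul_le_mul_of_nonneg_right _ (Real.exp_pos _).le
                  linarith
              _ = Real.exp (5 * L) := by rw [← Real.exp_add]; congr 1; ring) (by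
            intro q
            exact hsv _ (hlt q)) M N hNr
        refine le_trans ?_ h1
        rw [Nat.cast_le]
        apply Finset.card_le_card
        intro n hn
        rw [hS, Finset.filter_filter, Finset.mem_filter] at hn
        rw [Finset.mem_filter]
        refine ⟨hn.1, hn.2.1, fun hcv => hn.2.2 ?_⟩
        obtain ⟨q, hq⟩ := hcv
        refine ⟨q, fun v hv => ?_⟩
        obtain ⟨p, hp1, hp2, _, hp4⟩ := hq v hv
        exact ⟨p, hp1, hp2, hp4⟩)
      exact hgL
    have h1 : 2 * (δ * ((N : ℝ) / P + 1)) ≤ 1 / 4 * Real.exp (-μ) * (N / P) := by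
      calc 2 * (δ * ((N : ℝ) / P + 1)) ≤ 2 * (δ * ((N : ℝ) / P + N / P)) := by
            apply mul_le_mul_of_nonneg_left _ (by norm_num)
            apply mul_le_mul_of_nonneg_left _ hδ0
            linarith
        _ = 4 * δ * (N / P) := by ring
        _ ≤ 4 * (1 / 32 * Real.exp (-μ)) * (N / P) := by
            apply mul_le_mul_of_nonneg_right _ (by linarith)
            linarith
        _ ≤ _ := by
            have : 0 ≤ Real.exp (-μ) * (N / P) := by positivity
            linarith
    refine le_trans ?_ (hgc.trans h1)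
    rw [Nat.cast_le]
    apply Finset.card_le_card
    intro n hn
    rw [Finset.mem_filter] at hn
    rw [Finset.mem_filter, hS, Finset.mem_filter]
    exact ⟨⟨hn.1, hn.2.1⟩, lt_of_lt_of_le hn.2.2 hθG⟩

end Pool.Agent.T2h81.UC
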