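import Pool.Agent.T2h81.UC.D5
import Pool.Agent.T2h81.UC.E3

set_option autoImplicit false
set_option linter.unusedVariables false
set_option maxHeartbeats 4000000

/-! # Fixed residues, varying moduli, uniform version -/

namespace Pool.Agent.T2h81.UC

open Finset Filter Pool.Agent.H256R2.SC Pool.Agent.Y831.RC

open scoped Classical

theorem moduli_uni : ∃ C : ℝ, 1 ≤ C ∧ ∀ η : ℝ, 0 < η → η ≤ 1 → ∃ X₀ : ℝ, ∀ X : ℝ, X₀ ≤ X →
    ∀ lam : ℝ, 1 ≤ lam → ∀ A H : ℕ, 1 ≤ A → ∀ M N : ℕ, (M : ℝ) + N ≤ X → X ^ η ≤ N →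
    ∀ m : ℕ, Real.exp (Real.exp (C * A * (H + 1) * lam / η)) ≤ m → (m : ℝ) ≤ X ^ (η / 2) →
    (((Ioc M (M + N)).filter (fun n => (((Ioc n (n + m)).filter (fun d =>
      ∀ h ≤ H, LateA A lam (d + h))).card : ℝ) <
        Real.exp (-Real.exp (C * A * (H + 1) * lam / η)) * m)).card : ℝ) ≤
      Real.exp (-(lam / η)) * N := by
  obtain ⟨C', L₂, hC', hL₂, hmain⟩ := mod_class_uni
  refine ⟨4 * C', by linarith, ?_⟩
  intro η hη hη1
  refine ⟨max (Real.exp (2 * L₂ / η)) 1, ?_⟩
  intro X hX lam hlam A H hA M N hMN hN m hm1 hm2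
  have hXX : Real.exp (2 * L₂ / η) ≤ X := (le_max_left _ _).trans hX
  have hX1 : 1 ≤ X := (le_max_right _ _).trans hX
  have hexpo : 4 * C' * A * (H + 1) * lam / η = 4 * (C' * (A * (H + 1) * (lam / η))) := by ring
  rw [hexpo] at hm1 ⊢
  obtain ⟨x, z, L, m₁, hx1, hz, hL1, hlogX, hm₁, hmX, hrL, hexc, hPN, hcl⟩ :=
    hmain η hη hη1 X hXX lam hlam A H hA M N hN m hm1 hm2
  set θ : ℝ := Real.exp (-Real.exp (4 * (C' * (A * (H + 1) * (lam / η))))) with hθ
  set P : ℕ := primorial ⌊x⌋₊ with hP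
  have hPpos : 0 < P := primorial_pos _
  have hPr : (0:ℝ) < P := by exact_mod_cast hPpos
  have hlam0 : 0 < lam := by linarith
  have hA0 : (1:ℝ) ≤ A := by exact_mod_cast hA
  set s : ℕ := H + 2 * A + 1 with hs
  have hs0 : 0 < s := by omega
  set cls : ℕ → Finset ℤ := fun b => (Ioc (M : ℤ) (M + N)).filter (fun n : ℤ => (P : ℤ) ∣ n - b ∧
      (((range m₁).filter (fun i => CovL z (VL P (4 * (lam / η) * L) A H b
        (s * (i + 1))) n)).card : ℝ) < θ * m) with hcls
  set BadI : Finset ℤ := (range P).biUnion cls with hBadI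
  set Bad := (Ioc M (M + N)).filter (fun n => (((Ioc n (n + m)).filter (fun d =>
      ∀ h ≤ H, LateA A lam (d + h))).card : ℝ) < θ * m) with hBad
  have hzA : 0 ≤ z + A := by linarith
  have hsub : Bad ⊆ Finset.Icc 0 ⌊z + A⌋₊ ∪ BadI.image Int.toNat := by
    intro n hn
    rw [hBad, Finset.mem_filter, Finset.mem_Ioc] at hn
    obtain ⟨⟨hn1, hn2⟩, hnbad⟩ := hn
    rw [Finset.mem_union]
    by_cases hnz : (n : ℝ) ≤ z + A
    · left
      rw [Finset.mem_Icc]
      exact ⟨Nat.zero_le _, Nat.le_floor hnz⟩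
    push Not at hnz
    right
    rw [Finset.mem_image]
    refine ⟨(n : ℤ), ?_, Int.toNat_natCast n⟩
    rw [hBadI, Finset.mem_biUnion]
    set b : ℕ := n % P with hb
    have hbP : b < P := Nat.mod_lt _ hPpos
    refine ⟨b, Finset.mem_range.2 hbP, ?_⟩
    rw [hcls, Finset.mem_filter, Finset.mem_Ioc]
    refine ⟨⟨by exact_mod_cast hn1, by exact_mod_cast hn2⟩, ?_, ?_⟩
    · have h1 := Nat.mod_add_div n P
      rw [← hb] at h1
      refine ⟨((n / P : ℕ) : ℤ), ?_⟩
      have h2 : (b : ℤ) + P * (n / P : ℕ) = n := by exact_mod_cast h1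
      linarith
    · refine lt_of_le_of_lt ?_ hnbad
      rw [Nat.cast_le]
      apply Finset.card_le_card_of_injOn (fun i => n + s * (i + 1))
      · intro i hi
        rw [Finset.mem_coe, Finset.mem_filter, Finset.mem_range] at hi
        rw [Finset.mem_coe, Finset.mem_filter, Finset.mem_Ioc]
        obtain ⟨hi1, hi2⟩ := hi
        have hsi : s * (i + 1) ≤ m := (Nat.mul_le_mul_left _ hi1).trans hm₁
        have hsi0 : 0 < s * (i + 1) := Nat.mul_pos hs0 (Nat.succ_pos _)
        refine ⟨⟨show n < n + s * (i + 1) by omega, show n + s * (i + 1) ≤ n + m by omega⟩, ?_⟩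
        intro h hh
        apply late_of_cov P A H b (s * (i + 1)) n z L lam η hPpos hη hlam0 hA hz hnz
          (Nat.mod_modEq n P).symm hrL hi2 h hh
        have hnX : (n : ℝ) ≤ X := by
          have : (n : ℝ) ≤ (M : ℝ) + N := by exact_mod_cast hn2
          linarith
        have h1 : ((n + s * (i + 1) + h : ℕ) : ℝ) ≤ 2 * X := by
          push_cast
          have h2 : ((s * (i + 1) : ℕ) : ℝ) ≤ m := by exact_mod_cast hsi
          have h3 : (h : ℝ) ≤ H := by exact_mod_cast hh
          push_cast at h2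
          linarith
        have hD0 : (0:ℝ) < ((n + s * (i + 1) + h : ℕ) : ℝ) := by
          have : 0 < n + s * (i + 1) + h := by omega
          exact_mod_cast this
        have hX0 : 0 < X := by linarith
        calc Real.log ((n + s * (i + 1) + h : ℕ) : ℝ) ≤ Real.log (2 * X) := Real.log_le_log hD0 h1
          _ = Real.log 2 + Real.log X := Real.log_mul (by norm_num) hX0.ne'
          _ ≤ 1 + 2 * L / η := by
              rw [hlogX]
              have := Real.log_two_lt_d9
              linarith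
          _ ≤ 3 * L / η := by
              have h4 : 1 ≤ L / η := by
                rw [le_div_iff₀ hη]
                linarith
              have h5 : 3 * L / η = 2 * L / η + L / η := by ring
              linarith
      · intro i _ i' _ h
        have h1 : n + s * (i + 1) = n + s * (i' + 1) := h
        have h2 : s * (i + 1) = s * (i' + 1) := by omega
        have h3 := Nat.eq_of_mul_eq_mul_left hs0 h2
        omega
  have hcard1 : Bad.card ≤ (⌊z + A⌋₊ + 1) + BadI.card := by
    refine (Finset.card_le_card hsub).trans ((Finset.card_union_le _ _).trans ?_)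
    apply add_le_add
    · rw [Nat.card_Icc]; omega
    · exact Finset.card_image_le
  have hcard2 : (BadI.card : ℝ) ≤ P * (1 / 4 * Real.exp (-(lam / η)) * ((N : ℝ) / P)) := by
    have h1 : (BadI.card : ℝ) ≤ ∑ b ∈ range P, ((cls b).card : ℝ) := by
      exact_mod_cast Finset.card_biUnion_le
    refine h1.trans ?_
    calc ∑ b ∈ range P, ((cls b).card : ℝ) ≤
        ∑ _b ∈ range P, (1 / 4 * Real.exp (-(lam / η)) * ((N : ℝ) / P)) := by
          apply Finset.sum_le_sum
          intro b hb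
          exact hcl b (Finset.mem_range.1 hb)
      _ = _ := by rw [Finset.sum_const, Finset.card_range, nsmul_eq_mul]
  have hfin : (P : ℝ) * (1 / 4 * Real.exp (-(lam / η)) * ((N : ℝ) / P)) =
      1 / 4 * Real.exp (-(lam / η)) * N := by field_simp
  have h5 : (Bad.card : ℝ) ≤ (⌊z + A⌋₊ + 1) + BadI.card := by exact_mod_cast hcard1
  have h6 : (⌊z + A⌋₊ : ℝ) ≤ z + A := Nat.floor_le hzA
  have h7 : 0 ≤ Real.exp (-(lam / η)) * N := by positivity
  rw [hfin] at hcard2
  linarith

end Pool.Agent.T2h81.UC
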