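import Pool.Agent.Y831.RC.Surv2
import Pool.Agent.Y831.RC.WWb

set_option autoImplicit false
set_option linter.unusedVariables false
set_option maxHeartbeats 4000000

/-! # The integers without medium prime factors, and classes for the small primes (linear forms) -/

namespace Pool.Agent.T2h81.UC

open Finset Filter Pool.Agent.H256R2.SC Pool.Agent.Y831.RC

open scoped Classical

/-- the integers up to `N` without a prime factor in `(exp Z, y]`, `Z = log y log₃ y / (10 log₂ y)` -/
theorem med_count : ∃ y₀ : ℝ, ∀ y : ℝ, y₀ ≤ y → ∀ N : ℕ, y ≤ N → (N : ℝ) ≤ y * (Real.log y) ^ 2 →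
    (((Finset.Icc 1 N).filter (fun k => ∀ p : ℕ, p.Prime →
      Real.exp (Real.log y * Real.log (Real.log (Real.log y)) / (10 * Real.log (Real.log y))) < p →
      (p : ℝ) ≤ y → ¬ p ∣ k)).card : ℝ) ≤ N * (4 * Real.log (Real.log y) / Real.log y) := by
  obtain ⟨y₁, h1⟩ := smooth_count
  obtain ⟨C, hC, h2⟩ := sum_ratio
  obtain ⟨y₂, h3⟩ : ∃ y₂ : ℝ, ∀ y : ℝ, y₂ ≤ y → 1 ≤ Real.log y ∧ 1 + C ≤ Real.log (Real.log y) := by
    refine ⟨Real.exp (Real.exp (1 + C)), fun y hy => ?_⟩
    have hy0 : 0 < y := (Real.exp_pos _).trans_le hy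
    have e1 : Real.exp (1 + C) ≤ Real.log y := by rw [Real.le_log_iff_exp_le hy0]; exact hy
    have e2 := Real.add_one_le_exp (1 + C)
    have e3 : 0 < Real.log y := by linarith
    exact ⟨by linarith, by rw [Real.le_log_iff_exp_le e3]; exact e1⟩
  refine ⟨max y₁ (max y₂ 2), fun y hy N hyN hN => ?_⟩
  have hy1 : y₁ ≤ y := (le_max_left _ _).trans hy
  have hy2 : y₂ ≤ y := (le_max_left _ _).trans ((le_max_right _ _).trans hy)
  have hy3 : 2 ≤ y := (le_max_right _ _).trans ((le_max_right _ _).trans hy)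
  obtain ⟨g1, g2⟩ := h3 y hy2
  set l := Real.log y with hl
  set l2 := Real.log l with hl2
  have hl0 : 0 < l := by linarith
  have hl20 : 1 ≤ l2 := by linarith
  have hN0 : (0:ℝ) < N := by linarith
  set Z := l * Real.log l2 / (10 * l2) with hZ
  have a1 := card_U0 N (Real.exp Z) y (by linarith)
  have a2 := h1 y hy1 N hyN
  have a3 : (((Finset.Icc 1 N).filter (fun n => ∀ p : ℕ, p.Prime → p ∣ n → (p : ℝ) ≤ Real.exp Z)).card : ℝ) ≤
      N / l ^ 3 := by
    refine le_trans ?_ a2
    rw [Nat.cast_le]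
    apply Finset.card_le_card
    intro k hk
    rw [Finset.mem_filter] at hk ⊢
    refine ⟨hk.1, fun p hp hpk => ?_⟩
    have := hk.2 p hp hpk
    rw [Real.log_le_iff_le_exp (by exact_mod_cast hp.pos)]
    exact this
  have a4 := h2 y N hy3 hyN
  rw [Nat.floor_natCast] at a4
  have hlN : Real.log N ≤ l + 2 * l2 := by
    have e1 : Real.log N ≤ Real.log (y * l ^ 2) := Real.log_le_log hN0 hN
    rw [Real.log_mul (by linarith) (by positivity), Real.log_pow] at e1
    push_cast at e1
    linarith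
  have a5 : Real.log (Real.log N / l) ≤ 2 * l2 / l := by
    have e0 : l ≤ Real.log N := Real.log_le_log (by linarith) hyN
    have e1 := Real.log_le_sub_one_of_pos (show 0 < Real.log N / l from div_pos (by linarith) hl0)
    have e2 : Real.log N / l - 1 ≤ 2 * l2 / l := by
      rw [sub_le_iff_le_add, div_le_iff₀ hl0, add_mul, div_mul_cancel₀ _ hl0.ne', one_mul]
      linarith
    linarith
  have a6 : (N : ℝ) / l ^ 3 ≤ N * (1 / l) := by
    rw [div_eq_mul_one_div]
    apply mul_le_mul_of_nonneg_left _ hN0.le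
    apply one_div_le_one_div_of_le hl0
    have e1 : 1 ≤ l ^ 2 := one_le_pow₀ g1
    nlinarith
  have a7 : (N : ℝ) * ∑ p ∈ (Finset.Ioc ⌊y⌋₊ N).filter Nat.Prime, (1 : ℝ) / p ≤
      N * (2 * l2 / l + C / l) := by
    apply mul_le_mul_of_nonneg_left _ hN0.le
    linarith
  have a8 : (N : ℝ) * (1 / l) + N * (2 * l2 / l + C / l) ≤ N * (4 * l2 / l) := by
    rw [← mul_add]
    apply mul_le_mul_of_nonneg_left _ hN0.le
    rw [← add_div, ← add_div]
    apply div_le_div_of_nonneg_right _ hl0.le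
    linarith
  linarith

/-- exactly one residue kills a linear form with leading coefficient prime to `p` -/
theorem one_residue {p : ℕ} (hp : p.Prime) {k a : ℤ} (hk : ¬ (p : ℤ) ∣ k) :
    (((range p).filter (fun r : ℕ => ¬ (p : ℤ) ∣ k * r + a)).card : ℝ) ≤ p - 1 := by
  have hp1 := hp.one_lt
  obtain ⟨r₀, hr₀, hr₀'⟩ : ∃ r₀ : ℕ, r₀ < p ∧ (p : ℤ) ∣ k * r₀ + a := by
    have hcop : IsCoprime k (p : ℤ) :=
      ((Nat.prime_iff_prime_int.1 hp).coprime_iff_not_dvd.2 hk).symm
    obtain ⟨u, v, huv⟩ := hcop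
    set r : ℤ := (-(a * u)) % p with hr
    have hpz : (p : ℤ) ≠ 0 := by exact_mod_cast hp.ne_zero
    have h1 : 0 ≤ r := Int.emod_nonneg _ hpz
    have h2 : r < p := Int.emod_lt_of_pos _ (by exact_mod_cast hp.pos)
    refine ⟨r.toNat, by omega, ?_⟩
    rw [Int.toNat_of_nonneg h1]
    have h3 : (p : ℤ) ∣ r - (-(a * u)) := by
      rw [hr]
      have := Int.emod_add_mul_ediv (-(a * u)) p
      exact ⟨-((-(a * u)) / p), by linarith⟩
    have h4 : k * r + a = k * (r - (-(a * u))) + (a * v) * p := by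
      have : a = a * (u * k + v * p) := by rw [huv, mul_one]
      calc k * r + a = k * r + a * (u * k + v * p) := by rw [← this]
        _ = _ := by ring
    rw [h4]
    exact dvd_add (Dvd.dvd.mul_left h3 _) (Dvd.intro_left _ rfl)
  have hsub : (range p).filter (fun r : ℕ => ¬ (p : ℤ) ∣ k * r + a) ⊆ (range p).erase r₀ := by
    intro r hr
    rw [Finset.mem_filter] at hr
    rw [Finset.mem_erase]
    refine ⟨fun h => hr.2 (h ▸ hr₀'), hr.1⟩
  have h1 := Finset.card_le_card hsub
  rw [Finset.card_erase_of_mem (Finset.mem_range.2 hr₀), Finset.card_range] at h1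
  have h2 : (((range p).filter (fun r : ℕ => ¬ (p : ℤ) ∣ k * r + a)).card : ℝ) ≤ ((p - 1 : ℕ) : ℝ) := by
    exact_mod_cast h1
  rwa [Nat.cast_sub hp1.le, Nat.cast_one] at h2

/-- classes for the small primes -/
theorem greedyL (S : Finset ℕ) (hS : ∀ p ∈ S, p.Prime) : ∀ R : Finset (ℤ × ℤ), ∃ g : ℕ → ℕ,
    ((R.filter (fun v => ∀ p ∈ S, ¬ (p : ℤ) ∣ v.1 * (g p : ℤ) + v.2)).card : ℝ) ≤
      ∑ v ∈ R, ∏ p ∈ S.filter (fun p : ℕ => ¬ (p : ℤ) ∣ v.1), (1 - 1 / (p : ℝ)) := by
  induction S using Finset.induction_on with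
  | empty =>
    intro R
    refine ⟨fun _ => 0, ?_⟩
    simp
  | insert q S hq ih =>
    intro R
    have hqp : q.Prime := hS q (Finset.mem_insert_self _ _)
    have hq0 : (0:ℝ) < q := by exact_mod_cast hqp.pos
    have hS' : ∀ p ∈ S, p.Prime := fun p hp => hS p (Finset.mem_insert_of_mem hp)
    set W : ℤ × ℤ → ℝ := fun v => ∏ p ∈ S.filter (fun p : ℕ => ¬ (p : ℤ) ∣ v.1), (1 - 1 / (p : ℝ)) with hW
    have hW0 : ∀ v, 0 ≤ W v := by
      intro v
      apply Finset.prod_nonneg
      intro p hp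
      have hpp := hS' p (Finset.mem_filter.1 hp).1
      have : (1:ℝ) ≤ p := by exact_mod_cast hpp.one_lt.le
      have := (div_le_one (by linarith)).2 this
      linarith
    set F : ℕ → ℝ := fun r => ∑ v ∈ R.filter (fun v => ¬ (q : ℤ) ∣ v.1 * (r : ℤ) + v.2), W v with hF
    set Φ : ℝ := ∑ v ∈ R, ∏ p ∈ (insert q S).filter (fun p : ℕ => ¬ (p : ℤ) ∣ v.1), (1 - 1 / (p : ℝ)) with hΦ
    have hsum : ∑ r ∈ range q, F r ≤ q * Φ := by
      have h1 : ∑ r ∈ range q, F r = ∑ v ∈ R, W v *
          (((range q).filter (fun r : ℕ => ¬ (q : ℤ) ∣ v.1 * r + v.2)).card : ℝ) := by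
        simp only [hF, Finset.sum_filter]
        rw [Finset.sum_comm]
        apply Finset.sum_congr rfl
        intro v _
        rw [← Finset.sum_filter, Finset.sum_const, nsmul_eq_mul, mul_comm]
      rw [h1, hΦ, Finset.mul_sum]
      apply Finset.sum_le_sum
      intro v _
      by_cases hv : (q : ℤ) ∣ v.1
      · have h2 : (insert q S).filter (fun p : ℕ => ¬ (p : ℤ) ∣ v.1) = S.filter (fun p : ℕ => ¬ (p : ℤ) ∣ v.1) := by
          rw [Finset.filter_insert, if_neg (not_not.2 hv)]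
        rw [h2, mul_comm]
        apply mul_le_mul_of_nonneg_right _ (hW0 v)
        have h3 := Finset.card_filter_le (range q) (fun r : ℕ => ¬ (q : ℤ) ∣ v.1 * r + v.2)
        rw [Finset.card_range] at h3
        exact_mod_cast h3
      · have h2 : (insert q S).filter (fun p : ℕ => ¬ (p : ℤ) ∣ v.1) =
            insert q (S.filter (fun p : ℕ => ¬ (p : ℤ) ∣ v.1)) := by
          rw [Finset.filter_insert, if_pos hv]
        rw [h2, Finset.prod_insert (fun h => hq (Finset.mem_filter.1 h).1)]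
        have h3 := one_residue hqp (a := v.2) hv
        have h4 : (q : ℝ) * ((1 - 1 / (q : ℝ)) * W v) = W v * (q - 1) := by field_simp
        calc W v * (((range q).filter (fun r : ℕ => ¬ (q : ℤ) ∣ v.1 * r + v.2)).card : ℝ) ≤
            W v * (q - 1) := mul_le_mul_of_nonneg_left h3 (hW0 v)
          _ = q * ((1 - 1 / (q : ℝ)) * W v) := h4.symm
    obtain ⟨r, hr, hrF⟩ : ∃ r ∈ range q, F r ≤ Φ := by
      by_contra hcon
      push Not at hcon
      have h1 : ∑ _r ∈ range q, Φ < ∑ r ∈ range q, F r := by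
        apply Finset.sum_lt_sum_of_nonempty
        · exact ⟨0, Finset.mem_range.2 hqp.pos⟩
        · exact hcon
      rw [Finset.sum_const, Finset.card_range, nsmul_eq_mul] at h1
      linarith
    obtain ⟨g, hg⟩ := ih hS' (R.filter (fun v => ¬ (q : ℤ) ∣ v.1 * (r : ℤ) + v.2))
    refine ⟨fun p => if p = q then r else g p, ?_⟩
    refine le_trans ?_ (hg.trans hrF)
    rw [Nat.cast_le]
    apply Finset.card_le_card
    intro v hv
    rw [Finset.mem_filter] at hv
    rw [Finset.mem_filter, Finset.mem_filter]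
    refine ⟨⟨hv.1, ?_⟩, ?_⟩
    · have := hv.2 q (Finset.mem_insert_self _ _)
      simp only [if_true] at this
      exact this
    · intro p hp
      have h1 := hv.2 p (Finset.mem_insert_of_mem hp)
      have hpq : p ≠ q := fun h => hq (h ▸ hp)
      simp only [if_neg hpq] at h1
      exact h1

end Pool.Agent.T2h81.UC
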