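import Pool.Agent.T2h81.UC.F1
import Pool.Agent.T2h81.UC.C1
import Pool.Agent.T2h81.UC.B3

set_option autoImplicit false
set_option linter.unusedVariables false
set_option maxHeartbeats 4000000

/-! # A class of the modulus with few survivors in the record window -/

namespace Pool.Agent.T2h81.UC

open Finset Filter Pool.Agent.H256R2.SC Pool.Agent.Y831.RC

open scoped Classical

theorem WW_mul {a b : ℝ} (hab : a ≤ b) :
    WW b = WW a * ∏ p ∈ (Finset.Ioc ⌊a⌋₊ ⌊b⌋₊).filter Nat.Prime, (1 - 1 / (p : ℝ)) := by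
  unfold WW
  have hfl : ⌊a⌋₊ ≤ ⌊b⌋₊ := Nat.floor_le_floor hab
  rw [← Finset.prod_union]
  · congr 1
    ext p
    simp only [Finset.mem_union, Finset.mem_filter, Finset.mem_Icc, Finset.mem_Ioc]
    constructor
    · rintro ⟨⟨h1, h2⟩, h3⟩
      by_cases h : p ≤ ⌊a⌋₊
      · left; exact ⟨⟨h1, h⟩, h3⟩
      · right; exact ⟨⟨by omega, h2⟩, h3⟩
    · rintro (⟨⟨h1, h2⟩, h3⟩ | ⟨⟨h1, h2⟩, h3⟩)
      · exact ⟨⟨h1, h2.trans hfl⟩, h3⟩
      · exact ⟨⟨by omega, h2⟩, h3⟩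
  · rw [Finset.disjoint_left]
    intro p hp hp'
    rw [Finset.mem_filter, Finset.mem_Icc] at hp
    rw [Finset.mem_filter, Finset.mem_Ioc] at hp'
    omega

theorem prod_ge_one_sub (s : Finset ℕ) (hs : ∀ p ∈ s, p.Prime) :
    1 - ∑ p ∈ s, (1:ℝ) / p ≤ ∏ p ∈ s, (1 - 1 / (p : ℝ)) := by
  induction s using Finset.induction_on with
  | empty => simp
  | insert q s hq ih =>
    have h1 := ih fun p hp => hs p (Finset.mem_insert_of_mem hp)
    have hqp := hs q (Finset.mem_insert_self _ _)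
    have hq1 : (1:ℝ) ≤ q := by exact_mod_cast hqp.one_lt.le
    have hx0 : 0 ≤ (1:ℝ) / q := by positivity
    have hx1 : (1:ℝ) / q ≤ 1 := by rw [div_le_one (by linarith)]; exact hq1
    have hP : ∏ p ∈ s, (1 - 1 / (p : ℝ)) ≤ 1 := by
      apply Finset.prod_le_one
      · intro p hp
        have : (1:ℝ) ≤ p := by exact_mod_cast (hs p (Finset.mem_insert_of_mem hp)).one_lt.le
        have := (div_le_one (by linarith)).2 this
        linarith
      · intro p hp
        have : (0:ℝ) ≤ 1 / p := by positivity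
        linarith
    rw [Finset.sum_insert hq, Finset.prod_insert hq]
    nlinarith

/-- the weight of a form with leading coefficient `k` -/
theorem weight_le {y E : ℝ} (hy : 2 ≤ y) (hyE : y ≤ E) {k : ℕ} (hk : 0 < k)
    (hk2 : Real.log k / (y * Real.log y) ≤ 1 / 2) :
    ∏ p ∈ ((Finset.Ioc ⌊y⌋₊ ⌊E⌋₊).filter Nat.Prime).filter (fun p : ℕ => ¬ (p : ℤ) ∣ (k : ℤ)),
      (1 - 1 / (p : ℝ)) ≤ 2 * (WW E / WW y) := by
  set S := (Finset.Ioc ⌊y⌋₊ ⌊E⌋₊).filter Nat.Prime with hS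
  have hSp : ∀ p ∈ S, p.Prime := fun p hp => (Finset.mem_filter.1 hp).2
  have h1 := WW_mul hyE
  rw [← hS] at h1
  have hWy := WW_pos y
  have h2 : WW E / WW y = ∏ p ∈ S, (1 - 1 / (p : ℝ)) := by
    rw [h1]
    field_simp
  have h3 : (∏ p ∈ S.filter (fun p : ℕ => (p : ℤ) ∣ (k : ℤ)), (1 - 1 / (p : ℝ))) *
      ∏ p ∈ S.filter (fun p : ℕ => ¬ (p : ℤ) ∣ (k : ℤ)), (1 - 1 / (p : ℝ)) = ∏ p ∈ S, (1 - 1 / (p : ℝ)) :=
    Finset.prod_filter_mul_prod_filter_not S _ _
  have h4 : 1 / 2 ≤ ∏ p ∈ S.filter (fun p : ℕ => (p : ℤ) ∣ (k : ℤ)), (1 - 1 / (p : ℝ)) := by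
    refine le_trans ?_ (prod_ge_one_sub _ (fun p hp => hSp p (Finset.mem_filter.1 hp).1))
    have h5 : ∑ p ∈ S.filter (fun p : ℕ => (p : ℤ) ∣ (k : ℤ)), (1:ℝ) / p ≤
        ∑ p ∈ k.primeFactors.filter (fun p : ℕ => y < p), (1:ℝ) / p := by
      apply Finset.sum_le_sum_of_subset_of_nonneg
      · intro p hp
        rw [Finset.mem_filter] at hp
        obtain ⟨hp1, hp2⟩ := hp
        rw [hS, Finset.mem_filter, Finset.mem_Ioc] at hp1
        rw [Finset.mem_filter, Nat.mem_primeFactors]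
        exact ⟨⟨hp1.2, Int.natCast_dvd_natCast.1 hp2, by omega⟩, Nat.lt_of_floor_lt hp1.1.1⟩
      · intro p _ _
        positivity
    have h6 := sum_large k hk y (by linarith)
    linarith
  have h5 : 0 ≤ ∏ p ∈ S.filter (fun p : ℕ => ¬ (p : ℤ) ∣ (k : ℤ)), (1 - 1 / (p : ℝ)) := by
    apply Finset.prod_nonneg
    intro p hp
    have : (1:ℝ) ≤ p := by exact_mod_cast (hSp p (Finset.mem_filter.1 hp).1).one_lt.le
    have := (div_le_one (by linarith)).2 this
    linarith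
  rw [h2, ← h3]
  nlinarith

theorem ev_cls (A K : ℝ) : ∃ x₀ : ℝ, ∀ x : ℝ, x₀ ≤ x → 1 ≤ x ∧ 2 ≤ Real.log x ∧ A ≤ Real.log x ∧
    4 ≤ Real.log (Real.log x) ∧ 1 ≤ Real.log (Real.log (Real.log x)) ∧
    Real.log (Real.log (Real.log x)) ≤ Real.log (Real.log x) ∧ K * Real.log x ≤ x ∧
    10 * (Real.log (Real.log x)) ^ 2 ≤ Real.log x * Real.log (Real.log (Real.log x)) := by
  obtain ⟨X₀, h⟩ := ev4 (max 40 (max A K))
  obtain ⟨x₁, h1⟩ : ∃ x₁ : ℝ, ∀ x : ℝ, x₁ ≤ x → 10 * (Real.log (Real.log x)) ^ 2 ≤ Real.log x := by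
    have h1 := (isLittleO_log_rpow_rpow_atTop (r := 2) (s := 1) one_pos).def (show (0:ℝ) < 1 / 10 by norm_num)
    obtain ⟨y₁, hy₁⟩ := Filter.eventually_atTop.1 (h1.and (eventually_ge_atTop (1:ℝ)))
    refine ⟨Real.exp y₁, fun x hx => ?_⟩
    have hx0 : 0 < x := (Real.exp_pos _).trans_le hx
    have e1 : y₁ ≤ Real.log x := by rw [Real.le_log_iff_exp_le hx0]; exact hx
    obtain ⟨e2, e3⟩ := hy₁ _ e1
    have e4 : 0 ≤ Real.log (Real.log x) := Real.log_nonneg e3
    rw [Real.rpow_one, Real.rpow_two, Real.norm_of_nonneg (by positivity), Real.norm_of_nonneg (by linarith)] at e2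
    linarith
  obtain ⟨x₂, h2⟩ : ∃ x₂ : ℝ, ∀ x : ℝ, x₂ ≤ x → (|K| + 1) * Real.log x ≤ x ∧
      Real.exp (Real.exp (Real.exp (max 40 (max A K)))) ≤ x := by
    have h2 := (isLittleO_log_rpow_atTop (show (0:ℝ) < 1 by norm_num)).def
      (show (0:ℝ) < 1 / (|K| + 1) by positivity)
    obtain ⟨y₁, hy₁⟩ := Filter.eventually_atTop.1 (h2.and (eventually_ge_atTop (1:ℝ)))
    refine ⟨max y₁ (Real.exp (Real.exp (Real.exp (max 40 (max A K))))), fun x hx => ?_⟩
    refine ⟨?_, (le_max_right _ _).trans hx⟩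
    obtain ⟨e2, e3⟩ := hy₁ _ ((le_max_left _ _).trans hx)
    rw [Real.rpow_one, Real.norm_of_nonneg (Real.log_nonneg e3), Real.norm_of_nonneg (by linarith)] at e2
    rw [one_div, inv_mul_eq_div, le_div_iff₀ (by positivity)] at e2
    linarith
  refine ⟨max (max X₀ x₁) x₂, fun x hx => ?_⟩
  obtain ⟨g1, g2, g3, g4, g5, g6⟩ := h x ((le_max_left _ _).trans ((le_max_left _ _).trans hx))
  have g7 := h1 x ((le_max_right _ _).trans ((le_max_left _ _).trans hx))
  obtain ⟨g9, g8⟩ := h2 x ((le_max_right _ _).trans hx)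
  have k1 : (40:ℝ) ≤ max 40 (max A K) := le_max_left _ _
  have k2 : A ≤ max 40 (max A K) := (le_max_left _ _).trans (le_max_right _ _)
  have k3 : K ≤ max 40 (max A K) := (le_max_right _ _).trans (le_max_right _ _)
  set K' := max 40 (max A K) with hK'
  have hx0 : 0 < x := by linarith
  have a1 : Real.exp (Real.exp K') ≤ Real.log x := by rw [Real.le_log_iff_exp_le hx0]; exact g8
  have a1' : 0 < Real.log x := (Real.exp_pos _).trans_le a1
  have a2 : Real.exp K' ≤ Real.log (Real.log x) := by rw [Real.le_log_iff_exp_le a1']; exact a1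
  have a2' : 0 < Real.log (Real.log x) := (Real.exp_pos _).trans_le a2
  have a3 : K' ≤ Real.log (Real.log (Real.log x)) := by rw [Real.le_log_iff_exp_le a2']; exact a2
  have a4 := Real.add_one_le_exp K'
  have a5 := Real.add_one_le_exp (Real.exp K')
  have a6 : Real.log (Real.log (Real.log x)) ≤ Real.log (Real.log x) :=
    (Real.log_le_sub_one_of_pos a2').trans (by linarith)
  have hl3 : 1 ≤ Real.log (Real.log (Real.log x)) := by linarith
  refine ⟨g1, by linarith, by linarith, by linarith, hl3, a6, ?_, ?_⟩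
  · have : K * Real.log x ≤ (|K| + 1) * Real.log x :=
      mul_le_mul_of_nonneg_right (by linarith [le_abs_self K]) a1'.le
    linarith
  · nlinarith

end Pool.Agent.T2h81.UC
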