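import Pool.Agent.T2h81.UC.F2

set_option autoImplicit false
set_option linter.unusedVariables false
set_option maxHeartbeats 4000000

/-! # A class of the modulus with few survivors in the record window (2) -/

namespace Pool.Agent.T2h81.UC

open Finset Filter Pool.Agent.H256R2.SC Pool.Agent.Y831.RC

open scoped Classical

/-- the pairs `(k, a)`, `k ≤ N`, `0 < |a| ≤ A`, for which `k b + a` has no prime factor in `(log x, x]` -/
noncomputable def SR (x : ℝ) (N A : ℕ) (b : ℕ) : Finset (ℕ × ℤ) :=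
  (Finset.Icc 1 N ×ˢ Finset.Icc (-(A : ℤ)) (A : ℤ)).filter (fun q : ℕ × ℤ => q.2 ≠ 0 ∧
    ∀ p : ℕ, p.Prime → Real.log x < p → (p : ℝ) ≤ x → ¬ (p : ℤ) ∣ (q.1 : ℤ) * b + q.2)

theorem med_pairs (A N : ℕ) (E x U : ℝ) (hAN : A ≤ N)
    (h : (((Finset.Icc 1 (N + A)).filter (fun k => ∀ p : ℕ, p.Prime → E < p → (p : ℝ) ≤ x → ¬ p ∣ k)).card : ℝ) ≤ U) :
    ((((Finset.Icc 1 N ×ˢ Finset.Icc (-(A : ℤ)) (A : ℤ)).filter (fun q : ℕ × ℤ =>
      ∀ p : ℕ, p.Prime → E < p → (p : ℝ) ≤ x → ¬ (p : ℤ) ∣ (q.1 : ℤ) - q.2)).card : ℕ) : ℝ) ≤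
      (2 * A + 1) * (A + U) := by
  set G := (Finset.Icc 1 (N + A)).filter (fun k => ∀ p : ℕ, p.Prime → E < p → (p : ℝ) ≤ x → ¬ p ∣ k) with hG
  set T : ℤ → Finset ℕ := fun a => (Finset.Icc 1 N).filter (fun k =>
    ∀ p : ℕ, p.Prime → E < p → (p : ℝ) ≤ x → ¬ (p : ℤ) ∣ (k : ℤ) - a) with hT
  have h1 : (Finset.Icc 1 N ×ˢ Finset.Icc (-(A : ℤ)) (A : ℤ)).filter (fun q : ℕ × ℤ =>
      ∀ p : ℕ, p.Prime → E < p → (p : ℝ) ≤ x → ¬ (p : ℤ) ∣ (q.1 : ℤ) - q.2) ⊆
      (Finset.Icc (-(A : ℤ)) (A : ℤ)).biUnion (fun a => (T a).image (fun k => (k, a))) := by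
    rintro ⟨k, a⟩ hq
    rw [Finset.mem_filter, Finset.mem_product] at hq
    rw [Finset.mem_biUnion]
    exact ⟨a, hq.1.2, Finset.mem_image.2 ⟨k, Finset.mem_filter.2 ⟨hq.1.1, hq.2⟩, rfl⟩⟩
  have h2 : ∀ a ∈ Finset.Icc (-(A : ℤ)) (A : ℤ), (((T a).image (fun k => (k, a))).card : ℝ) ≤ A + U := by
    intro a ha
    rw [Finset.mem_Icc] at ha
    have h3 : T a ⊆ Finset.Icc 1 A ∪ G.image (fun m : ℕ => ((m : ℤ) + a).toNat) := by
      intro k hk
      rw [hT, Finset.mem_filter, Finset.mem_Icc] at hk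
      rw [Finset.mem_union]
      by_cases hka : (k : ℤ) ≤ a
      · left
        rw [Finset.mem_Icc]
        omega
      · right
        rw [Finset.mem_image]
        refine ⟨((k : ℤ) - a).toNat, ?_, ?_⟩
        · rw [hG, Finset.mem_filter, Finset.mem_Icc]
          refine ⟨by omega, ?_⟩
          intro p hp hpE hpx hdvd
          apply hk.2 p hp hpE hpx
          have := Int.natCast_dvd_natCast.2 hdvd
          rwa [Int.toNat_of_nonneg (by omega)] at this
        · omega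
    have h4 := (Finset.card_le_card h3).trans ((Finset.card_union_le _ _).trans
      (Nat.add_le_add_left Finset.card_image_le _))
    rw [Nat.card_Icc] at h4
    have h5 : ((T a).image (fun k => (k, a))).card ≤ A + G.card := by
      refine Finset.card_image_le.trans ?_
      omega
    have h6 : ((((T a).image (fun k => (k, a))).card : ℕ) : ℝ) ≤ A + G.card := by exact_mod_cast h5
    linarith
  have h3 := (Finset.card_le_card h1).trans Finset.card_biUnion_le
  have h4 : ((((Finset.Icc 1 N ×ˢ Finset.Icc (-(A : ℤ)) (A : ℤ)).filter (fun q : ℕ × ℤ =>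
      ∀ p : ℕ, p.Prime → E < p → (p : ℝ) ≤ x → ¬ (p : ℤ) ∣ (q.1 : ℤ) - q.2)).card : ℕ) : ℝ) ≤
      ∑ a ∈ Finset.Icc (-(A : ℤ)) (A : ℤ), (((T a).image (fun k => (k, a))).card : ℝ) := by exact_mod_cast h3
  refine h4.trans ((Finset.sum_le_sum h2).trans (le_of_eq ?_))
  rw [Finset.sum_const, Int.card_Icc, nsmul_eq_mul]
  have : ((A : ℤ) + 1 - -(A : ℤ)).toNat = 2 * A + 1 := by omega
  rw [this]
  push_cast
  ring

theorem class_rec (A : ℕ) (hA : 1 ≤ A) : ∃ C x₀ : ℝ, 0 < C ∧ ∀ x : ℝ, x₀ ≤ x → ∀ N : ℕ, x ≤ N →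
    ((N + A : ℕ) : ℝ) ≤ x * (Real.log x) ^ 2 → ∃ b : ℕ, b < primorial ⌊x⌋₊ ∧
      (∀ p : ℕ, p.Prime → A < p → (p : ℝ) ≤ Real.log x → p ∣ b) ∧
      (∀ p : ℕ, p.Prime → p ≤ A → b ≡ 1 [MOD p]) ∧
      ((SR x N A b).card : ℝ) ≤ C * N * (Real.log (Real.log x)) ^ 3 /
        ((Real.log x) ^ 2 * Real.log (Real.log (Real.log x))) := by
  obtain ⟨y₀, hmed⟩ := med_count
  obtain ⟨cw, Cw, hcw, hcwC, hWb⟩ := WW_bounds
  obtain ⟨x₁, hev⟩ := ev_cls A (A : ℝ)
  have hCw : 0 < Cw := hcw.trans_le hcwC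
  have hAr : (1:ℝ) ≤ A := by exact_mod_cast hA
  refine ⟨(2 * A + 1) * 9 * (20 * Cw / cw), max y₀ x₁, by positivity, ?_⟩
  intro x hx N hxN hN
  have hy₀ : y₀ ≤ x := (le_max_left _ _).trans hx
  obtain ⟨g1, g2, g3, g4, g5, g6, g7, g8⟩ := hev x ((le_max_right _ _).trans hx)
  set l := Real.log x with hl
  set l2 := Real.log l with hl2
  set l3 := Real.log l2 with hl3
  have hx0 : 0 < x := by linarith
  have hl0 : 0 < l := by linarith
  have hl20 : 0 < l2 := by linarith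
  have hl30 : 0 < l3 := by linarith
  have hN0 : (0:ℝ) < N := by linarith
  set Z : ℝ := l * l3 / (10 * l2) with hZ
  have hZl2 : l2 ≤ Z := by
    rw [hZ, le_div_iff₀ (by positivity)]
    nlinarith only [g8]
  have hZl : Z ≤ l := by
    rw [hZ, div_le_iff₀ (by positivity)]
    nlinarith only [g6, hl0, hl20, hl30]
  have hZ0 : 0 < Z := by linarith
  have hlE : l ≤ Real.exp Z := by
    rw [← Real.exp_log hl0]
    exact Real.exp_le_exp.2 hZl2
  have hEx : Real.exp Z ≤ x := by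
    rw [← Real.exp_log hx0]
    exact Real.exp_le_exp.2 hZl
  set E := Real.exp Z with hE
  have hAN : A ≤ N := by
    have : (A : ℝ) ≤ N := by nlinarith only [g7, g2, hxN, hAr]
    exact_mod_cast this
  -- the pairs which are not covered by the medium primes
  set R₀ : Finset (ℕ × ℤ) := (Finset.Icc 1 N ×ˢ Finset.Icc (-(A : ℤ)) (A : ℤ)).filter (fun q : ℕ × ℤ =>
      ∀ p : ℕ, p.Prime → E < p → (p : ℝ) ≤ x → ¬ (p : ℤ) ∣ (q.1 : ℤ) - q.2) with hR₀
  have hxNA : x ≤ ((N + A : ℕ) : ℝ) := by push_cast; linarith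
  have hm := hmed x hy₀ (N + A) hxNA hN
  have hR₀c := med_pairs A N E x _ hAN hm
  rw [← hR₀] at hR₀c
  have hq : 0 < l2 / l := by positivity
  have hUb : (A : ℝ) + ((N + A : ℕ) : ℝ) * (4 * l2 / l) ≤ 9 * (N * (l2 / l)) := by
    have e1 : ((N + A : ℕ) : ℝ) ≤ 2 * N := by
      have : (A : ℝ) ≤ N := by exact_mod_cast hAN
      push_cast
      linarith
    have e2 : ((N + A : ℕ) : ℝ) * (4 * l2 / l) ≤ 2 * N * (4 * l2 / l) :=
      mul_le_mul_of_nonneg_right e1 (by positivity)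
    have e3 : (A : ℝ) ≤ N * (l2 / l) := by
      rw [mul_div_assoc', le_div_iff₀ hl0]
      have : (N : ℝ) * 1 ≤ N * l2 := mul_le_mul_of_nonneg_left (by linarith) hN0.le
      linarith
    have e4 : 2 * (N : ℝ) * (4 * l2 / l) = 8 * (N * (l2 / l)) := by ring
    linarith
  -- the small primes
  set S : Finset ℕ := (Finset.Ioc ⌊l⌋₊ ⌊E⌋₊).filter Nat.Prime with hS
  have hSp : ∀ p ∈ S, p.Prime := fun p hp => (Finset.mem_filter.1 hp).2
  set R : Finset (ℤ × ℤ) := R₀.image (fun q : ℕ × ℤ => ((q.1 : ℤ), q.2)) with hR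
  obtain ⟨g, hg⟩ := greedyL S hSp R
  have hW : ∀ v ∈ R, ∏ p ∈ S.filter (fun p : ℕ => ¬ (p : ℤ) ∣ v.1), (1 - 1 / (p : ℝ)) ≤
      20 * Cw / cw * (l2 ^ 2 / (l * l3)) := by
    intro v hv
    rw [hR, Finset.mem_image] at hv
    obtain ⟨⟨k, a⟩, hq, rfl⟩ := hv
    rw [hR₀, Finset.mem_filter, Finset.mem_product, Finset.mem_Icc] at hq
    obtain ⟨⟨⟨hk1, hkN⟩, ha⟩, -⟩ := hq
    simp only at hk1 hkN
    have hk0 : (0:ℝ) < k := by exact_mod_cast hk1
    have hlogk : Real.log k ≤ 2 * l := by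
      have e1 : (k : ℝ) ≤ x * l ^ 2 := by
        have : (k : ℝ) ≤ N := by exact_mod_cast hkN
        have e2 : (N : ℝ) ≤ ((N + A : ℕ) : ℝ) := by push_cast; linarith
        linarith
      have e2 := Real.log_le_log hk0 e1
      rw [Real.log_mul hx0.ne' (by positivity), Real.log_pow] at e2
      push_cast at e2
      have e3 : 2 * l2 ≤ l := by nlinarith only [g8, g6, hl20, hl30, hl0, g4]
      linarith
    have h1 := weight_le (y := l) (E := E) g2 hlE (k := k) hk1 (by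
      rw [div_le_iff₀ (by positivity)]
      have : 4 * l ≤ l2 * l := mul_le_mul_of_nonneg_right g4 hl0.le
      linarith)
    refine h1.trans ?_
    have h2 := (hWb E (by linarith)).2
    have h3 := (hWb l g2).1
    have hlogE : Real.log E = Z := by rw [hE, Real.log_exp]
    rw [hlogE] at h2
    have h4 : WW E ≤ Cw / Z := by rw [le_div_iff₀ hZ0]; exact h2
    have h5 : cw / l2 ≤ WW l := by rw [div_le_iff₀ hl20]; exact h3
    have h6 : WW E / WW l ≤ (Cw / Z) / (cw / l2) :=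
      div_le_div₀ (by positivity) h4 (by positivity) h5
    have h7 : 2 * ((Cw / Z) / (cw / l2)) = 20 * Cw / cw * (l2 ^ 2 / (l * l3)) := by
      rw [hZ]
      field_simp
      ring
    linarith
  have hgb : ((R.filter (fun v => ∀ p ∈ S, ¬ (p : ℤ) ∣ v.1 * (g p : ℤ) + v.2)).card : ℝ) ≤
      R.card * (20 * Cw / cw * (l2 ^ 2 / (l * l3))) := by
    refine hg.trans ((Finset.sum_le_sum hW).trans (le_of_eq ?_))
    rw [Finset.sum_const, nsmul_eq_mul]
  -- the class
  obtain ⟨b, hb1, hb2⟩ := Pool.Agent.H256R2.SC.LG.exists_crt ⌊x⌋₊ (fun p => if p ≤ A then 1 else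
    if (p : ℝ) ≤ l then 0 else if (p : ℝ) ≤ E then g p else p - 1)
  have hfl : ∀ p : ℕ, (p : ℝ) ≤ x → p ≤ ⌊x⌋₊ := fun p hp => Nat.le_floor hp
  refine ⟨b, hb1, ?_, ?_, ?_⟩
  · intro p hp hpA hpl
    have h1 := hb2 p hp (hfl p (by linarith))
    simp only [if_neg (not_le.2 hpA), if_pos hpl] at h1
    exact (Nat.modEq_zero_iff_dvd).1 h1
  · intro p hp hpA
    have hpr : (p : ℝ) ≤ A := by exact_mod_cast hpA
    have h1 := hb2 p hp (hfl p (by linarith))
    simp only [if_pos hpA] at h1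
    exact h1
  · have hAl : ∀ p : ℕ, l < (p : ℝ) → ¬ p ≤ A := by
      intro p hp h
      have : (p : ℝ) ≤ A := by exact_mod_cast h
      linarith
    have hinj : (SR x N A b).card ≤ (R.filter (fun v => ∀ p ∈ S, ¬ (p : ℤ) ∣ v.1 * (g p : ℤ) + v.2)).card := by
      apply Finset.card_le_card_of_injOn (fun q : ℕ × ℤ => ((q.1 : ℤ), q.2))
      · rintro ⟨k, a⟩ hq
        rw [Finset.mem_coe] at hq
        unfold SR at hq
        rw [Finset.mem_filter] at hq
        obtain ⟨h1, h2, h3⟩ := hq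
        simp only at h2 h3
        rw [Finset.mem_coe, Finset.mem_filter]
        refine ⟨?_, ?_⟩
        · rw [hR, Finset.mem_image]
          refine ⟨(k, a), ?_, rfl⟩
          rw [hR₀, Finset.mem_filter]
          refine ⟨h1, ?_⟩
          intro p hp hpE hpx hdvd
          simp only at hdvd
          apply h3 p hp (by linarith) hpx
          have h4 := hb2 p hp (hfl p hpx)
          simp only [if_neg (hAl p (by linarith)), if_neg (not_le.2 (lt_of_le_of_lt hlE hpE)),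
            if_neg (not_le.2 hpE)] at h4
          have h5 : (p : ℤ) ∣ (b : ℤ) + 1 := by
            have h6 : b + 1 ≡ p - 1 + 1 [MOD p] := h4.add_right 1
            rw [Nat.sub_add_cancel hp.one_lt.le] at h6
            have h7 : p ∣ b + 1 := (Nat.modEq_zero_iff_dvd).1 (h6.trans ((Nat.modEq_zero_iff_dvd).2 dvd_rfl))
            exact_mod_cast Int.natCast_dvd_natCast.2 h7
          have h6 : (k : ℤ) * b + a = k * (b + 1) - (k - a) := by ring
          rw [h6]
          exact dvd_sub (Dvd.dvd.mul_left h5 _) hdvd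
        · intro p hp hdvd
          simp only at hdvd
          have hpp := hSp p hp
          rw [hS, Finset.mem_filter, Finset.mem_Ioc] at hp
          have hpl : l < p := Nat.lt_of_floor_lt hp.1.1
          have hpE : (p : ℝ) ≤ E := (Nat.le_floor_iff (Real.exp_pos _).le).1 hp.1.2
          apply h3 p hpp hpl (hpE.trans hEx)
          have h4 := hb2 p hpp (hfl p (hpE.trans hEx))
          simp only [if_neg (hAl p hpl), if_neg (not_le.2 hpl), if_pos hpE] at h4
          have h5 : (p : ℤ) ∣ (b : ℤ) - g p := (Int.natCast_modEq_iff.2 h4).symm.dvd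
          have h6 : (k : ℤ) * b + a = k * (b - g p) + (k * g p + a) := by ring
          rw [h6]
          exact dvd_add (Dvd.dvd.mul_left h5 _) hdvd
      · rintro ⟨k, a⟩ _ ⟨k', a'⟩ _ h
        simp only [Prod.mk.injEq] at h
        rw [Prod.mk.injEq]
        exact ⟨by exact_mod_cast h.1, h.2⟩
    have h1 : ((SR x N A b).card : ℝ) ≤ R.card * (20 * Cw / cw * (l2 ^ 2 / (l * l3))) := by
      refine le_trans ?_ hgb
      exact_mod_cast hinj
    have h2 : (R.card : ℝ) ≤ (2 * A + 1) * (9 * (N * (l2 / l))) := by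
      have e1 : (R.card : ℝ) ≤ R₀.card := by
        rw [hR]
        exact_mod_cast Finset.card_image_le
      refine e1.trans (hR₀c.trans ?_)
      apply mul_le_mul_of_nonneg_left _ (by positivity)
      exact hUb
    refine h1.trans ?_
    calc (R.card : ℝ) * (20 * Cw / cw * (l2 ^ 2 / (l * l3))) ≤
        ((2 * A + 1) * (9 * (N * (l2 / l)))) * (20 * Cw / cw * (l2 ^ 2 / (l * l3))) :=
          mul_le_mul_of_nonneg_right h2 (by positivity)
      _ = _ := by
          field_simp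

end Pool.Agent.T2h81.UC
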