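import Pool.Agent.T2h81.UC.F3
import Pool.Agent.T2h81.UC.E2

set_option autoImplicit false
set_option linter.unusedVariables false
set_option maxHeartbeats 4000000

/-! # The record windows of linear forms -/

namespace Pool.Agent.T2h81.UC

open Finset Filter Pool.Agent.H256R2.SC Pool.Agent.Y831.RC

open scoped Classical

/-- the forms `k n + (a + k t)`, `k ≤ N`, `0 < |a| ≤ A`, `(k, a) = 1` -/
noncomputable def VR (N A t : ℕ) : Finset (ℤ × ℤ) :=
  ((Finset.Icc 1 N ×ˢ Finset.Icc (-(A : ℤ)) (A : ℤ)).filter (fun q : ℕ × ℤ => q.2 ≠ 0 ∧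
    IsCoprime (q.1 : ℤ) q.2)).image (fun q : ℕ × ℤ => ((q.1 : ℤ), q.2 + (q.1 : ℤ) * t))

theorem mem_VR {N A t : ℕ} {v : ℤ × ℤ} : v ∈ VR N A t ↔ ∃ (k : ℕ) (a : ℤ), 1 ≤ k ∧ k ≤ N ∧
    -(A : ℤ) ≤ a ∧ a ≤ A ∧ a ≠ 0 ∧ IsCoprime (k : ℤ) a ∧ v = ((k : ℤ), a + k * t) := by
  unfold VR
  rw [Finset.mem_image]
  constructor
  · rintro ⟨⟨k, a⟩, h, rfl⟩
    rw [Finset.mem_filter, Finset.mem_product, Finset.mem_Icc, Finset.mem_Icc] at h
    exact ⟨k, a, h.1.1.1, h.1.1.2, h.1.2.1, h.1.2.2, h.2.1, h.2.2, rfl⟩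
  · rintro ⟨k, a, h1, h2, h3, h4, h5, h6, rfl⟩
    refine ⟨(k, a), ?_, rfl⟩
    rw [Finset.mem_filter, Finset.mem_product, Finset.mem_Icc, Finset.mem_Icc]
    exact ⟨⟨⟨h1, h2⟩, ⟨h3, h4⟩⟩, h5, h6⟩

/-- the product of the primes in `(log x, x]` -/
noncomputable def Pm (x : ℝ) : ℕ := ∏ p ∈ (Finset.Ioc ⌊Real.log x⌋₊ ⌊x⌋₊).filter Nat.Prime, p

theorem Pm_dvd {x : ℝ} : Pm x ∣ primorial ⌊x⌋₊ := by
  unfold Pm primorial
  apply Finset.prod_dvd_prod_of_subset
  intro p hp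
  rw [Finset.mem_filter, Finset.mem_Ioc] at hp
  rw [Finset.mem_filter, Finset.mem_range]
  exact ⟨by omega, hp.2⟩

theorem dvd_Pm {x : ℝ} (hx : 0 ≤ x) {p : ℕ} (hp : p.Prime) (h1 : Real.log x < p) (h2 : (p : ℝ) ≤ x) :
    p ∣ Pm x := by
  unfold Pm
  apply Finset.dvd_prod_of_mem
  rw [Finset.mem_filter, Finset.mem_Ioc]
  exact ⟨⟨Nat.floor_lt' hp.ne_zero |>.2 h1, Nat.le_floor h2⟩, hp⟩

theorem sv_VR {x : ℝ} (hx : 0 ≤ x) (N A b t : ℕ) (ht : primorial ⌊x⌋₊ ∣ t) :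
    ((svL (Pm x) (b : ℤ) (VR N A t)).card : ℝ) ≤ (SR x N A b).card := by
  rw [Nat.cast_le]
  have h1 : svL (Pm x) (b : ℤ) (VR N A t) ⊆ (SR x N A b).image
      (fun q : ℕ × ℤ => ((q.1 : ℤ), q.2 + (q.1 : ℤ) * t)) := by
    intro v hv
    unfold svL at hv
    rw [Finset.mem_filter, mem_VR] at hv
    obtain ⟨⟨k, a, h1, h2, h3, h4, h5, h6, rfl⟩, h7⟩ := hv
    rw [Finset.mem_image]
    refine ⟨(k, a), ?_, rfl⟩
    unfold SR
    rw [Finset.mem_filter, Finset.mem_product, Finset.mem_Icc, Finset.mem_Icc]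
    refine ⟨⟨⟨h1, h2⟩, ⟨h3, h4⟩⟩, h5, ?_⟩
    intro p hp hp1 hp2 hdvd
    simp only at hdvd h7
    have hpP : p ∣ primorial ⌊x⌋₊ := (dvd_Pm hx hp hp1 hp2).trans Pm_dvd
    have h8 : (p : ℤ) ∣ (t : ℤ) := Int.natCast_dvd_natCast.2 (hpP.trans ht)
    have h9 : (p : ℤ) ∣ (k : ℤ) * b + (a + k * t) := by
      have : (k : ℤ) * b + (a + k * t) = (k * b + a) + k * t := by ring
      rw [this]
      exact dvd_add hdvd (Dvd.dvd.mul_left h8 _)
    have h10 : (p : ℤ) ∣ ((Pm x : ℕ) : ℤ) := Int.natCast_dvd_natCast.2 (dvd_Pm hx hp hp1 hp2)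
    have h11 : (p : ℤ) ∣ (Int.gcd ((k : ℤ) * b + (a + k * t)) ((Pm x : ℕ) : ℤ) : ℤ) := Int.dvd_coe_gcd h9 h10
    rw [h7] at h11
    have := Int.eq_one_of_dvd_one (by positivity) h11
    have h12 := hp.one_lt
    omega
  exact (Finset.card_le_card h1).trans Finset.card_image_le

theorem VR_pos {N A t : ℕ} {v : ℤ × ℤ} (hv : v ∈ VR N A t) : 1 ≤ v.1 ∧ v.1 ≤ N := by
  obtain ⟨k, a, h1, h2, h3, h4, h5, h6, rfl⟩ := mem_VR.1 hv
  simp only
  omega

/-- determinants inside one window -/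
theorem VR_in {N A t : ℕ} {v v' : ℤ × ℤ} (hv : v ∈ VR N A t) (hv' : v' ∈ VR N A t) (hne : v ≠ v') :
    dtm v v' ≠ 0 ∧ |dtm v v'| ≤ 2 * A * N := by
  obtain ⟨k, a, h1, h2, h3, h4, h5, h6, rfl⟩ := mem_VR.1 hv
  obtain ⟨k', a', h1', h2', h3', h4', h5', h6', rfl⟩ := mem_VR.1 hv'
  have hd : dtm ((k : ℤ), a + k * t) ((k' : ℤ), a' + k' * t) = k * a' - k' * a := by
    unfold dtm
    ring
  rw [hd]
  constructor
  · intro hz
    apply hne
    have e1 : (k : ℤ) ∣ k' * a := ⟨a', by linarith⟩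
    have e2 : (k' : ℤ) ∣ k * a' := ⟨a, by linarith⟩
    have e3 : (k : ℤ) ∣ k' := h6.dvd_of_dvd_mul_right e1
    have e4 : (k' : ℤ) ∣ k := h6'.dvd_of_dvd_mul_right e2
    have e5 : k = k' := Nat.dvd_antisymm (Int.natCast_dvd_natCast.1 e3) (Int.natCast_dvd_natCast.1 e4)
    subst e5
    have e6 : (k : ℤ) * (a' - a) = 0 := by linarith
    have hk0 : (k : ℤ) ≠ 0 := by omega
    have e7 := (mul_eq_zero.1 e6).resolve_left hk0
    have e8 : a' = a := by linarith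
    rw [e8]
  · have ha : |a| ≤ A := abs_le.2 ⟨h3, h4⟩
    have ha' : |a'| ≤ A := abs_le.2 ⟨h3', h4'⟩
    have hk : |(k : ℤ)| ≤ N := by rw [abs_of_nonneg (by omega)]; exact_mod_cast h2
    have hk' : |(k' : ℤ)| ≤ N := by rw [abs_of_nonneg (by omega)]; exact_mod_cast h2'
    calc |(k : ℤ) * a' - k' * a| ≤ |(k : ℤ) * a'| + |(k' : ℤ) * a| := abs_sub _ _
      _ = |(k : ℤ)| * |a'| + |(k' : ℤ)| * |a| := by rw [abs_mul, abs_mul]
      _ ≤ N * A + N * A := by
          apply add_le_add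
          · exact mul_le_mul hk ha' (abs_nonneg _) (by positivity)
          · exact mul_le_mul hk' ha (abs_nonneg _) (by positivity)
      _ = 2 * A * N := by ring

/-- determinants between two windows -/
theorem VR_cross {N A t t' P : ℕ} {v v' : ℤ × ℤ} (hv : v ∈ VR N A t) (hv' : v' ∈ VR N A t')
    (hP : 2 * A * N < P) (ht : P ∣ t) (ht' : P ∣ t') (hne : t ≠ t') :
    dtm v v' ≠ 0 ∧ |dtm v v'| ≤ 2 * A * N + N * N * (t + t') := by
  obtain ⟨k, a, h1, h2, h3, h4, h5, h6, rfl⟩ := mem_VR.1 hv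
  obtain ⟨k', a', h1', h2', h3', h4', h5', h6', rfl⟩ := mem_VR.1 hv'
  have hd : dtm ((k : ℤ), a + k * t) ((k' : ℤ), a' + k' * t') = (k * a' - k' * a) + k * k' * (t' - t) := by
    unfold dtm
    ring
  have ha : |a| ≤ A := abs_le.2 ⟨h3, h4⟩
  have ha' : |a'| ≤ A := abs_le.2 ⟨h3', h4'⟩
  have hk : |(k : ℤ)| ≤ N := by rw [abs_of_nonneg (by omega)]; exact_mod_cast h2
  have hk' : |(k' : ℤ)| ≤ N := by rw [abs_of_nonneg (by omega)]; exact_mod_cast h2'
  have hsmall : |(k : ℤ) * a' - k' * a| ≤ 2 * A * N := by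
    calc |(k : ℤ) * a' - k' * a| ≤ |(k : ℤ) * a'| + |(k' : ℤ) * a| := abs_sub _ _
      _ = |(k : ℤ)| * |a'| + |(k' : ℤ)| * |a| := by rw [abs_mul, abs_mul]
      _ ≤ N * A + N * A := by
          apply add_le_add
          · exact mul_le_mul hk ha' (abs_nonneg _) (by positivity)
          · exact mul_le_mul hk' ha (abs_nonneg _) (by positivity)
      _ = 2 * A * N := by ring
  rw [hd]
  constructor
  · intro hz
    have e1 : (P : ℤ) ∣ (k : ℤ) * k' * (t' - t) := by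
      apply Dvd.dvd.mul_left
      exact dvd_sub (Int.natCast_dvd_natCast.2 ht') (Int.natCast_dvd_natCast.2 ht)
    have e2 : (k : ℤ) * k' * (t' - t) ≠ 0 := by
      apply mul_ne_zero (mul_ne_zero (by omega) (by omega))
      intro h
      apply hne
      have : (t' : ℤ) = t := by linarith
      exact_mod_cast this.symm
    have e3 := Int.le_of_dvd (abs_pos.2 e2) ((dvd_abs _ _).2 e1)
    have e4 : (k : ℤ) * k' * (t' - t) = -((k : ℤ) * a' - k' * a) := by linarith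
    rw [e4, abs_neg] at e3
    have e5 : (P : ℤ) ≤ 2 * A * N := e3.trans hsmall
    have e6 : P ≤ 2 * A * N := by exact_mod_cast e5
    omega
  · calc |(k : ℤ) * a' - k' * a + k * k' * (t' - t)| ≤ |(k : ℤ) * a' - k' * a| + |(k : ℤ) * k' * (t' - t)| :=
        abs_add_le _ _
      _ ≤ 2 * A * N + N * N * (t + t') := by
          apply add_le_add hsmall
          rw [abs_mul, abs_mul]
          apply mul_le_mul (mul_le_mul hk hk' (abs_nonneg _) (by positivity)) _ (abs_nonneg _) (by positivity)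
          rw [abs_le]
          constructor <;> omega

/-- from the covering to the least primes -/
theorem rec_ok {x z K c B : ℝ} {A N b n t : ℕ} (hx : 1 ≤ x) (hA : 1 ≤ A)
    (hAx : (A : ℝ) ≤ Real.log x) (hn : z + A < n) (hz : (A : ℝ) + 1 ≤ z)
    (hb : (n : ℤ) ≡ b [ZMOD (primorial ⌊x⌋₊ : ℕ)]) (ht : primorial ⌊x⌋₊ ∣ t)
    (hb1 : ∀ p : ℕ, p.Prime → A < p → (p : ℝ) ≤ Real.log x → p ∣ b)
    (hb2 : ∀ p : ℕ, p.Prime → p ≤ A → b ≡ 1 [MOD p])
    (hcov : CovP (Pm x) K z (VR N A t) (n : ℤ)) (hc : 0 ≤ c) (hB : 0 ≤ B)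
    (hN : c * (primorial A) * WW (Real.log x) * B + 1 ≤ N) :
    ∀ a : ℤ, a ≠ 0 → |a| ≤ A → IsCoprime a ((n + t : ℕ) : ℤ) ∧ ∀ p : ℕ, p.Prime → (p : ℤ) ≠ a →
      (p : ℤ) ≡ a [ZMOD ((n + t : ℕ) : ℤ)] → c * (n + t : ℕ).totient * B < p := by
  have hlx : 0 ≤ Real.log x := Real.log_nonneg hx
  have hxl : Real.log x ≤ x := (Real.log_le_sub_one_of_pos (by linarith)).trans (by linarith)
  set P := primorial ⌊x⌋₊ with hP
  set D : ℕ := n + t with hD
  have hA0 : (1:ℝ) ≤ A := by exact_mod_cast hA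
  have hnD : (n : ℝ) ≤ D := by exact_mod_cast (by omega : n ≤ D)
  have hDr : z + A < (D : ℝ) := by linarith
  have hD0 : (0:ℝ) < D := by linarith
  have hDpos : 0 < D := by exact_mod_cast hD0
  have hDb : (D : ℤ) ≡ b [ZMOD (P : ℕ)] := by
    rw [hD]
    push_cast
    have h1 : (t : ℤ) ≡ 0 [ZMOD (P : ℕ)] := (Int.modEq_zero_iff_dvd).2 (Int.natCast_dvd_natCast.2 ht)
    simpa using hb.add h1
  have hqD : ∀ q : ℕ, q.Prime → (q : ℝ) ≤ x → D ≡ b [MOD q] := by
    intro q hq hqx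
    have h1 : q ∣ P := (hq.dvd_primorial_iff).2 (Nat.le_floor hqx)
    have h2 : (D : ℤ) ≡ b [ZMOD (q : ℕ)] := hDb.of_dvd (Int.natCast_dvd_natCast.2 h1)
    exact Int.natCast_modEq_iff.1 h2
  -- the totient
  have htot : (D.totient : ℝ) ≤ D * (primorial A) * WW (Real.log x) := by
    have h1 : primorial ⌊Real.log x⌋₊ ∣ D * primorial A := by
      conv_lhs => unfold primorial
      apply Finset.prod_primes_dvd
      · intro p hp
        exact (Finset.mem_filter.1 hp).2.prime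
      · intro p hp
        rw [Finset.mem_filter, Finset.mem_range] at hp
        have hpl : (p : ℝ) ≤ Real.log x := (Nat.le_floor_iff hlx).1 (by omega)
        by_cases hpA : p ≤ A
        · exact Dvd.dvd.mul_left ((hp.2.dvd_primorial_iff).2 hpA) _
        · apply Dvd.dvd.mul_right
          have h2 := hb1 p hp.2 (by omega) hpl
          have h3 := hqD p hp.2 (hpl.trans hxl)
          exact (Nat.modEq_zero_iff_dvd).1 (h3.trans ((Nat.modEq_zero_iff_dvd).2 h2))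
    have h2 := Pool.Agent.N837.LP.totient_le_of_dvd h1
    rw [tot_primorial (Real.log x) hlx] at h2
    have h3 : (0:ℝ) < primorial ⌊Real.log x⌋₊ := by exact_mod_cast primorial_pos _
    have h4 : ((D * primorial A).totient : ℝ) ≤ WW (Real.log x) * ((D * primorial A : ℕ) : ℝ) := by
      have h5 : (primorial ⌊Real.log x⌋₊ : ℝ) * ((D * primorial A).totient : ℝ) ≤
        primorial ⌊Real.log x⌋₊ * (WW (Real.log x) * ((D * primorial A : ℕ) : ℝ)) := by linarith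
      exact le_of_mul_le_mul_left h5 h3
    have h5 : (D.totient : ℝ) ≤ (D * primorial A).totient := by
      have h6 : D.totient ∣ (D * primorial A).totient := Nat.totient_dvd_of_dvd (dvd_mul_right _ _)
      have h7 : 0 < (D * primorial A).totient := Nat.totient_pos.2 (Nat.mul_pos hDpos (primorial_pos _))
      exact_mod_cast Nat.le_of_dvd h7 h6
    refine h5.trans (h4.trans (le_of_eq ?_))
    push_cast
    ring
  intro a ha0 haA
  have habs : -(A : ℤ) ≤ a ∧ a ≤ A := abs_le.1 haA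
  constructor
  · rw [Int.isCoprime_iff_gcd_eq_one]
    by_contra hg
    obtain ⟨q, hq, hqd⟩ := Nat.exists_prime_and_dvd hg
    have hq1 : (q : ℤ) ∣ a := (Int.natCast_dvd_natCast.2 hqd).trans (Int.gcd_dvd_left _ _)
    have hq2 : (q : ℤ) ∣ D := (Int.natCast_dvd_natCast.2 hqd).trans (Int.gcd_dvd_right _ _)
    have hq6 := Int.le_of_dvd (abs_pos.2 ha0) ((dvd_abs _ _).2 hq1)
    have hqA : q ≤ A := by exact_mod_cast hq6.trans haA
    have hqx : (q : ℝ) ≤ x := by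
      have : (q : ℝ) ≤ A := by exact_mod_cast hqA
      linarith
    have h1 := (hqD q hq hqx).trans (hb2 q hq hqA)
    have h2 : q ∣ D := Int.natCast_dvd_natCast.1 hq2
    have h3 : (0 : ℕ) ≡ 1 [MOD q] := ((Nat.modEq_zero_iff_dvd).2 h2).symm.trans h1
    have h4 : q ∣ 1 := (Nat.modEq_zero_iff_dvd).1 h3.symm
    exact hq.one_lt.ne' (Nat.dvd_one.1 h4)
  intro p hp hpa hmod
  by_contra hcon
  push Not at hcon
  have haR1 : (a : ℝ) ≤ A := by exact_mod_cast habs.2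
  have haR2 : -(A : ℝ) ≤ a := by
    have : (((-(A : ℤ)) : ℤ) : ℝ) ≤ (a : ℝ) := by exact_mod_cast habs.1
    push_cast at this
    exact this
  obtain ⟨k, hk⟩ := (Int.modEq_iff_dvd.1 hmod.symm)
  have hpR : (p : ℝ) = a + D * k := by
    have : (p : ℤ) = a + D * k := by linarith
    exact_mod_cast this
  have hp0 : (0:ℝ) ≤ p := Nat.cast_nonneg _
  have hk1 : 1 ≤ k := by
    by_contra hk1
    have hk2 : k ≤ 0 := by omega
    rcases lt_or_eq_of_le hk2 with h1 | h1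
    · have h2 : k ≤ -1 := by omega
      have h3 : (k : ℝ) ≤ -1 := by exact_mod_cast h2
      nlinarith
    · rw [h1] at hk
      apply hpa
      linarith
  obtain ⟨kn, hkn⟩ := Int.eq_ofNat_of_zero_le (by omega : 0 ≤ k)
  have hkn' : k = (kn : ℤ) := hkn
  subst hkn'
  have hkr1 : (1:ℝ) ≤ kn := by
    have : 1 ≤ kn := by exact_mod_cast hk1
    exact_mod_cast this
  have hpR' : (p : ℝ) = a + D * kn := by rw [hpR]; push_cast; ring
  have hpD : z < (p : ℝ) := by nlinarith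
  have hpA : (A : ℝ) < p := by linarith
  have hcop : IsCoprime (kn : ℤ) a := by
    rw [Int.isCoprime_iff_gcd_eq_one]
    by_contra hg
    obtain ⟨q, hq, hqd⟩ := Nat.exists_prime_and_dvd hg
    have hq1 : (q : ℤ) ∣ kn := (Int.natCast_dvd_natCast.2 hqd).trans (Int.gcd_dvd_left _ _)
    have hq2 : (q : ℤ) ∣ a := (Int.natCast_dvd_natCast.2 hqd).trans (Int.gcd_dvd_right _ _)
    have hq3 : (q : ℤ) ∣ (p : ℤ) := by
      have : (p : ℤ) = a + D * kn := by linarith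
      rw [this]
      exact dvd_add hq2 (Dvd.dvd.mul_left hq1 _)
    have hq4 : q ∣ p := Int.natCast_dvd_natCast.1 hq3
    have hq5 : q = p := (Nat.prime_dvd_prime_iff_eq hq hp).1 hq4
    rw [hq5] at hq2
    have hq6 := Int.le_of_dvd (abs_pos.2 ha0) ((dvd_abs _ _).2 hq2)
    have hq7 : (p : ℤ) ≤ A := hq6.trans haA
    have hq8 : (p : ℝ) ≤ A := by exact_mod_cast hq7
    linarith
  have hkN : (kn : ℝ) ≤ N := by
    have h1 : D * (kn : ℝ) ≤ c * D.totient * B + A := by linarith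
    have h2 : c * D.totient * B ≤ c * (D * (primorial A) * WW (Real.log x)) * B :=
      mul_le_mul_of_nonneg_right (mul_le_mul_of_nonneg_left htot hc) hB
    have h3 : D * (kn : ℝ) ≤ D * (c * (primorial A) * WW (Real.log x) * B + 1) := by
      have h4 : (A : ℝ) ≤ D * 1 := by linarith
      calc D * (kn : ℝ) ≤ c * (D * (primorial A) * WW (Real.log x)) * B + D * 1 := by linarith
        _ = _ := by ring
    exact (le_of_mul_le_mul_left h3 hD0).trans hN
  have hv : ((kn : ℤ), a + kn * (t : ℤ)) ∈ VR N A t := by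
    rw [mem_VR]
    exact ⟨kn, a, by exact_mod_cast hk1, by exact_mod_cast hkN, habs.1, habs.2, ha0, hcop, rfl⟩
  obtain ⟨q, hq, hqz, _, hqd⟩ := hcov _ hv
  simp only at hqd
  have h1 : (kn : ℤ) * n + (a + kn * (t : ℤ)) = (p : ℤ) := by
    have : (p : ℤ) = a + D * kn := by linarith
    rw [this, hD]
    push_cast
    ring
  rw [h1] at hqd
  have h2 : q ∣ p := Int.natCast_dvd_natCast.1 hqd
  have h3 : q = p := (Nat.prime_dvd_prime_iff_eq hq hp).1 h2
  rw [h3] at hqz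
  linarith

end Pool.Agent.T2h81.UC
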