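import Pool.Agent.T2h81.UC.F4
import Pool.Agent.T2h81.UC.B4

set_option autoImplicit false
set_option linter.unusedVariables false
set_option maxHeartbeats 4000000

/-! # Record sizes for the least primes in fixed classes: counting and sizes -/

namespace Pool.Agent.T2h81.UC

open Finset Filter Pool.Agent.H256R2.SC Pool.Agent.Y831.RC

open scoped Classical

theorem cls_low (M : ℤ) (N P : ℕ) (hP : 0 < P) (b : ℤ) :
    (N : ℝ) / P - 1 ≤ (((Ioc M (M + N)).filter (fun n : ℤ => (P : ℤ) ∣ n - b)).card : ℝ) := by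
  have hPz : (0 : ℤ) < P := by exact_mod_cast hP
  have hPr : (0 : ℝ) < P := by exact_mod_cast hP
  set r : ℤ := (b - M - 1) % P with hr
  have hr0 : 0 ≤ r := Int.emod_nonneg _ hPz.ne'
  have hrP : r < P := Int.emod_lt_of_pos _ hPz
  have hrb : (P : ℤ) ∣ (M + 1 + r) - b := by
    have := Int.emod_add_mul_ediv (b - M - 1) P
    exact ⟨-((b - M - 1) / P), by linarith⟩
  have h1 : N / P ≤ ((Ioc M (M + N)).filter (fun n : ℤ => (P : ℤ) ∣ n - b)).card := by
    have h2 : (range (N / P)).card ≤ ((Ioc M (M + N)).filter (fun n : ℤ => (P : ℤ) ∣ n - b)).card := by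
      apply Finset.card_le_card_of_injOn (fun i : ℕ => M + 1 + r + P * i)
      · intro i hi
        rw [Finset.mem_coe, Finset.mem_range] at hi
        rw [Finset.mem_coe, Finset.mem_filter, Finset.mem_Ioc]
        have h3 : (i : ℤ) + 1 ≤ (N / P : ℕ) := by exact_mod_cast hi
        have h4 : (P : ℤ) * (N / P : ℕ) ≤ N := by exact_mod_cast Nat.mul_div_le N P
        have h5 : (P : ℤ) * ((i : ℤ) + 1) ≤ P * (N / P : ℕ) := mul_le_mul_of_nonneg_left h3 hPz.le
        have h6 : 0 ≤ (P : ℤ) * i := by positivity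
        refine ⟨⟨by linarith, by linarith⟩, ?_⟩
        have h7 : M + 1 + r + P * i - b = (M + 1 + r - b) + P * i := by ring
        rw [h7]
        exact dvd_add hrb (dvd_mul_right _ _)
      · intro i _ i' _ h
        have h3 : (P : ℤ) * i = P * i' := by
          have : M + 1 + r + (P : ℤ) * i = M + 1 + r + P * i' := h
          linarith
        have h4 := mul_left_cancel₀ hPz.ne' h3
        exact_mod_cast h4
    rwa [Finset.card_range] at h2
  have h2 : (N : ℝ) / P - 1 ≤ ((N / P : ℕ) : ℝ) := by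
    have h3 : (N : ℝ) < P * ((N / P : ℕ) + 1) := by exact_mod_cast Nat.lt_mul_div_succ N hP
    rw [sub_le_iff_le_add, div_le_iff₀ hPr]
    linarith
  have h3 : ((N / P : ℕ) : ℝ) ≤ (((Ioc M (M + N)).filter (fun n : ℤ => (P : ℤ) ∣ n - b)).card : ℝ) := by
    exact_mod_cast h1
  linarith

/-- the record scale in terms of `x = η log X / 128` -/
theorem ff_le {η x X : ℝ} (hη : 0 < η) (hx : 1 ≤ x) (hxη : 128 / η ≤ x) (hX : Real.log X = 128 * x / η)
    (hη1 : η ≤ 1) (h2 : 2 ≤ Real.log (Real.log x)) (h3 : 1 ≤ Real.log (Real.log (Real.log x)))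
    (hl : 1 ≤ Real.log x) :
    ff X ≤ 1024 / η * (x * (Real.log x) ^ 2 * Real.log (Real.log (Real.log x)) /
      (Real.log (Real.log x)) ^ 2) := by
  unfold ff
  rw [hX]
  set y := 128 * x / η with hy
  have hx0 : 0 < x := by linarith
  have hxy : x ≤ y := by
    rw [hy, le_div_iff₀ hη]
    nlinarith
  have hy2 : y ≤ x ^ 2 := by
    have h4 : y = 128 / η * x := by rw [hy]; ring
    rw [h4, pow_two]
    exact mul_le_mul_of_nonneg_right hxη hx0.le
  set l := Real.log x with hl'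
  have hl0 : 0 < l := by linarith
  set l2 := Real.log l with hl2
  have hl20 : 0 < l2 := by linarith
  set l3 := Real.log l2 with hl3
  have hy0 : 0 < y := by linarith
  have a1 : Real.log y ≤ 2 * l := by
    have := Real.log_le_log hy0 hy2
    rw [Real.log_pow] at this
    push_cast at this
    exact this
  have a2 : l ≤ Real.log y := Real.log_le_log hx0 hxy
  have hly0 : 0 < Real.log y := by linarith
  have a3 : l2 ≤ Real.log (Real.log y) := Real.log_le_log hl0 a2
  have a4 : Real.log (Real.log y) ≤ l2 ^ 2 := by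
    have h4 : Real.log (Real.log y) ≤ Real.log (2 * l) := Real.log_le_log hly0 a1
    rw [Real.log_mul (by norm_num) hl0.ne'] at h4
    have := Real.log_two_lt_d9
    nlinarith
  have hlly0 : 0 < Real.log (Real.log y) := by linarith
  have a5 : Real.log (Real.log (Real.log y)) ≤ 2 * l3 := by
    have h4 : Real.log (Real.log (Real.log y)) ≤ Real.log (l2 ^ 2) := Real.log_le_log hlly0 a4
    rw [Real.log_pow] at h4
    push_cast at h4
    exact h4
  have a6 : l3 ≤ Real.log (Real.log (Real.log y)) := Real.log_le_log hl20 a3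
  have hl30 : 0 < l3 := by linarith
  calc y * (Real.log y) ^ 2 * Real.log (Real.log (Real.log y)) / (Real.log (Real.log y)) ^ 2 ≤
      (128 / η * x) * (2 * l) ^ 2 * (2 * l3) / l2 ^ 2 := by
        apply div_le_div₀ (by positivity) _ (by positivity) (pow_le_pow_left₀ hl20.le a3 2)
        apply mul_le_mul _ a5 (by linarith) (by positivity)
        apply mul_le_mul (le_of_eq (by rw [hy]; ring)) (pow_le_pow_left₀ hly0.le a1 2) (by positivity) (by positivity)
    _ = _ := by ring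

theorem ev_rec (A₀ κ L₀ x₀ B : ℝ) (hκ : 0 < κ) : ∃ x₁ : ℝ, ∀ x : ℝ, x₁ ≤ x → 1 ≤ x ∧ x₀ ≤ x ∧ B ≤ x ∧
    L₀ ≤ 32 * x ∧ Real.exp 480 ≤ 32 * x ∧ A₀ ≤ Real.log x ∧ 2 ≤ Real.log (Real.log x) ∧
    1 ≤ Real.log (Real.log (Real.log x)) ∧
    Real.log (Real.log (Real.log x)) ≤ Real.log (Real.log x) ∧ (Real.log x) ^ 2 ≤ x ∧
    8 * (Real.log (Real.log x)) ^ 3 ≤ κ * (Real.log x) ^ 2 := by
  obtain ⟨x₁, h1⟩ := ev_cls A₀ 1
  obtain ⟨x₂, h2⟩ : ∃ x₂ : ℝ, ∀ x : ℝ, x₂ ≤ x → (Real.log x) ^ 2 ≤ x := by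
    have h2 := (isLittleO_log_rpow_rpow_atTop (r := 2) (s := 1) one_pos).def (show (0:ℝ) < 1 by norm_num)
    obtain ⟨y₁, hy₁⟩ := Filter.eventually_atTop.1 (h2.and (eventually_ge_atTop (1:ℝ)))
    refine ⟨y₁, fun x hx => ?_⟩
    obtain ⟨e2, e3⟩ := hy₁ _ hx
    rw [Real.rpow_one, Real.rpow_two, Real.norm_of_nonneg (by positivity), Real.norm_of_nonneg (by linarith), one_mul] at e2
    exact e2
  obtain ⟨x₃, h3⟩ : ∃ x₃ : ℝ, ∀ x : ℝ, x₃ ≤ x → 8 * (Real.log (Real.log x)) ^ 3 ≤ κ * (Real.log x) ^ 2 := by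
    have h2 := (isLittleO_log_rpow_rpow_atTop (r := 3) (s := 2) two_pos).def (show (0:ℝ) < κ / 8 by positivity)
    obtain ⟨y₁, hy₁⟩ := Filter.eventually_atTop.1 (h2.and (eventually_ge_atTop (1:ℝ)))
    refine ⟨Real.exp y₁, fun x hx => ?_⟩
    have hx0 : 0 < x := (Real.exp_pos _).trans_le hx
    have e1 : y₁ ≤ Real.log x := by rw [Real.le_log_iff_exp_le hx0]; exact hx
    obtain ⟨e2, e3⟩ := hy₁ _ e1
    have e4 : 0 ≤ Real.log (Real.log x) := Real.log_nonneg e3
    rw [Real.norm_of_nonneg (by positivity), Real.norm_of_nonneg (by positivity), Real.rpow_two,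
      show (3:ℝ) = ((3:ℕ):ℝ) by norm_num, Real.rpow_natCast] at e2
    linarith
  refine ⟨max (max (max x₁ x₂) (max x₃ x₀)) (max (max B L₀) (max (Real.exp 480) 1)), fun x hx => ?_⟩
  have u1 := (le_max_left _ _).trans hx
  have u2 := (le_max_right _ _).trans hx
  have u3 := (le_max_left _ _).trans u1
  have u4 := (le_max_right _ _).trans u1
  have u5 := (le_max_left _ _).trans u2
  have u6 := (le_max_right _ _).trans u2
  have hx1 : x₁ ≤ x := (le_max_left _ _).trans u3
  have hx2 : x₂ ≤ x := (le_max_right _ _).trans u3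
  have hx3 : x₃ ≤ x := (le_max_left _ _).trans u4
  have hx4 : x₀ ≤ x := (le_max_right _ _).trans u4
  have hx5 : B ≤ x := (le_max_left _ _).trans u5
  have hx6 : L₀ ≤ x := (le_max_right _ _).trans u5
  have hx7 : Real.exp 480 ≤ x := (le_max_left _ _).trans u6
  have hx8 : 1 ≤ x := (le_max_right _ _).trans u6
  obtain ⟨g1, g2, g3, g4, g5, g6, g7, g8⟩ := h1 x hx1
  exact ⟨hx8, hx4, hx5, by linarith, by linarith, g3, by linarith, g5, g6, h2 x hx2, h3 x hx3⟩

end Pool.Agent.T2h81.UC
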