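import Pool.Agent.T2h81.UC.F5

set_option autoImplicit false
set_option linter.unusedVariables false
set_option maxHeartbeats 4000000

/-! # Record sizes for the least primes in fixed classes -/

namespace Pool.Agent.T2h81.UC

open Finset Filter Pool.Agent.H256R2.SC Pool.Agent.Y831.RC

open scoped Classical

/-- all the classes `a`, `0 < |a| ≤ A`, are prime to `D` and contain no prime up to `c φ(D) B`,
except possibly `a` -/
def RecA (A : ℕ) (c B : ℝ) (D : ℕ) : Prop :=
  ∀ a : ℤ, a ≠ 0 → |a| ≤ A → IsCoprime a (D : ℤ) ∧ ∀ p : ℕ, p.Prime → (p : ℤ) ≠ a →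
      (p : ℤ) ≡ a [ZMOD (D : ℤ)] → c * D.totient * B < p

theorem rec_main (A : ℕ) (hA : 1 ≤ A) (η : ℝ) (hη : 0 < η) (hη1 : η ≤ 1) : ∃ c X₀ : ℝ, 0 < c ∧ 1 ≤ X₀ ∧
    ∀ X : ℝ, X₀ ≤ X → ∀ M N : ℕ, X ^ η ≤ N →
      (N : ℝ) * X ^ (-η) ≤ (((Ioc M (M + N)).filter (fun d => RecA A c (ff X) d)).card : ℝ) := by
  obtain ⟨c₃, e₀, L₀, hc₃, he₀, hL₀, hcls⟩ := class_mainU
  obtain ⟨Cc, x₀, hCc, hrec⟩ := class_rec A hA
  obtain ⟨cw, Cw, hcw, hcwC, hWb⟩ := WW_bounds
  have hCw : 0 < Cw := hcw.trans_le hcwC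
  have hAr : (1:ℝ) ≤ A := by exact_mod_cast hA
  have hPA0 : (0:ℝ) < primorial A := by exact_mod_cast primorial_pos _
  obtain ⟨κ, hκ⟩ : ∃ κ : ℝ, κ = min (1 / 2) (8 * c₃ / Cc) := ⟨_, rfl⟩
  have hκ0 : 0 < κ := by rw [hκ]; exact lt_min (by norm_num) (by positivity)
  have hκ1 : κ ≤ 1 / 2 := by rw [hκ]; exact min_le_left _ _
  have hκ2 : Cc * κ ≤ 8 * c₃ := by
    have h1 : κ ≤ 8 * c₃ / Cc := by rw [hκ]; exact min_le_right _ _
    rw [le_div_iff₀ hCc] at h1
    linarith
  obtain ⟨c, hc⟩ : ∃ c : ℝ, c = κ * η / (4096 * primorial A * Cw) := ⟨_, rfl⟩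
  have hc0 : 0 < c := by rw [hc]; positivity
  obtain ⟨x₁, hev⟩ := ev_rec (max A (4 * e₀)) κ L₀ x₀ (max (128 / η) (3 * A + 10)) hκ0
  refine ⟨c, Real.exp (128 * (max x₁ 1) / η), hc0, Real.one_le_exp (by positivity), ?_⟩
  intro X hX M N hN
  have hX0 : 0 < X := (Real.exp_pos _).trans_le hX
  set x : ℝ := η / 128 * Real.log X with hx
  have hxx₁' : max x₁ 1 ≤ x := by
    have h1 : 128 * (max x₁ 1) / η ≤ Real.log X := by
      rw [Real.le_log_iff_exp_le hX0]; exact hX
    rw [div_le_iff₀ hη] at h1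
    rw [hx]
    linarith
  have hxx₁ : x₁ ≤ x := (le_max_left _ _).trans hxx₁'
  obtain ⟨g1, g2, g3, g4, g5, g6, g7, g8, g9, g10, g11⟩ := hev x hxx₁
  have g3a : 128 / η ≤ x := (le_max_left _ _).trans g3
  have g3b : 3 * (A : ℝ) + 10 ≤ x := (le_max_right _ _).trans g3
  have g6a : (A : ℝ) ≤ Real.log x := (le_max_left _ _).trans g6
  have g6b : 4 * e₀ ≤ Real.log x := (le_max_right _ _).trans g6
  have hlogX : Real.log X = 128 * x / η := by rw [hx]; field_simp
  set L : ℝ := 32 * x with hL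
  have hxL : L / 32 = x := by rw [hL]; ring
  obtain ⟨n1, n2, n3⟩ := uni_num g5
  have hL0 : 0 < L := by linarith
  have hL1 : 1 ≤ L := by linarith
  set l := Real.log x with hl
  set l2 := Real.log l with hl2
  set l3 := Real.log l2 with hl3
  have hx0 : 0 < x := by linarith
  have hl24 : 1 ≤ l2 := by linarith
  have hlL : l ≤ Real.log L := Real.log_le_log hx0 (by linarith)
  have hl0 : 0 < l := by
    have := he₀
    linarith
  have hlogL0 : 0 < Real.log L := by linarith
  set s := Real.sqrt L with hs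
  have hss : s * s = L := Real.mul_self_sqrt hL0.le
  have hs4 : 10 ^ 4 ≤ s := by
    rw [hs, show (10:ℝ) ^ 4 = Real.sqrt (10 ^ 8) by
      rw [show (10:ℝ) ^ 8 = (10 ^ 4) ^ 2 by norm_num, Real.sqrt_sq (by norm_num)]]
    exact Real.sqrt_le_sqrt n1
  have hs0 : 0 < s := by linarith
  have hsL : 10 ^ 4 * s ≤ L := by rw [← hss]; exact mul_le_mul_of_nonneg_right hs4 hs0.le
  have hLs : L ≤ Real.exp (s / 2) := by
    have h1 : Real.exp (Real.log L) ≤ Real.exp (s / 2) := Real.exp_le_exp.2 (by linarith)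
    rwa [Real.exp_log hL0] at h1
  -- the exponent `e`
  set e : ℝ := 1 / 4 * Real.log L with he
  have hee₀ : e₀ ≤ e := by rw [he]; linarith
  have he6400 : 6400 ≤ e := he₀.trans hee₀
  set J₀ : ℕ := ⌈Real.exp (e ^ 2 * Real.exp e + e / 2)⌉₊ with hJ₀
  have hJ1 : Real.exp (e ^ 2 * Real.exp e + e / 2) ≤ (J₀ : ℝ) := Nat.le_ceil _
  have hJpos : 0 < J₀ := by
    have : (0:ℝ) < J₀ := (Real.exp_pos _).trans_le hJ1
    exact_mod_cast this
  have hJr : (0:ℝ) < J₀ := by exact_mod_cast hJpos
  have hJL : (J₀ : ℝ) ≤ Real.exp s := by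
    have h1 := J_bound he6400
    rw [← hJ₀] at h1
    have h2 : Real.exp (2 * e) = s := by
      rw [he, hs, ← Real.exp_log (Real.sqrt_pos.2 hL0), Real.log_sqrt hL0.le]
      congr 1
      ring
    rw [h2] at h1
    linarith
  -- the modulus
  set P : ℕ := primorial ⌊x⌋₊ with hP
  have hPpos : 0 < P := primorial_pos _
  have hPr : (0:ℝ) < P := by exact_mod_cast hPpos
  have hPr1 : (1:ℝ) ≤ P := by exact_mod_cast hPpos
  have hPx : (P:ℝ) ≤ Real.exp (L / 16) := by
    refine (primorial_le_exp x hx0.le).trans (le_of_eq ?_)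
    rw [hL]
    congr 1
    ring
  -- the length of the windows
  set G : ℝ := x * l ^ 2 * l3 / l2 ^ 3 with hG
  have hl30 : 0 < l3 := by linarith
  have hl20 : 0 < l2 := by linarith
  have hκG : 8 * x ≤ κ * G := by
    have h1 : 8 * l2 ^ 3 * (x * 1) ≤ κ * l ^ 2 * (x * l3) :=
      mul_le_mul g11 (mul_le_mul_of_nonneg_left g8 hx0.le) (by positivity) (by positivity)
    rw [hG, mul_div_assoc', le_div_iff₀ (by positivity)]
    linarith
  set N₀ : ℕ := ⌊κ * G⌋₊ with hN₀
  have hκG0 : 0 ≤ κ * G := by linarith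
  have hN₀1 : (N₀ : ℝ) ≤ κ * G := Nat.floor_le hκG0
  have hN₀2 : κ * G < N₀ + 1 := Nat.lt_floor_add_one _
  have hxN₀ : x ≤ (N₀ : ℝ) := by linarith
  have hGx : G ≤ x * l ^ 2 := by
    rw [hG, div_le_iff₀ (by positivity)]
    apply mul_le_mul_of_nonneg_left _ (by positivity)
    have h1 : l2 ≤ l2 ^ 3 := by
      calc l2 = l2 ^ 1 := (pow_one _).symm
        _ ≤ l2 ^ 3 := pow_le_pow_right₀ hl24 (by norm_num)
    linarith
  have hl1 : 1 ≤ l := by
    have := he₀
    linarith
  have hN₀A : ((N₀ + A : ℕ) : ℝ) ≤ x * l ^ 2 := by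
    have h1 : κ * G ≤ 1 / 2 * (x * l ^ 2) := by
      calc κ * G ≤ 1 / 2 * G := mul_le_mul_of_nonneg_right hκ1 (by positivity)
        _ ≤ _ := by linarith
    have h2 : (A : ℝ) ≤ 1 / 2 * (x * l ^ 2) := by
      have h3 : 1 ≤ l ^ 2 := one_le_pow₀ hl1
      nlinarith only [h3, g3b, hx0, hAr]
    push_cast
    linarith
  have hN₀x2 : (N₀ : ℝ) ≤ x ^ 2 := by
    have h1 : (N₀ : ℝ) ≤ ((N₀ + A : ℕ) : ℝ) := by push_cast; linarith
    have h2 : x * l ^ 2 ≤ x * x := mul_le_mul_of_nonneg_left g10 hx0.le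
    have h3 : x ^ 2 = x * x := by ring
    linarith
  obtain ⟨b, hb0, hb1, hb2, hb3⟩ := hrec x g2 N₀ hxN₀ hN₀A
  -- survivors
  have hsurv : ((SR x N₀ A b).card : ℝ) ≤ c₃ * e * L / Real.log L := by
    refine hb3.trans ?_
    have h1 : c₃ * e * L / Real.log L = 8 * c₃ * x := by
      have h2 : c₃ * e * L / Real.log L = 1 / 4 * c₃ * L := by
        rw [he, div_eq_iff hlogL0.ne']
        ring
      rw [h2, hL]
      ring
    rw [h1]
    calc Cc * N₀ * l2 ^ 3 / (l ^ 2 * l3) ≤ Cc * (κ * G) * l2 ^ 3 / (l ^ 2 * l3) := by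
          apply div_le_div_of_nonneg_right _ (by positivity)
          apply mul_le_mul_of_nonneg_right _ (by positivity)
          exact mul_le_mul_of_nonneg_left hN₀1 hCc.le
      _ = Cc * κ * x := by
          rw [hG]
          field_simp
      _ ≤ 8 * c₃ * x := mul_le_mul_of_nonneg_right hκ2 hx0.le
  -- the shifts
  set Q : ℕ := P * (2 * A * N₀ + 1) with hQ
  have hPQ : P ∣ Q := dvd_mul_right _ _
  have hQ1 : 2 * A * N₀ < Q := by
    have h1 : 1 * (2 * A * N₀ + 1) ≤ P * (2 * A * N₀ + 1) := Nat.mul_le_mul_right _ hPpos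
    omega
  have hxL' : x ≤ L / 32 := by linarith
  have hAN₀L : 2 * (A : ℝ) * N₀ + 1 ≤ L ^ 3 := by
    have h1 : 2 * (A : ℝ) ≤ x := by linarith
    have h2 : 2 * (A : ℝ) * N₀ ≤ x * x ^ 2 := mul_le_mul h1 hN₀x2 (Nat.cast_nonneg _) hx0.le
    have h3 : x * x ^ 2 = x ^ 3 := by ring
    have h4 : L ^ 3 = 32768 * x ^ 3 := by rw [hL]; ring
    have h5 : 1 ≤ x ^ 3 := one_le_pow₀ g1
    linarith
  have hQL : (Q : ℝ) ≤ Real.exp (L / 16) * L ^ 3 := by
    rw [hQ]
    push_cast
    exact mul_le_mul hPx hAN₀L (by positivity) (Real.exp_pos _).le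
  have hJQ : (J₀ : ℝ) * Q ≤ Real.exp (L / 8) := by
    have h1 : L ^ 3 ≤ Real.exp (3 * (s / 2)) := by
      have h2 := pow_le_pow_left₀ hL0.le hLs 3
      rwa [← Real.exp_nat_mul] at h2
    calc (J₀ : ℝ) * Q ≤ Real.exp s * (Real.exp (L / 16) * Real.exp (3 * (s / 2))) := by
          apply mul_le_mul hJL _ (Nat.cast_nonneg _) (Real.exp_pos _).le
          exact hQL.trans (mul_le_mul_of_nonneg_left h1 (Real.exp_pos _).le)
      _ = Real.exp (s + (L / 16 + 3 * (s / 2))) := by rw [← Real.exp_add, ← Real.exp_add]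
      _ ≤ _ := by
          apply Real.exp_le_exp.2
          linarith
  have hE8 := Real.exp_pos (L / 8)
  set t : Fin J₀ → ℕ := fun j => (j : ℕ) * Q with ht
  have htL : ∀ j, (t j : ℝ) ≤ Real.exp (L / 8) := by
    intro j
    refine le_trans ?_ hJQ
    rw [ht]
    push_cast
    apply mul_le_mul_of_nonneg_right _ (Nat.cast_nonneg _)
    exact_mod_cast j.2.le
  have htQ : ∀ j, Q ∣ t j := fun j => Dvd.intro_left _ rfl
  have htinj : ∀ i j, i ≠ j → t i ≠ t j := by
    intro i j hij h
    apply hij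
    have hQ0 : 0 < Q := by omega
    exact Fin.ext (Nat.eq_of_mul_eq_mul_right hQ0 h)
  -- sizes
  have hL3 : L ^ 3 ≤ L ^ 6 := pow_le_pow_right₀ hL1 (by norm_num)
  have hN₀L : (N₀ : ℝ) < L ^ 6 := by
    have h1 : (N₀ : ℝ) ≤ 2 * (A : ℝ) * N₀ := by
      have : (0:ℝ) ≤ N₀ := Nat.cast_nonneg _
      nlinarith only [this, hAr]
    linarith
  have hE4L : Real.exp (4 * L) ≤ N := by
    refine le_trans (le_of_eq ?_) hN
    rw [Real.rpow_def_of_pos hX0, hlogX, hL]
    congr 1
    field_simp
    ring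
  have hEL0 := Real.exp_pos L
  have hEL1 : 1 ≤ Real.exp L := Real.one_le_exp hL0.le
  have hE8L : Real.exp (L / 8) ≤ Real.exp L := Real.exp_le_exp.2 (by linarith)
  have hE4 : Real.exp (4 * L) = Real.exp L * Real.exp L * Real.exp L * Real.exp L := by
    rw [← Real.exp_add, ← Real.exp_add, ← Real.exp_add]; congr 1; ring
  have hE2 : Real.exp (2 * L) = Real.exp L * Real.exp L := by
    rw [← Real.exp_add]; congr 1; ring
  have hELbig : 100 ≤ Real.exp L := by
    have := Real.add_one_le_exp L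
    linarith
  have hELA : (A : ℝ) + 3 ≤ Real.exp L := by
    have := Real.add_one_le_exp L
    linarith
  set N' : ℕ := N - J₀ * Q with hN'
  have hJQN : ((J₀ * Q : ℕ) : ℝ) ≤ N / 2 := by
    push_cast
    have h1 : 2 * Real.exp L ≤ Real.exp (4 * L) := by
      rw [hE4]
      have : 2 ≤ Real.exp L * Real.exp L * Real.exp L := by
        nlinarith only [hELbig]
      nlinarith only [this, hEL0]
    linarith
  have hN'1 : (N : ℝ) / 2 ≤ N' := by
    rw [hN', Nat.cast_sub]
    · linarith
    · have : ((J₀ * Q : ℕ) : ℝ) ≤ N := by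
        have : (0:ℝ) ≤ N := Nat.cast_nonneg _
        linarith
      exact_mod_cast this
  have hN'2 : N' + J₀ * Q ≤ N := by
    have : J₀ * Q ≤ N := by
      have : ((J₀ * Q : ℕ) : ℝ) ≤ N := by
        have : (0:ℝ) ≤ N := Nat.cast_nonneg _
        linarith
      exact_mod_cast this
    omega
  have hN'3 : Real.exp (2 * L) ≤ N' := by
    have h1 : 2 * Real.exp (2 * L) ≤ Real.exp (4 * L) := by
      rw [hE4, hE2]
      have h2 : 2 ≤ Real.exp L * Real.exp L := by nlinarith only [hELbig]
      have h3 : 0 ≤ Real.exp L * Real.exp L := by positivity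
      nlinarith only [h2, h3]
    linarith
  -- the main bound
  set V : Fin J₀ → Finset (ℤ × ℤ) := fun j => VR N₀ A (t j) with hV
  set z : ℝ := Real.exp (L / (6400 * e)) with hz
  have hbad := hcls L e g4 hee₀ le_rfl J₀ hJ1 hJL L 0 hL0.le (by nlinarith only [hL1]) le_rfl (by positivity)
    V ∅ (Pm x) (b : ℤ) (by rw [hxL]; exact Pm_dvd) (by intro p hp; simp at hp) (by simp) (by
      intro j v hv p hp hpL _ hdvd
      obtain ⟨e1, e2⟩ := VR_pos hv
      have e3 := Int.le_of_dvd (by omega) hdvd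
      have e4 : (p : ℤ) ≤ N₀ := e3.trans e2
      have e5 : (p : ℝ) ≤ N₀ := by exact_mod_cast e4
      linarith) (by
      intro j v hv v' hv' hne p hp hpL _ hdvd
      obtain ⟨e1, e2⟩ := VR_in hv hv' hne
      have e3 := Int.le_of_dvd (abs_pos.2 e1) ((dvd_abs _ _).2 hdvd)
      have e4 : (p : ℤ) ≤ 2 * A * N₀ := e3.trans e2
      have e5 : (p : ℝ) ≤ 2 * A * N₀ := by exact_mod_cast e4
      linarith) (by
      intro i j hij v hv v' hv'
      obtain ⟨e1, e2⟩ := VR_cross (P := Q) hv hv' hQ1 (htQ i) (htQ j) (htinj i j hij)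
      refine ⟨e1, ?_⟩
      have e3 : (|dtm v v'| : ℝ) ≤ 2 * A * N₀ + N₀ * N₀ * (t i + t j) := by exact_mod_cast e2
      refine e3.trans ?_
      have e4 : (N₀ : ℝ) * N₀ * (t i + t j) ≤ L ^ 3 * L ^ 3 * (2 * Real.exp (L / 8)) := by
        have e5 : (N₀ : ℝ) ≤ L ^ 3 := by
          have h1 : (N₀ : ℝ) ≤ 2 * (A : ℝ) * N₀ := by
            have : (0:ℝ) ≤ N₀ := Nat.cast_nonneg _
            nlinarith only [this, hAr]
          linarith
        apply mul_le_mul (mul_le_mul e5 e5 (Nat.cast_nonneg _) (by positivity)) _ (by positivity) (by positivity)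
        linarith [htL i, htL j]
      have e6 : L ^ 3 * L ^ 3 ≤ Real.exp (3 * s) := by
        have h2 := pow_le_pow_left₀ hL0.le hLs 6
        rw [← Real.exp_nat_mul] at h2
        have h3 : L ^ 3 * L ^ 3 = L ^ 6 := by ring
        rw [h3]
        refine h2.trans (le_of_eq ?_)
        congr 1
        push_cast
        ring
      have e7 : L ^ 3 ≤ L ^ 3 * L ^ 3 := by
        have : 1 ≤ L ^ 3 := one_le_pow₀ hL1
        nlinarith only [this]
      have e8 : (1:ℝ) ≤ Real.exp (L / 8) := Real.one_le_exp (by positivity)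
      have e9 : L ^ 3 * L ^ 3 * (3 * Real.exp (L / 8)) ≤ Real.exp (3 * s) * (Real.exp s * Real.exp (L / 8)) := by
        apply mul_le_mul e6 _ (by positivity) (Real.exp_pos _).le
        apply mul_le_mul_of_nonneg_right _ (Real.exp_pos _).le
        have := Real.add_one_le_exp s
        linarith
      have e10 : Real.exp (3 * s) * (Real.exp s * Real.exp (L / 8)) ≤ Real.exp L := by
        rw [← Real.exp_add, ← Real.exp_add]
        apply Real.exp_le_exp.2
        linarith
      have e11 : (0:ℝ) ≤ L ^ 3 * L ^ 3 := by positivity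
      have e12 : L ^ 3 * L ^ 3 * 1 ≤ L ^ 3 * L ^ 3 * Real.exp (L / 8) := mul_le_mul_of_nonneg_left e8 e11
      linarith) (by
      intro j
      exact (sv_VR hx0.le N₀ A b (t j) (hPQ.trans (htQ j))).trans hsurv) (M : ℤ) N' hN'3
  rw [hxL, ← hP] at hbad
  have hδ : 17 * Real.exp (-(e / 2)) + (L + 0 + 1) / L ^ 3 ≤ 1 / 4 := by
    have h1 : Real.exp (-(e / 2)) ≤ 1 / 200 := by
      rw [Real.exp_neg, inv_eq_one_div]
      apply one_div_le_one_div_of_le (by norm_num)
      have := Real.add_one_le_exp (e / 2)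
      linarith
    have h2 : (L + 0 + 1) / L ^ 3 ≤ 1 / 8 := by
      rw [div_le_iff₀ (by positivity)]
      have h3 : L ^ 3 = L * (L * L) := by ring
      have h4 : 16 ≤ L * L := by nlinarith only [n1]
      rw [h3]
      nlinarith only [h4, hL1]
    linarith
  set S : Finset ℤ := (Ioc (M : ℤ) (M + N')).filter (fun n : ℤ => (P : ℤ) ∣ n - b) with hS
  have hSlow := cls_low (M : ℤ) N' P hPpos (b : ℤ)
  rw [← hS] at hSlow
  set Good : Finset ℤ := S.filter (fun n => (z + A < (n : ℝ)) ∧ ∃ j, CovP (Pm x) (L ^ 6) z (V j) n) with hGood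
  have hzL : z ≤ Real.exp L := by
    apply Real.exp_le_exp.2
    rw [div_le_iff₀ (by positivity)]
    nlinarith only [hL0, he6400]
  have hz0 : 0 < z := Real.exp_pos _
  have hGcard : (N' : ℝ) / (2 * P) ≤ Good.card := by
    have h1 : S ⊆ Good ∪ (((Ioc (M : ℤ) (M + N')).filter (fun n : ℤ => (P : ℤ) ∣ n - b ∧
        ¬ ∃ j, CovP (Pm x) (L ^ 6) z (V j) n)) ∪ (Finset.Icc 1 ⌊z + A⌋₊).image (fun n : ℕ => (n : ℤ))) := by
      intro n hn
      have hn' := hn
      rw [hS, Finset.mem_filter, Finset.mem_Ioc] at hn'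
      rw [Finset.mem_union, Finset.mem_union]
      by_cases h2 : z + A < (n : ℝ)
      · by_cases h3 : ∃ j, CovP (Pm x) (L ^ 6) z (V j) n
        · left
          rw [hGood, Finset.mem_filter]
          exact ⟨hn, h2, h3⟩
        · right; left
          rw [Finset.mem_filter, Finset.mem_Ioc]
          exact ⟨hn'.1, hn'.2, h3⟩
      · right; right
        rw [Finset.mem_image]
        have h4 : (0:ℤ) < n := by
          have : (0:ℤ) ≤ M := by positivity
          omega
        refine ⟨n.toNat, ?_, Int.toNat_of_nonneg h4.le⟩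
        rw [Finset.mem_Icc]
        refine ⟨by omega, Nat.le_floor ?_⟩
        have h5 : ((n.toNat : ℕ) : ℝ) = (n : ℝ) := by
          have := Int.toNat_of_nonneg h4.le
          exact_mod_cast this
        rw [h5]
        exact not_lt.1 h2
    have h2 := (Finset.card_le_card h1).trans ((Finset.card_union_le _ _).trans
      (Nat.add_le_add_left (Finset.card_union_le _ _) _))
    have h3 : (((Finset.Icc 1 ⌊z + A⌋₊).image (fun n : ℕ => (n : ℤ))).card : ℝ) ≤ z + A := by
      have h4 : (((Finset.Icc 1 ⌊z + A⌋₊).image (fun n : ℕ => (n : ℤ))).card : ℝ) ≤ (⌊z + A⌋₊ : ℝ) := by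
        have h5 := Finset.card_image_le (s := Finset.Icc 1 ⌊z + A⌋₊) (f := fun n : ℕ => (n : ℤ))
        rw [Nat.card_Icc, Nat.add_sub_cancel] at h5
        exact_mod_cast h5
      exact h4.trans (Nat.floor_le (by linarith))
    have h4 : (S.card : ℝ) ≤ Good.card + ((((Ioc (M : ℤ) (M + N')).filter (fun n : ℤ => (P : ℤ) ∣ n - b ∧
        ¬ ∃ j, CovP (Pm x) (L ^ 6) z (V j) n)).card : ℝ) +
        (((Finset.Icc 1 ⌊z + A⌋₊).image (fun n : ℕ => (n : ℤ))).card : ℝ)) := by exact_mod_cast h2
    have hNP : 8 * (Real.exp L + A + 3) ≤ (N' : ℝ) / P := by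
      rw [le_div_iff₀ hPr]
      have h5 : (P : ℝ) ≤ Real.exp L := hPx.trans (Real.exp_le_exp.2 (by linarith))
      calc 8 * (Real.exp L + A + 3) * P ≤ 8 * (Real.exp L + Real.exp L) * Real.exp L := by
            apply mul_le_mul _ h5 hPr.le (by positivity)
            linarith
        _ = 16 * (Real.exp L * Real.exp L) := by ring
        _ ≤ N' := by
            have h6 : 32 * (Real.exp L * Real.exp L) ≤ Real.exp (4 * L) := by
              rw [hE4]
              have h7 : 32 ≤ Real.exp L * Real.exp L := by nlinarith only [hELbig]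
              have h8 : 0 ≤ Real.exp L * Real.exp L := by positivity
              nlinarith only [h7, h8]
            linarith
    have h5 := hbad.trans (mul_le_mul_of_nonneg_right hδ (by positivity : (0:ℝ) ≤ (N' : ℝ) / P + 1))
    have h6 : (N' : ℝ) / (2 * P) = (N' : ℝ) / P / 2 := by field_simp
    rw [h6]
    have h7 : (0:ℝ) ≤ A := Nat.cast_nonneg _
    have h8 : 0 < Real.exp L := hEL0
    nlinarith only [h3, h4, h5, hSlow, hNP, hzL, h7, h8]
  -- from `n` to the modulus
  have hex : ∀ n : ℤ, ∃ j : Fin J₀, n ∈ Good → CovP (Pm x) (L ^ 6) z (V j) n := by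
    intro n
    by_cases hn : n ∈ Good
    · obtain ⟨j, hj⟩ := (Finset.mem_filter.1 hn).2.2
      exact ⟨j, fun _ => hj⟩
    · exact ⟨⟨0, hJpos⟩, fun h => absurd h hn⟩
  choose jf hjf using hex
  set D : Finset ℕ := (Ioc M (M + N)).filter (fun d => RecA A c (ff X) d) with hD
  have hmap : ∀ n ∈ Good, n.toNat + t (jf n) ∈ D := by
    intro n hn
    have hn' := hn
    rw [hGood, Finset.mem_filter, hS, Finset.mem_filter, Finset.mem_Ioc] at hn'
    obtain ⟨⟨⟨h1, h2⟩, h3⟩, h4, -⟩ := hn'
    have h5 : (0:ℤ) < n := by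
      have : (0:ℤ) ≤ M := by positivity
      omega
    have h6 := Int.toNat_of_nonneg h5.le
    have h7 : ((n.toNat : ℕ) : ℝ) = (n : ℝ) := by exact_mod_cast h6
    have h8 : t (jf n) ≤ J₀ * Q := Nat.mul_le_mul_right _ (jf n).2.le
    rw [hD, Finset.mem_filter, Finset.mem_Ioc]
    refine ⟨⟨by omega, by omega⟩, ?_⟩
    have hWl : WW l ≤ Cw / l2 := by
      rw [le_div_iff₀ hl20]
      exact (hWb l (by linarith)).2
    have hff0 : 0 ≤ ff X := by
      unfold ff
      have e1 : x ≤ Real.log X := by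
        rw [hlogX, le_div_iff₀ hη]
        nlinarith only [hx0, hη1]
      have e2 : l ≤ Real.log (Real.log X) := Real.log_le_log hx0 e1
      have e3 : l2 ≤ Real.log (Real.log (Real.log X)) := Real.log_le_log hl0 e2
      have e4 : l3 ≤ Real.log (Real.log (Real.log (Real.log X))) := Real.log_le_log hl20 e3
      have e5 : 0 ≤ Real.log X := by linarith
      have e6 : 0 ≤ Real.log (Real.log (Real.log (Real.log X))) := by linarith
      positivity
    have hffle := ff_le hη g1 g3a hlogX hη1 g7 g8 hl1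
    apply rec_ok (x := x) (z := z) (K := L ^ 6) (N := N₀) (b := b) g1 hA g6a (by rw [h7]; exact h4) (by
        have e1 : L / (6400 * e) + 1 ≤ z := Real.add_one_le_exp _
        have e2 : (A : ℝ) ≤ L / (6400 * e) := by
          rw [le_div_iff₀ (by positivity)]
          have e3 : 6400 * e ≤ s := by
            have e4 : 4 * Real.log L ≤ 2 * s := by linarith
            have e5 : Real.log L ≤ 1 / 1600 * s := by
              have e6 : Real.log s ≤ 1 / 3200 * s := by
                have e7 := Real.pow_div_factorial_le_exp (1 / 3200 * s) (by positivity) 1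
                have e8 : Real.log s = Real.log L / 2 := by rw [hs]; exact Real.log_sqrt hL0.le
                have e9 : 240 ≤ Real.log s := by
                  rw [e8]
                  have : 480 ≤ Real.log L := by rw [Real.le_log_iff_exp_le hL0]; exact g5
                  linarith
                set r := Real.log s with hr
                have e10 : s = Real.exp r := by rw [hr, Real.exp_log hs0]
                rw [e10]
                have e11 := Real.pow_div_factorial_le_exp r (by linarith) 4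
                norm_num [Nat.factorial] at e11
                have e12 : 240 ^ 3 * r ≤ r ^ 4 := by
                  have e13 : (240:ℝ) ^ 3 ≤ r ^ 3 := pow_le_pow_left₀ (by norm_num) e9 3
                  have e14 : r ^ 4 = r ^ 3 * r := by ring
                  rw [e14]
                  exact mul_le_mul_of_nonneg_right e13 (by linarith)
                nlinarith only [e11, e12, e9]
              have e8 : Real.log s = Real.log L / 2 := by rw [hs]; exact Real.log_sqrt hL0.le
              linarith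
            rw [he]
            linarith
          have e4 : (A : ℝ) * (6400 * e) ≤ (A : ℝ) * s := mul_le_mul_of_nonneg_left e3 (by linarith)
          have e5 : (A : ℝ) ≤ s := by
            have e6 : (A : ℝ) ≤ Real.log L := by linarith
            linarith
          have e6 : (A : ℝ) * s ≤ s * s := mul_le_mul_of_nonneg_right e5 hs0.le
          linarith
        linarith) (by
        rw [h6]
        exact (Int.modEq_iff_dvd.2 h3).symm) (hPQ.trans (htQ _)) hb1 hb2 (by
        rw [h6]
        exact hjf n hn) hc0.le hff0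
    have e1 : c * (primorial A) * WW l * ff X ≤ c * (primorial A) * (Cw / l2) *
        (1024 / η * (x * l ^ 2 * l3 / l2 ^ 2)) := by
      apply mul_le_mul _ hffle hff0 (by positivity)
      exact mul_le_mul_of_nonneg_left hWl (by positivity)
    have e2 : c * (primorial A) * (Cw / l2) * (1024 / η * (x * l ^ 2 * l3 / l2 ^ 2)) = κ * G / 4 := by
      rw [hc, hG]
      field_simp
      ring
    rw [e2] at e1
    linarith
  have hcard : Good.card ≤ J₀ * (Good.image (fun n : ℤ => n.toNat + t (jf n))).card := by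
    apply Finset.card_le_mul_card_image
    intro d _
    have h1 : Good.filter (fun n : ℤ => n.toNat + t (jf n) = d) ⊆
        (Finset.univ : Finset (Fin J₀)).image (fun j => (d : ℤ) - t j) := by
      intro n hn
      rw [Finset.mem_filter] at hn
      obtain ⟨h2, h3⟩ := hn
      rw [hGood, Finset.mem_filter, hS, Finset.mem_filter, Finset.mem_Ioc] at h2
      have h5 : (0:ℤ) < n := by
        have : (0:ℤ) ≤ M := by positivity
        omega
      have h6 := Int.toNat_of_nonneg h5.le
      rw [Finset.mem_image]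
      refine ⟨jf n, Finset.mem_univ _, ?_⟩
      have h7 : ((n.toNat + t (jf n) : ℕ) : ℤ) = d := by exact_mod_cast h3
      push_cast at h7
      rw [h6] at h7
      linarith
    refine (Finset.card_le_card h1).trans (Finset.card_image_le.trans ?_)
    rw [Finset.card_univ, Fintype.card_fin]
  have hsub : Good.image (fun n : ℤ => n.toNat + t (jf n)) ⊆ D := by
    intro d hd
    rw [Finset.mem_image] at hd
    obtain ⟨n, hn, rfl⟩ := hd
    exact hmap n hn
  have h1 : (Good.card : ℝ) ≤ J₀ * D.card := by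
    have h2 := hcard.trans (Nat.mul_le_mul_left _ (Finset.card_le_card hsub))
    exact_mod_cast h2
  have h2 : (N' : ℝ) / (2 * P) ≤ J₀ * D.card := hGcard.trans h1
  have h3 : (N : ℝ) ≤ 4 * P * J₀ * D.card := by
    rw [div_le_iff₀ (by positivity)] at h2
    linarith
  have h4 : 4 * (P : ℝ) * J₀ ≤ Real.exp (4 * L) := by
    have h5 : (P : ℝ) ≤ Real.exp L := hPx.trans (Real.exp_le_exp.2 (by linarith))
    have h6 : (J₀ : ℝ) ≤ Real.exp L := hJL.trans (Real.exp_le_exp.2 (by linarith))
    calc 4 * (P : ℝ) * J₀ ≤ 4 * Real.exp L * Real.exp L := by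
          apply mul_le_mul _ h6 hJr.le (by positivity)
          linarith
      _ ≤ _ := by
          rw [hE4]
          have h7 : 4 ≤ Real.exp L * Real.exp L := by nlinarith only [hELbig]
          have h8 : 0 ≤ Real.exp L * Real.exp L := by positivity
          nlinarith only [h7, h8]
  have h5 : X ^ (-η) = Real.exp (-(4 * L)) := by
    rw [Real.rpow_def_of_pos hX0, hlogX, hL]
    congr 1
    field_simp
    ring
  rw [h5]
  have h6 : (N : ℝ) ≤ Real.exp (4 * L) * D.card := by
    refine h3.trans ?_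
    exact mul_le_mul_of_nonneg_right h4 (Nat.cast_nonneg _)
  calc (N : ℝ) * Real.exp (-(4 * L)) ≤ Real.exp (4 * L) * D.card * Real.exp (-(4 * L)) :=
        mul_le_mul_of_nonneg_right h6 (Real.exp_pos _).le
    _ = D.card * (Real.exp (4 * L) * Real.exp (-(4 * L))) := by ring
    _ = D.card := by
        rw [← Real.exp_add]
        simp

end Pool.Agent.T2h81.UC
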