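import Pool.Agent.T2h81.UC.E2
import Pool.Agent.T2h81.UC.B4

set_option autoImplicit false
set_option linter.unusedSectionVars false
set_option linter.unusedVariables false
set_option maxHeartbeats 4000000

/-! # Grouping for general families, and one class of the variable -/

namespace Pool.Agent.T2h81.UC

open Finset Filter Pool.Agent.H256R2.SC Pool.Agent.Y831.RC

open scoped Classical

/-- from groups to the number of covered sets, general predicate -/
theorem group_countQ (S : Finset ℤ) (Q : ℕ → ℤ → Prop) (m J₀ g : ℕ) (hg : 0 < g) (a : ℕ → ℕ)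
    (ha : ∀ k < g * J₀, a k < m ∧ ∀ k' < k, a k' ≠ a k) (Bd : ℝ)
    (hb : ∀ r < g, ((S.filter (fun n => ¬ ∃ s : Fin J₀, Q (a (r * J₀ + s)) n)).card : ℝ) ≤ Bd) :
    ((S.filter (fun n => (((range m).filter (fun i => Q i n)).card : ℝ) < g / 2)).card : ℝ) ≤
      2 * Bd := by
  have hg0 : (0:ℝ) < g := by exact_mod_cast hg
  set bad : ℤ → Finset ℕ := fun n => (range g).filter (fun r => ¬ ∃ s : Fin J₀, Q (a (r * J₀ + s)) n)
    with hbad
  set good : ℤ → Finset ℕ := fun n => (range g).filter (fun r => ∃ s : Fin J₀, Q (a (r * J₀ + s)) n)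
    with hgood
  have hsum : ∀ n, (good n).card + (bad n).card = g := by
    intro n
    have := Finset.card_filter_add_card_filter_not (s := range g)
      (fun r => ∃ s : Fin J₀, Q (a (r * J₀ + s)) n)
    rw [Finset.card_range] at this
    exact this
  have hinj : ∀ k < g * J₀, ∀ k' < g * J₀, a k = a k' → k = k' := by
    intro k hk k' hk' h
    rcases lt_trichotomy k k' with h1 | h1 | h1
    · exact absurd h ((ha k' hk').2 k h1)
    · exact h1
    · exact absurd h.symm ((ha k hk).2 k' h1)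
  have hlt : ∀ r < g, ∀ s : Fin J₀, r * J₀ + s < g * J₀ := by
    intro r hr s
    have h1 := s.2
    calc r * J₀ + (s : ℕ) < r * J₀ + J₀ := by omega
      _ = (r + 1) * J₀ := by ring
      _ ≤ g * J₀ := Nat.mul_le_mul_right _ hr
  have hcov : ∀ n, (good n).card ≤ ((range m).filter (fun i => Q i n)).card := by
    intro n
    have hex : ∀ r, ∃ s : ℕ, r ∈ good n → s < J₀ ∧ Q (a (r * J₀ + s)) n := by
      intro r
      by_cases h : r ∈ good n
      · obtain ⟨s, hs⟩ := (Finset.mem_filter.1 h).2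
        exact ⟨s, fun _ => ⟨s.2, hs⟩⟩
      · exact ⟨0, fun h' => absurd h' h⟩
    choose f hf using hex
    apply Finset.card_le_card_of_injOn (fun r => a (r * J₀ + f r))
    · intro r hr
      rw [Finset.mem_coe] at hr
      obtain ⟨h1, h2⟩ := hf r hr
      have hr' := Finset.mem_range.1 (Finset.mem_filter.1 hr).1
      rw [Finset.mem_coe, Finset.mem_filter, Finset.mem_range]
      exact ⟨(ha _ (hlt r hr' ⟨f r, h1⟩)).1, h2⟩
    · intro r hr r' hr' h
      rw [Finset.mem_coe] at hr hr'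
      obtain ⟨h1, h2⟩ := hf r hr
      obtain ⟨h1', h2'⟩ := hf r' hr'
      have hr1 := Finset.mem_range.1 (Finset.mem_filter.1 hr).1
      have hr1' := Finset.mem_range.1 (Finset.mem_filter.1 hr').1
      have h3 := hinj _ (hlt r hr1 ⟨f r, h1⟩) _ (hlt r' hr1' ⟨f r', h1'⟩) h
      have h4 : (r * J₀ + f r) / J₀ = (r' * J₀ + f r') / J₀ := by
        have : r * J₀ + f r = r' * J₀ + f r' := h3
        rw [this]
      have hJ : 0 < J₀ := by omega
      rwa [mul_comm r, mul_comm r', Nat.mul_add_div hJ, Nat.mul_add_div hJ, Nat.div_eq_of_lt h1,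
        Nat.div_eq_of_lt h1', add_zero, add_zero] at h4
  set T : Finset ℤ := S.filter (fun n => (((range m).filter (fun i => Q i n)).card : ℝ) < g / 2)
    with hT
  have h1 : (g : ℝ) / 2 * T.card ≤ ∑ n ∈ T, ((bad n).card : ℝ) := by
    rw [mul_comm, ← nsmul_eq_mul, ← Finset.sum_const]
    apply Finset.sum_le_sum
    intro n hn
    have h2 := (Finset.mem_filter.1 hn).2
    have h3 : ((good n).card : ℝ) < g / 2 := lt_of_le_of_lt (by exact_mod_cast hcov n) h2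
    have h4 : ((good n).card : ℝ) + (bad n).card = g := by exact_mod_cast hsum n
    linarith
  have h2 : ∑ n ∈ T, ((bad n).card : ℝ) ≤ ∑ n ∈ S, ((bad n).card : ℝ) :=
    Finset.sum_le_sum_of_subset_of_nonneg (Finset.filter_subset _ _) fun _ _ _ => Nat.cast_nonneg _
  have h3 : ∑ n ∈ S, ((bad n).card : ℝ) = ∑ r ∈ range g,
      ((S.filter (fun n => ¬ ∃ s : Fin J₀, Q (a (r * J₀ + s)) n)).card : ℝ) := by
    have : ∑ n ∈ S, (bad n).card = ∑ r ∈ range g,
      (S.filter (fun n => ¬ ∃ s : Fin J₀, Q (a (r * J₀ + s)) n)).card := by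
      simp only [hbad]
      exact Finset.sum_card_bipartiteAbove_eq_sum_card_bipartiteBelow
        (fun n r => ¬ ∃ s : Fin J₀, Q (a (r * J₀ + s)) n)
    exact_mod_cast this
  have h4 : ∑ r ∈ range g,
      ((S.filter (fun n => ¬ ∃ s : Fin J₀, Q (a (r * J₀ + s)) n)).card : ℝ) ≤ g * Bd := by
    calc _ ≤ ∑ _r ∈ range g, Bd := Finset.sum_le_sum fun r hr => hb r (Finset.mem_range.1 hr)
      _ = g * Bd := by rw [Finset.sum_const, Finset.card_range, nsmul_eq_mul]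
  have h5 : (g : ℝ) / 2 * T.card ≤ g * Bd := h1.trans (h2.trans (h3.le.trans h4))
  have h6 : (g : ℝ) * T.card ≤ g * (2 * Bd) := by linarith
  exact le_of_mul_le_mul_left h6 hg0

/-- one class: a proportion of all the sets of forms -/
theorem cls_grp : ∃ c₃ e₀ L₀ : ℝ, 0 < c₃ ∧ 6400 ≤ e₀ ∧ 10 ^ 8 ≤ L₀ ∧ ∀ L e : ℝ, L₀ ≤ L → e₀ ≤ e →
    e ≤ 1 / 4 * Real.log L → ∀ T B₀ : ℝ, 0 ≤ T → T ≤ L ^ 2 → 0 ≤ B₀ → B₀ ≤ L ^ 2 →
    ∀ m : ℕ, Real.exp (Real.exp (2 * e)) ≤ m →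
    ∀ (V : ℕ → Finset (ℤ × ℤ)) (K : Finset ℕ) (D₀ : Finset ℕ) (P₁ : ℕ) (b : ℤ),
    K ⊆ range m → (m : ℝ) / 2 ≤ K.card → P₁ ∣ primorial ⌊L / 32⌋₊ →
    (∀ p ∈ D₀, p.Prime ∧ L ^ 6 < (p : ℝ)) → (D₀.card : ℝ) ≤ B₀ →
    (∀ i ∈ K, ∀ v ∈ V i, ∀ p : ℕ, p.Prime → L ^ 6 < p → p ∉ D₀ → ¬ (p : ℤ) ∣ v.1) →
    (∀ i ∈ K, ∀ v ∈ V i, ∀ v' ∈ V i, v ≠ v' → ∀ p : ℕ, p.Prime → L ^ 6 < p → p ∉ D₀ →
      ¬ (p : ℤ) ∣ dtm v v') →
    (∀ i ∈ K, ∀ j ∈ K, i ≠ j → ∀ v ∈ V i, ∀ v' ∈ V j, dtm v v' ≠ 0 ∧ |(dtm v v' : ℝ)| ≤ Real.exp T) →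
    (∀ i ∈ K, ((svL P₁ b (V i)).card : ℝ) ≤ c₃ * e * L / Real.log L) →
    ∀ (M : ℤ) (N : ℕ), Real.exp (2 * L) ≤ N →
    (((Ioc M (M + N)).filter (fun n : ℤ => ((primorial ⌊L / 32⌋₊ : ℕ) : ℤ) ∣ n - b ∧
      (((range m).filter (fun i => CovP P₁ (L ^ 6) (Real.exp (L / (6400 * e))) (V i) n)).card : ℝ) <
        Real.exp (-Real.exp (2 * e)) * m)).card : ℝ) ≤
      2 * ((17 * Real.exp (-(e / 2)) + (T + B₀ + 1) / L ^ 3) *
        ((N : ℝ) / (primorial ⌊L / 32⌋₊ : ℝ) + 1)) := by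
  obtain ⟨c₃, e₀, L₀, hc₃, he₀, hL₀, hcls⟩ := class_mainU
  refine ⟨c₃, e₀, L₀, hc₃, he₀, hL₀, ?_⟩
  intro L e hL he heu T B₀ hT hTL hB₀ hBL m hm V K D₀ P₁ b hKm hKc hP₁ hDp hDc hpos hin hcross hcard M N hN
  have he6400 : 6400 ≤ e := he₀.trans he
  have he0 : 0 < e := by linarith
  have hL8 : (10 : ℝ) ^ 8 ≤ L := hL₀.trans hL
  have hLpos : 0 < L := by linarith
  set θ : ℝ := Real.exp (-Real.exp (2 * e)) with hθ
  have hθ0 : 0 < θ := Real.exp_pos _
  set J₀ : ℕ := ⌈Real.exp (e ^ 2 * Real.exp e + e / 2)⌉₊ with hJ₀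
  have hJ1 : Real.exp (e ^ 2 * Real.exp e + e / 2) ≤ (J₀ : ℝ) := Nat.le_ceil _
  have hJpos : 0 < J₀ := by
    have : (0:ℝ) < J₀ := (Real.exp_pos _).trans_le hJ1
    exact_mod_cast this
  have hJr : (0:ℝ) < J₀ := by exact_mod_cast hJpos
  have hJb := J_bound he6400
  rw [← hJ₀] at hJb
  have hθJ : θ * (16 * J₀) ≤ 1 := by
    rw [hθ, Real.exp_neg, inv_mul_le_iff₀ (Real.exp_pos _), mul_one]
    exact hJb
  have hLJ : (J₀ : ℝ) ≤ Real.exp (Real.sqrt L) := by
    have h1 : Real.exp (2 * e) ≤ Real.sqrt L := by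
      have h2 : Real.sqrt L = Real.exp (Real.log L / 2) := by
        rw [← Real.log_sqrt hLpos.le, Real.exp_log (Real.sqrt_pos.2 hLpos)]
      rw [h2]
      apply Real.exp_le_exp.2
      linarith
    have h3 := Real.exp_le_exp.2 h1
    linarith
  have hmJ : 16 * (J₀ : ℝ) ≤ m := hJb.trans hm
  have hm0 : (0:ℝ) < m := lt_of_lt_of_le (by positivity) hmJ
  set g : ℕ := m / (4 * J₀) with hg
  have hg1 : g * (4 * J₀) ≤ m := Nat.div_mul_le_self _ _
  have hg1r : (g : ℝ) * (4 * J₀) ≤ m := by exact_mod_cast hg1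
  have hg2 : (m : ℝ) < (g + 1) * (4 * J₀) := by
    have : m < (g + 1) * (4 * J₀) := by
      have := Nat.lt_div_mul_add (a := m) (show 0 < 4 * J₀ by positivity)
      rw [← hg] at this
      linarith [this]
    exact_mod_cast this
  have hg3 : (m : ℝ) / (8 * J₀) ≤ g := by
    rw [div_le_iff₀ (by positivity)]
    nlinarith only [hg2, hmJ, hJr]
  have hg0 : 0 < g := by
    have : (0:ℝ) < g := lt_of_lt_of_le (by positivity) hg3
    exact_mod_cast this
  have hθg : θ * m ≤ g / 2 := by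
    have h1 : θ * m ≤ m / (16 * J₀) := by
      rw [le_div_iff₀ (by positivity)]
      have h2 : θ * (16 * J₀) * m ≤ 1 * m := mul_le_mul_of_nonneg_right hθJ hm0.le
      linarith
    have h2 : (m : ℝ) / (16 * J₀) = m / (8 * J₀) / 2 := by field_simp; norm_num
    linarith
  have hK : g * J₀ + J₀ * 0 ≤ K.card := by
    have h1 : ((g * J₀ + J₀ * 0 : ℕ) : ℝ) ≤ K.card := by
      push_cast
      refine le_trans ?_ hKc
      linarith
    exact_mod_cast h1
  obtain ⟨a, ha⟩ := seq_groups K (fun _ _ => False) J₀ 0 hJpos (by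
    intro i _
    simp) (g * J₀) hK
  set S : Finset ℤ := (Ioc M (M + N)).filter (fun n : ℤ => ((primorial ⌊L / 32⌋₊ : ℕ) : ℤ) ∣ n - b)
    with hS
  have hgc := group_countQ S (fun i n => CovP P₁ (L ^ 6) (Real.exp (L / (6400 * e))) (V i) n) m J₀ g hg0 a
    (fun k hk => ⟨Finset.mem_range.1 (hKm (ha k hk).1), fun k' hk' => ((ha k hk).2 k' hk').1⟩)
    ((17 * Real.exp (-(e / 2)) + (T + B₀ + 1) / L ^ 3) *
        ((N : ℝ) / (primorial ⌊L / 32⌋₊ : ℝ) + 1)) (by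
      intro r hr
      have hlt : ∀ s : Fin J₀, r * J₀ + s < g * J₀ := by
        intro s
        have h1 := s.2
        calc r * J₀ + (s : ℕ) < r * J₀ + J₀ := by omega
          _ = (r + 1) * J₀ := by ring
          _ ≤ g * J₀ := Nat.mul_le_mul_right _ hr
      have hKs : ∀ s : Fin J₀, a (r * J₀ + s) ∈ K := fun s => (ha _ (hlt s)).1
      have hne : ∀ s s' : Fin J₀, s ≠ s' → a (r * J₀ + s) ≠ a (r * J₀ + s') := by
        intro s s' hss
        have hss' : (s : ℕ) ≠ s' := fun h => hss (Fin.ext h)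
        rcases Nat.lt_or_gt_of_ne hss' with h | h
        · exact ((ha _ (hlt s')).2 (r * J₀ + s) (by omega)).1
        · exact ((ha _ (hlt s)).2 (r * J₀ + s') (by omega)).1.symm
      have h1 := hcls L e hL he heu J₀ hJ1 hLJ T B₀ hT hTL hB₀ hBL
        (fun s : Fin J₀ => V (a (r * J₀ + s))) D₀ P₁ b hP₁ hDp hDc
        (fun s => hpos _ (hKs s)) (fun s => hin _ (hKs s))
        (fun s s' hss => hcross _ (hKs s) _ (hKs s') (hne s s' hss))
        (fun s => hcard _ (hKs s)) M N hN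
      refine le_trans (le_of_eq ?_) h1
      congr 2
      rw [hS, Finset.filter_filter])
  refine le_trans ?_ hgc
  rw [Nat.cast_le]
  apply Finset.card_le_card
  intro n hn
  rw [Finset.mem_filter] at hn
  rw [Finset.mem_filter, hS, Finset.mem_filter]
  exact ⟨⟨hn.1, hn.2.1⟩, lt_of_lt_of_le hn.2.2 hθg⟩

end Pool.Agent.T2h81.UC
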