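import Pool.Agent.T2h81.UC.G1

set_option autoImplicit false
set_option linter.unusedSectionVars false
set_option linter.unusedVariables false
set_option maxHeartbeats 4000000

/-! # Families of sets of linear forms with few survivors on average, uniform version -/

namespace Pool.Agent.T2h81.UC

open Finset Filter Pool.Agent.H256R2.SC Pool.Agent.Y831.RC

open scoped Classical

theorem fam_uni : ∃ c₃ e₀ L₀ : ℝ, 0 < c₃ ∧ 6400 ≤ e₀ ∧ 10 ^ 8 ≤ L₀ ∧ ∀ L e : ℝ, L₀ ≤ L → e₀ ≤ e →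
    e ≤ 1 / 4 * Real.log L → ∀ T B₀ : ℝ, 0 ≤ T → T ≤ L ^ 2 → 0 ≤ B₀ → B₀ ≤ L ^ 2 →
    ∀ m : ℕ, Real.exp (Real.exp (2 * e)) ≤ m →
    ∀ (V : ℕ → Finset (ℤ × ℤ)) (D₀ : Finset ℕ) (P₁ : ℕ), P₁ ∣ primorial ⌊L / 32⌋₊ →
    (∀ p ∈ D₀, p.Prime ∧ L ^ 6 < (p : ℝ)) → (D₀.card : ℝ) ≤ B₀ →
    (∀ i < m, ∀ v ∈ V i, ∀ p : ℕ, p.Prime → L ^ 6 < p → p ∉ D₀ → ¬ (p : ℤ) ∣ v.1) →
    (∀ i < m, ∀ v ∈ V i, ∀ v' ∈ V i, v ≠ v' → ∀ p : ℕ, p.Prime → L ^ 6 < p → p ∉ D₀ →
      ¬ (p : ℤ) ∣ dtm v v') →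
    (∀ i < m, ∀ j < m, i ≠ j → ∀ v ∈ V i, ∀ v' ∈ V j, dtm v v' ≠ 0 ∧ |(dtm v v' : ℝ)| ≤ Real.exp T) →
    ∀ ε : ℝ, 0 < ε → 17 * Real.exp (-(e / 2)) + (T + B₀ + 1) / L ^ 3 ≤ ε / 64 →
    (∀ i < m, ∑ b ∈ range (primorial ⌊L / 32⌋₊), ((svL P₁ (b : ℤ) (V i)).card : ℝ) ≤
      ε / 64 * (c₃ * e * L / Real.log L) * primorial ⌊L / 32⌋₊) →
    ∀ (M : ℤ) (N : ℕ), Real.exp (2 * L) ≤ N →
    (((Ioc M (M + N)).filter (fun n : ℤ =>
      (((range m).filter (fun i => CovP P₁ (L ^ 6) (Real.exp (L / (6400 * e))) (V i) n)).card : ℝ) <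
        Real.exp (-Real.exp (2 * e)) * m)).card : ℝ) ≤ ε / 8 * N := by
  obtain ⟨c₃, e₀, L₀, hc₃, he₀, hL₀, hcls⟩ := cls_grp
  refine ⟨c₃, e₀, L₀, hc₃, he₀, hL₀, ?_⟩
  intro L e hL he heu T B₀ hT hTL hB₀ hBL m hm V D₀ P₁ hP₁ hDp hDc hpos hin hcross ε hε hδ havg M N hN
  have he6400 : 6400 ≤ e := he₀.trans he
  have he0 : 0 < e := by linarith
  have hL8 : (10 : ℝ) ^ 8 ≤ L := hL₀.trans hL
  have hLpos : 0 < L := by linarith
  have hlog : 0 < Real.log L := Real.log_pos (by linarith)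
  set P : ℕ := primorial ⌊L / 32⌋₊ with hP
  have hPpos : 0 < P := primorial_pos _
  have hPr : (0:ℝ) < P := by exact_mod_cast hPpos
  have hPx : (P:ℝ) ≤ Real.exp (L / 16) := by
    refine (primorial_le_exp (L / 32) (by positivity)).trans (le_of_eq ?_)
    congr 1
    ring
  have hPN : (P : ℝ) ≤ N := hPx.trans ((Real.exp_le_exp.2 (by linarith)).trans hN)
  have hm0 : (0:ℝ) < m := (Real.exp_pos _).trans_le hm
  set q : ℝ := c₃ * e * L / Real.log L with hq
  have hq0 : 0 < q := by positivity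
  set δ : ℝ := 17 * Real.exp (-(e / 2)) + (T + B₀ + 1) / L ^ 3 with hδ'
  set θ : ℝ := Real.exp (-Real.exp (2 * e)) with hθ
  set z : ℝ := Real.exp (L / (6400 * e)) with hz
  set Gb : ℕ → Finset ℕ := fun b => (range m).filter (fun i => ((svL P₁ (b : ℤ) (V i)).card : ℝ) ≤ q)
    with hGb
  have hgood : ∀ b : ℕ, (m : ℝ) / 2 ≤ (Gb b).card →
      (((Ioc M (M + N)).filter (fun n : ℤ => (P : ℤ) ∣ n - b ∧ ¬ (θ * m ≤ (((range m).filter
      (fun i => CovP P₁ (L ^ 6) z (V i) n)).card : ℝ)))).card : ℝ) ≤ 2 * (δ * ((N : ℝ) / P + 1)) := by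
    intro b hb
    have hlt : ∀ i ∈ Gb b, i < m := fun i hi => Finset.mem_range.1 (Finset.mem_filter.1 hi).1
    have h1 := hcls L e hL he heu T B₀ hT hTL hB₀ hBL m hm V (Gb b) D₀ P₁ (b : ℤ)
      (Finset.filter_subset _ _) hb hP₁ hDp hDc
      (fun i hi => hpos i (hlt i hi)) (fun i hi => hin i (hlt i hi))
      (fun i hi j hj => hcross i (hlt i hi) j (hlt j hj))
      (fun i hi => (Finset.mem_filter.1 hi).2) M N hN
    refine le_trans ?_ h1
    rw [Nat.cast_le]
    apply Finset.card_le_card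
    intro n hn
    rw [Finset.mem_filter] at hn ⊢
    exact ⟨hn.1, hn.2.1, not_le.1 hn.2.2⟩
  set Bb : Finset ℕ := (range P).filter (fun b => ((Gb b).card : ℝ) < m / 2) with hBb
  have hBbc : (Bb.card : ℝ) ≤ ε / 32 * P := by
    have h1 : (m : ℝ) / 2 * Bb.card ≤ ∑ b ∈ range P, ∑ i ∈ range m,
        ((svL P₁ (b : ℤ) (V i)).card : ℝ) / q := by
      calc (m : ℝ) / 2 * Bb.card = ∑ _b ∈ Bb, (m : ℝ) / 2 := by
            rw [Finset.sum_const, nsmul_eq_mul]; ring
        _ ≤ ∑ b ∈ Bb, ∑ i ∈ range m, ((svL P₁ (b : ℤ) (V i)).card : ℝ) / q := by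
            apply Finset.sum_le_sum
            intro b hb
            have h2 := (Finset.mem_filter.1 hb).2
            have h3 : ((Gb b).card : ℝ) +
                ((range m).filter (fun i => ¬ ((svL P₁ (b : ℤ) (V i)).card : ℝ) ≤ q)).card = m := by
              have := Finset.card_filter_add_card_filter_not (s := range m)
                (fun i => ((svL P₁ (b : ℤ) (V i)).card : ℝ) ≤ q)
              rw [Finset.card_range] at this
              exact_mod_cast this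
            have h4 : (m : ℝ) / 2 ≤
                ((range m).filter (fun i => ¬ ((svL P₁ (b : ℤ) (V i)).card : ℝ) ≤ q)).card := by linarith
            refine h4.trans ?_
            calc (((range m).filter (fun i => ¬ ((svL P₁ (b : ℤ) (V i)).card : ℝ) ≤ q)).card : ℝ)
                = ∑ i ∈ (range m).filter (fun i => ¬ ((svL P₁ (b : ℤ) (V i)).card : ℝ) ≤ q), (1:ℝ) := by
                  rw [Finset.sum_const, nsmul_eq_mul, mul_one]
              _ ≤ ∑ i ∈ (range m).filter (fun i => ¬ ((svL P₁ (b : ℤ) (V i)).card : ℝ) ≤ q),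
                  ((svL P₁ (b : ℤ) (V i)).card : ℝ) / q := by
                  apply Finset.sum_le_sum
                  intro i hi
                  have h5 := not_le.1 (Finset.mem_filter.1 hi).2
                  rw [le_div_iff₀ hq0]
                  linarith
              _ ≤ _ := Finset.sum_le_sum_of_subset_of_nonneg (Finset.filter_subset _ _)
                  fun _ _ _ => div_nonneg (Nat.cast_nonneg _) hq0.le
        _ ≤ _ := Finset.sum_le_sum_of_subset_of_nonneg (Finset.filter_subset _ _)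
            fun _ _ _ => Finset.sum_nonneg fun _ _ => div_nonneg (Nat.cast_nonneg _) hq0.le
    have h2 : ∑ b ∈ range P, ∑ i ∈ range m, ((svL P₁ (b : ℤ) (V i)).card : ℝ) / q ≤
        m * (ε / 64 * P) := by
      rw [Finset.sum_comm]
      calc ∑ i ∈ range m, ∑ b ∈ range P, ((svL P₁ (b : ℤ) (V i)).card : ℝ) / q
          ≤ ∑ _i ∈ range m, (ε / 64 * P) := by
            apply Finset.sum_le_sum
            intro i hi
            rw [← Finset.sum_div, div_le_iff₀ hq0]
            have h3 := havg i (Finset.mem_range.1 hi)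
            refine h3.trans (le_of_eq ?_)
            ring
        _ = _ := by rw [Finset.sum_const, Finset.card_range, nsmul_eq_mul]
    have h4 : (m : ℝ) * (Bb.card / 2) ≤ m * (ε / 64 * P) := by
      calc (m : ℝ) * (Bb.card / 2) = m / 2 * Bb.card := by ring
        _ ≤ _ := h1.trans h2
    have h5 := le_of_mul_le_mul_left h4 hm0
    linarith
  -- the sum over the classes
  have hall := sum_classes (Ioc M (M + N)) P hPpos (fun n => θ * m ≤ (((range m).filter
      (fun i => CovP P₁ (L ^ 6) z (V i) n)).card : ℝ))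
  have hlhs : ((Ioc M (M + N)).filter (fun n => (((range m).filter
      (fun i => CovP P₁ (L ^ 6) z (V i) n)).card : ℝ) < θ * m)) =
      (Ioc M (M + N)).filter (fun n => ¬ (θ * m ≤ (((range m).filter
      (fun i => CovP P₁ (L ^ 6) z (V i) n)).card : ℝ))) := by
    apply Finset.filter_congr
    intro n _
    rw [not_le]
  rw [hlhs]
  refine hall.trans ?_
  have hN1 : 0 ≤ (N : ℝ) / P + 1 := by positivity
  have hterm : ∀ b ∈ range P, (((Ioc M (M + N)).filter (fun n : ℤ => (P : ℤ) ∣ n - b ∧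
      ¬ (θ * m ≤ (((range m).filter (fun i => CovP P₁ (L ^ 6) z (V i) n)).card : ℝ)))).card : ℝ) ≤
      (if b ∈ Bb then ((N : ℝ) / P + 1) else 0) + 2 * (ε / 64 * ((N : ℝ) / P + 1)) := by
    intro b hb
    by_cases hbB : b ∈ Bb
    · rw [if_pos hbB]
      have h1 : (((Ioc M (M + N)).filter (fun n : ℤ => (P : ℤ) ∣ n - b ∧
        ¬ (θ * m ≤ (((range m).filter (fun i => CovP P₁ (L ^ 6) z (V i) n)).card : ℝ)))).card : ℝ) ≤
        (N : ℝ) / P + 1 := by
        refine le_trans ?_ (count_class M N P hPpos b)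
        rw [Nat.cast_le]
        apply Finset.card_le_card
        intro n hn
        rw [Finset.mem_filter] at hn ⊢
        exact ⟨hn.1, hn.2.1⟩
      have h2 : 0 ≤ 2 * (ε / 64 * ((N : ℝ) / P + 1)) := by positivity
      linarith
    · rw [if_neg hbB, zero_add]
      refine (hgood b ?_).trans ?_
      · by_contra hcon
        push Not at hcon
        exact hbB (Finset.mem_filter.2 ⟨hb, hcon⟩)
      · have := mul_le_mul_of_nonneg_right hδ hN1
        linarith
  refine (Finset.sum_le_sum hterm).trans ?_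
  rw [Finset.sum_add_distrib, Finset.sum_const, Finset.card_range, nsmul_eq_mul]
  have h1 : ∑ b ∈ range P, (if b ∈ Bb then ((N : ℝ) / P + 1) else 0) = Bb.card * ((N : ℝ) / P + 1) := by
    rw [← Finset.sum_filter]
    have : (range P).filter (fun b => b ∈ Bb) = Bb := by
      ext b
      rw [Finset.mem_filter]
      exact ⟨fun h => h.2, fun h => ⟨(Finset.mem_filter.1 h).1, h⟩⟩
    rw [this, Finset.sum_const, nsmul_eq_mul]
  rw [h1]
  have h3 : (Bb.card : ℝ) * ((N : ℝ) / P + 1) ≤ ε / 32 * P * ((N : ℝ) / P + 1) :=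
    mul_le_mul_of_nonneg_right hBbc hN1
  have h4 : (P : ℝ) * ((N : ℝ) / P + 1) = N + P := by field_simp
  have h5 : (P : ℝ) * (2 * (ε / 64 * ((N : ℝ) / P + 1))) = ε / 32 * (N + P) := by
    rw [← h4]; ring
  have h6 : ε / 32 * P * ((N : ℝ) / P + 1) = ε / 32 * (N + P) := by rw [mul_assoc, h4]
  rw [h5]
  rw [h6] at h3
  have h7 : ε / 32 * ((N : ℝ) + P) ≤ ε / 32 * (2 * N) :=
    mul_le_mul_of_nonneg_left (by linarith) (by positivity)
  linarith only [h3, h7]

end Pool.Agent.T2h81.UC
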