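import Pool.Agent.T2h81.UC.G2
import Pool.Agent.N837.LP.Tot
import Pool.Agent.N837.LP.SumA

set_option autoImplicit false
set_option linter.unusedSectionVars false
set_option linter.unusedVariables false
set_option maxHeartbeats 4000000

/-! # The linear forms of the Goldbach problem for all multiples -/

namespace Pool.Agent.T2h81.UC

open Finset Filter Pool.Agent.H256R2.SC Pool.Agent.Y831.RC

open scoped Classical

/-- the classes in which a linear form is prime to `P` -/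
theorem cnt_lin (P a : ℕ) (hP : Squarefree P) (ha : 1 ≤ a) (h : ℤ) :
    (((range P).filter (fun b : ℕ => Int.gcd ((a : ℤ) * b + h) P = 1)).card : ℝ) ≤
      2 * ((a : ℝ) / a.totient) * P.totient := by
  have hP0 : 0 < P := Nat.pos_of_ne_zero hP.ne_zero
  set g : ℕ := Nat.gcd a P with hg
  have hgP : g ∣ P := Nat.gcd_dvd_right _ _
  have hga : g ∣ a := Nat.gcd_dvd_left _ _
  obtain ⟨P', hP'⟩ := hgP
  have hg0 : 0 < g := Nat.gcd_pos_of_pos_right _ hP0
  have hP'0 : 0 < P' := by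
    rcases Nat.eq_zero_or_pos P' with h0 | h0
    · rw [h0, mul_zero] at hP'; omega
    · exact h0
  have hcop : Nat.Coprime g P' := (Nat.squarefree_mul_iff.1 (hP' ▸ hP)).1
  have haP : Nat.Coprime a P' := by
    have h1 : Nat.gcd a P' ∣ g := by
      rw [hg]
      exact Nat.dvd_gcd (Nat.gcd_dvd_left _ _) ((Nat.gcd_dvd_right _ _).trans (Dvd.intro_left g hP'.symm))
    have h2 : Nat.gcd a P' ∣ Nat.gcd g P' := Nat.dvd_gcd h1 (Nat.gcd_dvd_right _ _)
    rw [hcop] at h2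
    exact Nat.dvd_one.1 h2
  obtain ⟨u, v, huv⟩ : IsCoprime (a : ℤ) (P' : ℤ) := Nat.isCoprime_iff_coprime.2 haP
  have hP'z : (0 : ℤ) < P' := by exact_mod_cast hP'0
  obtain ⟨w, hw⟩ : ∃ w : ℕ, (w : ℤ) = (u * h) % P' :=
    ⟨((u * h) % P').toNat, Int.toNat_of_nonneg (Int.emod_nonneg _ hP'z.ne')⟩
  have h1 : ((range P).filter (fun b : ℕ => Int.gcd ((a : ℤ) * b + h) P = 1)).card ≤
      P'.totient * (P / P' + 1) := by
    refine le_trans ?_ (Nat.Ico_filter_coprime_le w P hP'0.ne')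
    apply Finset.card_le_card_of_injOn (fun b => b + w)
    · intro b hb
      rw [Finset.mem_coe, Finset.mem_filter, Finset.mem_range] at hb
      rw [Finset.mem_coe, Finset.mem_filter, Finset.mem_Ico]
      refine ⟨⟨by show w ≤ b + w; omega, by show b + w < w + P; omega⟩, ?_⟩
      have h2 : IsCoprime ((a : ℤ) * b + h) (P : ℤ) := Int.isCoprime_iff_gcd_eq_one.2 hb.2
      have h3 : IsCoprime ((a : ℤ) * b + h) (P' : ℤ) := by
        have : (P : ℤ) = g * P' := by exact_mod_cast hP'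
        rw [this] at h2
        exact h2.of_mul_right_right
      have h4 : IsCoprime ((a : ℤ) * (b + u * h)) (P' : ℤ) := by
        have h5 : (a : ℤ) * (b + u * h) = ((a : ℤ) * b + h) + P' * (- (v * h)) := by
          linear_combination h * huv
        rw [h5]
        exact IsCoprime.add_mul_left_left h3 _
      have h6 : IsCoprime ((b : ℤ) + u * h) (P' : ℤ) := h4.of_mul_left_right
      have h7 : IsCoprime ((b : ℤ) + w) (P' : ℤ) := by
        have h8 : (b : ℤ) + w = ((b : ℤ) + u * h) + P' * (-((u * h) / P')) := by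
          rw [hw]
          have := Int.emod_add_mul_ediv (u * h) P'
          linarith
        rw [h8]
        exact IsCoprime.add_mul_left_left h6 _
      have h9 : IsCoprime (((b + w : ℕ) : ℤ)) (P' : ℤ) := by push_cast; exact h7
      exact (Nat.isCoprime_iff_coprime.1 h9).symm
    · intro b _ b' _ hbb
      simp only at hbb
      omega
  have h2 : P / P' = g := by rw [hP']; exact Nat.mul_div_cancel _ hP'0
  rw [h2] at h1
  have h3 : (((range P).filter (fun b : ℕ => Int.gcd ((a : ℤ) * b + h) P = 1)).card : ℝ) ≤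
      P'.totient * (g + 1) := by exact_mod_cast h1
  refine h3.trans ?_
  have htot : (P.totient : ℝ) = g.totient * P'.totient := by
    rw [hP', Nat.totient_mul hcop]; push_cast; ring
  have hg1 : (1:ℝ) ≤ g := by exact_mod_cast hg0
  have ha0 : (0:ℝ) < a := by exact_mod_cast ha
  have hta : (0:ℝ) < a.totient := by exact_mod_cast Nat.totient_pos.2 ha
  have hr := Pool.Agent.N837.LP.totient_le_of_dvd hga
  have h5 : (g : ℝ) ≤ (a : ℝ) / a.totient * g.totient := by
    rw [div_mul_eq_mul_div, le_div_iff₀ hta]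
    linarith
  have h6 : (0:ℝ) ≤ P'.totient := Nat.cast_nonneg _
  rw [htot]
  calc (P'.totient : ℝ) * (g + 1) ≤ P'.totient * (2 * g) := mul_le_mul_of_nonneg_left (by linarith) h6
    _ ≤ P'.totient * (2 * ((a : ℝ) / a.totient * g.totient)) :=
        mul_le_mul_of_nonneg_left (by linarith) h6
    _ = _ := by ring

/-- the forms `a (X + k) ± p`, `a ≤ A`, `p ≤ Y` a prime not dividing `a` -/
noncomputable def VG (A Y k : ℕ) : Finset (ℤ × ℤ) :=
  (((Icc 1 A ×ˢ ((Icc 1 Y).filter Nat.Prime)).filter (fun q => ¬ q.2 ∣ q.1)) ×ˢ ({1, -1} : Finset ℤ)).image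
    (fun q => ((q.1.1 : ℤ), (q.1.1 : ℤ) * k + q.2 * q.1.2))

theorem mem_VG {A Y k : ℕ} {v : ℤ × ℤ} : v ∈ VG A Y k ↔ ∃ (a p : ℕ) (σ : ℤ), 1 ≤ a ∧ a ≤ A ∧ p.Prime ∧
    p ≤ Y ∧ ¬ p ∣ a ∧ (σ = 1 ∨ σ = -1) ∧ v = ((a : ℤ), (a : ℤ) * k + σ * p) := by
  unfold VG
  rw [Finset.mem_image]
  constructor
  · rintro ⟨⟨⟨a, p⟩, σ⟩, hq, rfl⟩
    rw [Finset.mem_product, Finset.mem_filter, Finset.mem_product, Finset.mem_filter, Finset.mem_Icc,
      Finset.mem_Icc] at hq
    simp only [Finset.mem_insert, Finset.mem_singleton] at hq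
    exact ⟨a, p, σ, hq.1.1.1.1, hq.1.1.1.2, hq.1.1.2.2, hq.1.1.2.1.2, hq.1.2, hq.2, rfl⟩
  · rintro ⟨a, p, σ, h1, h2, h3, h4, h5, h6, rfl⟩
    refine ⟨((a, p), σ), ?_, rfl⟩
    rw [Finset.mem_product, Finset.mem_filter, Finset.mem_product, Finset.mem_filter, Finset.mem_Icc,
      Finset.mem_Icc]
    simp only [Finset.mem_insert, Finset.mem_singleton]
    exact ⟨⟨⟨⟨h1, h2⟩, ⟨h3.one_lt.le, h4⟩, h3⟩, h5⟩, h6⟩

theorem sg_abs {σ : ℤ} (h : σ = 1 ∨ σ = -1) (a p : ℕ) : |(a : ℤ) * (σ * p)| = a * p := by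
  rw [abs_mul]
  rcases h with h | h <;> rw [h] <;> simp

theorem VG_in {A Y k : ℕ} {v v' : ℤ × ℤ} (hv : v ∈ VG A Y k) (hv' : v' ∈ VG A Y k) (hne : v ≠ v') :
    dtm v v' ≠ 0 ∧ |(dtm v v' : ℝ)| ≤ 2 * A * Y := by
  obtain ⟨a, p, σ, h1, h2, h3, h4, h5, h6, rfl⟩ := mem_VG.1 hv
  obtain ⟨a', p', σ', h1', h2', h3', h4', h5', h6', rfl⟩ := mem_VG.1 hv'
  have hd : dtm ((a : ℤ), (a : ℤ) * k + σ * p) ((a' : ℤ), (a' : ℤ) * k + σ' * p') =
      a * (σ' * p') - a' * (σ * p) := by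
    unfold dtm; ring
  rw [hd]
  constructor
  · intro h0
    have h7 : (a : ℤ) * (σ' * p') = a' * (σ * p) := by linarith
    have h8 : (a : ℤ) * p' = a' * p := by
      have := congrArg abs h7
      rw [sg_abs h6', sg_abs h6] at this
      exact this
    have h9 : a * p' = a' * p := by exact_mod_cast h8
    have h10 : p ∣ a * p' := Dvd.intro_left a' h9.symm
    have h11 : p ∣ p' := (h3.dvd_mul.1 h10).resolve_left h5
    have h12 : p = p' := (Nat.prime_dvd_prime_iff_eq h3 h3').1 h11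
    subst h12
    have h13 : a = a' := Nat.eq_of_mul_eq_mul_right h3.pos h9
    subst h13
    apply hne
    have h14 : (a : ℤ) ≠ 0 := by exact_mod_cast (by omega : a ≠ 0)
    have h15 := mul_left_cancel₀ h14 h7
    rw [h15]
  · have e1 : |((a : ℤ) * (σ' * p') - a' * (σ * p) : ℤ)| ≤ 2 * A * Y := by
      refine (abs_sub _ _).trans ?_
      rw [sg_abs h6', sg_abs h6]
      have e2 : a * p' ≤ A * Y := Nat.mul_le_mul h2 h4'
      have e3 : a' * p ≤ A * Y := Nat.mul_le_mul h2' h4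
      have e4 : ((a * p' : ℕ) : ℤ) ≤ ((A * Y : ℕ) : ℤ) := by exact_mod_cast e2
      have e5 : ((a' * p : ℕ) : ℤ) ≤ ((A * Y : ℕ) : ℤ) := by exact_mod_cast e3
      push_cast at e4 e5
      linarith
    exact_mod_cast e1

theorem VG_cross {A Y k k' B : ℕ} (hk : k ≤ B) (hk' : k' ≤ B) (hkk : k + 2 * Y < k' ∨ k' + 2 * Y < k)
    {v v' : ℤ × ℤ} (hv : v ∈ VG A Y k) (hv' : v' ∈ VG A Y k') :
    dtm v v' ≠ 0 ∧ |(dtm v v' : ℝ)| ≤ A * A * B + 2 * A * Y := by
  obtain ⟨a, p, σ, h1, h2, h3, h4, h5, h6, rfl⟩ := mem_VG.1 hv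
  obtain ⟨a', p', σ', h1', h2', h3', h4', h5', h6', rfl⟩ := mem_VG.1 hv'
  have hd : dtm ((a : ℤ), (a : ℤ) * k + σ * p) ((a' : ℤ), (a' : ℤ) * k' + σ' * p') =
      a * a' * ((k' : ℤ) - k) + (a * (σ' * p') - a' * (σ * p)) := by
    unfold dtm; ring
  have e1 : |((a : ℤ) * (σ' * p') - a' * (σ * p) : ℤ)| ≤ a * p' + a' * p := by
    refine (abs_sub _ _).trans ?_
    rw [sg_abs h6', sg_abs h6]
  rw [hd]
  constructor
  · intro h0
    have e2 : |(a : ℤ) * a' * ((k' : ℤ) - k)| ≤ a * p' + a' * p := by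
      have e3 : (a : ℤ) * a' * ((k' : ℤ) - k) = -(a * (σ' * p') - a' * (σ * p)) := by linarith
      rw [e3, abs_neg]
      exact e1
    rw [abs_mul] at e2
    have e4 : |(a : ℤ) * a'| = a * a' := abs_of_nonneg (by positivity)
    rw [e4] at e2
    have e5 : (2 * Y + 1 : ℤ) ≤ |(k' : ℤ) - k| := by
      rcases hkk with h | h
      · rw [abs_of_nonneg (by omega)]; omega
      · rw [abs_of_nonpos (by omega)]; omega
    have f1 : (1 : ℤ) ≤ a := by exact_mod_cast h1
    have f2 : (1 : ℤ) ≤ a' := by exact_mod_cast h1'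
    have f3 : (p : ℤ) ≤ Y := by exact_mod_cast h4
    have f4 : (p' : ℤ) ≤ Y := by exact_mod_cast h4'
    have f5 : (0 : ℤ) ≤ Y := by positivity
    have g1 : (a : ℤ) * a' * (2 * Y + 1) ≤ a * p' + a' * p :=
      (mul_le_mul_of_nonneg_left e5 (by positivity)).trans e2
    have g2 : (a : ℤ) * p' ≤ a * a' * Y := by
      calc (a : ℤ) * p' ≤ a * Y := mul_le_mul_of_nonneg_left f4 (by positivity)
        _ = a * 1 * Y := by ring
        _ ≤ a * a' * Y := by
            apply mul_le_mul_of_nonneg_right _ f5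
            exact mul_le_mul_of_nonneg_left f2 (by positivity)
    have g3 : (a' : ℤ) * p ≤ a * a' * Y := by
      calc (a' : ℤ) * p ≤ a' * Y := mul_le_mul_of_nonneg_left f3 (by positivity)
        _ = 1 * a' * Y := by ring
        _ ≤ a * a' * Y := by
            apply mul_le_mul_of_nonneg_right _ f5
            exact mul_le_mul_of_nonneg_right f1 (by positivity)
    have g4 : (1 : ℤ) ≤ a * a' := by nlinarith
    nlinarith
  · have e2 : |((a : ℤ) * a' * ((k' : ℤ) - k) + (a * (σ' * p') - a' * (σ * p)) : ℤ)| ≤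
        A * A * B + 2 * A * Y := by
      refine (abs_add_le _ _).trans ?_
      apply add_le_add
      · rw [abs_mul, abs_mul, Nat.abs_cast, Nat.abs_cast]
        have e3 : |(k' : ℤ) - k| ≤ B := by
          rw [abs_le]; constructor <;> omega
        have e4 : ((a * a' : ℕ) : ℤ) ≤ ((A * A : ℕ) : ℤ) := by exact_mod_cast Nat.mul_le_mul h2 h2'
        push_cast at e4
        exact mul_le_mul e4 e3 (abs_nonneg _) (by positivity)
      · refine e1.trans ?_
        have e2 : a * p' ≤ A * Y := Nat.mul_le_mul h2 h4'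
        have e3 : a' * p ≤ A * Y := Nat.mul_le_mul h2' h4
        have e4 : ((a * p' : ℕ) : ℤ) ≤ ((A * Y : ℕ) : ℤ) := by exact_mod_cast e2
        have e5 : ((a' * p : ℕ) : ℤ) ≤ ((A * Y : ℕ) : ℤ) := by exact_mod_cast e3
        push_cast at e4 e5
        linarith
    exact_mod_cast e2

theorem sum_image_le' {α β : Type*} [DecidableEq β] (s : Finset α) (f : α → β) (g : β → ℝ) (hg : ∀ b, 0 ≤ g b) :
    ∑ b ∈ s.image f, g b ≤ ∑ a ∈ s, g (f a) := by
  induction s using Finset.induction_on with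
  | empty => simp
  | insert a s ha ih =>
    rw [Finset.image_insert, Finset.sum_insert ha]
    by_cases h : f a ∈ s.image f
    · rw [Finset.insert_eq_of_mem h]
      linarith [hg (f a)]
    · rw [Finset.sum_insert h]
      linarith

/-- the mean number of survivors -/
theorem VG_avg (P A Y k : ℕ) (hP : Squarefree P) :
    ∑ b ∈ range P, ((svL P (b : ℤ) (VG A Y k)).card : ℝ) ≤
      16 * A * (((Icc 1 Y).filter Nat.Prime).card : ℝ) * P.totient := by
  have h1 : ∑ b ∈ range P, ((svL P (b : ℤ) (VG A Y k)).card : ℝ) =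
      ∑ v ∈ VG A Y k, (((range P).filter (fun b : ℕ => Int.gcd (v.1 * b + v.2) P = 1)).card : ℝ) := by
    have : ∑ b ∈ range P, (svL P (b : ℤ) (VG A Y k)).card =
      ∑ v ∈ VG A Y k, ((range P).filter (fun b : ℕ => Int.gcd (v.1 * b + v.2) P = 1)).card := by
      unfold svL
      exact Finset.sum_card_bipartiteAbove_eq_sum_card_bipartiteBelow
        (fun (b : ℕ) (v : ℤ × ℤ) => Int.gcd (v.1 * b + v.2) P = 1)
    exact_mod_cast this
  rw [h1]
  unfold VG
  refine (sum_image_le' _ _ _ (fun _ => Nat.cast_nonneg _)).trans ?_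
  rw [Finset.sum_product]
  have h2 : ∀ q ∈ ((Icc 1 A ×ˢ ((Icc 1 Y).filter Nat.Prime)).filter (fun q => ¬ q.2 ∣ q.1)),
      ∑ σ ∈ ({1, -1} : Finset ℤ), (((range P).filter (fun b : ℕ =>
        Int.gcd (((((q, σ) : (ℕ × ℕ) × ℤ).1.1 : ℤ), (((q, σ) : (ℕ × ℕ) × ℤ).1.1 : ℤ) * k +
          ((q, σ) : (ℕ × ℕ) × ℤ).2 * ((q, σ) : (ℕ × ℕ) × ℤ).1.2).1 * b +
          ((((q, σ) : (ℕ × ℕ) × ℤ).1.1 : ℤ), (((q, σ) : (ℕ × ℕ) × ℤ).1.1 : ℤ) * k +
          ((q, σ) : (ℕ × ℕ) × ℤ).2 * ((q, σ) : (ℕ × ℕ) × ℤ).1.2).2) P = 1)).card : ℝ) ≤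
        4 * ((q.1 : ℝ) / q.1.totient) * P.totient := by
    intro q hq
    rw [Finset.mem_filter, Finset.mem_product, Finset.mem_Icc] at hq
    rw [Finset.sum_pair (by norm_num)]
    have e1 := cnt_lin P q.1 hP hq.1.1.1 ((q.1 : ℤ) * k + 1 * q.2)
    have e2 := cnt_lin P q.1 hP hq.1.1.1 ((q.1 : ℤ) * k + -1 * q.2)
    simp only at e1 e2 ⊢
    linarith
  refine (Finset.sum_le_sum h2).trans ?_
  have h3 : ∑ q ∈ ((Icc 1 A ×ˢ ((Icc 1 Y).filter Nat.Prime)).filter (fun q => ¬ q.2 ∣ q.1)),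
      4 * ((q.1 : ℝ) / q.1.totient) * P.totient ≤
      ∑ q ∈ (Icc 1 A ×ˢ ((Icc 1 Y).filter Nat.Prime)), 4 * ((q.1 : ℝ) / q.1.totient) * P.totient :=
    Finset.sum_le_sum_of_subset_of_nonneg (Finset.filter_subset _ _) fun _ _ _ => by positivity
  refine h3.trans ?_
  rw [Finset.sum_product]
  simp only [Finset.sum_const, nsmul_eq_mul]
  have h4 := Pool.Agent.N837.LP.sum_div_totient A
  rw [← Finset.mul_sum]
  have h5 : ∑ a ∈ Icc 1 A, 4 * ((a : ℝ) / a.totient) * P.totient =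
      4 * P.totient * ∑ a ∈ Icc 1 A, ((a : ℝ) / a.totient) := by
    rw [Finset.mul_sum]
    apply Finset.sum_congr rfl
    intro a _
    ring
  rw [h5]
  have h6 : (0:ℝ) ≤ ((Icc 1 Y).filter Nat.Prime).card := Nat.cast_nonneg _
  calc (((Icc 1 Y).filter Nat.Prime).card : ℝ) * (4 * P.totient * ∑ a ∈ Icc 1 A, ((a : ℝ) / a.totient))
      ≤ (((Icc 1 Y).filter Nat.Prime).card : ℝ) * (4 * P.totient * (4 * A)) := by
        apply mul_le_mul_of_nonneg_left _ h6
        exact mul_le_mul_of_nonneg_left h4 (by positivity)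
    _ = _ := by ring

end Pool.Agent.T2h81.UC
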