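import Pool.Agent.T2h81.UC.G3

set_option autoImplicit false
set_option linter.unusedSectionVars false
set_option linter.unusedVariables false
set_option maxHeartbeats 4000000

/-! # Large least summands for all the multiples: counting lemmas -/

namespace Pool.Agent.T2h81.UC

open Finset Filter Pool.Agent.H256R2.SC Pool.Agent.Y831.RC

open scoped Classical

/-- an average over the shifts -/
theorem shift_markov (S : Finset ℤ) (s : ℕ) (hs : 0 < s) (Bad : ℕ → ℤ → Prop) (D : ℝ)
    (h : ∀ k ∈ Icc 1 s, ((S.filter (fun n => Bad k n)).card : ℝ) ≤ D) :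
    ((S.filter (fun n => (s : ℝ) / 4 < (((Icc 1 s).filter (fun k => Bad k n)).card : ℝ))).card : ℝ) ≤
      4 * D := by
  have hs0 : (0:ℝ) < s := by exact_mod_cast hs
  set T : Finset ℤ := S.filter (fun n => (s : ℝ) / 4 < (((Icc 1 s).filter (fun k => Bad k n)).card : ℝ))
    with hT
  have h1 : (s : ℝ) / 4 * T.card ≤ ∑ n ∈ T, (((Icc 1 s).filter (fun k => Bad k n)).card : ℝ) := by
    rw [mul_comm, ← nsmul_eq_mul, ← Finset.sum_const]
    apply Finset.sum_le_sum
    intro n hn
    exact (Finset.mem_filter.1 hn).2.le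
  have h2 : ∑ n ∈ T, (((Icc 1 s).filter (fun k => Bad k n)).card : ℝ) ≤
      ∑ n ∈ S, (((Icc 1 s).filter (fun k => Bad k n)).card : ℝ) :=
    Finset.sum_le_sum_of_subset_of_nonneg (Finset.filter_subset _ _) fun _ _ _ => Nat.cast_nonneg _
  have h3 : ∑ n ∈ S, (((Icc 1 s).filter (fun k => Bad k n)).card : ℝ) =
      ∑ k ∈ Icc 1 s, ((S.filter (fun n => Bad k n)).card : ℝ) := by
    have : ∑ n ∈ S, ((Icc 1 s).filter (fun k => Bad k n)).card =
        ∑ k ∈ Icc 1 s, (S.filter (fun n => Bad k n)).card :=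
      Finset.sum_card_bipartiteAbove_eq_sum_card_bipartiteBelow (fun (n : ℤ) (k : ℕ) => Bad k n)
    exact_mod_cast this
  have h4 : ∑ k ∈ Icc 1 s, ((S.filter (fun n => Bad k n)).card : ℝ) ≤ s * D := by
    calc _ ≤ ∑ _k ∈ Icc 1 s, D := Finset.sum_le_sum h
      _ = s * D := by rw [Finset.sum_const, Nat.card_Icc, nsmul_eq_mul]; simp
  have h5 : (s : ℝ) * T.card ≤ s * (4 * D) := by
    have := h1.trans (h2.trans (h3.le.trans h4))
    linarith
  exact le_of_mul_le_mul_left h5 hs0

/-- from good shifts to many even integers -/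
theorem even_count (n Y m₁ m : ℕ) (hm : (2 * Y + 2) * m₁ ≤ m) (G : ℕ → Finset ℕ) (Pr : ℕ → Prop) (t : ℝ)
    (ht : 0 ≤ t)
    (hG : ∀ k ∈ Icc 1 (2 * Y + 2), G k ⊆ range m₁)
    (hPr : ∀ k ∈ Icc 1 (2 * Y + 2), ∀ i ∈ G k, Pr (n + (k + (2 * Y + 2) * i)))
    (hB : (((Icc 1 (2 * Y + 2)).filter (fun k => ((G k).card : ℝ) < t)).card : ℝ) ≤
      ((2 * Y + 2 : ℕ) : ℝ) / 4) :
    ((2 * Y + 2 : ℕ) : ℝ) / 4 * t ≤ (((Ioc n (n + m)).filter (fun k => Even k ∧ Pr k)).card : ℝ) := by
  set s : ℕ := 2 * Y + 2 with hs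
  have hs0 : 0 < s := by omega
  set E₀ : Finset ℕ := (Icc 1 s).filter (fun k => Even (n + k)) with hE₀
  have hE₀c : ((s : ℕ) : ℝ) / 2 ≤ E₀.card := by
    have h1 : (range (Y + 1)).card ≤ E₀.card := by
      apply Finset.card_le_card_of_injOn (fun j => if Even n then 2 * j + 2 else 2 * j + 1)
      · intro j hj
        rw [Finset.mem_coe, Finset.mem_range] at hj
        rw [Finset.mem_coe, hE₀, Finset.mem_filter, Finset.mem_Icc]
        by_cases hn : Even n
        · simp only [if_pos hn]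
          refine ⟨⟨by omega, by omega⟩, ?_⟩
          rw [Nat.even_iff] at hn ⊢
          omega
        · simp only [if_neg hn]
          refine ⟨⟨by omega, by omega⟩, ?_⟩
          rw [Nat.even_iff] at hn ⊢
          omega
      · intro j _ j' _ h
        simp only at h
        split_ifs at h <;> omega
    rw [Finset.card_range] at h1
    have h2 : ((Y + 1 : ℕ) : ℝ) ≤ E₀.card := by exact_mod_cast h1
    rw [hs]
    push_cast at h2 ⊢
    linarith
  set E : Finset ℕ := E₀.filter (fun k => t ≤ ((G k).card : ℝ)) with hE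
  have hEc : ((s : ℕ) : ℝ) / 4 ≤ E.card := by
    have h1 : E₀.card = E.card + (E₀.filter (fun k => ¬ t ≤ ((G k).card : ℝ))).card :=
      (Finset.card_filter_add_card_filter_not (s := E₀) (fun k => t ≤ ((G k).card : ℝ))).symm
    have h2 : ((E₀.filter (fun k => ¬ t ≤ ((G k).card : ℝ))).card : ℝ) ≤ ((s : ℕ) : ℝ) / 4 := by
      refine le_trans ?_ hB
      rw [Nat.cast_le]
      apply Finset.card_le_card
      intro k hk
      rw [Finset.mem_filter, hE₀, Finset.mem_filter] at hk
      rw [Finset.mem_filter]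
      exact ⟨hk.1.1, not_le.1 hk.2⟩
    have h3 : (E₀.card : ℝ) = E.card + (E₀.filter (fun k => ¬ t ≤ ((G k).card : ℝ))).card := by
      exact_mod_cast h1
    linarith
  have h1 : (E.sigma G).card ≤ ((Ioc n (n + m)).filter (fun k => Even k ∧ Pr k)).card := by
    apply Finset.card_le_card_of_injOn (fun q => n + (q.1 + s * q.2))
    · intro q hq
      rw [Finset.mem_coe, Finset.mem_sigma, hE, Finset.mem_filter, hE₀, Finset.mem_filter] at hq
      obtain ⟨⟨⟨h1, h2⟩, h3⟩, h4⟩ := hq
      have h5 := Finset.mem_range.1 (hG _ h1 h4)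
      have h1' := Finset.mem_Icc.1 h1
      have h6 : s * q.2 + s ≤ s * m₁ := by
        have := Nat.mul_le_mul_left s (show q.2 + 1 ≤ m₁ from h5)
        linarith [this]
      rw [Finset.mem_coe, Finset.mem_filter, Finset.mem_Ioc]
      refine ⟨⟨by show n < n + (q.1 + s * q.2); omega, by show n + (q.1 + s * q.2) ≤ n + m; omega⟩, ?_,
        hPr _ h1 _ h4⟩
      have h7 : Even (s * q.2) := by
        apply Even.mul_right
        rw [hs]
        exact ⟨Y + 1, by ring⟩
      have h8 : n + (q.1 + s * q.2) = (n + q.1) + s * q.2 := by ring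
      show Even (n + (q.1 + s * q.2))
      rw [h8]
      exact h2.add h7
    · intro q hq q' hq' h
      rw [Finset.mem_coe, Finset.mem_sigma, hE, Finset.mem_filter, hE₀, Finset.mem_filter] at hq hq'
      have h1 := Finset.mem_Icc.1 hq.1.1.1
      have h2 := Finset.mem_Icc.1 hq'.1.1.1
      simp only at h
      have h3 : (q.1 - 1) + s * q.2 = (q'.1 - 1) + s * q'.2 := by omega
      have h4 : q.2 = q'.2 := by
        have e1 : ((q.1 - 1) + s * q.2) / s = q.2 := by
          rw [Nat.add_mul_div_left _ _ hs0, Nat.div_eq_of_lt (by omega), zero_add]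
        have e2 : ((q'.1 - 1) + s * q'.2) / s = q'.2 := by
          rw [Nat.add_mul_div_left _ _ hs0, Nat.div_eq_of_lt (by omega), zero_add]
        rw [← e1, ← e2, h3]
      have h5 : q.1 = q'.1 := by
        rw [h4] at h3
        omega
      obtain ⟨q1, q2⟩ := q
      obtain ⟨q1', q2'⟩ := q'
      simp only at h4 h5
      subst h4 h5
      rfl
  rw [Finset.card_sigma] at h1
  have h2 : ((∑ k ∈ E, (G k).card : ℕ) : ℝ) ≤ (((Ioc n (n + m)).filter (fun k => Even k ∧ Pr k)).card : ℝ) := by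
    exact_mod_cast h1
  refine le_trans ?_ h2
  push_cast
  calc ((s : ℕ) : ℝ) / 4 * t ≤ E.card * t := mul_le_mul_of_nonneg_right hEc ht
    _ = ∑ _k ∈ E, t := by rw [Finset.sum_const, nsmul_eq_mul]
    _ ≤ _ := Finset.sum_le_sum fun k hk => (Finset.mem_filter.1 hk).2

/-- all the primes `p` for which `m - p` or `m + p` is a prime are larger than `t` -/
def AllLg (t : ℝ) (m : ℕ) : Prop :=
  ∀ p q : ℕ, p.Prime → q.Prime → (p + q = m ∨ m + p = q) → t < p

/-- a covered set gives large summands -/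
theorem large_of_cov (A Y k n : ℕ) (P : ℕ) (w z t : ℝ) (hz : 1 ≤ z) (hn : z + Y + 2 < n) (ht : ∀ p : ℕ, (p : ℝ) ≤ t → p ≤ Y)
    (hc : CovP P w z (VG A Y k) (n : ℤ)) : ∀ a : ℕ, 1 ≤ a → a ≤ A → AllLg t (a * (n + k)) := by
  intro a ha haA p q hp hq hpq
  by_contra hcon
  push Not at hcon
  have hpY := ht p hcon
  have hpYr : (p : ℝ) ≤ Y := by exact_mod_cast hpY
  have hkn : (n : ℝ) ≤ ((n + k : ℕ) : ℝ) := by push_cast; linarith [Nat.cast_nonneg (α := ℝ) k]
  have hank : ((n + k : ℕ) : ℝ) ≤ ((a * (n + k) : ℕ) : ℝ) := by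
    have : 1 * (n + k) ≤ a * (n + k) := Nat.mul_le_mul_right _ ha
    rw [one_mul] at this
    exact_mod_cast this
  by_cases hpa : p ∣ a
  · obtain ⟨a₁, rfl⟩ := hpa
    have ha₁ : 1 ≤ a₁ := by
      rcases Nat.eq_zero_or_pos a₁ with h | h
      · rw [h, mul_zero] at ha; omega
      · exact h
    have hn3 : 3 < n := by
      have : (3:ℝ) < n := by linarith [Nat.cast_nonneg (α := ℝ) Y]
      exact_mod_cast this
    have h3 : 3 < a₁ * (n + k) := by
      calc 3 < n := hn3
        _ ≤ 1 * (n + k) := by omega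
        _ ≤ _ := Nat.mul_le_mul_right _ ha₁
    have hpd : p ∣ q := by
      rcases hpq with h | h
      · have h1 : p ∣ p + q := by rw [h, mul_assoc]; exact Dvd.intro _ rfl
        exact (Nat.dvd_add_right (dvd_refl p)).1 h1
      · rw [← h, mul_assoc]
        exact dvd_add (Dvd.intro _ rfl) (dvd_refl p)
    have hpq' : p = q := (Nat.prime_dvd_prime_iff_eq hp hq).1 hpd
    subst hpq'
    rcases hpq with h | h
    · have h1 : p * (a₁ * (n + k)) = p * 2 := by rw [← mul_assoc, ← h]; ring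
      have := Nat.eq_of_mul_eq_mul_left hp.pos h1
      omega
    · have h1 : p * a₁ * (n + k) = 0 := by omega
      have h2 : 0 < p * (a₁ * (n + k)) := Nat.mul_pos hp.pos (by omega)
      rw [← mul_assoc] at h2
      omega
  · obtain ⟨σ, hσ, hval⟩ : ∃ σ : ℤ, (σ = 1 ∨ σ = -1) ∧ (q : ℤ) = a * n + (a * k + σ * p) := by
      rcases hpq with h | h
      · refine ⟨-1, Or.inr rfl, ?_⟩
        have : (p : ℤ) + q = a * (n + k) := by exact_mod_cast h
        linarith
      · refine ⟨1, Or.inl rfl, ?_⟩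
        have : (a : ℤ) * (n + k) + p = q := by exact_mod_cast h
        linarith
    obtain ⟨r, hr, hrz, _, hrd⟩ := hc ((a : ℤ), (a : ℤ) * k + σ * p)
      (mem_VG.2 ⟨a, p, σ, ha, haA, hp, hpY, hpa, hσ, rfl⟩)
    simp only at hrd
    rw [← hval] at hrd
    have h1 : r ∣ q := by exact_mod_cast hrd
    have h2 : r = q := (Nat.prime_dvd_prime_iff_eq hr hq).1 h1
    rw [h2] at hrz
    have h3 : ((a * (n + k) : ℕ) : ℝ) ≤ q + p := by
      rcases hpq with h | h
      · rw [← h]; push_cast; linarith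
      · have : ((a * (n + k) : ℕ) : ℝ) + p = q := by exact_mod_cast h
        linarith [Nat.cast_nonneg (α := ℝ) p]
    linarith

end Pool.Agent.T2h81.UC
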