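import Pool.Agent.T2h81.UC.G4

set_option autoImplicit false
set_option linter.unusedSectionVars false
set_option linter.unusedVariables false
set_option maxHeartbeats 4000000

/-! # Large least summands for all the multiples: numerical facts -/

namespace Pool.Agent.T2h81.UC

open Finset Filter Pool.Agent.H256R2.SC Pool.Agent.Y831.RC

open scoped Classical

theorem num_gold {L e A lam ε η C' : ℝ} (hη : 0 < η) (hη1 : η ≤ 1) (hlam : 1 ≤ lam) (hε : 0 < ε)
    (hε1 : ε ≤ 1) (hA : 1 ≤ A) (hC' : 6400 ≤ C') (he : e = C' * (A * lam / (ε * η)))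
    (hL : Real.exp (4 * e) ≤ L) (hL8 : 10 ^ 8 ≤ L) :
    C' ≤ e ∧ 6400 * lam ≤ e ∧ 6400 * A ≤ e ∧ 6400 / η ≤ e ∧ 6400 ≤ ε * e ∧ e ^ 4 ≤ L ∧
    e ≤ 1 / 4 * Real.log L ∧
    1 ≤ 2 * L / η ∧ 1 ≤ Real.log (2 * L / η) ∧
    1 ≤ lam * (2 * L / η) * Real.log (2 * L / η) ∧
    2 * A * (lam * (2 * L / η) * Real.log (2 * L / η)) ≤ 8 * L ^ 3 := by
  have hL0 : 0 < L := by linarith
  have hεη : 0 < ε * η := by positivity
  have hεη1 : ε * η ≤ 1 := by nlinarith only [hε, hη, hε1, hη1]
  have hlam0 : 0 < lam := by linarith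
  have hA0 : 0 < A := by linarith
  have hC0 : 0 < C' := by linarith
  have hAl : 1 ≤ A * lam := by nlinarith only [hA, hlam]
  have g0 : A * lam ≤ A * lam / (ε * η) := by
    rw [le_div_iff₀ hεη]
    nlinarith only [hAl, hεη1]
  have g1 : A ≤ A * lam := by nlinarith only [hA, hlam]
  have g2 : lam ≤ A * lam := by nlinarith only [hA, hlam]
  have gn : 0 ≤ A * lam / (ε * η) := by positivity
  have h64 : 6400 * (A * lam / (ε * η)) ≤ e := by
    rw [he]
    exact mul_le_mul_of_nonneg_right hC' gn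
  have f1 : C' ≤ e := by
    rw [he]
    nlinarith only [hC0, g0, hAl]
  have f2 : 6400 * lam ≤ e := by linarith
  have f3 : 6400 * A ≤ e := by linarith
  have f4 : 6400 / η ≤ e := by
    have h1 : 1 / η ≤ A * lam / (ε * η) := by
      rw [div_le_div_iff₀ hη hεη]
      have h2 : ε * η ≤ η := by nlinarith only [hη, hε1]
      nlinarith only [h2, hAl, hη]
    have h2 : 6400 / η = 6400 * (1 / η) := by ring
    rw [h2]
    linarith
  have f5 : 6400 ≤ ε * e := by
    have h1 : 1 ≤ ε * (A * lam / (ε * η)) := by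
      have h2 : ε * (A * lam / (ε * η)) = A * lam / η := by field_simp
      rw [h2, le_div_iff₀ hη]
      linarith
    have h3 := mul_le_mul_of_nonneg_left h64 hε.le
    nlinarith only [h1, h3]
  have he0 : 0 < e := by linarith
  have he6400 : 6400 ≤ e := by linarith
  have f6 : e ^ 4 ≤ L := by
    have h1 := Real.pow_div_factorial_le_exp (4 * e) (by linarith) 4
    norm_num [Nat.factorial] at h1
    have h2 : 0 ≤ e ^ 4 := by positivity
    nlinarith only [h1, h2, hL]
  have f7 : e ≤ 1 / 4 * Real.log L := by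
    have : 4 * e ≤ Real.log L := by rw [Real.le_log_iff_exp_le hL0]; exact hL
    linarith
  have f8 : 2 * L ≤ 2 * L / η := by
    rw [le_div_iff₀ hη]
    nlinarith only [hL0, hη1]
  have f9 : 1 ≤ 2 * L / η := by linarith
  have hLX0 : 0 < 2 * L / η := by linarith
  have f10 : 1 ≤ Real.log (2 * L / η) := by
    rw [Real.le_log_iff_exp_le hLX0]
    have := Real.exp_one_lt_d9
    linarith
  refine ⟨f1, f2, f3, f4, f5, f6, f7, f9, f10, ?_, ?_⟩
  · have h1 : 1 ≤ lam * (2 * L / η) := by nlinarith only [hlam, f9]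
    nlinarith only [h1, f10]
  · have h1 : Real.log (2 * L / η) ≤ 2 * L / η := by
      have := Real.log_le_sub_one_of_pos hLX0
      linarith
    have h2 : 2 * L / η ≤ 2 * L * e := by
      have h3 : 1 / η ≤ e := by
        have h4 : 1 / η ≤ 6400 / η := by
          apply div_le_div_of_nonneg_right _ hη.le
          norm_num
        linarith
      have h5 : 2 * L / η = 2 * L * (1 / η) := by ring
      rw [h5]
      exact mul_le_mul_of_nonneg_left h3 (by linarith)
    have h3 : lam * (2 * L / η) * Real.log (2 * L / η) ≤ e * (2 * L * e) * (2 * L * e) := by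
      apply mul_le_mul
      · exact mul_le_mul (by linarith) h2 hLX0.le he0.le
      · linarith
      · linarith
      · positivity
    have h4 : 2 * A * (lam * (2 * L / η) * Real.log (2 * L / η)) ≤
        2 * e * (e * (2 * L * e) * (2 * L * e)) := by
      apply mul_le_mul
      · linarith
      · exact h3
      · apply mul_nonneg
        · positivity
        · linarith
      · positivity
    refine h4.trans ?_
    have h5 : 2 * e * (e * (2 * L * e) * (2 * L * e)) = 8 * L ^ 2 * e ^ 4 := by ring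
    rw [h5]
    have h6 : 8 * L ^ 3 = 8 * L ^ 2 * L := by ring
    rw [h6]
    exact mul_le_mul_of_nonneg_left f6 (by positivity)

theorem num_gold2 {L e : ℝ} (he : 6400 ≤ e) (hL8 : 10 ^ 8 ≤ L) (hL : e ^ 4 ≤ L) :
    8 * L ^ 3 < L ^ 6 ∧ L < L ^ 6 ∧ 2 * L ≤ L ^ 2 ∧ L * Real.exp L + 8 * L ^ 3 ≤ Real.exp (2 * L) ∧
    L * (Real.exp L + 8 * L ^ 3 + 3) ≤ Real.exp (2 * L) ∧ (2 * L + 0 + 1) / L ^ 3 ≤ 1 / e := by
  have hL0 : 0 < L := by linarith
  have hL1 : 1 ≤ L := by linarith
  have a1 : L ^ 3 * 8 < L ^ 3 * L ^ 3 := by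
    apply mul_lt_mul_of_pos_left _ (by positivity)
    nlinarith only [hL8, sq_nonneg L, mul_pos hL0 hL0]
  have a2 : L ^ 3 * L ^ 3 = L ^ 6 := by ring
  have a3 : 16 * (L + 8 * L ^ 3 + 3) * L ≤ Real.exp L := by
    have e1 := Real.pow_div_factorial_le_exp L hL0.le 6
    norm_num [Nat.factorial] at e1
    have e2 : L ^ 6 = L * L * L ^ 4 := by ring
    have e3 : 10 ^ 8 * 10 ^ 8 * L ^ 4 ≤ L * L * L ^ 4 := by
      apply mul_le_mul_of_nonneg_right _ (by positivity)
      exact mul_le_mul hL8 hL8 (by norm_num) hL0.le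
    have e4 : L ≤ L ^ 3 := by
      calc L = L ^ 1 := by ring
        _ ≤ L ^ 3 := pow_le_pow_right₀ hL1 (by norm_num)
    have e5 : 1 ≤ L ^ 3 := one_le_pow₀ hL1
    have e6 : (L + 8 * L ^ 3 + 3) * L ≤ 12 * L ^ 3 * L := by
      apply mul_le_mul_of_nonneg_right _ hL0.le
      linarith
    have e7 : 12 * L ^ 3 * L = 12 * L ^ 4 := by ring
    have e8 : 0 ≤ L ^ 4 := by positivity
    nlinarith only [e1, e2, e3, e6, e7, e8]
  have hE : 0 < Real.exp L := Real.exp_pos L
  have hE1 : 1 ≤ Real.exp L := Real.one_le_exp hL0.le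
  have hE2 : Real.exp (2 * L) = Real.exp L * Real.exp L := by rw [← Real.exp_add]; congr 1; ring
  have hp3 : 0 ≤ L ^ 3 := by positivity
  have b1 : L + 8 * L ^ 3 + 3 ≤ (L + 8 * L ^ 3 + 3) * L := by nlinarith only [hL1, hp3]
  refine ⟨by linarith, ?_, ?_, ?_, ?_, ?_⟩
  · calc L = L ^ 1 := by ring
      _ < L ^ 6 := pow_lt_pow_right₀ (by linarith) (by norm_num)
  · nlinarith only [hL8]
  · rw [hE2]
    have h1 : L * Real.exp L + 8 * L ^ 3 ≤ (L + 8 * L ^ 3) * Real.exp L := by nlinarith only [hE1, hp3]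
    refine h1.trans (mul_le_mul_of_nonneg_right ?_ hE.le)
    linarith
  · rw [hE2]
    have h1 : L * (Real.exp L + 8 * L ^ 3 + 3) ≤ (16 * (L + 8 * L ^ 3 + 3) * L) * Real.exp L := by
      have h2 : Real.exp L + 8 * L ^ 3 + 3 ≤ (1 + 8 * L ^ 3 + 3) * Real.exp L := by
        nlinarith only [hE1, hp3]
      have h3 : L * (Real.exp L + 8 * L ^ 3 + 3) ≤ L * ((1 + 8 * L ^ 3 + 3) * Real.exp L) :=
        mul_le_mul_of_nonneg_left h2 hL0.le
      refine h3.trans ?_
      have h4 : L * ((1 + 8 * L ^ 3 + 3) * Real.exp L) = (L * (1 + 8 * L ^ 3 + 3)) * Real.exp L := by ring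
      rw [h4]
      apply mul_le_mul_of_nonneg_right _ hE.le
      nlinarith only [hL1, hp3, mul_nonneg hL0.le hp3]
    exact h1.trans (mul_le_mul_of_nonneg_right a3 hE.le)
  · have he0 : 0 < e := by linarith
    rw [div_le_div_iff₀ (by positivity) he0]
    have h1 : e ≤ L := by
      have h2 : e ≤ e ^ 4 := by
        calc e = e ^ 1 := by ring
          _ ≤ e ^ 4 := pow_le_pow_right₀ (by linarith) (by norm_num)
      linarith
    have h3 : (2 * L + 0 + 1) * e ≤ 3 * L * L := by nlinarith only [h1, he0, hL1]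
    nlinarith only [h3, hL8, mul_pos hL0 hL0]

theorem num_gold3 {e ε : ℝ} (he : 6400 ≤ e) (hε : 6400 ≤ ε * e) (hε1 : ε ≤ 1) (hε0 : 0 < ε) :
    17 * Real.exp (-(e / 2)) + 1 / e ≤ ε / 64 := by
  have he0 : 0 < e := by linarith
  have h1 : Real.exp (-(e / 2)) ≤ 1 / e := by
    rw [Real.exp_neg, inv_eq_one_div]
    apply one_div_le_one_div_of_le he0
    have e1 := Real.pow_div_factorial_le_exp (e / 2) (by linarith) 2
    norm_num [Nat.factorial] at e1
    nlinarith only [e1, he]
  have h2 : 18 * (1 / e) ≤ ε / 64 := by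
    rw [mul_one_div, div_le_div_iff₀ he0 (by norm_num)]
    linarith
  linarith

end Pool.Agent.T2h81.UC
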