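import Pool.Agent.T2h81.UC.G5

set_option autoImplicit false
set_option linter.unusedSectionVars false
set_option linter.unusedVariables false
set_option maxHeartbeats 4000000

/-! # Large least summands for all the multiples: main theorem -/

namespace Pool.Agent.T2h81.UC

open Finset Filter Pool.Agent.H256R2.SC Pool.Agent.Y831.RC

open scoped Classical

theorem card_primes_le : ∃ x₁ : ℝ, ∀ x : ℝ, x₁ ≤ x →
    (((Icc 1 ⌊x⌋₊).filter Nat.Prime).card : ℝ) ≤ 2 * x / Real.log x := by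
  obtain ⟨x₀, h⟩ := Filter.eventually_atTop.1
    (Chebyshev.eventually_primeCounting_le (ε := 1 / 2) (by norm_num))
  refine ⟨max x₀ 2, fun x hx => ?_⟩
  have h1 := h x ((le_max_left _ _).trans hx)
  have hx2 : 2 ≤ x := (le_max_right _ _).trans hx
  have h2 : ((Icc 1 ⌊x⌋₊).filter Nat.Prime).card = Nat.primeCounting ⌊x⌋₊ := by
    rw [← Nat.primesLE_card_eq_primeCounting]
    congr 1
    ext p
    rw [Finset.mem_filter, Finset.mem_Icc, Nat.mem_primesLE]
    constructor
    · rintro ⟨⟨_, h2⟩, h3⟩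
      exact ⟨h2, h3⟩
    · rintro ⟨h2, h3⟩
      exact ⟨⟨h3.one_lt.le, h2⟩, h3⟩
  rw [h2]
  refine h1.trans ?_
  have hl : 0 ≤ Real.log x := Real.log_nonneg (by linarith)
  apply div_le_div_of_nonneg_right _ hl
  have h3 : Real.log 4 ≤ 1.4 := by
    have h4 : Real.log 4 = 2 * Real.log 2 := by
      rw [show (4:ℝ) = 2 ^ 2 by norm_num, Real.log_pow]; norm_num
    have := Real.log_two_lt_d9
    rw [h4]; linarith
  nlinarith

theorem gold_main : ∃ C : ℝ, 1 ≤ C ∧ ∀ η : ℝ, 0 < η → η ≤ 1 → ∃ X₀ : ℝ, ∀ X : ℝ, X₀ ≤ X →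
    ∀ (lam ε : ℝ) (A : ℕ), 1 ≤ lam → 0 < ε → ε ≤ 1 → 1 ≤ A → ∀ M N : ℕ, X ^ η ≤ N → ∀ m : ℕ,
    Real.log X * Real.log (Real.log X) * Real.exp (Real.exp (C * (A * lam / (ε * η)))) ≤ m →
    (m : ℝ) ≤ X ^ (η / 2) →
    (((Ioc M (M + N)).filter (fun n => (((Ioc n (n + m)).filter (fun k => Even k ∧
      ∀ a : ℕ, 1 ≤ a → a ≤ A → AllLg (lam * Real.log X * Real.log (Real.log X)) (a * k))).card : ℝ) <
        Real.exp (-Real.exp (C * (A * lam / (ε * η)))) * m)).card : ℝ) ≤ ε * N := by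
  obtain ⟨c₃, e₀, L₀, hc₃, he₀, hL₀, hfam⟩ := fam_uni
  obtain ⟨C₄, L₁, hC₄, hL₁, hW⟩ := prop_small
  obtain ⟨x₁, hx₁⟩ := card_primes_le
  obtain ⟨C', hC'⟩ : ∃ C' : ℝ, C' = 4096 * C₄ / c₃ + e₀ := ⟨_, rfl⟩
  have hq0 : 0 < 4096 * C₄ / c₃ := by positivity
  have hC'1 : 6400 ≤ C' := by linarith
  have hC'2 : 4096 * C₄ / c₃ ≤ C' := by linarith
  have hC'3 : e₀ ≤ C' := by linarith
  have hC'0 : 0 < C' := by linarith
  refine ⟨4 * C', by linarith, ?_⟩
  intro η hη hη1
  refine ⟨Real.exp (2 * (L₀ + L₁ + |x₁| + 1) / η), ?_⟩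
  intro X hX lam ε A hlam hε hε1 hA M N hN m hm1 hm2
  have hX0 : 0 < X := (Real.exp_pos _).trans_le hX
  obtain ⟨L, hL⟩ : ∃ L : ℝ, L = η / 2 * Real.log X := ⟨_, rfl⟩
  have hlogX : Real.log X = 2 * L / η := by rw [hL]; field_simp
  have hLs : L₀ + L₁ + |x₁| + 1 ≤ L := by
    have h1 : 2 * (L₀ + L₁ + |x₁| + 1) / η ≤ Real.log X := by
      rw [Real.le_log_iff_exp_le hX0]; exact hX
    rw [div_le_iff₀ hη] at h1
    rw [hL]
    linarith
  have hax : 0 ≤ |x₁| := abs_nonneg _
  have hxx : x₁ ≤ |x₁| := le_abs_self _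
  have hLL₀ : L₀ ≤ L := by linarith
  have hLL₁ : L₁ ≤ L := by linarith
  have hLx₁ : x₁ ≤ L := by linarith
  have hL8 : (10:ℝ) ^ 8 ≤ L := hL₀.trans hLL₀
  have hL0 : 0 < L := by linarith
  have hAr : (1:ℝ) ≤ A := by exact_mod_cast hA
  have hA0 : (0:ℝ) < A := by linarith
  obtain ⟨e, he⟩ : ∃ e : ℝ, e = C' * (A * lam / (ε * η)) := ⟨_, rfl⟩
  have h4e : 4 * C' * (A * lam / (ε * η)) = 4 * e := by rw [he]; ring
  rw [h4e] at hm1 ⊢
  rw [hlogX] at hm1 ⊢
  -- the size of `L`
  have hmL : (m : ℝ) ≤ Real.exp L := by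
    refine hm2.trans (le_of_eq ?_)
    rw [Real.rpow_def_of_pos hX0, hL]
    congr 1
    ring
  have hNr : Real.exp (2 * L) ≤ N := by
    refine le_trans (le_of_eq ?_) hN
    rw [Real.rpow_def_of_pos hX0, hL]
    congr 1
    ring
  obtain ⟨E4, hE4⟩ : ∃ E4 : ℝ, E4 = Real.exp (Real.exp (4 * e)) := ⟨_, rfl⟩
  rw [← hE4] at hm1
  have hE40 : 0 < E4 := by rw [hE4]; exact Real.exp_pos _
  have hLX1 : 1 ≤ 2 * L / η := by
    rw [le_div_iff₀ hη]; linarith
  have hLL1 : 1 ≤ Real.log (2 * L / η) := by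
    rw [Real.le_log_iff_exp_le (by linarith), le_div_iff₀ hη]
    have := Real.exp_one_lt_d9
    have h2 : Real.exp 1 * η ≤ Real.exp 1 * 1 := mul_le_mul_of_nonneg_left hη1 (Real.exp_pos _).le
    linarith
  have hE4m : E4 ≤ m := by
    refine le_trans ?_ hm1
    have h1 : 1 ≤ 2 * L / η * Real.log (2 * L / η) := by nlinarith only [hLX1, hLL1]
    nlinarith only [h1, hE40]
  have hL4e : Real.exp (4 * e) ≤ L := by
    apply Real.exp_le_exp.1
    rw [← hE4]
    exact hE4m.trans hmL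
  obtain ⟨f1, f2, f3, f4, f5, f6, f7, f9, f10, f11, f12⟩ :=
    num_gold hη hη1 hlam hε hε1 hAr hC'1 he hL4e hL8
  have he6400 : 6400 ≤ e := hC'1.trans f1
  have he0 : 0 < e := by linarith
  obtain ⟨k1, k2, k3, k4, k5, k6⟩ := num_gold2 he6400 hL8 f6
  have k7 := num_gold3 he6400 f5 hε1 hε
  -- the threshold
  obtain ⟨T₀, hT₀⟩ : ∃ T₀ : ℝ, T₀ = lam * (2 * L / η) * Real.log (2 * L / η) := ⟨_, rfl⟩
  rw [← hT₀] at f11 f12 ⊢
  obtain ⟨Y, hY⟩ : ∃ Y : ℕ, Y = ⌊T₀⌋₊ := ⟨_, rfl⟩
  have hT₀0 : 0 ≤ T₀ := by linarith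
  have hYT : (Y : ℝ) ≤ T₀ := by rw [hY]; exact Nat.floor_le hT₀0
  have hY0 : (0:ℝ) ≤ Y := Nat.cast_nonneg _
  obtain ⟨s, hs⟩ : ∃ s : ℕ, s = 2 * Y + 2 := ⟨_, rfl⟩
  have hs0 : 0 < s := by omega
  have hsr : (s : ℝ) = 2 * Y + 2 := by rw [hs]; push_cast; ring
  have hsr0 : (0:ℝ) < s := by exact_mod_cast hs0
  have hsT : (s : ℝ) ≤ 4 * T₀ := by rw [hsr]; linarith
  obtain ⟨m₁, hm₁⟩ : ∃ m₁ : ℕ, m₁ = m / s := ⟨_, rfl⟩
  have hm₁1 : s * m₁ ≤ m := by rw [hm₁]; exact Nat.mul_div_le _ _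
  have hm₁2 : (m : ℝ) < s * (m₁ + 1) := by
    have : m < s * (m₁ + 1) := by
      have := Nat.lt_mul_div_succ m hs0
      rw [← hm₁] at this
      exact this
    exact_mod_cast this
  obtain ⟨E2, hE2⟩ : ∃ E2 : ℝ, E2 = Real.exp (Real.exp (2 * e)) := ⟨_, rfl⟩
  have hE21 : 1 ≤ E2 := by rw [hE2]; exact Real.one_le_exp (Real.exp_pos _).le
  have hexp42 : Real.exp (2 * e) + e ≤ Real.exp (4 * e) := by
    have h1 : Real.exp (4 * e) = Real.exp (2 * e) * Real.exp (2 * e) := by rw [← Real.exp_add]; congr 1; ring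
    have h2 := Real.add_one_le_exp (2 * e)
    rw [h1]
    nlinarith only [h2, he0]
  have hEe : E2 * Real.exp e ≤ E4 := by
    rw [hE2, hE4, ← Real.exp_add]
    exact Real.exp_le_exp.2 hexp42
  have hexpe : e + 1 ≤ Real.exp e := Real.add_one_le_exp e
  have hm₁3 : E2 ≤ m₁ := by
    have h1 : 4 * T₀ * (E2 + 1) ≤ m := by
      have h2 : 4 * T₀ * (E2 + 1) ≤ 4 * T₀ * (2 * E2) := mul_le_mul_of_nonneg_left (by linarith) (by linarith)
      have h3 : 4 * T₀ * (2 * E2) = (2 * L / η * Real.log (2 * L / η)) * (8 * lam * E2) := by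
        rw [hT₀]; ring
      have h4 : 8 * lam * E2 ≤ E4 := by
        refine le_trans ?_ hEe
        rw [mul_comm E2]
        apply mul_le_mul_of_nonneg_right _ (by linarith)
        linarith
      have h5 : (2 * L / η * Real.log (2 * L / η)) * (8 * lam * E2) ≤
          2 * L / η * Real.log (2 * L / η) * E4 :=
        mul_le_mul_of_nonneg_left h4 (by positivity)
      linarith
    have h2 : 4 * T₀ * (E2 + 1) < 4 * T₀ * (m₁ + 1) := by
      have h3 : (s : ℝ) * (m₁ + 1) ≤ 4 * T₀ * (m₁ + 1) := mul_le_mul_of_nonneg_right hsT (by positivity)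
      linarith
    have h3 := lt_of_mul_lt_mul_left h2 (by linarith)
    linarith
  have hm₁0 : (1:ℝ) ≤ m₁ := hE21.trans hm₁3
  obtain ⟨θ₁, hθ₁⟩ : ∃ θ₁ : ℝ, θ₁ = Real.exp (-Real.exp (2 * e)) := ⟨_, rfl⟩
  have hθ₁0 : 0 < θ₁ := by rw [hθ₁]; exact Real.exp_pos _
  have hcount : Real.exp (-Real.exp (4 * e)) * m ≤ ((s : ℕ) : ℝ) / 4 * (θ₁ * m₁) := by
    have h1 : Real.exp (-Real.exp (4 * e)) ≤ θ₁ / 8 := by
      have h2 : Real.exp (-Real.exp (4 * e)) ≤ Real.exp (-Real.exp (2 * e) + -e) :=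
        Real.exp_le_exp.2 (by linarith)
      rw [Real.exp_add, ← hθ₁] at h2
      refine h2.trans ?_
      have h3 : Real.exp (-e) ≤ 1 / 8 := by
        rw [Real.exp_neg, inv_eq_one_div]
        apply one_div_le_one_div_of_le (by norm_num)
        linarith
      have := mul_le_mul_of_nonneg_left h3 hθ₁0.le
      linarith
    have h2 : (m : ℝ) ≤ 2 * (s * m₁) := by
      have h3 : (s : ℝ) * (m₁ + 1) ≤ s * (2 * m₁) := mul_le_mul_of_nonneg_left (by linarith) hsr0.le
      linarith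
    calc Real.exp (-Real.exp (4 * e)) * m ≤ θ₁ / 8 * (2 * (s * m₁)) :=
          mul_le_mul h1 h2 (Nat.cast_nonneg _) (by positivity)
      _ = _ := by ring
  -- the sieve
  obtain ⟨P, hP⟩ : ∃ P : ℕ, P = primorial ⌊L / 32⌋₊ := ⟨_, rfl⟩
  have hPpos : 0 < P := by rw [hP]; exact primorial_pos _
  have hPr : (0:ℝ) < P := by exact_mod_cast hPpos
  have hPsq : Squarefree P := by rw [hP]; exact squarefree_primorial _
  obtain ⟨z, hz⟩ : ∃ z : ℝ, z = Real.exp (L / (6400 * e)) := ⟨_, rfl⟩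
  have hz1 : 1 ≤ z := by rw [hz]; exact Real.one_le_exp (by positivity)
  have hzL : z ≤ Real.exp L := by
    rw [hz]
    apply Real.exp_le_exp.2
    rw [div_le_iff₀ (by positivity)]
    nlinarith only [hL0, he6400]
  obtain ⟨hWL, hl1⟩ := hW L hLL₁
  have hAL : (A : ℝ) ≤ L := by
    have h1 : e ≤ L := by
      have h2 : e ≤ e ^ 4 := by
        calc e = e ^ 1 := by ring
          _ ≤ e ^ 4 := pow_le_pow_right₀ (by linarith) (by norm_num)
      linarith
    linarith
  have hA2L : (A : ℝ) * A ≤ L := by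
    have h1 : (A : ℝ) ≤ e := by linarith
    have h2 : (A : ℝ) * A ≤ e * e := mul_le_mul h1 h1 hA0.le he0.le
    have h3 : e * e ≤ e ^ 4 := by
      have : e * e = e ^ 2 := by ring
      rw [this]
      exact pow_le_pow_right₀ (by linarith) (by norm_num)
    linarith
  have hAY : 2 * (A : ℝ) * Y ≤ 8 * L ^ 3 := by
    refine le_trans ?_ f12
    exact mul_le_mul_of_nonneg_left hYT (by positivity)
  have hone : ∀ k₀ ∈ Icc 1 s, (((Ioc (M : ℤ) (M + N)).filter (fun n : ℤ =>
      (((range m₁).filter (fun i => CovP P (L ^ 6) z (VG A Y (k₀ + s * i)) n)).card : ℝ) <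
        θ₁ * m₁)).card : ℝ) ≤ ε / 8 * N := by
    intro k₀ hk₀
    have hk₀' := Finset.mem_Icc.1 hk₀
    have h1 := hfam L e hLL₀ (hC'3.trans f1) f7 (2 * L) 0 (by positivity) k3 le_rfl (by positivity)
      m₁ (by rw [← hE2]; exact hm₁3) (fun i => VG A Y (k₀ + s * i)) ∅ P (by rw [hP])
      (by intro p hp; simp at hp) (by simp) (by
        intro i _ v hv p hp hpL _ hdvd
        obtain ⟨a, q, σ, h1, h2, -, -, -, -, rfl⟩ := mem_VG.1 hv
        simp only at hdvd
        have h3 : p ∣ a := by exact_mod_cast hdvd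
        have h4 : p ≤ a := Nat.le_of_dvd h1 h3
        have h5 : (p : ℝ) ≤ A := by exact_mod_cast h4.trans h2
        linarith) (by
        intro i _ v hv v' hv' hne p hp hpL _ hdvd
        obtain ⟨h1, h2⟩ := VG_in hv hv' hne
        have h3 : (p : ℤ) ≤ |dtm v v'| := by
          have := Int.le_of_dvd (abs_pos.2 h1) ((dvd_abs _ _).2 hdvd)
          exact this
        have h4 : (p : ℝ) ≤ |(dtm v v' : ℝ)| := by exact_mod_cast h3
        linarith) (by
        intro i hi j hj hij v hv v' hv'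
        have hki : ∀ i < m₁, k₀ + s * i ≤ m := by
          intro i hi
          have h6 : s * (i + 1) ≤ s * m₁ := Nat.mul_le_mul_left s hi
          have h7 : s * (i + 1) = s * i + s := by ring
          omega
        have hsep : k₀ + s * i + 2 * Y < k₀ + s * j ∨ k₀ + s * j + 2 * Y < k₀ + s * i := by
          rcases Nat.lt_or_gt_of_ne hij with h | h
          · left
            have h6 : s * (i + 1) ≤ s * j := Nat.mul_le_mul_left s h
            have h7 : s * (i + 1) = s * i + s := by ring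
            omega
          · right
            have h6 : s * (j + 1) ≤ s * i := Nat.mul_le_mul_left s h
            have h7 : s * (j + 1) = s * j + s := by ring
            omega
        obtain ⟨h1, h2⟩ := VG_cross (B := m) (hki i hi) (hki j hj) hsep hv hv'
        refine ⟨h1, h2.trans ?_⟩
        refine le_trans ?_ k4
        have h3 : (A : ℝ) * A * m ≤ L * Real.exp L := mul_le_mul hA2L hmL (Nat.cast_nonneg _) hL0.le
        linarith) ε hε (by linarith) (by
        intro i _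
        rw [← hP]
        refine (VG_avg P A Y (k₀ + s * i) hPsq).trans ?_
        have h1 : (P.totient : ℝ) ≤ P * (C₄ / Real.log L) := by
          have h2 := tot_primorial (L / 32) (by positivity)
          rw [← hP] at h2
          rw [h2]
          exact mul_le_mul_of_nonneg_left hWL hPr.le
        have h2 : (((Icc 1 Y).filter Nat.Prime).card : ℝ) ≤ 4 * lam * L / η := by
          have hLXT : 2 * L / η ≤ T₀ := by
            rw [hT₀]
            have h3 : 1 * (2 * L / η) ≤ lam * (2 * L / η) := mul_le_mul_of_nonneg_right hlam (by linarith)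
            have h4 : lam * (2 * L / η) * 1 ≤ lam * (2 * L / η) * Real.log (2 * L / η) :=
              mul_le_mul_of_nonneg_left hLL1 (by positivity)
            linarith
          have hLLX : L ≤ 2 * L / η := by
            rw [le_div_iff₀ hη]
            nlinarith only [hL0, hη1]
          have h3 := hx₁ T₀ (by linarith)
          rw [← hY] at h3
          refine h3.trans ?_
          have h4 : Real.log (2 * L / η) ≤ Real.log T₀ := Real.log_le_log (by linarith) hLXT
          have h5 : 0 < Real.log (2 * L / η) := by linarith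
          calc 2 * T₀ / Real.log T₀ ≤ 2 * T₀ / Real.log (2 * L / η) :=
                div_le_div_of_nonneg_left (by linarith) h5 h4
            _ = 4 * lam * L / η := by
                rw [hT₀]
                field_simp
                ring
        have hl0 : 0 < Real.log L := by linarith
        have h3 : 16 * (A : ℝ) * (((Icc 1 Y).filter Nat.Prime).card : ℝ) * P.totient ≤
            16 * A * (4 * lam * L / η) * (P * (C₄ / Real.log L)) := by
          apply mul_le_mul _ h1 (Nat.cast_nonneg _) (by positivity)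
          exact mul_le_mul_of_nonneg_left h2 (by positivity)
        refine h3.trans ?_
        have h4 : 4096 * C₄ ≤ C' * c₃ := by
          rw [div_le_iff₀ hc₃] at hC'2
          exact hC'2
        have h5 : ε * e = C' * (A * lam / η) := by rw [he]; field_simp
        have h6 : ε / 64 * (c₃ * e * L / Real.log L) * P = (ε * e) * (c₃ * L / Real.log L * P / 64) := by ring
        rw [h6, h5]
        have h7 : 16 * (A : ℝ) * (4 * lam * L / η) * (P * (C₄ / Real.log L)) =
            (4096 * C₄) * ((A * lam / η) * (L / Real.log L * P / 64)) := by ring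
        have h8 : C' * (A * lam / η) * (c₃ * L / Real.log L * P / 64) =
            (C' * c₃) * ((A * lam / η) * (L / Real.log L * P / 64)) := by ring
        rw [h7, h8]
        exact mul_le_mul_of_nonneg_right h4 (by positivity)) (M : ℤ) N hNr
    rw [← hz, ← hθ₁] at h1
    exact h1
  have hmk := shift_markov (Ioc (M : ℤ) (M + N)) s hs0 (fun k₀ n =>
    (((range m₁).filter (fun i => CovP P (L ^ 6) z (VG A Y (k₀ + s * i)) n)).card : ℝ) < θ₁ * m₁) _ hone
  -- conclusion
  set F : Finset ℕ := (Ioc M (M + N)).filter (fun n => (((Ioc n (n + m)).filter (fun k => Even k ∧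
      ∀ a : ℕ, 1 ≤ a → a ≤ A → AllLg T₀ (a * k))).card : ℝ) < Real.exp (-Real.exp (4 * e)) * m) with hF
  have hsplit : F.card = (F.filter (fun n : ℕ => z + Y + 2 < (n : ℝ))).card +
      (F.filter (fun n : ℕ => ¬ z + Y + 2 < (n : ℝ))).card :=
    (Finset.card_filter_add_card_filter_not (s := F) (fun n : ℕ => z + Y + 2 < (n : ℝ))).symm
  have hF1 : ((F.filter (fun n : ℕ => z + Y + 2 < (n : ℝ))).card : ℝ) ≤ 4 * (ε / 8 * N) := by
    refine le_trans ?_ hmk
    rw [Nat.cast_le]
    apply Finset.card_le_card_of_injOn (fun n : ℕ => (n : ℤ))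
    · intro n hn
      rw [Finset.mem_coe, Finset.mem_filter, hF, Finset.mem_filter, Finset.mem_Ioc] at hn
      obtain ⟨⟨⟨hn1, hn2⟩, hn3⟩, hn4⟩ := hn
      rw [Finset.mem_coe, Finset.mem_filter, Finset.mem_Ioc]
      refine ⟨⟨by show (M : ℤ) < n; exact_mod_cast hn1, by show (n : ℤ) ≤ M + N; exact_mod_cast hn2⟩, ?_⟩
      by_contra hcon
      push Not at hcon
      have h1 := even_count n Y m₁ m (by rw [← hs]; exact hm₁1)
        (fun k₀ => (range m₁).filter (fun i => CovP P (L ^ 6) z (VG A Y (k₀ + s * i)) n))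
        (fun k => ∀ a : ℕ, 1 ≤ a → a ≤ A → AllLg T₀ (a * k)) (θ₁ * m₁) (by positivity)
        (fun k _ => Finset.filter_subset _ _) (by
          intro k _ i hi
          rw [← hs]
          exact large_of_cov A Y (k + s * i) n P (L ^ 6) z T₀ hz1 hn4
            (fun p hp => by rw [hY]; exact Nat.le_floor hp) (Finset.mem_filter.1 hi).2) (by
          rw [← hs]
          exact hcon)
      rw [← hs] at h1
      refine absurd (hcount.trans h1) (not_le.2 (lt_of_eq_of_lt ?_ hn3))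
      refine congrArg (fun c : ℕ => (c : ℝ)) (congrArg Finset.card ?_)
      ext k
      simp only [Finset.mem_filter]
    · intro n _ n' _ h
      simpa using h
  have hF2 : ((F.filter (fun n : ℕ => ¬ z + Y + 2 < (n : ℝ))).card : ℝ) ≤ ε / 2 * N := by
    have h1 : F.filter (fun n : ℕ => ¬ z + Y + 2 < (n : ℝ)) ⊆ range (⌊z + Y + 2⌋₊ + 1) := by
      intro n hn
      rw [Finset.mem_filter] at hn
      rw [Finset.mem_range]
      have := Nat.le_floor (not_lt.1 hn.2)
      omega
    have h2 := Finset.card_le_card h1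
    rw [Finset.card_range] at h2
    have h3 : ((F.filter (fun n : ℕ => ¬ z + Y + 2 < (n : ℝ))).card : ℝ) ≤ (⌊z + Y + 2⌋₊ : ℝ) + 1 := by
      exact_mod_cast h2
    have h4 : (⌊z + Y + 2⌋₊ : ℝ) ≤ z + Y + 2 := Nat.floor_le (by positivity)
    have h5 : (Y : ℝ) ≤ 8 * L ^ 3 := by
      refine le_trans ?_ hAY
      nlinarith only [hAr, hY0]
    have h6 : L * (z + Y + 3) ≤ Real.exp (2 * L) := by
      refine le_trans (mul_le_mul_of_nonneg_left ?_ hL0.le) k5
      linarith
    have h7 : z + Y + 3 ≤ ε / 2 * N := by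
      have h8 : 2 ≤ ε * L := by
        have h9 : e ≤ L := by
          have h2 : e ≤ e ^ 4 := by
            calc e = e ^ 1 := by ring
              _ ≤ e ^ 4 := pow_le_pow_right₀ (by linarith) (by norm_num)
          linarith
        have h10 : ε * e ≤ ε * L := mul_le_mul_of_nonneg_left h9 hε.le
        linarith
      have h11 : 0 ≤ z + Y + 3 := by positivity
      have h12 : 2 * (z + Y + 3) ≤ ε * L * (z + Y + 3) := mul_le_mul_of_nonneg_right h8 h11
      have h13 : ε * (L * (z + Y + 3)) ≤ ε * N := mul_le_mul_of_nonneg_left (h6.trans hNr) hε.le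
      linarith
    linarith
  have hFr : (F.card : ℝ) = (F.filter (fun n : ℕ => z + Y + 2 < (n : ℝ))).card +
      (F.filter (fun n : ℕ => ¬ z + Y + 2 < (n : ℝ))).card := by exact_mod_cast hsplit
  rw [hFr]
  linarith

end Pool.Agent.T2h81.UC
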