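import Pool.Agent.T2h81.UC.G5
import Pool.Agent.T2h81.UC.C1

set_option autoImplicit false
set_option linter.unusedSectionVars false
set_option linter.unusedVariables false
set_option maxHeartbeats 4000000

/-! # The linear forms around all rational multiples -/

namespace Pool.Agent.T2h81.UC

open Finset Filter Pool.Agent.H256R2.SC Pool.Agent.Y831.RC

open scoped Classical

/-- the product of the primes in `(A, x]` -/
noncomputable def PA (A : ℕ) (x : ℝ) : ℕ := primorial ⌊x⌋₊ / primorial A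

theorem PA_mul {A : ℕ} {x : ℝ} (h : A ≤ ⌊x⌋₊) : PA A x * primorial A = primorial ⌊x⌋₊ :=
  Nat.div_mul_cancel (primorial_dvd_primorial h)

theorem PA_pos {A : ℕ} {x : ℝ} (h : A ≤ ⌊x⌋₊) : 0 < PA A x := by
  have h1 := PA_mul h
  have h2 := primorial_pos ⌊x⌋₊
  rcases Nat.eq_zero_or_pos (PA A x) with h0 | h0
  · rw [h0, zero_mul] at h1; omega
  · exact h0

theorem PA_cop {A : ℕ} {x : ℝ} (h : A ≤ ⌊x⌋₊) : Nat.Coprime (PA A x) (primorial A) := by
  have h1 : Squarefree (PA A x * primorial A) := by rw [PA_mul h]; exact squarefree_primorial _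
  exact (Nat.squarefree_mul_iff.1 h1).1

theorem PA_prime {A : ℕ} {x : ℝ} (h : A ≤ ⌊x⌋₊) {p : ℕ} (hp : p.Prime) (hd : p ∣ PA A x) : A < p := by
  by_contra hcon
  push Not at hcon
  have h1 : p ∣ primorial A := (hp.dvd_primorial_iff).2 hcon
  have h2 : p ∣ Nat.gcd (PA A x) (primorial A) := Nat.dvd_gcd hd h1
  rw [PA_cop h] at h2
  exact hp.one_lt.ne' (Nat.dvd_one.1 h2)

/-- the integers of an interval without prime factors in `(A, x]` -/
theorem surv_PA : ∃ Cs : ℝ, 1 ≤ Cs ∧ ∀ (A F : ℕ) (x : ℝ) (u : ℤ), 0 ≤ x → A ≤ ⌊x⌋₊ → primorial A ≤ F →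
    ((F / primorial A + 1 : ℕ) : ℝ) < x ^ 8 →
    (((range F).filter (fun t : ℕ => Int.gcd (u + t) (PA A x) = 1)).card : ℝ) ≤
      (primorial A : ℝ) * (Cs * ((primorial A : ℝ) / (primorial A).totient) * ((F / primorial A + 1 : ℕ) : ℝ) /
        Real.log ((F / primorial A + 1 : ℕ) : ℝ)) := by
  obtain ⟨Cs, hCs, hsurv⟩ := surv_ap
  refine ⟨Cs, hCs, ?_⟩
  intro A F x u hx hA hDF hF8
  set D : ℕ := primorial A with hD
  have hD0 : 0 < D := primorial_pos _
  have hPA0 := PA_pos hA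
  have hPAz : (0 : ℤ) < PA A x := by exact_mod_cast hPA0
  have hex : ∀ r : ℕ, ∃ a : ℕ, a ≡ 1 [MOD D] ∧ ∃ k : ℤ, (a : ℤ) = u + r + (PA A x : ℤ) * k := by
    intro r
    obtain ⟨w, hw⟩ : ∃ w : ℕ, (w : ℤ) = (u + r) % (PA A x : ℤ) :=
      ⟨((u + r) % (PA A x : ℤ)).toNat, Int.toNat_of_nonneg (Int.emod_nonneg _ hPAz.ne')⟩
    obtain ⟨a, ha1, ha2⟩ := Nat.chineseRemainder (PA_cop hA) w 1
    refine ⟨a, ha2, ?_⟩
    have h1 : (a : ℤ) ≡ w [ZMOD (PA A x : ℤ)] := by exact_mod_cast (Int.natCast_modEq_iff.2 ha1)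
    have h2 : (w : ℤ) ≡ u + r [ZMOD (PA A x : ℤ)] := by rw [hw]; exact Int.mod_modEq _ _
    have h3 := (h2.symm.trans h1.symm).dvd
    obtain ⟨k, hk⟩ := h3
    exact ⟨k, by linarith⟩
  choose a ha1 ha2 using hex
  have hsub : (range F).filter (fun t : ℕ => Int.gcd (u + t) (PA A x) = 1) ⊆
      (range D).biUnion (fun r => ((range (F / D + 1)).filter (fun j =>
        (primorial ⌊x⌋₊).Coprime (a r + j * D))).image (fun j => r + D * j)) := by
    intro t ht
    rw [Finset.mem_filter, Finset.mem_range] at ht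
    rw [Finset.mem_biUnion]
    refine ⟨t % D, Finset.mem_range.2 (Nat.mod_lt _ hD0), ?_⟩
    rw [Finset.mem_image]
    refine ⟨t / D, ?_, Nat.mod_add_div t D⟩
    rw [Finset.mem_filter, Finset.mem_range]
    refine ⟨Nat.lt_succ_of_le (Nat.div_le_div_right ht.1.le), ?_⟩
    rw [← PA_mul hA]
    apply Nat.Coprime.mul_left
    · obtain ⟨k, hk⟩ := ha2 (t % D)
      have h1 : IsCoprime (u + (t : ℤ)) (PA A x : ℤ) := Int.isCoprime_iff_gcd_eq_one.2 ht.2
      have h2 : ((a (t % D) + t / D * D : ℕ) : ℤ) = (u + t) + (PA A x : ℤ) * k := by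
        rw [Nat.cast_add, Nat.cast_mul, hk]
        have h3 : ((t % D : ℕ) : ℤ) + D * ((t / D : ℕ) : ℤ) = t := by
          have := Nat.mod_add_div t D
          calc ((t % D : ℕ) : ℤ) + D * ((t / D : ℕ) : ℤ) = ((t % D + D * (t / D) : ℕ) : ℤ) := by
                rw [Nat.cast_add, Nat.cast_mul]
            _ = t := by rw [this]
        linear_combination h3
      have h4 : IsCoprime ((a (t % D) + t / D * D : ℕ) : ℤ) (PA A x : ℤ) := by
        rw [h2]
        exact IsCoprime.add_mul_left_left h1 _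
      exact (Nat.isCoprime_iff_coprime.1 h4).symm
    · have h1 : a (t % D) + t / D * D ≡ 1 [MOD D] := by
        have h2 : a (t % D) + t / D * D ≡ 1 + 0 [MOD D] :=
          Nat.ModEq.add (ha1 _) ((Nat.modEq_zero_iff_dvd).2 (Dvd.intro_left _ rfl))
        exact h2
      have h3 := h1.gcd_eq
      rw [Nat.coprime_comm]
      unfold Nat.Coprime
      rw [h3]
      exact Nat.gcd_one_left _
  have h1 : (((range F).filter (fun t : ℕ => Int.gcd (u + t) (PA A x) = 1)).card : ℝ) ≤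
      ∑ r ∈ range D, (((range (F / D + 1)).filter (fun j =>
        (primorial ⌊x⌋₊).Coprime (a r + j * D))).card : ℝ) := by
    have h2 := (Finset.card_le_card hsub).trans Finset.card_biUnion_le
    have h3 : ∑ r ∈ range D, (((range (F / D + 1)).filter (fun j =>
        (primorial ⌊x⌋₊).Coprime (a r + j * D))).image (fun j => r + D * j)).card ≤
        ∑ r ∈ range D, ((range (F / D + 1)).filter (fun j =>
        (primorial ⌊x⌋₊).Coprime (a r + j * D))).card :=
      Finset.sum_le_sum fun r _ => Finset.card_image_le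
    exact_mod_cast h2.trans h3
  refine h1.trans ?_
  have hq : 1 ≤ F / D := (Nat.one_le_div_iff hD0).2 hDF
  calc ∑ r ∈ range D, (((range (F / D + 1)).filter (fun j =>
        (primorial ⌊x⌋₊).Coprime (a r + j * D))).card : ℝ)
      ≤ ∑ _r ∈ range D, (Cs * ((D : ℝ) / D.totient) * ((F / D + 1 : ℕ) : ℝ) /
        Real.log ((F / D + 1 : ℕ) : ℝ)) :=
        Finset.sum_le_sum fun r _ => hsurv (a r) D (F / D + 1) x hD0 (by omega) hx hF8
    _ = _ := by rw [Finset.sum_const, Finset.card_range, nsmul_eq_mul]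

/-- the forms `a (X + k) + h`, `a ≤ A`, `|h| ≤ H`, `(a, h) = 1` -/
noncomputable def VM (A H k : ℕ) : Finset (ℤ × ℤ) :=
  (((Icc 1 A) ×ˢ (Icc (-(H : ℤ)) H)).filter (fun q => Int.gcd q.1 q.2 = 1)).image
    (fun q => ((q.1 : ℤ), (q.1 : ℤ) * k + q.2))

theorem mem_VM {A H k : ℕ} {v : ℤ × ℤ} : v ∈ VM A H k ↔ ∃ (a : ℕ) (h : ℤ), 1 ≤ a ∧ a ≤ A ∧ |h| ≤ H ∧
    Int.gcd a h = 1 ∧ v = ((a : ℤ), (a : ℤ) * k + h) := by
  unfold VM
  rw [Finset.mem_image]
  constructor
  · rintro ⟨⟨a, h⟩, hq, rfl⟩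
    rw [Finset.mem_filter, Finset.mem_product, Finset.mem_Icc, Finset.mem_Icc] at hq
    exact ⟨a, h, hq.1.1.1, hq.1.1.2, abs_le.2 hq.1.2, hq.2, rfl⟩
  · rintro ⟨a, h, h1, h2, h3, h4, rfl⟩
    refine ⟨(a, h), ?_, rfl⟩
    rw [Finset.mem_filter, Finset.mem_product, Finset.mem_Icc, Finset.mem_Icc]
    exact ⟨⟨⟨h1, h2⟩, abs_le.1 h3⟩, h4⟩

theorem VM_in {A H k : ℕ} {v v' : ℤ × ℤ} (hv : v ∈ VM A H k) (hv' : v' ∈ VM A H k) (hne : v ≠ v') :
    dtm v v' ≠ 0 ∧ |(dtm v v' : ℝ)| ≤ 2 * A * H := by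
  obtain ⟨a, h, h1, h2, h3, h4, rfl⟩ := mem_VM.1 hv
  obtain ⟨a', h', h1', h2', h3', h4', rfl⟩ := mem_VM.1 hv'
  have hd : dtm ((a : ℤ), (a : ℤ) * k + h) ((a' : ℤ), (a' : ℤ) * k + h') = a * h' - a' * h := by
    unfold dtm; ring
  rw [hd]
  constructor
  · intro h0
    have h7 : (a : ℤ) * h' = a' * h := by linarith
    have c1 : IsCoprime (a : ℤ) h := Int.isCoprime_iff_gcd_eq_one.2 h4
    have c2 : IsCoprime (a' : ℤ) h' := Int.isCoprime_iff_gcd_eq_one.2 h4'
    have d1 : (a : ℤ) ∣ a' := c1.dvd_of_dvd_mul_right (Dvd.intro _ h7)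
    have d2 : (a' : ℤ) ∣ a := c2.dvd_of_dvd_mul_right (Dvd.intro _ h7.symm)
    have d3 : a = a' := Nat.dvd_antisymm (by exact_mod_cast d1) (by exact_mod_cast d2)
    subst d3
    apply hne
    have h14 : (a : ℤ) ≠ 0 := by exact_mod_cast (by omega : a ≠ 0)
    have h15 := mul_left_cancel₀ h14 h7
    rw [h15]
  · have e1 : |((a : ℤ) * h' - a' * h : ℤ)| ≤ 2 * A * H := by
      refine (abs_sub _ _).trans ?_
      rw [abs_mul, abs_mul, Nat.abs_cast, Nat.abs_cast]
      have e2 : (a : ℤ) ≤ A := by exact_mod_cast h2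
      have e3 : (a' : ℤ) ≤ A := by exact_mod_cast h2'
      have e4 : (a : ℤ) * |h'| ≤ A * H := mul_le_mul e2 h3' (abs_nonneg _) (by positivity)
      have e5 : (a' : ℤ) * |h| ≤ A * H := mul_le_mul e3 h3 (abs_nonneg _) (by positivity)
      linarith
    exact_mod_cast e1

theorem VM_cross {A H k k' B : ℕ} (hk : k ≤ B) (hk' : k' ≤ B) (hkk : k + 2 * H < k' ∨ k' + 2 * H < k)
    {v v' : ℤ × ℤ} (hv : v ∈ VM A H k) (hv' : v' ∈ VM A H k') :
    dtm v v' ≠ 0 ∧ |(dtm v v' : ℝ)| ≤ A * A * B + 2 * A * H := by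
  obtain ⟨a, h, h1, h2, h3, h4, rfl⟩ := mem_VM.1 hv
  obtain ⟨a', h', h1', h2', h3', h4', rfl⟩ := mem_VM.1 hv'
  have hd : dtm ((a : ℤ), (a : ℤ) * k + h) ((a' : ℤ), (a' : ℤ) * k' + h') =
      a * a' * ((k' : ℤ) - k) + (a * h' - a' * h) := by
    unfold dtm; ring
  have e1 : |((a : ℤ) * h' - a' * h : ℤ)| ≤ a * H + a' * H := by
    refine (abs_sub _ _).trans ?_
    rw [abs_mul, abs_mul, Nat.abs_cast, Nat.abs_cast]
    exact add_le_add (mul_le_mul_of_nonneg_left h3' (by positivity))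
      (mul_le_mul_of_nonneg_left h3 (by positivity))
  rw [hd]
  have f1 : (1 : ℤ) ≤ a := by exact_mod_cast h1
  have f2 : (1 : ℤ) ≤ a' := by exact_mod_cast h1'
  have f5 : (0 : ℤ) ≤ H := by positivity
  have f6 : (a : ℤ) ≤ A := by exact_mod_cast h2
  have f7 : (a' : ℤ) ≤ A := by exact_mod_cast h2'
  constructor
  · intro h0
    have e2 : |(a : ℤ) * a' * ((k' : ℤ) - k)| ≤ a * H + a' * H := by
      have e3 : (a : ℤ) * a' * ((k' : ℤ) - k) = -(a * h' - a' * h) := by linarith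
      rw [e3, abs_neg]
      exact e1
    rw [abs_mul] at e2
    have e4 : |(a : ℤ) * a'| = a * a' := abs_of_nonneg (by positivity)
    rw [e4] at e2
    have e5 : (2 * H + 1 : ℤ) ≤ |(k' : ℤ) - k| := by
      rcases hkk with h | h
      · rw [abs_of_nonneg (by omega)]; omega
      · rw [abs_of_nonpos (by omega)]; omega
    have g1 : (a : ℤ) * a' * (2 * H + 1) ≤ a * H + a' * H :=
      (mul_le_mul_of_nonneg_left e5 (by positivity)).trans e2
    have g2 : (a : ℤ) * H ≤ a * a' * H := by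
      apply mul_le_mul_of_nonneg_right _ f5
      nlinarith
    have g3 : (a' : ℤ) * H ≤ a * a' * H := by
      apply mul_le_mul_of_nonneg_right _ f5
      nlinarith
    have g4 : (1 : ℤ) ≤ a * a' := by nlinarith
    nlinarith
  · have e2 : |((a : ℤ) * a' * ((k' : ℤ) - k) + (a * h' - a' * h) : ℤ)| ≤
        A * A * B + 2 * A * H := by
      refine (abs_add_le _ _).trans ?_
      apply add_le_add
      · rw [abs_mul, abs_mul, Nat.abs_cast, Nat.abs_cast]
        have e3 : |(k' : ℤ) - k| ≤ B := by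
          rw [abs_le]; constructor <;> omega
        exact mul_le_mul (mul_le_mul f6 f7 (by positivity) (by positivity)) e3 (abs_nonneg _) (by positivity)
      · refine e1.trans ?_
        have e4 : (a : ℤ) * H ≤ A * H := mul_le_mul_of_nonneg_right f6 f5
        have e5 : (a' : ℤ) * H ≤ A * H := mul_le_mul_of_nonneg_right f7 f5
        linarith
    exact_mod_cast e2

/-- the survivors in a class -/
theorem sv_VM (P₁ A H k : ℕ) (b : ℤ) (Bd : ℝ)
    (h : ∀ u : ℤ, (((range (2 * H + 1)).filter (fun t : ℕ => Int.gcd (u + t) P₁ = 1)).card : ℝ) ≤ Bd) :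
    ((svL P₁ b (VM A H k)).card : ℝ) ≤ A * Bd := by
  have hsub : svL P₁ b (VM A H k) ⊆ (Icc 1 A).biUnion (fun a : ℕ =>
      ((range (2 * H + 1)).filter (fun t : ℕ => Int.gcd (((a : ℤ) * b + a * k - H) + t) P₁ = 1)).image
        (fun t : ℕ => ((a : ℤ), (a : ℤ) * k + (t - H)))) := by
    intro v hv
    unfold svL at hv
    rw [Finset.mem_filter] at hv
    obtain ⟨hv1, hv2⟩ := hv
    obtain ⟨a, h, h1, h2, h3, h4, rfl⟩ := mem_VM.1 hv1
    rw [Finset.mem_biUnion]
    refine ⟨a, Finset.mem_Icc.2 ⟨h1, h2⟩, ?_⟩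
    rw [Finset.mem_image]
    have h5 := abs_le.1 h3
    refine ⟨(h + H).toNat, ?_, ?_⟩
    · rw [Finset.mem_filter, Finset.mem_range]
      have h6 : (((h + H).toNat : ℕ) : ℤ) = h + H := Int.toNat_of_nonneg (by linarith)
      refine ⟨by omega, ?_⟩
      rw [h6]
      simp only at hv2
      have h7 : (a : ℤ) * b + a * k - H + (h + H) = (a : ℤ) * b + ((a : ℤ) * k + h) := by ring
      rw [h7]
      exact hv2
    · have h6 : (((h + H).toNat : ℕ) : ℤ) = h + H := Int.toNat_of_nonneg (by linarith)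
      rw [h6]
      simp
  have h1 := (Finset.card_le_card hsub).trans Finset.card_biUnion_le
  have h2 : ∑ a ∈ Icc 1 A, (((range (2 * H + 1)).filter (fun t : ℕ =>
      Int.gcd (((a : ℤ) * b + a * k - H) + t) P₁ = 1)).image
        (fun t : ℕ => ((a : ℤ), (a : ℤ) * k + (t - H)))).card ≤
      ∑ a ∈ Icc 1 A, ((range (2 * H + 1)).filter (fun t : ℕ =>
      Int.gcd (((a : ℤ) * b + a * k - H) + t) P₁ = 1)).card :=
    Finset.sum_le_sum fun a _ => Finset.card_image_le
  have h3 : ((svL P₁ b (VM A H k)).card : ℝ) ≤ ∑ a ∈ Icc 1 A, (((range (2 * H + 1)).filter (fun t : ℕ =>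
      Int.gcd (((a : ℤ) * b + a * k - H) + t) P₁ = 1)).card : ℝ) := by exact_mod_cast h1.trans h2
  refine h3.trans ?_
  calc _ ≤ ∑ _a ∈ Icc 1 A, Bd := Finset.sum_le_sum fun a _ => h _
    _ = A * Bd := by rw [Finset.sum_const, Nat.card_Icc, nsmul_eq_mul]; simp

/-- the least common density -/
theorem dens_A : ∃ C : ℝ, 1 ≤ C ∧ ∀ A : ℕ, 1 ≤ A →
    (primorial A : ℝ) / (primorial A).totient ≤ C * Real.log (2 * A) := by
  obtain ⟨c, C, hc, hcC, hWb⟩ := WW_bounds
  refine ⟨max (1 / c) 2, le_trans (by norm_num) (le_max_right _ _), fun A hA => ?_⟩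
  have hlog2 := Real.log_two_gt_d9
  rcases Nat.lt_or_ge A 2 with h | h
  · have hA1 : A = 1 := by omega
    subst hA1
    have h1 : primorial 1 = 1 := by decide
    rw [h1]
    simp only [Nat.cast_one, Nat.totient_one, mul_one, div_one]
    have h2 : 2 * Real.log 2 ≤ max (1 / c) 2 * Real.log 2 :=
      mul_le_mul_of_nonneg_right (le_max_right _ _) (by linarith)
    linarith
  · have hAr : (2:ℝ) ≤ A := by exact_mod_cast h
    have h1 := tot_primorial (A : ℝ) (by linarith)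
    rw [Nat.floor_natCast] at h1
    have hD0 : (0:ℝ) < primorial A := by exact_mod_cast primorial_pos A
    have hW := WW_pos (A : ℝ)
    rw [h1]
    have h2 := (hWb A hAr).1
    have hlA : 0 < Real.log A := Real.log_pos (by linarith)
    have h3 : (primorial A : ℝ) / (primorial A * WW (A : ℝ)) = 1 / WW (A : ℝ) := by field_simp
    rw [h3, div_le_iff₀ hW]
    have h4 : Real.log A ≤ Real.log (2 * A) := Real.log_le_log (by linarith) (by linarith)
    have h5 : 1 ≤ 1 / c * (WW (A : ℝ) * Real.log A) := by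
      rw [one_div, ← div_eq_inv_mul, le_div_iff₀ hc]
      linarith
    have h6 : 1 / c * (WW (A : ℝ) * Real.log A) ≤ max (1 / c) 2 * (WW (A : ℝ) * Real.log (2 * A)) := by
      apply mul_le_mul (le_max_left _ _)
      · exact mul_le_mul_of_nonneg_left h4 hW.le
      · positivity
      · exact le_trans (by positivity) (le_max_left (1 / c) 2)
    linarith

end Pool.Agent.T2h81.UC
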