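import Pool.Agent.T2h81.UC.H1

set_option autoImplicit false
set_option linter.unusedSectionVars false
set_option linter.unusedVariables false
set_option maxHeartbeats 4000000

/-! # From covered forms to gaps around all rational multiples -/

namespace Pool.Agent.T2h81.UC

open Finset Filter Pool.Agent.H256R2.SC Pool.Agent.Y831.RC

open scoped Classical

/-- no prime at distance at most `t` from any rational multiple `(a / b) j`, `a, b ≤ A` -/
def GapAt (A : ℕ) (t : ℝ) (j : ℕ) : Prop :=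
  ∀ a b : ℕ, 1 ≤ a → a ≤ A → 1 ≤ b → b ≤ A → ∀ p : ℕ, p.Prime → t < |(p : ℝ) - (a / b : ℝ) * j|

theorem gap_of_cov (A H k n : ℕ) (x w z t : ℝ) (hA : A ≤ ⌊x⌋₊) (hw : (A : ℝ) ≤ w) (ht0 : 0 ≤ t) (hz0 : 0 ≤ z)
    (ht : A * t < H + 1) (hn : A * z + H < n) (hc : CovP (PA A x) w z (VM A H k) (n : ℤ)) :
    GapAt A t (n + k) := by
  intro a b ha haA hb hbA p hp
  by_contra hcon
  push Not at hcon
  have hb0 : (0:ℝ) < b := by exact_mod_cast hb
  have hbAr : (b : ℝ) ≤ A := by exact_mod_cast hbA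
  obtain ⟨h, hh⟩ : ∃ h : ℤ, h = (b : ℤ) * p - a * ((n + k : ℕ) : ℤ) := ⟨_, rfl⟩
  have h1 : |(h : ℝ)| ≤ b * t := by
    have e1 : (h : ℝ) = b * ((p : ℝ) - (a / b : ℝ) * ((n + k : ℕ) : ℝ)) := by
      rw [hh]; push_cast; field_simp
    rw [e1, abs_mul, abs_of_pos hb0]
    exact mul_le_mul_of_nonneg_left hcon hb0.le
  have h2 : |h| ≤ (H : ℤ) := by
    have e1 : |(h : ℝ)| < H + 1 := by
      refine lt_of_le_of_lt (h1.trans ?_) ht
      exact mul_le_mul_of_nonneg_right hbAr ht0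
    have e2 : |h| < (H : ℤ) + 1 := by exact_mod_cast e1
    omega
  obtain ⟨g, hg⟩ : ∃ g : ℕ, g = Int.gcd a h := ⟨_, rfl⟩
  have hg0 : 0 < g := by
    rw [hg]
    exact Int.gcd_pos_of_ne_zero_left _ (by exact_mod_cast (by omega : a ≠ 0))
  obtain ⟨a₁, ha₁⟩ : g ∣ a := by
    have : (g : ℤ) ∣ (a : ℤ) := by rw [hg]; exact Int.gcd_dvd_left _ _
    exact_mod_cast this
  obtain ⟨h₁, hh₁⟩ : (g : ℤ) ∣ h := by rw [hg]; exact Int.gcd_dvd_right _ _
  have ha₁1 : 1 ≤ a₁ := by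
    rcases Nat.eq_zero_or_pos a₁ with h0 | h0
    · rw [h0, mul_zero] at ha₁; omega
    · exact h0
  have ha₁A : a₁ ≤ A := by
    have : a₁ ≤ g * a₁ := Nat.le_mul_of_pos_left _ hg0
    omega
  have hh₁H : |h₁| ≤ (H : ℤ) := by
    have e1 : |h| = g * |h₁| := by rw [hh₁, abs_mul, Nat.abs_cast]
    have e2 : (1 : ℤ) ≤ g := by exact_mod_cast hg0
    have e3 : 0 ≤ |h₁| := abs_nonneg _
    nlinarith
  have hcop : Int.gcd a₁ h₁ = 1 := by
    have e1 : (a : ℤ) = g * a₁ := by exact_mod_cast ha₁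
    have e2 : Int.gcd (g * a₁ : ℤ) (g * h₁) = g * Int.gcd a₁ h₁ := by
      rw [Int.gcd_mul_left]; simp
    rw [← e1, ← hh₁, ← hg] at e2
    exact Nat.eq_of_mul_eq_mul_left hg0 (by omega)
  obtain ⟨q, hq, hqz, hqP, hqd⟩ := hc ((a₁ : ℤ), (a₁ : ℤ) * k + h₁) (mem_VM.2 ⟨a₁, h₁, ha₁1, ha₁A, hh₁H, hcop, rfl⟩)
  simp only at hqd
  have hqA : A < q := by
    rcases hqP with h3 | h3
    · exact PA_prime hA hq h3
    · have : (A : ℝ) < q := by linarith
      exact_mod_cast this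
  have hqbp : (q : ℤ) ∣ b * p := by
    have e1 : (b : ℤ) * p = g * (a₁ * n + (a₁ * k + h₁)) := by
      have e2 : (a : ℤ) = g * a₁ := by exact_mod_cast ha₁
      have e3 : (b : ℤ) * p = h + a * ((n + k : ℕ) : ℤ) := by rw [hh]; ring
      rw [e3, hh₁, e2]
      push_cast
      ring
    rw [e1]
    exact Dvd.dvd.mul_left hqd _
  have hqbp' : q ∣ b * p := by exact_mod_cast hqbp
  have hqp : q = p := by
    rcases (hq.dvd_mul).1 hqbp' with h3 | h3
    · have := Nat.le_of_dvd hb h3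
      omega
    · exact (Nat.prime_dvd_prime_iff_eq hq hp).1 h3
  subst hqp
  have h4 : (n : ℝ) - H ≤ b * q := by
    have e3 : (b : ℤ) * q = h + a * ((n + k : ℕ) : ℤ) := by rw [hh]; ring
    have e4 : -(H : ℤ) ≤ h := (abs_le.1 h2).1
    have e5 : (n : ℤ) ≤ a * ((n + k : ℕ) : ℤ) := by
      have : n ≤ a * (n + k) := by
        calc n ≤ 1 * (n + k) := by omega
          _ ≤ _ := Nat.mul_le_mul_right _ ha
      exact_mod_cast this
    have e6 : (n : ℤ) - H ≤ b * q := by linarith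
    exact_mod_cast e6
  have h5 : (b : ℝ) * q ≤ A * z := mul_le_mul hbAr hqz (Nat.cast_nonneg _) (Nat.cast_nonneg _)
  linarith

theorem gap_spread {A : ℕ} (hA : 1 ≤ A) {t : ℝ} {j j₀ : ℕ} (hj : j ≤ j₀) (hj₀ : ((j₀ - j : ℕ) : ℝ) ≤ t / A)
    (h : GapAt A (2 * t) j₀) : GapAt A t j := by
  intro a b ha haA hb hbA p hp
  have h1 := h a b ha haA hb hbA p hp
  have hb0 : (0:ℝ) < b := by exact_mod_cast hb
  have hA0 : (0:ℝ) < A := by exact_mod_cast hA
  have h2 : (a / b : ℝ) ≤ A := by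
    rw [div_le_iff₀ hb0]
    have e1 : (a : ℝ) ≤ A := by exact_mod_cast haA
    have e2 : (1:ℝ) ≤ b := by exact_mod_cast hb
    nlinarith
  have h0 : (0:ℝ) ≤ a / b := by positivity
  have h3 : (j₀ : ℝ) = j + ((j₀ - j : ℕ) : ℝ) := by
    rw [Nat.cast_sub hj]; ring
  have h4 : (a / b : ℝ) * ((j₀ - j : ℕ) : ℝ) ≤ t := by
    calc (a / b : ℝ) * ((j₀ - j : ℕ) : ℝ) ≤ A * (t / A) :=
          mul_le_mul h2 hj₀ (Nat.cast_nonneg _) hA0.le
      _ = t := by field_simp
  have h5 : |(p : ℝ) - (a / b : ℝ) * j₀| ≤ |(p : ℝ) - (a / b : ℝ) * j| + (a / b : ℝ) * ((j₀ - j : ℕ) : ℝ) := by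
    have e1 : (p : ℝ) - (a / b : ℝ) * j₀ = ((p : ℝ) - (a / b : ℝ) * j) - (a / b : ℝ) * ((j₀ - j : ℕ) : ℝ) := by
      rw [h3]; push_cast; ring
    rw [e1]
    refine (abs_sub _ _).trans ?_
    rw [abs_of_nonneg (show 0 ≤ (a / b : ℝ) * ((j₀ - j : ℕ) : ℝ) by positivity)]
  linarith

/-- from good multiples of `s` to all integers -/
theorem gap_count (A s m₁ m n : ℕ) (hA : 1 ≤ A) (t : ℝ) (ht : 0 ≤ t) (hm : s * m₁ ≤ m) (hs : t / A + 1 ≤ s)
    (G : Finset ℕ) (hG : G ⊆ range m₁) (hg : ∀ i ∈ G, GapAt A (2 * t) (n + s * (i + 1))) :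
    (G.card : ℝ) * (t / A) ≤ (((Ioc n (n + m)).filter (fun k => GapAt A t k)).card : ℝ) := by
  have hA0 : (0:ℝ) < A := by exact_mod_cast hA
  have htA : 0 ≤ t / A := by positivity
  set w : ℕ := ⌊t / A⌋₊ + 1 with hw
  have hwr : t / A ≤ w := by rw [hw]; push_cast; exact (Nat.lt_floor_add_one _).le
  have hws : w ≤ s := by
    have h1 : (⌊t / A⌋₊ : ℝ) ≤ t / A := Nat.floor_le htA
    have h2 : (w : ℝ) ≤ s := by rw [hw]; push_cast; linarith
    exact_mod_cast h2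
  have hs0 : 0 < s := by omega
  have h1 : (G ×ˢ range w).card ≤ ((Ioc n (n + m)).filter (fun k => GapAt A t k)).card := by
    apply Finset.card_le_card_of_injOn (fun q => n + s * (q.1 + 1) - q.2)
    · intro q hq
      rw [Finset.mem_coe, Finset.mem_product, Finset.mem_range] at hq
      obtain ⟨hq1, hq2⟩ := hq
      have h2 := Finset.mem_range.1 (hG hq1)
      have h3 : s * (q.1 + 1) ≤ s * m₁ := Nat.mul_le_mul_left _ h2
      have h4 : s ≤ s * (q.1 + 1) := Nat.le_mul_of_pos_right _ (Nat.succ_pos _)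
      rw [Finset.mem_coe, Finset.mem_filter, Finset.mem_Ioc]
      refine ⟨⟨by show n < n + s * (q.1 + 1) - q.2; omega, by show n + s * (q.1 + 1) - q.2 ≤ n + m; omega⟩, ?_⟩
      apply gap_spread hA (j₀ := n + s * (q.1 + 1))
      · show n + s * (q.1 + 1) - q.2 ≤ n + s * (q.1 + 1)
        omega
      · have h5 : n + s * (q.1 + 1) - (n + s * (q.1 + 1) - q.2) = q.2 := by omega
        rw [h5]
        have h6 : q.2 ≤ ⌊t / A⌋₊ := by omega
        have h7 : (q.2 : ℝ) ≤ (⌊t / A⌋₊ : ℝ) := by exact_mod_cast h6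
        exact h7.trans (Nat.floor_le htA)
      · exact hg _ hq1
    · intro q hq q' hq' h
      rw [Finset.mem_coe, Finset.mem_product, Finset.mem_range] at hq hq'
      simp only at h
      have h4 : s ≤ s * (q.1 + 1) := Nat.le_mul_of_pos_right _ (Nat.succ_pos _)
      have h4' : s ≤ s * (q'.1 + 1) := Nat.le_mul_of_pos_right _ (Nat.succ_pos _)
      have h5 : s * (q.1 + 1) - q.2 = s * (q'.1 + 1) - q'.2 := by omega
      have h6 : s * q.1 + (s - q.2) = s * q'.1 + (s - q'.2) := by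
        have e1 : s * (q.1 + 1) = s * q.1 + s := by ring
        have e2 : s * (q'.1 + 1) = s * q'.1 + s := by ring
        omega
      have h7 : q.1 = q'.1 := by
        rcases lt_trichotomy q.1 q'.1 with hlt | heq | hlt
        · have e1 : s * (q.1 + 1) ≤ s * q'.1 := Nat.mul_le_mul_left _ hlt
          have e2 : s * (q.1 + 1) = s * q.1 + s := by ring
          omega
        · exact heq
        · have e1 : s * (q'.1 + 1) ≤ s * q.1 := Nat.mul_le_mul_left _ hlt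
          have e2 : s * (q'.1 + 1) = s * q'.1 + s := by ring
          omega
      have h8 : q.2 = q'.2 := by
        rw [h7] at h6
        omega
      exact Prod.ext h7 h8
  rw [Finset.card_product, Finset.card_range] at h1
  have h2 : ((G.card * w : ℕ) : ℝ) ≤ (((Ioc n (n + m)).filter (fun k => GapAt A t k)).card : ℝ) := by
    exact_mod_cast h1
  refine le_trans ?_ h2
  push_cast
  exact mul_le_mul_of_nonneg_left hwr (Nat.cast_nonneg _)

end Pool.Agent.T2h81.UC
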