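import Pool.Agent.T2h81.UC.G5

set_option autoImplicit false
set_option linter.unusedSectionVars false
set_option linter.unusedVariables false
set_option maxHeartbeats 4000000

/-! # Gaps around all rational multiples: numerical facts -/

namespace Pool.Agent.T2h81.UC

open Finset Filter Pool.Agent.H256R2.SC Pool.Agent.Y831.RC

open scoped Classical

/-- `K = 2 A ^ 2 log (2 A)` -/
theorem num_K {A : ℝ} (hA : 1 ≤ A) : 1 ≤ 2 * (A ^ 2 * Real.log (2 * A)) ∧
    A ^ 2 ≤ 2 * (A ^ 2 * Real.log (2 * A)) ∧ A ≤ A ^ 2 := by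
  have h1 : 0.69 ≤ Real.log (2 * A) := by
    have h2 := Real.log_two_gt_d9
    have h3 : Real.log 2 ≤ Real.log (2 * A) := Real.log_le_log (by norm_num) (by linarith)
    linarith
  have h2 : 1 ≤ A ^ 2 := one_le_pow₀ hA
  refine ⟨by nlinarith, by nlinarith, by nlinarith⟩

theorem num_gap {L e A K lam η C' : ℝ} (hη : 0 < η) (hη1 : η ≤ 1) (hlam : 1 ≤ lam)
    (hA : 1 ≤ A) (hAK : A ^ 2 ≤ K) (hC' : 6400 ≤ C') (he : e = C' * (K * lam / (1 * η)))
    (hL : Real.exp (4 * e) ≤ L) (hL8 : 10 ^ 8 ≤ L) :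
    1 ≤ lam * (2 * L / η) ∧ lam / η ≤ e / 6400 ∧ 6400 * A ^ 2 ≤ e ∧ A ≤ Real.log L / 25600 ∧
    4 * A * (A * (lam * (2 * L / η))) ≤ 16 * L ^ 3 ∧ 16 * (A * lam) * Real.exp (-e) ≤ 1 ∧
    16 * A ^ 2 * Real.exp (-e) ≤ 1 ∧ Real.exp (lam / η) ≤ L ∧
    17 * Real.exp (-(e / 2)) + (2 * L + 0 + 1) / L ^ 3 ≤ Real.exp (-(lam / η)) / 8 := by
  have hK1 : 1 ≤ K := le_trans (one_le_pow₀ hA) hAK
  obtain ⟨f1, f2, f3, f4, f5, f6, f7, f9, f10, f11, f12⟩ :=
    num_gold hη hη1 hlam one_pos le_rfl hK1 hC' he hL hL8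
  have hL0 : 0 < L := by linarith
  have hlam0 : 0 < lam := by linarith
  have he6400 : 6400 ≤ e := hC'.trans f1
  have he0 : 0 < e := by linarith
  have hA0 : 0 < A := by linarith
  have hA2 : A ≤ A ^ 2 := by nlinarith
  have g2 : lam / η ≤ e / 6400 := by
    rw [he]
    have e1 : 6400 * (K * lam / (1 * η)) ≤ C' * (K * lam / (1 * η)) :=
      mul_le_mul_of_nonneg_right hC' (by positivity)
    have e2 : lam / η ≤ K * lam / (1 * η) := by
      rw [one_mul]
      apply div_le_div_of_nonneg_right _ hη.le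
      nlinarith
    linarith
  have g3 : 6400 * A ^ 2 ≤ e := by linarith
  have hexp4 : e + 1 ≤ Real.exp e := Real.add_one_le_exp e
  have hexp2 : e ^ 2 / 2 ≤ Real.exp e := by
    have := Real.pow_div_factorial_le_exp e he0.le 2
    norm_num [Nat.factorial] at this
    exact this
  have hexpe : Real.exp (-e) = 1 / Real.exp e := by rw [Real.exp_neg, inv_eq_one_div]
  have hE := Real.exp_pos e
  have g8 : Real.exp (lam / η) ≤ L := by
    refine le_trans (Real.exp_le_exp.2 ?_) hL
    linarith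
  refine ⟨?_, g2, g3, ?_, ?_, ?_, ?_, g8, ?_⟩
  · nlinarith
  · linarith
  · -- 4 A (A t) ≤ 16 L ^ 3
    have e1 : lam * (2 * L / η) ≤ lam * (2 * L / η) * Real.log (2 * L / η) := by
      have : 0 ≤ lam * (2 * L / η) := by positivity
      nlinarith
    have e2 : 4 * A * (A * (lam * (2 * L / η))) ≤ 2 * (2 * K * (lam * (2 * L / η) * Real.log (2 * L / η))) := by
      have e3 : 4 * A * (A * (lam * (2 * L / η))) = 4 * A ^ 2 * (lam * (2 * L / η)) := by ring
      rw [e3]
      have e4 : 4 * A ^ 2 * (lam * (2 * L / η)) ≤ 4 * K * (lam * (2 * L / η) * Real.log (2 * L / η)) :=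
        mul_le_mul (by linarith) e1 (by positivity) (by positivity)
      linarith
    linarith
  · rw [hexpe, mul_one_div, div_le_one hE]
    have e1 : A ≤ e := by linarith
    have e2 : 6400 * lam ≤ e := f2
    have e3 : 16 * (A * lam) ≤ 16 * (e * (e / 6400)) := by
      apply mul_le_mul_of_nonneg_left _ (by norm_num)
      exact mul_le_mul e1 (by linarith) hlam0.le he0.le
    nlinarith
  · rw [hexpe, mul_one_div, div_le_one hE]
    linarith
  · have e1 : Real.exp (-(e / 2)) ≤ Real.exp (-(lam / η)) * Real.exp (-(e / 4)) := by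
      rw [← Real.exp_add]
      apply Real.exp_le_exp.2
      linarith
    have e2 : Real.exp (-(e / 4)) ≤ 1 / 1000 := by
      rw [Real.exp_neg, inv_eq_one_div]
      apply one_div_le_one_div_of_le (by norm_num)
      have := Real.add_one_le_exp (e / 4)
      linarith
    have e0 := Real.exp_pos (-(lam / η))
    have e3 : 17 * Real.exp (-(e / 2)) ≤ Real.exp (-(lam / η)) * (17 / 1000) := by
      nlinarith
    have e4 : (2 * L + 0 + 1) / L ^ 3 ≤ Real.exp (-(lam / η)) / 100 := by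
      rw [div_le_iff₀ (by positivity)]
      have e5 : 1 ≤ Real.exp (-(lam / η)) * L := by
        rw [Real.exp_neg, ← div_eq_inv_mul, le_div_iff₀ (Real.exp_pos _), one_mul]
        exact g8
      have e6 : Real.exp (-(lam / η)) / 100 * L ^ 3 = (Real.exp (-(lam / η)) * L) * (L ^ 2 / 100) := by ring
      rw [e6]
      have e7 : 1 * (L ^ 2 / 100) ≤ (Real.exp (-(lam / η)) * L) * (L ^ 2 / 100) :=
        mul_le_mul_of_nonneg_right e5 (by positivity)
      nlinarith
    linarith

end Pool.Agent.T2h81.UC
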