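import Pool.Agent.T2h81.UC.H2
import Pool.Agent.T2h81.UC.H3

set_option autoImplicit false
set_option linter.unusedSectionVars false
set_option linter.unusedVariables false
set_option maxHeartbeats 4000000

/-! # Gaps around all rational multiples: main theorem -/

namespace Pool.Agent.T2h81.UC

open Finset Filter Pool.Agent.H256R2.SC Pool.Agent.Y831.RC

open scoped Classical

/-- the survivors near `a (X + k)` -/
theorem surv_num : ∃ Cv : ℝ, 1 ≤ Cv ∧ ∀ (L t : ℝ) (A H : ℕ), 1 ≤ A → 10 ^ 8 ≤ L → (A : ℝ) ≤ Real.log L / 25600 →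
    L ≤ t → H = ⌊2 * (A * t)⌋₊ → 4 * (A * (A * t)) ≤ 16 * L ^ 3 → ∀ u : ℤ,
    (((range (2 * H + 1)).filter (fun s : ℕ => Int.gcd (u + s) (PA A (L / 32)) = 1)).card : ℝ) ≤
      Cv * Real.log (2 * A) * (A * t) / Real.log L := by
  obtain ⟨Cs, hCs, hs⟩ := surv_PA
  obtain ⟨Cd, hCd, hd⟩ := dens_A
  refine ⟨20 * Cs * Cd, by nlinarith, ?_⟩
  intro L t A H hA hL8 hAL hLt hH hAt u
  have hL0 : 0 < L := by linarith
  have hlL : 0 < Real.log L := Real.log_pos (by linarith)
  have hlogL : Real.log L ≤ L := by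
    have := Real.log_le_sub_one_of_pos hL0
    linarith
  have hAr : (1:ℝ) ≤ A := by exact_mod_cast hA
  have hAt1 : L ≤ A * t := by nlinarith
  have hx0 : 0 ≤ L / 32 := by positivity
  have hAx : A ≤ ⌊L / 32⌋₊ := by
    apply Nat.le_floor
    linarith
  obtain ⟨D, hD⟩ : ∃ D : ℕ, D = primorial A := ⟨_, rfl⟩
  have hD0 : 0 < D := by rw [hD]; exact primorial_pos _
  have hDr : (0:ℝ) < D := by exact_mod_cast hD0
  have hD1 : (1:ℝ) ≤ D := by exact_mod_cast hD0
  have hDs : (D : ℝ) ≤ Real.sqrt L := by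
    have h1 := primorial_le_exp (A : ℝ) (by linarith)
    rw [Nat.floor_natCast, ← hD] at h1
    refine h1.trans ?_
    have h2 : Real.sqrt L = Real.exp (Real.log L / 2) := by
      rw [← Real.log_sqrt hL0.le, Real.exp_log (Real.sqrt_pos.2 hL0)]
    rw [h2]
    apply Real.exp_le_exp.2
    linarith
  have hsq : Real.sqrt L * Real.sqrt L = L := Real.mul_self_sqrt hL0.le
  have hs1 : 1 ≤ Real.sqrt L := by
    rw [Real.one_le_sqrt]; linarith
  obtain ⟨F, hF⟩ : ∃ F : ℕ, F = 2 * H + 1 := ⟨_, rfl⟩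
  have hHr : (H : ℝ) ≤ 2 * (A * t) := by rw [hH]; exact Nat.floor_le (by linarith)
  have hHr2 : 2 * (A * t) < H + 1 := by rw [hH]; exact Nat.lt_floor_add_one _
  have hFr : (F : ℝ) = 2 * H + 1 := by rw [hF]; push_cast; ring
  have hF1 : (F : ℝ) ≤ 5 * (A * t) := by rw [hFr]; linarith
  have hF2 : L ≤ F := by rw [hFr]; linarith
  have hDF : D ≤ F := by
    have h1 : Real.sqrt L ≤ L := by nlinarith
    have : (D : ℝ) ≤ F := by linarith
    exact_mod_cast this
  obtain ⟨F', hF'⟩ : ∃ F' : ℕ, F' = F / D + 1 := ⟨_, rfl⟩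
  have hF'1 : (F : ℝ) / D ≤ F' := by
    have h1 : (F : ℝ) < ((F / D : ℕ) + 1) * D := by
      exact_mod_cast Nat.lt_div_mul_add (a := F) hD0 |>.trans_eq (by ring)
    rw [div_le_iff₀ hDr, hF']
    push_cast
    linarith
  have hF'2 : (F' : ℝ) * D ≤ 2 * F := by
    have h1 : ((F / D : ℕ) : ℝ) * D ≤ F := by exact_mod_cast Nat.div_mul_le_self F D
    have h2 : (D : ℝ) ≤ F := by exact_mod_cast hDF
    rw [hF']
    push_cast
    linarith
  have hF'3 : Real.sqrt L ≤ F' := by
    refine le_trans ?_ hF'1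
    rw [le_div_iff₀ hDr]
    calc Real.sqrt L * D ≤ Real.sqrt L * Real.sqrt L := mul_le_mul_of_nonneg_left hDs (by linarith)
      _ = L := hsq
      _ ≤ F := hF2
  have hF'8 : ((F / D + 1 : ℕ) : ℝ) < (L / 32) ^ 8 := by
    rw [← hF']
    have h1 : (F' : ℝ) ≤ 2 * F := by nlinarith
    have h2 : (F' : ℝ) ≤ 10 * (A * t) := by linarith
    have h3 : (A : ℝ) * t ≤ A * (A * t) := by nlinarith
    have h4 : (F' : ℝ) ≤ 40 * L ^ 3 := by linarith
    refine lt_of_le_of_lt h4 ?_
    have h5 : (L / 32) ^ 8 = L ^ 3 * (L ^ 5 / 32 ^ 8) := by ring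
    rw [h5]
    have h6 : 40 < L ^ 5 / 32 ^ 8 := by
      rw [lt_div_iff₀ (by norm_num)]
      have h7 : (10 ^ 8 : ℝ) ^ 5 ≤ L ^ 5 := pow_le_pow_left₀ (by norm_num) hL8 5
      refine lt_of_lt_of_le ?_ h7
      norm_num
    have h8 : 0 < L ^ 3 := by positivity
    nlinarith
  have h1 := hs A F (L / 32) u hx0 hAx (by rw [← hD]; exact hDF) (by rw [← hD]; exact hF'8)
  rw [← hD, ← hF'] at h1
  rw [← hF]
  refine h1.trans ?_
  have hlF : Real.log L / 2 ≤ Real.log F' := by
    rw [← Real.log_sqrt hL0.le]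
    exact Real.log_le_log (by linarith) hF'3
  have hlF0 : 0 < Real.log F' := by linarith
  have hl2A : 0 < Real.log (2 * A) := Real.log_pos (by linarith)
  have hdd := hd A hA
  rw [← hD] at hdd
  have htD : (0:ℝ) < D.totient := by exact_mod_cast Nat.totient_pos.2 hD0
  calc (D : ℝ) * (Cs * ((D : ℝ) / D.totient) * (F' : ℝ) / Real.log F')
      = Cs * ((D : ℝ) / D.totient) * (F' * D) / Real.log F' := by ring
    _ ≤ Cs * ((D : ℝ) / D.totient) * (F' * D) / (Real.log L / 2) :=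
        div_le_div_of_nonneg_left (by positivity) (by positivity) hlF
    _ ≤ Cs * (Cd * Real.log (2 * A)) * (10 * (A * t)) / (Real.log L / 2) := by
        apply div_le_div_of_nonneg_right _ (by positivity)
        apply mul_le_mul
        · exact mul_le_mul_of_nonneg_left hdd (by linarith)
        · linarith
        · positivity
        · positivity
    _ = _ := by field_simp; ring

theorem ratio_main : ∃ C : ℝ, 1 ≤ C ∧ ∀ η : ℝ, 0 < η → η ≤ 1 → ∃ X₀ : ℝ, ∀ X : ℝ, X₀ ≤ X →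
    ∀ (lam : ℝ) (A : ℕ), 1 ≤ lam → 1 ≤ A → ∀ M N : ℕ, X ^ η ≤ N → ∀ m : ℕ,
    Real.log X * Real.exp (Real.exp (C * (A ^ 2 * Real.log (2 * A) * lam / η))) ≤ m →
    (m : ℝ) ≤ X ^ (η / 2) →
    (((Ioc M (M + N)).filter (fun n => (((Ioc n (n + m)).filter (fun k => GapAt A (lam * Real.log X) k)).card : ℝ) <
        Real.exp (-Real.exp (C * (A ^ 2 * Real.log (2 * A) * lam / η))) * m)).card : ℝ) ≤
      Real.exp (-(lam / η)) * N := by
  obtain ⟨c₃, e₀, L₀, hc₃, he₀, hL₀, hcls⟩ := cls_grp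
  obtain ⟨Cv, hCv, hsv⟩ := surv_num
  obtain ⟨C', hC'⟩ : ∃ C' : ℝ, C' = 2 * Cv / c₃ + e₀ := ⟨_, rfl⟩
  have hq0 : 0 < 2 * Cv / c₃ := by positivity
  have hC'1 : 6400 ≤ C' := by linarith
  have hC'2 : 2 * Cv / c₃ ≤ C' := by linarith
  have hC'3 : e₀ ≤ C' := by linarith
  have hC'0 : 0 < C' := by linarith
  refine ⟨8 * C', by linarith, ?_⟩
  intro η hη hη1
  refine ⟨Real.exp (2 * (L₀ + 1) / η), ?_⟩
  intro X hX lam A hlam hA M N hN m hm1 hm2
  have hX0 : 0 < X := (Real.exp_pos _).trans_le hX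
  obtain ⟨L, hL⟩ : ∃ L : ℝ, L = η / 2 * Real.log X := ⟨_, rfl⟩
  have hlogX : Real.log X = 2 * L / η := by rw [hL]; field_simp
  have hLs : L₀ + 1 ≤ L := by
    have h1 : 2 * (L₀ + 1) / η ≤ Real.log X := by
      rw [Real.le_log_iff_exp_le hX0]; exact hX
    rw [div_le_iff₀ hη] at h1
    rw [hL]
    linarith
  have hLL₀ : L₀ ≤ L := by linarith
  have hL8 : (10:ℝ) ^ 8 ≤ L := hL₀.trans hLL₀
  have hL0 : 0 < L := by linarith
  have hAr : (1:ℝ) ≤ A := by exact_mod_cast hA
  have hA0 : (0:ℝ) < A := by linarith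
  have hlam0 : 0 < lam := by linarith
  obtain ⟨hK1, hK2, hK3⟩ := num_K hAr
  obtain ⟨K, hK⟩ : ∃ K : ℝ, K = 2 * ((A : ℝ) ^ 2 * Real.log (2 * A)) := ⟨_, rfl⟩
  rw [← hK] at hK1 hK2
  obtain ⟨e, he⟩ : ∃ e : ℝ, e = C' * (K * lam / (1 * η)) := ⟨_, rfl⟩
  have h4e : 8 * C' * ((A : ℝ) ^ 2 * Real.log (2 * A) * lam / η) = 4 * e := by rw [he, hK]; ring
  rw [h4e] at hm1 ⊢
  rw [hlogX] at hm1 ⊢
  have hmL : (m : ℝ) ≤ Real.exp L := by
    refine hm2.trans (le_of_eq ?_)
    rw [Real.rpow_def_of_pos hX0, hL]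
    congr 1
    ring
  have hNr : Real.exp (2 * L) ≤ N := by
    refine le_trans (le_of_eq ?_) hN
    rw [Real.rpow_def_of_pos hX0, hL]
    congr 1
    ring
  obtain ⟨E4, hE4⟩ : ∃ E4 : ℝ, E4 = Real.exp (Real.exp (4 * e)) := ⟨_, rfl⟩
  rw [← hE4] at hm1
  have hE40 : 0 < E4 := by rw [hE4]; exact Real.exp_pos _
  have hLX1 : 1 ≤ 2 * L / η := by
    rw [le_div_iff₀ hη]; linarith
  have hLX0 : 0 < 2 * L / η := by linarith
  have hE4m : E4 ≤ m := by
    refine le_trans ?_ hm1
    nlinarith only [hLX1, hE40]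
  have hL4e : Real.exp (4 * e) ≤ L := by
    apply Real.exp_le_exp.1
    rw [← hE4]
    exact hE4m.trans hmL
  obtain ⟨f1, f2, f3, f4, f5, f6, f7, f9, f10, f11, f12⟩ :=
    num_gold hη hη1 hlam one_pos le_rfl hK1 hC'1 he hL4e hL8
  obtain ⟨g1, g2, g3, g4, g5, g6, g7, g8, g9⟩ := num_gap hη hη1 hlam hAr hK2 hC'1 he hL4e hL8
  have he6400 : 6400 ≤ e := hC'1.trans f1
  have he0 : 0 < e := by linarith
  obtain ⟨k1, k2, k3, k4, k5, k6⟩ := num_gold2 he6400 hL8 f6
  -- the radius
  obtain ⟨t, ht⟩ : ∃ t : ℝ, t = lam * (2 * L / η) := ⟨_, rfl⟩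
  rw [← ht] at g1 g5 ⊢
  have ht0 : 0 < t := by linarith
  have hLt : L ≤ t := by
    have h1 : 2 * L ≤ 2 * L / η := by
      rw [le_div_iff₀ hη]; nlinarith only [hL0, hη1]
    rw [ht]
    nlinarith only [h1, hlam, hL0, hLX0]
  have hAt0 : 0 < A * t := by positivity
  have hAt1 : 1 ≤ A * t := by nlinarith only [hAr, g1]
  obtain ⟨H, hH⟩ : ∃ H : ℕ, H = ⌊2 * (A * t)⌋₊ := ⟨_, rfl⟩
  have hHr : (H : ℝ) ≤ 2 * (A * t) := by rw [hH]; exact Nat.floor_le (by positivity)
  have hHr2 : 2 * (A * t) < H + 1 := by rw [hH]; exact Nat.lt_floor_add_one _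
  have hH0 : (0:ℝ) ≤ H := Nat.cast_nonneg _
  obtain ⟨s, hs⟩ : ∃ s : ℕ, s = 2 * H + 2 := ⟨_, rfl⟩
  have hs0 : 0 < s := by omega
  have hsr : (s : ℝ) = 2 * H + 2 := by rw [hs]; push_cast; ring
  have hsr0 : (0:ℝ) < s := by exact_mod_cast hs0
  have hsT : (s : ℝ) ≤ 8 * (A * t) := by rw [hsr]; linarith
  have hs2 : t / A + 1 ≤ s := by
    have h1 : t / A ≤ A * t := by
      rw [div_le_iff₀ hA0]
      nlinarith only [hAr, ht0, mul_pos hA0 ht0]
    rw [hsr]
    linarith
  obtain ⟨m₁, hm₁⟩ : ∃ m₁ : ℕ, m₁ = m / s := ⟨_, rfl⟩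
  have hm₁1 : s * m₁ ≤ m := by rw [hm₁]; exact Nat.mul_div_le _ _
  have hm₁2 : (m : ℝ) < s * (m₁ + 1) := by
    have : m < s * (m₁ + 1) := by
      have := Nat.lt_mul_div_succ m hs0
      rw [← hm₁] at this
      exact this
    exact_mod_cast this
  obtain ⟨E2, hE2⟩ : ∃ E2 : ℝ, E2 = Real.exp (Real.exp (2 * e)) := ⟨_, rfl⟩
  have hE21 : 1 ≤ E2 := by rw [hE2]; exact Real.one_le_exp (Real.exp_pos _).le
  have hexp42 : Real.exp (2 * e) + e ≤ Real.exp (4 * e) := by
    have h1 : Real.exp (4 * e) = Real.exp (2 * e) * Real.exp (2 * e) := by rw [← Real.exp_add]; congr 1; ring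
    have h2 := Real.add_one_le_exp (2 * e)
    rw [h1]
    nlinarith only [h2, he0]
  have hEe : E2 * Real.exp e ≤ E4 := by
    rw [hE2, hE4, ← Real.exp_add]
    exact Real.exp_le_exp.2 hexp42
  have hEp : 0 < Real.exp e := Real.exp_pos e
  have hEn : Real.exp (-e) * Real.exp e = 1 := by rw [← Real.exp_add]; simp
  have hAl : 16 * (A * lam) ≤ Real.exp e := by
    have h1 := mul_le_mul_of_nonneg_right g6 hEp.le
    rw [mul_assoc, hEn] at h1
    linarith
  have hm₁3 : E2 ≤ m₁ := by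
    have h1 : 8 * (A * t) * (E2 + 1) ≤ m := by
      have h2 : 8 * (A * t) * (E2 + 1) ≤ 8 * (A * t) * (2 * E2) :=
        mul_le_mul_of_nonneg_left (by linarith) (by linarith)
      have h3 : 8 * (A * t) * (2 * E2) = (2 * L / η) * (16 * (A * lam) * E2) := by
        rw [ht]; ring
      have h4 : 16 * (A * lam) * E2 ≤ E4 := by
        refine le_trans ?_ hEe
        rw [mul_comm E2]
        exact mul_le_mul_of_nonneg_right hAl (by linarith)
      have h5 : (2 * L / η) * (16 * (A * lam) * E2) ≤ 2 * L / η * E4 :=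
        mul_le_mul_of_nonneg_left h4 hLX0.le
      linarith
    have h2 : 8 * (A * t) * (E2 + 1) < 8 * (A * t) * (m₁ + 1) := by
      have h3 : (s : ℝ) * (m₁ + 1) ≤ 8 * (A * t) * (m₁ + 1) := mul_le_mul_of_nonneg_right hsT (by positivity)
      linarith
    have h3 := lt_of_mul_lt_mul_left h2 (by linarith)
    linarith
  have hm₁0 : (1:ℝ) ≤ m₁ := hE21.trans hm₁3
  obtain ⟨θ₁, hθ₁⟩ : ∃ θ₁ : ℝ, θ₁ = Real.exp (-Real.exp (2 * e)) := ⟨_, rfl⟩
  have hθ₁0 : 0 < θ₁ := by rw [hθ₁]; exact Real.exp_pos _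
  have hcount : Real.exp (-Real.exp (4 * e)) * m ≤ θ₁ * m₁ * (t / A) := by
    have h1 : Real.exp (-Real.exp (4 * e)) ≤ θ₁ * Real.exp (-e) := by
      rw [hθ₁, ← Real.exp_add]
      exact Real.exp_le_exp.2 (by linarith)
    have h2 : (m : ℝ) ≤ 16 * (A * t) * m₁ := by
      have h3 : (s : ℝ) * (m₁ + 1) ≤ 8 * (A * t) * (2 * m₁) := by
        apply mul_le_mul hsT _ (by positivity) (by positivity)
        linarith
      linarith
    calc Real.exp (-Real.exp (4 * e)) * m ≤ (θ₁ * Real.exp (-e)) * (16 * (A * t) * m₁) :=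
          mul_le_mul h1 h2 (Nat.cast_nonneg _) (by positivity)
      _ = (16 * A ^ 2 * Real.exp (-e)) * (θ₁ * m₁ * (t / A)) := by field_simp
      _ ≤ 1 * (θ₁ * m₁ * (t / A)) := mul_le_mul_of_nonneg_right g7 (by positivity)
      _ = _ := by ring
  -- the sieve
  obtain ⟨P, hP⟩ : ∃ P : ℕ, P = primorial ⌊L / 32⌋₊ := ⟨_, rfl⟩
  have hPpos : 0 < P := by rw [hP]; exact primorial_pos _
  have hPr : (0:ℝ) < P := by exact_mod_cast hPpos
  have hPx : (P:ℝ) ≤ Real.exp (L / 16) := by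
    rw [hP]
    refine (primorial_le_exp (L / 32) (by positivity)).trans (le_of_eq ?_)
    congr 1
    ring
  have hPN : (P : ℝ) ≤ N := hPx.trans ((Real.exp_le_exp.2 (by linarith)).trans hNr)
  obtain ⟨z, hz⟩ : ∃ z : ℝ, z = Real.exp (L / (6400 * e)) := ⟨_, rfl⟩
  have hz1 : 1 ≤ z := by rw [hz]; exact Real.one_le_exp (by positivity)
  have hzL : z ≤ Real.exp L := by
    rw [hz]
    apply Real.exp_le_exp.2
    rw [div_le_iff₀ (by positivity)]
    nlinarith only [hL0, he6400]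
  have heL : e ≤ L := by
    have h2 : e ≤ e ^ 4 := by
      calc e = e ^ 1 := by ring
        _ ≤ e ^ 4 := pow_le_pow_right₀ (by linarith) (by norm_num)
    linarith
  have hAe : (A : ℝ) ≤ e := by linarith
  have hAL : (A : ℝ) ≤ L := by linarith
  have hA2L : (A : ℝ) * A ≤ L := by
    have h1 : (A : ℝ) * A = A ^ 2 := by ring
    rw [h1]; linarith
  have hlogL : Real.log L ≤ L := by
    have := Real.log_le_sub_one_of_pos hL0
    linarith
  have hAx : A ≤ ⌊L / 32⌋₊ := by
    apply Nat.le_floor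
    linarith
  have hAH : 2 * (A : ℝ) * H ≤ 16 * L ^ 3 := by
    refine le_trans ?_ g5
    have := mul_le_mul_of_nonneg_left hHr (show 0 ≤ 2 * (A : ℝ) by positivity)
    linarith
  have h16 : 16 * L ^ 3 < L ^ 6 := by
    have h1 : L ^ 6 = L ^ 3 * L ^ 3 := by ring
    have h2 : 0 < L ^ 3 := by positivity
    have h3 : 16 < L ^ 3 := by
      have h4 : (10 ^ 8 : ℝ) ^ 3 ≤ L ^ 3 := pow_le_pow_left₀ (by norm_num) hL8 3
      refine lt_of_lt_of_le ?_ h4
      norm_num
    rw [h1]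
    exact mul_lt_mul_of_pos_right h3 h2
  have hk5' : L * (2 * Real.exp L + 16 * L ^ 3 + 6) ≤ 2 * Real.exp (2 * L) := by linarith
  obtain ⟨P₁, hP₁⟩ : ∃ P₁ : ℕ, P₁ = PA A (L / 32) := ⟨_, rfl⟩
  have hP₁d : P₁ ∣ primorial ⌊L / 32⌋₊ := by rw [hP₁]; exact Dvd.intro _ (PA_mul hAx)
  obtain ⟨δ, hδ⟩ : ∃ δ : ℝ, δ = 17 * Real.exp (-(e / 2)) + (2 * L + 0 + 1) / L ^ 3 := ⟨_, rfl⟩
  rw [← hδ] at g9
  have hlL0 : 0 < Real.log L := Real.log_pos (by linarith)
  have hone : ∀ b ∈ range P, (((Ioc (M : ℤ) (M + N)).filter (fun n : ℤ => (P : ℤ) ∣ n - b ∧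
      ¬ (θ₁ * m₁ ≤ (((range m₁).filter (fun i => CovP P₁ (L ^ 6) z (VM A H (s * (i + 1))) n)).card : ℝ)))).card : ℝ) ≤
      2 * (δ * ((N : ℝ) / P + 1)) := by
    intro b hb
    have hki : ∀ i < m₁, s * (i + 1) ≤ m := fun i hi => (Nat.mul_le_mul_left s hi).trans hm₁1
    have h1 := hcls L e hLL₀ (hC'3.trans f1) f7 (2 * L) 0 (by positivity) k3 le_rfl (by positivity)
      m₁ (by rw [← hE2]; exact hm₁3) (fun i => VM A H (s * (i + 1))) (range m₁) ∅ P₁ (b : ℤ)
      (Finset.Subset.refl _) (by rw [Finset.card_range]; linarith) hP₁d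
      (by intro p hp; simp at hp) (by simp) (by
        intro i _ v hv p hp hpL _ hdvd
        obtain ⟨a, h, h1, h2, -, -, rfl⟩ := mem_VM.1 hv
        simp only at hdvd
        have h3 : p ∣ a := by exact_mod_cast hdvd
        have h4 : p ≤ a := Nat.le_of_dvd h1 h3
        have h5 : (p : ℝ) ≤ A := by exact_mod_cast h4.trans h2
        linarith) (by
        intro i _ v hv v' hv' hne p hp hpL _ hdvd
        obtain ⟨h1, h2⟩ := VM_in hv hv' hne
        have h3 : (p : ℤ) ≤ |dtm v v'| := Int.le_of_dvd (abs_pos.2 h1) ((dvd_abs _ _).2 hdvd)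
        have h4 : (p : ℝ) ≤ |(dtm v v' : ℝ)| := by exact_mod_cast h3
        linarith) (by
        intro i hi j hj hij v hv v' hv'
        have hi' := Finset.mem_range.1 hi
        have hj' := Finset.mem_range.1 hj
        have hsep : s * (i + 1) + 2 * H < s * (j + 1) ∨ s * (j + 1) + 2 * H < s * (i + 1) := by
          rcases Nat.lt_or_gt_of_ne hij with h | h
          · left
            have h6 : s * (i + 1 + 1) ≤ s * (j + 1) := Nat.mul_le_mul_left s (by omega)
            have h7 : s * (i + 1 + 1) = s * (i + 1) + s := by ring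
            omega
          · right
            have h6 : s * (j + 1 + 1) ≤ s * (i + 1) := Nat.mul_le_mul_left s (by omega)
            have h7 : s * (j + 1 + 1) = s * (j + 1) + s := by ring
            omega
        obtain ⟨h1, h2⟩ := VM_cross (B := m) (hki i hi') (hki j hj') hsep hv hv'
        refine ⟨h1, h2.trans ?_⟩
        have h3 : (A : ℝ) * A * m ≤ L * Real.exp L := mul_le_mul hA2L hmL (Nat.cast_nonneg _) hL0.le
        have h4 : L * Real.exp L + 16 * L ^ 3 ≤ Real.exp (2 * L) := by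
          have h5 : L * Real.exp L + 16 * L ^ 3 ≤ L * (Real.exp L + 8 * L ^ 3 + 3) := by
            have h6 : 16 * L ^ 3 ≤ L * (8 * L ^ 3) := by
              have h7 : 2 * (8 * L ^ 3) ≤ L * (8 * L ^ 3) :=
                mul_le_mul_of_nonneg_right (by linarith) (by positivity)
              linarith
            nlinarith only [h6, hL0]
          exact h5.trans k5
        linarith) (by
        intro i _
        refine (sv_VM P₁ A H (s * (i + 1)) (b : ℤ) (Cv * Real.log (2 * A) * (A * t) / Real.log L) ?_).trans ?_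
        · intro u
          rw [hP₁]
          exact hsv L t A H hA hL8 g4 hLt hH (by linarith) u
        · rw [← mul_div_assoc]
          apply div_le_div_of_nonneg_right _ hlL0.le
          have h1 : (A : ℝ) * (Cv * Real.log (2 * A) * (A * t)) = (2 * Cv) * (K * lam / (1 * η)) * L / 2 := by
            rw [hK, ht]; field_simp
          have h2 : c₃ * e * L = (C' * c₃) * (K * lam / (1 * η)) * L := by rw [he]; ring
          rw [h1, h2]
          have h3 : 2 * Cv ≤ C' * c₃ := by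
            rw [div_le_iff₀ hc₃] at hC'2
            exact hC'2
          have h4 : 0 ≤ K * lam / (1 * η) := by positivity
          have h5 : (2 * Cv) * (K * lam / (1 * η)) ≤ (C' * c₃) * (K * lam / (1 * η)) :=
            mul_le_mul_of_nonneg_right h3 h4
          have h6 : (2 * Cv) * (K * lam / (1 * η)) * L ≤ (C' * c₃) * (K * lam / (1 * η)) * L :=
            mul_le_mul_of_nonneg_right h5 hL0.le
          have h7 : 0 ≤ (2 * Cv) * (K * lam / (1 * η)) * L := by positivity
          linarith) (M : ℤ) N hNr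
    rw [← hδ, ← hz, ← hθ₁, ← hP] at h1
    refine le_trans (le_of_eq ?_) h1
    congr 2
    apply Finset.filter_congr
    intro n _
    rw [not_le]
  have hall := sum_classes (Ioc (M : ℤ) (M + N)) P hPpos (fun n => θ₁ * m₁ ≤ (((range m₁).filter
      (fun i => CovP P₁ (L ^ 6) z (VM A H (s * (i + 1))) n)).card : ℝ))
  have hsum : ((((Ioc (M : ℤ) (M + N)).filter (fun n => ¬ (θ₁ * m₁ ≤ (((range m₁).filter
      (fun i => CovP P₁ (L ^ 6) z (VM A H (s * (i + 1))) n)).card : ℝ))))).card : ℝ) ≤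
      Real.exp (-(lam / η)) / 2 * N := by
    refine hall.trans ((Finset.sum_le_sum hone).trans ?_)
    rw [Finset.sum_const, Finset.card_range, nsmul_eq_mul]
    have h4 : (P : ℝ) * ((N : ℝ) / P + 1) = N + P := by field_simp
    have h5 : (P : ℝ) * (2 * (δ * ((N : ℝ) / P + 1))) = 2 * δ * (N + P) := by
      rw [← h4]; ring
    rw [h5]
    have h6 : 2 * δ * (N + P) ≤ 2 * (Real.exp (-(lam / η)) / 8) * (N + N) := by
      apply mul_le_mul
      · linarith
      · linarith
      · positivity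
      · positivity
    linarith
  -- conclusion
  set F : Finset ℕ := (Ioc M (M + N)).filter (fun n => (((Ioc n (n + m)).filter (fun k => GapAt A t k)).card : ℝ) <
    Real.exp (-Real.exp (4 * e)) * m) with hF
  have hsplit : F.card = (F.filter (fun n : ℕ => A * z + H < (n : ℝ))).card +
      (F.filter (fun n : ℕ => ¬ A * z + H < (n : ℝ))).card :=
    (Finset.card_filter_add_card_filter_not (s := F) (fun n : ℕ => A * z + H < (n : ℝ))).symm
  have hF1 : ((F.filter (fun n : ℕ => A * z + H < (n : ℝ))).card : ℝ) ≤ Real.exp (-(lam / η)) / 2 * N := by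
    refine le_trans ?_ hsum
    rw [Nat.cast_le]
    apply Finset.card_le_card_of_injOn (fun n : ℕ => (n : ℤ))
    · intro n hn
      rw [Finset.mem_coe, Finset.mem_filter, hF, Finset.mem_filter, Finset.mem_Ioc] at hn
      obtain ⟨⟨⟨hn1, hn2⟩, hn3⟩, hn4⟩ := hn
      rw [Finset.mem_coe, Finset.mem_filter, Finset.mem_Ioc]
      refine ⟨⟨by show (M : ℤ) < n; exact_mod_cast hn1, by show (n : ℤ) ≤ M + N; exact_mod_cast hn2⟩, ?_⟩
      intro hcon
      have h1 := gap_count A s m₁ m n hA t ht0.le hm₁1 hs2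
        ((range m₁).filter (fun i => CovP P₁ (L ^ 6) z (VM A H (s * (i + 1))) n)) (Finset.filter_subset _ _) (by
          intro i hi
          have h2 := (Finset.mem_filter.1 hi).2
          rw [hP₁] at h2
          exact gap_of_cov A H (s * (i + 1)) n (L / 32) (L ^ 6) z (2 * t) hAx (by linarith) (by linarith)
            (by linarith) (by linarith) hn4 h2)
      have h2 : θ₁ * m₁ * (t / A) ≤
          (((range m₁).filter (fun i => CovP P₁ (L ^ 6) z (VM A H (s * (i + 1))) n)).card : ℝ) * (t / A) :=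
        mul_le_mul_of_nonneg_right hcon (by positivity)
      exact absurd (hcount.trans (h2.trans h1)) (not_le.2 hn3)
    · intro n _ n' _ h
      simpa using h
  have hF2 : ((F.filter (fun n : ℕ => ¬ A * z + H < (n : ℝ))).card : ℝ) ≤ Real.exp (-(lam / η)) / 2 * N := by
    have h1 : F.filter (fun n : ℕ => ¬ A * z + H < (n : ℝ)) ⊆ range (⌊A * z + H⌋₊ + 1) := by
      intro n hn
      rw [Finset.mem_filter] at hn
      rw [Finset.mem_range]
      have := Nat.le_floor (not_lt.1 hn.2)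
      omega
    have h2 := Finset.card_le_card h1
    rw [Finset.card_range] at h2
    have h3 : ((F.filter (fun n : ℕ => ¬ A * z + H < (n : ℝ))).card : ℝ) ≤ (⌊A * z + H⌋₊ : ℝ) + 1 := by
      exact_mod_cast h2
    have h4 : (⌊A * z + H⌋₊ : ℝ) ≤ A * z + H := Nat.floor_le (by positivity)
    -- L ^ 2 * (...) is small
    have h5 : (H : ℝ) ≤ 8 * L ^ 3 := by
      have h6 : 2 * (1:ℝ) * H ≤ 2 * A * H := by
        apply mul_le_mul_of_nonneg_right _ hH0
        linarith
      linarith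
    have h6 : 2 * L * (A * z + H + 1) ≤ Real.exp (2 * L) := by
      have h7 : (A : ℝ) * z ≤ (L / 16) * Real.exp L := by
        apply mul_le_mul _ hzL (by linarith) (by positivity)
        have : Real.log L / 25600 ≤ L / 16 := by linarith
        linarith
      have h8 := Real.pow_div_factorial_le_exp L hL0.le 6
      norm_num [Nat.factorial] at h8
      have hEL : Real.exp (2 * L) = Real.exp L * Real.exp L := by rw [← Real.exp_add]; congr 1; ring
      have h9 : 2 * L * ((L / 16) * Real.exp L) ≤ Real.exp (2 * L) / 2 := by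
        rw [hEL]
        have h10 : L ^ 2 / 4 ≤ Real.exp L := by
          have := Real.pow_div_factorial_le_exp L hL0.le 2
          norm_num [Nat.factorial] at this
          nlinarith only [this, sq_nonneg L]
        have h11 := mul_le_mul_of_nonneg_right h10 (Real.exp_pos L).le
        nlinarith only [h11]
      have h12 : 2 * L * (8 * L ^ 3 + 1) ≤ Real.exp (2 * L) / 2 := by
        have h13 : 4 * (L * (8 * L ^ 3 + 1)) ≤ 4 * (L * (Real.exp L + 8 * L ^ 3 + 3)) := by
          apply mul_le_mul_of_nonneg_left _ (by norm_num)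
          apply mul_le_mul_of_nonneg_left _ hL0.le
          linarith [Real.exp_pos L]
        have h14 : 16 * L ^ 4 + 2 * L ≤ Real.exp L / 2 := by
          have e1 : L ^ 6 = L * L * L ^ 4 := by ring
          have e2 : 10 ^ 8 * 10 ^ 8 * L ^ 4 ≤ L * L * L ^ 4 := by
            apply mul_le_mul_of_nonneg_right _ (by positivity)
            exact mul_le_mul hL8 hL8 (by norm_num) hL0.le
          have e3 : L ≤ L ^ 4 := by
            calc L = L ^ 1 := by ring
              _ ≤ L ^ 4 := pow_le_pow_right₀ (by linarith) (by norm_num)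
          nlinarith only [h8, e1, e2, e3, hL0]
        have h15 : Real.exp L ≤ Real.exp (2 * L) := Real.exp_le_exp.2 (by linarith)
        have h16 : 2 * L * (8 * L ^ 3 + 1) = 16 * L ^ 4 + 2 * L := by ring
        rw [h16]
        linarith
      have h17 : 2 * L * (A * z + H + 1) ≤ 2 * L * ((L / 16) * Real.exp L + (8 * L ^ 3 + 1)) :=
        mul_le_mul_of_nonneg_left (by linarith) (by positivity)
      linarith
    have h7 : A * z + H + 1 ≤ Real.exp (-(lam / η)) / 2 * N := by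
      have h8 : 1 ≤ Real.exp (-(lam / η)) * L := by
        rw [Real.exp_neg, ← div_eq_inv_mul, le_div_iff₀ (Real.exp_pos _), one_mul]
        exact g8
      have h9 : 0 ≤ A * z + H + 1 := by positivity
      have h10 : 1 * (A * z + H + 1) ≤ Real.exp (-(lam / η)) * L * (A * z + H + 1) :=
        mul_le_mul_of_nonneg_right h8 h9
      have h11 : Real.exp (-(lam / η)) * (2 * L * (A * z + H + 1)) ≤ Real.exp (-(lam / η)) * N :=
        mul_le_mul_of_nonneg_left (h6.trans hNr) (Real.exp_pos _).le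
      linarith
    linarith
  have hFr : (F.card : ℝ) = (F.filter (fun n : ℕ => A * z + H < (n : ℝ))).card +
      (F.filter (fun n : ℕ => ¬ A * z + H < (n : ℝ))).card := by exact_mod_cast hsplit
  rw [hFr]
  linarith

end Pool.Agent.T2h81.UC
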